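import Pool.Agent.Lib.MP_4fbc34_pr.Base

/-!
Rooted trees with labelled edges, marked trees (used as clusters), definitions.
-/

set_option autoImplicit false

noncomputable section

namespace MP4fb

variable {d : ℕ} {α : Type}

/-- Rooted trees built by grafting a child tree with an edge at the root. -/
inductive RT (α : Type) : Type
  | leaf : RT α
  | graft : RT α → α → RT α → RT α

/-- list of the edges -/
def RT.edges : RT α → List α
  | .leaf => []
  | .graft T e T' => T.edges ++ e :: T'.edges

/-- `T.WF src dst x`: the edges of `T` have matching end points and the root is at `x`. -/
def RT.WF (src dst : α → E d) : E d → RT α → Prop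
  | _, .leaf => True
  | x, .graft T e T' => RT.WF src dst x T ∧ src e = x ∧ RT.WF src dst (dst e) T'

/-- Trees with a marked vertex, decomposed along the path from the root to the marked vertex. -/
inductive MT (α : Type) : Type
  | here : RT α → MT α
  | step : RT α → α → MT α → MT α

/-- all edges -/
def MT.edges : MT α → List α
  | .here T => T.edges
  | .step T e m => T.edges ++ e :: m.edges

/-- all edges, flagged with `true` if they are on the path to the marked vertex -/
def MT.fedges : MT α → List (α × Bool)
  | .here T => T.edges.map (fun e => (e, false))
  | .step T e m => T.edges.map (fun e => (e, false)) ++ (e, true) :: m.fedges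

/-- position of the marked vertex -/
def MT.bot (dst : α → E d) : E d → MT α → E d
  | x, .here _ => x
  | _, .step _ e m => MT.bot dst (dst e) m

/-- end points match and the root is at `x` -/
def MT.WF (src dst : α → E d) : E d → MT α → Prop
  | x, .here T => T.WF src dst x
  | x, .step T e m => T.WF src dst x ∧ src e = x ∧ MT.WF src dst (dst e) m

/-- `Conn A l`: each pair in the list starts at a point of `A` or at the end point of an earlier pair or at
the starting point of an earlier pair. -/
def Conn : List (E d) → List (E d × E d) → Prop
  | _, [] => True
  | A, p :: l => p.1 ∈ A ∧ Conn (p.2 :: A) l

end MP4fb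

end
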