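import Pool.Agent.Lib.MP_4fbc34_pr.AoBasic
import Pool.Agent.Lib.MP_4fbc34_pr.ClusDef

/-!
JOB AoAsm: assembling animals.  `pts` are the macro pieces as pairs of end points, `(0, c0)` is the first.

If the list `l` is empty the object of the first piece itself works (increase the budget with `ao_cone`).
Otherwise build the tree step by step.  A hub point for a skeleton point `x` (one of `c0`, `p.1`, `p.2`):
if `q ≠ ∞` it is `N⁻¹ • x` itself (a Steiner point or an atom, cost at most `q`), if `q = ∞` it is an atom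
`hub x ∈ S2` with `‖hub x - N⁻¹ • x‖ <= h0` (choose a function `hub` with this property; for `q ≠ ∞` put
`hub x = N⁻¹ • x`, distance `0 <= h0`).
Start: piece `(0, c0)` with its object in `S2` from `0` to `N⁻¹ c0`.  If the object is empty, the tree is
`[hub c0]` of length `0`, and `‖0 - hub c0‖ <= L2 0 + h0`.  If it is a tree `V0` of length `ℓ0` with
`x0, y0 ∈ V0` and `ℓ0 + ‖0 - x0‖ + ‖N⁻¹ c0 - y0‖ <= L2 0`, join `[hub c0]` to `V0` by the edge
`y0 - hub c0`.  In both cases we get a tree `V` containing `hub c0`, and a point `z ∈ V` with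
`length + ‖0 - z‖ <= L2 0 + h0`.
Step: piece `(a, c)` with `hub a` in the tree (by `Conn`).  If its object is empty, `‖a - c‖ / N <= L2 i`:
join `[hub c]` by the edge `hub a - hub c` of length at most `L2 i + 2 h0`.  Otherwise join its tree `W`
by the edge from `hub a` to `x' ∈ W`, and `[hub c]` by the edge from `y' ∈ W` to `hub c`: total extra length at
most `L2 i + 2 h0`.
So the total length plus `‖0 - z‖` is at most `∑ L2 + 2 h0 * number of pieces`, the list of vertices
consists of the vertices of all the trees and one hub for each piece; the cost is at most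
`∑ κ2 + q * number of pieces` for `q < ∞`, and `0` for `q = ∞` (all the objects then have cost `0` and all
hubs are atoms).  Take `b2 = z`.
Do the induction on the list `l` with the statement: there is a tree `V` of length `ℓ` with
`C2 i ⊆ V` for all pieces so far, `hub x ∈ V` for all skeleton points `x` so far, `z ∈ V`, and the bounds for
the length and the count.
-/

set_option autoImplicit false

open scoped ENNReal Classical

noncomputable section

namespace MP4fb

variable {d : ℕ}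

/-- number of vertices which are not atoms -/
def AoAsm_cnt (S : Set (E d)) (V : List (E d)) : ℕ := V.countP (fun x => decide (x ∉ S))

theorem AoAsm_cnt_append (S : Set (E d)) (V W : List (E d)) :
    AoAsm_cnt S (V ++ W) = AoAsm_cnt S V + AoAsm_cnt S W :=
  List.countP_append

theorem AoAsm_cnt_single_le (S : Set (E d)) (x : E d) : AoAsm_cnt S [x] ≤ 1 :=
  List.countP_le_length

theorem AoAsm_cnt_single_mem (S : Set (E d)) (x : E d) (hx : x ∈ S) : AoAsm_cnt S [x] = 0 := by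
  unfold AoAsm_cnt
  rw [List.countP_eq_zero]
  intro y hy
  rw [List.mem_singleton] at hy
  subst hy
  simp [hx]

theorem AoAsm_cost {q : ℝ≥0∞} {S : Set (E d)} {W : List (E d)} {κ : ℝ} (h0 : 0 ≤ κ)
    (h : ENNReal.ofReal κ = q * ((AoAsm_cnt S W : ℕ) : ℝ≥0∞)) :
    (q = ∞ → AoAsm_cnt S W = 0) ∧ q.toReal * (AoAsm_cnt S W : ℝ) = κ := by
  constructor
  · intro hq
    by_contra hne
    rw [hq, ENNReal.top_mul (by exact_mod_cast hne)] at h
    exact ENNReal.ofReal_ne_top h
  · have h2 := congrArg ENNReal.toReal h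
    rw [ENNReal.toReal_ofReal h0, ENNReal.toReal_mul, ENNReal.toReal_natCast] at h2
    exact h2.symm

theorem AoAsm_cost' {q : ℝ≥0∞} {S : Set (E d)} {V : List (E d)}
    (h : q = ∞ → AoAsm_cnt S V = 0) :
    ENNReal.ofReal (q.toReal * (AoAsm_cnt S V : ℝ)) = q * ((AoAsm_cnt S V : ℕ) : ℝ≥0∞) := by
  by_cases hq : q = ∞
  · rw [h hq]
    simp
  · rw [ENNReal.ofReal_mul ENNReal.toReal_nonneg, ENNReal.ofReal_toReal hq, ENNReal.ofReal_natCast]

/-- One step: the tree `V` contains `ha`, near `a`; attach the object from `a` to `b` and a hub `hb`. -/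
theorem AoAsm_step (q : ℝ≥0∞) (S : Set (E d)) (a b ha hb : E d) (h0 lam : ℝ) (C : Finset (E d))
    (κ : ℝ) (hobj : AO q S a b lam C κ) (hha : ‖ha - a‖ ≤ h0) (hhb : ‖hb - b‖ ≤ h0)
    (hbS : q = ∞ → hb ∈ S) (V : List (E d)) (L : ℝ) (hV : Tr V L) (haV : ha ∈ V)
    (hcV : q = ∞ → AoAsm_cnt S V = 0) :
    ∃ (V' : List (E d)) (L' : ℝ), Tr V' L' ∧ (∀ z ∈ V, z ∈ V') ∧ (∀ x ∈ C, x ∈ V') ∧ hb ∈ V' ∧
      L' ≤ L + lam + 2 * h0 ∧ (q = ∞ → AoAsm_cnt S V' = 0) ∧
      q.toReal * (AoAsm_cnt S V' : ℝ) ≤ q.toReal * (AoAsm_cnt S V : ℝ) + κ + q.toReal := by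
  have hq0 : 0 ≤ q.toReal := ENNReal.toReal_nonneg
  have hs1 : (AoAsm_cnt S [hb] : ℝ) ≤ 1 := by exact_mod_cast AoAsm_cnt_single_le S hb
  rcases hobj.2 with ⟨hC, hκ, hlen⟩ | ⟨W, LW, hW, hCW, ⟨x, hx, y, hy, hxy⟩, hκ0, hκ⟩
  · refine ⟨V ++ [hb], L + 0 + ‖ha - hb‖, Tr.join ha hb hV (Tr.single hb) haV
      (List.mem_singleton.2 rfl), ?_, ?_, ?_, ?_, ?_, ?_⟩
    · intro z hz
      exact List.mem_append_left _ hz
    · intro x hx
      rw [hC] at hx
      exact absurd hx (Finset.notMem_empty x)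
    · exact List.mem_append_right _ (List.mem_singleton.2 rfl)
    · have e : ha - hb = (ha - a) + (a - b) + -(hb - b) := by abel
      have h1 : ‖ha - hb‖ ≤ ‖ha - a‖ + ‖a - b‖ + ‖hb - b‖ := by
        rw [e]
        refine (norm_add_le _ _).trans ?_
        rw [norm_neg]
        exact add_le_add_left (norm_add_le _ _) _
      linarith
    · intro hq
      rw [AoAsm_cnt_append, hcV hq, AoAsm_cnt_single_mem S hb (hbS hq)]
    · rw [AoAsm_cnt_append, hκ]
      push_cast
      nlinarith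
  · obtain ⟨hc1, hc2⟩ := AoAsm_cost (S := S) (W := W) hκ0 hκ
    refine ⟨(V ++ W) ++ [hb], L + LW + ‖ha - x‖ + 0 + ‖y - hb‖,
      Tr.join y hb (Tr.join ha x hV hW haV hx) (Tr.single hb) (List.mem_append_right _ hy)
      (List.mem_singleton.2 rfl), ?_, ?_, ?_, ?_, ?_, ?_⟩
    · intro z hz
      exact List.mem_append_left _ (List.mem_append_left _ hz)
    · intro z hz
      exact List.mem_append_left _ (List.mem_append_right _ (hCW z hz))
    · exact List.mem_append_right _ (List.mem_singleton.2 rfl)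
    · have e1 : ha - x = (ha - a) + (a - x) := by abel
      have h1 : ‖ha - x‖ ≤ ‖ha - a‖ + ‖a - x‖ := by
        rw [e1]
        exact norm_add_le _ _
      have e2 : y - hb = -(b - y) + -(hb - b) := by abel
      have h2 : ‖y - hb‖ ≤ ‖b - y‖ + ‖hb - b‖ := by
        rw [e2]
        refine (norm_add_le _ _).trans ?_
        rw [norm_neg, norm_neg]
      linarith
    · intro hq
      rw [AoAsm_cnt_append, AoAsm_cnt_append, hcV hq, hc1 hq, AoAsm_cnt_single_mem S hb (hbS hq)]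
    · rw [AoAsm_cnt_append, AoAsm_cnt_append]
      push_cast
      nlinarith

/-- The induction. -/
theorem AoAsm_ind (q : ℝ≥0∞) (S : Set (E d)) (N h0 : ℝ) (hub : E d → E d) (G : E d → Prop)
    (hG : ∀ x, G x → (q = ∞ → hub x ∈ S) ∧ ‖hub x - N⁻¹ • x‖ ≤ h0) (l : List (E d × E d)) :
    ∀ A : List (E d), (∀ x ∈ A, G x) → (∀ p ∈ l, G p.2) → Conn A l →
    ∀ (V : List (E d)) (L : ℝ), Tr V L → (∀ x ∈ A, hub x ∈ V) → (q = ∞ → AoAsm_cnt S V = 0) →
    ∀ (L2 κ2 : Fin l.length → ℝ) (C2 : Fin l.length → Finset (E d)),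
      (∀ i, AO q S (N⁻¹ • (l.get i).1) (N⁻¹ • (l.get i).2) (L2 i) (C2 i) (κ2 i)) →
    ∃ (V' : List (E d)) (L' : ℝ), Tr V' L' ∧ (∀ z ∈ V, z ∈ V') ∧ (∀ i, ∀ x ∈ C2 i, x ∈ V') ∧
      L' ≤ L + ∑ i, L2 i + 2 * h0 * l.length ∧ (q = ∞ → AoAsm_cnt S V' = 0) ∧
      q.toReal * (AoAsm_cnt S V' : ℝ) ≤
        q.toReal * (AoAsm_cnt S V : ℝ) + ∑ i, κ2 i + q.toReal * l.length := by
  induction l with
  | nil =>
    intro A _ _ _ V L hV _ hcV L2 κ2 C2 _
    refine ⟨V, L, hV, fun z hz => hz, fun i => Fin.elim0 i, ?_, hcV, ?_⟩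
    · simp
    · simp
  | cons p l ih =>
    intro A hA hl hconn V L hV hAV hcV L2 κ2 C2 hobj
    obtain ⟨hp1, hconn'⟩ := hconn
    have hGp2 : G p.2 := hl p List.mem_cons_self
    have ho := hobj ⟨0, Nat.succ_pos _⟩
    obtain ⟨V1, L1, hV1, hsub1, hC1, hb1, hL1, hc1, hk1⟩ :=
      AoAsm_step q S (N⁻¹ • p.1) (N⁻¹ • p.2) (hub p.1) (hub p.2) h0 _ _ _ ho (hG p.1 (hA _ hp1)).2
        (hG p.2 hGp2).2 (hG p.2 hGp2).1 V L hV (hAV _ hp1) hcV
    obtain ⟨V', L', hV', hsub', hC', hL', hc', hk'⟩ := ih (p.2 :: A)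
      (by
        intro x hx
        rcases List.mem_cons.1 hx with h | h
        · rw [h]; exact hGp2
        · exact hA x h)
      (fun r hr => hl r (List.mem_cons_of_mem _ hr)) hconn' V1 L1 hV1
      (by
        intro x hx
        rcases List.mem_cons.1 hx with h | h
        · rw [h]; exact hb1
        · exact hsub1 _ (hAV x h))
      hc1 (fun i => L2 i.succ) (fun i => κ2 i.succ) (fun i => C2 i.succ) (fun i => hobj i.succ)
    refine ⟨V', L', hV', fun z hz => hsub' z (hsub1 z hz), ?_, ?_, hc', ?_⟩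
    · intro i
      refine Fin.cases ?_ ?_ i
      · intro x hx
        exact hsub' x (hC1 x hx)
      · intro i x hx
        exact hC' i x hx
    · have e : ∑ i, L2 i = L2 ⟨0, Nat.succ_pos _⟩ + ∑ i : Fin l.length, L2 i.succ :=
        Fin.sum_univ_succ (n := l.length) L2
      have e2 : (((p :: l).length : ℕ) : ℝ) = (l.length : ℝ) + 1 := by
        rw [List.length_cons]; push_cast; ring
      rw [e, e2]
      linarith
    · have e : ∑ i, κ2 i = κ2 ⟨0, Nat.succ_pos _⟩ + ∑ i : Fin l.length, κ2 i.succ :=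
        Fin.sum_univ_succ (n := l.length) κ2
      have e2 : (((p :: l).length : ℕ) : ℝ) = (l.length : ℝ) + 1 := by
        rw [List.length_cons]; push_cast; ring
      rw [e, e2]
      linarith

theorem ao_asm (q : ℝ≥0∞) (c0 : E d) (l : List (E d × E d)) (hl : Conn [c0] l) (S2 : Set (E d))
    (N h0 : ℝ) (hN : 0 < N) (h0' : 0 ≤ h0)
    (hhub : q = ∞ → l ≠ [] → ∀ p ∈ (0, c0) :: l, ∃ y ∈ S2, ‖y - N⁻¹ • p.2‖ ≤ h0)
    (L2 κ2 : Fin ((0, c0) :: l : List (E d × E d)).length → ℝ)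
    (C2 : Fin ((0, c0) :: l : List (E d × E d)).length → Finset (E d))
    (hobj : ∀ i, AO q S2 (N⁻¹ • (((0, c0) :: l : List (E d × E d)).get i).1)
      (N⁻¹ • (((0, c0) :: l : List (E d × E d)).get i).2) (L2 i) (C2 i) (κ2 i)) :
    ∃ (b2 : E d) (κ3 : ℝ),
      κ3 ≤ ∑ i, κ2 i + q.toReal * (2 * ((0, c0) :: l : List (E d × E d)).length) ∧
      AO q S2 0 b2 (∑ i, L2 i + 4 * h0 * ((0, c0) :: l : List (E d × E d)).length)
        (Finset.univ.biUnion C2) κ3 := by
  have hq0 : 0 ≤ q.toReal := ENNReal.toReal_nonneg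
  have hsumL : ∑ i, L2 i = L2 ⟨0, Nat.succ_pos _⟩ + ∑ i : Fin l.length, L2 i.succ :=
    Fin.sum_univ_succ (n := l.length) L2
  have hsumk : ∑ i, κ2 i = κ2 ⟨0, Nat.succ_pos _⟩ + ∑ i : Fin l.length, κ2 i.succ :=
    Fin.sum_univ_succ (n := l.length) κ2
  have hlen : ((((0, c0) :: l : List (E d × E d)).length : ℕ) : ℝ) = (l.length : ℝ) + 1 := by
    rw [List.length_cons]; push_cast; ring
  have hlen0 : (0 : ℝ) ≤ l.length := Nat.cast_nonneg _
  have hsupp : ↑(Finset.univ.biUnion C2) ⊆ S2 := by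
    intro x hx
    rw [Finset.mem_coe, Finset.mem_biUnion] at hx
    obtain ⟨i, _, hi⟩ := hx
    exact (hobj i).1 hi
  by_cases hl0 : l = []
  · subst hl0
    have ho := hobj ⟨0, Nat.succ_pos _⟩
    have hu : Finset.univ.biUnion C2 = C2 ⟨0, Nat.succ_pos _⟩ := by
      ext x
      rw [Finset.mem_biUnion]
      constructor
      · rintro ⟨i, _, hi⟩
        have : i = ⟨0, Nat.succ_pos _⟩ := Fin.ext (Nat.lt_one_iff.1 i.2)
        rw [this] at hi
        exact hi
      · intro hx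
        exact ⟨_, Finset.mem_univ _, hx⟩
    refine ⟨N⁻¹ • c0, κ2 ⟨0, Nat.succ_pos _⟩, ?_, ?_⟩
    · rw [hsumk, hlen]
      have e : ∑ i : Fin ([] : List (E d × E d)).length, κ2 i.succ = 0 := by simp
      rw [e]
      simp only [List.length_nil, Nat.cast_zero]
      nlinarith
    · rw [hu]
      refine ao_cone q S2 _ _ _ _ _ _ _ _ ho ?_
      have e : ∑ i : Fin ([] : List (E d × E d)).length, L2 i.succ = 0 := by simp
      rw [hsumL, e, hlen]
      have e1 : (N⁻¹ • (((0, c0) :: [] : List (E d × E d)).get ⟨0, Nat.succ_pos _⟩).1 : E d) = 0 := by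
        show (N⁻¹ • (0 : E d)) = 0
        exact smul_zero _
      have e2 : (N⁻¹ • (((0, c0) :: [] : List (E d × E d)).get ⟨0, Nat.succ_pos _⟩).2 : E d)
          = N⁻¹ • c0 := rfl
      rw [e1, e2, sub_self, norm_zero, sub_self, norm_zero]
      simp only [List.length_nil, Nat.cast_zero]
      linarith
  · -- hubs
    have hex : ∀ x : E d, ∃ y : E d, (∃ p ∈ ((0, c0) :: l : List (E d × E d)), x = p.2) →
        (q = ∞ → y ∈ S2) ∧ ‖y - N⁻¹ • x‖ ≤ h0 := by
      intro x
      by_cases hq : q = ∞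
      · by_cases hx : ∃ p ∈ ((0, c0) :: l : List (E d × E d)), x = p.2
        · obtain ⟨p, hp, hxp⟩ := hx
          obtain ⟨y, hy, hy2⟩ := hhub hq hl0 p hp
          refine ⟨y, fun _ => ⟨fun _ => hy, ?_⟩⟩
          rw [hxp]
          exact hy2
        · exact ⟨0, fun h => absurd h hx⟩
      · refine ⟨N⁻¹ • x, fun _ => ⟨fun h => absurd h hq, ?_⟩⟩
        rw [sub_self, norm_zero]
        exact h0'
    choose hub hhub' using hex
    have hG0 := hhub' c0 ⟨(0, c0), List.mem_cons_self, rfl⟩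
    -- the tree of the first piece
    have hstart : ∃ (V : List (E d)) (L : ℝ), Tr V L ∧
        (∀ x ∈ C2 ⟨0, Nat.succ_pos _⟩, x ∈ V) ∧ hub c0 ∈ V ∧
        (∃ z ∈ V, L + ‖(0 : E d) - z‖ ≤ L2 ⟨0, Nat.succ_pos _⟩ + h0) ∧
        (q = ∞ → AoAsm_cnt S2 V = 0) ∧
        q.toReal * (AoAsm_cnt S2 V : ℝ) ≤ κ2 ⟨0, Nat.succ_pos _⟩ + q.toReal := by
      have hs1 : (AoAsm_cnt S2 [hub c0] : ℝ) ≤ 1 := by
        exact_mod_cast AoAsm_cnt_single_le S2 (hub c0)
      have ho := hobj ⟨0, Nat.succ_pos _⟩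
      have e1 : (N⁻¹ • (((0, c0) :: l : List (E d × E d)).get ⟨0, Nat.succ_pos _⟩).1 : E d) = 0 := by
        show (N⁻¹ • (0 : E d)) = 0
        exact smul_zero _
      have e2 : (N⁻¹ • (((0, c0) :: l : List (E d × E d)).get ⟨0, Nat.succ_pos _⟩).2 : E d)
          = N⁻¹ • c0 := rfl
      rw [e1, e2] at ho
      rcases ho.2 with ⟨hC, hκ, hle⟩ | ⟨W, LW, hW, hCW, ⟨x, hx, y, hy, hxy⟩, hκ0, hκ⟩
      · refine ⟨[hub c0], 0, Tr.single _, ?_, List.mem_singleton.2 rfl,
          ⟨hub c0, List.mem_singleton.2 rfl, ?_⟩, ?_, ?_⟩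
        · intro x hx
          rw [hC] at hx
          exact absurd hx (Finset.notMem_empty x)
        · have e : (0 : E d) - hub c0 = (0 - N⁻¹ • c0) + -(hub c0 - N⁻¹ • c0) := by abel
          have h1 : ‖(0 : E d) - hub c0‖ ≤ ‖(0 : E d) - N⁻¹ • c0‖ + ‖hub c0 - N⁻¹ • c0‖ := by
            rw [e]
            refine (norm_add_le _ _).trans ?_
            rw [norm_neg]
          have h2 := hG0.2
          linarith
        · intro hq
          exact AoAsm_cnt_single_mem S2 _ (hG0.1 hq)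
        · rw [hκ]
          nlinarith
      · obtain ⟨hc1, hc2⟩ := AoAsm_cost (S := S2) (W := W) hκ0 hκ
        refine ⟨W ++ [hub c0], LW + 0 + ‖y - hub c0‖,
          Tr.join y (hub c0) hW (Tr.single _) hy (List.mem_singleton.2 rfl), ?_,
          List.mem_append_right _ (List.mem_singleton.2 rfl),
          ⟨x, List.mem_append_left _ hx, ?_⟩, ?_, ?_⟩
        · intro z hz
          exact List.mem_append_left _ (hCW z hz)
        · have e : y - hub c0 = -(N⁻¹ • c0 - y) + -(hub c0 - N⁻¹ • c0) := by abel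
          have h1 : ‖y - hub c0‖ ≤ ‖N⁻¹ • c0 - y‖ + ‖hub c0 - N⁻¹ • c0‖ := by
            rw [e]
            refine (norm_add_le _ _).trans ?_
            rw [norm_neg, norm_neg]
          have h2 := hG0.2
          linarith
        · intro hq
          rw [AoAsm_cnt_append, hc1 hq, AoAsm_cnt_single_mem S2 _ (hG0.1 hq)]
        · rw [AoAsm_cnt_append]
          push_cast
          nlinarith
    obtain ⟨V, L, hV, hCV, hhubV, ⟨z, hz, hLz⟩, hcV, hkV⟩ := hstart
    obtain ⟨V', L', hV', hsub', hC', hL', hc', hk'⟩ := AoAsm_ind q S2 N h0 hub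
      (fun x => ∃ p ∈ ((0, c0) :: l : List (E d × E d)), x = p.2) hhub' l [c0]
      (by
        intro x hx
        rw [List.mem_singleton] at hx
        exact ⟨(0, c0), List.mem_cons_self, hx⟩)
      (fun p hp => ⟨p, List.mem_cons_of_mem _ hp, rfl⟩) hl V L hV
      (by
        intro x hx
        rw [List.mem_singleton] at hx
        rw [hx]
        exact hhubV)
      hcV (fun i => L2 i.succ) (fun i => κ2 i.succ) (fun i => C2 i.succ) (fun i => hobj i.succ)
    refine ⟨z, q.toReal * (AoAsm_cnt S2 V' : ℝ), ?_, hsupp, Or.inr ⟨V', L', hV', ?_,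
      ⟨z, hsub' z hz, z, hsub' z hz, ?_⟩, by positivity, AoAsm_cost' hc'⟩⟩
    · rw [hsumk, hlen]
      nlinarith
    · intro x hx
      rw [Finset.mem_biUnion] at hx
      obtain ⟨i, _, hi⟩ := hx
      revert hi
      refine Fin.cases ?_ ?_ i
      · intro hi
        exact hsub' x (hCV x hi)
      · intro i hi
        exact hC' i x hi
    · rw [sub_self, norm_zero, add_zero, hsumL, hlen]
      nlinarith

end MP4fb

end
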