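import Pool.Agent.Lib.MP_4fbc34_pr.Base

/-!
JOB AoBasic: the elementary properties of animal objects, for every Steiner cost `q` in `[0, ∞]`.
* `tr_dist`: two vertices of a tree are at distance at most its length, and lengths are nonnegative
  (induction on `Tr`).
* cat: for two nonempty objects join the tree `V` (with `y ∈ V` next to `b`) and the tree `W` (with
  `x' ∈ W` next to `b`) by the edge `y x'`, whose length is at most `‖b - y‖ + ‖b - x'‖`; the costs add up
  because the lists are appended (`List.countP_append`).  If one object is empty only move the end points.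
* lip: map the tree by `Φ` (induction: `Tr V L` gives `Tr (V.map Φ) L'` with `L' <= K L`; to get the
  budget right); a vertex of the image which is not in `S'` comes from a vertex not in `S`, so
  `countP` does not increase; for `q = ∞` finiteness of the cost forces `countP = 0` on both sides.
  For finite `q` take `κ' = q.toReal * count'`.
* loc: every vertex of `V` is within distance `lam` of `a` (`tr_dist` and the budget), so the vertices which
  are not in `S ∩ closedBall a lam` are exactly those not in `S`: the same object works.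
* count: from `Tr V L` and `x ∈ V` get a closed polygon from `x` to `x` through all points of `V` of length
  at most `2 L` (induction on `Tr`, insert the closed polygon of the second tree at the vertex `x` of the
  first; state it as: for all `z ∈ V` there is a list `l` with `plen (z :: (l ++ [z])) <= 2 L` which contains
  `V`), then the counting lemma for polygons (prove it here or see `po_count`; you may not import PoBasic
  before it is finished, but you can restate the lemma): `r * card <= r + 2 L`.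
* rev: exchange `x` and `y`.  poly: the list `a, x, closed polygon from x to x` has length
  `‖a - x‖ + 2 L <= 2 lam`; for the empty object take `l = []`.  ins0: for `q = 0` the cost is `0`.
-/

set_option autoImplicit false

open scoped ENNReal Classical

noncomputable section

namespace MP4fb

variable {d : ℕ}

theorem tr_nonneg {V : List (E d)} {L : ℝ} (h : Tr V L) : 0 ≤ L := by
  induction h with
  | single x => exact le_rfl
  | join x y hV hW hx hy ih1 ih2 => exact add_nonneg (add_nonneg ih1 ih2) (norm_nonneg _)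

theorem tr_dist {V : List (E d)} {L : ℝ} (h : Tr V L) (x y : E d) (hx : x ∈ V) (hy : y ∈ V) :
    ‖x - y‖ ≤ L := by
  induction h generalizing x y with
  | single z =>
    rw [List.mem_singleton] at hx hy
    rw [hx, hy, sub_self, norm_zero]
  | @join V W L L' x0 y0 hV hW hx0 hy0 ih1 ih2 =>
    have h1 := tr_nonneg hV
    have h2 := tr_nonneg hW
    have h3 := norm_nonneg (x0 - y0)
    have key : ∀ u v : E d, u ∈ V → v ∈ W → ‖u - v‖ ≤ L + L' + ‖x0 - y0‖ := by
      intro u v hu hv
      have h4 := ih1 u x0 hu hx0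
      have h5 := ih2 y0 v hy0 hv
      have h6 : u - v = (u - x0) + (x0 - y0) + (y0 - v) := by abel
      rw [h6]
      have h7 := norm_add_le ((u - x0) + (x0 - y0)) (y0 - v)
      have h8 := norm_add_le (u - x0) (x0 - y0)
      linarith
    rcases List.mem_append.1 hx with hx | hx
    · rcases List.mem_append.1 hy with hy | hy
      · have := ih1 x y hx hy
        linarith
      · exact key x y hx hy
    · rcases List.mem_append.1 hy with hy | hy
      · rw [norm_sub_rev]
        exact key y x hy hx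
      · have := ih2 x y hx hy
        linarith

/-! ### Lengths of polygons -/

private theorem AoBasic_two (x y : E d) (l : List (E d)) :
    plen (x :: y :: l) = ‖x - y‖ + plen (y :: l) := rfl

private theorem AoBasic_one (x : E d) : plen [x] = 0 := rfl

private theorem AoBasic_nil : plen ([] : List (E d)) = 0 := rfl

private theorem AoBasic_pn (l : List (E d)) : 0 ≤ plen l := by
  induction l with
  | nil => exact le_rfl
  | cons x l ih =>
    cases l with
    | nil => exact le_rfl
    | cons y l =>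
      rw [AoBasic_two]
      exact add_nonneg (norm_nonneg _) ih

private theorem AoBasic_tail (x : E d) (l : List (E d)) : plen l ≤ plen (x :: l) := by
  cases l with
  | nil => exact le_rfl
  | cons y l =>
    rw [AoBasic_two]
    have := norm_nonneg (x - y)
    linarith

private theorem AoBasic_tri (z y : E d) (l : List (E d)) :
    plen (z :: l) ≤ ‖z - y‖ + plen (y :: l) := by
  cases l with
  | nil =>
    rw [AoBasic_one, AoBasic_one]
    have := norm_nonneg (z - y)
    linarith
  | cons w l =>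
    rw [AoBasic_two, AoBasic_two]
    have h1 : z - w = (z - y) + (y - w) := by abel
    have h2 := norm_add_le (z - y) (y - w)
    rw [h1]
    linarith

private theorem AoBasic_split (A : List (E d)) (x : E d) (B : List (E d)) :
    plen (A ++ x :: B) = plen (A ++ [x]) + plen (x :: B) := by
  induction A with
  | nil =>
    rw [List.nil_append, List.nil_append, AoBasic_one, zero_add]
  | cons a A ih =>
    cases A with
    | nil =>
      rw [List.cons_append, List.nil_append, List.cons_append, List.nil_append, AoBasic_two,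
        AoBasic_two, AoBasic_one, add_zero]
    | cons a' A =>
      rw [List.cons_append, List.cons_append, List.cons_append, List.cons_append, AoBasic_two,
        AoBasic_two, add_assoc]
      rw [List.cons_append, List.cons_append] at ih
      rw [ih]

private theorem AoBasic_insert (A R B : List (E d)) (x : E d) :
    plen (A ++ x :: (R ++ x :: B)) = plen (A ++ x :: B) + plen (x :: (R ++ [x])) := by
  have h1 := AoBasic_split A x (R ++ x :: B)
  have h2 := AoBasic_split (x :: R) x B
  have h3 := AoBasic_split A x B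
  rw [List.cons_append, List.cons_append] at h2
  linarith

private theorem AoBasic_loop (x y : E d) (l : List (E d)) :
    plen (x :: ((y :: (l ++ [y])) ++ [x])) = plen (y :: (l ++ [y])) + 2 * ‖x - y‖ := by
  have h1 := AoBasic_split (y :: l) y [x]
  rw [List.cons_append, List.cons_append, AoBasic_two y x [], AoBasic_one] at h1
  rw [List.cons_append, AoBasic_two, List.append_assoc, List.cons_append, List.nil_append, h1,
    norm_sub_rev y x]
  ring

private theorem AoBasic_cpj (x y z : E d) (l1 l2 : List (E d)) (hx : x ∈ z :: l1) :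
    ∃ l : List (E d), plen (z :: (l ++ [z])) ≤
        plen (z :: (l1 ++ [z])) + plen (y :: (l2 ++ [y])) + 2 * ‖x - y‖ ∧
      (∀ v ∈ z :: l1, v ∈ z :: l) ∧ ∀ v ∈ y :: l2, v ∈ z :: l := by
  rcases List.mem_cons.1 hx with h | h
  · subst h
    refine ⟨(y :: (l2 ++ [y])) ++ x :: l1, ?_, ?_, ?_⟩
    · have h1 := AoBasic_insert [] (y :: (l2 ++ [y])) (l1 ++ [x]) x
      rw [List.nil_append, List.nil_append, AoBasic_loop] at h1
      have h2 : x :: ((y :: (l2 ++ [y])) ++ x :: l1 ++ [x]) =
          x :: ((y :: (l2 ++ [y])) ++ x :: (l1 ++ [x])) := by simp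
      rw [h2, h1]
      linarith
    · intro v hv
      exact List.mem_cons_of_mem _ (List.mem_append_right _ hv)
    · intro v hv
      refine List.mem_cons_of_mem _ (List.mem_append_left _ ?_)
      rcases List.mem_cons.1 hv with h | h
      · rw [h]
        exact List.mem_cons_self
      · exact List.mem_cons_of_mem _ (List.mem_append_left _ h)
  · obtain ⟨A, B, hAB⟩ := List.append_of_mem h
    refine ⟨A ++ x :: ((y :: (l2 ++ [y])) ++ x :: B), ?_, ?_, ?_⟩
    · have h1 := AoBasic_insert (z :: A) (y :: (l2 ++ [y])) (B ++ [z]) x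
      rw [AoBasic_loop] at h1
      have h2 : z :: (A ++ x :: ((y :: (l2 ++ [y])) ++ x :: B) ++ [z]) =
          (z :: A) ++ x :: ((y :: (l2 ++ [y])) ++ x :: (B ++ [z])) := by simp
      have h3 : z :: (l1 ++ [z]) = (z :: A) ++ x :: (B ++ [z]) := by
        rw [hAB]
        simp
      rw [h2, h1, h3]
      linarith
    · intro v hv
      rw [hAB] at hv
      rcases List.mem_cons.1 hv with h | h
      · rw [h]
        exact List.mem_cons_self
      · refine List.mem_cons_of_mem _ ?_
        rcases List.mem_append.1 h with h | h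
        · exact List.mem_append_left _ h
        · refine List.mem_append_right _ (List.mem_cons_of_mem _ (List.mem_append_right _ h))
    · intro v hv
      refine List.mem_cons_of_mem _ (List.mem_append_right _ (List.mem_cons_of_mem _
        (List.mem_append_left _ ?_)))
      rcases List.mem_cons.1 hv with h | h
      · rw [h]
        exact List.mem_cons_self
      · exact List.mem_cons_of_mem _ (List.mem_append_left _ h)

private theorem AoBasic_cp {V : List (E d)} {L : ℝ} (h : Tr V L) : ∀ z ∈ V,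
    ∃ l : List (E d), plen (z :: (l ++ [z])) ≤ 2 * L ∧ ∀ v ∈ V, v ∈ z :: l := by
  induction h with
  | single x =>
    intro z hz
    rw [List.mem_singleton] at hz
    subst hz
    refine ⟨[], ?_, fun v hv => hv⟩
    rw [List.nil_append, AoBasic_two, AoBasic_one, sub_self, norm_zero]
    norm_num
  | @join V W L L' x y hV hW hx hy ih1 ih2 =>
    intro z hz
    rcases List.mem_append.1 hz with hz | hz
    · obtain ⟨l1, h1, h1'⟩ := ih1 z hz
      obtain ⟨l2, h2, h2'⟩ := ih2 y hy
      obtain ⟨l, h3, h4, h5⟩ := AoBasic_cpj x y z l1 l2 (h1' x hx)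
      refine ⟨l, by linarith, fun v hv => ?_⟩
      rcases List.mem_append.1 hv with hv | hv
      · exact h4 v (h1' v hv)
      · exact h5 v (h2' v hv)
    · obtain ⟨l1, h1, h1'⟩ := ih1 x hx
      obtain ⟨l2, h2, h2'⟩ := ih2 z hz
      obtain ⟨l, h3, h4, h5⟩ := AoBasic_cpj y x z l2 l1 (h2' y hy)
      rw [norm_sub_rev] at h3
      refine ⟨l, by linarith, fun v hv => ?_⟩
      rcases List.mem_append.1 hv with hv | hv
      · exact h5 v (h1' v hv)
      · exact h4 v (h2' v hv)

private theorem AoBasic_cnt1 (r : ℝ) (l : List (E d)) : ∀ (z : E d) (C : Finset (E d)),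
    (∀ x ∈ C, x ∈ l) → (∀ x ∈ C, r ≤ ‖z - x‖) → (∀ x ∈ C, ∀ y ∈ C, x ≠ y → r ≤ ‖x - y‖) →
    r * C.card ≤ plen (z :: l) := by
  induction l with
  | nil =>
    intro z C hC _ _
    have h1 : C = ∅ := Finset.eq_empty_of_forall_notMem fun x hx => List.not_mem_nil (hC x hx)
    rw [h1, Finset.card_empty, Nat.cast_zero, mul_zero, AoBasic_one]
  | cons y l ih =>
    intro z C hC hz hs
    by_cases hy : y ∈ C
    · have h1 := ih y (C.erase y) ?_ ?_ ?_
      · rw [AoBasic_two]
        have h2 := hz y hy
        have h3 : ((C.erase y).card : ℝ) + 1 = C.card := by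
          exact_mod_cast Finset.card_erase_add_one hy
        rw [← h3, mul_add, mul_one]
        linarith
      · intro x hx
        rcases List.mem_cons.1 (hC x (Finset.mem_of_mem_erase hx)) with h | h
        · exact absurd h (Finset.ne_of_mem_erase hx)
        · exact h
      · intro x hx
        exact hs y hy x (Finset.mem_of_mem_erase hx) (Finset.ne_of_mem_erase hx).symm
      · intro x hx x' hx'
        exact hs x (Finset.mem_of_mem_erase hx) x' (Finset.mem_of_mem_erase hx')
    · have h1 := ih z C ?_ hz hs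
      · have h2 := AoBasic_tri z y l
        rw [AoBasic_two]
        linarith
      · intro x hx
        rcases List.mem_cons.1 (hC x hx) with h | h
        · rw [h] at hx
          exact absurd hx hy
        · exact h

private theorem AoBasic_cnt (r : ℝ) (hr : 0 ≤ r) (l : List (E d)) : ∀ C : Finset (E d),
    (∀ x ∈ C, x ∈ l) → (∀ x ∈ C, ∀ y ∈ C, x ≠ y → r ≤ ‖x - y‖) → r * C.card ≤ r + plen l := by
  induction l with
  | nil =>
    intro C hC _
    have h1 : C = ∅ := Finset.eq_empty_of_forall_notMem fun x hx => List.not_mem_nil (hC x hx)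
    rw [h1, Finset.card_empty, Nat.cast_zero, mul_zero, AoBasic_nil, add_zero]
    exact hr
  | cons y l ih =>
    intro C hC hs
    by_cases hy : y ∈ C
    · have h1 := AoBasic_cnt1 r l y (C.erase y) ?_ ?_ ?_
      · have h3 : ((C.erase y).card : ℝ) + 1 = C.card := by
          exact_mod_cast Finset.card_erase_add_one hy
        rw [← h3, mul_add, mul_one]
        linarith
      · intro x hx
        rcases List.mem_cons.1 (hC x (Finset.mem_of_mem_erase hx)) with h | h
        · exact absurd h (Finset.ne_of_mem_erase hx)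
        · exact h
      · intro x hx
        exact hs y hy x (Finset.mem_of_mem_erase hx) (Finset.ne_of_mem_erase hx).symm
      · intro x hx x' hx'
        exact hs x (Finset.mem_of_mem_erase hx) x' (Finset.mem_of_mem_erase hx')
    · have h1 := ih C ?_ hs
      · have h2 := AoBasic_tail y l
        linarith
      · intro x hx
        rcases List.mem_cons.1 (hC x hx) with h | h
        · rw [h] at hx
          exact absurd hx hy
        · exact h

/-! ### Animal objects -/

theorem ao_emp (q : ℝ≥0∞) (S : Set (E d)) (a b : E d) (lam : ℝ) (h : ‖a - b‖ ≤ lam) :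
    AO q S a b lam ∅ 0 :=
  ⟨by simp, Or.inl ⟨rfl, rfl, h⟩⟩

theorem ao_sub (q : ℝ≥0∞) (S : Set (E d)) (a b : E d) (lam : ℝ) (C C' : Finset (E d)) (κ : ℝ)
    (h : AO q S a b lam C κ) (hC : C' ⊆ C) : AO q S a b lam C' κ := by
  obtain ⟨hS, h⟩ := h
  refine ⟨fun x hx => hS (hC hx), ?_⟩
  rcases h with ⟨h1, h2, h3⟩ | ⟨V, L, hV, hCV, h3, h4, h5⟩
  · left
    rw [h1] at hC
    exact ⟨Finset.subset_empty.1 hC, h2, h3⟩
  · right
    exact ⟨V, L, hV, fun x hx => hCV x (hC hx), h3, h4, h5⟩

theorem ao_nonneg (q : ℝ≥0∞) (S : Set (E d)) (a b : E d) (lam : ℝ) (C : Finset (E d)) (κ : ℝ)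
    (h : AO q S a b lam C κ) : 0 ≤ κ := by
  rcases h.2 with ⟨_, h2, _⟩ | ⟨V, L, _, _, _, h4, _⟩
  · exact h2.ge
  · exact h4

theorem ao_valid (q : ℝ≥0∞) (S : Set (E d)) (a b : E d) (lam : ℝ) (C : Finset (E d)) (κ : ℝ)
    (h : AO q S a b lam C κ) : ‖a - b‖ ≤ lam := by
  rcases h.2 with ⟨_, _, h3⟩ | ⟨V, L, hV, _, ⟨x, hx, y, hy, h3⟩, _, _⟩
  · exact h3
  · have h4 := tr_dist hV x y hx hy
    have h5 : a - b = (a - x) + (x - y) + (y - b) := by abel
    have h6 := norm_add_le ((a - x) + (x - y)) (y - b)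
    have h7 := norm_add_le (a - x) (x - y)
    rw [norm_sub_rev y b] at h6
    rw [h5]
    linarith

theorem ao_cat (q : ℝ≥0∞) (S : Set (E d)) (a b c : E d) (lam mu : ℝ) (C C' : Finset (E d)) (κ κ' : ℝ)
    (h : AO q S a b lam C κ) (h' : AO q S b c mu C' κ') :
    AO q S a c (lam + mu) (C ∪ C') (κ + κ') := by
  obtain ⟨hS, h⟩ := h
  obtain ⟨hS', h'⟩ := h'
  have hU : (↑(C ∪ C') : Set (E d)) ⊆ S := by
    rw [Finset.coe_union]
    exact Set.union_subset hS hS'
  refine ⟨hU, ?_⟩
  have tri : ∀ u v w : E d, ‖u - w‖ ≤ ‖u - v‖ + ‖v - w‖ := by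
    intro u v w
    have h1 : u - w = (u - v) + (v - w) := by abel
    rw [h1]
    exact norm_add_le _ _
  rcases h with ⟨h1, h2, h3⟩ | ⟨V, L, hV, hCV, ⟨x, hx, y, hy, h3⟩, h4, h5⟩
  · rcases h' with ⟨h1', h2', h3'⟩ | ⟨W, L', hW, hCW, ⟨x', hx', y', hy', h3'⟩, h4', h5'⟩
    · left
      refine ⟨by rw [h1, h1', Finset.union_empty], by rw [h2, h2', add_zero], ?_⟩
      exact (tri a b c).trans (add_le_add h3 h3')
    · right
      refine ⟨W, L', hW, ?_, ⟨x', hx', y', hy', ?_⟩, ?_, ?_⟩
      · rw [h1, Finset.empty_union]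
        exact hCW
      · have := tri a b x'
        linarith
      · rw [h2, zero_add]
        exact h4'
      · rw [h2, zero_add]
        exact h5'
  · rcases h' with ⟨h1', h2', h3'⟩ | ⟨W, L', hW, hCW, ⟨x', hx', y', hy', h3'⟩, h4', h5'⟩
    · right
      refine ⟨V, L, hV, ?_, ⟨x, hx, y, hy, ?_⟩, ?_, ?_⟩
      · rw [h1', Finset.union_empty]
        exact hCV
      · have h6 := tri c b y
        rw [norm_sub_rev c b] at h6
        linarith
      · rw [h2', add_zero]
        exact h4
      · rw [h2', add_zero]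
        exact h5
    · right
      refine ⟨V ++ W, L + L' + ‖y - x'‖, Tr.join y x' hV hW hy hx', ?_,
        ⟨x, List.mem_append_left _ hx, y', List.mem_append_right _ hy', ?_⟩, add_nonneg h4 h4', ?_⟩
      · intro v hv
        rcases Finset.mem_union.1 hv with hv | hv
        · exact List.mem_append_left _ (hCV v hv)
        · exact List.mem_append_right _ (hCW v hv)
      · have h6 := tri y b x'
        rw [norm_sub_rev y b] at h6
        linarith
      · rw [ENNReal.ofReal_add h4 h4', h5, h5', List.countP_append, Nat.cast_add, mul_add]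

theorem ao_cone (q : ℝ≥0∞) (S : Set (E d)) (a b a' b' : E d) (lam lam' : ℝ) (C : Finset (E d)) (κ : ℝ)
    (h : AO q S a b lam C κ) (hl : lam + ‖a - a'‖ + ‖b - b'‖ ≤ lam') : AO q S a' b' lam' C κ := by
  obtain ⟨hS, h⟩ := h
  refine ⟨hS, ?_⟩
  have tri : ∀ u v w : E d, ‖u - w‖ ≤ ‖u - v‖ + ‖v - w‖ := by
    intro u v w
    have h1 : u - w = (u - v) + (v - w) := by abel
    rw [h1]
    exact norm_add_le _ _
  rcases h with ⟨h1, h2, h3⟩ | ⟨V, L, hV, hCV, ⟨x, hx, y, hy, h3⟩, h4, h5⟩
  · left
    refine ⟨h1, h2, ?_⟩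
    have h4 := tri a' a b'
    have h5 := tri a b b'
    rw [norm_sub_rev a' a] at h4
    linarith
  · right
    refine ⟨V, L, hV, hCV, ⟨x, hx, y, hy, ?_⟩, h4, h5⟩
    have h6 := tri a' a x
    have h7 := tri b' b y
    rw [norm_sub_rev a' a] at h6
    rw [norm_sub_rev b' b] at h7
    linarith

private theorem AoBasic_map (Φ : E d → E d) (K : ℝ) (hΦ : ∀ x y, ‖Φ x - Φ y‖ ≤ K * ‖x - y‖)
    {V : List (E d)} {L : ℝ} (h : Tr V L) : ∃ L', L' ≤ K * L ∧ Tr (V.map Φ) L' := by
  induction h with
  | single x => exact ⟨0, by rw [mul_zero], Tr.single (Φ x)⟩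
  | @join V W L L' x y hV hW hx hy ih1 ih2 =>
    obtain ⟨L1, h1, h1'⟩ := ih1
    obtain ⟨L2, h2, h2'⟩ := ih2
    refine ⟨L1 + L2 + ‖Φ x - Φ y‖, ?_, ?_⟩
    · have := hΦ x y
      rw [mul_add, mul_add]
      linarith
    · rw [List.map_append]
      exact Tr.join (Φ x) (Φ y) h1' h2' (List.mem_map_of_mem hx) (List.mem_map_of_mem hy)

theorem ao_lip (q : ℝ≥0∞) (S S' : Set (E d)) (a b : E d) (lam : ℝ) (C : Finset (E d)) (κ : ℝ)
    (Φ : E d → E d) (K : ℝ) (hK : 0 ≤ K) (hΦ : ∀ x y, ‖Φ x - Φ y‖ ≤ K * ‖x - y‖)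
    (hS : ∀ x ∈ S, Φ x ∈ S') (h : AO q S a b lam C κ) :
    ∃ κ' ≤ κ, AO q S' (Φ a) (Φ b) (K * lam) (C.image Φ) κ' := by
  obtain ⟨hCS, h⟩ := h
  have hC' : (↑(C.image Φ) : Set (E d)) ⊆ S' := by
    intro x hx
    obtain ⟨y, hy, rfl⟩ := Finset.mem_image.1 (Finset.mem_coe.1 hx)
    exact hS y (hCS hy)
  rcases h with ⟨h1, h2, h3⟩ | ⟨V, L, hV, hCV, ⟨x, hx, y, hy, h3⟩, h4, h5⟩
  · refine ⟨0, h2.ge, hC', Or.inl ⟨by rw [h1, Finset.image_empty], rfl, ?_⟩⟩
    exact (hΦ a b).trans (mul_le_mul_of_nonneg_left h3 hK)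
  · obtain ⟨L', hL', hT⟩ := AoBasic_map Φ K hΦ hV
    have hle : (V.map Φ).countP (fun x => decide (x ∉ S')) ≤
        V.countP (fun x => decide (x ∉ S)) := by
      rw [List.countP_map]
      refine List.countP_mono_left fun x _ hx => ?_
      simp only [Function.comp, decide_eq_true_eq] at hx ⊢
      exact fun h => hx (hS x h)
    have hle2 : q * (((V.map Φ).countP (fun x => decide (x ∉ S')) : ℕ) : ℝ≥0∞) ≤
        ENNReal.ofReal κ := by
      rw [h5]
      exact mul_le_mul_right (by exact_mod_cast hle) q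
    have hfin : q * (((V.map Φ).countP (fun x => decide (x ∉ S')) : ℕ) : ℝ≥0∞) ≠ ∞ :=
      ne_top_of_le_ne_top ENNReal.ofReal_ne_top hle2
    refine ⟨(q * (((V.map Φ).countP (fun x => decide (x ∉ S')) : ℕ) : ℝ≥0∞)).toReal, ?_, hC',
      Or.inr ⟨V.map Φ, L', hT, ?_, ⟨Φ x, List.mem_map_of_mem hx, Φ y, List.mem_map_of_mem hy, ?_⟩,
        ENNReal.toReal_nonneg, ENNReal.ofReal_toReal hfin⟩⟩
    · exact ENNReal.toReal_le_of_le_ofReal h4 hle2
    · intro z hz
      obtain ⟨w, hw, rfl⟩ := Finset.mem_image.1 hz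
      exact List.mem_map_of_mem (hCV w hw)
    · have h6 := hΦ a x
      have h7 := hΦ b y
      have h8 := mul_le_mul_of_nonneg_left h3 hK
      rw [mul_add, mul_add] at h8
      linarith

theorem ao_loc (q : ℝ≥0∞) (S : Set (E d)) (a b : E d) (lam : ℝ) (C : Finset (E d)) (κ : ℝ)
    (h : AO q S a b lam C κ) : AO q (S ∩ Metric.closedBall a lam) a b lam C κ := by
  obtain ⟨hCS, h⟩ := h
  rcases h with ⟨h1, h2, h3⟩ | ⟨V, L, hV, hCV, ⟨x, hx, y, hy, h3⟩, h4, h5⟩
  · refine ⟨?_, Or.inl ⟨h1, h2, h3⟩⟩
    rw [h1, Finset.coe_empty]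
    exact Set.empty_subset _
  · have hball : ∀ v ∈ V, v ∈ Metric.closedBall a lam := by
      intro v hv
      rw [Metric.mem_closedBall, dist_eq_norm]
      have h6 := tr_dist hV v x hv hx
      have h7 : v - a = (v - x) + (x - a) := by abel
      have h8 := norm_add_le (v - x) (x - a)
      rw [norm_sub_rev x a] at h8
      have h9 := norm_nonneg (b - y)
      rw [h7]
      linarith
    refine ⟨fun v hv => ⟨hCS hv, hball v (hCV v hv)⟩,
      Or.inr ⟨V, L, hV, hCV, ⟨x, hx, y, hy, h3⟩, h4, ?_⟩⟩
    rw [h5]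
    refine congrArg (fun n : ℕ => q * (n : ℝ≥0∞)) (List.countP_congr fun v hv => ?_)
    simp only [decide_eq_true_eq]
    constructor
    · intro h h'
      exact h h'.1
    · intro h h'
      exact h ⟨h', hball v hv⟩

theorem ao_count (q : ℝ≥0∞) (S : Set (E d)) (a b : E d) (lam : ℝ) (C : Finset (E d)) (κ r : ℝ)
    (h : AO q S a b lam C κ) (hr : 0 ≤ r) (hC : ∀ x ∈ C, ∀ y ∈ C, x ≠ y → r ≤ ‖x - y‖) :
    r * C.card ≤ r + 2 * lam := by
  rcases h.2 with ⟨h1, _, h3⟩ | ⟨V, L, hV, hCV, ⟨x, hx, y, hy, h3⟩, _, _⟩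
  · rw [h1, Finset.card_empty, Nat.cast_zero, mul_zero]
    have := (norm_nonneg (a - b)).trans h3
    linarith
  · obtain ⟨l, h1, h2⟩ := AoBasic_cp hV x hx
    have h4 := AoBasic_cnt r hr (x :: (l ++ [x])) C (fun v hv => ?_) hC
    · have h5 := norm_nonneg (a - x)
      have h6 := norm_nonneg (b - y)
      linarith
    · rcases List.mem_cons.1 (h2 v (hCV v hv)) with h | h
      · rw [h]
        exact List.mem_cons_self
      · exact List.mem_cons_of_mem _ (List.mem_append_left _ h)

theorem ao_rev (q : ℝ≥0∞) (S : Set (E d)) (a b : E d) (lam : ℝ) (C : Finset (E d)) (κ : ℝ)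
    (h : AO q S a b lam C κ) : AO q S b a lam C κ := by
  obtain ⟨hCS, h⟩ := h
  refine ⟨hCS, ?_⟩
  rcases h with ⟨h1, h2, h3⟩ | ⟨V, L, hV, hCV, ⟨x, hx, y, hy, h3⟩, h4, h5⟩
  · left
    rw [norm_sub_rev] at h3
    exact ⟨h1, h2, h3⟩
  · right
    exact ⟨V, L, hV, hCV, ⟨y, hy, x, hx, by linarith⟩, h4, h5⟩

theorem ao_poly (q : ℝ≥0∞) (S : Set (E d)) (a b : E d) (lam : ℝ) (C : Finset (E d)) (κ : ℝ)
    (h : AO q S a b lam C κ) : ∃ l : List (E d), plen l ≤ 2 * lam ∧ ∀ x ∈ C, x ∈ l := by
  rcases h.2 with ⟨h1, _, h3⟩ | ⟨V, L, hV, hCV, ⟨x, hx, y, hy, h3⟩, _, _⟩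
  · refine ⟨[], ?_, ?_⟩
    · rw [AoBasic_nil]
      have := (norm_nonneg (a - b)).trans h3
      linarith
    · intro x hx
      rw [h1] at hx
      exact absurd hx (Finset.notMem_empty x)
  · obtain ⟨l, h1, h2⟩ := AoBasic_cp hV x hx
    refine ⟨x :: (l ++ [x]), ?_, fun v hv => ?_⟩
    · have h5 := norm_nonneg (a - x)
      have h6 := norm_nonneg (b - y)
      linarith
    · rcases List.mem_cons.1 (h2 v (hCV v hv)) with h | h
      · rw [h]
        exact List.mem_cons_self
      · exact List.mem_cons_of_mem _ (List.mem_append_left _ h)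

theorem ao_ins0 (S S' : Set (E d)) (a b : E d) (lam : ℝ) (C : Finset (E d)) (κ : ℝ)
    (h : AO 0 S a b lam C κ) (hC : ↑C ⊆ S') : ∃ κ' ≤ κ, AO 0 S' a b lam C κ' := by
  refine ⟨κ, le_rfl, hC, ?_⟩
  rcases h.2 with h | ⟨V, L, hV, hCV, h3, h4, h5⟩
  · exact Or.inl h
  · right
    refine ⟨V, L, hV, hCV, h3, h4, ?_⟩
    rw [h5, zero_mul, zero_mul]

end MP4fb

end
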