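import Pool.Agent.Lib.MP_4fbc34_pr.AoCut1
import Pool.Agent.Lib.MP_4fbc34_pr.AoAsm

/-!
JOB AoCut: the cutting and assembling property of the animal model, from `ao_cut` and `ao_asm`
(transport along the equality of the lengths of `P` and of `P.map (fun p => (p.a, p.c))`; the hub condition
for the pairs follows from the hub condition of `Model.CutAsm` and the last clause of `ao_cut`).
The clause on `P1 ++ p :: P2`: `‖p.c - p.a‖ <= p.lam` for every piece (the displacements of the micro pieces sum
up to `p.c - p.a`, each is at most the budget of the micro piece, by `ao_valid` for true objects); then by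
induction along `Conn` every point of the list `A` (end points of the earlier pieces) has norm at most the sum
of the budgets of the earlier pieces, and `p.a ∈ A`.
-/

set_option autoImplicit false

open scoped ENNReal Classical

noncomputable section

namespace MP4fb

variable {d : ℕ}

private theorem aoCut_norm_sum : ∀ l : List (Micro d), (∀ m ∈ l, ‖m.v‖ ≤ m.lam) →
    ‖(l.map Micro.v).sum‖ ≤ (l.map Micro.lam).sum := by
  intro l
  induction l with
  | nil =>
    intro _
    simp
  | cons m l ih =>
    intro h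
    rw [List.map_cons, List.sum_cons, List.map_cons, List.sum_cons]
    refine (norm_add_le _ _).trans (add_le_add (h m List.mem_cons_self) ?_)
    exact ih fun m' hm' => h m' (List.mem_cons_of_mem _ hm')

private theorem aoCut_disp {q : ℝ≥0∞} {S : Set (E d)} {s R : ℝ} {p : Macro d}
    (h : p.Ok (animM d q) S s R) : ‖p.c - p.a‖ ≤ p.lam ∧ 0 ≤ p.lam := by
  obtain ⟨h1, h2, h3, _, _⟩ := h
  refine ⟨?_, ?_⟩
  · rw [← h2]
    apply aoCut_norm_sum
    intro m hm
    rcases h1 m hm with ⟨h4, _⟩ | ⟨_, _, h4⟩
    · have h5 := ao_valid q S m.u (m.u + m.v) m.lam m.C m.κ h4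
      have h6 : m.u - (m.u + m.v) = -m.v := by abel
      rwa [h6, norm_neg] at h5
    · exact h4
  · apply List.sum_nonneg
    intro x hx
    obtain ⟨m, hm, rfl⟩ := List.mem_map.1 hx
    exact h3 m hm

private theorem aoCut_conn : ∀ (l : List (Macro d)) (A : List (E d)) (r : ℝ),
    (∀ x ∈ A, ‖x‖ ≤ r) → Conn A (l.map (fun p => (p.a, p.c))) →
    (∀ p ∈ l, ‖p.c - p.a‖ ≤ p.lam ∧ 0 ≤ p.lam) →
    ∀ (P1 P2 : List (Macro d)) (p : Macro d), l = P1 ++ p :: P2 →
      ‖p.a‖ ≤ r + (P1.map Macro.lam).sum := by
  intro l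
  induction l with
  | nil =>
    intro A r _ _ _ P1 P2 p h
    simp at h
  | cons p' l ih =>
    intro A r hA hC hp P1 P2 p h
    obtain ⟨hC1, hC2⟩ := hC
    cases P1 with
    | nil =>
      rw [List.nil_append, List.cons.injEq] at h
      rw [← h.1]
      simpa using hA _ hC1
    | cons p1 P1 =>
      rw [List.cons_append, List.cons.injEq] at h
      obtain ⟨h1, h2⟩ := h
      subst h1
      have hpp := hp p' List.mem_cons_self
      have hr : ∀ x ∈ p'.c :: A, ‖x‖ ≤ r + p'.lam := by
        intro x hx
        rcases List.mem_cons.1 hx with rfl | hx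
        · calc ‖p'.c‖ = ‖p'.a + (p'.c - p'.a)‖ := by rw [add_sub_cancel]
            _ ≤ ‖p'.a‖ + ‖p'.c - p'.a‖ := norm_add_le _ _
            _ ≤ r + p'.lam := add_le_add (hA _ hC1) hpp.1
        · linarith [hA x hx, hpp.2]
      have := ih (p'.c :: A) (r + p'.lam) hr hC2
        (fun p hp' => hp p (List.mem_cons_of_mem _ hp')) P1 P2 p h2
      rw [List.map_cons, List.sum_cons]
      linarith

theorem animM_cutAsm (d : ℕ) (q : ℝ≥0∞) : (animM d q).CutAsm := by
  intro S b Lam C κ s R hs hR hO
  obtain ⟨p0, l, h0a, hok, hna, hcov, hcost, hlam, hnm, hlen, hconn, hhub⟩ :=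
    ao_cut q S b Lam C κ s R hs hR hO
  refine ⟨p0 :: l, List.cons_ne_nil _ _, hok, hna, ?_, hcov, hcost, hlam, hnm, hlen, ?_⟩
  · intro P1 P2 p hP
    have hd : ∀ p ∈ p0 :: l, ‖p.c - p.a‖ ≤ p.lam ∧ 0 ≤ p.lam := fun p hp => aoCut_disp (hok p hp)
    cases P1 with
    | nil =>
      rw [List.nil_append, List.cons.injEq] at hP
      rw [← hP.1, h0a]
      simp
    | cons p1 P1 =>
      rw [List.cons_append, List.cons.injEq] at hP
      obtain ⟨h1, h2⟩ := hP
      subst h1
      have h3 := hd p0 List.mem_cons_self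
      rw [List.map_cons, List.sum_cons]
      apply aoCut_conn l [p0.c] p0.lam ?_ hconn
        (fun p hp => hd p (List.mem_cons_of_mem _ hp)) P1 P2 p h2
      intro x hx
      rw [List.mem_singleton] at hx
      rw [hx]
      have h4 := h3.1
      rwa [h0a, sub_zero] at h4
  · intro S2 N h0 hN hh0 hH L2 κ2 C2 hobj
    set f : Macro d → E d × E d := fun p => (p.a, p.c) with hf
    have hlen' : ((0, p0.c) :: l.map f : List (E d × E d)).length = (p0 :: l).length := by
      simp
    have hget : ∀ i : Fin ((0, p0.c) :: l.map f : List (E d × E d)).length,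
        ((0, p0.c) :: l.map f : List (E d × E d)).get i = f ((p0 :: l).get (Fin.cast hlen' i)) := by
      rintro ⟨n, hn⟩
      cases n with
      | zero =>
        simp [hf, h0a]
      | succ n =>
        simp [hf]
    obtain ⟨b2, κ3, h1, h2⟩ := ao_asm q p0.c (l.map f) hconn S2 N h0 hN hh0
      (by
        intro hq hl p hp
        have hl' : l ≠ [] := by
          rintro rfl
          exact hl rfl
        obtain ⟨hh1, hh2⟩ := hhub hq hl'
        rcases List.mem_cons.1 hp with rfl | hp
        · exact (hH hq p0 List.mem_cons_self).2 hh1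
        · obtain ⟨p', hp', rfl⟩ := List.mem_map.1 hp
          exact (hH hq p' (List.mem_cons_of_mem _ hp')).2 (hh2 p' hp').2)
      (fun i => L2 (Fin.cast hlen' i)) (fun i => κ2 (Fin.cast hlen' i))
      (fun i => C2 (Fin.cast hlen' i)) (by
        intro i
        rw [hget i]
        exact hobj (Fin.cast hlen' i))
    have hsum : ∀ g : Fin (p0 :: l).length → ℝ,
        ∑ i : Fin ((0, p0.c) :: l.map f : List (E d × E d)).length, g (Fin.cast hlen' i) =
          ∑ i, g i := by
      intro g
      exact Fintype.sum_equiv (finCongr hlen') _ _ (fun i => rfl)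
    have hbi : Finset.univ.biUnion (fun i : Fin ((0, p0.c) :: l.map f : List (E d × E d)).length =>
        C2 (Fin.cast hlen' i)) = Finset.univ.biUnion C2 := by
      ext x
      simp only [Finset.mem_biUnion, Finset.mem_univ, true_and]
      constructor
      · rintro ⟨i, hi⟩
        exact ⟨_, hi⟩
      · rintro ⟨i, hi⟩
        exact ⟨Fin.cast hlen'.symm i, by simpa using hi⟩
    rw [hsum, hlen'] at h1
    rw [hsum, hbi, hlen'] at h2
    exact ⟨b2, κ3, h1, h2⟩

end MP4fb

end
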