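import Pool.Agent.Lib.MP_4fbc34_pr.ClusDef

/-!
JOB Clus: the cluster lemma for rooted trees.

Write `W` for the total weight.  Process the tree recursively; the STATE of a processed tree `T` with root
`x` is one of
 (S) small: nothing has been cut, the total weight of `T` is less than `R`;
 (B m K): an open piece `m : MT α` with root `x`, of weight less than `R`, whose marked vertex is `c`, and a
     clustered tree `K` (a tree whose edges are labelled by clusters `(top, marked tree)`) with root `c`.
Leaf: state (S).
Combining `graft T1 e T2` (`T1` has root `x`, `T2` has root `y = dst e`): first treat `T2` with the edge: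
 - if `R < wt e` (long edge): close the state of `T2`: (S) gives `K2 = graft leaf (y, here T2) leaf`,
   (B m K) gives `K2 = graft leaf (y, m) K`; then `K' = graft leaf (x, step leaf e (here leaf)) K2` with root
   `x`, new state (B (here leaf) K').
 - if `wt e <= R`: (S) becomes the tree `graft leaf e T2`, (B m K) becomes `m+ = step leaf e m`; if the new
   weight (less than `2 R`) is less than `R` keep the state (S) resp. (B m+ K); otherwise close it:
   `K' = graft leaf (x, here (graft leaf e T2)) leaf` resp. `K' = graft leaf (x, m+) K`, state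
   (B (here leaf) K').
Then merge with the state of `T1` (also rooted at `x`):
 - (S),(S): the tree `graft T1 e T2`, weight less than `2 R`, close it if the weight is at least `R`.
 - (S),(B m K) in either order: hang the small tree at the root of `m` (replace the first tree `T` in
   `here T` or `step T e m` by the union of the two trees at the root), weight less than `2 R`, close it if
   at least `R`.
 - (B m1 K1),(B m2 K2): close both (unless `m` is `here leaf`, in which case `K` already has root `x`), and
   take the union at the root: state (B (here leaf) (union)).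
At the end close the last open piece.
COUNT: call a label heavy if it was closed because its weight is at least `R`, or if it is a long edge.  In
a state (B m K): `#light <= 3 #heavy - 2` and `#heavy >= 1` (induction over the cases above).  Heavy labels
have weight at least `R`, so `#labels <= 4 W / R` in a state (B m K); with the last closing
`#labels <= 5 W / R + 1`.
COVER: the open piece (or the small tree) always contains the root, and every vertex of the tree is a vertex
of the open piece or of a label that is not a long edge label (`cov` below); here the vertices of a label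
`(a, m)` are `a` and the end points `dst e` of its edges.
All sums over edges and all multisets of edges are preserved.  The union of two trees at the root: define
`RT.union T leaf = T`, `RT.union T (graft T1 e T2) = graft (RT.union T T1) e T2`.
I suggest to prove an existence statement for states by induction on the tree, with all the properties
(well formed, permutation of the edges, weights, counts with natural numbers `h` (heavy) and `n` (all labels),
`h * R <= closed weight`, cover) as conjuncts.
-/

set_option autoImplicit false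

noncomputable section

namespace MP4fb

variable {d : ℕ} {α : Type}

/-- a long edge label -/
def IsLong (wt : α → ℝ) (R : ℝ) (m : MT α) : Prop :=
  ∃ e, m = MT.step RT.leaf e (MT.here RT.leaf) ∧ R < wt e


/-- union of two trees at the root -/
def RT.union : RT α → RT α → RT α
  | T, .leaf => T
  | T, .graft T1 e T2 => .graft (RT.union T T1) e T2

theorem clus_union_edges (T T' : RT α) : (RT.union T T').edges = T.edges ++ T'.edges := by
  induction T' with
  | leaf => simp [RT.union, RT.edges]
  | graft T1 e T2 ih1 ih2 => simp [RT.union, RT.edges, ih1]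

theorem clus_union_WF {β : Type} (src dst : β → E d) (T T' : RT β) (x : E d) (h : T.WF src dst x)
    (h' : T'.WF src dst x) : (RT.union T T').WF src dst x := by
  induction T' with
  | leaf => exact h
  | graft T1 e T2 ih1 ih2 =>
    obtain ⟨h1, h2, h3⟩ := h'
    exact ⟨ih1 h1, h2, h3⟩

theorem clus_union_ne (T T' : RT α) (h : T' ≠ RT.leaf) : RT.union T T' ≠ RT.leaf := by
  cases T' with
  | leaf => exact absurd rfl h
  | graft T1 e T2 => simp [RT.union]

/-- hang a tree at the root of a marked tree -/
def MT.hang (T0 : RT α) : MT α → MT α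
  | .here T => .here (RT.union T0 T)
  | .step T e m => .step (RT.union T0 T) e m

theorem clus_hang_edges (T0 : RT α) (m : MT α) : (MT.hang T0 m).edges = T0.edges ++ m.edges := by
  cases m with
  | here T => simp [MT.hang, MT.edges, clus_union_edges]
  | step T e m => simp [MT.hang, MT.edges, clus_union_edges]

theorem clus_hang_WF (src dst : α → E d) (T0 : RT α) (m : MT α) (x : E d) (h : T0.WF src dst x)
    (h' : m.WF src dst x) : (MT.hang T0 m).WF src dst x := by
  cases m with
  | here T => exact clus_union_WF src dst T0 T x h h'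
  | step T e m => exact ⟨clus_union_WF src dst T0 T x h h'.1, h'.2.1, h'.2.2⟩

theorem clus_hang_bot (dst : α → E d) (T0 : RT α) (m : MT α) (x : E d) :
    (MT.hang T0 m).bot dst x = m.bot dst x := by
  cases m with
  | here T => rfl
  | step T e m => rfl

/-- a normal label -/
def clNorm (wt : α → ℝ) (R : ℝ) (m : MT α) : Prop :=
  (m.edges.map wt).sum ≤ 2 * R ∧ ∀ e ∈ m.edges, wt e ≤ R

/-- all edges in the labels -/
def clFlat (K : RT (E d × MT α)) : List α := K.edges.flatMap (fun l => l.2.edges)

/-- all labels are fine -/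
def clGood (src dst : α → E d) (wt : α → ℝ) (R : ℝ) (K : RT (E d × MT α)) : Prop :=
  ∀ l ∈ K.edges, l.2.WF src dst l.1 ∧ (clNorm wt R l.2 ∨ IsLong wt R l.2)

/-- a point is covered by a normal label -/
def clCov (dst : α → E d) (wt : α → ℝ) (R : ℝ) (K : RT (E d × MT α)) (y : E d) : Prop :=
  ∃ l ∈ K.edges, clNorm wt R l.2 ∧ (y = l.1 ∨ ∃ e ∈ l.2.edges, y = dst e)

/-- closed state -/
def clC (src dst : α → E d) (wt : α → ℝ) (R : ℝ) (x : E d) (es : List α) (n h : ℕ) : Prop :=
  ∃ K : RT (E d × MT α), K ≠ RT.leaf ∧ K.WF (fun l => l.1) (fun l => l.2.bot dst l.1) x ∧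
    clGood src dst wt R K ∧ (clFlat K).Perm es ∧ K.edges.length ≤ n ∧
    (h : ℝ) * R ≤ (es.map wt).sum ∧
    ∀ y, (y = x ∨ ∃ e ∈ es, y = dst e) → clCov dst wt R K y

/-- open state -/
def clB (src dst : α → E d) (wt : α → ℝ) (R : ℝ) (x : E d) (es : List α) (n h : ℕ) : Prop :=
  ∃ (m : MT α) (K : RT (E d × MT α)), m.WF src dst x ∧ (m.edges.map wt).sum < R ∧
    K.WF (fun l => l.1) (fun l => l.2.bot dst l.1) (m.bot dst x) ∧
    clGood src dst wt R K ∧ (m.edges ++ clFlat K).Perm es ∧ K.edges.length ≤ n ∧
    (h : ℝ) * R ≤ ((clFlat K).map wt).sum ∧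
    ∀ y, (y = x ∨ ∃ e ∈ es, y = dst e) →
      (y = x ∨ ∃ e ∈ m.edges, y = dst e) ∨ clCov dst wt R K y

section

variable (src dst : α → E d) (wt : α → ℝ) (hwt : ∀ e, 0 ≤ wt e) (R : ℝ) (hR : 0 < R)

include hwt in
theorem clus_nonneg (l : List α) : 0 ≤ (l.map wt).sum := by
  apply List.sum_nonneg
  intro x hx
  obtain ⟨e, _, rfl⟩ := List.mem_map.1 hx
  exact hwt e

include hwt in
theorem clus_le_sum (l : List α) (e : α) (he : e ∈ l) : wt e ≤ (l.map wt).sum := by
  apply List.single_le_sum
  · intro x hx
    obtain ⟨e, _, rfl⟩ := List.mem_map.1 hx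
    exact hwt e
  · exact List.mem_map.2 ⟨e, he, rfl⟩

theorem clus_flat_graft (T : RT (E d × MT α)) (l : E d × MT α) (K : RT (E d × MT α)) :
    clFlat (RT.graft T l K) = clFlat T ++ (l.2.edges ++ clFlat K) := by
  simp [clFlat, RT.edges, List.flatMap_append, List.flatMap_cons]

theorem clus_flat_leaf : clFlat (RT.leaf : RT (E d × MT α)) = [] := rfl

/-- put a label on top -/
theorem clus_top (x : E d) (m : MT α) (K : RT (E d × MT α)) (hm : m.WF src dst x)
    (hK : K.WF (fun l => l.1) (fun l => l.2.bot dst l.1) (m.bot dst x))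
    (hg : clGood src dst wt R K) (hn : clNorm wt R m ∨ IsLong wt R m) :
    (RT.graft RT.leaf (x, m) K).WF (fun l => l.1) (fun l => l.2.bot dst l.1) x ∧
    clGood src dst wt R (RT.graft RT.leaf (x, m) K) ∧
    clFlat (RT.graft RT.leaf (x, m) K) = m.edges ++ clFlat K ∧
    (RT.graft RT.leaf (x, m) K).edges.length = K.edges.length + 1 ∧
    (∀ y, clCov dst wt R K y → clCov dst wt R (RT.graft RT.leaf (x, m) K) y) ∧
    (clNorm wt R m → ∀ y, (y = x ∨ ∃ e ∈ m.edges, y = dst e) →
      clCov dst wt R (RT.graft RT.leaf (x, m) K) y) := by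
  refine ⟨⟨trivial, rfl, hK⟩, ?_, ?_, ?_, ?_, ?_⟩
  · intro l hl
    simp only [RT.edges, List.nil_append, List.mem_cons] at hl
    rcases hl with rfl | hl
    · exact ⟨hm, hn⟩
    · exact hg l hl
  · rw [clus_flat_graft, clus_flat_leaf, List.nil_append]
  · simp [RT.edges]
  · rintro y ⟨l, hl, h⟩
    exact ⟨l, by simp [RT.edges, hl], h⟩
  · intro hn y hy
    exact ⟨(x, m), by simp [RT.edges], hn, hy⟩

include hwt hR in
theorem clus_norm_small (m : MT α) (h : (m.edges.map wt).sum < R) : clNorm wt R m :=
  ⟨by linarith, fun e he => (clus_le_sum wt hwt _ e he).trans h.le⟩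

include hwt hR in
theorem clus_close (x : E d) (es : List α) (n h : ℕ) (H : clB src dst wt R x es n h) :
    clC src dst wt R x es (n + 1) h := by
  obtain ⟨m, K, h1, h2, h3, h4, h5, h6, h7, h8⟩ := H
  have hn := clus_norm_small wt hwt R hR m h2
  obtain ⟨a1, a2, a3, a4, a5, a6⟩ := clus_top src dst wt R x m K h1 h3 h4 (Or.inl hn)
  refine ⟨RT.graft RT.leaf (x, m) K, by simp, a1, a2, by rw [a3]; exact h5, by omega, ?_, ?_⟩
  · have e1 := (h5.map wt).sum_eq
    rw [← e1, List.map_append, List.sum_append]
    have := clus_nonneg wt hwt m.edges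
    linarith
  · intro y hy
    rcases h8 y hy with h | h
    · exact a6 hn y h
    · exact a5 y h

include hR in
theorem clus_open (x : E d) (es : List α) (n h : ℕ) (H : clC src dst wt R x es n h) :
    clB src dst wt R x es n h := by
  obtain ⟨K, h0, h1, h2, h3, h4, h5, h6⟩ := H
  refine ⟨MT.here RT.leaf, K, trivial, by simpa [MT.edges, RT.edges] using hR, h1, h2, ?_, h4, ?_, ?_⟩
  · simpa [MT.edges, RT.edges] using h3
  · rw [(h3.map wt).sum_eq]; exact h5
  · intro y hy; exact Or.inr (h6 y hy)

/-- replace the open piece by a bigger one -/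
theorem clus_big (x y : E d) (es' : List α) (n h : ℕ) (m m' : MT α) (K : RT (E d × MT α))
    (h1 : m'.WF src dst x) (hb : m'.bot dst x = m.bot dst y)
    (h3 : K.WF (fun l => l.1) (fun l => l.2.bot dst l.1) (m.bot dst y))
    (h4 : clGood src dst wt R K) (h5 : (m'.edges ++ clFlat K).Perm es') (h6 : K.edges.length ≤ n)
    (h7 : (h : ℝ) * R ≤ ((clFlat K).map wt).sum)
    (h8 : ∀ z, (z = x ∨ ∃ e ∈ es', z = dst e) →
      (z = x ∨ ∃ e ∈ m'.edges, z = dst e) ∨ clCov dst wt R K z)
    (h9 : (m'.edges.map wt).sum ≤ 2 * R) (h10 : ∀ e ∈ m'.edges, wt e ≤ R) :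
    clB src dst wt R x es' n h ∨ clC src dst wt R x es' (n + 1) (h + 1) := by
  by_cases hs : (m'.edges.map wt).sum < R
  · left
    exact ⟨m', K, h1, hs, by rw [hb]; exact h3, h4, h5, h6, h7, h8⟩
  · right
    have hn : clNorm wt R m' := ⟨h9, h10⟩
    obtain ⟨a1, a2, a3, a4, a5, a6⟩ := clus_top src dst wt R x m' K h1 (by rw [hb]; exact h3) h4
      (Or.inl hn)
    refine ⟨RT.graft RT.leaf (x, m') K, by simp, a1, a2, by rw [a3]; exact h5, by omega, ?_, ?_⟩
    · have e1 := (h5.map wt).sum_eq
      rw [← e1, List.map_append, List.sum_append]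
      push_cast
      have : R ≤ (m'.edges.map wt).sum := not_lt.1 hs
      linarith
    · intro z hz
      rcases h8 z hz with h | h
      · exact a6 hn z h
      · exact a5 z h

include hwt in
theorem clus_hang (x : E d) (es : List α) (n h : ℕ) (H : clB src dst wt R x es n h) (T0 : RT α)
    (hT : T0.WF src dst x) (hT2 : (T0.edges.map wt).sum < R) :
    clB src dst wt R x (T0.edges ++ es) n h ∨ clC src dst wt R x (T0.edges ++ es) (n + 1) (h + 1) := by
  obtain ⟨m, K, h1, h2, h3, h4, h5, h6, h7, h8⟩ := H
  refine clus_big src dst wt R x x (T0.edges ++ es) n h m (MT.hang T0 m) K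
    (clus_hang_WF src dst T0 m x hT h1) (clus_hang_bot dst T0 m x) h3 h4 ?_ h6 h7 ?_ ?_ ?_
  · rw [clus_hang_edges, List.append_assoc]
    exact List.Perm.append (List.Perm.refl _) h5
  · intro z hz
    rw [clus_hang_edges]
    rcases hz with hz | ⟨e, he, hz⟩
    · exact Or.inl (Or.inl hz)
    · rcases List.mem_append.1 he with he | he
      · exact Or.inl (Or.inr ⟨e, List.mem_append.2 (Or.inl he), hz⟩)
      · rcases h8 z (Or.inr ⟨e, he, hz⟩) with (h | ⟨e', he', h⟩) | h
        · exact Or.inl (Or.inl h)
        · exact Or.inl (Or.inr ⟨e', List.mem_append.2 (Or.inr he'), h⟩)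
        · exact Or.inr h
  · rw [clus_hang_edges, List.map_append, List.sum_append]
    linarith
  · intro e he
    rw [clus_hang_edges] at he
    rcases List.mem_append.1 he with he | he
    · exact (clus_le_sum wt hwt _ e he).trans hT2.le
    · exact (clus_le_sum wt hwt _ e he).trans h2.le

include hwt in
theorem clus_edge (x : E d) (e : α) (es : List α) (n h : ℕ) (H : clB src dst wt R (dst e) es n h)
    (hx : src e = x) (he : wt e ≤ R) :
    clB src dst wt R x (e :: es) n h ∨ clC src dst wt R x (e :: es) (n + 1) (h + 1) := by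
  obtain ⟨m, K, h1, h2, h3, h4, h5, h6, h7, h8⟩ := H
  have hme : (MT.step RT.leaf e m).edges = e :: m.edges := by simp [MT.edges, RT.edges]
  refine clus_big src dst wt R x (dst e) (e :: es) n h m (MT.step RT.leaf e m) K
    ⟨trivial, hx, h1⟩ rfl h3 h4 ?_ h6 h7 ?_ ?_ ?_
  · rw [hme, List.cons_append]
    exact List.Perm.cons _ h5
  · intro z hz
    rw [hme]
    rcases hz with hz | ⟨e', he', hz⟩
    · exact Or.inl (Or.inl hz)
    · rcases List.mem_cons.1 he' with he' | he'
      · exact Or.inl (Or.inr ⟨e, by simp, by rw [hz, he']⟩)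
      · rcases h8 z (Or.inr ⟨e', he', hz⟩) with (h | ⟨e'', he'', h⟩) | h
        · exact Or.inl (Or.inr ⟨e, by simp, h⟩)
        · exact Or.inl (Or.inr ⟨e'', List.mem_cons_of_mem _ he'', h⟩)
        · exact Or.inr h
  · rw [hme, List.map_cons, List.sum_cons]
    linarith
  · intro e' he'
    rw [hme] at he'
    rcases List.mem_cons.1 he' with rfl | he'
    · exact he
    · exact (clus_le_sum wt hwt _ e' he').trans h2.le

include hR in
theorem clus_long (x : E d) (e : α) (es : List α) (n h : ℕ) (H : clC src dst wt R (dst e) es n h)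
    (hx : src e = x) (he : R < wt e) : clB src dst wt R x (e :: es) (n + 1) (h + 1) := by
  obtain ⟨K, h0, h1, h2, h3, h4, h5, h6⟩ := H
  obtain ⟨a1, a2, a3, a4, a5, a6⟩ := clus_top src dst wt R x (MT.step RT.leaf e (MT.here RT.leaf)) K
    ⟨trivial, hx, trivial⟩ h1 h2 (Or.inr ⟨e, rfl, he⟩)
  have a3' : clFlat (RT.graft RT.leaf (x, MT.step RT.leaf e (MT.here RT.leaf)) K) =
      e :: clFlat K := by
    rw [a3]; simp [MT.edges, RT.edges]
  refine ⟨MT.here RT.leaf, RT.graft RT.leaf (x, MT.step RT.leaf e (MT.here RT.leaf)) K, trivial,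
    by simpa [MT.edges, RT.edges] using hR, a1, a2, ?_, by omega, ?_, ?_⟩
  · rw [a3']
    simpa [MT.edges, RT.edges] using h3
  · rw [a3', List.map_cons, List.sum_cons, (h3.map wt).sum_eq]
    push_cast
    linarith
  · intro y hy
    rcases hy with hy | ⟨e', he', hy⟩
    · exact Or.inl (Or.inl hy)
    · right
      apply a5
      rcases List.mem_cons.1 he' with he' | he'
      · exact h6 y (Or.inl (by rw [hy, he']))
      · exact h6 y (Or.inr ⟨e', he', hy⟩)

theorem clus_union (x : E d) (es es' : List α) (n h n' h' : ℕ) (H : clC src dst wt R x es n h)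
    (H' : clC src dst wt R x es' n' h') : clC src dst wt R x (es ++ es') (n + n') (h + h') := by
  obtain ⟨K, h0, h1, h2, h3, h4, h5, h6⟩ := H
  obtain ⟨K', h0', h1', h2', h3', h4', h5', h6'⟩ := H'
  refine ⟨RT.union K K', clus_union_ne K K' h0', clus_union_WF _ _ K K' x h1 h1', ?_, ?_, ?_, ?_, ?_⟩
  · intro l hl
    rw [clus_union_edges] at hl
    rcases List.mem_append.1 hl with hl | hl
    · exact h2 l hl
    · exact h2' l hl
  · rw [clFlat, clus_union_edges, List.flatMap_append]
    exact List.Perm.append h3 h3'
  · rw [clus_union_edges, List.length_append]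
    omega
  · rw [List.map_append, List.sum_append]
    push_cast
    linarith
  · have c1 : ∀ y, clCov dst wt R K y → clCov dst wt R (RT.union K K') y := by
      rintro y ⟨l, hl, h⟩
      exact ⟨l, by rw [clus_union_edges]; exact List.mem_append.2 (Or.inl hl), h⟩
    have c2 : ∀ y, clCov dst wt R K' y → clCov dst wt R (RT.union K K') y := by
      rintro y ⟨l, hl, h⟩
      exact ⟨l, by rw [clus_union_edges]; exact List.mem_append.2 (Or.inr hl), h⟩
    intro y hy
    rcases hy with hy | ⟨e, he, hy⟩
    · exact c1 y (h6 y (Or.inl hy))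
    · rcases List.mem_append.1 he with he | he
      · exact c1 y (h6 y (Or.inr ⟨e, he, hy⟩))
      · exact c2 y (h6' y (Or.inr ⟨e, he, hy⟩))

theorem clus_single (x : E d) (T : RT α) (hT : T.WF src dst x) (h : ℕ)
    (h1 : (T.edges.map wt).sum ≤ 2 * R) (h2 : ∀ e ∈ T.edges, wt e ≤ R)
    (h3 : (h : ℝ) * R ≤ (T.edges.map wt).sum) : clC src dst wt R x T.edges 1 h := by
  have hn : clNorm wt R (MT.here T) := ⟨h1, h2⟩
  obtain ⟨a1, a2, a3, a4, a5, a6⟩ := clus_top src dst wt R x (MT.here T) RT.leaf hT trivial
    (fun l hl => by simp [RT.edges] at hl) (Or.inl hn)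
  refine ⟨RT.graft RT.leaf (x, MT.here T) RT.leaf, by simp, a1, a2, ?_, ?_, h3, ?_⟩
  · rw [a3, clus_flat_leaf, List.append_nil]
    exact List.Perm.refl _
  · simp [RT.edges]
  · intro y hy
    exact a6 hn y hy

theorem clus_perm (x : E d) (es es' : List α) (n h : ℕ) (H : clB src dst wt R x es n h)
    (hp : es.Perm es') : clB src dst wt R x es' n h := by
  obtain ⟨m, K, h1, h2, h3, h4, h5, h6, h7, h8⟩ := H
  refine ⟨m, K, h1, h2, h3, h4, h5.trans hp, h6, h7, ?_⟩
  intro y hy
  rcases hy with hy | ⟨e, he, hy⟩
  · exact h8 y (Or.inl hy)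
  · exact h8 y (Or.inr ⟨e, hp.symm.subset he, hy⟩)

include hwt hR in
theorem clus_main (T : RT α) : ∀ (x : E d), T.WF src dst x →
    (T.edges.map wt).sum < R ∨ ∃ n h : ℕ, n + 2 ≤ 4 * h ∧ clB src dst wt R x T.edges n h := by
  induction T with
  | leaf =>
    intro x _
    left
    simpa [RT.edges] using hR
  | graft T1 e T2 ih1 ih2 =>
    intro x hx
    obtain ⟨w1, w2, w3⟩ := hx
    have hUe : (RT.graft RT.leaf e T2).edges = e :: T2.edges := by simp [RT.edges]
    have hUW : (RT.graft RT.leaf e T2).WF src dst x := ⟨trivial, w2, w3⟩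
    have opn : ∀ es n h, n + 2 ≤ 4 * h →
        (clB src dst wt R x es n h ∨ clC src dst wt R x es (n + 1) (h + 1)) →
        ∃ n h : ℕ, n + 2 ≤ 4 * h ∧ clB src dst wt R x es n h := by
      intro es n h hn H
      rcases H with H | H
      · exact ⟨n, h, hn, H⟩
      · exact ⟨n + 1, h + 1, by omega, clus_open src dst wt R hR x es _ _ H⟩
    -- the edge part
    have hU : ((e :: T2.edges).map wt).sum < R ∨
        ∃ n h : ℕ, n + 2 ≤ 4 * h ∧ clB src dst wt R x (e :: T2.edges) n h := by
      by_cases he : wt e ≤ R
      · rcases ih2 (dst e) w3 with h | ⟨n, h, hn, H⟩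
        · by_cases hs : ((e :: T2.edges).map wt).sum < R
          · exact Or.inl hs
          · right
            have hc : clC src dst wt R x (RT.graft RT.leaf e T2).edges 1 1 := by
              apply clus_single src dst wt R x _ hUW
              · rw [hUe, List.map_cons, List.sum_cons]; linarith
              · intro e' he'
                rw [hUe] at he'
                rcases List.mem_cons.1 he' with rfl | he'
                · exact he
                · exact (clus_le_sum wt hwt _ e' he').trans h.le
              · rw [hUe]; push_cast; rw [one_mul]; exact not_lt.1 hs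
            rw [hUe] at hc
            exact ⟨1, 1, by norm_num, clus_open src dst wt R hR x _ _ _ hc⟩
        · right
          exact opn _ n h hn (clus_edge src dst wt hwt R x e _ n h H w2 he)
      · right
        have he' : R < wt e := not_le.1 he
        rcases ih2 (dst e) w3 with h | ⟨n, h, hn, H⟩
        · have hc : clC src dst wt R (dst e) T2.edges 1 0 := by
            apply clus_single src dst wt R (dst e) T2 w3
            · linarith
            · intro e' he'
              exact (clus_le_sum wt hwt _ e' he').trans h.le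
            · simpa using clus_nonneg wt hwt T2.edges
          exact ⟨1 + 1, 0 + 1, by norm_num, clus_long src dst wt R hR x e _ _ _ hc w2 he'⟩
        · have hc := clus_close src dst wt hwt R hR _ _ _ _ H
          exact ⟨n + 1 + 1, h + 1, by omega, clus_long src dst wt R hR x e _ _ _ hc w2 he'⟩
    have hTe : (RT.graft T1 e T2).edges = T1.edges ++ (e :: T2.edges) := rfl
    rw [hTe]
    rcases ih1 x w1 with s1 | ⟨n1, h1, hn1, H1⟩
    · rcases hU with s2 | ⟨n2, h2, hn2, H2⟩
      · by_cases hs : ((T1.edges ++ (e :: T2.edges)).map wt).sum < R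
        · exact Or.inl hs
        · right
          have hc : clC src dst wt R x (RT.graft T1 e T2).edges 1 1 := by
            apply clus_single src dst wt R x (RT.graft T1 e T2) ⟨w1, w2, w3⟩
            · rw [hTe, List.map_append, List.sum_append]; linarith
            · intro e' he'
              rw [hTe] at he'
              rcases List.mem_append.1 he' with he' | he'
              · exact (clus_le_sum wt hwt _ e' he').trans s1.le
              · exact (clus_le_sum wt hwt _ e' he').trans s2.le
            · rw [hTe]; push_cast; rw [one_mul]; exact not_lt.1 hs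
          rw [hTe] at hc
          exact ⟨1, 1, by norm_num, clus_open src dst wt R hR x _ _ _ hc⟩
      · right
        exact opn _ n2 h2 hn2 (clus_hang src dst wt hwt R x _ n2 h2 H2 T1 w1 s1)
    · rcases hU with s2 | ⟨n2, h2, hn2, H2⟩
      · right
        have := opn _ n1 h1 hn1 (clus_hang src dst wt hwt R x _ n1 h1 H1 (RT.graft RT.leaf e T2) hUW
          (by rw [hUe]; exact s2))
        obtain ⟨n, h, hn, H⟩ := this
        rw [hUe] at H
        exact ⟨n, h, hn, clus_perm src dst wt R x _ _ n h H List.perm_append_comm⟩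
      · right
        have c1 := clus_close src dst wt hwt R hR _ _ _ _ H1
        have c2 := clus_close src dst wt hwt R hR _ _ _ _ H2
        have c3 := clus_union src dst wt R x _ _ _ _ _ _ c1 c2
        exact ⟨_, _, by omega, clus_open src dst wt R hR x _ _ _ c3⟩

end

theorem cluster (src dst : α → E d) (wt : α → ℝ) (hwt : ∀ e, 0 ≤ wt e) (R : ℝ) (hR : 0 < R)
    (T : RT α) (x : E d) (hT : T.WF src dst x) :
    ∃ K : RT (E d × MT α), K ≠ RT.leaf ∧
      K.WF (fun l => l.1) (fun l => l.2.bot dst l.1) x ∧
      (∀ l ∈ K.edges, l.2.WF src dst l.1) ∧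
      (∀ l ∈ K.edges, (l.2.edges.map wt).sum ≤ 2 * R ∨ IsLong wt R l.2) ∧
      (K.edges.flatMap (fun l => l.2.edges)).Perm T.edges ∧
      (K.edges.length : ℝ) ≤ 5 * (T.edges.map wt).sum / R + 1 ∧
      (∀ y, (y = x ∨ ∃ e ∈ T.edges, y = dst e) →
        ∃ l ∈ K.edges, (l.2.edges.map wt).sum ≤ 2 * R ∧ ¬ IsLong wt R l.2 ∧
          (y = l.1 ∨ ∃ e ∈ l.2.edges, y = dst e)) := by
  have key : ∃ n h : ℕ, n ≤ 4 * h + 1 ∧ clC src dst wt R x T.edges n h := by
    rcases clus_main src dst wt hwt R hR T x hT with h | ⟨n, h, hn, H⟩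
    · refine ⟨1, 0, by norm_num, clus_single src dst wt R x T hT 0 (by linarith) ?_ ?_⟩
      · intro e' he'
        exact (clus_le_sum wt hwt _ e' he').trans h.le
      · simpa using clus_nonneg wt hwt T.edges
    · exact ⟨n + 1, h, by omega, clus_close src dst wt hwt R hR _ _ _ _ H⟩
  obtain ⟨n, h, hn, K, h0, h1, h2, h3, h4, h5, h6⟩ := key
  refine ⟨K, h0, h1, fun l hl => (h2 l hl).1, ?_, h3, ?_, ?_⟩
  · intro l hl
    rcases (h2 l hl).2 with h | h
    · exact Or.inl h.1
    · exact Or.inr h
  · have e1 : (K.edges.length : ℝ) ≤ n := by exact_mod_cast h4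
    have e2 : (n : ℝ) ≤ 4 * h + 1 := by exact_mod_cast hn
    have e3 : (h : ℝ) ≤ (T.edges.map wt).sum / R := by
      rw [le_div_iff₀ hR]; exact h5
    have e4 : 5 * (T.edges.map wt).sum / R = 5 * ((T.edges.map wt).sum / R) := by ring
    have e5 : (0 : ℝ) ≤ h := Nat.cast_nonneg h
    rw [e4]
    linarith
  · intro y hy
    obtain ⟨l, hl, hn, hy'⟩ := h6 y hy
    refine ⟨l, hl, hn.1, ?_, hy'⟩
    rintro ⟨e, he, hlt⟩
    have := hn.2 e (by rw [he]; simp [MT.edges, RT.edges])
    linarith

end MP4fb

end
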