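import Pool.Agent.Lib.MP_4fbc34_pr.ClusDef

/-!
JOB TreeConv: conversions between `Tr` (trees as lists of vertices), rooted trees and marked trees with
plain edges `(x, y) : E d × E d`.

* `tr_to_rt`: induction on `Tr V L`, for all roots `z ∈ V`.  For `join x y`: if `z ∈ V`, take the rooted
  tree of `V` with root `z` and insert at the vertex `x` the edge `(x, y)` with the rooted tree of `W` with
  root `y`.  Insertion lemma (induction on the rooted tree `T`): if `T.WF z`, `x = z` or `x` is the second
  component of an edge of `T`, and `T'.WF y`, then there is `T''` with `T''.WF z` whose edges are a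
  permutation of `T.edges ++ (x, y) :: T'.edges`.  If `z ∈ W` use the edge `(y, x)` of the same length.
* `rt_to_tr`, `mt_to_tr`: induction on the tree; the vertices of a marked tree `m` with root `a` are
  `a :: m.edges.map Prod.snd` and the length is the sum of the lengths of the edges.
* `mt_bot_mem`: the marked vertex is a vertex.
* `mt_dist`: the tops and bottoms of edges are within the total length from the root.
* `mt_fsum`: the sum of `dst e - src e` over the flagged edges is `bot - a` (telescoping).
* `rt_conn`: the edges of a rooted tree, in the order of `RT.edges`, form a connected list (`Conn` is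
  monotone in its first argument; prove `Conn A (l1 ++ l2)` criteria first).
-/

set_option autoImplicit false

noncomputable section

namespace MP4fb

variable {d : ℕ} {α : Type}

/-- plain edges -/
abbrev Ed (d : ℕ) := E d × E d

/-- length of a plain edge -/
def elen (e : Ed d) : ℝ := ‖e.1 - e.2‖


theorem treeConv_insert (src dst : α → E d) (T : RT α) : ∀ (z : E d), T.WF src dst z →
    ∀ (x : E d), (x = z ∨ ∃ e ∈ T.edges, dst e = x) → ∀ (e0 : α), src e0 = x →
    ∀ (T' : RT α), T'.WF src dst (dst e0) →
    ∃ T'' : RT α, T''.WF src dst z ∧ T''.edges.Perm (T.edges ++ e0 :: T'.edges) := by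
  induction T with
  | leaf =>
    intro z _ x hx e0 he0 T' hT'
    have hxz : x = z := by
      rcases hx with h | ⟨e, he, _⟩
      · exact h
      · simp [RT.edges] at he
    exact ⟨RT.graft RT.leaf e0 T', ⟨trivial, by rw [he0, hxz], hT'⟩, List.Perm.refl _⟩
  | graft T1 e T2 ih1 ih2 =>
    intro z hz x hx e0 he0 T' hT'
    obtain ⟨h1, h2, h3⟩ := hz
    by_cases hxz : x = z
    · exact ⟨RT.graft (RT.graft T1 e T2) e0 T', ⟨⟨h1, h2, h3⟩, by rw [he0, hxz], hT'⟩,
        List.Perm.refl _⟩
    have hx' : (∃ e' ∈ T1.edges, dst e' = x) ∨ (x = dst e ∨ ∃ e' ∈ T2.edges, dst e' = x) := by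
      rcases hx with h | ⟨e', he', hx'⟩
      · exact absurd h hxz
      · simp only [RT.edges, List.mem_append, List.mem_cons] at he'
        rcases he' with h | h | h
        · exact Or.inl ⟨e', h, hx'⟩
        · right; left; rw [← hx', h]
        · exact Or.inr (Or.inr ⟨e', h, hx'⟩)
    rcases hx' with h | h
    · obtain ⟨T'', hw, hp⟩ := ih1 z h1 x (Or.inr h) e0 he0 T' hT'
      refine ⟨RT.graft T'' e T2, ⟨hw, h2, h3⟩, ?_⟩
      simp only [RT.edges]
      have a1 : (T''.edges ++ e :: T2.edges).Perm ((T1.edges ++ e0 :: T'.edges) ++ e :: T2.edges) :=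
        List.Perm.append hp (List.Perm.refl _)
      refine a1.trans ?_
      rw [List.append_assoc, List.append_assoc]
      exact List.Perm.append (List.Perm.refl _) List.perm_append_comm
    · obtain ⟨T'', hw, hp⟩ := ih2 (dst e) h3 x h e0 he0 T' hT'
      refine ⟨RT.graft T1 e T'', ⟨h1, h2, hw⟩, ?_⟩
      simp only [RT.edges]
      rw [List.append_assoc]
      exact List.Perm.append (List.Perm.refl _) (List.Perm.cons _ hp)

theorem tr_to_rt {V : List (E d)} {L : ℝ} (h : Tr V L) (z : E d) (hz : z ∈ V) :
    ∃ T : RT (Ed d), T.WF Prod.fst Prod.snd z ∧ (z :: T.edges.map Prod.snd).Perm V ∧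
      (T.edges.map elen).sum = L := by
  induction h generalizing z with
  | single x =>
    have : z = x := by simpa using hz
    subst this
    exact ⟨RT.leaf, trivial, by simp [RT.edges], by simp [RT.edges]⟩
  | @join V W L L' x y hV hW hx hy ihV ihW =>
    rcases List.mem_append.1 hz with hz | hz
    · obtain ⟨T1, w1, p1, s1⟩ := ihV z hz
      obtain ⟨T2, w2, p2, s2⟩ := ihW y hy
      have hx' : x = z ∨ ∃ e ∈ T1.edges, Prod.snd e = x := by
        have := p1.symm.subset hx
        simpa [List.mem_cons, List.mem_map] using this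
      obtain ⟨T'', hw, hp⟩ := treeConv_insert Prod.fst Prod.snd T1 z w1 x hx' (x, y) rfl T2 w2
      refine ⟨T'', hw, ?_, ?_⟩
      · have a1 : (z :: T''.edges.map Prod.snd).Perm
            (z :: (T1.edges ++ (x, y) :: T2.edges).map Prod.snd) :=
          List.Perm.cons _ (hp.map _)
        refine a1.trans ?_
        rw [List.map_append, List.map_cons]
        exact List.Perm.append p1 p2
      · have a1 := (hp.map elen).sum_eq
        rw [a1, List.map_append, List.sum_append, List.map_cons, List.sum_cons, s1, s2]
        simp only [elen]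
        ring
    · obtain ⟨T1, w1, p1, s1⟩ := ihW z hz
      obtain ⟨T2, w2, p2, s2⟩ := ihV x hx
      have hy' : y = z ∨ ∃ e ∈ T1.edges, Prod.snd e = y := by
        have := p1.symm.subset hy
        simpa [List.mem_cons, List.mem_map] using this
      obtain ⟨T'', hw, hp⟩ := treeConv_insert Prod.fst Prod.snd T1 z w1 y hy' (y, x) rfl T2 w2
      refine ⟨T'', hw, ?_, ?_⟩
      · have a1 : (z :: T''.edges.map Prod.snd).Perm
            (z :: (T1.edges ++ (y, x) :: T2.edges).map Prod.snd) :=
          List.Perm.cons _ (hp.map _)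
        refine a1.trans ?_
        rw [List.map_append, List.map_cons]
        exact (List.Perm.append p1 p2).trans List.perm_append_comm
      · have a1 := (hp.map elen).sum_eq
        rw [a1, List.map_append, List.sum_append, List.map_cons, List.sum_cons, s1, s2]
        simp only [elen]
        rw [norm_sub_rev]
        ring

theorem treeConv_join (T : RT (Ed d)) (e : Ed d) (l2 : List (Ed d)) (a : E d) (he : e.1 = a)
    (V1 V2 : List (E d)) (L1 L2 : ℝ) (p1 : V1.Perm (a :: T.edges.map Prod.snd)) (t1 : Tr V1 L1)
    (p2 : V2.Perm (e.2 :: l2.map Prod.snd)) (t2 : Tr V2 L2) :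
    ∃ V : List (E d), V.Perm (a :: (T.edges ++ e :: l2).map Prod.snd) ∧ Tr V (L1 + (elen e + L2)) := by
  refine ⟨V1 ++ V2, ?_, ?_⟩
  · rw [List.map_append, List.map_cons]
    exact List.Perm.append p1 p2
  · have h := Tr.join a e.2 t1 t2 (p1.symm.subset (by simp)) (p2.symm.subset (by simp))
    have h2 : L1 + L2 + ‖a - e.2‖ = L1 + (elen e + L2) := by
      simp only [elen]; rw [he]; ring
    rwa [h2] at h

theorem rt_to_tr (T : RT (Ed d)) (a : E d) (h : T.WF Prod.fst Prod.snd a) :
    ∃ V : List (E d), V.Perm (a :: T.edges.map Prod.snd) ∧ Tr V (T.edges.map elen).sum := by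
  induction T generalizing a with
  | leaf => exact ⟨[a], by simp [RT.edges], by simpa [RT.edges] using Tr.single a⟩
  | graft T1 e T2 ih1 ih2 =>
    obtain ⟨h1, h2, h3⟩ := h
    obtain ⟨V1, p1, t1⟩ := ih1 a h1
    obtain ⟨V2, p2, t2⟩ := ih2 e.2 h3
    obtain ⟨V, p, t⟩ := treeConv_join T1 e T2.edges a h2 V1 V2 _ _ p1 t1 p2 t2
    refine ⟨V, p, ?_⟩
    simp only [RT.edges, List.map_append, List.sum_append, List.map_cons, List.sum_cons]
    exact t

theorem mt_to_tr (m : MT (Ed d)) (a : E d) (h : m.WF Prod.fst Prod.snd a) :
    ∃ V : List (E d), V.Perm (a :: m.edges.map Prod.snd) ∧ Tr V (m.edges.map elen).sum := by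
  induction m generalizing a with
  | here T => exact rt_to_tr T a h
  | step T1 e m ih =>
    obtain ⟨h1, h2, h3⟩ := h
    obtain ⟨V1, p1, t1⟩ := rt_to_tr T1 a h1
    obtain ⟨V2, p2, t2⟩ := ih e.2 h3
    obtain ⟨V, p, t⟩ := treeConv_join T1 e m.edges a h2 V1 V2 _ _ p1 t1 p2 t2
    refine ⟨V, p, ?_⟩
    simp only [MT.edges, List.map_append, List.sum_append, List.map_cons, List.sum_cons]
    exact t

theorem mt_bot_mem (src dst : α → E d) (m : MT α) (a : E d) (h : m.WF src dst a) :
    m.bot dst a = a ∨ ∃ e ∈ m.edges, m.bot dst a = dst e := by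
  induction m generalizing a with
  | here T => exact Or.inl rfl
  | step T1 e m ih =>
    obtain ⟨h1, h2, h3⟩ := h
    right
    rcases ih (dst e) h3 with h | ⟨e', he', h⟩
    · exact ⟨e, by simp [MT.edges], h⟩
    · exact ⟨e', by simp [MT.edges, he'], h⟩

theorem mt_fedges_edges (m : MT α) : m.fedges.map Prod.fst = m.edges := by
  induction m with
  | here T => simp [MT.fedges, MT.edges, Function.comp_def]
  | step T1 e m ih => simp [MT.fedges, MT.edges, ih, Function.comp_def]

theorem mt_fsum (src dst : α → E d) (m : MT α) (a : E d) (h : m.WF src dst a) :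
    ((m.fedges.map (fun p => if p.2 then dst p.1 - src p.1 else 0)).sum : E d) = m.bot dst a - a := by
  induction m generalizing a with
  | here T => simp [MT.fedges, MT.bot, Function.comp_def]
  | step T1 e m ih =>
    obtain ⟨h1, h2, h3⟩ := h
    have := ih (dst e) h3
    simp only [MT.fedges, List.map_append, List.sum_append, List.map_cons, List.sum_cons, this,
      List.map_map, MT.bot]
    have h0 : (T1.edges.map ((fun p : α × Bool => if p.2 then dst p.1 - src p.1 else 0) ∘
        (fun e => (e, false)))).sum = (0 : E d) := by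
      simp [Function.comp_def]
    rw [h0, zero_add]
    have h9 : ∀ u v w : E d, (u - v) + (w - u) = w - v := fun u v w => by abel
    simp only [if_true, h2]
    exact h9 _ _ _

theorem treeConv_nonneg (src dst : α → E d) (wt : α → ℝ) (hwt : ∀ e, ‖dst e - src e‖ ≤ wt e)
    (l : List α) : 0 ≤ (l.map wt).sum := by
  apply List.sum_nonneg
  intro x hx
  obtain ⟨e, _, rfl⟩ := List.mem_map.1 hx
  exact (norm_nonneg _).trans (hwt e)

theorem rt_dist (src dst : α → E d) (wt : α → ℝ) (hwt : ∀ e, ‖dst e - src e‖ ≤ wt e) (T : RT α)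
    (a : E d) (h : T.WF src dst a) (e : α) (he : e ∈ T.edges) :
    ‖src e - a‖ ≤ (T.edges.map wt).sum := by
  induction T generalizing a with
  | leaf => simp [RT.edges] at he
  | graft T1 e0 T2 ih1 ih2 =>
    obtain ⟨h1, h2, h3⟩ := h
    have n1 := treeConv_nonneg src dst wt hwt T1.edges
    have n2 := treeConv_nonneg src dst wt hwt T2.edges
    have n0 := hwt e0
    have n0' := norm_nonneg (dst e0 - src e0)
    simp only [RT.edges, List.map_append, List.sum_append, List.map_cons, List.sum_cons]
    simp only [RT.edges, List.mem_append, List.mem_cons] at he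
    rcases he with he | he | he
    · have := ih1 a h1 he
      linarith
    · rw [he, h2, sub_self, norm_zero]
      linarith
    · have h4 := ih2 (dst e0) h3 he
      have h5 : ‖src e - a‖ ≤ ‖src e - dst e0‖ + ‖dst e0 - src e0‖ := by
        rw [← h2]
        exact norm_sub_le_norm_sub_add_norm_sub _ _ _
      linarith

/-- distances inside a marked tree, for a weight dominating the displacements -/
theorem mt_dist (src dst : α → E d) (wt : α → ℝ) (hwt : ∀ e, ‖dst e - src e‖ ≤ wt e) (m : MT α)
    (a : E d) (h : m.WF src dst a) (e : α) (he : e ∈ m.edges) :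
    ‖src e - a‖ ≤ (m.edges.map wt).sum := by
  induction m generalizing a with
  | here T => exact rt_dist src dst wt hwt T a h e he
  | step T1 e0 m ih =>
    obtain ⟨h1, h2, h3⟩ := h
    have n1 := treeConv_nonneg src dst wt hwt T1.edges
    have n2 := treeConv_nonneg src dst wt hwt m.edges
    have n0 := hwt e0
    have n0' := norm_nonneg (dst e0 - src e0)
    simp only [MT.edges, List.map_append, List.sum_append, List.map_cons, List.sum_cons]
    simp only [MT.edges, List.mem_append, List.mem_cons] at he
    rcases he with he | he | he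
    · have := rt_dist src dst wt hwt T1 a h1 e he
      linarith
    · rw [he, h2, sub_self, norm_zero]
      linarith
    · have h4 := ih (dst e0) h3 he
      have h5 : ‖src e - a‖ ≤ ‖src e - dst e0‖ + ‖dst e0 - src e0‖ := by
        rw [← h2]
        exact norm_sub_le_norm_sub_add_norm_sub _ _ _
      linarith

theorem mt_bot_dist (src dst : α → E d) (wt : α → ℝ) (hwt : ∀ e, ‖dst e - src e‖ ≤ wt e) (m : MT α)
    (a : E d) (h : m.WF src dst a) : ‖m.bot dst a - a‖ ≤ (m.edges.map wt).sum := by
  induction m generalizing a with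
  | here T =>
    simp only [MT.bot, sub_self, norm_zero]
    exact treeConv_nonneg src dst wt hwt _
  | step T1 e0 m ih =>
    obtain ⟨h1, h2, h3⟩ := h
    have n1 := treeConv_nonneg src dst wt hwt T1.edges
    have n0 := hwt e0
    have h4 := ih (dst e0) h3
    simp only [MT.edges, List.map_append, List.sum_append, List.map_cons, List.sum_cons, MT.bot]
    have h5 : ‖MT.bot dst (dst e0) m - a‖ ≤ ‖MT.bot dst (dst e0) m - dst e0‖ + ‖dst e0 - src e0‖ := by
      rw [← h2]
      exact norm_sub_le_norm_sub_add_norm_sub _ _ _
    linarith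

theorem treeConv_conn (src dst : α → E d) (T : RT α) : ∀ (x : E d), T.WF src dst x →
    ∀ (A : List (E d)), x ∈ A → ∀ (l : List (E d × E d)), (∀ B : List (E d), A ⊆ B → Conn B l) →
    Conn A (T.edges.map (fun e => (src e, dst e)) ++ l) := by
  induction T with
  | leaf =>
    intro x _ A _ l hl
    exact hl A (List.Subset.refl _)
  | graft T1 e T2 ih1 ih2 =>
    intro x h A hx l hl
    obtain ⟨h1, h2, h3⟩ := h
    simp only [RT.edges, List.map_append, List.map_cons, List.append_assoc, List.cons_append]
    refine ih1 x h1 A hx _ ?_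
    intro B hB
    refine ⟨?_, ?_⟩
    · show src e ∈ B
      rw [h2]; exact hB hx
    · refine ih2 (dst e) h3 _ (by simp) l ?_
      intro B' hB'
      exact hl B' (fun t ht => hB' (List.mem_cons_of_mem _ (hB ht)))

theorem rt_conn (src dst : α → E d) (T : RT α) (x : E d) (h : T.WF src dst x) :
    Conn [x] (T.edges.map (fun e => (src e, dst e))) := by
  have := treeConv_conn src dst T x h [x] (by simp) [] (fun _ _ => trivial)
  simpa using this

end MP4fb

end
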