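import Pool.Agent.Lib.MP_4fbc34_pr.AoBasic
import Pool.Agent.Lib.MP_4fbc34_pr.Clus
import Pool.Agent.Lib.MP_4fbc34_pr.TreeConv

/-!
JOB AoCut1: cutting of animals.

If the object is the empty one (`C = ∅`, `κ = 0`) take `p0 = ⟨0, 0, []⟩` and `l = []`.
Otherwise let `Tr V L`, `x ∈ V`, `y ∈ V` with `L + ‖0 - x‖ + ‖b - y‖ <= Lam`.  Put
`p0 = ⟨0, x, [⟨0, x, ‖x‖, ∅, 0⟩]⟩` (one empty micro piece).  Let `T` be the rooted tree of `V` with root `x`
(`tr_to_rt`).  First level: `cluster` with `wt = elen` and threshold `s` gives `K1`, whose labels `(a, m)`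
have `(m.edges.map elen).sum <= 2 s` or are long edges.  Second level: apply `cluster` to `K1` with
`src l = l.1`, `dst l = l.2.bot Prod.snd l.1`, weight `wt1 l = (l.2.edges.map elen).sum + s` and threshold
`R`, giving `K2`.  `l` is the list of the labels `(a, m)` of `K2` (in the order of `K2.edges`), turned into
macro pieces: `a`, `c = m.bot _ a`, and the micro pieces are the flagged edges of `m` (`m.fedges`): a
first level label `(a', m')` with flag `f` gives
`u = a'`, `v = if f then m'.bot Prod.snd a' - a' else 0`, `lam = (m'.edges.map elen).sum`, and, if the label is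
a long edge, `C = ∅`, `κ = 0`, otherwise `C` = the points of `C` among its vertices
`a' :: m'.edges.map Prod.snd` and `κ = (q * number of these vertices outside S).toReal`.
CHECKS.
* A first level label which is not long gives an object from `a'` to `a' + v` (`mt_to_tr`, both `a'` and
  the bottom are vertices, budget exactly the length), of budget at most `2 s`.  If `q = ∞` all vertices of
  `V` are in `S` (the cost `κ` is finite), so the counts are zero.  The cover property of `cluster` gives that
  every point of `C` (a vertex) belongs to a micro piece.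
* A label of the second level which is a long edge consists of one first level label of weight
  `length + s > R >= 3 s`, so `length > 2 s` and this first level label is a long edge: the micro piece is
  empty.  Otherwise the weight is at most `2 R`, that is `p.lam + s * length <= 2 R`.
* Sum of the displacements: `mt_fsum`; position of the micro pieces: `mt_dist` with `wt = wt1` does not give
  exactly `p.lam`; apply it with `wt l = (l.2.edges.map elen).sum`, which dominates the displacement of the
  label by `mt_bot_dist`.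
* Costs: `κ = q * count(V)` as extended reals.  The vertices of all first level labels are their tops and
  the end points of all edges of `T` (the end points of the edges are `V` minus the root, a permutation),
  so the total count over the labels which are not long is at most `count(V) + number of labels`.
* Budgets: the total is `‖x‖ + L <= Lam`.  Numbers: `#K1 <= 5 L / s + 1`, `nMicro = #K1 + 1`;
  the total weight of the second level is `L + s #K1 <= 6 L + s`, so
  `#K2 <= 5 (6 L + s) / R + 1 <= 30 L / R + 3` (`3 s <= R`), all far below the required bounds.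
* `‖p.a‖ <= Lam`: tops are vertices of `V`, within `L` of `x`, and `‖x‖ + L <= Lam`.
* `Conn` from `rt_conn` (the root is `x = p0.c`).
* If `q = ∞`: tops and bottoms of labels are vertices (`mt_bot_mem`), so in `S`.
-/

set_option autoImplicit false

open scoped ENNReal Classical

noncomputable section

namespace MP4fb

variable {d : ℕ} {α : Type}

private lemma AoCut1_rt_dist (src dst : α → E d) (wt : α → ℝ) (hw : ∀ e, 0 ≤ wt e) (T : RT α) :
    ∀ a, T.WF src dst a → (∀ e ∈ T.edges, ‖dst e - src e‖ ≤ wt e) →
      ∀ e ∈ T.edges, ‖src e - a‖ ≤ (T.edges.map wt).sum := by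
  have hsn : ∀ W : List α, 0 ≤ (W.map wt).sum := by
    intro W
    apply List.sum_nonneg
    intro r hr
    obtain ⟨f, _, rfl⟩ := List.mem_map.1 hr
    exact hw f
  induction T with
  | leaf => intro a _ _ e he; simp [RT.edges] at he
  | graft T e T' ih ih' =>
    intro a hwf hd e' he'
    simp only [RT.WF] at hwf
    obtain ⟨h1, h2, h3⟩ := hwf
    simp only [RT.edges, List.mem_append, List.mem_cons] at he' hd
    simp only [RT.edges, List.map_append, List.map_cons, List.sum_append, List.sum_cons]
    have n1 := hsn T.edges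
    have n2 := hsn T'.edges
    have n3 := hw e
    rcases he' with h | h | h
    · have := ih a h1 (fun e he => hd e (Or.inl he)) e' h
      linarith
    · rw [h, h2, sub_self, norm_zero]
      linarith
    · have h4 := ih' (dst e) h3 (fun e he => hd e (Or.inr (Or.inr he))) e' h
      have h5 := hd e (Or.inr (Or.inl rfl))
      have h6 : ‖src e' - a‖ ≤ ‖src e' - dst e‖ + ‖dst e - src e‖ := by
        have := norm_add_le (src e' - dst e) (dst e - src e)
        rw [h2] at this ⊢
        simpa using this
      linarith

private lemma AoCut1_dist (src dst : α → E d) (wt : α → ℝ) (hw : ∀ e, 0 ≤ wt e) (m : MT α) :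
    ∀ a, m.WF src dst a → (∀ e ∈ m.edges, ‖dst e - src e‖ ≤ wt e) →
      ∀ e ∈ m.edges, ‖src e - a‖ ≤ (m.edges.map wt).sum := by
  have hsn : ∀ W : List α, 0 ≤ (W.map wt).sum := by
    intro W
    apply List.sum_nonneg
    intro r hr
    obtain ⟨f, _, rfl⟩ := List.mem_map.1 hr
    exact hw f
  induction m with
  | here T => exact fun a h1 h2 => AoCut1_rt_dist src dst wt hw T a h1 h2
  | step T e m ih =>
    intro a hwf hd e' he'
    simp only [MT.WF] at hwf
    obtain ⟨h1, h2, h3⟩ := hwf
    simp only [MT.edges, List.mem_append, List.mem_cons] at he' hd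
    simp only [MT.edges, List.map_append, List.map_cons, List.sum_append, List.sum_cons]
    have n1 := hsn T.edges
    have n2 := hsn m.edges
    have n3 := hw e
    rcases he' with h | h | h
    · have := AoCut1_rt_dist src dst wt hw T a h1 (fun e he => hd e (Or.inl he)) e' h
      linarith
    · rw [h, h2, sub_self, norm_zero]
      linarith
    · have h4 := ih (dst e) h3 (fun e he => hd e (Or.inr (Or.inr he))) e' h
      have h5 := hd e (Or.inr (Or.inl rfl))
      have h6 : ‖src e' - a‖ ≤ ‖src e' - dst e‖ + ‖dst e - src e‖ := by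
        have := norm_add_le (src e' - dst e) (dst e - src e)
        rw [h2] at this ⊢
        simpa using this
      linarith

private lemma AoCut1_rt (src dst : α → E d) (Q : E d → Prop) (T : RT α) :
    ∀ x, T.WF src dst x → Q x → (∀ e ∈ T.edges, Q (src e) → Q (dst e)) →
      ∀ e ∈ T.edges, Q (src e) ∧ Q (dst e) := by
  induction T with
  | leaf => intro x _ _ _ e he; simp [RT.edges] at he
  | graft T e T' ih ih' =>
    intro x hw hx hs e' he'
    simp only [RT.WF] at hw
    obtain ⟨h1, h2, h3⟩ := hw
    simp only [RT.edges, List.mem_append, List.mem_cons] at he' hs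
    have hse : Q (src e) := by rw [h2]; exact hx
    have hde : Q (dst e) := hs e (Or.inr (Or.inl rfl)) hse
    rcases he' with h | h | h
    · exact ih x h1 hx (fun e he => hs e (Or.inl he)) e' h
    · rw [h]; exact ⟨hse, hde⟩
    · exact ih' (dst e) h3 hde (fun e he => hs e (Or.inr (Or.inr he))) e' h

private lemma AoCut1_sum_flat {β γ : Type} (l : List β) (g : β → List γ) (f : γ → ℝ) :
    (l.map (fun b => ((g b).map f).sum)).sum = ((l.flatMap g).map f).sum := by
  induction l with
  | nil => simp
  | cons b l ih => simp [ih]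

private lemma AoCut1_count_flat {β γ : Type} (l : List β) (g : β → List γ) (f : γ → Bool) :
    (l.map (fun b => (g b).countP f)).sum = (l.flatMap g).countP f := by
  induction l with
  | nil => simp
  | cons b l ih => simp [ih]

/-- second level displacement -/
private def d1 (e : E d × MT (Ed d)) : E d := e.2.bot Prod.snd e.1

/-- length of a first level label -/
private def w1 (e : E d × MT (Ed d)) : ℝ := (e.2.edges.map elen).sum

/-- vertices of a first level label -/
private def vs (e : E d × MT (Ed d)) : List (E d) := e.1 :: e.2.edges.map Prod.snd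

/-- the collected set of a first level label -/
private def cf (C : Finset (E d)) (s : ℝ) (e : E d × MT (Ed d)) : Finset (E d) :=
  if IsLong elen s e.2 then ∅ else C.filter (fun z => z ∈ vs e)

/-- the cost of a first level label -/
private def kf (q : ℝ≥0∞) (S : Set (E d)) (s : ℝ) (e : E d × MT (Ed d)) : ℝ :=
  if IsLong elen s e.2 then 0 else q.toReal * ((vs e).countP (fun x => decide (x ∉ S)) : ℕ)

/-- the micro piece of a first level label -/
private def mic (q : ℝ≥0∞) (S : Set (E d)) (C : Finset (E d)) (s : ℝ)
    (ef : (E d × MT (Ed d)) × Bool) : Micro d :=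
  ⟨ef.1.1, if ef.2 then d1 ef.1 - ef.1.1 else 0, w1 ef.1, cf C s ef.1, kf q S s ef.1⟩

/-- the macro piece of a second level label -/
private def mac (q : ℝ≥0∞) (S : Set (E d)) (C : Finset (E d)) (s : ℝ)
    (l : E d × MT (E d × MT (Ed d))) : Macro d :=
  ⟨l.1, l.2.bot d1 l.1, l.2.fedges.map (mic q S C s)⟩

private lemma AoCut1_w1_nonneg (e : E d × MT (Ed d)) : 0 ≤ w1 e := by
  unfold w1
  apply List.sum_nonneg
  intro r hr
  obtain ⟨f, _, rfl⟩ := List.mem_map.1 hr
  exact norm_nonneg _

private lemma AoCut1_mic_sum (q : ℝ≥0∞) (S : Set (E d)) (C : Finset (E d)) (s : ℝ)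
    (m : MT (E d × MT (Ed d))) (F : Micro d → ℝ) (G : E d × MT (Ed d) → ℝ)
    (h : ∀ ef, F (mic q S C s ef) = G ef.1) :
    ((m.fedges.map (mic q S C s)).map F).sum = (m.edges.map G).sum := by
  rw [← mt_fedges_edges m, List.map_map, List.map_map]
  congr 1
  apply List.map_congr_left
  intro ef _
  exact h ef

theorem ao_cut (q : ℝ≥0∞) (S : Set (E d)) (b : E d) (Lam : ℝ) (C : Finset (E d)) (κ s R : ℝ)
    (hs : 0 < s) (hR : 3 * s ≤ R) (h : AO q S 0 b Lam C κ) :
    ∃ (p0 : Macro d) (l : List (Macro d)), p0.a = 0 ∧
      (∀ p ∈ p0 :: l, p.Ok (animM d q) S s R) ∧ (∀ p ∈ p0 :: l, ‖p.a‖ ≤ Lam) ∧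
      (∀ x ∈ C, ∃ p ∈ p0 :: l, ∃ m ∈ p.l, x ∈ m.C) ∧
      (((p0 :: l).map (fun p => (p.l.map Micro.κ).sum)).sum ≤ κ + q.toReal * nMicro (p0 :: l)) ∧
      ((p0 :: l).map Macro.lam).sum ≤ Lam ∧
      (nMicro (p0 :: l) : ℝ) ≤ 20 * (1 + Lam / s) ∧
      ((p0 :: l).length : ℝ) ≤ 200 * (1 + Lam / R) ∧
      Conn [p0.c] (l.map (fun p => (p.a, p.c))) ∧
      (q = ∞ → l ≠ [] → p0.c ∈ S ∧ ∀ p ∈ l, p.a ∈ S ∧ p.c ∈ S) := by
  classical
  have hR0 : 0 < R := by linarith
  obtain ⟨hCS, h⟩ := h
  rcases h with ⟨hC, hκ, hb⟩ | ⟨V, L, hTr, hCV, ⟨x, hx, y, hy, hlen⟩, hκ, hcost⟩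
  · have hLam : 0 ≤ Lam := le_trans (norm_nonneg _) hb
    have h1 : 0 ≤ Lam / s := div_nonneg hLam hs.le
    have h2 : 0 ≤ Lam / R := div_nonneg hLam hR0.le
    refine ⟨⟨0, 0, []⟩, [], rfl, ?_, ?_, ?_, ?_, ?_, ?_, ?_, trivial, ?_⟩
    · intro p hp
      rw [List.mem_singleton] at hp
      subst hp
      refine ⟨?_, ?_, ?_, Or.inr ?_, ?_⟩ <;> simp
    · intro p hp
      rw [List.mem_singleton] at hp
      subst hp
      simpa using hLam
    · intro z hz
      rw [hC] at hz
      simp at hz
    · simp [nMicro, hκ]
    · simpa [Macro.lam] using hLam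
    · simp only [nMicro, List.map_cons, List.map_nil, List.length_nil, List.sum_cons, List.sum_nil,
        add_zero, Nat.cast_zero]
      linarith
    · simp only [List.length_cons, List.length_nil, zero_add, Nat.cast_one]
      linarith
    · intro _ hne
      exact absurd rfl hne
  -- the tree
  have hL0 : 0 ≤ L := tr_nonneg hTr
  have hxn : ‖(0 : E d) - x‖ = ‖x‖ := by rw [zero_sub, norm_neg]
  rw [hxn] at hlen
  have hLam1 : ‖x‖ + L ≤ Lam := by linarith [norm_nonneg (b - y)]
  have hLam0 : 0 ≤ Lam := by linarith [norm_nonneg x]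
  obtain ⟨T, hTw, hTp, hTl⟩ := tr_to_rt hTr x hx
  obtain ⟨K1, hK1n, hK1w, hK1m, hK1l, hK1p, hK1c, hK1v⟩ :=
    cluster Prod.fst Prod.snd (elen (d := d)) (fun e => norm_nonneg _) s hs T x hTw
  have hw1 : ∀ e : E d × MT (Ed d), 0 ≤ w1 e + s := fun e => by
    have := AoCut1_w1_nonneg e
    linarith
  obtain ⟨K2, hK2n, hK2w, hK2m, hK2l, hK2p, hK2c, hK2v⟩ :=
    cluster Prod.fst (d1 (d := d)) (fun e => w1 e + s) hw1 R hR0 K1 x hK1w
  rw [hTl] at hK1c
  -- membership
  have hmem1 : ∀ e ∈ K2.edges, ∀ e' ∈ e.2.edges, e' ∈ K1.edges := by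
    intro e he e' he'
    rw [← hK2p.mem_iff, List.mem_flatMap]
    exact ⟨e, he, he'⟩
  have hmem0 : ∀ e ∈ K1.edges, ∀ e' ∈ e.2.edges, e' ∈ T.edges := by
    intro e he e' he'
    rw [← hK1p.mem_iff, List.mem_flatMap]
    exact ⟨e, he, he'⟩
  have hTV : ∀ e ∈ T.edges, e.2 ∈ V := by
    intro e he
    rw [← hTp.mem_iff]
    exact List.mem_cons_of_mem _ (List.mem_map_of_mem he)
  have hV1 : ∀ e ∈ K1.edges, e.1 ∈ V ∧ d1 e ∈ V := by
    refine AoCut1_rt Prod.fst d1 (fun z => z ∈ V) K1 x hK1w hx ?_
    intro e he h1
    rcases mt_bot_mem Prod.fst Prod.snd e.2 e.1 (hK1m e he) with h | ⟨e', he', h⟩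
    · show e.2.bot Prod.snd e.1 ∈ V
      rw [h]; exact h1
    · show e.2.bot Prod.snd e.1 ∈ V
      rw [h]; exact hTV e' (hmem0 e he e' he')
  have hV2 : ∀ e ∈ K2.edges, e.1 ∈ V ∧ e.2.bot d1 e.1 ∈ V := by
    refine AoCut1_rt Prod.fst (fun e => e.2.bot d1 e.1) (fun z => z ∈ V) K2 x hK2w hx ?_
    intro e he h1
    rcases mt_bot_mem Prod.fst d1 e.2 e.1 (hK2m e he) with h | ⟨e', he', h⟩
    · show e.2.bot d1 e.1 ∈ V
      rw [h]; exact h1
    · show e.2.bot d1 e.1 ∈ V
      rw [h]; exact (hV1 e' (hmem1 e he e' he')).2
  have hnorm : ∀ z ∈ V, ‖z‖ ≤ Lam := by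
    intro z hz
    have h1 := tr_dist hTr z x hz hx
    have h2 : ‖z‖ ≤ ‖z - x‖ + ‖x‖ := by
      have := norm_add_le (z - x) x
      simpa using this
    linarith
  -- counts
  set cnt : List (E d) → ℕ := fun W => W.countP (fun x => decide (x ∉ S)) with hcnt
  have hκ' : κ = q.toReal * (cnt V : ℕ) := by
    have h1 : (ENNReal.ofReal κ).toReal = κ := ENNReal.toReal_ofReal hκ
    rw [← h1, hcost, ENNReal.toReal_mul]
    simp [hcnt]
  have hinf : q = ∞ → ∀ z ∈ V, z ∈ S := by
    intro hq z hz
    by_contra hzS
    have h1 : 0 < cnt V := by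
      simp only [hcnt]
      rw [List.countP_pos_iff]
      exact ⟨z, hz, by simpa using hzS⟩
    have h2 : q * ((cnt V : ℕ) : ℝ≥0∞) = ∞ := by
      rw [hq]
      exact ENNReal.top_mul (by exact_mod_cast h1.ne')
    have h3 : ENNReal.ofReal κ = ∞ := by rw [hcost]; exact h2
    exact ENNReal.ofReal_ne_top h3
  have hvsV : ∀ e ∈ K1.edges, ∀ z ∈ vs e, z ∈ V := by
    intro e he z hz
    rcases List.mem_cons.1 hz with h | h
    · rw [h]; exact (hV1 e he).1
    · obtain ⟨e', he', rfl⟩ := List.mem_map.1 h
      exact hTV e' (hmem0 e he e' he')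
  have hbotv : ∀ e ∈ K1.edges, d1 e ∈ vs e := by
    intro e he
    rcases mt_bot_mem Prod.fst Prod.snd e.2 e.1 (hK1m e he) with h | ⟨e', he', h⟩
    · show e.2.bot Prod.snd e.1 ∈ _
      rw [h]; exact List.mem_cons_self
    · show e.2.bot Prod.snd e.1 ∈ _
      rw [h]; exact List.mem_cons_of_mem _ (List.mem_map_of_mem he')
  have hdisp : ∀ e ∈ K1.edges, ‖d1 e - e.1‖ ≤ w1 e := by
    intro e he
    exact mt_bot_dist Prod.fst Prod.snd elen (fun e => by unfold elen; rw [norm_sub_rev]) e.2 e.1
      (hK1m e he)
  -- micro pieces are fine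
  have hmicOk : ∀ e ∈ K1.edges, ∀ f : Bool, (mic q S C s (e, f)).Ok (animM d q) S s := by
    intro e he f
    have hv : ‖(if f then d1 e - e.1 else 0 : E d)‖ ≤ w1 e := by
      cases f
      · simpa using AoCut1_w1_nonneg e
      · simpa using hdisp e he
    by_cases hl : IsLong elen s e.2
    · right
      refine ⟨?_, ?_, hv⟩
      · simp [mic, cf, hl]
      · simp [mic, kf, hl]
    · left
      refine ⟨?_, ?_⟩
      · refine ⟨?_, Or.inr ?_⟩
        · intro z hz
          apply hCS
          simp only [mic, cf, hl, if_false, Finset.coe_filter, Set.mem_setOf_eq] at hz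
          exact hz.1
        · obtain ⟨V', hV'p, hV't⟩ := mt_to_tr e.2 e.1 (hK1m e he)
          refine ⟨V', w1 e, hV't, ?_, ?_, ?_, ?_⟩
          · intro z hz
            simp only [mic, cf, hl, if_false, Finset.mem_filter] at hz
            rw [hV'p.mem_iff]
            exact hz.2
          · refine ⟨e.1, ?_, e.1 + (if f then d1 e - e.1 else 0), ?_, ?_⟩
            · rw [hV'p.mem_iff]; exact List.mem_cons_self
            · rw [hV'p.mem_iff]
              cases f
              · simp
              · have : e.1 + (d1 e - e.1) = d1 e := by abel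
                simp only [if_true, this]
                exact hbotv e he
            · simp [mic]
          · simp only [mic, kf, hl, if_false]
            positivity
          · simp only [mic, kf, hl, if_false]
            have h1 : V'.countP (fun x => decide (x ∉ S)) = (vs e).countP (fun x => decide (x ∉ S)) :=
              hV'p.countP_eq _
            rw [h1]
            by_cases hq : q = ∞
            · have h2 : (vs e).countP (fun x => decide (x ∉ S)) = 0 := by
                rw [List.countP_eq_zero]
                intro z hz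
                simpa using hinf hq z (hvsV e he z hz)
              rw [h2]
              simp
            · rw [ENNReal.ofReal_mul ENNReal.toReal_nonneg, ENNReal.ofReal_toReal hq,
                ENNReal.ofReal_natCast]
      · rcases hK1l e he with h | h
        · exact h
        · exact absurd h hl
  -- sums over the second level labels
  have hsumG : ∀ G : E d × MT (Ed d) → ℝ,
      (K2.edges.map (fun l => (l.2.edges.map G).sum)).sum = (K1.edges.map G).sum := by
    intro G
    rw [AoCut1_sum_flat K2.edges (fun l => l.2.edges) G]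
    exact (hK2p.map G).sum_eq
  have hlamG : ∀ l : E d × MT (E d × MT (Ed d)), (mac q S C s l).lam = (l.2.edges.map w1).sum := by
    intro l
    exact AoCut1_mic_sum q S C s l.2 Micro.lam w1 (fun ef => rfl)
  have hkapG : ∀ l : E d × MT (E d × MT (Ed d)),
      ((mac q S C s l).l.map Micro.κ).sum = (l.2.edges.map (kf q S s)).sum := by
    intro l
    exact AoCut1_mic_sum q S C s l.2 Micro.κ (kf q S s) (fun ef => rfl)
  have hlenG : ∀ l : E d × MT (E d × MT (Ed d)), (mac q S C s l).l.length = l.2.edges.length := by
    intro l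
    show (l.2.fedges.map (mic q S C s)).length = _
    rw [List.length_map, ← mt_fedges_edges l.2, List.length_map]
  have hwsum : ∀ W : List (E d × MT (Ed d)), (W.map (fun e => w1 e + s)).sum
      = (W.map w1).sum + s * W.length := by
    intro W
    induction W with
    | nil => simp
    | cons e W ih => simp only [List.map_cons, List.sum_cons, ih, List.length_cons]; push_cast; ring
  -- total length
  have htot : (K1.edges.map w1).sum = L := by
    have h1 : (K1.edges.map w1).sum = ((K1.edges.flatMap (fun l => l.2.edges)).map elen).sum :=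
      AoCut1_sum_flat K1.edges (fun l => l.2.edges) elen
    rw [h1, (hK1p.map elen).sum_eq, hTl]
  have hlenK1 : (K2.edges.map (fun l => l.2.edges.length)).sum = K1.edges.length := by
    rw [← hK2p.length_eq, List.length_flatMap]
  have hnM : nMicro (K2.edges.map (mac q S C s)) = K1.edges.length := by
    unfold nMicro
    rw [List.map_map, ← hlenK1]
    congr 1
    apply List.map_congr_left
    intro l _
    exact hlenG l
  refine ⟨⟨0, x, [⟨0, x, ‖x‖, ∅, 0⟩]⟩, K2.edges.map (mac q S C s), rfl, ?_, ?_, ?_, ?_, ?_, ?_, ?_,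
    ?_, ?_⟩
  · -- pieces are fine
    intro p hp
    rcases List.mem_cons.1 hp with rfl | hp
    · refine ⟨?_, ?_, ?_, Or.inr ?_, ?_⟩
      · intro m hm
        rw [List.mem_singleton] at hm
        subst hm
        exact Or.inr ⟨rfl, rfl, le_refl _⟩
      · simp
      · intro m hm
        rw [List.mem_singleton] at hm
        subst hm
        exact norm_nonneg _
      · intro m hm
        rw [List.mem_singleton] at hm
        subst hm
        exact ⟨rfl, rfl, le_refl _⟩
      · intro m hm
        rw [List.mem_singleton] at hm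
        subst hm
        simp [Macro.lam]
    · obtain ⟨l, hl, rfl⟩ := List.mem_map.1 hp
      have hfe : ∀ ef ∈ l.2.fedges, ef.1 ∈ l.2.edges := by
        intro ef hef
        rw [← mt_fedges_edges l.2]
        exact List.mem_map_of_mem hef
      refine ⟨?_, ?_, ?_, ?_, ?_⟩
      · intro m hm
        obtain ⟨ef, hef, rfl⟩ := List.mem_map.1 hm
        exact hmicOk ef.1 (hmem1 l hl ef.1 (hfe ef hef)) ef.2
      · have h1 := mt_fsum Prod.fst d1 l.2 l.1 (hK2m l hl)
        show (((l.2.fedges.map (mic q S C s))).map Micro.v).sum = l.2.bot d1 l.1 - l.1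
        rw [← h1, List.map_map]
        rfl
      · intro m hm
        obtain ⟨ef, hef, rfl⟩ := List.mem_map.1 hm
        exact AoCut1_w1_nonneg ef.1
      · rcases hK2l l hl with h | ⟨e, he, hlt⟩
        · left
          rw [hlamG, hlenG]
          rw [hwsum] at h
          exact h
        · right
          intro m hm
          obtain ⟨ef, hef, rfl⟩ := List.mem_map.1 hm
          have h1 := hfe ef hef
          rw [he] at h1
          simp only [MT.edges, RT.edges, List.nil_append, List.mem_singleton] at h1
          have hmem : ef.1 ∈ K1.edges := hmem1 l hl ef.1 (hfe ef hef)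
          have hlong : IsLong elen s ef.1.2 := by
            rcases hK1l ef.1 hmem with h | h
            · exfalso
              have h2 : w1 ef.1 ≤ 2 * s := h
              rw [h1] at h2
              linarith
            · exact h
          have hv : ‖(if ef.2 then d1 ef.1 - ef.1.1 else 0 : E d)‖ ≤ w1 ef.1 := by
            by_cases hf : ef.2
            · rw [if_pos hf]; exact hdisp ef.1 hmem
            · rw [if_neg hf, norm_zero]; exact AoCut1_w1_nonneg ef.1
          exact ⟨by simp [mic, cf, hlong], by simp [mic, kf, hlong], hv⟩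
      · intro m hm
        obtain ⟨ef, hef, rfl⟩ := List.mem_map.1 hm
        rw [hlamG]
        have h1 : ∀ e ∈ l.2.edges, ‖d1 e - e.1‖ ≤ w1 e := fun e he => hdisp e (hmem1 l hl e he)
        exact AoCut1_dist Prod.fst d1 w1 AoCut1_w1_nonneg l.2 l.1 (hK2m l hl) h1 ef.1 (hfe ef hef)
  · -- positions
    intro p hp
    rcases List.mem_cons.1 hp with rfl | hp
    · simpa using hLam0
    · obtain ⟨l, hl, rfl⟩ := List.mem_map.1 hp
      exact hnorm _ (hV2 l hl).1
  · -- cover
    intro z hz
    have hzV := hCV z hz
    rw [← hTp.mem_iff, List.mem_cons] at hzV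
    have h1 : z = x ∨ ∃ e ∈ T.edges, z = e.2 := by
      rcases hzV with h | h
      · exact Or.inl h
      · obtain ⟨e, he, hee⟩ := List.mem_map.1 h
        exact Or.inr ⟨e, he, hee.symm⟩
    obtain ⟨e, he, _, hnl, hze⟩ := hK1v z h1
    have h2 : e ∈ K2.edges.flatMap (fun l => l.2.edges) := hK2p.mem_iff.2 he
    obtain ⟨l, hl, hel⟩ := List.mem_flatMap.1 h2
    have h3 : e ∈ l.2.fedges.map Prod.fst := by rw [mt_fedges_edges]; exact hel
    obtain ⟨ef, hef, hefe⟩ := List.mem_map.1 h3
    refine ⟨mac q S C s l, List.mem_cons_of_mem _ (List.mem_map_of_mem hl), mic q S C s ef,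
      List.mem_map_of_mem hef, ?_⟩
    show z ∈ cf C s ef.1
    rw [hefe]
    simp only [cf, hnl, if_false, Finset.mem_filter]
    refine ⟨hz, ?_⟩
    rcases hze with h | ⟨e', he', h⟩
    · rw [h]; exact List.mem_cons_self
    · rw [h]; exact List.mem_cons_of_mem _ (List.mem_map_of_mem he')
  · -- costs
    have h1 : ((K2.edges.map (mac q S C s)).map (fun p => (p.l.map Micro.κ).sum)).sum
        = (K1.edges.map (kf q S s)).sum := by
      rw [List.map_map, ← hsumG]
      congr 1
      apply List.map_congr_left
      intro l _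
      exact hkapG l
    have h2 : ∀ W : List (E d × MT (Ed d)), (W.map (kf q S s)).sum
        ≤ q.toReal * (((W.map (fun e => ((e.2.edges.map Prod.snd).countP
          (fun x => decide (x ∉ S))))).sum + W.length : ℕ) : ℝ) := by
      intro W
      induction W with
      | nil => simp
      | cons e W ih =>
        have h3 : kf q S s e ≤ q.toReal * ((((e.2.edges.map Prod.snd).countP
            (fun x => decide (x ∉ S))) + 1 : ℕ) : ℝ) := by
          unfold kf
          split_ifs
          · positivity
          · refine mul_le_mul_of_nonneg_left ?_ ENNReal.toReal_nonneg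
            unfold vs
            rw [List.countP_cons]
            have : (if decide (e.1 ∉ S) = true then 1 else 0) ≤ 1 := by split_ifs <;> simp
            exact_mod_cast Nat.add_le_add_left this _
        simp only [List.map_cons, List.sum_cons, List.length_cons]
        push_cast at ih h3 ⊢
        nlinarith [ih, h3]
    have h4 : ((K1.edges.map (fun e => ((e.2.edges.map Prod.snd).countP
          (fun x => decide (x ∉ S))))).sum) ≤ cnt V := by
      rw [AoCut1_count_flat K1.edges (fun e => e.2.edges.map Prod.snd) (fun x => decide (x ∉ S))]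
      have h5 : K1.edges.flatMap (fun e => e.2.edges.map Prod.snd)
          = (K1.edges.flatMap (fun e => e.2.edges)).map Prod.snd := by
        rw [List.map_flatMap]
      rw [h5, (hK1p.map Prod.snd).countP_eq]
      show _ ≤ V.countP _
      rw [← hTp.countP_eq, List.countP_cons]
      exact Nat.le_add_right _ _
    have h6 : nMicro ((⟨0, x, [⟨0, x, ‖x‖, ∅, 0⟩]⟩ : Macro d) :: K2.edges.map (mac q S C s))
        = 1 + K1.edges.length := by
      have : nMicro ((⟨0, x, [⟨0, x, ‖x‖, ∅, 0⟩]⟩ : Macro d) :: K2.edges.map (mac q S C s))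
        = 1 + nMicro (K2.edges.map (mac q S C s)) := by simp [nMicro]
      rw [this, hnM]
    rw [h6, List.map_cons, List.sum_cons, h1, hκ']
    have h7 := h2 K1.edges
    have h8 : (((K1.edges.map (fun e => ((e.2.edges.map Prod.snd).countP
          (fun x => decide (x ∉ S))))).sum + K1.edges.length : ℕ) : ℝ)
        ≤ (cnt V : ℝ) + K1.edges.length := by
      exact_mod_cast Nat.add_le_add_right h4 _
    have h9 := mul_le_mul_of_nonneg_left h8 (ENNReal.toReal_nonneg (a := q))
    have hq0 := ENNReal.toReal_nonneg (a := q)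
    simp only [List.map_cons, List.map_nil, List.sum_cons, List.sum_nil, add_zero, zero_add]
    push_cast
    nlinarith
  · -- budgets
    rw [List.map_cons, List.sum_cons, List.map_map]
    have h1 : (K2.edges.map (Macro.lam ∘ mac q S C s)).sum = L := by
      rw [← htot, ← hsumG]
      congr 1
      apply List.map_congr_left
      intro l _
      exact hlamG l
    rw [h1]
    simpa [Macro.lam] using hLam1
  · -- number of micro pieces
    have h6 : nMicro ((⟨0, x, [⟨0, x, ‖x‖, ∅, 0⟩]⟩ : Macro d) :: K2.edges.map (mac q S C s))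
        = 1 + K1.edges.length := by
      have : nMicro ((⟨0, x, [⟨0, x, ‖x‖, ∅, 0⟩]⟩ : Macro d) :: K2.edges.map (mac q S C s))
        = 1 + nMicro (K2.edges.map (mac q S C s)) := by simp [nMicro]
      rw [this, hnM]
    rw [h6]
    have h7 : L / s ≤ Lam / s := by
      apply div_le_div_of_nonneg_right _ hs.le
      linarith [norm_nonneg x]
    have h8 : 0 ≤ L / s := div_nonneg hL0 hs.le
    have h9 : 5 * L / s = 5 * (L / s) := by ring
    rw [h9] at hK1c
    push_cast
    linarith
  · -- number of macro pieces
    rw [List.length_cons, List.length_map]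
    have h7 : L / R ≤ Lam / R := by
      apply div_le_div_of_nonneg_right _ hR0.le
      linarith [norm_nonneg x]
    have h8 : 0 ≤ L / R := div_nonneg hL0 hR0.le
    rw [hwsum, htot] at hK2c
    have h9 : s * K1.edges.length ≤ 5 * L + s := by
      have := mul_le_mul_of_nonneg_left hK1c hs.le
      have e1 : s * (5 * L / s + 1) = 5 * L + s := by field_simp
      linarith
    have h10 : 5 * (L + s * K1.edges.length) / R ≤ 30 * (L / R) + 5 := by
      have e1 : 30 * (L / R) + 5 = (30 * L + 5 * R) / R := by field_simp
      rw [e1]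
      apply div_le_div_of_nonneg_right _ hR0.le
      linarith
    push_cast
    linarith
  · -- connectedness
    have h1 := rt_conn Prod.fst (fun l : E d × MT (E d × MT (Ed d)) => l.2.bot d1 l.1) K2 x hK2w
    rw [List.map_map]
    exact h1
  · intro hq _
    refine ⟨hinf hq x hx, ?_⟩
    intro p hp
    obtain ⟨l, hl, rfl⟩ := List.mem_map.1 hp
    exact ⟨hinf hq _ (hV2 l hl).1, hinf hq _ (hV2 l hl).2⟩

end MP4fb

end
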