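import Pool.Agent.Lib.MP_4fbc34_pr.Stmt

/-!
MP_4fbc34_pr, base definitions.  `E d` is Euclidean space.  A `Model` packages the objects (paths, or
animals with a Steiner cost `q`) that go from a point `a` to a point `b` within a length budget:
`M.O S a b lam C κ` says that there is an object from `a` to `b` of budget at most `lam` which collects
the finite set `C` of atoms (`S` is the set of positions of the atoms) at a cost `κ`.
-/

set_option autoImplicit false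

open scoped ENNReal Classical

noncomputable section

namespace MP4fb

variable {d : ℕ}

/-- `Tr V L`: the points of the list `V` are the vertices of a tree of total length `L`. -/
inductive Tr : List (E d) → ℝ → Prop
  | single (x : E d) : Tr [x] 0
  | join {V W : List (E d)} {L L' : ℝ} (x y : E d) (hV : Tr V L) (hW : Tr W L') (hx : x ∈ V)
      (hy : y ∈ W) : Tr (V ++ W) (L + L' + ‖x - y‖)

/-- Path objects: a polygon from `a` to `b` of length at most `lam` whose vertices contain `C`. -/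
def PO (S : Set (E d)) (a b : E d) (lam : ℝ) (C : Finset (E d)) (κ : ℝ) : Prop :=
  (↑C ⊆ S) ∧ κ = 0 ∧ ∃ l : List (E d), plen (a :: (l ++ [b])) ≤ lam ∧ ∀ x ∈ C, x ∈ a :: (l ++ [b])

/-- Animal objects: either empty, or a tree on the list `V` of vertices, joined to `a` and to `b`; the
cost is `q` for every vertex of `V` that is not an atom. -/
def AO (q : ℝ≥0∞) (S : Set (E d)) (a b : E d) (lam : ℝ) (C : Finset (E d)) (κ : ℝ) : Prop :=
  (↑C ⊆ S) ∧ ((C = ∅ ∧ κ = 0 ∧ ‖a - b‖ ≤ lam) ∨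
    ∃ (V : List (E d)) (L : ℝ), Tr V L ∧ (∀ x ∈ C, x ∈ V) ∧
      (∃ x ∈ V, ∃ y ∈ V, L + ‖a - x‖ + ‖b - y‖ ≤ lam) ∧
      0 ≤ κ ∧ ENNReal.ofReal κ = q * ((V.countP (fun x => decide (x ∉ S)) : ℕ) : ℝ≥0∞))

/-- The data of a model: the objects, the hub cost, and whether hubs have to be atoms. -/
structure Model (d : ℕ) where
  O : Set (E d) → E d → E d → ℝ → Finset (E d) → ℝ → Prop
  k0 : ℝ
  hub : Prop

/-- Paths. -/
def pathM (d : ℕ) : Model d := ⟨PO, 0, False⟩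

/-- Animals with Steiner cost `q`. -/
def animM (d : ℕ) (q : ℝ≥0∞) : Model d := ⟨AO q, q.toReal, q = ∞⟩

/-- A micro piece: starting point, displacement, budget, collected set and cost. -/
structure Micro (d : ℕ) where
  u : E d
  v : E d
  lam : ℝ
  C : Finset (E d)
  κ : ℝ

/-- A macro piece: two end points and a list of micro pieces. -/
structure Macro (d : ℕ) where
  a : E d
  c : E d
  l : List (Micro d)

/-- A micro piece is fine: either short and a true object, or empty. -/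
def Micro.Ok (M : Model d) (S : Set (E d)) (s : ℝ) (m : Micro d) : Prop :=
  (M.O S m.u (m.u + m.v) m.lam m.C m.κ ∧ m.lam ≤ 2 * s) ∨ (m.C = ∅ ∧ m.κ = 0 ∧ ‖m.v‖ ≤ m.lam)

/-- total budget of a macro piece -/
def Macro.lam (p : Macro d) : ℝ := (p.l.map Micro.lam).sum

/-- A macro piece is fine. `s` is the micro scale and `R` the macro scale. -/
def Macro.Ok (M : Model d) (S : Set (E d)) (s R : ℝ) (p : Macro d) : Prop :=
  (∀ m ∈ p.l, m.Ok M S s) ∧ (p.l.map Micro.v).sum = p.c - p.a ∧ (∀ m ∈ p.l, 0 ≤ m.lam) ∧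
  (p.lam + s * p.l.length ≤ 2 * R ∨ ∀ m ∈ p.l, m.C = ∅ ∧ m.κ = 0 ∧ ‖m.v‖ ≤ m.lam) ∧
  (∀ m ∈ p.l, ‖m.u - p.a‖ ≤ p.lam)

/-- The number of micro pieces. -/
def nMicro (P : List (Macro d)) : ℕ := (P.map (fun p => p.l.length)).sum

/-- The cutting and assembling property of a model.  Every object from `0` can be cut into macro pieces
consisting of micro pieces, and whenever the macro pieces (scaled down by `N`) are replaced by objects
in another environment `S2`, these can be assembled to an object from `0`. -/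
def Model.CutAsm (M : Model d) : Prop :=
  ∀ (S : Set (E d)) (b : E d) (Lam : ℝ) (C : Finset (E d)) (κ : ℝ) (s R : ℝ), 0 < s → 3 * s ≤ R →
    M.O S 0 b Lam C κ →
    ∃ P : List (Macro d), P ≠ [] ∧ (∀ p ∈ P, p.Ok M S s R) ∧ (∀ p ∈ P, ‖p.a‖ ≤ Lam) ∧
      (∀ (P1 P2 : List (Macro d)) (p : Macro d), P = P1 ++ p :: P2 →
        ‖p.a‖ ≤ (P1.map Macro.lam).sum) ∧
      (∀ x ∈ C, ∃ p ∈ P, ∃ m ∈ p.l, x ∈ m.C) ∧
      ((P.map (fun p => (p.l.map Micro.κ).sum)).sum ≤ κ + M.k0 * nMicro P) ∧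
      (P.map Macro.lam).sum ≤ Lam ∧
      (nMicro P : ℝ) ≤ 20 * (1 + Lam / s) ∧
      (P.length : ℝ) ≤ 200 * (1 + Lam / R) ∧
      ∀ (S2 : Set (E d)) (N h0 : ℝ), 0 < N → 0 ≤ h0 →
        (M.hub → ∀ p ∈ P, (p.a ∈ S → ∃ y ∈ S2, ‖y - N⁻¹ • p.a‖ ≤ h0) ∧
          (p.c ∈ S → ∃ y ∈ S2, ‖y - N⁻¹ • p.c‖ ≤ h0)) →
        ∀ (L2 κ2 : Fin P.length → ℝ) (C2 : Fin P.length → Finset (E d)),
          (∀ i, M.O S2 (N⁻¹ • (P.get i).a) (N⁻¹ • (P.get i).c) (L2 i) (C2 i) (κ2 i)) →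
          ∃ (b2 : E d) (κ3 : ℝ), κ3 ≤ ∑ i, κ2 i + M.k0 * (2 * P.length) ∧
            M.O S2 0 b2 (∑ i, L2 i + 4 * h0 * P.length) (Finset.univ.biUnion C2) κ3

/-- The properties of a model used in the general argument. -/
structure Model.Ok (M : Model d) : Prop where
  k0_nonneg : 0 ≤ M.k0
  emp : ∀ (S : Set (E d)) (a b : E d) (lam : ℝ), ‖a - b‖ ≤ lam → M.O S a b lam ∅ 0
  sub : ∀ (S : Set (E d)) (a b : E d) (lam : ℝ) (C C' : Finset (E d)) (κ : ℝ),
    M.O S a b lam C κ → C' ⊆ C → M.O S a b lam C' κ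
  nonneg : ∀ (S : Set (E d)) (a b : E d) (lam : ℝ) (C : Finset (E d)) (κ : ℝ),
    M.O S a b lam C κ → 0 ≤ κ
  supp : ∀ (S : Set (E d)) (a b : E d) (lam : ℝ) (C : Finset (E d)) (κ : ℝ),
    M.O S a b lam C κ → ↑C ⊆ S
  valid : ∀ (S : Set (E d)) (a b : E d) (lam : ℝ) (C : Finset (E d)) (κ : ℝ),
    M.O S a b lam C κ → ‖a - b‖ ≤ lam
  cat : ∀ (S : Set (E d)) (a b c : E d) (lam mu : ℝ) (C C' : Finset (E d)) (κ κ' : ℝ),
    M.O S a b lam C κ → M.O S b c mu C' κ' → M.O S a c (lam + mu) (C ∪ C') (κ + κ')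
  cone : ∀ (S : Set (E d)) (a b a' b' : E d) (lam lam' : ℝ) (C : Finset (E d)) (κ : ℝ),
    M.O S a b lam C κ → lam + ‖a - a'‖ + ‖b - b'‖ ≤ lam' → M.O S a' b' lam' C κ
  lip : ∀ (S S' : Set (E d)) (a b : E d) (lam : ℝ) (C : Finset (E d)) (κ : ℝ) (Φ : E d → E d) (K : ℝ),
    0 ≤ K → (∀ x y, ‖Φ x - Φ y‖ ≤ K * ‖x - y‖) → (∀ x ∈ S, Φ x ∈ S') →
    M.O S a b lam C κ → ∃ κ' ≤ κ, M.O S' (Φ a) (Φ b) (K * lam) (C.image Φ) κ'
  loc : ∀ (S : Set (E d)) (a b : E d) (lam : ℝ) (C : Finset (E d)) (κ : ℝ),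
    M.O S a b lam C κ → M.O (S ∩ Metric.closedBall a lam) a b lam C κ
  count : ∀ (S : Set (E d)) (a b : E d) (lam : ℝ) (C : Finset (E d)) (κ r : ℝ),
    M.O S a b lam C κ → 0 ≤ r → (∀ x ∈ C, ∀ y ∈ C, x ≠ y → r ≤ ‖x - y‖) →
    r * C.card ≤ r + 2 * lam
  rev : ∀ (S : Set (E d)) (a b : E d) (lam : ℝ) (C : Finset (E d)) (κ : ℝ),
    M.O S a b lam C κ → M.O S b a lam C κ
  poly : ∀ (S : Set (E d)) (a b : E d) (lam : ℝ) (C : Finset (E d)) (κ : ℝ),
    M.O S a b lam C κ → ∃ l : List (E d), plen l ≤ 2 * lam ∧ ∀ x ∈ C, x ∈ l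
  cutasm : M.CutAsm

/-- The environment matters only through the collected set. -/
def Model.Ins (M : Model d) : Prop :=
  ∀ (S S' : Set (E d)) (a b : E d) (lam : ℝ) (C : Finset (E d)) (κ : ℝ),
    M.O S a b lam C κ → ↑C ⊆ S' → ∃ κ' ≤ κ, M.O S' a b lam C κ'

/-- `Rob M S m N a b lam v`: there are `N` pairwise disjoint objects of value at least `v`. -/
def Rob (M : Model d) (S : Set (E d)) (m : E d → ℝ) (N : ℕ) (a b : E d) (lam v : ℝ) : Prop :=
  ∃ F : Fin N → Finset (E d), (∀ i j, i ≠ j → Disjoint (F i) (F j)) ∧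
    ∀ i, ∃ κ, M.O S a b lam (F i) κ ∧ v ≤ ∑ x ∈ F i, m x - κ

/-- The root event: every object from `0` with budget `L` has value at most `r`. -/
def Root (M : Model d) (S : Set (E d)) (m : E d → ℝ) (L r : ℝ) : Prop :=
  ∀ (b : E d) (C : Finset (E d)) (κ : ℝ), M.O S 0 b L C κ → ∑ x ∈ C, m x - κ ≤ r

/-- Limit functionals. -/
structure Nice (D : E d → E d → ℝ → ℝ) (C0 : ℝ) : Prop where
  C0_nonneg : 0 ≤ C0
  nonneg : ∀ a b lam, 0 ≤ D a b lam
  bdd : ∀ a b lam, 0 ≤ lam → D a b lam ≤ C0 * lam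
  sup : ∀ a b c lam mu, ‖a - b‖ < lam → ‖b - c‖ < mu → D a b lam + D b c mu ≤ D a c (lam + mu)
  cone : ∀ a b a' b' lam lam', lam + ‖a - a'‖ + ‖b - b'‖ ≤ lam' → D a b lam ≤ D a' b' lam'
  symm : ∀ a b lam, D a b lam = D b a lam
  meas : ∀ (v : E d) (lam : ℝ), Measurable (fun x => D x (x + v) lam)

end MP4fb

end
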