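import Pool.Agent.Lib.MP_4fbc34_pr.HthmDef

/-!
The interface between a magnified environment and the small environments it is built from.
-/

set_option autoImplicit false

noncomputable section

namespace MP4fb

variable {d : ℕ}

/-- The environment `(S, m)` (of size `N`) is built from the environments `(S' i, m' i)` and a set `Sin` of extra
atoms near the origin: every atom `y` of `S` outside `Sin` (call it a block atom) belongs to the block of a tile
`tz y` of level `n'` and a copy `ti y`, and is the translate by `τ (tz y) (ti y)` of an atom of `S' (ti y)` in the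
inner part of the tile; the tile is kept, that is, good, with a good parent cell of level `n`, and deep inside
its parent; nearby atoms of a block atom belong to the same block, the extra atoms are far from the block
atoms, and the block atoms have distance at least `rad * N` from the origin. -/
structure BlocksOk {I : Type} (S Sin : Set (E d)) (m : E d → ℝ) (S' : I → Set (E d))
    (m' : I → E d → ℝ) (N κ rad : ℝ) (n n' : ℕ) (Bad BadT : Finset (Fin d → ℤ))
    (tz : E d → Fin d → ℤ) (ti : E d → I) (τ : (Fin d → ℤ) → I → E d) : Prop where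
  box : ∀ y ∈ S \ Sin, tz y ∈ zbox d n'
  good : ∀ y ∈ S \ Sin, tz y ∉ BadT
  pgood : ∀ y ∈ S \ Sin, par n n' (tz y) ∉ Bad
  deep : ∀ y ∈ S \ Sin, ∀ x, ‖x - N⁻¹ • y‖ ≤ 2 * κ * 2⁻¹ ^ n → x ∈ cell n (par n n' (tz y))
  pos : ∀ y ∈ S \ Sin, N⁻¹ • y ∈ cell n' (tz y)
  src : ∀ y ∈ S \ Sin, y - τ (tz y) (ti y) ∈ S' (ti y)
  inner : ∀ y ∈ S \ Sin, ∀ x, ‖x - (y - τ (tz y) (ti y))‖ < κ * 2⁻¹ ^ n' → x ∈ cell n' (tz y)
  mass : ∀ y ∈ S \ Sin, m y = m' (ti y) (y - τ (tz y) (ti y))
  near : ∀ y ∈ S \ Sin, ∀ y2 ∈ S, ‖y - y2‖ < κ * 2⁻¹ ^ n' → y2 ∉ Sin ∧ tz y = tz y2 ∧ ti y = ti y2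
  far : ∀ y ∈ S \ Sin, ∀ y2 ∈ S, y2 ∈ Sin → 2 * κ * 2⁻¹ ^ n * N < ‖y - y2‖
  rad : ∀ y ∈ S \ Sin, rad * N ≤ ‖y‖

end MP4fb

end
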