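import Pool.Agent.Lib.MP_4fbc34_pr.LatA

/-!
JOB BlocksL: a magnified lattice configuration has the block structure.

Let `η = 2⁻ʲ`, `b = 2^(j - n')` (`n' <= j`), so `b η = 2⁻ⁿ'`.  An atom `y` of `σ` is `η (q + u a)` with
`σ q = some a`, so by `Magn.rest` `q = bmap i p` with `p` alive and kept, and `σ' i p = some a` by `Magn.copy`.
Choose (classically) such `i, p` for each atom and put `tz y c = p c / b`, `ti y = i`,
`τ z i = η • (vector with coordinates (N b z c + b i c) - b z c)`; then `y - τ = η (p + u a)` because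
`q c - p c = N b (p c / b) + b i c + p c % b - p c` and `p c = b (p c / b) + p c % b`.
* `box, good, pgood`: `KeptS`.
* `pos`: the coordinate of `N⁻¹ y` is `N⁻¹ η (N b z + b i + (p % b) + u)` with `0 <= i <= N - 1` and
  `0 < (p % b) + u < b`, so in `[b η z, b η (z + 1))`.
* `deep`: the last clause of `KeptT` with `y := N⁻¹ • y ∈ cell n' z`.
* `inner`: the coordinates of `y - τ` relative to the corner `b η z` of the tile are `η ((p % b) + u)`, which is
  `>= κ b η` and `< (1 - κ) b η`; so the ball of radius `κ 2⁻ⁿ'` is in the cell.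
* `mass`: `hm` and `massL_atom` twice.
* `far`: if `‖y - y2‖ <= 2 κ 2⁻ⁿ N` then `N⁻¹ y2 ∈ cell n (par n n' z)` by `deep`; but `N⁻¹ y2` has all its coordinates
  in `[-2⁻ᵐᵈ, 2⁻ᵐᵈ)`, so (as `md <= n <= n'`) all coordinates of `par n n' z` are in `[-2^(n-md), 2^(n-md))`, those of
  `z` in `[-2^(n'-md), 2^(n'-md))` and those of `p` in `[-2^(j-md), 2^(j-md))`: `p` is not alive, a contradiction.
* `rad`: `p` is alive, so some coordinate of `z` is not in `[-2^(n'-md), 2^(n'-md))` and the same coordinate of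
  `N⁻¹ y ∈ cell n' z` has absolute value at least `2⁻ᵐᵈ`.
* `near`: `y2 ∉ Sin` by `far` (`κ 2⁻ⁿ' <= 2 κ 2⁻ⁿ N`), so `y2` is an atom of `σ`.  The sub block `(z, i)` is the box with
  corner `η (N b z + b i)` and side `b η`; all its atoms are at distance at least `κ b η` (in each coordinate)
  from its boundary; atoms of different sub blocks (different integer vectors `N z + i`, note that `(z, i)` is
  determined by `N z + i` since `0 <= i < N`) differ in some coordinate by at least `2 κ 2⁻ⁿ'`.  For this one has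
  to know that a point determines `i, p`; use `N z c + i c = ⌊q c / b⌋`.
-/

set_option autoImplicit false

open scoped Classical

noncomputable section

namespace MP4fb

variable {d : ℕ}

private theorem blk_bmap_eq (N n' j : ℕ) (i : Fin d → Fin N) (p : Fin d → ℤ) (c : Fin d) :
    bmap N n' j i p c =
      2 ^ (j - n') * (N * (p c / 2 ^ (j - n')) + (i c : ℤ)) + p c % 2 ^ (j - n') := by
  unfold bmap
  ring

private theorem blk_div (N z z' a a' : ℤ) (h0 : 0 ≤ a) (h1 : a < N) (h0' : 0 ≤ a') (h1' : a' < N)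
    (h : N * z + a = N * z' + a') : z = z' ∧ a = a' := by
  have hz : z = z' := by
    rcases lt_trichotomy z z' with h2 | h2 | h2
    · have : z + 1 ≤ z' := h2
      nlinarith
    · exact h2
    · have : z' + 1 ≤ z := h2
      nlinarith
  subst hz
  exact ⟨rfl, by linarith⟩

private theorem blk_fin (N : ℕ) (a : Fin N) : (0 : ℤ) ≤ (a : ℤ) ∧ (a : ℤ) < N :=
  ⟨by positivity, by exact_mod_cast a.2⟩

theorem bmap_inj (N n' j : ℕ) (i i' : Fin d → Fin N) (p p' : Fin d → ℤ)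
    (h : bmap N n' j i p = bmap N n' j i' p') : i = i' ∧ p = p' := by
  have key : ∀ c, i c = i' c ∧ p c = p' c := by
    intro c
    have hc := congrFun h c
    rw [blk_bmap_eq, blk_bmap_eq] at hc
    have hb0 : (0 : ℤ) < 2 ^ (j - n') := by positivity
    obtain ⟨h1, h2⟩ := blk_div _ _ _ _ _ (Int.emod_nonneg (p c) hb0.ne') (Int.emod_lt_of_pos _ hb0)
      (Int.emod_nonneg (p' c) hb0.ne') (Int.emod_lt_of_pos _ hb0) hc
    obtain ⟨h3, h4⟩ := blk_div _ _ _ _ _ (blk_fin N (i c)).1 (blk_fin N (i c)).2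
      (blk_fin N (i' c)).1 (blk_fin N (i' c)).2 h1
    refine ⟨Fin.ext (by exact_mod_cast h4), ?_⟩
    rw [← Int.mul_ediv_add_emod (p c) (2 ^ (j - n')), ← Int.mul_ediv_add_emod (p' c) (2 ^ (j - n')),
      h2, h3]
  exact ⟨funext fun c => (key c).1, funext fun c => (key c).2⟩

private theorem blk_mem_bx (n : ℕ) (p : Fin d → ℤ) : p ∈ bx d n ↔ ∀ c, -(n : ℤ) ≤ p c ∧ p c < n := by
  unfold bx
  simp [Fintype.mem_piFinset]

private theorem blk_pow (n' md j : ℕ) (hmd : md ≤ n') (hn : n' ≤ j) :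
    (2 : ℤ) ^ (j - md) = 2 ^ (j - n') * 2 ^ (n' - md) := by
  rw [← pow_add]
  congr 1
  omega

/-- divisions and intervals -/
private theorem blk_int (b m x : ℤ) (hb : 0 < b) :
    (-m ≤ x / b ∧ x / b < m) ↔ (-(b * m) ≤ x ∧ x < b * m) := by
  rw [Int.le_ediv_iff_mul_le hb, Int.ediv_lt_iff_lt_mul hb]
  constructor
  · rintro ⟨h1, h2⟩
    exact ⟨by linarith, by linarith⟩
  · rintro ⟨h1, h2⟩
    exact ⟨by linarith, by linarith⟩

/-- the magnified coordinate and intervals -/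
private theorem blk_mag (b N m z a r : ℤ) (hb : 0 < b) (ha0 : 0 ≤ a) (ha1 : a < N)
    (hr0 : 0 ≤ r) (hr1 : r < b) :
    (-(N * (b * m)) ≤ b * (N * z + a) + r ∧ b * (N * z + a) + r < N * (b * m)) ↔
      (-m ≤ z ∧ z < m) := by
  have hN : 0 < N := lt_of_le_of_lt ha0 ha1
  have hbN : 0 < b * N := by positivity
  have e1 : b * (a + 1) ≤ b * N := mul_le_mul_of_nonneg_left ha1 hb.le
  have e2 : 0 ≤ b * a := by positivity
  constructor
  · rintro ⟨h1, h2⟩
    constructor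
    · by_contra h3
      push Not at h3
      have h4 : z + 1 ≤ -m := h3
      have h5 : b * N * (z + 1) ≤ b * N * (-m) := mul_le_mul_of_nonneg_left h4 hbN.le
      nlinarith
    · by_contra h3
      push Not at h3
      have h5 : b * N * m ≤ b * N * z := mul_le_mul_of_nonneg_left h3 hbN.le
      nlinarith
  · rintro ⟨h1, h2⟩
    constructor
    · have h5 : b * N * (-m) ≤ b * N * z := mul_le_mul_of_nonneg_left h1 hbN.le
      nlinarith
    · have h4 : z + 1 ≤ m := h2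
      have h5 : b * N * (z + 1) ≤ b * N * m := mul_le_mul_of_nonneg_left h4 hbN.le
      nlinarith

theorem bmap_mem (N n' md j : ℕ) (hN : 1 ≤ N) (hmd : md ≤ n') (hn : n' ≤ j) (i : Fin d → Fin N)
    (p : Fin d → ℤ) (hp : p ∈ abx d md 1 j) : bmap N n' j i p ∈ abx d md N j := by
  have hb0 : (0 : ℤ) < 2 ^ (j - n') := by positivity
  have key : ∀ m' : ℕ, m' ≤ n' → (bmap N n' j i p ∈ bx d (N * 2 ^ (j - m')) ↔
      p ∈ bx d (1 * 2 ^ (j - m'))) := by
    intro m' hm'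
    rw [blk_mem_bx, blk_mem_bx]
    refine forall_congr' fun c => ?_
    push_cast
    rw [one_mul, blk_pow n' m' j hm' hn, blk_bmap_eq, ← blk_int _ _ _ hb0]
    exact blk_mag _ _ _ _ _ _ hb0 (blk_fin N (i c)).1 (blk_fin N (i c)).2
      (Int.emod_nonneg (p c) hb0.ne') (Int.emod_lt_of_pos _ hb0)
  unfold abx at hp ⊢
  rw [Finset.mem_sdiff] at hp ⊢
  refine ⟨?_, fun h => hp.2 ((key md hmd).1 h)⟩
  have := (key 0 (Nat.zero_le _)).2
  simp only [Nat.sub_zero] at this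
  exact this hp.1

private theorem blk_abs (x y : E d) (c : Fin d) : |x c - y c| ≤ ‖x - y‖ := by
  have := PiLp.norm_apply_le (x - y) c
  rwa [PiLp.sub_apply, Real.norm_eq_abs] at this

private theorem blk_lpos (Λ : Lat d) (η : ℝ) (q : Fin d → ℤ) (a : Λ.A) (c : Fin d) :
    lpos Λ η q a c = η * ((q c : ℝ) + Λ.u a c) := by
  unfold lpos toE
  simp only [PiLp.smul_apply, PiLp.add_apply, smul_eq_mul]

private theorem blk_bmap_real (N n' j : ℕ) (i : Fin d → Fin N) (p : Fin d → ℤ) (c : Fin d) :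
    ((bmap N n' j i p c : ℤ) : ℝ) = 2 ^ (j - n') *
      (N * ((p c / 2 ^ (j - n') : ℤ) : ℝ) + ((i c : ℕ) : ℝ)) + ((p c % 2 ^ (j - n') : ℤ) : ℝ) := by
  rw [blk_bmap_eq]
  push_cast
  ring

private theorem blk_p_real (n' j : ℕ) (p : Fin d → ℤ) (c : Fin d) :
    ((p c : ℤ) : ℝ) = 2 ^ (j - n') * ((p c / 2 ^ (j - n') : ℤ) : ℝ)
      + ((p c % 2 ^ (j - n') : ℤ) : ℝ) := by
  have := Int.mul_ediv_add_emod (p c) (2 ^ (j - n'))
  have h2 : (((2 ^ (j - n') * (p c / 2 ^ (j - n')) + p c % 2 ^ (j - n') : ℤ)) : ℝ) = (p c : ℝ) := by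
    rw [this]
  rw [← h2]
  push_cast
  ring

private theorem blk_eta (n' j : ℕ) (hn : n' ≤ j) : (2⁻¹ : ℝ) ^ j * 2 ^ (j - n') = 2⁻¹ ^ n' := by
  obtain ⟨k, rfl⟩ := Nat.exists_eq_add_of_le hn
  rw [Nat.add_sub_cancel_left, pow_add, mul_assoc, ← mul_pow]
  norm_num

private theorem blk_two (n md : ℕ) (hmd : md ≤ n) : (2 : ℝ) ^ (n - md) * 2⁻¹ ^ n = 2⁻¹ ^ md := by
  obtain ⟨k, rfl⟩ := Nat.exists_eq_add_of_le hmd
  rw [Nat.add_sub_cancel_left, pow_add, mul_left_comm, ← mul_pow]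
  norm_num

/-- everything about one atom -/
private theorem blk_atom (Λ : Lat d) (εu mmax : ℝ) (hΛ : Λ.Ok εu mmax) (κ : ℝ)
    (n n' j N : ℕ) (hn' : n' ≤ j) (Bad BadT : Finset (Fin d → ℤ))
    (i : Fin d → Fin N) (p : Fin d → ℤ) (hp : KeptS κ n n' j Bad BadT p) (a : Λ.A) (c : Fin d)
    (z : ℤ) (hz : z = p c / 2 ^ (j - n')) :
    2⁻¹ ^ n' * (N * (z : ℝ) + ((i c : ℕ) : ℝ) + κ) ≤ lpos Λ (2⁻¹ ^ j) (bmap N n' j i p) a c ∧
    lpos Λ (2⁻¹ ^ j) (bmap N n' j i p) a c < 2⁻¹ ^ n' * (N * (z : ℝ) + ((i c : ℕ) : ℝ) + 1 - κ) ∧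
    2⁻¹ ^ n' * ((z : ℝ) + κ) ≤ lpos Λ (2⁻¹ ^ j) p a c ∧
    lpos Λ (2⁻¹ ^ j) p a c < 2⁻¹ ^ n' * ((z : ℝ) + 1 - κ) := by
  subst hz
  have hη : (0 : ℝ) < 2⁻¹ ^ j := by positivity
  have hu1 := hΛ.u_ge a c
  have hu2 := hΛ.u_le a c
  have hε := hΛ.eps_pos
  obtain ⟨hr1, hr2⟩ := hp.2 c
  rw [blk_lpos, blk_lpos, blk_bmap_real, blk_p_real n' j p c]
  set r : ℝ := ((p c % 2 ^ (j - n') : ℤ) : ℝ) with hr
  set z : ℝ := ((p c / 2 ^ (j - n') : ℤ) : ℝ) with hz
  set i0 : ℝ := ((i c : ℕ) : ℝ) with hi0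
  set B : ℝ := 2 ^ (j - n') with hB
  rw [← blk_eta n' j hn', ← hB]
  have k1 : (2⁻¹ : ℝ) ^ j * (κ * B) ≤ 2⁻¹ ^ j * (r + Λ.u a c) :=
    mul_le_mul_of_nonneg_left (by linarith) hη.le
  have k2 : (2⁻¹ : ℝ) ^ j * (r + Λ.u a c) < 2⁻¹ ^ j * ((1 - κ) * B) :=
    mul_lt_mul_of_pos_left (by linarith) hη
  refine ⟨?_, ?_, ?_, ?_⟩ <;> nlinarith

theorem blocks_lattice (Λ : Lat d) (εu mmax : ℝ) (hΛ : Λ.Ok εu mmax) (κ : ℝ) (hκ : 0 < κ)
    (n n' md j N : ℕ) (hN : 1 ≤ N) (hmd : md ≤ n) (hn : n ≤ n') (hn' : n' ≤ j)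
    (Bad BadT : Finset (Fin d → ℤ)) (σ : Cfg Λ) (σ' : (Fin d → Fin N) → Cfg Λ)
    (h : Magn Λ κ n n' md j N Bad BadT σ σ') (Sin : Set (E d))
    (hSin : ∀ y ∈ Sin, ∀ i, -(N * 2⁻¹ ^ md) ≤ y i ∧ y i < N * 2⁻¹ ^ md) (m : E d → ℝ)
    (hm : ∀ y ∈ atoms Λ (2⁻¹ ^ j) σ, m y = massL Λ (2⁻¹ ^ j) σ y) :
    ∃ (tz : E d → Fin d → ℤ) (ti : E d → (Fin d → Fin N)) (τ : (Fin d → ℤ) → (Fin d → Fin N) → E d),
      BlocksOk (atoms Λ (2⁻¹ ^ j) σ ∪ Sin) Sin m
        (fun i => atoms Λ (2⁻¹ ^ j) (σ' i)) (fun i => massL Λ (2⁻¹ ^ j) (σ' i))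
        N κ (2⁻¹ ^ md) n n' Bad BadT tz ti τ := by
  classical
  set η : ℝ := 2⁻¹ ^ j with hη
  have hη0 : 0 < η := by positivity
  have hN0 : (0 : ℝ) < N := by exact_mod_cast hN
  have hb0 : (0 : ℤ) < 2 ^ (j - n') := by positivity
  have hpow' : (0 : ℝ) < 2⁻¹ ^ n' := by positivity
  have hpown : (0 : ℝ) < 2⁻¹ ^ n := by positivity
  have hne : Nonempty (Fin d → Fin N) := ⟨fun _ => ⟨0, hN⟩⟩
  have key : ∀ y ∈ atoms Λ η σ, ∃ (i : Fin d → Fin N) (p : Fin d → ℤ), p ∈ abx d md 1 j ∧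
      KeptS κ n n' j Bad BadT p ∧ ∃ a, σ (bmap N n' j i p) = some a ∧ σ' i p = some a ∧
        y = lpos Λ η (bmap N n' j i p) a := by
    rintro y ⟨q, a, hq, rfl⟩
    have h1 : ∃ i, ∃ p ∈ abx d md 1 j, KeptS κ n n' j Bad BadT p ∧ q = bmap N n' j i p := by
      by_contra hcon
      rw [h.rest q hcon] at hq
      exact Option.some_ne_none a hq.symm
    obtain ⟨i, p, hp, hk, rfl⟩ := h1
    exact ⟨i, p, hp, hk, a, hq, by rw [← h.copy i p hp hk]; exact hq, rfl⟩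
  choose! fi fp h1 h2 fa h3 h4 h5 using key
  -- notations
  have hmemat : ∀ y ∈ (atoms Λ η σ ∪ Sin) \ Sin, y ∈ atoms Λ η σ := by
    rintro y ⟨hy | hy, hy2⟩
    · exact hy
    · exact absurd hy hy2
  let tz : E d → Fin d → ℤ := fun y c => fp y c / 2 ^ (j - n')
  let τ : (Fin d → ℤ) → (Fin d → Fin N) → E d := fun z i =>
    η • toE (fun c => 2 ^ (j - n') * (N * z c + (i c : ℤ)) - 2 ^ (j - n') * z c)
  have htau : ∀ y (hy : y ∈ atoms Λ η σ), y - τ (tz y) (fi y) = lpos Λ η (fp y) (fa y hy) := by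
    intro y hy
    ext c
    have e1 := congrArg (fun w : E d => w c) (h5 y hy)
    simp only at e1
    have e2 : (τ (tz y) (fi y)) c = η * (2 ^ (j - n') * (N * ((fp y c / 2 ^ (j - n') : ℤ) : ℝ)
        + ((fi y c : ℕ) : ℝ)) - 2 ^ (j - n') * ((fp y c / 2 ^ (j - n') : ℤ) : ℝ)) := by
      simp only [τ, tz, toE, PiLp.smul_apply, smul_eq_mul]
      push_cast
      ring
    rw [PiLp.sub_apply, e1, e2, blk_lpos, blk_lpos, blk_bmap_real, blk_p_real n' j (fp y) c]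
    ring
  have hat : ∀ y (hy : y ∈ atoms Λ η σ) (c : Fin d),
      2⁻¹ ^ n' * (N * (tz y c : ℝ) + ((fi y c : ℕ) : ℝ) + κ) ≤ y c ∧
      y c < 2⁻¹ ^ n' * (N * (tz y c : ℝ) + ((fi y c : ℕ) : ℝ) + 1 - κ) ∧
      2⁻¹ ^ n' * ((tz y c : ℝ) + κ) ≤ (y - τ (tz y) (fi y)) c ∧
      (y - τ (tz y) (fi y)) c < 2⁻¹ ^ n' * ((tz y c : ℝ) + 1 - κ) := by
    intro y hy c
    have := blk_atom Λ εu mmax hΛ κ n n' j N hn' Bad BadT (fi y) (fp y) (h2 y hy) (fa y hy) c
      (tz y c) rfl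
    rw [← hη, ← h5 y hy, ← htau y hy] at this
    exact this
  have hpos : ∀ y ∈ atoms Λ η σ, (N : ℝ)⁻¹ • y ∈ cell n' (tz y) := by
    intro y hy c
    obtain ⟨g1, g2, -, -⟩ := hat y hy c
    have g3 : (0 : ℝ) ≤ ((fi y c : ℕ) : ℝ) := Nat.cast_nonneg _
    have g4 : ((fi y c : ℕ) : ℝ) + 1 ≤ N := by exact_mod_cast (fi y c).2
    rw [PiLp.smul_apply, smul_eq_mul, inv_mul_eq_div, le_div_iff₀ hN0, div_lt_iff₀ hN0]
    constructor
    · refine le_trans ?_ g1
      nlinarith [mul_nonneg hpow'.le (add_nonneg g3 hκ.le)]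
    · refine lt_of_lt_of_le g2 ?_
      have : 2⁻¹ ^ n' * (N * (tz y c : ℝ) + ((fi y c : ℕ) : ℝ) + 1 - κ) ≤
          2⁻¹ ^ n' * (N * (tz y c : ℝ) + N) :=
        mul_le_mul_of_nonneg_left (by linarith) hpow'.le
      nlinarith
  have hdeep : ∀ y ∈ atoms Λ η σ, ∀ x, ‖x - (N : ℝ)⁻¹ • y‖ ≤ 2 * κ * 2⁻¹ ^ n →
      x ∈ cell n (par n n' (tz y)) := fun y hy x hx =>
    (h2 y hy).1.2.2.2 x _ (hpos y hy) hx
  have hfar : ∀ y ∈ atoms Λ η σ, ∀ y2 ∈ Sin, 2 * κ * 2⁻¹ ^ n * N < ‖y - y2‖ := by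
    intro y hy y2 hy2
    by_contra hcon
    push Not at hcon
    have g1 : (N : ℝ)⁻¹ • y2 ∈ cell n (par n n' (tz y)) := by
      refine hdeep y hy _ ?_
      rw [← smul_sub, norm_smul, norm_inv, Real.norm_of_nonneg hN0.le, norm_sub_rev,
        inv_mul_eq_div, div_le_iff₀ hN0]
      exact hcon
    have g2 : fp y ∈ bx d (1 * 2 ^ (j - md)) := by
      rw [blk_mem_bx]
      intro c
      obtain ⟨g3, g4⟩ := g1 c
      obtain ⟨g5, g6⟩ := hSin y2 hy2 c
      rw [PiLp.smul_apply, smul_eq_mul, inv_mul_eq_div] at g3 g4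
      rw [le_div_iff₀ hN0] at g3
      rw [div_lt_iff₀ hN0] at g4
      have e1 := blk_two n md hmd
      have g7 : ((par n n' (tz y) c : ℤ) : ℝ) < 2 ^ (n - md) := by
        by_contra hc
        push Not at hc
        have := mul_le_mul_of_nonneg_right (mul_le_mul_of_nonneg_right hc hpown.le) hN0.le
        rw [e1] at this
        linarith
      have g8 : -(2 : ℝ) ^ (n - md) < ((par n n' (tz y) c : ℤ) : ℝ) + 1 := by
        by_contra hc
        push Not at hc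
        have := mul_le_mul_of_nonneg_right (mul_le_mul_of_nonneg_right hc hpown.le) hN0.le
        rw [neg_mul, e1] at this
        linarith
      have g9 : par n n' (tz y) c < 2 ^ (n - md) := by exact_mod_cast g7
      have g10 : -(2 : ℤ) ^ (n - md) < par n n' (tz y) c + 1 := by exact_mod_cast g8
      have g11 : -(2 : ℤ) ^ (n - md) ≤ par n n' (tz y) c := by omega
      have hb1 : (0 : ℤ) < 2 ^ (n' - n) := by positivity
      have g12 : -(2 : ℤ) ^ (n' - md) ≤ tz y c ∧ tz y c < 2 ^ (n' - md) := by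
        rw [blk_pow n md n' hmd hn, ← blk_int _ _ _ hb1]
        exact ⟨g11, g9⟩
      push_cast
      rw [one_mul, blk_pow n' md j (hmd.trans hn) hn', ← blk_int _ _ _ hb0]
      exact g12
    have g3 := h1 y hy
    unfold abx at g3
    rw [Finset.mem_sdiff] at g3
    exact g3.2 g2
  refine ⟨tz, fi, τ, ?_⟩
  constructor
  · intro y hy
    exact (h2 y (hmemat y hy)).1.1
  · intro y hy
    exact (h2 y (hmemat y hy)).1.2.1
  · intro y hy
    exact (h2 y (hmemat y hy)).1.2.2.1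
  · intro y hy x hx
    exact hdeep y (hmemat y hy) x hx
  · intro y hy
    exact hpos y (hmemat y hy)
  · intro y hy
    have hy' := hmemat y hy
    rw [htau y hy']
    exact ⟨fp y, fa y hy', h4 y hy', rfl⟩
  · intro y hy x hx c
    have hy' := hmemat y hy
    obtain ⟨-, -, g3, g4⟩ := hat y hy' c
    have g5 := blk_abs x (y - τ (tz y) (fi y)) c
    have g6 := abs_le.1 (g5.trans hx.le)
    have g7 := abs_lt.1 (lt_of_le_of_lt g5 hx)
    constructor
    · nlinarith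
    · nlinarith
  · intro y hy
    have hy' := hmemat y hy
    rw [hm y hy', htau y hy']
    rw [massL_atom Λ εu mmax hΛ η hη0 (σ' (fi y)) (fp y) (fa y hy') (h4 y hy')]
    conv_lhs => rw [h5 y hy']
    exact massL_atom Λ εu mmax hΛ η hη0 σ _ (fa y hy') (h3 y hy')
  · intro y hy y2 hy2 hd
    have hy' := hmemat y hy
    have g0 : y2 ∉ Sin := by
      intro hcon
      have g1 := hfar y hy' y2 hcon
      have g2 : (2⁻¹ : ℝ) ^ n' ≤ 2⁻¹ ^ n :=
        pow_le_pow_of_le_one (by norm_num) (by norm_num) hn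
      have g3 : (1 : ℝ) ≤ N := by exact_mod_cast hN
      have g4 : κ * 2⁻¹ ^ n' ≤ κ * 2⁻¹ ^ n := mul_le_mul_of_nonneg_left g2 hκ.le
      have g5 : κ * 2⁻¹ ^ n * 1 ≤ κ * 2⁻¹ ^ n * N :=
        mul_le_mul_of_nonneg_left g3 (by positivity)
      nlinarith
    have hy2' : y2 ∈ atoms Λ η σ := hmemat y2 ⟨hy2, g0⟩
    have g1 : ∀ c, (N : ℤ) * tz y c + (fi y c : ℤ) = N * tz y2 c + (fi y2 c : ℤ) := by
      intro c
      obtain ⟨a1, a2, -, -⟩ := hat y hy' c
      obtain ⟨b1, b2, -, -⟩ := hat y2 hy2' c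
      have g5 := abs_lt.1 (lt_of_le_of_lt (blk_abs y y2 c) hd)
      rcases lt_trichotomy ((N : ℤ) * tz y c + (fi y c : ℤ)) (N * tz y2 c + (fi y2 c : ℤ))
        with g2 | g2 | g2
      · exfalso
        have g3 : (N : ℤ) * tz y c + (fi y c : ℤ) + 1 ≤ N * tz y2 c + (fi y2 c : ℤ) := g2
        have g4 : (N : ℝ) * tz y c + ((fi y c : ℕ) : ℝ) + 1 ≤ N * tz y2 c + ((fi y2 c : ℕ) : ℝ) := by
          exact_mod_cast g3
        have g6 : 2⁻¹ ^ n' * ((N : ℝ) * tz y c + ((fi y c : ℕ) : ℝ) + 1) ≤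
            2⁻¹ ^ n' * (N * tz y2 c + ((fi y2 c : ℕ) : ℝ)) :=
          mul_le_mul_of_nonneg_left g4 hpow'.le
        have g7 : 0 < κ * 2⁻¹ ^ n' := by positivity
        nlinarith
      · exact g2
      · exfalso
        have g3 : (N : ℤ) * tz y2 c + (fi y2 c : ℤ) + 1 ≤ N * tz y c + (fi y c : ℤ) := g2
        have g4 : (N : ℝ) * tz y2 c + ((fi y2 c : ℕ) : ℝ) + 1 ≤ N * tz y c + ((fi y c : ℕ) : ℝ) := by
          exact_mod_cast g3
        have g6 : 2⁻¹ ^ n' * ((N : ℝ) * tz y2 c + ((fi y2 c : ℕ) : ℝ) + 1) ≤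
            2⁻¹ ^ n' * (N * tz y c + ((fi y c : ℕ) : ℝ)) :=
          mul_le_mul_of_nonneg_left g4 hpow'.le
        have g7 : 0 < κ * 2⁻¹ ^ n' := by positivity
        nlinarith
    have g2 : ∀ c, tz y c = tz y2 c ∧ (fi y c : ℤ) = fi y2 c := fun c =>
      blk_div N _ _ _ _ (blk_fin N _).1 (blk_fin N _).2 (blk_fin N _).1 (blk_fin N _).2 (g1 c)
    exact ⟨g0, funext fun c => (g2 c).1, funext fun c => Fin.ext (by exact_mod_cast (g2 c).2)⟩
  · intro y hy y2 hy2 hy3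
    exact hfar y (hmemat y hy) y2 hy3
  · intro y hy
    have hy' := hmemat y hy
    have g3 := h1 y hy'
    unfold abx at g3
    rw [Finset.mem_sdiff, blk_mem_bx, blk_mem_bx] at g3
    by_contra hcon
    push Not at hcon
    apply g3.2
    intro c
    push_cast
    rw [one_mul, blk_pow n' md j (hmd.trans hn) hn', ← blk_int _ _ _ hb0]
    have g4 : |y c| < 2⁻¹ ^ md * N := by
      have := PiLp.norm_apply_le y c
      rw [Real.norm_eq_abs] at this
      exact lt_of_le_of_lt this hcon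
    have g5 := abs_lt.1 g4
    obtain ⟨g6, g7⟩ := hpos y hy' c
    rw [PiLp.smul_apply, smul_eq_mul, inv_mul_eq_div] at g6 g7
    rw [le_div_iff₀ hN0] at g6
    rw [div_lt_iff₀ hN0] at g7
    have e1 := blk_two n' md (hmd.trans hn)
    have g8 : ((tz y c : ℤ) : ℝ) < 2 ^ (n' - md) := by
      by_contra hc
      push Not at hc
      have := mul_le_mul_of_nonneg_right (mul_le_mul_of_nonneg_right hc hpow'.le) hN0.le
      rw [e1] at this
      linarith
    have g9 : -(2 : ℝ) ^ (n' - md) < ((tz y c : ℤ) : ℝ) + 1 := by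
      by_contra hc
      push Not at hc
      have := mul_le_mul_of_nonneg_right (mul_le_mul_of_nonneg_right hc hpow'.le) hN0.le
      rw [neg_mul, e1] at this
      linarith
    have g10 : tz y c < 2 ^ (n' - md) := by exact_mod_cast g8
    have g11 : -(2 : ℤ) ^ (n' - md) < tz y c + 1 := by exact_mod_cast g9
    exact ⟨by have : tz y c = fp y c / 2 ^ (j - n') := rfl
              omega, g10⟩

end MP4fb

end
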