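import Pool.Agent.Lib.MP_4fbc34_pr.DisA

/-!
JOB DisP: probabilities of discretised configurations.

* `st_event`: for one cell `p` and a state `s` the event `St (Ξ ω) p s` is a count event on `Tot p`, with probability
  `wlow s`: for `none` by `ppp_zero` and `prod_tot`; for `some a` use the two disjoint sets `Cset a` and `Tot \ Cset a` of
  intensities `lamA a` and `lamT - lamA a` (independent, law with `n = 1` and `n = 0`):
  `lamA e^{-lamA} e^{-(lamT - lamA)}`.
* `st_prob`: product over the cells of `B` (`ce_finset`, the sets `Tot p` are disjoint).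
* `low_event`: the event is the finite disjoint union over the `f : B → Option A` with `ext f ∈ Ev` of the events
  `∀ p, St (Ξ ω) p (f p)` (disjoint because the states exclude each other); it is a count event: use the family of all
  `Cset p a` (`a ∈ A`) and the remainders `Tot p \ ⋃_a Cset p a`, indexed by `B × Option A`: `St p none` means that all the
  counts of the cell are zero, `St p (some a)` that the count of `Cset p a` is `1` and all others are `0`.  (Counts of
  finite disjoint unions are sums.)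
* `up_event`: `upc` of a cell is `some a` with probability `wlow (some a)`, so `none` with probability
  `1 - ∑_a = wup none`; the events `{upc (Ξ ω) p = s}` for `p ∈ B` are count events on the disjoint sets `Tot p`, so
  independent; sum over the configurations `f` with `ext f ∈ Ev`.
-/

set_option autoImplicit false

open MeasureTheory ProbabilityTheory
open scoped ENNReal Classical

noncomputable section

namespace MP4fb

variable {d : ℕ}

/-- a partition of the cell: the sets `Cset a` and the remainder -/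
private def dpD (P : DP) (r : ℝ) (p : Fin d → ℤ) : Option (P.lat d).A → Set (E d × ℝ)
  | none => Tot P r p \ ⋃ a, Cset P r p a
  | some a => Cset P r p a

/-- the state in terms of the counts -/
private def dpS (P : DP) (c : Option (P.lat d).A → ℕ∞) : Option (P.lat d).A → Prop
  | none => ∀ x, c x = 0
  | some a => c (some a) = 1 ∧ ∀ x, x ≠ some a → c x = 0

private theorem dpS_uniq (P : DP) (c : Option (P.lat d).A → ℕ∞) (s s' : Option (P.lat d).A)
    (h : dpS P c s) (h' : dpS P c s') : s = s' := by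
  cases s with
  | none =>
    cases s' with
    | none => rfl
    | some a' =>
      have h1 : c (some a') = 0 := h (some a')
      rw [h'.1] at h1
      exact absurd h1 one_ne_zero
  | some a =>
    cases s' with
    | none =>
      have h1 : c (some a) = 0 := h' (some a)
      rw [h.1] at h1
      exact absurd h1 one_ne_zero
    | some a' =>
      by_contra hne
      have h1 : c (some a) = 0 := h'.2 (some a) hne
      rw [h.1] at h1
      exact absurd h1 one_ne_zero

private theorem dpD_meas (P : DP) (r : ℝ) (p : Fin d → ℤ) (x : Option (P.lat d).A) :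
    MeasurableSet (dpD P r p x) := by
  cases x with
  | none => exact (tot_meas P r p).diff (MeasurableSet.iUnion fun a => cset_meas P r p a)
  | some a => exact cset_meas P r p a

private theorem dpD_sub (P : DP) (hP : P.Ok) (r : ℝ) (hr : 0 < r) (p : Fin d → ℤ)
    (x : Option (P.lat d).A) : dpD P r p x ⊆ Tot P r p := by
  cases x with
  | none => exact Set.diff_subset
  | some a => exact cset_sub P hP r hr p a

private theorem dpD_disj (P : DP) (hP : P.Ok) (r : ℝ) (hr : 0 < r) (p : Fin d → ℤ)
    (x y : Option (P.lat d).A) (h : x ≠ y) : Disjoint (dpD P r p x) (dpD P r p y) := by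
  cases x with
  | none =>
    cases y with
    | none => exact absurd rfl h
    | some a =>
      rw [Set.disjoint_left]
      rintro z ⟨_, hz⟩ hz'
      exact hz (Set.mem_iUnion.2 ⟨a, hz'⟩)
  | some a =>
    cases y with
    | none =>
      rw [Set.disjoint_right]
      rintro z ⟨_, hz⟩ hz'
      exact hz (Set.mem_iUnion.2 ⟨a, hz'⟩)
    | some a' =>
      exact cset_disj P hP r hr p a a' fun e => h (by rw [e])

private theorem dp_enc (X Y : Set (E d × ℝ)) : (X ∩ Y).encard = 0 ↔ ∀ z ∈ X, z ∉ Y := by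
  rw [Set.encard_eq_zero, Set.eq_empty_iff_forall_notMem]
  constructor
  · intro h z hz hz'
    exact h z ⟨hz, hz'⟩
  · rintro h z ⟨hz, hz'⟩
    exact h z hz hz'

private theorem dp_cover (P : DP) (r : ℝ) (p : Fin d → ℤ) (z : E d × ℝ) (hz : z ∈ Tot P r p) :
    ∃ x, z ∈ dpD P r p x := by
  by_cases h : ∃ a, z ∈ Cset P r p a
  · obtain ⟨a, ha⟩ := h
    exact ⟨some a, ha⟩
  · exact ⟨none, hz, fun h' => h (Set.mem_iUnion.1 h')⟩

private theorem dp_st_iff (P : DP) (hP : P.Ok) (r : ℝ) (hr : 0 < r) (X : Set (E d × ℝ))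
    (p : Fin d → ℤ) (s : Option (P.lat d).A) :
    St P r X p s ↔ dpS P (fun x => (X ∩ dpD P r p x).encard) s := by
  cases s with
  | none =>
    show (X ∩ Tot P r p).encard = 0 ↔ ∀ x, (X ∩ dpD P r p x).encard = 0
    rw [dp_enc]
    constructor
    · intro h x
      rw [dp_enc]
      intro z hz hz'
      exact h z hz (dpD_sub P hP r hr p x hz')
    · intro h z hz hz'
      obtain ⟨x, hx⟩ := dp_cover P r p z hz'
      exact (dp_enc _ _).1 (h x) z hz hx
  | some a =>
    show ((X ∩ Cset P r p a).encard = 1 ∧ (X ∩ (Tot P r p \ Cset P r p a)).encard = 0) ↔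
      ((X ∩ Cset P r p a).encard = 1 ∧ ∀ x, x ≠ some a → (X ∩ dpD P r p x).encard = 0)
    refine and_congr_right fun _ => ?_
    rw [dp_enc]
    constructor
    · intro h x hx
      rw [dp_enc]
      intro z hz hz'
      refine h z hz ⟨dpD_sub P hP r hr p x hz', fun hz2 => ?_⟩
      exact Set.disjoint_left.1 (dpD_disj P hP r hr p x (some a) hx) hz' hz2
    · rintro h z hz ⟨hz1, hz2⟩
      obtain ⟨x, hx⟩ := dp_cover P r p z hz1
      refine (dp_enc _ _).1 (h x ?_) z hz hx
      rintro rfl
      exact hz2 hx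

variable {Ω : Type*} [MeasurableSpace Ω] (μ : Measure Ω) [IsProbabilityMeasure μ]
  (Ξ : Ω → Set (E d × ℝ)) (ν : Measure ℝ)

/-- events described by the counts of one cell -/
private theorem dp_ce1 (P : DP) (hP : P.Ok) (r : ℝ) (hr : 0 < r) (p : Fin d → ℤ)
    (A : Set (Option (P.lat d).A → ℕ∞)) :
    CE Ξ (Tot P r p) {ω | (fun x => (Ξ ω ∩ dpD P r p x).encard) ∈ A} :=
  ce_of_fintype (dpD P r p) A (Tot P r p) (dpD_meas P r p)
    (fun x y h => dpD_disj P hP r hr p x y h) (dpD_sub P hP r hr p)

private theorem dp_lamA_nonneg (P : DP) (hP : P.Ok) (r : ℝ) (hr : 0 < r) (a : (P.lat d).A) :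
    0 ≤ lamA P ν d r a := by
  unfold lamA
  have h1 := hP.eu_le
  have h2 : (0 : ℝ) ≤ 1 - 2 * P.εu := by linarith
  exact mul_nonneg (pow_nonneg (mul_nonneg hr.le (div_nonneg h2 (Nat.cast_nonneg _))) _)
    ENNReal.toReal_nonneg

private theorem dp_lamT_nonneg (P : DP) (r : ℝ) (hr : 0 < r) : 0 ≤ lamT P ν d r := by
  unfold lamT
  exact mul_nonneg (pow_nonneg hr.le _) ENNReal.toReal_nonneg

theorem st_event (hΞ : IsPPP μ Ξ ν) (hν : ν (Set.Iic 0) = 0)
    (hfin : ∀ t : ℝ, 0 < t → ν (Set.Ici t) ≠ ∞) (P : DP) (hP : P.Ok)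
    (hT : ν (Set.Ici P.δ0) ≠ ∞) (r : ℝ) (hr : 0 < r) (p : Fin d → ℤ) (s : Option (P.lat d).A) :
    CE Ξ (Tot P r p) {ω | St P r (Ξ ω) p s} ∧
      μ {ω | St P r (Ξ ω) p s} = ENNReal.ofReal (wlow P ν d r s) := by
  constructor
  · have h1 : {ω | St P r (Ξ ω) p s} =
        {ω | (fun x => (Ξ ω ∩ dpD P r p x).encard) ∈ {c | dpS P c s}} := by
      ext ω
      exact dp_st_iff P hP r hr (Ξ ω) p s
    rw [h1]
    exact dp_ce1 Ξ P hP r hr p _
  · have hTot := prod_tot ν hν hfin P hP hT r hr p
    cases s with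
    | none =>
      have h1 := ppp_zero hΞ (Tot P r p) (tot_meas P r p) (by rw [hTot]; exact ENNReal.ofReal_ne_top)
      rw [hTot, ENNReal.toReal_ofReal (dp_lamT_nonneg ν P r hr)] at h1
      exact h1
    | some a =>
      have hC := prod_cset ν hν hfin P hP hT r hr p a
      have hA0 := dp_lamA_nonneg (d := d) ν P hP r hr a
      have hT0 := dp_lamT_nonneg (d := d) ν P r hr
      have hle : lamA P ν d r a ≤ lamT P ν d r := by
        have h1 : ((volume : Measure (E d)).prod ν) (Cset P r p a) ≤
            ((volume : Measure (E d)).prod ν) (Tot P r p) := measure_mono (cset_sub P hP r hr p a)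
        rw [hC, hTot] at h1
        exact (ENNReal.ofReal_le_ofReal_iff hT0).1 h1
      have hdiff : ((volume : Measure (E d)).prod ν) (Tot P r p \ Cset P r p a) =
          ENNReal.ofReal (lamT P ν d r - lamA P ν d r a) := by
        rw [measure_diff (cset_sub P hP r hr p a) (cset_meas P r p a).nullMeasurableSet
          (by rw [hC]; exact ENNReal.ofReal_ne_top), hC, hTot, ENNReal.ofReal_sub _ hA0]
      have hdm : MeasurableSet (Tot P r p \ Cset P r p a) := (tot_meas P r p).diff (cset_meas P r p a)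
      have c1 : CE Ξ (Cset P r p a) {ω | (Ξ ω ∩ Cset P r p a).encard = 1} := by
        have := ce_of_fintype (Ξ := Ξ) (ι := Unit) (fun _ => Cset P r p a) {c | c () = 1}
          (Cset P r p a) (fun _ => cset_meas P r p a) (fun x y h => absurd (Subsingleton.elim x y) h)
          (fun _ => Set.Subset.refl _)
        exact this
      have c2 : CE Ξ (Tot P r p \ Cset P r p a)
          {ω | (Ξ ω ∩ (Tot P r p \ Cset P r p a)).encard = 0} := by
        have := ce_of_fintype (Ξ := Ξ) (ι := Unit) (fun _ => Tot P r p \ Cset P r p a) {c | c () = 0}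
          (Tot P r p \ Cset P r p a) (fun _ => hdm) (fun x y h => absurd (Subsingleton.elim x y) h)
          (fun _ => Set.Subset.refl _)
        exact this
      have h2 := (ce_inter hΞ (Cset P r p a) (Tot P r p \ Cset P r p a)
        (Set.disjoint_sdiff_right) _ _ c1 c2).2
      have h3 : {ω | St P r (Ξ ω) p (some a)} = {ω | (Ξ ω ∩ Cset P r p a).encard = 1} ∩
          {ω | (Ξ ω ∩ (Tot P r p \ Cset P r p a)).encard = 0} := rfl
      rw [h3, h2]
      have h4 := hΞ.law (Cset P r p a) (cset_meas P r p a) (by rw [hC]; exact ENNReal.ofReal_ne_top) 1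
      rw [hC, ENNReal.toReal_ofReal hA0] at h4
      have h5 := ppp_zero hΞ (Tot P r p \ Cset P r p a) hdm (by rw [hdiff]; exact ENNReal.ofReal_ne_top)
      rw [hdiff, ENNReal.toReal_ofReal (by linarith)] at h5
      have h4' : μ {ω | (Ξ ω ∩ Cset P r p a).encard = 1} =
          ENNReal.ofReal (Real.exp (-lamA P ν d r a) * lamA P ν d r a) := by
        have e : {ω | (Ξ ω ∩ Cset P r p a).encard = 1} =
            {ω | (Ξ ω ∩ Cset P r p a).encard = ((1 : ℕ) : ℕ∞)} := by
          simp
        rw [e, h4]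
        congr 1
        simp
      rw [h4', h5, ← ENNReal.ofReal_mul (by positivity)]
      congr 1
      show _ = lamA P ν d r a * Real.exp (-lamT P ν d r)
      have e2 : Real.exp (-lamT P ν d r) = Real.exp (-lamA P ν d r a) *
          Real.exp (-(lamT P ν d r - lamA P ν d r a)) := by
        rw [← Real.exp_add]
        congr 1
        ring
      rw [e2]
      ring

/-- the general form of the two probabilities -/
private theorem dp_prob (hΞ : IsPPP μ Ξ ν) (P : DP) (r : ℝ) (hr : 0 < r)
    (B : Finset (Fin d → ℤ)) (Ev : Set (Cfg (P.lat d)))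
    (G : B → Option (P.lat d).A → Set Ω) (w : Option (P.lat d).A → ℝ) (hw : ∀ x, 0 ≤ w x)
    (h1 : ∀ (p : B) (s : Option (P.lat d).A), CE Ξ (Tot P r (p : Fin d → ℤ)) (G p s))
    (h2 : ∀ (p : B) (s : Option (P.lat d).A), μ (G p s) = ENNReal.ofReal (w s))
    (h3 : ∀ (p : B) (s s' : Option (P.lat d).A), s ≠ s' → Disjoint (G p s) (G p s')) :
    μ {ω | ∃ f : B → Option (P.lat d).A, ext (P.lat d) B f ∈ Ev ∧ ∀ p : B, ω ∈ G p (f p)} =
      ENNReal.ofReal (prB (P.lat d) B w Ev) := by
  have hdis : ∀ p q : B, p ≠ q → Disjoint (Tot P r (p : Fin d → ℤ)) (Tot P r (q : Fin d → ℤ)) := by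
    intro p q hpq
    exact tot_disj P r hr _ _ fun e => hpq (Subtype.ext e)
  have hf : ∀ f : B → Option (P.lat d).A,
      MeasurableSet (⋂ p : B, G p (f p)) ∧ μ (⋂ p : B, G p (f p)) =
        ENNReal.ofReal (∏ p : B, w (f p)) := by
    intro f
    have h4 := ce_finset hΞ (Finset.univ : Finset B) (fun p => Tot P r (p : Fin d → ℤ))
      (fun p _ q _ hpq => hdis p q hpq) (fun p => G p (f p)) (fun p _ => h1 p (f p))
    have e1 : (⋂ p ∈ (Finset.univ : Finset B), G p (f p)) = ⋂ p : B, G p (f p) := by simp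
    rw [e1] at h4
    refine ⟨ce_meas hΞ _ _ h4.1, ?_⟩
    rw [h4.2, ENNReal.ofReal_prod_of_nonneg fun p _ => hw _]
    exact Finset.prod_congr rfl fun p _ => h2 p (f p)
  set S : Finset (B → Option (P.lat d).A) :=
    Finset.univ.filter (fun f => ext (P.lat d) B f ∈ Ev) with hS
  have e2 : {ω | ∃ f : B → Option (P.lat d).A, ext (P.lat d) B f ∈ Ev ∧ ∀ p : B, ω ∈ G p (f p)} =
      ⋃ f ∈ S, ⋂ p : B, G p (f p) := by
    ext ω
    simp only [Set.mem_setOf_eq, Set.mem_iUnion, Set.mem_iInter, hS, Finset.mem_filter,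
      Finset.mem_univ, true_and, exists_prop]
  rw [e2, measure_biUnion_finset ?_ fun f _ => (hf f).1]
  · rw [Finset.sum_congr rfl fun f _ => (hf f).2]
    unfold prB
    rw [← Finset.sum_filter, ENNReal.ofReal_sum_of_nonneg fun f _ => Finset.prod_nonneg fun p _ => hw _]
  · intro f _ f' _ hff
    rw [Function.onFun, Set.disjoint_left]
    intro ω hω hω'
    apply hff
    funext p
    by_contra hne
    rw [Set.mem_iInter] at hω hω'
    exact Set.disjoint_left.1 (h3 p _ _ hne) (hω p) (hω' p)

/-- the lower event and its probability -/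
theorem low_event (hΞ : IsPPP μ Ξ ν) (hν : ν (Set.Iic 0) = 0)
    (hfin : ∀ t : ℝ, 0 < t → ν (Set.Ici t) ≠ ∞) (P : DP) (hP : P.Ok)
    (hT : ν (Set.Ici P.δ0) ≠ ∞) (r : ℝ) (hr : 0 < r) (B : Finset (Fin d → ℤ))
    (Ev : Set (Cfg (P.lat d))) :
    CE Ξ (⋃ p ∈ B, Tot P r p) {ω | ∃ f : B → Option (P.lat d).A, ext (P.lat d) B f ∈ Ev ∧
      ∀ p : B, St P r (Ξ ω) p (f p)} ∧
    μ {ω | ∃ f : B → Option (P.lat d).A, ext (P.lat d) B f ∈ Ev ∧
      ∀ p : B, St P r (Ξ ω) p (f p)} =
      ENNReal.ofReal (prB (P.lat d) B (wlow P ν d r) Ev) := by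
  constructor
  · have h1 := ce_of_fintype (Ξ := Ξ) (ι := B × Option (P.lat d).A)
      (fun q => dpD P r (q.1 : Fin d → ℤ) q.2)
      {c | ∃ f : B → Option (P.lat d).A, ext (P.lat d) B f ∈ Ev ∧
        ∀ p : B, dpS P (fun x => c (p, x)) (f p)} (⋃ p ∈ B, Tot P r p)
      (fun q => dpD_meas P r _ _) ?_ ?_
    · have e : {ω | ∃ f : B → Option (P.lat d).A, ext (P.lat d) B f ∈ Ev ∧
          ∀ p : B, St P r (Ξ ω) p (f p)} =
          {ω | (fun q : B × Option (P.lat d).A => (Ξ ω ∩ dpD P r (q.1 : Fin d → ℤ) q.2).encard) ∈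
            {c | ∃ f : B → Option (P.lat d).A, ext (P.lat d) B f ∈ Ev ∧
              ∀ p : B, dpS P (fun x => c (p, x)) (f p)}} := by
        ext ω
        refine exists_congr fun f => and_congr_right fun _ => forall_congr' fun p => ?_
        exact dp_st_iff P hP r hr (Ξ ω) p (f p)
      rw [e]
      exact h1
    · rintro ⟨p, x⟩ ⟨q, y⟩ hne
      show Disjoint (dpD P r (p : Fin d → ℤ) x) (dpD P r (q : Fin d → ℤ) y)
      by_cases hpq : p = q
      · subst hpq
        refine dpD_disj P hP r hr _ x y fun e => hne ?_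
        rw [e]
      · exact (tot_disj P r hr _ _ fun e => hpq (Subtype.ext e)).mono (dpD_sub P hP r hr _ x)
          (dpD_sub P hP r hr _ y)
    · rintro ⟨p, x⟩
      exact (dpD_sub P hP r hr _ x).trans
        (Set.subset_biUnion_of_mem (u := fun p => Tot P r p) p.2)
  · refine dp_prob μ Ξ ν hΞ P r hr B Ev (fun p s => {ω | St P r (Ξ ω) p s}) (wlow P ν d r)
      (wlow_nonneg ν P hP r hr) (fun p s => (st_event μ Ξ ν hΞ hν hfin P hP hT r hr p s).1)
      (fun p s => (st_event μ Ξ ν hΞ hν hfin P hP hT r hr p s).2) ?_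
    intro p s s' hss
    rw [Set.disjoint_left]
    intro ω h h'
    exact hss (dpS_uniq P _ s s' ((dp_st_iff P hP r hr (Ξ ω) p s).1 h)
      ((dp_st_iff P hP r hr (Ξ ω) p s').1 h'))

/-- the probability of the upper event -/
theorem up_event (hΞ : IsPPP μ Ξ ν) (hν : ν (Set.Iic 0) = 0)
    (hfin : ∀ t : ℝ, 0 < t → ν (Set.Ici t) ≠ ∞) (P : DP) (hP : P.Ok)
    (hT : ν (Set.Ici P.δ0) ≠ ∞) (r : ℝ) (hr : 0 < r) (hlam : lamT P ν d r ≤ 1)
    (B : Finset (Fin d → ℤ)) (Ev : Set (Cfg (P.lat d))) :
    μ {ω | ext (P.lat d) B (fun p => upc P r (Ξ ω) p) ∈ Ev} =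
      ENNReal.ofReal (prB (P.lat d) B (wup P ν d r) Ev) := by
  have hnone : ∀ (X : Set (E d × ℝ)) (p : Fin d → ℤ), upc P r X p = none ↔
      ¬ ∃ a, St P r X p (some a) := by
    intro X p
    unfold upc
    split_ifs with h
    · simp [h]
    · simp [h]
  have hce : ∀ (p : Fin d → ℤ) (s : Option (P.lat d).A),
      CE Ξ (Tot P r p) {ω | upc P r (Ξ ω) p = s} := by
    intro p s
    cases s with
    | none =>
      have e : {ω | upc P r (Ξ ω) p = none} =
          {ω | (fun x => (Ξ ω ∩ dpD P r p x).encard) ∈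
            {c : Option (P.lat d).A → ℕ∞ | ¬ ∃ a, dpS P c (some a)}} := by
        ext ω
        show upc P r (Ξ ω) p = none ↔ _
        rw [hnone]
        exact not_congr (exists_congr fun a => dp_st_iff P hP r hr (Ξ ω) p (some a))
      rw [e]
      exact dp_ce1 Ξ P hP r hr p _
    | some a =>
      have e : {ω | upc P r (Ξ ω) p = some a} = {ω | St P r (Ξ ω) p (some a)} := by
        ext ω
        exact upc_some P hP r hr (Ξ ω) p a
      rw [e]
      exact (st_event μ Ξ ν hΞ hν hfin P hP hT r hr p (some a)).1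
  have hpr : ∀ (p : Fin d → ℤ) (s : Option (P.lat d).A),
      μ {ω | upc P r (Ξ ω) p = s} = ENNReal.ofReal (wup P ν d r s) := by
    intro p s
    cases s with
    | some a =>
      have e : {ω | upc P r (Ξ ω) p = some a} = {ω | St P r (Ξ ω) p (some a)} := by
        ext ω
        exact upc_some P hP r hr (Ξ ω) p a
      rw [e]
      exact (st_event μ Ξ ν hΞ hν hfin P hP hT r hr p (some a)).2
    | none =>
      have e : {ω | upc P r (Ξ ω) p = none} =
          (⋃ a ∈ (Finset.univ : Finset (P.lat d).A), {ω | St P r (Ξ ω) p (some a)})ᶜ := by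
        ext ω
        simp only [Set.mem_setOf_eq, Set.mem_compl_iff, Set.mem_iUnion, Finset.mem_univ, true_and,
          exists_prop]
        exact hnone (Ξ ω) p
      have hm : ∀ a : (P.lat d).A, MeasurableSet {ω | St P r (Ξ ω) p (some a)} := fun a =>
        ce_meas hΞ _ _ (st_event μ Ξ ν hΞ hν hfin P hP hT r hr p (some a)).1
      have hsum : μ (⋃ a ∈ (Finset.univ : Finset (P.lat d).A), {ω | St P r (Ξ ω) p (some a)}) =
          ENNReal.ofReal (∑ a, wlow P ν d r (some a)) := by
        rw [measure_biUnion_finset ?_ fun a _ => hm a,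
          ENNReal.ofReal_sum_of_nonneg fun a _ => wlow_nonneg ν P hP r hr _]
        · exact Finset.sum_congr rfl fun a _ =>
            (st_event μ Ξ ν hΞ hν hfin P hP hT r hr p (some a)).2
        · intro a _ a' _ haa
          rw [Function.onFun, Set.disjoint_left]
          intro ω h h'
          have := dpS_uniq P _ _ _ ((dp_st_iff P hP r hr (Ξ ω) p (some a)).1 h)
            ((dp_st_iff P hP r hr (Ξ ω) p (some a')).1 h')
          exact haa (Option.some.inj this)
      rw [e, prob_compl_eq_one_sub (Finset.measurableSet_biUnion _ fun a _ => hm a), hsum]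
      show _ = ENNReal.ofReal (1 - ∑ a, wlow P ν d r (some a))
      rw [ENNReal.ofReal_sub _ (Finset.sum_nonneg fun a _ => wlow_nonneg ν P hP r hr _),
        ENNReal.ofReal_one]
  have hwup := (wup_props ν P hP hT r hr hlam).1
  have h1 := dp_prob μ Ξ ν hΞ P r hr B Ev (fun p s => {ω | upc P r (Ξ ω) p = s}) (wup P ν d r)
    hwup (fun p s => hce p s) (fun p s => hpr p s) (by
      intro p s s' hss
      rw [Set.disjoint_left]
      intro ω h h'
      exact hss ((show upc P r (Ξ ω) p = s from h).symm.trans h'))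
  rw [← h1]
  congr 1
  ext ω
  constructor
  · intro h
    exact ⟨fun p => upc P r (Ξ ω) p, h, fun p => rfl⟩
  · rintro ⟨f, hf, hp⟩
    have : f = fun p : B => upc P r (Ξ ω) p := by
      funext p
      exact (hp p).symm
    rw [this] at hf
    exact hf

end MP4fb

end
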