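import Pool.Agent.Lib.MP_4fbc34_pr.LatA

/-!
JOB DelL: deleting atoms of a lattice configuration is deleting sites.  For every atom in `U` choose its site
(unique by `lpos_sep`), `V` is the set of these sites.  An atom of the new configuration is an atom of `ω` whose
site is not in `V`, so it is not in `U` (same point means same site); conversely an atom not in `U` has its site
outside `V` (two atoms at the same site are equal because the state is the same).  Masses by `massL_atom`.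
-/

set_option autoImplicit false

open scoped Classical

noncomputable section

namespace MP4fb

variable {d : ℕ}

private lemma DelL_ext {Λ : Lat d} {B : Finset (Fin d → ℤ)} {f : B → Option Λ.A}
    {p : Fin d → ℤ} {a : Λ.A} (h : ext Λ B f p = some a) : ∃ hp : p ∈ B, f ⟨p, hp⟩ = some a := by
  unfold ext at h
  by_cases hp : p ∈ B
  · rw [dif_pos hp] at h
    exact ⟨hp, h⟩
  · rw [dif_neg hp] at h
    cases h

private lemma DelL_ext' {Λ : Lat d} {B : Finset (Fin d → ℤ)} {f : B → Option Λ.A}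
    {p : Fin d → ℤ} {a : Λ.A} (hp : p ∈ B) (h : f ⟨p, hp⟩ = some a) : ext Λ B f p = some a := by
  unfold ext
  rw [dif_pos hp]
  exact h

private lemma DelL_site (Λ : Lat d) (εu mmax : ℝ) (hΛ : Λ.Ok εu mmax) (η : ℝ) (hη : 0 < η)
    {p p' : Fin d → ℤ} {a a' : Λ.A} (h : lpos Λ η p a = lpos Λ η p' a') : p = p' := by
  by_contra hne
  have h1 := lpos_sep Λ εu mmax hΛ η hη p p' a a' hne
  rw [h, sub_self, norm_zero] at h1
  have h2 : 0 < 2 * εu * η := mul_pos (mul_pos two_pos hΛ.eps_pos) hη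
  linarith

theorem del_atoms (Λ : Lat d) (εu mmax : ℝ) (hΛ : Λ.Ok εu mmax) (η : ℝ) (hη : 0 < η)
    (B : Finset (Fin d → ℤ)) (f : B → Option Λ.A) (U : Finset (E d))
    (hU : ↑U ⊆ atoms Λ η (ext Λ B f)) :
    ∃ V : Finset B, V.card ≤ U.card ∧
      atoms Λ η (ext Λ B (fun x => if x ∈ V then none else f x)) = atoms Λ η (ext Λ B f) \ ↑U ∧
      ∀ y ∈ atoms Λ η (ext Λ B f) \ ↑U,
        massL Λ η (ext Λ B (fun x => if x ∈ V then none else f x)) y = massL Λ η (ext Λ B f) y := by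
  have hch : ∀ y : U, ∃ (x : B) (a : Λ.A), f x = some a ∧ (y : E d) = lpos Λ η x.1 a := by
    intro y
    obtain ⟨p, a, h1, h2⟩ := hU y.2
    obtain ⟨hp, h3⟩ := DelL_ext h1
    exact ⟨⟨p, hp⟩, a, h3, h2⟩
  choose g st hg1 hg2 using hch
  obtain ⟨V, hV⟩ : ∃ V : Finset B, V = Finset.univ.image g := ⟨_, rfl⟩
  have hmemV : ∀ x : B, x ∈ V ↔ ∃ y : U, g y = x := by
    intro x
    rw [hV, Finset.mem_image]
    constructor
    · rintro ⟨y, -, h⟩
      exact ⟨y, h⟩
    · rintro ⟨y, h⟩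
      exact ⟨y, Finset.mem_univ _, h⟩
  -- sites outside `V`
  have hout : ∀ (x : B) (a : Λ.A), f x = some a → lpos Λ η x.1 a ∉ (U : Set (E d)) → x ∉ V := by
    intro x a hx hxU hxV
    obtain ⟨y, rfl⟩ := (hmemV x).1 hxV
    have h1 : st y = a := Option.some.inj ((hg1 y).symm.trans hx)
    apply hxU
    rw [← h1, ← hg2 y]
    exact y.2
  have hin : ∀ (x : B) (a : Λ.A), x ∉ V → lpos Λ η x.1 a ∉ (U : Set (E d)) := by
    intro x a hxV hxU
    apply hxV
    refine (hmemV x).2 ⟨⟨lpos Λ η x.1 a, hxU⟩, ?_⟩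
    have h1 := hg2 ⟨lpos Λ η x.1 a, hxU⟩
    exact Subtype.ext (DelL_site Λ εu mmax hΛ η hη h1).symm
  refine ⟨V, ?_, ?_, ?_⟩
  · rw [hV]
    refine Finset.card_image_le.trans (le_of_eq ?_)
    rw [Finset.card_univ, Fintype.card_coe]
  · ext y
    constructor
    · rintro ⟨p, a, h1, rfl⟩
      obtain ⟨hp, h2⟩ := DelL_ext h1
      by_cases hxV : (⟨p, hp⟩ : B) ∈ V
      · have h3 : (none : Option Λ.A) = some a := (if_pos hxV).symm.trans h2
        cases h3
      · have h3 : f ⟨p, hp⟩ = some a := (if_neg hxV).symm.trans h2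
        exact ⟨⟨p, a, DelL_ext' hp h3, rfl⟩, hin ⟨p, hp⟩ a hxV⟩
    · rintro ⟨⟨p, a, h1, rfl⟩, hyU⟩
      obtain ⟨hp, h2⟩ := DelL_ext h1
      have hxV : (⟨p, hp⟩ : B) ∉ V := hout ⟨p, hp⟩ a h2 hyU
      refine ⟨p, a, DelL_ext' hp ?_, rfl⟩
      show (if (⟨p, hp⟩ : B) ∈ V then (none : Option Λ.A) else f ⟨p, hp⟩) = some a
      rw [if_neg hxV]
      exact h2
  · rintro y ⟨⟨p, a, h1, rfl⟩, hyU⟩
    obtain ⟨hp, h2⟩ := DelL_ext h1
    have hxV : (⟨p, hp⟩ : B) ∉ V := hout ⟨p, hp⟩ a h2 hyU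
    rw [massL_atom Λ εu mmax hΛ η hη _ p a h1]
    refine massL_atom Λ εu mmax hΛ η hη _ p a (DelL_ext' hp ?_)
    show (if (⟨p, hp⟩ : B) ∈ V then (none : Option Λ.A) else f ⟨p, hp⟩) = some a
    rw [if_neg hxV]
    exact h2

end MP4fb

end
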