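import Pool.Agent.Lib.MP_4fbc34_pr.LatDef

/-!
JOB KeptC: counting the sites which are not kept.

Let `b = 2^(j - n')`, `Q = 2^(n' - n)`.  The sites `p ∈ bx d (2^j)` correspond to pairs (tile `z = p / b ∈ zbox d n'`,
residue `p % b ∈ [0, b)^d`), and the tiles to pairs (parent `z / Q ∈ zbox d n`, residue `z % Q`).  A site is not
kept only if
 (1) for some coordinate the residue `p i % b` is `< κ b` or `> (1 - κ) b - 1`: at most `2 (κ b + 1)` residues,
     so at most `d * 2 (κ + 1/b) * (2^(j+1))^d` sites;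
 (2) the tile is in `BadT`: at most `δ (2^n')^d b^d = δ (2^j)^d` sites;
 (3) the parent is in `Bad`: at most `δ (2^n)^d (2^(j-n))^d = δ (2^j)^d` sites;
 (4) the tile is not deep: for some coordinate the residue of `z i` modulo `Q` satisfies
     `z i % Q < 2 κ Q` or `z i % Q + 1 > Q - 2 κ Q` (if neither happens for any coordinate, then
     for `y ∈ cell n' z` and `‖x - y‖ <= 2 κ 2⁻ⁿ` the coordinates of `x` satisfy the inequalities of
     `cell n (par n n' z)`; with strictness from `y i < (z i + 1) 2⁻ⁿ'`), at most `2 (2 κ Q + 1)` residues, so at most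
     `d * 2 (2 κ + 1/Q) (2^(j+1))^d` sites.
With `1/b <= κ`, `1/Q <= κ` the total is at most `(4 κ d + 6 κ d + 2 δ) (2^(j+1))^d`.
-/

set_option autoImplicit false

open scoped Classical

noncomputable section

namespace MP4fb

variable {d : ℕ}

private theorem keptc_coord (M : ℕ) (i : Fin d) (P : ℤ → Prop) (τ : ℝ)
    (hτ : (((Finset.Ico (-(M : ℤ)) M).filter P).card : ℝ) ≤ τ * (2 * M)) :
    (((bx d M).filter (fun p => P (p i))).card : ℝ) ≤ τ * (2 * M) ^ d := by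
  have h1 : (bx d M).filter (fun p => P (p i)) = Fintype.piFinset
      (fun c => if c = i then (Finset.Ico (-(M : ℤ)) M).filter P else Finset.Ico (-(M : ℤ)) M) := by
    ext p
    simp only [bx, Finset.mem_filter, Fintype.mem_piFinset]
    constructor
    · rintro ⟨h2, h3⟩ c
      by_cases hc : c = i
      · subst hc
        rw [if_pos rfl, Finset.mem_filter]
        exact ⟨h2 c, h3⟩
      · rw [if_neg hc]
        exact h2 c
    · intro h2
      have h3 := h2 i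
      rw [if_pos rfl, Finset.mem_filter] at h3
      refine ⟨fun c => ?_, h3.2⟩
      by_cases hc : c = i
      · rw [hc]
        exact h3.1
      · have h4 := h2 c
        rw [if_neg hc] at h4
        exact h4
  have hcard : ((Finset.Ico (-(M : ℤ)) M).card : ℝ) = 2 * M := by
    rw [Int.card_Ico]
    have : ((M : ℤ) - -(M : ℤ)).toNat = 2 * M := by omega
    rw [this]
    push_cast
    ring
  rw [h1, Fintype.card_piFinset, Nat.cast_prod,
    ← Finset.mul_prod_erase Finset.univ _ (Finset.mem_univ i), if_pos rfl]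
  have h5 : ∏ c ∈ Finset.univ.erase i, (((if c = i then (Finset.Ico (-(M : ℤ)) M).filter P
      else Finset.Ico (-(M : ℤ)) M).card : ℕ) : ℝ) = ∏ c ∈ Finset.univ.erase i, (2 * (M : ℝ)) := by
    refine Finset.prod_congr rfl fun c hc => ?_
    rw [if_neg (Finset.ne_of_mem_erase hc), hcard]
  have h6 : (2 * (M : ℝ)) ^ d = (2 * (M : ℝ)) * ∏ c ∈ Finset.univ.erase i, (2 * (M : ℝ)) := by
    rw [Finset.mul_prod_erase Finset.univ (fun _ : Fin d => 2 * (M : ℝ)) (Finset.mem_univ i),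
      Finset.prod_const, Finset.card_univ, Fintype.card_fin]
  rw [h5, h6, ← mul_assoc]
  exact mul_le_mul_of_nonneg_right hτ (Finset.prod_nonneg fun c _ => by positivity)

private theorem keptc_res (b M : ℕ) (hb : 0 < b) (R : ℤ → Prop) :
    ((Finset.Ico (-((M * b : ℕ) : ℤ)) ((M * b : ℕ) : ℤ)).filter (fun p => R (p % b))).card ≤
      ((Finset.Ico (0 : ℤ) b).filter R).card * (2 * M) := by
  have hbz : (0 : ℤ) < b := by exact_mod_cast hb
  have h1 : ((Finset.Ico (-(M : ℤ)) M).card) = 2 * M := by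
    rw [Int.card_Ico]
    omega
  rw [← h1, ← Finset.card_product]
  refine Finset.card_le_card_of_injOn (fun p => (p % b, p / b)) ?_ ?_
  · intro p hp
    rw [Finset.mem_coe, Finset.mem_filter, Finset.mem_Ico] at hp
    obtain ⟨⟨h2, h3⟩, h4⟩ := hp
    push_cast at h2 h3
    rw [Finset.mem_coe, Finset.mem_product, Finset.mem_filter, Finset.mem_Ico, Finset.mem_Ico]
    refine ⟨⟨⟨Int.emod_nonneg _ hbz.ne', Int.emod_lt_of_pos _ hbz⟩, h4⟩, ?_, ?_⟩
    · exact (Int.le_ediv_iff_mul_le hbz).2 (by linarith)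
    · exact (Int.ediv_lt_iff_lt_mul hbz).2 h3
  · intro p _ q _ hpq
    have h2 : p % b = q % b := congrArg Prod.fst hpq
    have h3 : p / b = q / b := congrArg Prod.snd hpq
    rw [← Int.emod_add_mul_ediv p b, ← Int.emod_add_mul_ediv q b, h2, h3]

private theorem keptc_div (b M : ℕ) (hb : 0 < b) (P : ℤ → Prop) :
    ((Finset.Ico (-((M * b : ℕ) : ℤ)) ((M * b : ℕ) : ℤ)).filter (fun p => P (p / b))).card ≤
      ((Finset.Ico (-(M : ℤ)) M).filter P).card * b := by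
  have hbz : (0 : ℤ) < b := by exact_mod_cast hb
  have h1 : ((Finset.Ico (0 : ℤ) b).card) = b := by
    rw [Int.card_Ico]
    omega
  conv_rhs => rw [← h1]
  rw [← Finset.card_product]
  refine Finset.card_le_card_of_injOn (fun p => (p / b, p % b)) ?_ ?_
  · intro p hp
    rw [Finset.mem_coe, Finset.mem_filter, Finset.mem_Ico] at hp
    obtain ⟨⟨h2, h3⟩, h4⟩ := hp
    push_cast at h2 h3
    rw [Finset.mem_coe, Finset.mem_product, Finset.mem_filter, Finset.mem_Ico, Finset.mem_Ico]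
    refine ⟨⟨⟨?_, ?_⟩, h4⟩, Int.emod_nonneg _ hbz.ne', Int.emod_lt_of_pos _ hbz⟩
    · exact (Int.le_ediv_iff_mul_le hbz).2 (by linarith)
    · exact (Int.ediv_lt_iff_lt_mul hbz).2 h3
  · intro p _ q _ hpq
    have h2 : p % b = q % b := congrArg Prod.snd hpq
    have h3 : p / b = q / b := congrArg Prod.fst hpq
    rw [← Int.emod_add_mul_ediv p b, ← Int.emod_add_mul_ediv q b, h2, h3]

private theorem keptc_bad (b : ℕ) (x : ℝ) (hx : 0 ≤ x) :
    (((Finset.Ico (0 : ℤ) b).filter (fun r : ℤ => (r : ℝ) < x ∨ (b : ℝ) - x < (r : ℝ) + 1)).card : ℝ) ≤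
      2 * (x + 1) := by
  have h1 : (Finset.Ico (0 : ℤ) b).filter (fun r : ℤ => (r : ℝ) < x ∨ (b : ℝ) - x < (r : ℝ) + 1) ⊆
      Finset.Ico (0 : ℤ) ⌈x⌉ ∪ Finset.Ico ((b : ℤ) - ⌈x⌉) b := by
    intro r hr
    rw [Finset.mem_filter, Finset.mem_Ico] at hr
    obtain ⟨⟨h2, h3⟩, h4⟩ := hr
    rw [Finset.mem_union, Finset.mem_Ico, Finset.mem_Ico]
    rcases h4 with h4 | h4
    · left
      exact ⟨h2, Int.lt_ceil.2 h4⟩
    · right
      refine ⟨?_, h3⟩
      have h5 : ((b - r - 1 : ℤ) : ℝ) < x := by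
        push_cast
        linarith
      have h6 : b - r - 1 < ⌈x⌉ := Int.lt_ceil.2 h5
      omega
  have h2 := (Finset.card_le_card h1).trans (Finset.card_union_le _ _)
  rw [Int.card_Ico, Int.card_Ico] at h2
  have h3 : 0 ≤ ⌈x⌉ := Int.ceil_nonneg hx
  have h4 : ((⌈x⌉ - 0).toNat + ((b : ℤ) - ((b : ℤ) - ⌈x⌉)).toNat : ℕ) = 2 * ⌈x⌉.toNat := by omega
  rw [h4] at h2
  have h5 : ((⌈x⌉.toNat : ℕ) : ℝ) < x + 1 := by
    have h6 : ((⌈x⌉.toNat : ℕ) : ℤ) = ⌈x⌉ := Int.toNat_of_nonneg h3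
    have h7 : ((⌈x⌉.toNat : ℕ) : ℝ) = (⌈x⌉ : ℝ) := by exact_mod_cast h6
    rw [h7]
    exact Int.ceil_lt_add_one x
  have h6 : ((((Finset.Ico (0 : ℤ) b).filter
      (fun r : ℤ => (r : ℝ) < x ∨ (b : ℝ) - x < (r : ℝ) + 1)).card : ℕ) : ℝ) ≤
      ((2 * ⌈x⌉.toNat : ℕ) : ℝ) := by exact_mod_cast h2
  push_cast at h6
  linarith

private theorem keptc_fib (B M : ℕ) (hB : 0 < B) (F : Finset (Fin d → ℤ)) :
    ((bx d M).filter (fun p => (fun i => p i / (B : ℤ)) ∈ F)).card ≤ B ^ d * F.card := by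
  have hbz : (0 : ℤ) < B := by exact_mod_cast hB
  refine Finset.card_le_mul_card_image_of_maps_to (f := fun p : Fin d → ℤ => fun i => p i / (B : ℤ))
    (fun p hp => (Finset.mem_filter.1 hp).2) _ (fun z _ => ?_)
  have h1 : (((bx d M).filter (fun p => (fun i => p i / (B : ℤ)) ∈ F)).filter
      (fun p => (fun i => p i / (B : ℤ)) = z)) ⊆
      Fintype.piFinset (fun i => Finset.Ico ((B : ℤ) * z i) ((B : ℤ) * z i + B)) := by
    intro p hp
    have h2 := (Finset.mem_filter.1 hp).2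
    rw [Fintype.mem_piFinset]
    intro i
    have h3 : p i / (B : ℤ) = z i := congrFun h2 i
    have h4 := Int.emod_add_mul_ediv (p i) B
    have h5 := Int.emod_nonneg (p i) hbz.ne'
    have h6 := Int.emod_lt_of_pos (p i) hbz
    rw [h3] at h4
    rw [Finset.mem_Ico]
    constructor <;> linarith
  refine (Finset.card_le_card h1).trans ?_
  rw [Fintype.card_piFinset]
  have h2 : ∀ i : Fin d, (Finset.Ico ((B : ℤ) * z i) ((B : ℤ) * z i + B)).card = B := by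
    intro i
    rw [Int.card_Ico]
    omega
  rw [Finset.prod_congr rfl fun i _ => h2 i, Finset.prod_const, Finset.card_univ, Fintype.card_fin]

/-- a tile whose residues are good is deep in its parent -/
private theorem keptc_deep (κ : ℝ) (n n' : ℕ) (hn : n ≤ n') (z : Fin d → ℤ)
    (h : ∀ i, 2 * κ * 2 ^ (n' - n) ≤ ((z i % 2 ^ (n' - n) : ℤ) : ℝ) ∧
      ((z i % 2 ^ (n' - n) : ℤ) : ℝ) + 1 ≤ 2 ^ (n' - n) - 2 * κ * 2 ^ (n' - n))
    (x y : E d) (hy : y ∈ cell n' z) (hxy : ‖x - y‖ ≤ 2 * κ * 2⁻¹ ^ n) :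
    x ∈ cell n (par n n' z) := by
  intro i
  obtain ⟨h1, h2⟩ := h i
  obtain ⟨h3, h4⟩ := hy i
  have h5 : |x i - y i| ≤ 2 * κ * 2⁻¹ ^ n := by
    have h6 : ‖(x - y) i‖ ≤ ‖x - y‖ := PiLp.norm_apply_le (x - y) i
    rw [Real.norm_eq_abs] at h6
    exact h6.trans hxy
  have h7 : (z i : ℝ) = ((z i % 2 ^ (n' - n) : ℤ) : ℝ) + 2 ^ (n' - n) * ((z i / 2 ^ (n' - n) : ℤ) : ℝ) := by
    have h8 := Int.emod_add_mul_ediv (z i) (2 ^ (n' - n))
    have h9 : ((z i % 2 ^ (n' - n) + 2 ^ (n' - n) * (z i / 2 ^ (n' - n)) : ℤ) : ℝ) = (z i : ℝ) := by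
      rw [h8]
    rw [← h9]
    push_cast
    ring
  have hpar : ((par n n' z i : ℤ) : ℝ) = ((z i / 2 ^ (n' - n) : ℤ) : ℝ) := rfl
  set r : ℝ := ((z i % 2 ^ (n' - n) : ℤ) : ℝ) with hr
  set q : ℝ := ((z i / 2 ^ (n' - n) : ℤ) : ℝ) with hq
  set t : ℝ := 2⁻¹ ^ n' with ht
  have ht0 : 0 < t := by positivity
  have hQ : (2 : ℝ)⁻¹ ^ n = 2 ^ (n' - n) * t := by
    rw [ht, inv_pow, inv_pow]
    have : (2 : ℝ) ^ n' = 2 ^ (n' - n) * 2 ^ n := by
      rw [← pow_add, Nat.sub_add_cancel hn]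
    rw [this]
    field_simp
  rw [hpar, hQ]
  rw [hQ] at h5
  rw [h7] at h3 h4
  rw [abs_le] at h5
  have e1 := mul_le_mul_of_nonneg_right h1 ht0.le
  have e2 := mul_le_mul_of_nonneg_right h2 ht0.le
  constructor <;> nlinarith [e1, e2, h3, h4, h5.1, h5.2]

theorem kept_card (κ δ : ℝ) (hκ : 0 < κ) (hκ1 : κ ≤ 1 / 4) (hδ : 0 ≤ δ) (n n' j : ℕ) (hn : n ≤ n')
    (hn' : n' ≤ j) (hQ : 1 ≤ κ * 2 ^ (n' - n)) (hb : 1 ≤ κ * 2 ^ (j - n'))
    (Bad BadT : Finset (Fin d → ℤ)) (hBad : (Bad.card : ℝ) ≤ δ * (2 ^ n) ^ d)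
    (hBadT : (BadT.card : ℝ) ≤ δ * (2 ^ n') ^ d) :
    (((bx d (2 ^ j)).filter (fun p => ¬ KeptS κ n n' j Bad BadT p)).card : ℝ) ≤
      (10 * κ * d + 2 * δ) * (2 ^ (j + 1)) ^ d := by
  set b : ℕ := 2 ^ (j - n') with hbdef
  set Q : ℕ := 2 ^ (n' - n) with hQdef
  have hb0 : 0 < b := by positivity
  have hQ0 : 0 < Q := by positivity
  have hbR : ((b : ℕ) : ℝ) = 2 ^ (j - n') := by rw [hbdef]; push_cast; rfl
  have hQR : ((Q : ℕ) : ℝ) = 2 ^ (n' - n) := by rw [hQdef]; push_cast; rfl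
  have hbZ : ((b : ℕ) : ℤ) = 2 ^ (j - n') := by rw [hbdef]; push_cast; rfl
  have hQZ : ((Q : ℕ) : ℤ) = 2 ^ (n' - n) := by rw [hQdef]; push_cast; rfl
  have hj1 : (2 : ℕ) ^ j = 2 ^ n' * b := by rw [hbdef, ← pow_add, Nat.add_sub_cancel' hn']
  have hn1 : (2 : ℕ) ^ n' = 2 ^ n * Q := by rw [hQdef, ← pow_add, Nat.add_sub_cancel' hn]
  have hj1R : (2 : ℝ) ^ j = 2 ^ n' * b := by exact_mod_cast hj1
  have hn1R : (2 : ℝ) ^ n' = 2 ^ n * Q := by exact_mod_cast hn1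
  -- the two kinds of bad coordinates
  obtain ⟨R1, hR1⟩ : ∃ R1 : ℤ → Prop, ∀ r,
      (R1 r ↔ ((r : ℝ) < κ * b ∨ (b : ℝ) - κ * b < (r : ℝ) + 1)) := ⟨_, fun _ => Iff.rfl⟩
  obtain ⟨R4, hR4⟩ : ∃ R4 : ℤ → Prop, ∀ r,
      (R4 r ↔ ((r : ℝ) < 2 * κ * Q ∨ (Q : ℝ) - 2 * κ * Q < (r : ℝ) + 1)) := ⟨_, fun _ => Iff.rfl⟩
  let S1 : Fin d → Finset (Fin d → ℤ) := fun i =>
    (bx d (2 ^ j)).filter (fun p => (fun a : ℤ => R1 (a % b)) (p i))
  let S4 : Fin d → Finset (Fin d → ℤ) := fun i =>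
    (bx d (2 ^ j)).filter (fun p => (fun a : ℤ => R4 (a / b % Q)) (p i))
  let S2 : Finset (Fin d → ℤ) := (bx d (2 ^ j)).filter (fun p => (fun i => p i / (b : ℤ)) ∈ BadT)
  let S3 : Finset (Fin d → ℤ) :=
    (bx d (2 ^ j)).filter (fun p => (fun i => p i / ((b * Q : ℕ) : ℤ)) ∈ Bad)
  have hcover : (bx d (2 ^ j)).filter (fun p => ¬ KeptS κ n n' j Bad BadT p) ⊆
      (Finset.univ.biUnion S1 ∪ Finset.univ.biUnion S4) ∪ (S2 ∪ S3) := by
    intro p hp
    rw [Finset.mem_filter] at hp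
    obtain ⟨hp1, hp2⟩ := hp
    by_contra hcon
    apply hp2
    simp only [Finset.mem_union, Finset.mem_biUnion, Finset.mem_univ, true_and, not_or,
      not_exists] at hcon
    obtain ⟨⟨c1, c4⟩, c2, c3⟩ := hcon
    have d1 : ∀ i, ¬ R1 (p i % b) := fun i h => c1 i (Finset.mem_filter.2 ⟨hp1, h⟩)
    have d4 : ∀ i, ¬ R4 (p i / b % Q) := fun i h => c4 i (Finset.mem_filter.2 ⟨hp1, h⟩)
    have d2 : (fun i => p i / (b : ℤ)) ∉ BadT := fun h => c2 (Finset.mem_filter.2 ⟨hp1, h⟩)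
    have d3 : (fun i => p i / ((b * Q : ℕ) : ℤ)) ∉ Bad := fun h => c3 (Finset.mem_filter.2 ⟨hp1, h⟩)
    refine ⟨⟨?_, ?_, ?_, ?_⟩, ?_⟩
    · rw [zbox, Fintype.mem_piFinset]
      intro i
      rw [bx, Fintype.mem_piFinset] at hp1
      have h1 := hp1 i
      rw [Finset.mem_Ico, hj1] at h1
      push_cast at h1
      rw [Finset.mem_Ico, ← hbZ]
      have hbz : (0 : ℤ) < b := by exact_mod_cast hb0
      constructor
      · exact (Int.le_ediv_iff_mul_le hbz).2 (by linarith [h1.1])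
      · exact (Int.ediv_lt_iff_lt_mul hbz).2 h1.2
    · rw [← hbZ]
      exact d2
    · have h1 : par n n' (fun i => p i / 2 ^ (j - n')) = fun i => p i / ((b * Q : ℕ) : ℤ) := by
        funext i
        rw [par, Nat.cast_mul, ← hbZ, ← hQZ]
        exact Int.ediv_ediv_of_nonneg (Int.natCast_nonneg b)
      rw [h1]
      exact d3
    · intro x y hy hxy
      refine keptc_deep κ n n' hn _ (fun i => ?_) x y hy hxy
      have h1 := d4 i
      rw [hR4, not_or, not_lt, not_lt] at h1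
      rw [← hbZ, ← hQZ, ← hQR]
      exact h1
    · intro i
      have h1 := d1 i
      rw [hR1, not_or, not_lt, not_lt] at h1
      rw [← hbZ, ← hbR]
      refine ⟨h1.1, ?_⟩
      have h2 : (1 - κ) * (b : ℝ) = b - κ * b := by ring
      rw [h2]
      exact h1.2
  have hκb : (1 : ℝ) ≤ κ * b := by rw [hbR]; exact hb
  have hκQ : (1 : ℝ) ≤ κ * Q := by rw [hQR]; exact hQ
  have hM : (2 * ((2 ^ j : ℕ) : ℝ)) = 2 ^ (j + 1) := by
    push_cast
    ring
  have b1 : ∀ i, ((S1 i).card : ℝ) ≤ 4 * κ * (2 ^ (j + 1)) ^ d := by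
    intro i
    rw [← hM]
    refine le_trans (le_of_eq (congrArg (fun s : Finset (Fin d → ℤ) => (s.card : ℝ))
      (Finset.ext fun p => by simp only [S1, Finset.mem_filter])))
      (keptc_coord (2 ^ j) i (fun a : ℤ => R1 (a % b)) (4 * κ) ?_)
    have h1 := keptc_res b (2 ^ n') hb0 R1
    rw [← hj1] at h1
    have h2 : (((Finset.Ico (0 : ℤ) b).filter R1).card : ℝ) ≤ 2 * (κ * b + 1) :=
      le_trans (le_of_eq (congrArg (fun s : Finset ℤ => (s.card : ℝ))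
        (Finset.filter_congr fun r _ => hR1 r))) (keptc_bad b (κ * b) (by positivity))
    have h3 : (((Finset.Ico (-((2 ^ j : ℕ) : ℤ)) ((2 ^ j : ℕ) : ℤ)).filter
        (fun p => R1 (p % b))).card : ℝ) ≤
        (((Finset.Ico (0 : ℤ) b).filter R1).card : ℝ) * (2 * 2 ^ n') := by exact_mod_cast h1
    refine h3.trans ?_
    have h4 : (((Finset.Ico (0 : ℤ) b).filter R1).card : ℝ) ≤ 4 * (κ * b) :=
      h2.trans (by linarith)
    calc (((Finset.Ico (0 : ℤ) b).filter R1).card : ℝ) * (2 * 2 ^ n')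
        ≤ 4 * (κ * b) * (2 * 2 ^ n') := mul_le_mul_of_nonneg_right h4 (by positivity)
      _ = 4 * κ * (2 * ((2 ^ j : ℕ) : ℝ)) := by
        push_cast
        rw [hj1R]
        ring
  have b4 : ∀ i, ((S4 i).card : ℝ) ≤ 6 * κ * (2 ^ (j + 1)) ^ d := by
    intro i
    rw [← hM]
    refine le_trans (le_of_eq (congrArg (fun s : Finset (Fin d → ℤ) => (s.card : ℝ))
      (Finset.ext fun p => by simp only [S4, Finset.mem_filter])))
      (keptc_coord (2 ^ j) i (fun a : ℤ => R4 (a / b % Q)) (6 * κ) ?_)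
    have h0 := keptc_div b (2 ^ n') hb0 (fun z => R4 (z % Q))
    rw [← hj1] at h0
    have h1 := keptc_res Q (2 ^ n) hQ0 R4
    rw [← hn1] at h1
    have h2 : (((Finset.Ico (0 : ℤ) Q).filter R4).card : ℝ) ≤ 2 * (2 * κ * Q + 1) :=
      le_trans (le_of_eq (congrArg (fun s : Finset ℤ => (s.card : ℝ))
        (Finset.filter_congr fun r _ => hR4 r))) (keptc_bad Q (2 * κ * Q) (by positivity))
    have h3 : (((Finset.Ico (-((2 ^ n' : ℕ) : ℤ)) ((2 ^ n' : ℕ) : ℤ)).filter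
        (fun p => R4 (p % Q))).card : ℝ) ≤
        (((Finset.Ico (0 : ℤ) Q).filter R4).card : ℝ) * (2 * 2 ^ n) := by exact_mod_cast h1
    have h4 : (((Finset.Ico (0 : ℤ) Q).filter R4).card : ℝ) ≤ 6 * (κ * Q) :=
      h2.trans (by linarith)
    have h5 : (((Finset.Ico (-((2 ^ j : ℕ) : ℤ)) ((2 ^ j : ℕ) : ℤ)).filter
        (fun p => R4 (p / b % Q))).card : ℝ) ≤
        (((Finset.Ico (-((2 ^ n' : ℕ) : ℤ)) ((2 ^ n' : ℕ) : ℤ)).filter
          (fun p => R4 (p % Q))).card : ℝ) * b := by exact_mod_cast h0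
    refine h5.trans ?_
    calc (((Finset.Ico (-((2 ^ n' : ℕ) : ℤ)) ((2 ^ n' : ℕ) : ℤ)).filter
          (fun p => R4 (p % Q))).card : ℝ) * b
        ≤ (((Finset.Ico (0 : ℤ) Q).filter R4).card : ℝ) * (2 * 2 ^ n) * b :=
          mul_le_mul_of_nonneg_right h3 (by positivity)
      _ ≤ 6 * (κ * Q) * (2 * 2 ^ n) * b := by
          refine mul_le_mul_of_nonneg_right (mul_le_mul_of_nonneg_right h4 (by positivity))
            (by positivity)
      _ = 6 * κ * (2 * ((2 ^ j : ℕ) : ℝ)) := by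
        push_cast
        rw [hj1R, hn1R]
        ring
  have hjj : ((2 : ℝ) ^ j) ^ d ≤ (2 ^ (j + 1)) ^ d := by
    refine pow_le_pow_left₀ (by positivity) ?_ d
    exact pow_le_pow_right₀ (by norm_num) (Nat.le_succ j)
  have b2 : (S2.card : ℝ) ≤ δ * (2 ^ (j + 1)) ^ d := by
    have h1 : (S2.card : ℝ) ≤ ((b ^ d * BadT.card : ℕ) : ℝ) := by
      exact_mod_cast keptc_fib b (2 ^ j) hb0 BadT
    push_cast at h1
    calc (S2.card : ℝ) ≤ (b : ℝ) ^ d * BadT.card := h1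
      _ ≤ (b : ℝ) ^ d * (δ * (2 ^ n') ^ d) := mul_le_mul_of_nonneg_left hBadT (by positivity)
      _ = δ * ((2 : ℝ) ^ j) ^ d := by
        rw [hj1R, mul_pow]
        ring
      _ ≤ δ * (2 ^ (j + 1)) ^ d := mul_le_mul_of_nonneg_left hjj hδ
  have b3 : (S3.card : ℝ) ≤ δ * (2 ^ (j + 1)) ^ d := by
    have h1 : (S3.card : ℝ) ≤ (((b * Q) ^ d * Bad.card : ℕ) : ℝ) := by
      exact_mod_cast keptc_fib (b * Q) (2 ^ j) (Nat.mul_pos hb0 hQ0) Bad
    push_cast at h1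
    calc (S3.card : ℝ) ≤ ((b : ℝ) * Q) ^ d * Bad.card := h1
      _ ≤ ((b : ℝ) * Q) ^ d * (δ * (2 ^ n) ^ d) := mul_le_mul_of_nonneg_left hBad (by positivity)
      _ = δ * ((2 : ℝ) ^ j) ^ d := by
        rw [hj1R, hn1R, mul_pow, mul_pow, mul_pow]
        ring
      _ ≤ δ * (2 ^ (j + 1)) ^ d := mul_le_mul_of_nonneg_left hjj hδ
  have c1 : ((Finset.univ.biUnion S1).card : ℝ) ≤ d * (4 * κ * (2 ^ (j + 1)) ^ d) := by
    have h1 : ((Finset.univ.biUnion S1).card : ℝ) ≤ ∑ i : Fin d, ((S1 i).card : ℝ) := by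
      exact_mod_cast Finset.card_biUnion_le
    refine h1.trans ((Finset.sum_le_sum fun i _ => b1 i).trans ?_)
    rw [Finset.sum_const, Finset.card_univ, Fintype.card_fin, nsmul_eq_mul]
  have c4 : ((Finset.univ.biUnion S4).card : ℝ) ≤ d * (6 * κ * (2 ^ (j + 1)) ^ d) := by
    have h1 : ((Finset.univ.biUnion S4).card : ℝ) ≤ ∑ i : Fin d, ((S4 i).card : ℝ) := by
      exact_mod_cast Finset.card_biUnion_le
    refine h1.trans ((Finset.sum_le_sum fun i _ => b4 i).trans ?_)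
    rw [Finset.sum_const, Finset.card_univ, Fintype.card_fin, nsmul_eq_mul]
  have e1 := (Finset.card_le_card hcover).trans (Finset.card_union_le _ _)
  have e2 := Finset.card_union_le (Finset.univ.biUnion S1) (Finset.univ.biUnion S4)
  have e3 := Finset.card_union_le S2 S3
  have e4 : ((((bx d (2 ^ j)).filter (fun p => ¬ KeptS κ n n' j Bad BadT p)).card : ℕ) : ℝ) ≤
      (((Finset.univ.biUnion S1).card + (Finset.univ.biUnion S4).card + (S2.card + S3.card) : ℕ) : ℝ) := by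
    exact_mod_cast e1.trans (Nat.add_le_add e2 e3)
  push_cast at e4
  refine e4.trans ?_
  have e5 : (10 * κ * d + 2 * δ) * (2 ^ (j + 1)) ^ d =
      d * (4 * κ * (2 ^ (j + 1)) ^ d) + d * (6 * κ * (2 ^ (j + 1)) ^ d) +
        (δ * (2 ^ (j + 1)) ^ d + δ * (2 ^ (j + 1)) ^ d) := by ring
  rw [e5]
  linarith

end MP4fb

end
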