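import Pool.Agent.Lib.MP_4fbc34_pr.LimA

/-!
JOB LimB: the limit functional.

From `limit_dyadic` take `Dst`, and put
`D a b lam = sup {Dst τ | τ = (a', b', lam') a valid dyadic triple with lam' + ‖a - a'‖ + ‖b - b'‖ < lam}`, and
`0` if there is no such triple (use `sSup` of the set together with `0`).
`Nice D B`:
* nonneg, bdd: clear (`Dst τ <= B lam' <= B lam`).
* symm: the triple `(b', a', lam')` is admissible for `(b, a, lam)`, with the same value of `Dst`.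
* cone: the set for `(a, b, lam)` is contained in the set for `(a', b', lam')`.
* sup: let `(a', b', l')` be admissible for `(a, b, lam)` and `(b'', c'', l'')` for `(b, c, mu)` (they exist
  because `‖a - b‖ < lam`: dyadic points are dense; use them also when the sup is `0`).  Choose a dyadic number
  `l1` with `l'' + ‖b' - b''‖ <= l1` and `l1` so close that
  `l' + l1 + ‖a - a'‖ + ‖c - c''‖ < lam + mu` (possible since
  `l' + l'' + ‖b' - b''‖ + ‖a - a'‖ + ‖c - c''‖ < lam + mu` by the triangle inequality).  By monotonicity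
  `Dst (b'', c'', l'') <= Dst (b', c'', l1)`, and by superadditivity
  `Dst (a', b', l') + Dst (b', c'', l1) <= Dst (a', c'', l' + l1)`, which is admissible for `(a, c, lam + mu)`.
* meas: for fixed `lam` the set `{(a, b) | D a b lam > r}` is open for `r >= 0` (and everything for `r < 0`),
  since each admissible triple stays admissible nearby; compose with the continuous map `x ↦ (x, x + v)`.
`X.Lim M D`: given `Tup`, `Tlow`, `Z`, `ε`, `Nr`.  For each `t = (a, b, lam, lam+) ∈ Tup` choose a dyadic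
triple `τ = (a', b', lam')` with `lam + ‖a - a'‖ + ‖b - b'‖ <= lam'` and
`lam' + ‖a - a'‖ + ‖b - b'‖ < lam+`, so `Dst τ <= D a b lam+`; for each `(a, b, lam) ∈ Tlow` choose an
admissible dyadic triple `τ` with `D a b lam - ε / 4 <= Dst τ` (if `D a b lam = 0` any admissible one).  Apply the
last property of `limit_dyadic` to the finite set of these triples with `ε / 4` and `n0` with
`2⁻ⁿ⁰ <= ε / 4`, `Nr <= n0`.  Objects for `(a, b, lam)` in `S \ U` are objects for `τ` (`M.cone`), so their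
value is less than `(dat τ + 1) 2⁻ⁿ ℓ <= ℓ (Dst τ + ε / 4 + ε / 4)`.  Robust: `rob_mono` from `τ` to
`(a, b, lam)` and from `n` to `Nr`.
Finally the flags: each `A` is the union of at most `2 ^ card Z` classes according to the truth values of
`(S ∩ z).Nonempty`, `z ∈ Z`; one of the classes has weight at least `2 ^ (- card Z) pr A`; replace `A` by it and
`c` by `c * 2 ^ (- card Z)`.
-/

set_option autoImplicit false

open scoped ENNReal Classical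

noncomputable section

namespace MP4fb

private theorem lb_pow (δ : ℝ) (hδ : 0 < δ) : ∃ k : ℕ, (2⁻¹ : ℝ) ^ k < δ :=
  exists_pow_lt_of_lt_one hδ (by norm_num)

private theorem lb_dyR (x y : ℝ) (h : x < y) : ∃ r : ℝ, DyR r ∧ x ≤ r ∧ r < y := by
  obtain ⟨k, hk⟩ := lb_pow (y - x) (sub_pos.2 h)
  have h2 : (0 : ℝ) < 2 ^ k := by positivity
  have h3 : (2⁻¹ : ℝ) ^ k = 1 / 2 ^ k := by rw [inv_pow, one_div]
  refine ⟨(⌊2 ^ k * x⌋ + 1 : ℤ) / 2 ^ k, ⟨k, ⌊2 ^ k * x⌋ + 1, ?_⟩, ?_, ?_⟩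
  · rw [mul_div_cancel₀ _ h2.ne']
  · rw [le_div_iff₀ h2]
    push_cast
    have := Int.lt_floor_add_one (2 ^ k * x)
    linarith
  · rw [div_lt_iff₀ h2]
    push_cast
    have h4 := Int.floor_le (2 ^ k * x)
    rw [h3, div_lt_iff₀ h2] at hk
    nlinarith

private theorem lb_add (x y : ℝ) (hx : DyR x) (hy : DyR y) : DyR (x + y) := by
  obtain ⟨k, z, hz⟩ := hx
  obtain ⟨k', z', hz'⟩ := hy
  refine ⟨k + k', 2 ^ k' * z + 2 ^ k * z', ?_⟩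
  push_cast
  rw [← hz, ← hz', pow_add]
  ring

private theorem lb_dy {d : ℕ} (a : E d) (δ : ℝ) (hδ : 0 < δ) : ∃ a' : E d, Dy a' ∧ ‖a - a'‖ < δ := by
  have hd : (0 : ℝ) < (d : ℝ) + 1 := by positivity
  obtain ⟨k, hk⟩ := lb_pow (δ / ((d : ℝ) + 1)) (div_pos hδ hd)
  have h2 : (0 : ℝ) < 2 ^ k := by positivity
  have h3 : (2⁻¹ : ℝ) ^ k = 1 / 2 ^ k := by rw [inv_pow, one_div]
  rw [h3] at hk
  refine ⟨WithLp.toLp 2 (fun i => (⌊2 ^ k * a i⌋ : ℝ) / 2 ^ k), ⟨k, fun i => ⌊2 ^ k * a i⌋, fun i => ?_⟩, ?_⟩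
  · show (2 : ℝ) ^ k * ((⌊2 ^ k * a i⌋ : ℝ) / 2 ^ k) = _
    rw [mul_div_cancel₀ _ h2.ne']
  · have hi : ∀ i, |(a - WithLp.toLp 2 (fun i => (⌊2 ^ k * a i⌋ : ℝ) / 2 ^ k)) i| ≤ 1 / 2 ^ k := by
      intro i
      show |a i - (⌊2 ^ k * a i⌋ : ℝ) / 2 ^ k| ≤ 1 / 2 ^ k
      have h4 := Int.floor_le (2 ^ k * a i)
      have h5 := Int.lt_floor_add_one (2 ^ k * a i)
      have h6 : a i - (⌊2 ^ k * a i⌋ : ℝ) / 2 ^ k = (2 ^ k * a i - ⌊2 ^ k * a i⌋) / 2 ^ k := by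
        field_simp
      rw [h6, abs_div, abs_of_pos h2]
      apply div_le_div_of_nonneg_right _ h2.le
      rw [abs_le]
      constructor <;> linarith
    have h7 : ‖a - WithLp.toLp 2 (fun i => (⌊2 ^ k * a i⌋ : ℝ) / 2 ^ k)‖ ≤ ((d : ℝ) + 1) * (1 / 2 ^ k) := by
      rw [EuclideanSpace.norm_eq]
      apply Real.sqrt_le_iff.2
      refine ⟨by positivity, ?_⟩
      calc ∑ i, ‖(a - WithLp.toLp 2 (fun i => (⌊2 ^ k * a i⌋ : ℝ) / 2 ^ k)) i‖ ^ 2 ≤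
          ∑ i : Fin d, (1 / 2 ^ k : ℝ) ^ 2 := by
            refine Finset.sum_le_sum fun i _ => ?_
            rw [Real.norm_eq_abs]
            exact pow_le_pow_left₀ (abs_nonneg _) (hi i) 2
        _ = d * (1 / 2 ^ k : ℝ) ^ 2 := by rw [Finset.sum_const, Finset.card_univ, Fintype.card_fin, nsmul_eq_mul]
        _ ≤ (((d : ℝ) + 1) * (1 / 2 ^ k)) ^ 2 := by
            rw [mul_pow]
            apply mul_le_mul_of_nonneg_right _ (sq_nonneg _)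
            nlinarith [(Nat.cast_nonneg d : (0 : ℝ) ≤ (d : ℝ))]
    refine lt_of_le_of_lt h7 ?_
    rw [lt_div_iff₀ hd] at hk
    linarith

/-- a dyadic triple near `(a, b, lam)` -/
private theorem lb_near {d : ℕ} (a b : E d) (lam lam' : ℝ) (h : ‖a - b‖ ≤ lam) (h' : lam < lam') :
    ∃ τ : E d × E d × ℝ, DyT τ ∧ lam + ‖a - τ.1‖ + ‖b - τ.2.1‖ ≤ τ.2.2 ∧
      τ.2.2 + ‖a - τ.1‖ + ‖b - τ.2.1‖ < lam' := by
  have hη : 0 < (lam' - lam) / 5 := by linarith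
  obtain ⟨a', ha', ha⟩ := lb_dy a _ hη
  obtain ⟨b', hb', hb⟩ := lb_dy b _ hη
  obtain ⟨r, hr, h1, h2⟩ := lb_dyR (lam + ‖a - a'‖ + ‖b - b'‖) (lam + ‖a - a'‖ + ‖b - b'‖ + (lam' - lam) / 5)
    (by linarith)
  refine ⟨(a', b', r), ⟨ha', hb', hr, ?_⟩, h1, ?_⟩
  · show ‖a' - b'‖ ≤ r
    have h3 : ‖a' - b'‖ ≤ ‖a' - a‖ + ‖a - b'‖ := norm_sub_le_norm_sub_add_norm_sub a' a b'
    have h4 : ‖a - b'‖ ≤ ‖a - b‖ + ‖b - b'‖ := norm_sub_le_norm_sub_add_norm_sub a b b'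
    rw [norm_sub_rev a' a] at h3
    linarith
  · show r + ‖a - a'‖ + ‖b - b'‖ < lam'
    linarith

/-- admissible triples -/
private def lbAd {d : ℕ} (a b : E d) (lam : ℝ) (τ : E d × E d × ℝ) : Prop :=
  DyT τ ∧ τ.2.2 + ‖a - τ.1‖ + ‖b - τ.2.1‖ < lam

private def lbVs {d : ℕ} (Dst : E d × E d × ℝ → ℝ) (a b : E d) (lam : ℝ) : Set ℝ :=
  insert 0 {r | ∃ τ, lbAd a b lam τ ∧ Dst τ = r}

private def lbD {d : ℕ} (Dst : E d × E d × ℝ → ℝ) (a b : E d) (lam : ℝ) : ℝ := sSup (lbVs Dst a b lam)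

section

variable {d : ℕ} {Dst : E d × E d × ℝ → ℝ} {B : ℝ}

private theorem lb_bdd (hB : 0 < B) (hbd : ∀ τ, DyT τ → 0 ≤ Dst τ ∧ Dst τ ≤ B * τ.2.2) (a b : E d) (lam : ℝ) :
    ∀ r ∈ lbVs Dst a b lam, r ≤ B * |lam| := by
  rintro r (rfl | ⟨τ, ⟨h1, h2⟩, rfl⟩)
  · positivity
  · refine (hbd τ h1).2.trans (mul_le_mul_of_nonneg_left ?_ hB.le)
    have h3 := norm_nonneg (a - τ.1)
    have h4 := norm_nonneg (b - τ.2.1)
    have h5 := le_abs_self lam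
    linarith

private theorem lb_BddAbove (hB : 0 < B) (hbd : ∀ τ, DyT τ → 0 ≤ Dst τ ∧ Dst τ ≤ B * τ.2.2) (a b : E d) (lam : ℝ) :
    BddAbove (lbVs Dst a b lam) := ⟨_, lb_bdd hB hbd a b lam⟩

private theorem lb_le (hB : 0 < B) (hbd : ∀ τ, DyT τ → 0 ≤ Dst τ ∧ Dst τ ≤ B * τ.2.2) {a b : E d} {lam : ℝ}
    {τ : E d × E d × ℝ} (h : lbAd a b lam τ) : Dst τ ≤ lbD Dst a b lam :=
  le_csSup (lb_BddAbove hB hbd a b lam) (Or.inr ⟨τ, h, rfl⟩)

private theorem lb_nonneg (hB : 0 < B) (hbd : ∀ τ, DyT τ → 0 ≤ Dst τ ∧ Dst τ ≤ B * τ.2.2) (a b : E d) (lam : ℝ) :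
    0 ≤ lbD Dst a b lam := le_csSup (lb_BddAbove hB hbd a b lam) (Or.inl rfl)

private theorem lb_sup {a b : E d} {lam x : ℝ} (h0 : 0 ≤ x) (h : ∀ τ, lbAd a b lam τ → Dst τ ≤ x) :
    lbD Dst a b lam ≤ x := by
  refine csSup_le ⟨0, Or.inl rfl⟩ ?_
  rintro r (rfl | ⟨τ, h1, rfl⟩)
  · exact h0
  · exact h τ h1

private theorem lb_ex {a b : E d} {lam : ℝ} (h : ‖a - b‖ < lam) : ∃ τ, lbAd a b lam τ := by
  obtain ⟨τ, h1, _, h3⟩ := lb_near a b ‖a - b‖ lam le_rfl h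
  exact ⟨τ, h1, h3⟩

private theorem lb_approx (hbd : ∀ τ, DyT τ → 0 ≤ Dst τ ∧ Dst τ ≤ B * τ.2.2) {a b : E d}
    {lam ε : ℝ} (h : ‖a - b‖ < lam) (hε : 0 < ε) : ∃ τ, lbAd a b lam τ ∧ lbD Dst a b lam - ε < Dst τ := by
  obtain ⟨r, hr, hr2⟩ := exists_lt_of_lt_csSup (s := lbVs Dst a b lam) ⟨0, Or.inl rfl⟩
    (show lbD Dst a b lam - ε < sSup (lbVs Dst a b lam) from by
      show lbD Dst a b lam - ε < lbD Dst a b lam
      linarith)
  rcases hr with rfl | ⟨τ, h1, rfl⟩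
  · obtain ⟨τ, hτ⟩ := lb_ex h
    exact ⟨τ, hτ, lt_of_lt_of_le hr2 (hbd τ hτ.1).1⟩
  · exact ⟨τ, h1, hr2⟩

private theorem lb_symm (hB : 0 < B) (hbd : ∀ τ, DyT τ → 0 ≤ Dst τ ∧ Dst τ ≤ B * τ.2.2)
    (hsymm : ∀ τ1 τ2, DyT τ1 → DyT τ2 → τ2.1 = τ1.2.1 → τ2.2.1 = τ1.1 → τ2.2.2 = τ1.2.2 → Dst τ1 = Dst τ2)
    (a b : E d) (lam : ℝ) : lbD Dst a b lam ≤ lbD Dst b a lam := by
  refine lb_sup (lb_nonneg hB hbd b a lam) ?_
  rintro ⟨a', b', r⟩ ⟨h1, h2⟩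
  have h3 : DyT (b', a', r) := ⟨h1.2.1, h1.1, h1.2.2.1, by
    have := h1.2.2.2
    rw [norm_sub_rev] at this
    exact this⟩
  rw [hsymm (a', b', r) (b', a', r) h1 h3 rfl rfl rfl]
  refine lb_le hB hbd ⟨h3, ?_⟩
  show r + ‖b - b'‖ + ‖a - a'‖ < lam
  have h4 : r + ‖a - a'‖ + ‖b - b'‖ < lam := h2
  linarith

private theorem lb_nice (hB : 0 < B) (hbd : ∀ τ, DyT τ → 0 ≤ Dst τ ∧ Dst τ ≤ B * τ.2.2)
    (hsup : ∀ τ1 τ2 τ3, DyT τ1 → DyT τ2 → DyT τ3 → τ1.2.1 = τ2.1 → τ3.1 = τ1.1 → τ3.2.1 = τ2.2.1 →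
        τ3.2.2 = τ1.2.2 + τ2.2.2 → Dst τ1 + Dst τ2 ≤ Dst τ3)
    (hmono : ∀ τ1 τ2, DyT τ1 → DyT τ2 → τ1.2.2 + ‖τ1.1 - τ2.1‖ + ‖τ1.2.1 - τ2.2.1‖ ≤ τ2.2.2 →
        Dst τ1 ≤ Dst τ2)
    (hsymm : ∀ τ1 τ2, DyT τ1 → DyT τ2 → τ2.1 = τ1.2.1 → τ2.2.1 = τ1.1 → τ2.2.2 = τ1.2.2 → Dst τ1 = Dst τ2) :
    Nice (lbD Dst) B where
  C0_nonneg := hB.le
  nonneg := lb_nonneg hB hbd
  bdd := fun a b lam hlam => by
    refine csSup_le ⟨0, Or.inl rfl⟩ fun r hr => ?_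
    have := lb_bdd hB hbd a b lam r hr
    rwa [abs_of_nonneg hlam] at this
  sup := fun a b c lam mu hab hbc => by
    apply le_of_forall_pos_le_add
    intro ε hε
    obtain ⟨⟨a', b', l'⟩, ⟨h1, h2⟩, h3⟩ := lb_approx (Dst := Dst) (B := B) hbd hab (half_pos hε)
    obtain ⟨⟨b'', c'', l''⟩, ⟨h1', h2'⟩, h3'⟩ := lb_approx (Dst := Dst) (B := B) hbd hbc (half_pos hε)
    have h2 : l' + ‖a - a'‖ + ‖b - b'‖ < lam := h2
    have h2' : l'' + ‖b - b''‖ + ‖c - c''‖ < mu := h2'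
    have hv : ‖a' - b'‖ ≤ l' := h1.2.2.2
    have hv' : ‖b'' - c''‖ ≤ l'' := h1'.2.2.2
    have ht1 : ‖b' - b''‖ ≤ ‖b' - b‖ + ‖b - b''‖ := norm_sub_le_norm_sub_add_norm_sub b' b b''
    rw [norm_sub_rev b' b] at ht1
    obtain ⟨l1, hl1, h4, h5⟩ := lb_dyR (l'' + ‖b' - b''‖) (lam + mu - l' - ‖a - a'‖ - ‖c - c''‖) (by linarith)
    have ht2 : ‖b' - c''‖ ≤ ‖b' - b''‖ + ‖b'' - c''‖ := norm_sub_le_norm_sub_add_norm_sub b' b'' c''
    have ht3 : ‖a' - c''‖ ≤ ‖a' - b'‖ + ‖b' - c''‖ := norm_sub_le_norm_sub_add_norm_sub a' b' c''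
    have hd4 : DyT (b', c'', l1) := ⟨h1.2.1, h1'.2.1, hl1, by
      show ‖b' - c''‖ ≤ l1
      linarith⟩
    have hd3 : DyT (a', c'', l' + l1) := ⟨h1.1, h1'.2.1, lb_add _ _ h1.2.2.1 hl1, by
      show ‖a' - c''‖ ≤ l' + l1
      linarith⟩
    have h6 : Dst (b'', c'', l'') ≤ Dst (b', c'', l1) := hmono _ _ h1' hd4 (by
      show l'' + ‖b'' - b'‖ + ‖c'' - c''‖ ≤ l1
      rw [sub_self, norm_zero, norm_sub_rev b'' b']
      linarith)
    have h7 : Dst (a', b', l') + Dst (b', c'', l1) ≤ Dst (a', c'', l' + l1) :=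
      hsup _ _ _ h1 hd4 hd3 rfl rfl rfl rfl
    have h8 : Dst (a', c'', l' + l1) ≤ lbD Dst a c (lam + mu) := lb_le hB hbd ⟨hd3, by
      show l' + l1 + ‖a - a'‖ + ‖c - c''‖ < lam + mu
      linarith⟩
    linarith
  cone := fun a b a' b' lam lam' h => by
    refine lb_sup (lb_nonneg hB hbd a' b' lam') ?_
    rintro τ ⟨h1, h2⟩
    refine lb_le hB hbd ⟨h1, ?_⟩
    have h3 : ‖a' - τ.1‖ ≤ ‖a' - a‖ + ‖a - τ.1‖ := norm_sub_le_norm_sub_add_norm_sub a' a τ.1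
    have h4 : ‖b' - τ.2.1‖ ≤ ‖b' - b‖ + ‖b - τ.2.1‖ := norm_sub_le_norm_sub_add_norm_sub b' b τ.2.1
    rw [norm_sub_rev a' a] at h3
    rw [norm_sub_rev b' b] at h4
    linarith
  symm := fun a b lam => le_antisymm (lb_symm hB hbd hsymm a b lam) (lb_symm hB hbd hsymm b a lam)
  meas := fun v lam => by
    refine measurable_of_Ioi fun r => ?_
    apply IsOpen.measurableSet
    by_cases hr : r < 0
    · have : (fun x => lbD Dst x (x + v) lam) ⁻¹' Set.Ioi r = Set.univ := by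
        ext x
        simp only [Set.mem_preimage, Set.mem_Ioi, Set.mem_univ, iff_true]
        exact lt_of_lt_of_le hr (lb_nonneg hB hbd _ _ _)
      rw [this]
      exact isOpen_univ
    · have : (fun x => lbD Dst x (x + v) lam) ⁻¹' Set.Ioi r =
          ⋃ τ : E d × E d × ℝ, ⋃ _ : DyT τ ∧ r < Dst τ, {x : E d | τ.2.2 + ‖x - τ.1‖ + ‖x + v - τ.2.1‖ < lam} := by
        ext x
        simp only [Set.mem_preimage, Set.mem_Ioi, Set.mem_iUnion, exists_prop, Set.mem_ofPred_eq]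
        constructor
        · intro h
          obtain ⟨y, hy, hy2⟩ := exists_lt_of_lt_csSup (s := lbVs Dst x (x + v) lam) ⟨0, Or.inl rfl⟩ h
          rcases hy with rfl | ⟨τ, h1, rfl⟩
          · exact absurd hy2 hr
          · exact ⟨τ, ⟨h1.1, hy2⟩, h1.2⟩
        · rintro ⟨τ, ⟨h1, h2⟩, h3⟩
          exact lt_of_lt_of_le h2 (lb_le hB hbd ⟨h1, h3⟩)
      rw [this]
      refine isOpen_iUnion fun τ => isOpen_iUnion fun _ => ?_
      exact isOpen_lt (by fun_prop) continuous_const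

end

private theorem lb_pigeon {d : ℕ} (X : Sq d) (k : ℕ) (A : Set (X.Ω k)) (Z : Finset (Set (E d))) :
    ∃ A' ⊆ A, (2⁻¹ : ℝ) ^ Z.card * X.pr k A ≤ X.pr k A' ∧
      ∀ ω ∈ A', ∀ ω' ∈ A', ∀ z ∈ Z, (X.S k ω ∩ z).Nonempty ↔ (X.S k ω' ∩ z).Nonempty := by
  by_contra hcon
  push Not at hcon
  have h1 : X.pr k A = ∑ F ∈ Z.powerset, X.pr k {ω | ω ∈ A ∧ Z.filter (fun z => (X.S k ω ∩ z).Nonempty) = F} := by
    unfold Sq.pr
    rw [Finset.sum_comm]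
    refine Finset.sum_congr rfl fun ω _ => ?_
    by_cases hω : ω ∈ A
    · rw [if_pos hω]
      symm
      rw [Finset.sum_eq_single (Z.filter (fun z => (X.S k ω ∩ z).Nonempty))]
      · rw [if_pos]
        exact ⟨hω, rfl⟩
      · intro F _ hF
        rw [if_neg]
        rintro ⟨_, h⟩
        exact hF h.symm
      · intro h
        exact absurd (Finset.mem_powerset.2 (Finset.filter_subset _ _)) h
    · rw [if_neg hω]
      refine (Finset.sum_eq_zero fun F _ => ?_).symm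
      rw [if_neg]
      rintro ⟨h, _⟩
      exact hω h
  have h2 : ∀ F ∈ Z.powerset, X.pr k {ω | ω ∈ A ∧ Z.filter (fun z => (X.S k ω ∩ z).Nonempty) = F} <
      (2⁻¹ : ℝ) ^ Z.card * X.pr k A := by
    intro F _
    by_contra h3
    rw [not_lt] at h3
    obtain ⟨ω, hω, ω', hω', z, hz, h4⟩ := hcon _ (fun ω hω => hω.1) h3
    have e1 : Z.filter (fun z => (X.S k ω ∩ z).Nonempty) = Z.filter (fun z => (X.S k ω' ∩ z).Nonempty) :=
      hω.2.trans hω'.2.symm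
    have e2 : z ∈ Z.filter (fun z => (X.S k ω ∩ z).Nonempty) ↔ z ∈ Z.filter (fun z => (X.S k ω' ∩ z).Nonempty) := by
      rw [e1]
    rw [Finset.mem_filter, Finset.mem_filter] at e2
    simp only [← Set.not_nonempty_iff_eq_empty] at h4
    tauto
  have h3 := Finset.sum_lt_sum_of_nonempty ⟨∅, Finset.empty_mem_powerset Z⟩ h2
  rw [← h1, Finset.sum_const, Finset.card_powerset, nsmul_eq_mul] at h3
  push_cast at h3
  rw [← mul_assoc, ← mul_pow, mul_inv_cancel₀ (by norm_num : (2 : ℝ) ≠ 0), one_pow, one_mul] at h3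
  exact lt_irrefl _ h3

variable {d : ℕ} (M : Model d) (hM : M.Ok)

include hM

theorem limit_functional (X : Sq d) (B : ℝ) (hX : X.Ok M B) (hpos : ∀ k, 0 < X.pr k (X.Ev k)) :
    ∃ D : E d → E d → ℝ → ℝ, Nice D B ∧ X.Lim M D := by
  obtain ⟨Dst, g, dat, hgv, hgm, hbd, hsup, hmono, hsymm, hfin⟩ := limit_dyadic M hM X B hX hpos
  have hB := hX.B_pos
  refine ⟨lbD Dst, lb_nice hB hbd hsup hmono hsymm, ?_⟩
  intro Tup Tlow Z ε Nr hε hTup hTlow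
  have hε4 : 0 < ε / 4 := by linarith
  have hu : ∀ t : E d × E d × ℝ × ℝ, ∃ τ : E d × E d × ℝ, t ∈ Tup → DyT τ ∧
      t.2.2.1 + ‖t.1 - τ.1‖ + ‖t.2.1 - τ.2.1‖ ≤ τ.2.2 ∧ τ.2.2 + ‖t.1 - τ.1‖ + ‖t.2.1 - τ.2.1‖ < t.2.2.2 := by
    intro t
    by_cases ht : t ∈ Tup
    · obtain ⟨τ, h1, h2, h3⟩ := lb_near t.1 t.2.1 t.2.2.1 t.2.2.2 (hTup t ht).1 (hTup t ht).2
      exact ⟨τ, fun _ => ⟨h1, h2, h3⟩⟩
    · exact ⟨(0, 0, 0), fun h => absurd h ht⟩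
  choose fu hfu using hu
  have hl : ∀ t : E d × E d × ℝ, ∃ τ : E d × E d × ℝ, t ∈ Tlow →
      lbAd t.1 t.2.1 t.2.2 τ ∧ lbD Dst t.1 t.2.1 t.2.2 - ε / 4 < Dst τ := by
    intro t
    by_cases ht : t ∈ Tlow
    · obtain ⟨τ, h1, h2⟩ := lb_approx (Dst := Dst) (B := B) hbd (hTlow t ht) hε4
      exact ⟨τ, fun _ => ⟨h1, h2⟩⟩
    · exact ⟨(0, 0, 0), fun h => absurd h ht⟩
  choose fl hfl using hl
  obtain ⟨n1, hn1⟩ := lb_pow (ε / 4) hε4
  obtain ⟨n, hn, hTg, hdat, c, CU, hc, hfreq⟩ := hfin (Tup.image fu ∪ Tlow.image fl) (ε / 4) (max n1 Nr) (by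
    intro τ hτ
    rcases Finset.mem_union.1 hτ with h | h
    · obtain ⟨t, ht, rfl⟩ := Finset.mem_image.1 h
      exact (hfu t ht).1
    · obtain ⟨t, ht, rfl⟩ := Finset.mem_image.1 h
      exact (hfl t ht).1.1) hε4
  have hn2 : (2⁻¹ : ℝ) ^ n ≤ ε / 4 :=
    (pow_le_pow_of_le_one (by norm_num) (by norm_num) ((le_max_left _ _).trans hn)).trans hn1.le
  have hn3 : Nr ≤ n := (le_max_right _ _).trans hn
  refine ⟨c * (2⁻¹ : ℝ) ^ Z.card, CU, by positivity, hfreq.mono ?_⟩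
  rintro k ⟨A, hA, hAc, hAd⟩
  obtain ⟨A', hA', hA'c, hA'z⟩ := lb_pigeon X k A Z
  have hell : 0 ≤ X.ell k := zero_le_one.trans (hX.ell_one k)
  refine ⟨A', hA'.trans hA, ?_, ?_, ?_, hA'z⟩
  · refine le_trans ?_ hA'c
    have h2 : (0 : ℝ) ≤ (2⁻¹ : ℝ) ^ Z.card := by positivity
    have h3 := mul_le_mul_of_nonneg_left hAc h2
    linarith
  · intro ω hω
    have hok := hAd ω (hA' hω)
    obtain ⟨U, hU1, hU2, hU3⟩ := hok.upper
    refine ⟨U, hU1, hU2, ?_⟩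
    intro t ht C κ hO
    obtain ⟨h1, h2, h3⟩ := hfu t ht
    have hmem : fu t ∈ Tup.image fu ∪ Tlow.image fl :=
      Finset.mem_union_left _ (Finset.mem_image_of_mem _ ht)
    have h4 := hU3 (fu t) (hTg hmem) C κ (hM.cone _ _ _ _ _ _ _ _ _ hO h2)
    have h5 := (abs_le.1 (hdat (fu t) hmem)).2
    have h6 : Dst (fu t) ≤ lbD Dst t.1 t.2.1 t.2.2.2 := lb_le hB hbd ⟨h1, h3⟩
    have h7 : ((dat n (fu t) : ℝ) + 1) * (2⁻¹ : ℝ) ^ n * X.ell k ≤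
        X.ell k * (lbD Dst t.1 t.2.1 t.2.2.2 + ε) := by
      rw [mul_comm (X.ell k)]
      apply mul_le_mul_of_nonneg_right _ hell
      linarith
    exact h4.le.trans h7
  · intro ω hω t ht
    have hok := hAd ω (hA' hω)
    obtain ⟨⟨h1, h2⟩, h3⟩ := hfl t ht
    have hmem : fl t ∈ Tup.image fu ∪ Tlow.image fl :=
      Finset.mem_union_right _ (Finset.mem_image_of_mem _ ht)
    have h4 := hok.lower (fl t) (hTg hmem)
    have h5 := (abs_le.1 (hdat (fl t) hmem)).1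
    refine rob_mono M hM _ _ Nr n _ _ _ _ _ _ _ _ hn3 ?_ ?_ h4
    · rw [norm_sub_rev (fl t).1, norm_sub_rev (fl t).2.1]
      exact h2.le
    · rw [mul_comm (X.ell k)]
      apply mul_le_mul_of_nonneg_right _ hell
      linarith

end MP4fb

end
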