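import Mathlib

/-!
JOB DelP: two lemmas on finite product weights.
* `del_prob`: deleting at most `M0` sites.  For `f ∈ A` choose `U_f` and let `f' = f` deleted on `U_f`.  Then
  `∏ w (f x) <= p0^(-card U_f) ∏ w (f' x) <= p0^(-M0) ∏ w (f' x)` (`w <= 1`, `w none >= p0`, `p0 <= 1`), and `f` is
  determined by `f'`, `U_f` and the values of `f` on `U_f`; the pair (set of at most `M0` sites, values in
  `Option A` on it) can be encoded by a function `Fin M0 → Option (J × Option A)`, of which there are
  `(card J * (card A + 1) + 1)^M0 <= ((card J + 1) * (card A + 1))^M0`.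
* `copies_prob`: if `g : I × K → J` is injective, the sum over all `f : J → V` such that each
  `k ↦ f (g (i, k))` is in `A` and `f = v0` outside the range of `g` is
  `(∑_{τ ∈ A} ∏ w)^(card I) * (w v0)^(card J - card I * card K)`.  (Bijection of such `f` with families
  `I → A`; `Finset.prod_univ_sum` or `Fintype.piFinset`; only `>=` is claimed.)
* `restrict_prob`: forgetting sites: if `A ⊆ (B → V)` and `A'` contains all restrictions to `K` of members of
  `A`, then the weight of `A` is at most that of `A'` (total mass one on the other sites).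
-/

set_option autoImplicit false

open scoped Classical

noncomputable section

namespace MP4fb

/-- weight of a set of functions -/
def pw {J V : Type} [Fintype J] [Fintype V] (w : V → ℝ) (A : Set (J → V)) : ℝ :=
  ∑ f : J → V, if f ∈ A then ∏ x, w (f x) else 0

/-- Splitting a sum over functions on `J` along an injective map into `J`. -/
private theorem sum_split {K J V : Type} [Fintype K] [Fintype J] [Fintype V] (g : K → J)
    (hg : Function.Injective g) (Φ : (K → V) → ({y : J // ¬ y ∈ Set.range g} → V) → ℝ) :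
    ∑ f : J → V, Φ (fun k => f (g k)) (fun y => f y) = ∑ τ : K → V, ∑ ρ, Φ τ ρ := by
  let e : (J → V) ≃ (K → V) × ({y : J // ¬ y ∈ Set.range g} → V) :=
    (Equiv.piEquivPiSubtypeProd (fun y : J => y ∈ Set.range g) (fun _ => V)).trans
      (Equiv.prodCongr ((Equiv.ofInjective g hg).symm.arrowCongr (Equiv.refl V)) (Equiv.refl _))
  exact (Fintype.sum_equiv e (fun f => Φ (fun k => f (g k)) (fun y => f y))
    (fun p => Φ p.1 p.2) (fun f => rfl)).trans (Fintype.sum_prod_type _)

private theorem prod_split {K J V : Type} [Fintype K] [Fintype J] (g : K → J)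
    (hg : Function.Injective g) (w : V → ℝ) (f : J → V) :
    ∏ x, w (f x) = (∏ k, w (f (g k))) * ∏ y : {y : J // ¬ y ∈ Set.range g}, w (f y) := by
  rw [← Fintype.prod_subtype_mul_prod_subtype (fun y : J => y ∈ Set.range g) (fun x => w (f x))]
  congr 1
  refine Eq.trans (Finset.prod_congr ?_ fun _ _ => rfl)
    (Fintype.prod_equiv (Equiv.ofInjective g hg) (fun k => w (f (g k)))
      (fun x : {y : J // y ∈ Set.range g} => w (f x)) (fun k => rfl)).symm
  ext x
  simp only [Finset.mem_univ]

private theorem sum_prod_pow {J V : Type} [Fintype J] [Fintype V] [inst : Fintype (J → V)]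
    (w : V → ℝ) : ∑ ρ : J → V, ∏ y, w (ρ y) = (∑ v, w v) ^ Fintype.card J := by
  have h := Finset.prod_univ_sum (fun _ : J => (Finset.univ : Finset V)) (fun _ v => w v)
  rw [Fintype.piFinset_univ, Finset.prod_const, Finset.card_univ] at h
  rw [h]
  refine Finset.sum_congr ?_ fun _ _ => rfl
  ext ρ
  simp only [Finset.mem_univ]

theorem pw_mono {J V : Type} [Fintype J] [Fintype V] (w : V → ℝ) (hw : ∀ x, 0 ≤ w x)
    (A A' : Set (J → V)) (h : A ⊆ A') : pw w A ≤ pw w A' := by
  unfold pw
  refine Finset.sum_le_sum fun f _ => ?_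
  by_cases hf : f ∈ A
  · rw [if_pos hf, if_pos (h hf)]
  · rw [if_neg hf]
    split_ifs
    · exact Finset.prod_nonneg fun x _ => hw _
    · exact le_refl _

private theorem card_near {J V : Type} [Fintype J] [Fintype V] (g : J → V) (M0 : ℕ)
    (F : Finset (J → V)) (U : (J → V) → Finset J) (hU : ∀ f ∈ F, (U f).card ≤ M0)
    (hg : ∀ f ∈ F, ∀ x, x ∉ U f → f x = g x) :
    F.card ≤ (Fintype.card J * Fintype.card V + 1) ^ M0 := by
  have hc : ∀ f ∈ F, ∃ c : Fin M0 → Option (J × V), (∀ i x v, c i = some (x, v) → v = f x) ∧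
      ∀ x ∈ U f, ∃ i, c i = some (x, f x) := by
    intro f hf
    obtain ⟨e⟩ : Nonempty (U f ↪ Fin M0) := by
      apply Function.Embedding.nonempty_of_card_le
      rw [Fintype.card_coe, Fintype.card_fin]
      exact hU f hf
    refine ⟨fun i => if h : ∃ x : U f, e x = i then some (h.choose.1, f h.choose.1) else none,
      ?_, ?_⟩
    · intro i x v h
      simp only at h
      split_ifs at h with h1
      rw [Option.some.injEq, Prod.mk.injEq] at h
      rw [← h.2, ← h.1]
    · intro x hx
      refine ⟨e ⟨x, hx⟩, ?_⟩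
      have h1 : ∃ y : U f, e y = e ⟨x, hx⟩ := ⟨_, rfl⟩
      have h2 : h1.choose = ⟨x, hx⟩ := e.injective h1.choose_spec
      simp only
      rw [dif_pos h1, h2]
  choose! c hc1 hc2 using hc
  have h1 : F.card ≤ (Finset.univ : Finset (Fin M0 → Option (J × V))).card := by
    refine Finset.card_le_card_of_injOn c (fun _ _ => Finset.mem_coe.2 (Finset.mem_univ _)) ?_
    intro f hf f' hf' h
    rw [Finset.mem_coe] at hf hf'
    funext x
    by_cases h1 : x ∈ U f
    · obtain ⟨i, hi⟩ := hc2 f hf x h1
      rw [h] at hi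
      exact hc1 f' hf' i x _ hi
    · by_cases h2 : x ∈ U f'
      · obtain ⟨i, hi⟩ := hc2 f' hf' x h2
        rw [← h] at hi
        exact (hc1 f hf i x _ hi).symm
      · rw [hg f hf x h1, hg f' hf' x h2]
  refine h1.trans (le_of_eq ?_)
  rw [Finset.card_univ, Fintype.card_fun, Fintype.card_option, Fintype.card_prod,
    Fintype.card_fin]

theorem del_prob {J A0 : Type} [Fintype J] [Fintype A0] (w : Option A0 → ℝ) (hw : ∀ x, 0 ≤ w x)
    (hsum : ∑ x, w x = 1) (p0 : ℝ) (hp0 : 0 < p0) (hp : p0 ≤ w none) (A A' : Set (J → Option A0))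
    (M0 : ℕ) (hA : ∀ f ∈ A, ∃ U : Finset J, U.card ≤ M0 ∧
      (fun x => if x ∈ U then none else f x) ∈ A') :
    pw w A ≤ ((((Fintype.card J : ℝ) + 1) * (Fintype.card A0 + 1)) / p0) ^ M0 * pw w A' := by
  choose! U hU1 hU2 using hA
  have hw1 : ∀ x, w x ≤ 1 := by
    intro x
    rw [← hsum]
    exact Finset.single_le_sum (fun y _ => hw y) (Finset.mem_univ x)
  have hp1 : p0 ≤ 1 := hp.trans (hw1 none)
  set φ : (J → Option A0) → (J → Option A0) := fun f => fun x => if x ∈ U f then none else f x
    with hφ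
  have h1 : ∀ f ∈ A, ∏ x, w (f x) ≤ (1 / p0) ^ M0 * ∏ x, w (φ f x) := by
    intro f hf
    have h2 : p0 ^ M0 * ∏ x, w (f x) ≤ ∏ x, w (φ f x) := by
      have h3 : p0 ^ M0 ≤ ∏ x : J, (if x ∈ U f then p0 else 1) := by
        rw [Finset.prod_ite_mem, Finset.univ_inter, Finset.prod_const]
        exact pow_le_pow_of_le_one hp0.le hp1 (hU1 f hf)
      calc p0 ^ M0 * ∏ x, w (f x) ≤ (∏ x : J, (if x ∈ U f then p0 else 1)) * ∏ x, w (f x) :=
            mul_le_mul_of_nonneg_right h3 (Finset.prod_nonneg fun x _ => hw _)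
        _ = ∏ x : J, ((if x ∈ U f then p0 else 1) * w (f x)) := Finset.prod_mul_distrib.symm
        _ ≤ ∏ x, w (φ f x) := by
          refine Finset.prod_le_prod (fun x _ => ?_) (fun x _ => ?_)
          · split_ifs
            · exact mul_nonneg hp0.le (hw _)
            · exact mul_nonneg zero_le_one (hw _)
          · rw [hφ]
            simp only
            split_ifs
            · calc p0 * w (f x) ≤ w none * 1 := mul_le_mul hp (hw1 _) (hw _) (hw _)
                _ = w none := mul_one _
            · rw [one_mul]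
    have h4 : (1 / p0) ^ M0 * (p0 ^ M0 * ∏ x, w (f x)) = ∏ x, w (f x) := by
      rw [← mul_assoc, ← mul_pow, one_div, inv_mul_cancel₀ hp0.ne', one_pow, one_mul]
    rw [← h4]
    exact mul_le_mul_of_nonneg_left h2 (by positivity)
  have h2 : pw w A ≤ (1 / p0) ^ M0 * ∑ f : J → Option A0, if f ∈ A then ∏ x, w (φ f x) else 0 := by
    unfold pw
    rw [Finset.mul_sum]
    refine Finset.sum_le_sum fun f _ => ?_
    by_cases hf : f ∈ A
    · rw [if_pos hf, if_pos hf]
      exact h1 f hf
    · rw [if_neg hf, if_neg hf, mul_zero]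
  have hN : ((Fintype.card J * Fintype.card (Option A0) + 1 : ℕ) : ℝ) ^ M0 ≤
      (((Fintype.card J : ℝ) + 1) * (Fintype.card A0 + 1)) ^ M0 := by
    rw [Fintype.card_option]
    push_cast
    have h0 : (0 : ℝ) ≤ Fintype.card J := Nat.cast_nonneg _
    have h0' : (0 : ℝ) ≤ Fintype.card A0 := Nat.cast_nonneg _
    apply pow_le_pow_left₀ (by positivity)
    nlinarith
  have h3 : (∑ f : J → Option A0, if f ∈ A then ∏ x, w (φ f x) else 0) ≤
      (((Fintype.card J : ℝ) + 1) * (Fintype.card A0 + 1)) ^ M0 * pw w A' := by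
    unfold pw
    rw [← Finset.sum_fiberwise Finset.univ φ, Finset.mul_sum]
    refine Finset.sum_le_sum fun g _ => ?_
    have h4 : ∑ f ∈ Finset.univ.filter (fun f => φ f = g), (if f ∈ A then ∏ x, w (φ f x) else 0) =
        ((Finset.univ.filter (fun f => φ f = g)).filter (fun f => f ∈ A)).card *
          ∏ x, w (g x) := by
      rw [← Finset.sum_filter, ← nsmul_eq_mul, ← Finset.sum_const]
      refine Finset.sum_congr rfl fun f hf => ?_
      rw [(Finset.mem_filter.1 (Finset.mem_filter.1 hf).1).2]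
    by_cases hg : g ∈ A'
    · rw [if_pos hg]
      have h5 := card_near g M0 ((Finset.univ.filter (fun f => φ f = g)).filter (fun f => f ∈ A)) U
        (fun f hf => hU1 f (Finset.mem_filter.1 hf).2) (fun f hf x hx => by
          have h6 := (Finset.mem_filter.1 (Finset.mem_filter.1 hf).1).2
          rw [← h6, hφ]
          simp only
          rw [if_neg hx])
      have h7 : ((((Finset.univ.filter (fun f => φ f = g)).filter (fun f => f ∈ A)).card : ℕ) : ℝ) ≤
          (((Fintype.card J : ℝ) + 1) * (Fintype.card A0 + 1)) ^ M0 := by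
        refine le_trans ?_ hN
        exact_mod_cast h5
      have h8 : 0 ≤ ∏ x, w (g x) := Finset.prod_nonneg fun x _ => hw _
      have h9 := mul_le_mul_of_nonneg_right h7 h8
      exact le_trans (le_of_eq h4) h9
    · rw [if_neg hg, mul_zero]
      refine le_of_eq (Finset.sum_eq_zero fun f hf => ?_)
      by_cases hfA : f ∈ A
      · exfalso
        apply hg
        have h6 := (Finset.mem_filter.1 hf).2
        rw [← h6]
        exact hU2 f hfA
      · rw [if_neg hfA]
  have h4 : ((((Fintype.card J : ℝ) + 1) * (Fintype.card A0 + 1)) / p0) ^ M0 * pw w A' =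
      (1 / p0) ^ M0 * ((((Fintype.card J : ℝ) + 1) * (Fintype.card A0 + 1)) ^ M0 * pw w A') := by
    rw [div_pow, one_div, inv_pow]
    field_simp
  rw [h4]
  exact h2.trans (mul_le_mul_of_nonneg_left h3 (by positivity))

theorem copies_prob {I K J V : Type} [Fintype I] [Fintype K] [Fintype J] [Fintype V] (w : V → ℝ)
    (hw : ∀ x, 0 ≤ w x) (v0 : V) (g : I × K → J) (hg : Function.Injective g) (A : Set (K → V)) :
    (pw w A) ^ (Fintype.card I) * (w v0) ^ (Fintype.card J - Fintype.card I * Fintype.card K) ≤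
      pw w {f : J → V | (∀ i, (fun k => f (g (i, k))) ∈ A) ∧ ∀ y, y ∉ Set.range g → f y = v0} := by
  apply le_of_eq
  set Φ : (I × K → V) → ({y : J // ¬ y ∈ Set.range g} → V) → ℝ := fun τ ρ =>
    (∏ i, if (fun k => τ (i, k)) ∈ A then ∏ k, w (τ (i, k)) else 0) *
      if ρ = fun _ => v0 then ∏ y, w (ρ y) else 0 with hΦ
  have h1 : pw w {f : J → V | (∀ i, (fun k => f (g (i, k))) ∈ A) ∧
      ∀ y, y ∉ Set.range g → f y = v0} = ∑ f : J → V, Φ (fun k => f (g k)) (fun y => f y) := by
    unfold pw
    refine Finset.sum_congr rfl fun f _ => ?_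
    rw [hΦ]
    simp only
    by_cases ha : ∀ i, (fun k => f (g (i, k))) ∈ A
    · by_cases hb : ∀ y, y ∉ Set.range g → f y = v0
      · have hb' : (fun y : {y : J // ¬ y ∈ Set.range g} => f y) = fun _ => v0 := by
          funext y
          exact hb y.1 y.2
        rw [if_pos (show f ∈ {f : J → V | (∀ i, (fun k => f (g (i, k))) ∈ A) ∧
          ∀ y, y ∉ Set.range g → f y = v0} from ⟨ha, hb⟩), if_pos hb', prod_split g hg w f]
        congr 1
        rw [Fintype.prod_prod_type]
        refine Finset.prod_congr rfl fun i _ => ?_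
        rw [if_pos (ha i)]
      · have hb' : ¬ (fun y : {y : J // ¬ y ∈ Set.range g} => f y) = fun _ => v0 := by
          intro h
          apply hb
          intro y hy
          exact congrFun h ⟨y, hy⟩
        rw [if_neg (show ¬ f ∈ {f : J → V | (∀ i, (fun k => f (g (i, k))) ∈ A) ∧
          ∀ y, y ∉ Set.range g → f y = v0} from fun h => hb h.2), if_neg hb', mul_zero]
    · rw [if_neg (show ¬ f ∈ {f : J → V | (∀ i, (fun k => f (g (i, k))) ∈ A) ∧
          ∀ y, y ∉ Set.range g → f y = v0} from fun h => ha h.1)]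
      push Not at ha
      obtain ⟨i, hi⟩ := ha
      rw [Finset.prod_eq_zero (Finset.mem_univ i) (if_neg hi), zero_mul]
  rw [h1, sum_split g hg Φ]
  have h2 : ∀ τ : I × K → V, ∑ ρ, Φ τ ρ =
      (∏ i, if (fun k => τ (i, k)) ∈ A then ∏ k, w (τ (i, k)) else 0) *
        (w v0) ^ (Fintype.card J - Fintype.card I * Fintype.card K) := by
    intro τ
    rw [hΦ]
    simp only
    rw [← Finset.mul_sum, Finset.sum_ite_eq' Finset.univ (fun _ => v0), if_pos (Finset.mem_univ _),
      Finset.prod_const, Finset.card_univ]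
    congr 2
    have h3 : Fintype.card {y : J // y ∈ Set.range g} = Fintype.card I * Fintype.card K := by
      rw [← Fintype.card_prod]
      exact (Fintype.card_congr (Equiv.ofInjective g hg)).symm
    rw [Fintype.card_subtype_compl, h3]
  rw [Finset.sum_congr rfl fun τ _ => h2 τ, ← Finset.sum_mul]
  congr 1
  have h3 : ∑ τ : I × K → V, (∏ i, if (fun k => τ (i, k)) ∈ A then ∏ k, w (τ (i, k)) else 0) =
      ∑ τ : I → K → V, ∏ i, if τ i ∈ A then ∏ k, w (τ i k) else 0 :=
    Fintype.sum_equiv (Equiv.curry I K V) _ _ (fun τ => rfl)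
  refine Eq.trans (b := ∑ τ : I × K → V,
    (∏ i, if (fun k => τ (i, k)) ∈ A then ∏ k, w (τ (i, k)) else 0)) ?_ ?_
  · rw [h3, sum_prod_pow (fun t : K → V => if t ∈ A then ∏ k, w (t k) else 0)]
    rfl
  · refine Finset.sum_congr ?_ fun _ _ => rfl
    ext x
    simp only [Finset.mem_univ]

theorem restrict_prob {J K V : Type} [Fintype J] [Fintype K] [Fintype V] (w : V → ℝ)
    (hw : ∀ x, 0 ≤ w x) (hsum : ∑ x, w x = 1) (g : K → J) (hg : Function.Injective g)
    (A : Set (J → V)) (A' : Set (K → V)) (h : ∀ f ∈ A, (fun k => f (g k)) ∈ A') :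
    pw w A ≤ pw w A' := by
  refine (pw_mono w hw A {f | (fun k => f (g k)) ∈ A'} h).trans (le_of_eq ?_)
  set Φ : (K → V) → ({y : J // ¬ y ∈ Set.range g} → V) → ℝ := fun τ ρ =>
    (if τ ∈ A' then ∏ k, w (τ k) else 0) * ∏ y, w (ρ y) with hΦ
  have h1 : pw w {f | (fun k => f (g k)) ∈ A'} =
      ∑ f : J → V, Φ (fun k => f (g k)) (fun y => f y) := by
    unfold pw
    refine Finset.sum_congr rfl fun f _ => ?_
    rw [hΦ]
    simp only
    rw [Set.mem_ofPred_eq, prod_split g hg w f, ite_mul, zero_mul]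
  rw [h1, sum_split g hg Φ]
  unfold pw
  refine Finset.sum_congr rfl fun τ _ => ?_
  rw [hΦ]
  simp only
  rw [← Finset.mul_sum, sum_prod_pow w, hsum, one_pow, mul_one]

end MP4fb

end
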