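import Pool.Agent.Lib.MP_4fbc34_pr.BlocksL
import Pool.Agent.Lib.MP_4fbc34_pr.DelP

/-!
JOB MagnP: the probability of a magnified configuration.

Let `K` be the finset of the kept sites in `abx d md 1 j` and `A` a set of configurations on `abx d md 1 j`.  By
`restrict_prob` the weight of `A` is at most the weight of the set `AK` of its restrictions to `K`.  Apply
`copies_prob` with `I = (Fin d → Fin N)`, `K`, `J = abx d md N j`, `g (i, p) = bmap i p` (injective by `bmap_inj`, in the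
box by `bmap_mem`), `v0 = none`.  A configuration `f` on `J` with these properties: for each `i` choose
`f_i ∈ A` whose restriction to `K` is `p ↦ f (bmap i p)` and put `σ' i = ext f_i`; then `Magn` holds for
`σ = ext f`.  The exponent of `w none` is `card (abx d md N j) - N^d card K = N^d * (card (abx d md 1 j) - card K)`,
since `card (abx d md N j) = (2 N 2^j)^d - (2 N 2^(j-md))^d = N^d card (abx d md 1 j)`.
-/

set_option autoImplicit false

open scoped Classical

noncomputable section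

namespace MP4fb

variable {d : ℕ}

private theorem card_bx (d n : ℕ) : (bx d n).card = (2 * n) ^ d := by
  rw [bx, Fintype.card_piFinset, Finset.prod_const, Int.card_Ico, Finset.card_univ,
    Fintype.card_fin]
  congr 1
  omega

private theorem card_abx (d md N j : ℕ) : (abx d md N j).card = N ^ d * (abx d md 1 j).card := by
  have h1 : ∀ N : ℕ, bx d (N * 2 ^ (j - md)) ⊆ bx d (N * 2 ^ j) := by
    intro N
    have h2 : N * 2 ^ (j - md) ≤ N * 2 ^ j :=
      Nat.mul_le_mul_left _ (Nat.pow_le_pow_right two_pos (Nat.sub_le _ _))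
    intro p hp
    rw [bx, Fintype.mem_piFinset] at hp ⊢
    intro i
    have h3 := Finset.mem_Ico.1 (hp i)
    rw [Finset.mem_Ico]
    constructor
    · have : (((N * 2 ^ (j - md) : ℕ)) : ℤ) ≤ ((N * 2 ^ j : ℕ) : ℤ) := by exact_mod_cast h2
      linarith [h3.1]
    · have : (((N * 2 ^ (j - md) : ℕ)) : ℤ) ≤ ((N * 2 ^ j : ℕ) : ℤ) := by exact_mod_cast h2
      linarith [h3.2]
  rw [abx, abx, Finset.card_sdiff_of_subset (h1 N), Finset.card_sdiff_of_subset (h1 1), card_bx,
    card_bx, card_bx, card_bx, Nat.mul_sub, ← mul_pow, ← mul_pow]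
  congr 2 <;> ring

private theorem pw_nonneg {J V : Type} [Fintype J] [Fintype V] (w : V → ℝ) (hw : ∀ x, 0 ≤ w x)
    (A : Set (J → V)) : 0 ≤ pw w A := by
  unfold pw
  refine Finset.sum_nonneg fun f _ => ?_
  split_ifs
  · exact Finset.prod_nonneg fun x _ => hw _
  · exact le_refl _

private theorem pw_ext (Λ : Lat d) (B : Finset (Fin d → ℤ)) (w : Option Λ.A → ℝ)
    (Ev : Set (Cfg Λ)) : pw w {f : B → Option Λ.A | ext Λ B f ∈ Ev} = prB Λ B w Ev := by
  unfold pw prB
  refine Finset.sum_congr ?_ fun f _ => ?_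
  · ext f
    simp only [Finset.mem_univ]
  · by_cases hf : ext Λ B f ∈ Ev
    · rw [if_pos hf, if_pos (show f ∈ {f : B → Option Λ.A | ext Λ B f ∈ Ev} from hf)]
    · rw [if_neg hf, if_neg (show ¬ f ∈ {f : B → Option Λ.A | ext Λ B f ∈ Ev} from hf)]

theorem magn_prob (Λ : Lat d) (w : Option Λ.A → ℝ) (hw : ∀ x, 0 ≤ w x) (hsum : ∑ x, w x = 1)
    (κ : ℝ) (n n' md j N : ℕ) (hN : 1 ≤ N) (hmd : md ≤ n) (hn : n ≤ n') (hn' : n' ≤ j)
    (Bad BadT : Finset (Fin d → ℤ))
    (A : Set ((abx d md 1 j) → Option Λ.A)) (Ev : Set (Cfg Λ))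
    (hEv : ∀ (f : (abx d md N j) → Option Λ.A) (σ' : (Fin d → Fin N) → Cfg Λ),
      (∀ i, ∃ f' ∈ A, σ' i = ext Λ _ f') →
      Magn Λ κ n n' md j N Bad BadT (ext Λ _ f) σ' → ext Λ _ f ∈ Ev) :
    (pw w A) ^ (N ^ d) *
      (w none) ^ (N ^ d * ((abx d md 1 j).filter (fun p => ¬ KeptS κ n n' j Bad BadT p)).card) ≤
    prB Λ (abx d md N j) w Ev := by
  set KF : Finset (Fin d → ℤ) := (abx d md 1 j).filter (fun p => KeptS κ n n' j Bad BadT p) with hKF
  have hK1 : ∀ p : KF, p.1 ∈ abx d md 1 j := fun p => (Finset.mem_filter.1 p.2).1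
  have hK2 : ∀ p : KF, KeptS κ n n' j Bad BadT p.1 := fun p => (Finset.mem_filter.1 p.2).2
  set AK : Set (KF → Option Λ.A) := {τ | ∃ f ∈ A, (fun p : KF => f ⟨p.1, hK1 p⟩) = τ} with hAK
  have h1 : pw w A ≤ pw w AK := by
    refine restrict_prob w hw hsum (fun p : KF => (⟨p.1, hK1 p⟩ : abx d md 1 j)) ?_ A AK
      (fun f hf => ⟨f, hf, rfl⟩)
    intro p q hpq
    exact Subtype.ext (congrArg (fun x : abx d md 1 j => x.1) hpq)
  have hmem : ∀ (i : Fin d → Fin N) (p : Fin d → ℤ), p ∈ abx d md 1 j →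
      bmap N n' j i p ∈ abx d md N j := fun i p hp =>
    bmap_mem N n' md j hN (hmd.trans hn) hn' i p hp
  set g : (Fin d → Fin N) × KF → abx d md N j := fun q =>
    ⟨bmap N n' j q.1 q.2.1, hmem q.1 q.2.1 (hK1 q.2)⟩ with hg
  have hginj : Function.Injective g := by
    rintro ⟨i, p⟩ ⟨i', p'⟩ h
    have h2 := bmap_inj N n' j i i' p.1 p'.1 (congrArg Subtype.val h)
    rw [Prod.mk.injEq]
    exact ⟨h2.1, Subtype.ext h2.2⟩
  have h2 := copies_prob w hw none g hginj AK
  have hcI : Fintype.card (Fin d → Fin N) = N ^ d := by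
    rw [Fintype.card_fun, Fintype.card_fin, Fintype.card_fin]
  have hcard : Fintype.card (abx d md N j) - Fintype.card (Fin d → Fin N) * Fintype.card KF =
      N ^ d * ((abx d md 1 j).filter (fun p => ¬ KeptS κ n n' j Bad BadT p)).card := by
    rw [hcI, Fintype.card_coe, Fintype.card_coe, card_abx, ← Nat.mul_sub]
    congr 1
    have h3 := Finset.card_filter_add_card_filter_not (s := abx d md 1 j)
      (fun p => KeptS κ n n' j Bad BadT p)
    rw [← hKF] at h3
    omega
  rw [hcard, hcI] at h2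
  have h3 : pw w {f : abx d md N j → Option Λ.A | (∀ i, (fun k => f (g (i, k))) ∈ AK) ∧
      ∀ y, y ∉ Set.range g → f y = none} ≤ prB Λ (abx d md N j) w Ev := by
    rw [← pw_ext Λ (abx d md N j) w Ev]
    refine pw_mono w hw _ _ ?_
    rintro f ⟨hf1, hf2⟩
    choose f' hf'A hf' using hf1
    refine hEv f (fun i => ext Λ _ (f' i)) (fun i => ⟨f' i, hf'A i, rfl⟩) ⟨?_, ?_⟩
    · intro i p hp hk
      have hpK : p ∈ KF := Finset.mem_filter.2 ⟨hp, hk⟩
      have h4 := congrFun (hf' i) ⟨p, hpK⟩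
      simp only at h4
      simp only [ext]
      rw [dif_pos (hmem i p hp), dif_pos hp]
      exact h4.symm
    · intro y hy
      simp only [ext]
      split_ifs with h4
      · apply hf2
        rintro ⟨⟨i, p⟩, h5⟩
        exact hy ⟨i, p.1, hK1 p, hK2 p, (congrArg Subtype.val h5).symm⟩
      · rfl
  refine le_trans ?_ (h2.trans h3)
  apply mul_le_mul_of_nonneg_right _ (pow_nonneg (hw _) _)
  exact pow_le_pow_left₀ (pw_nonneg w hw A) h1 _

end MP4fb

end
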