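import Mathlib

/-!
JOB NumF: the final numerical estimate.  Take logarithms and divide by `(2^j)^d`:
`log c / (2^j)^d → 0`; `M0 * log (((2^(j+1))^d + 1)(a0 + 1) / p0) / (2^j)^d <= CU 2^j (C j + C') / (2^j)^d → 0`
because `d >= 2`; `nk * log (1 / p0) / (2^j)^d <= q0 2^d log (1 / p0) <= θ / 2`.  So the sum of the losses is at most
`θ` for `j` large.
-/

set_option autoImplicit false

open Filter

noncomputable section

namespace MP4fb

theorem num_final (d : ℕ) (hd : 2 ≤ d) (c CU p0 θ q0 : ℝ) (a0 : ℕ) (hc : 0 < c) (hp0 : 0 < p0)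
    (hp1 : p0 ≤ 1) (hθ : 0 < θ) (hq0 : 0 ≤ q0) (hq : q0 * 2 ^ d * Real.log (1 / p0) ≤ θ / 2) :
    ∀ᶠ j : ℕ in atTop, ∀ M0 nk : ℕ, (M0 : ℝ) ≤ CU * 2 ^ j → (nk : ℝ) ≤ q0 * (2 ^ (j + 1)) ^ d →
      Real.exp (-(θ * (2 ^ j) ^ d)) ≤
        c * ((((((2 : ℝ) ^ (j + 1)) ^ d + 1) * (a0 + 1)) / p0) ^ M0)⁻¹ * p0 ^ nk := by
  set L : ℝ := Real.log (1 / p0) with hL
  have hL0 : 0 ≤ L := Real.log_nonneg (by rw [le_div_iff₀ hp0]; linarith)
  set K : ℝ := Real.log (2 * (a0 + 1) / p0) with hK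
  have hlim : Tendsto (fun j : ℕ => |Real.log c| * (1 / 4 : ℝ) ^ j +
      |CU| * ((d : ℝ) * ((j : ℝ) * (1 / 2 : ℝ) ^ j) + (d + K) * (1 / 2 : ℝ) ^ j)) atTop (nhds 0) := by
    have h1 := tendsto_pow_atTop_nhds_zero_of_lt_one (r := (1 / 4 : ℝ)) (by norm_num) (by norm_num)
    have h2 := tendsto_pow_atTop_nhds_zero_of_lt_one (r := (1 / 2 : ℝ)) (by norm_num) (by norm_num)
    have h3 := tendsto_self_mul_const_pow_of_lt_one (r := (1 / 2 : ℝ)) (by norm_num) (by norm_num)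
    have h4 := (h1.const_mul |Real.log c|).add
      (((h3.const_mul (d : ℝ)).add (h2.const_mul (d + K))).const_mul |CU|)
    simpa only [mul_zero, add_zero] using h4
  have hev := hlim.eventually_lt_const (half_pos hθ)
  filter_upwards [hev] with j hj M0 nk hM hn
  have hN4 : (4 : ℝ) ^ j ≤ ((2 : ℝ) ^ j) ^ d := by
    have h1 : (4 : ℝ) ^ j = ((2 : ℝ) ^ j) ^ 2 := by
      rw [← pow_mul, mul_comm, pow_mul]
      norm_num
    rw [h1]
    exact pow_le_pow_right₀ (one_le_pow₀ (by norm_num)) hd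
  set N : ℝ := ((2 : ℝ) ^ j) ^ d with hN
  have hX1 : (1 : ℝ) ≤ ((2 : ℝ) ^ (j + 1)) ^ d := one_le_pow₀ (one_le_pow₀ (by norm_num))
  have ha1 : (1 : ℝ) ≤ (a0 : ℝ) + 1 := by
    have : (0 : ℝ) ≤ a0 := Nat.cast_nonneg a0
    linarith
  set A : ℝ := ((((2 : ℝ) ^ (j + 1)) ^ d + 1) * (a0 + 1)) / p0 with hA
  have hA1 : 1 ≤ A := by
    rw [hA, le_div_iff₀ hp0, one_mul]
    calc p0 ≤ 1 := hp1
      _ ≤ ((2 : ℝ) ^ (j + 1)) ^ d + 1 := by linarith
      _ ≤ (((2 : ℝ) ^ (j + 1)) ^ d + 1) * (a0 + 1) :=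
        le_mul_of_one_le_right (by linarith) ha1
  have hApos : 0 < A := by linarith
  have hlogA0 : 0 ≤ Real.log A := Real.log_nonneg hA1
  have hlogA : Real.log A ≤ (d : ℝ) * (j + 1) + K := by
    have h1 : A ≤ ((2 : ℝ) ^ (j + 1)) ^ d * (2 * (a0 + 1) / p0) := by
      rw [hA, ← mul_div_assoc]
      refine div_le_div_of_nonneg_right ?_ hp0.le
      have h2 : ((2 : ℝ) ^ (j + 1)) ^ d + 1 ≤ 2 * ((2 : ℝ) ^ (j + 1)) ^ d := by linarith
      have h3 := mul_le_mul_of_nonneg_right h2 (by linarith : (0 : ℝ) ≤ (a0 : ℝ) + 1)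
      linarith
    have h4 : 0 < 2 * ((a0 : ℝ) + 1) / p0 := by positivity
    refine (Real.log_le_log hApos h1).trans ?_
    rw [Real.log_mul (by positivity) h4.ne', Real.log_pow, Real.log_pow, ← hK]
    have h5 : Real.log 2 ≤ 1 := by
      have := Real.log_two_lt_d9
      linarith
    have h6 : (d : ℝ) * (((j + 1 : ℕ) : ℝ) * Real.log 2) ≤ (d : ℝ) * (j + 1) := by
      refine mul_le_mul_of_nonneg_left ?_ (Nat.cast_nonneg d)
      push_cast
      exact mul_le_of_le_one_right (by positivity) h5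
    linarith
  have e1 : c * (A ^ M0)⁻¹ * p0 ^ nk =
      Real.exp (Real.log c - M0 * Real.log A + nk * Real.log p0) := by
    rw [Real.exp_add, Real.exp_sub, Real.exp_nat_mul, Real.exp_nat_mul, Real.exp_log hc,
      Real.exp_log hApos, Real.exp_log hp0, div_eq_mul_inv]
  rw [e1, Real.exp_le_exp]
  have h1 : (M0 : ℝ) * Real.log A ≤ |CU| * 2 ^ j * ((d : ℝ) * (j + 1) + K) := by
    have h2 : (M0 : ℝ) ≤ |CU| * 2 ^ j :=
      hM.trans (mul_le_mul_of_nonneg_right (le_abs_self CU) (by positivity))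
    exact mul_le_mul h2 hlogA hlogA0 (by positivity)
  have h2 : (nk : ℝ) * L ≤ θ / 2 * N := by
    have h3 : (nk : ℝ) * L ≤ q0 * (2 ^ (j + 1)) ^ d * L := mul_le_mul_of_nonneg_right hn hL0
    have h4 : q0 * (2 ^ (j + 1)) ^ d * L = (q0 * 2 ^ d * L) * N := by
      rw [hN, pow_succ, mul_pow]
      ring
    rw [h4] at h3
    exact h3.trans (mul_le_mul_of_nonneg_right hq (by positivity))
  have hLp : L = -Real.log p0 := by
    rw [hL, one_div, Real.log_inv]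
  have h3 : |Real.log c| + |CU| * 2 ^ j * ((d : ℝ) * (j + 1) + K) ≤ θ / 2 * N := by
    have p4 : (1 / 4 : ℝ) ^ j * 4 ^ j = 1 := by
      rw [← mul_pow]
      norm_num
    have p2 : (1 / 2 : ℝ) ^ j * 4 ^ j = 2 ^ j := by
      rw [← mul_pow]
      norm_num
    have h4 : (|Real.log c| * (1 / 4 : ℝ) ^ j +
      |CU| * ((d : ℝ) * ((j : ℝ) * (1 / 2 : ℝ) ^ j) + (d + K) * (1 / 2 : ℝ) ^ j)) * 4 ^ j ≤
        θ / 2 * 4 ^ j := mul_le_mul_of_nonneg_right hj.le (by positivity)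
    have h5 : (|Real.log c| * (1 / 4 : ℝ) ^ j +
      |CU| * ((d : ℝ) * ((j : ℝ) * (1 / 2 : ℝ) ^ j) + (d + K) * (1 / 2 : ℝ) ^ j)) * 4 ^ j =
        |Real.log c| * ((1 / 4 : ℝ) ^ j * 4 ^ j) +
        |CU| * ((1 / 2 : ℝ) ^ j * 4 ^ j) * ((d : ℝ) * (j + 1) + K) := by ring
    rw [h5, p4, p2, mul_one] at h4
    exact h4.trans (mul_le_mul_of_nonneg_left hN4 (by positivity))
  have h4 := neg_abs_le (Real.log c)
  have h5 : (nk : ℝ) * Real.log p0 = -((nk : ℝ) * L) := by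
    rw [hLp]
    ring
  rw [h5]
  linarith

end MP4fb

end
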