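import Pool.Agent.Lib.MP_4fbc34_pr.SlackA
import Pool.Agent.Lib.MP_4fbc34_pr.DelL
import Pool.Agent.Lib.MP_4fbc34_pr.NumF
import Pool.Agent.Lib.MP_4fbc34_pr.MagnP
import Pool.Agent.Lib.MP_4fbc34_pr.KeptC
import Pool.Agent.Lib.MP_4fbc34_pr.LimB

/-!
JOB Slack: the main inequality for lattice models.

CHOICE OF THE PARAMETERS, in this order.  Let `rad = 2⁻ᵐᵈ`, `G' = min (β / 2) (ζ β rad / (16 (ζ + 1)))`.
1. `κ <= min (1/4) (min (2 rad) (G' / 16))` and `δ <= 1` with `(10 κ d + 2 δ) 2^d log (1/p0) <= θ rlo^d / 2` and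
   `6800 δ <= G' / 16`, `40 δ <= G' / 16`; `0 < c1 <= 1` with `120 c1 <= G' / 16`; `c3 = G' / 16`.
2. `net, rm` from `exists_net`.  `D` and `B0` from `limit_functional` applied to `latSq Λ j r w Bs Ev` with
   `Bs k = abx d md 1 (j k)`, where `Ev k` is the set of the `f` with `ext f` in the root event (`lat_ok`; if
   `r k 2^(j k) >= 1` fails for small `k` drop the first terms of the sequences, or restrict to large `k`; the event has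
   positive weight by `hI`).
3. `two_scale` with `n0 = md`: `n, g, Bad`.  `Pmax = 200 (1 + 16 2ⁿ / κ)`; then
   `2 δ κ 2⁻ⁿ Pmax <= 400 δ (κ + 16) <= 6800 δ`.
4. `ε2` with `2 Pmax ε2 <= G' / 16`; `r2 <= 1` with `5 r2 Pmax <= c3 / 2`; `Gr2, K2`; `Bm` = the constant of the mass bound
   for budgets at most `6`; `Nr` with `Pmax Bm < Nr ε2`.
5. `n' >= n + 3` with `4 d 2⁻ⁿ' Pmax <= c3 / 2`, `1 <= κ 2^(n' - n)`, `BadT`; `s = sc κ n'` (so `s <= 1/8`); `ε` with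
   `20 (1 + 1/s) ε <= G' / 16`.  Then `20 (1 + 1/s) δ s <= 40 δ <= G' / 16`.
6. `Gr` from `exists_grid`.  Apply the limit property (`Sq.Lim`) with
   `Tup = {(a, a + s t.1, s (t.2 - rm), s t.2)}`, `Tlow = {(a, c, k r2) | ‖a - c‖ < k r2, k <= K2}`,
   `Z = {cell n' z | z ∈ zbox d n'}`, `min ε ε2`, `Nr`: constants `c, CU` and infinitely many `k` with a set `A`.
   Restrict to `k` so large that `20 (1 + 1/s) (k0/ℓ + η0 bb 2⁻ʲ)`, `2 k0 Pmax/ℓ <= G' / 16`, `n' <= j k`,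
   `1 <= κ 2^(j k - n')` and `num_final` holds (with `CU := max CU 0 * rhi`, `q0 = 10 κ d + 2 δ`, `θ := θ rlo^d`).
7. For such `k` let `A'` = the set of all configurations obtained from some `f ∈ A` by deleting the sites of `V_f`,
   where `V_f` comes from `del_atoms` and the set `U` of the limit property.  `del_prob` bounds `pw w A` by a factor
   times `pw w A'`, with `M0 = ⌊CU ℓ⌋` (`card (abx d md 1 j) <= (2^(j+1))^d`).  `A` is not empty (its weight is at least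
   `c` times a positive number); the reference configuration is `ω0 = ext f0` for some `f0 ∈ A`.
8. For every `N >= 1`, `magn_prob` with the event of the conclusion; `hEv` is `magn_root`: `hcopy` because a
   configuration of `A'` has atoms `atoms (ext f) \ U` with the same masses, `hflag` because deleting atoms only
   makes sets smaller and the flags of all members of `A` agree.  With `kept_card` (the alive sites are in
   `bx d (1 * 2 ^ j)`) and `num_final` raised to the power `N^d` we get the claim: with `ℓ = r k 2^(j k)`,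
   `pw w A' >= exp(-θ rlo^d (2^j)^d) p0^(-nk) exp(-I ℓ^d)`, `w none >= p0`, and
   `(N ℓ)^d = N^d ℓ^d`, `rlo^d (2^j)^d <= ℓ^d`.
-/

set_option autoImplicit false

open scoped Classical

open Filter

noncomputable section

namespace MP4fb

variable {d : ℕ}

/-- number of sites of a box -/
theorem slack_card_bx (d n : ℕ) : (bx d n).card = (2 * n) ^ d := by
  unfold bx
  rw [Fintype.card_piFinset]
  simp only [Int.card_Ico, Finset.prod_const, Finset.card_univ, Fintype.card_fin]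
  congr 1
  omega

theorem slack_card_abx (d md j : ℕ) : ((abx d md 1 j).card : ℝ) ≤ (2 ^ (j + 1)) ^ d := by
  have h : (abx d md 1 j).card ≤ (bx d (1 * 2 ^ j)).card :=
    Finset.card_le_card Finset.sdiff_subset
  rw [slack_card_bx] at h
  have h2 : (((2 * (1 * 2 ^ j)) ^ d : ℕ) : ℝ) = (2 ^ (j + 1)) ^ d := by
    push_cast
    congr 1
    ring
  rw [← h2]
  exact_mod_cast h

/-- the first error term -/
theorem slack_T1 (κ δ : ℝ) (hκ : 0 < κ) (hκ1 : κ ≤ 1 / 4) (hδ : 0 ≤ δ) (n : ℕ) :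
    2 * δ * κ * 2⁻¹ ^ n * (200 * (1 + 16 * 2 ^ n / κ)) ≤ 6800 * δ := by
  have ht0 : (0 : ℝ) < 2⁻¹ ^ n := by positivity
  have ht1 : (2⁻¹ : ℝ) ^ n ≤ 1 := pow_le_one₀ (by norm_num) (by norm_num)
  have ht : (2⁻¹ : ℝ) ^ n * 2 ^ n = 1 := by
    rw [← mul_pow]; norm_num
  have e : 2 * δ * κ * 2⁻¹ ^ n * (200 * (1 + 16 * 2 ^ n / κ)) =
      400 * δ * (κ * 2⁻¹ ^ n + 16 * (2⁻¹ ^ n * 2 ^ n)) := by
    field_simp
    ring
  rw [e, ht]
  have : κ * 2⁻¹ ^ n ≤ 1 := by nlinarith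
  nlinarith

/-- choice of the small parameters -/
theorem slack_par (d : ℕ) (G rad Lq θ' : ℝ) (hG : 0 < G) (hrad : 0 < rad) (hLq : 0 ≤ Lq)
    (hθ' : 0 < θ') : ∃ κ δ c1 : ℝ, 0 < κ ∧ κ ≤ 1 / 4 ∧ κ ≤ 2 * rad ∧ κ ≤ G / 16 ∧ 0 < δ ∧
      δ ≤ 1 ∧ 6800 * δ ≤ G / 16 ∧ (10 * κ * d + 2 * δ) * Lq ≤ θ' / 2 ∧ 0 < c1 ∧ c1 ≤ 1 ∧
      120 * c1 ≤ G / 16 := by
  refine ⟨min (1 / 4) (min (2 * rad) (min (G / 16) (θ' / (40 * (d + 1) * (Lq + 1))))),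
    min 1 (min (G / (16 * 6800)) (θ' / (8 * (Lq + 1)))), min 1 (G / (16 * 120)), ?_, ?_, ?_, ?_,
    ?_, ?_, ?_, ?_, ?_, ?_, ?_⟩
  · have : 0 < θ' / (40 * (d + 1) * (Lq + 1)) := by positivity
    simp only [lt_min_iff]
    refine ⟨by norm_num, by positivity, by positivity, this⟩
  · exact min_le_left _ _
  · exact (min_le_right _ _).trans (min_le_left _ _)
  · exact (min_le_right _ _).trans ((min_le_right _ _).trans (min_le_left _ _))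
  · have : 0 < θ' / (8 * (Lq + 1)) := by positivity
    simp only [lt_min_iff]
    refine ⟨by norm_num, by positivity, this⟩
  · exact min_le_left _ _
  · have : min 1 (min (G / (16 * 6800)) (θ' / (8 * (Lq + 1)))) ≤ G / (16 * 6800) :=
      (min_le_right _ _).trans (min_le_left _ _)
    linarith
  · set κ := min (1 / 4) (min (2 * rad) (min (G / 16) (θ' / (40 * (d + 1) * (Lq + 1))))) with hκ
    set δ := min 1 (min (G / (16 * 6800)) (θ' / (8 * (Lq + 1)))) with hδ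
    have h1 : κ ≤ θ' / (40 * (d + 1) * (Lq + 1)) :=
      (min_le_right _ _).trans ((min_le_right _ _).trans (min_le_right _ _))
    have h2 : δ ≤ θ' / (8 * (Lq + 1)) := (min_le_right _ _).trans (min_le_right _ _)
    have hd0 : (0 : ℝ) ≤ d := Nat.cast_nonneg d
    have h3 : 10 * κ * d * Lq ≤ θ' / 4 := by
      have a1 : κ * (40 * (d + 1) * (Lq + 1)) ≤ θ' := by
        rwa [le_div_iff₀ (by positivity)] at h1
      have hκ0 : 0 < κ := by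
        have : 0 < θ' / (40 * (d + 1) * (Lq + 1)) := by positivity
        rw [hκ]
        simp only [lt_min_iff]
        refine ⟨by norm_num, by positivity, by positivity, this⟩
      have a2 : κ * (d * Lq) ≤ κ * ((d + 1) * (Lq + 1)) := by
        apply mul_le_mul_of_nonneg_left _ hκ0.le
        nlinarith
      nlinarith
    have h4 : 2 * δ * Lq ≤ θ' / 4 := by
      have a1 : δ * (8 * (Lq + 1)) ≤ θ' := by
        rwa [le_div_iff₀ (by positivity)] at h2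
      have hδ0 : 0 < δ := by
        have : 0 < θ' / (8 * (Lq + 1)) := by positivity
        rw [hδ]
        simp only [lt_min_iff]
        refine ⟨by norm_num, by positivity, this⟩
      nlinarith
    nlinarith
  · simp only [lt_min_iff]
    refine ⟨by norm_num, by positivity⟩
  · exact min_le_left _ _
  · have : min 1 (G / (16 * 120)) ≤ G / (16 * 120) := min_le_right _ _
    linarith

/-- the two budget conditions -/
theorem slack_arith (ζ β rad G κ δ c1 c3 t P T1 s ε ε2 E1 E2 E3 : ℝ) (hζ : 0 < ζ) (hG : 0 < G)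
    (hGβ : G ≤ β / 2) (hGζ : G * (ζ + 1) ≤ ζ * β * rad / 16) (hκG : κ ≤ G / 16) (hκ0 : 0 < κ)
    (hδ0 : 0 < δ) (hκ1 : κ ≤ 1 / 4) (hδG : 6800 * δ ≤ G / 16) (hc1 : 120 * c1 ≤ G / 16)
    (hc3 : c3 = G / 16) (ht0 : 0 < t) (ht1 : t ≤ 1) (hT1 : T1 ≤ 6800 * δ)
    (hs0 : 0 < s) (hs1 : s ≤ 1) (hε2 : 2 * P * ε2 ≤ G / 16) (hE2 : E2 ≤ G / 16)
    (hε : 20 * (1 + 1 / s) * ε ≤ G / 16) (hE1 : 20 * (1 + 1 / s) * (E1 + E3) ≤ G / 16) :
    120 * c1 + T1 + c3 + κ * t + 2 * (2 * δ * κ * t) ≤ β / 2 ∧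
    ζ * (120 * c1 + T1 + c3 + κ * t + 2 * (2 * δ * κ * t)) + (2 * P * ε2 + E2) + T1 +
      20 * (1 + 1 / s) * (δ * s + ε + E1 + E3) ≤ ζ * β * rad / 16 := by
  have a1 : κ * t ≤ G / 16 := by nlinarith
  have a2 : 2 * (2 * δ * κ * t) ≤ G / 16 := by
    have : κ * t ≤ 1 := by nlinarith
    have h2 : δ * (κ * t) ≤ δ * 1 := mul_le_mul_of_nonneg_left this hδ0.le
    nlinarith
  have a3 : T1 ≤ G / 16 := hT1.trans hδG
  have a4 : 120 * c1 + T1 + c3 + κ * t + 2 * (2 * δ * κ * t) ≤ 5 * (G / 16) := by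
    linarith
  refine ⟨by linarith, ?_⟩
  have a5 : 20 * (1 + 1 / s) * (δ * s) ≤ G / 16 := by
    have : 20 * (1 + 1 / s) * (δ * s) = 20 * δ * (s + 1) := by
      field_simp
    rw [this]
    nlinarith
  have a6 : 20 * (1 + 1 / s) * (δ * s + ε + E1 + E3) ≤ 3 * (G / 16) := by
    have : 20 * (1 + 1 / s) * (δ * s + ε + E1 + E3) = 20 * (1 + 1 / s) * (δ * s) +
      20 * (1 + 1 / s) * ε + 20 * (1 + 1 / s) * (E1 + E3) := by ring
    rw [this]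
    linarith
  have a7 : ζ * (120 * c1 + T1 + c3 + κ * t + 2 * (2 * δ * κ * t)) ≤ ζ * (5 * (G / 16)) :=
    mul_le_mul_of_nonneg_left a4 hζ.le
  have a8 : ζ * (5 * (G / 16)) + 6 * (G / 16) ≤ G * (ζ + 1) := by nlinarith
  linarith

private theorem slack_sum_eq {α : Type} (i1 i2 : Fintype α) (f g : α → ℝ) (h : ∀ x, f x = g x) :
    @Finset.sum α ℝ _ (@Finset.univ α i1) f = @Finset.sum α ℝ _ (@Finset.univ α i2) g := by
  have := Subsingleton.elim i1 i2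
  subst this
  exact Finset.sum_congr rfl fun x _ => h x

theorem slack_prB (Λ : Lat d) (B : Finset (Fin d → ℤ)) (w : Option Λ.A → ℝ) (Ev : Set (Cfg Λ)) :
    prB Λ B w Ev = pw w {f | ext Λ B f ∈ Ev} := by
  unfold prB pw
  exact slack_sum_eq _ _ _ _ fun f => if_congr Iff.rfl rfl rfl

/-- the step for one index -/
theorem slack_step (hd : 2 ≤ d) (M : Model d) (hM : M.Ok) (Λ : Lat d) (εu mmax : ℝ)
    (hΛ : Λ.Ok εu mmax)
    (κ δ β c1 c3 rm ε ε2 r2 ℓ ζ η0 b0 Bm B0 Pmax : ℝ) (hκ : 0 < κ) (hκ1 : κ ≤ 1 / 4) (hδ : 0 < δ)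
    (hβ : 0 < β) (hβ' : β ≤ 1 / 2) (hc1 : 0 < c1) (hc1' : c1 ≤ 1) (hc3 : 0 ≤ c3) (hε : 0 < ε)
    (hε2 : 0 < ε2) (hr2 : 0 < r2) (hr2' : r2 ≤ 1) (hℓ : 0 < ℓ) (hζ : 0 < ζ) (hη : 0 ≤ η0)
    (hη' : η0 ≤ ζ * β / 4) (hb0 : 0 ≤ b0)
    (net : Finset (E d × ℝ)) (hnet : NetOk net rm c1)
    (D : E d → E d → ℝ → ℝ) (hD : Nice D B0) (n n' md j : ℕ) (hmd : md ≤ n)
    (hnn : n + 3 ≤ n') (hn' : n' ≤ j) (g : (Fin d → ℤ) → E d × ℝ → ℝ) (hg : ∀ z t, 0 ≤ g z t)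
    (Bad BadT : Finset (Fin d → ℤ)) (hlow : HLow D net κ δ c1 n g Bad)
    (hupp : HUpp D net rm κ δ n n' g Bad BadT)
    (Gr : Finset (E d)) (hGr : ∀ x : E d, ‖x‖ ≤ d + 3 → ∃ a ∈ Gr, ‖x - a‖ ≤ rm * sc κ n')
    (Gr2 : Finset (E d)) (hGr2 : ∀ x : E d, ‖x‖ ≤ 3 → ∃ a ∈ Gr2, ‖x - a‖ ≤ r2)
    (K2 Nr : ℕ) (hK2 : 1 / r2 + 3 ≤ K2)
    (hPmax : 200 * (1 + 16 * 2 ^ n / κ) ≤ Pmax) (hNr : Pmax * Bm < Nr * ε2) (hBm0 : 0 ≤ Bm)
    (hR : κ ≤ 2 * 2⁻¹ ^ md)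
    (hbud : 120 * c1 + 2 * δ * κ * 2⁻¹ ^ n * Pmax + c3 + κ * 2⁻¹ ^ n +
      2 * (2 * δ * κ * 2⁻¹ ^ n) ≤ β / 2)
    (hbud2 : 5 * r2 * Pmax ≤ c3 / 2) (hhub0 : 4 * (d * 2⁻¹ ^ n') * Pmax ≤ c3 / 2)
    (hfin : ζ * (120 * c1 + 2 * δ * κ * 2⁻¹ ^ n * Pmax + c3 + κ * 2⁻¹ ^ n +
      2 * (2 * δ * κ * 2⁻¹ ^ n)) + (2 * Pmax * ε2 + 2 * M.k0 * Pmax / ℓ) +
      2 * δ * κ * 2⁻¹ ^ n * Pmax +
      20 * (1 + 1 / sc κ n') * (δ * sc κ n' + ε + M.k0 / ℓ + η0 * b0) ≤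
        ζ * β * 2⁻¹ ^ md / 16)
    (w : Option Λ.A → ℝ) (hw : ∀ x, 0 ≤ w x) (hsum : ∑ x, w x = 1) (p0 : ℝ) (hp0 : 0 < p0)
    (hp : p0 ≤ w none) (A : Set ((abx d md 1 j) → Option Λ.A)) (CU : ℝ)
    (hA1 : ∀ f ∈ A, Root M (atoms Λ (2⁻¹ ^ j) (ext Λ _ f)) (massL Λ (2⁻¹ ^ j) (ext Λ _ f)) 1
      (ζ * ℓ))
    (hAup : ∀ f ∈ A, ∃ U : Finset (E d), ↑U ⊆ atoms Λ (2⁻¹ ^ j) (ext Λ _ f) ∧
      (U.card : ℝ) ≤ CU * ℓ ∧ ∀ t ∈ net, ∀ a ∈ Gr, ∀ (C : Finset (E d)) (k : ℝ),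
        M.O (atoms Λ (2⁻¹ ^ j) (ext Λ _ f) \ ↑U) a (a + sc κ n' • t.1)
          (sc κ n' * (t.2 - rm)) C k →
        ∑ x ∈ C, massL Λ (2⁻¹ ^ j) (ext Λ _ f) x - k ≤
          ℓ * (D a (a + sc κ n' • t.1) (sc κ n' * t.2) + ε))
    (hArob : ∀ f ∈ A, ∀ a ∈ Gr2, ∀ c ∈ Gr2, ∀ k : ℕ, k ≤ K2 → ‖a - c‖ < k * r2 →
      Rob M (atoms Λ (2⁻¹ ^ j) (ext Λ _ f)) (massL Λ (2⁻¹ ^ j) (ext Λ _ f)) Nr a c (k * r2)
        (ℓ * (D a c (k * r2) - ε2)))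
    (hAflag : ∀ f ∈ A, ∀ f' ∈ A, ∀ z ∈ zbox d n',
      (atoms Λ (2⁻¹ ^ j) (ext Λ _ f) ∩ cell n' z).Nonempty →
        (atoms Λ (2⁻¹ ^ j) (ext Λ _ f') ∩ cell n' z).Nonempty)
    (hAbm : ∀ f ∈ A, ∀ (a b : E d) (lam : ℝ) (C : Finset (E d)) (k : ℝ), lam ≤ 6 →
      M.O (atoms Λ (2⁻¹ ^ j) (ext Λ _ f)) a b lam C k →
      ∑ x ∈ C, massL Λ (2⁻¹ ^ j) (ext Λ _ f) x ≤ Bm * ℓ)
    (hAne : A.Nonempty) :
    ∃ A' : Set ((abx d md 1 j) → Option Λ.A),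
      (∀ M0 : ℕ, CU * ℓ < M0 + 1 →
        pw w A ≤ ((((Fintype.card (abx d md 1 j) : ℝ) + 1) * (Fintype.card Λ.A + 1)) / p0) ^ M0 *
          pw w A') ∧
      ∀ N : ℕ, 1 ≤ N → (pw w A') ^ (N ^ d) * (w none) ^ (N ^ d *
          ((abx d md 1 j).filter (fun p => ¬ KeptS κ n n' j Bad BadT p)).card) ≤
        prB Λ (abx d md N j) w
          (RootDZ M Λ j N md β (η0 * ℓ) b0 (ζ * (1 - β - β * 2⁻¹ ^ md / 16) * ℓ * N)) := by
  have hη : (0 : ℝ) < 2⁻¹ ^ j := by positivity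
  obtain ⟨f0, hf0⟩ := hAne
  let A' : Set ((abx d md 1 j) → Option Λ.A) := {f' | ∃ f ∈ A, ∃ U : Finset (E d),
    (∀ t ∈ net, ∀ a ∈ Gr, ∀ (C : Finset (E d)) (k : ℝ),
        M.O (atoms Λ (2⁻¹ ^ j) (ext Λ _ f) \ ↑U) a (a + sc κ n' • t.1)
          (sc κ n' * (t.2 - rm)) C k →
        ∑ x ∈ C, massL Λ (2⁻¹ ^ j) (ext Λ _ f) x - k ≤
          ℓ * (D a (a + sc κ n' • t.1) (sc κ n' * t.2) + ε)) ∧
    atoms Λ (2⁻¹ ^ j) (ext Λ _ f') = atoms Λ (2⁻¹ ^ j) (ext Λ _ f) \ ↑U ∧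
    ∀ y ∈ atoms Λ (2⁻¹ ^ j) (ext Λ _ f) \ ↑U,
        massL Λ (2⁻¹ ^ j) (ext Λ _ f') y = massL Λ (2⁻¹ ^ j) (ext Λ _ f) y}
  refine ⟨A', ?_, ?_⟩
  · intro M0 hM0
    apply del_prob w hw hsum p0 hp0 hp A A' M0
    intro f hf
    obtain ⟨U, hU, hUc, hUt⟩ := hAup f hf
    obtain ⟨V, hVc, hVa, hVm⟩ := del_atoms Λ εu mmax hΛ (2⁻¹ ^ j) hη (abx d md 1 j) f U hU
    refine ⟨V, ?_, ?_⟩
    · have h1 : (V.card : ℝ) ≤ U.card := by exact_mod_cast hVc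
      have h2 : (V.card : ℝ) < M0 + 1 := by linarith
      have h3 : V.card < M0 + 1 := by exact_mod_cast h2
      omega
    · refine ⟨f, hf, U, hUt, ?_, ?_⟩
      · convert hVa
      · intro y hy
        rw [← hVm y hy]
        congr!
  · intro N hN
    apply magn_prob Λ w hw hsum κ n n' md j N hN hmd (by omega) hn' Bad BadT A'
    intro f σ' hσ' hmag
    have hcopy : ∀ i, ∀ t ∈ net, ∀ a ∈ Gr, ∀ (C : Finset (E d)) (k : ℝ),
      M.O (atoms Λ (2⁻¹ ^ j) (σ' i)) a (a + sc κ n' • t.1) (sc κ n' * (t.2 - rm)) C k →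
      ∑ x ∈ C, massL Λ (2⁻¹ ^ j) (σ' i) x - k ≤
        ℓ * (D a (a + sc κ n' • t.1) (sc κ n' * t.2) + ε) := by
      intro i t ht a ha C k hC
      obtain ⟨f', ⟨f1, hf1, U, hU, hat, hma⟩, e⟩ := hσ' i
      rw [e] at hC ⊢
      have hsup := hM.supp _ _ _ _ _ _ hC
      rw [hat] at hC hsup
      have h1 := hU t ht a ha C k hC
      have h2 : ∑ x ∈ C, massL Λ (2⁻¹ ^ j) (ext Λ _ f') x =
          ∑ x ∈ C, massL Λ (2⁻¹ ^ j) (ext Λ _ f1) x :=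
        Finset.sum_congr rfl (fun x hx => hma x (hsup (Finset.mem_coe.2 hx)))
      rw [h2]
      exact h1
    have hflag : ∀ i, ∀ z ∈ zbox d n', (atoms Λ (2⁻¹ ^ j) (σ' i) ∩ cell n' z).Nonempty →
      (atoms Λ (2⁻¹ ^ j) (ext Λ _ f0) ∩ cell n' z).Nonempty := by
      intro i z hz hne
      obtain ⟨f', ⟨f1, hf1, U, hU, hat, hma⟩, e⟩ := hσ' i
      rw [e, hat] at hne
      apply hAflag f1 hf1 f0 hf0 z hz
      obtain ⟨y, hy1, hy2⟩ := hne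
      exact ⟨y, hy1.1, hy2⟩
    have hR' : 8 * (κ * 2⁻¹ ^ n * N / 16) ≤ 2⁻¹ ^ md * (N : ℝ) := by
      have ht0 : (0 : ℝ) < 2⁻¹ ^ n := by positivity
      have ht1 : (2⁻¹ : ℝ) ^ n ≤ 1 := pow_le_one₀ (by norm_num) (by norm_num)
      have h1 : κ * 2⁻¹ ^ n ≤ 2 * 2⁻¹ ^ md := by nlinarith
      have hN0 : (0 : ℝ) ≤ N := Nat.cast_nonneg N
      nlinarith
    exact magn_root (by omega) M hM Λ εu mmax hΛ κ δ β c1 c3 rm ε ε2 r2 ℓ ζ η0 b0 Bm B0 Pmax hκ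
      hκ1 hδ hβ hβ' hc1 hc1' hc3 hε hε2 hr2 hr2' hℓ hζ ‹0 ≤ η0› hη' hb0 net hnet D hD n n' md j N
      hN hmd hnn hn' g hg Bad BadT hlow hupp Gr hGr Gr2 hGr2 K2 Nr hK2 hPmax hNr hBm0
      (ext Λ _ f0) (hA1 f0 hf0) (hAbm f0 hf0) (hArob f0 hf0) (ext Λ _ f) σ' hmag hcopy hflag hR'
      hbud hbud2 hhub0 hfin

theorem slack_pr (Λ : Lat d) (j : ℕ → ℕ) (r : ℕ → ℝ) (w : ℕ → Option Λ.A → ℝ)
    (Bs : ℕ → Finset (Fin d → ℤ)) (Ev : ∀ k, Set (Bs k → Option Λ.A)) (k : ℕ)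
    (A : Set (Bs k → Option Λ.A)) :
    (latSq Λ j r w Bs Ev).pr k A = pw (w k) A := by
  unfold Sq.pr pw
  exact slack_sum_eq _ _ _ _ fun f => if_congr Iff.rfl rfl rfl

/-- the final numerical computation -/
theorem slack_fin (d j : ℕ) (N M0 nk : ℕ) (I θ rlo ℓ c p0 pA pA' pE wn F F' X : ℝ)
    (hrlo : 0 < rlo) (hθ : 0 < θ) (hℓ : rlo * 2 ^ j ≤ ℓ) (hc : 0 < c) (hp0 : 0 < p0)
    (hF0 : 0 < F) (hFF : F ≤ F') (hE : Real.exp (-(I * ℓ ^ d)) ≤ pE) (hcE : c * pE ≤ pA)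
    (hAA : pA ≤ F ^ M0 * pA') (hnum : Real.exp (-(θ * rlo ^ d * (2 ^ j) ^ d)) ≤ c * (F' ^ M0)⁻¹ * p0 ^ nk)
    (hwn : p0 ≤ wn) (hX : pA' ^ (N ^ d) * wn ^ (N ^ d * nk) ≤ X) :
    Real.exp (-((I + θ) * (N * ℓ) ^ d)) ≤ X := by
  refine le_trans ?_ hX
  have hpE : 0 < pE := lt_of_lt_of_le (Real.exp_pos _) hE
  have h1 : (F' ^ M0)⁻¹ * (c * pE) ≤ pA' := by
    have a1 : c * pE ≤ F ^ M0 * pA' := hcE.trans hAA
    have hpA' : 0 ≤ pA' := by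
      by_contra hcon
      push Not at hcon
      have : F ^ M0 * pA' < 0 := mul_neg_of_pos_of_neg (by positivity) hcon
      have : 0 < c * pE := by positivity
      linarith
    have a2 : F ^ M0 * pA' ≤ F' ^ M0 * pA' :=
      mul_le_mul_of_nonneg_right (pow_le_pow_left₀ hF0.le hFF _) hpA'
    have hF' : 0 < F' ^ M0 := pow_pos (lt_of_lt_of_le hF0 hFF) _
    rw [inv_mul_le_iff₀ hF']
    exact a1.trans a2
  have hF' : 0 < F' ^ M0 := pow_pos (lt_of_lt_of_le hF0 hFF) _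
  have h2 : Real.exp (-(θ * rlo ^ d * (2 ^ j) ^ d)) * Real.exp (-(I * ℓ ^ d)) ≤ pA' * wn ^ nk := by
    calc Real.exp (-(θ * rlo ^ d * (2 ^ j) ^ d)) * Real.exp (-(I * ℓ ^ d))
        ≤ (c * (F' ^ M0)⁻¹ * p0 ^ nk) * pE :=
          mul_le_mul hnum hE (Real.exp_pos _).le (by positivity)
      _ = ((F' ^ M0)⁻¹ * (c * pE)) * p0 ^ nk := by ring
      _ ≤ pA' * wn ^ nk :=
          mul_le_mul h1 (pow_le_pow_left₀ hp0.le hwn _) (by positivity) (le_trans (by positivity) h1)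
  have h3 : Real.exp (-((I + θ) * ℓ ^ d)) ≤
      Real.exp (-(θ * rlo ^ d * (2 ^ j) ^ d)) * Real.exp (-(I * ℓ ^ d)) := by
    rw [← Real.exp_add]
    apply Real.exp_le_exp.2
    have a1 : rlo ^ d * (2 ^ j) ^ d ≤ ℓ ^ d := by
      rw [← mul_pow]
      exact pow_le_pow_left₀ (by positivity) hℓ _
    nlinarith
  have h4 := pow_le_pow_left₀ (Real.exp_pos _).le (h3.trans h2) (N ^ d)
  rw [mul_pow, ← pow_mul, ← Real.exp_nat_mul] at h4
  have e1 : ((N ^ d : ℕ) : ℝ) * -((I + θ) * ℓ ^ d) = -((I + θ) * (N * ℓ) ^ d) := by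
    push_cast
    ring
  rw [e1] at h4
  rw [mul_comm (N ^ d) nk]
  exact h4

theorem slack_main (hd : 2 ≤ d) (M : Model d) (hM : M.Ok) (Λ : Lat d) (εu mmax : ℝ)
    (hΛ : Λ.Ok εu mmax) (hm : 0 ≤ mmax) (j : ℕ → ℕ) (hj : Tendsto j atTop atTop) (r : ℕ → ℝ)
    (rlo rhi : ℝ) (hrlo : 0 < rlo) (hr : ∀ k, rlo ≤ r k ∧ r k ≤ rhi)
    (hr1 : ∀ k, 1 ≤ r k * 2 ^ j k) (w : ℕ → Option Λ.A → ℝ)
    (hw : ∀ k x, 0 ≤ w k x) (hsum : ∀ k, ∑ x, w k x = 1) (p0 : ℝ) (hp0 : 0 < p0)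
    (hp : ∀ k, p0 ≤ w k none) (ζ β η0 bb I θ : ℝ) (md : ℕ) (hζ : 0 < ζ) (hβ : 0 < β)
    (hβ' : β ≤ 1 / 2) (hη : 0 ≤ η0) (hη' : η0 ≤ ζ * β / 4) (hbb : 0 ≤ bb) (hθ : 0 < θ)
    (hI : ∀ k, Real.exp (-(I * (r k * 2 ^ j k) ^ d)) ≤
      prB Λ (abx d md 1 (j k)) (w k) (RootEv M Λ (j k) 1 (ζ * (r k * 2 ^ j k)))) :
    ∃ᶠ k in atTop, ∀ N : ℕ, 1 ≤ N →
      Real.exp (-((I + θ) * (N * (r k * 2 ^ j k)) ^ d)) ≤
        prB Λ (abx d md N (j k)) (w k)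
          (RootDZ M Λ (j k) N md β (η0 * (r k * 2 ^ j k)) (bb * 2⁻¹ ^ j k)
            (ζ * (1 - β - β * 2⁻¹ ^ md / 16) * (r k * 2 ^ j k) * N)) := by
  have hd1 : 1 ≤ d := by omega
  have hp01 : p0 ≤ 1 := by
    have h1 := hp 0
    have h2 : w 0 none ≤ ∑ x, w 0 x :=
      Finset.single_le_sum (fun x _ => hw 0 x) (Finset.mem_univ _)
    rw [hsum 0] at h2
    linarith
  have hrad0 : (0 : ℝ) < 2⁻¹ ^ md := by positivity
  obtain ⟨G, hG, hGβ, hGζ⟩ : ∃ G : ℝ, 0 < G ∧ G ≤ β / 2 ∧ G * (ζ + 1) ≤ ζ * β * 2⁻¹ ^ md / 16 := by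
    refine ⟨min (β / 2) (ζ * β * 2⁻¹ ^ md / (16 * (ζ + 1))), ?_, min_le_left _ _, ?_⟩
    · exact lt_min (by positivity) (by positivity)
    · have h1 : min (β / 2) (ζ * β * 2⁻¹ ^ md / (16 * (ζ + 1))) ≤
        ζ * β * 2⁻¹ ^ md / (16 * (ζ + 1)) := min_le_right _ _
      rw [le_div_iff₀ (by positivity)] at h1
      linarith
  have hLq : 0 ≤ 2 ^ d * Real.log (1 / p0) :=
    mul_nonneg (by positivity) (Real.log_nonneg (by rw [le_div_iff₀ hp0]; linarith))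
  obtain ⟨κ, δ, c1, hκ, hκ1, hκr, hκG, hδ, hδ1, hδG, hq, hc1, hc1', hc1G⟩ :=
    slack_par d G (2⁻¹ ^ md) (2 ^ d * Real.log (1 / p0)) (θ * rlo ^ d) hG hrad0 hLq (by positivity)
  obtain ⟨net, rm, hnet, hrm⟩ := exists_net d c1 hc1
  -- the limit functional
  obtain ⟨B0, hX⟩ := lat_ok M hM Λ εu mmax hΛ hm j hj r rlo hrlo (fun k => (hr k).1) hr1 w hw
    (fun k => abx d md 1 (j k))
    (fun k => {f | ext Λ _ f ∈ RootEv M Λ (j k) 1 (ζ * (r k * 2 ^ j k))})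
  have hprEv : ∀ k, pw (w k) {f | ext Λ (abx d md 1 (j k)) f ∈
      RootEv M Λ (j k) 1 (ζ * (r k * 2 ^ j k))} =
      prB Λ (abx d md 1 (j k)) (w k) (RootEv M Λ (j k) 1 (ζ * (r k * 2 ^ j k))) := by
    intro k
    rw [slack_prB]
  have hpos : ∀ k, 0 < (latSq Λ j r w (fun k => abx d md 1 (j k))
    (fun k => {f | ext Λ _ f ∈ RootEv M Λ (j k) 1 (ζ * (r k * 2 ^ j k))})).pr k
      ((latSq Λ j r w (fun k => abx d md 1 (j k))
    (fun k => {f | ext Λ _ f ∈ RootEv M Λ (j k) 1 (ζ * (r k * 2 ^ j k))})).Ev k) := by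
    intro k
    have e := slack_pr Λ j r w (fun k => abx d md 1 (j k))
      (fun k => {f | ext Λ _ f ∈ RootEv M Λ (j k) 1 (ζ * (r k * 2 ^ j k))}) k
      {f | ext Λ _ f ∈ RootEv M Λ (j k) 1 (ζ * (r k * 2 ^ j k))}
    refine lt_of_lt_of_eq ?_ e.symm
    rw [hprEv k]
    exact lt_of_lt_of_le (Real.exp_pos _) (hI k)
  obtain ⟨D, hD, hLim⟩ := limit_functional M hM _ B0 hX hpos
  obtain ⟨n, hnmd, g, Bad, hBad, hg, hlow, hT⟩ :=
    two_scale hd1 hD net rm κ δ c1 hnet hrm hκ hκ1 hδ hc1' md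
  obtain ⟨Pmax, hPm⟩ : ∃ Pmax : ℝ, Pmax = 200 * (1 + 16 * 2 ^ n / κ) := ⟨_, rfl⟩
  have hPmax0 : 0 < Pmax := by rw [hPm]; positivity
  have hT1 : 2 * δ * κ * 2⁻¹ ^ n * Pmax ≤ 6800 * δ := by
    rw [hPm]; exact slack_T1 κ δ hκ hκ1 hδ.le n
  obtain ⟨ε2, hε2, hε2G⟩ : ∃ ε2 : ℝ, 0 < ε2 ∧ 2 * Pmax * ε2 ≤ G / 16 := by
    refine ⟨G / (32 * Pmax), by positivity, ?_⟩
    apply le_of_eq
    field_simp
    norm_num
  obtain ⟨r2, hr2, hr2', hbud2⟩ : ∃ r2 : ℝ, 0 < r2 ∧ r2 ≤ 1 ∧ 5 * r2 * Pmax ≤ G / 16 / 2 := by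
    refine ⟨min 1 (G / 16 / (10 * Pmax)), lt_min one_pos (by positivity), min_le_left _ _, ?_⟩
    have h1 : min 1 (G / 16 / (10 * Pmax)) ≤ G / 16 / (10 * Pmax) := min_le_right _ _
    rw [le_div_iff₀ (by positivity)] at h1
    linarith
  obtain ⟨Gr2, hGr2⟩ := exists_grid d 3 r2 hr2
  obtain ⟨K2, hK2⟩ := exists_nat_ge (1 / r2 + 3)
  obtain ⟨Nr, hNr⟩ := exists_nat_gt (Pmax * (7 * B0) / ε2)
  have hNr' : Pmax * (7 * B0) < Nr * ε2 := by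
    rwa [div_lt_iff₀ hε2] at hNr
  have hpow2 : Tendsto (fun k : ℕ => (2 : ℝ) ^ k) atTop atTop :=
    tendsto_pow_atTop_atTop_of_one_lt (by norm_num)
  have hpowh : Tendsto (fun k : ℕ => (2⁻¹ : ℝ) ^ k) atTop (nhds 0) :=
    tendsto_pow_atTop_nhds_zero_of_lt_one (by norm_num) (by norm_num)
  obtain ⟨n1, hn1⟩ : ∃ n1 : ℕ, ∀ n' ≥ n1, n + 3 ≤ n' ∧ 4 * (d * 2⁻¹ ^ n') * Pmax ≤ G / 16 / 2 ∧
      1 ≤ κ * 2 ^ (n' - n) := by
    apply eventually_atTop.1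
    have e1 : ∀ᶠ k : ℕ in atTop, n + 3 ≤ k := eventually_ge_atTop _
    have e2 : ∀ᶠ k : ℕ in atTop, 4 * (d * (2⁻¹ : ℝ) ^ k) * Pmax ≤ G / 16 / 2 := by
      have ht : Tendsto (fun k : ℕ => 4 * (d * (2⁻¹ : ℝ) ^ k) * Pmax) atTop
          (nhds (4 * (d * 0) * Pmax)) := ((hpowh.const_mul _).const_mul _).mul_const _
      have h0 : 4 * ((d : ℝ) * 0) * Pmax < G / 16 / 2 := by
        have : 0 < G / 16 / 2 := by positivity
        simpa using this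
      exact (ht.eventually (gt_mem_nhds h0)).mono (fun k hk => le_of_lt hk)
    have e3 : ∀ᶠ k : ℕ in atTop, 1 ≤ κ * (2 : ℝ) ^ (k - n) := by
      have ht : Tendsto (fun k : ℕ => κ * (2 : ℝ) ^ (k - n)) atTop atTop :=
        (hpow2.comp (tendsto_sub_atTop_nat n)).const_mul_atTop hκ
      exact ht.eventually (eventually_ge_atTop 1)
    exact e1.and (e2.and e3)
  obtain ⟨n', hn'1, hnn', BadT, hBadT, hupp⟩ := hT n1
  obtain ⟨hn3, hhub0, hQ⟩ := hn1 n' hn'1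
  obtain ⟨s, hs⟩ : ∃ s : ℝ, s = sc κ n' := ⟨_, rfl⟩
  have hs0 : 0 < s := by rw [hs]; unfold sc; positivity
  have hs1 : s ≤ 1 := by
    rw [hs]
    unfold sc
    have ht1 : (2⁻¹ : ℝ) ^ n' ≤ 1 := pow_le_one₀ (by norm_num) (by norm_num)
    have ht0 : (0 : ℝ) < 2⁻¹ ^ n' := by positivity
    nlinarith
  obtain ⟨ε, hε, hεG⟩ : ∃ ε : ℝ, 0 < ε ∧ 20 * (1 + 1 / s) * ε ≤ G / 16 := by
    refine ⟨G / (16 * (20 * (1 + 1 / s))), by positivity, ?_⟩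
    apply le_of_eq
    field_simp
  obtain ⟨Gr, hGr⟩ := exists_grid d (d + 3) (rm * s) (mul_pos hnet.rm_pos hs0)
  -- the limit property
  obtain ⟨c, CU, hc, hfreq⟩ := hLim
    ((Gr ×ˢ net).image (fun x => (x.1, x.1 + s • x.2.1, s * (x.2.2 - rm), s * x.2.2)))
    (((Gr2 ×ˢ (Gr2 ×ˢ Finset.range (K2 + 1))).image
      (fun x => (x.1, x.2.1, (x.2.2 : ℝ) * r2))).filter (fun t => ‖t.1 - t.2.1‖ < t.2.2))
    ((zbox d n').image (fun z => cell n' z)) (min ε ε2) Nr (lt_min hε hε2)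
    (by
      intro t ht
      simp only [Finset.mem_image, Finset.mem_product] at ht
      obtain ⟨x, ⟨hx1, hx2⟩, rfl⟩ := ht
      have h1 := (hnet.typ x.2 hx2).1
      refine ⟨?_, ?_⟩
      · have : x.1 - (x.1 + s • x.2.1) = -(s • x.2.1) := by abel
        simp only [this, norm_neg, norm_smul, Real.norm_eq_abs, abs_of_pos hs0]
        apply mul_le_mul_of_nonneg_left _ hs0.le
        linarith
      · apply mul_lt_mul_of_pos_left _ hs0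
        linarith [hnet.rm_pos])
    (by
      intro t ht
      exact (Finset.mem_filter.1 ht).2)
  -- the eventual conditions
  have hℓt : Tendsto (fun k => r k * 2 ^ j k) atTop atTop := by
    refine tendsto_atTop_mono (fun k => ?_) ((hpow2.comp hj).const_mul_atTop hrlo)
    have h2 : (0 : ℝ) ≤ 2 ^ j k := by positivity
    exact mul_le_mul_of_nonneg_right (hr k).1 h2
  have ev1 : ∀ᶠ k in atTop, 20 * (1 + 1 / s) * (M.k0 / (r k * 2 ^ j k) + η0 * (bb * 2⁻¹ ^ j k)) ≤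
      G / 16 := by
    have ht : Tendsto (fun k => 20 * (1 + 1 / s) *
        (M.k0 / (r k * 2 ^ j k) + η0 * (bb * 2⁻¹ ^ j k))) atTop
        (nhds (20 * (1 + 1 / s) * (0 + η0 * (bb * 0)))) := by
      apply Tendsto.const_mul
      apply Tendsto.add
      · exact hℓt.const_div_atTop _
      · exact ((hpowh.comp hj).const_mul _).const_mul _
    have h0 : 20 * (1 + 1 / s) * (0 + η0 * (bb * 0)) < G / 16 := by
      have : 0 < G / 16 := by positivity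
      simpa using this
    exact (ht.eventually (gt_mem_nhds h0)).mono (fun k hk => le_of_lt hk)
  have ev2 : ∀ᶠ k in atTop, 2 * M.k0 * Pmax / (r k * 2 ^ j k) ≤ G / 16 := by
    have ht : Tendsto (fun k => 2 * M.k0 * Pmax / (r k * 2 ^ j k)) atTop (nhds 0) :=
      hℓt.const_div_atTop _
    have h0 : 0 < G / 16 := by positivity
    exact (ht.eventually (gt_mem_nhds h0)).mono (fun k hk => le_of_lt hk)
  have ev3 : ∀ᶠ k in atTop, n' ≤ j k := hj.eventually (eventually_ge_atTop n')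
  have ev4 : ∀ᶠ k in atTop, 1 ≤ κ * (2 : ℝ) ^ (j k - n') := by
    have ht : Tendsto (fun k : ℕ => κ * (2 : ℝ) ^ (j k - n')) atTop atTop :=
      ((hpow2.comp (tendsto_sub_atTop_nat n')).comp hj).const_mul_atTop hκ
    exact ht.eventually (eventually_ge_atTop 1)
  have hθ' : 0 < θ * rlo ^ d := by positivity
  have hq0 : 0 ≤ 10 * κ * d + 2 * δ := by positivity
  have hq' : (10 * κ * d + 2 * δ) * 2 ^ d * Real.log (1 / p0) ≤ θ * rlo ^ d / 2 := by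
    rw [mul_assoc]
    exact hq
  have ev5 := hj.eventually (num_final d hd c (max CU 0 * rhi) p0 (θ * rlo ^ d)
    (10 * κ * d + 2 * δ) (Fintype.card Λ.A) hc hp0 hp01 hθ' hq0 hq')
  apply (hfreq.and_eventually (ev1.and (ev2.and (ev3.and (ev4.and ev5))))).mono
  rintro k ⟨⟨A, hAEv, hAc, hAU, hAR, hAF⟩, h1, h2, h3, h4, h5⟩ N hN
  have hℓ1 : 1 ≤ r k * 2 ^ j k := hr1 k
  have hℓ0 : 0 < r k * 2 ^ j k := by linarith
  obtain ⟨hbud, hfin⟩ := slack_arith ζ β (2⁻¹ ^ md) G κ δ c1 (G / 16) (2⁻¹ ^ n) Pmax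
    (2 * δ * κ * 2⁻¹ ^ n * Pmax) s ε ε2 (M.k0 / (r k * 2 ^ j k))
    (2 * M.k0 * Pmax / (r k * 2 ^ j k)) (η0 * (bb * 2⁻¹ ^ j k)) hζ hG hGβ hGζ hκG hκ hδ hκ1 hδG
    hc1G rfl (by positivity) (pow_le_one₀ (by norm_num) (by norm_num)) hT1 hs0 hs1 hε2G h2 hεG h1
  have hAc' : c * pw (w k) {f | ext Λ (abx d md 1 (j k)) f ∈
      RootEv M Λ (j k) 1 (ζ * (r k * 2 ^ j k))} ≤ pw (w k) A := by
    have e1 := slack_pr Λ j r w (fun k => abx d md 1 (j k))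
      (fun k => {f | ext Λ _ f ∈ RootEv M Λ (j k) 1 (ζ * (r k * 2 ^ j k))}) k
      {f | ext Λ _ f ∈ RootEv M Λ (j k) 1 (ζ * (r k * 2 ^ j k))}
    have e2 := slack_pr Λ j r w (fun k => abx d md 1 (j k))
      (fun k => {f | ext Λ _ f ∈ RootEv M Λ (j k) 1 (ζ * (r k * 2 ^ j k))}) k A
    rw [← e1, ← e2]
    exact hAc
  have hEpos : 0 < pw (w k) {f | ext Λ (abx d md 1 (j k)) f ∈
      RootEv M Λ (j k) 1 (ζ * (r k * 2 ^ j k))} := by
    rw [hprEv k]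
    exact lt_of_lt_of_le (Real.exp_pos _) (hI k)
  have hApos : 0 < pw (w k) A := lt_of_lt_of_le (mul_pos hc hEpos) hAc'
  have hAne : A.Nonempty := by
    by_contra hcon
    rw [Set.not_nonempty_iff_eq_empty] at hcon
    have h0 : pw (w k) A = 0 := by
      unfold pw
      apply Finset.sum_eq_zero
      intro f _
      rw [if_neg]
      rw [hcon]
      exact Set.notMem_empty f
    linarith
  obtain ⟨A', hA'1, hA'2⟩ := slack_step hd M hM Λ εu mmax hΛ κ δ β c1 (G / 16) rm ε ε2 r2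
    (r k * 2 ^ j k) ζ η0 (bb * 2⁻¹ ^ j k) (7 * B0) B0 Pmax hκ hκ1 hδ hβ hβ' hc1 hc1'
    (by positivity) hε hε2 hr2 hr2' hℓ0 hζ hη hη' (by positivity) net hnet D hD n n' md (j k) hnmd
    hn3 h3 g hg Bad BadT hlow hupp Gr (by rw [← hs]; exact hGr) Gr2 hGr2 K2 Nr hK2 hPm.ge hNr'
    (by linarith [hX.B_pos]) hκr hbud hbud2 hhub0 (by rw [← hs]; exact hfin) (w k) (hw k) (hsum k)
    p0 hp0 (hp k) A (max CU 0)
    (fun f hf => hAEv hf)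
    (by
      intro f hf
      obtain ⟨U, hU1, hU2, hU3⟩ := hAU f hf
      refine ⟨U, hU1, ?_, ?_⟩
      · refine le_trans hU2 ?_
        exact mul_le_mul_of_nonneg_right (le_max_left _ _) hℓ0.le
      · intro t ht a ha C kk hC
        rw [← hs] at hC ⊢
        have h := hU3 (a, a + s • t.1, s * (t.2 - rm), s * t.2) (by
          simp only [Finset.mem_image, Finset.mem_product]
          exact ⟨(a, t), ⟨ha, ht⟩, rfl⟩) C kk hC
        refine le_trans h ?_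
        apply mul_le_mul_of_nonneg_left _ hℓ0.le
        have := min_le_left ε ε2
        dsimp only
        linarith)
    (by
      intro f hf a ha c' hc' kk hkk hlt
      have h := hAR f hf (a, c', (kk : ℝ) * r2) (by
        simp only [Finset.mem_filter, Finset.mem_image, Finset.mem_product, Finset.mem_range]
        exact ⟨⟨(a, c', kk), ⟨ha, hc', Nat.lt_succ_of_le hkk⟩, rfl⟩, hlt⟩)
      obtain ⟨F, hF1, hF2⟩ := h
      refine ⟨F, hF1, fun i => ?_⟩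
      obtain ⟨κ', hκ'1, hκ'2⟩ := hF2 i
      refine ⟨κ', hκ'1, le_trans ?_ hκ'2⟩
      apply mul_le_mul_of_nonneg_left _ hℓ0.le
      have := min_le_right ε ε2
      dsimp only
      linarith)
    (by
      intro f hf f' hf' z hz hne
      exact (hAF f hf f' hf' (cell n' z) (Finset.mem_image_of_mem _ hz)).1 hne)
    (by
      intro f hf a b lam C kk hlam hC
      have h := (hX.mass k f a b lam C kk hC).1
      refine le_trans h ?_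
      have hB := hX.B_pos
      have h6 : r k * 2 ^ j k * lam + 1 ≤ 7 * (r k * 2 ^ j k) := by nlinarith
      calc B0 * (r k * 2 ^ j k * lam + 1) ≤ B0 * (7 * (r k * 2 ^ j k)) :=
            mul_le_mul_of_nonneg_left h6 hB.le
        _ = 7 * B0 * (r k * 2 ^ j k) := by ring)
    hAne
  have hM0 : max CU 0 * (r k * 2 ^ j k) < (⌊max CU 0 * (r k * 2 ^ j k)⌋₊ : ℝ) + 1 :=
    Nat.lt_floor_add_one _
  have hrk : r k ≤ rhi := (hr k).2
  have hM0' : ((⌊max CU 0 * (r k * 2 ^ j k)⌋₊ : ℕ) : ℝ) ≤ max CU 0 * rhi * 2 ^ j k := by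
    refine le_trans (Nat.floor_le (by positivity)) ?_
    rw [mul_assoc]
    apply mul_le_mul_of_nonneg_left _ (le_max_right _ _)
    exact mul_le_mul_of_nonneg_right hrk (by positivity)
  have hnk : ((((abx d md 1 (j k)).filter
      (fun p => ¬ KeptS κ n n' (j k) Bad BadT p)).card : ℕ) : ℝ) ≤
      (10 * κ * d + 2 * δ) * (2 ^ (j k + 1)) ^ d := by
    refine le_trans ?_ (kept_card κ δ hκ hκ1 hδ.le n n' (j k) (by omega) h3 hQ h4 Bad BadT hBad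
      hBadT)
    have : (abx d md 1 (j k)).filter (fun p => ¬ KeptS κ n n' (j k) Bad BadT p) ⊆
        (bx d (2 ^ j k)).filter (fun p => ¬ KeptS κ n n' (j k) Bad BadT p) := by
      apply Finset.filter_subset_filter
      unfold abx
      rw [one_mul]
      exact Finset.sdiff_subset
    exact_mod_cast Finset.card_le_card this
  have hcard : (Fintype.card (abx d md 1 (j k)) : ℝ) ≤ (2 ^ (j k + 1)) ^ d := by
    rw [Fintype.card_coe]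
    exact slack_card_abx d md (j k)
  exact slack_fin d (j k) N ⌊max CU 0 * (r k * 2 ^ j k)⌋₊ _ I θ rlo (r k * 2 ^ j k) c p0
    (pw (w k) A) (pw (w k) A') (pw (w k) {f | ext Λ (abx d md 1 (j k)) f ∈
      RootEv M Λ (j k) 1 (ζ * (r k * 2 ^ j k))}) (w k none)
    ((((Fintype.card (abx d md 1 (j k)) : ℝ) + 1) * (Fintype.card Λ.A + 1)) / p0)
    ((((2 : ℝ) ^ (j k + 1)) ^ d + 1) * (Fintype.card Λ.A + 1) / p0) _ hrlo hθ
    (mul_le_mul_of_nonneg_right (hr k).1 (by positivity)) hc hp0 (by positivity)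
    (by
      apply div_le_div_of_nonneg_right _ hp0.le
      apply mul_le_mul_of_nonneg_right _ (by positivity)
      linarith)
    (by rw [hprEv k]; exact hI k) hAc' (hA'1 _ hM0)
    (h5 ⌊max CU 0 * (r k * 2 ^ j k)⌋₊ _ hM0' hnk) (hp k) (hA'2 N hN)

theorem slack (hd : 2 ≤ d) (M : Model d) (hM : M.Ok) (Λ : Lat d) (εu mmax : ℝ)
    (hΛ : Λ.Ok εu mmax) (hm : 0 ≤ mmax) (j : ℕ → ℕ) (hj : Tendsto j atTop atTop) (r : ℕ → ℝ)
    (rlo rhi : ℝ) (hrlo : 0 < rlo) (hr : ∀ k, rlo ≤ r k ∧ r k ≤ rhi) (w : ℕ → Option Λ.A → ℝ)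
    (hw : ∀ k x, 0 ≤ w k x) (hsum : ∀ k, ∑ x, w k x = 1) (p0 : ℝ) (hp0 : 0 < p0)
    (hp : ∀ k, p0 ≤ w k none) (ζ β η0 bb I θ : ℝ) (md : ℕ) (hζ : 0 < ζ) (hβ : 0 < β)
    (hβ' : β ≤ 1 / 2) (hη : 0 ≤ η0) (hη' : η0 ≤ ζ * β / 4) (hbb : 0 ≤ bb) (hθ : 0 < θ)
    (hI : ∀ k, Real.exp (-(I * (r k * 2 ^ j k) ^ d)) ≤
      prB Λ (abx d md 1 (j k)) (w k) (RootEv M Λ (j k) 1 (ζ * (r k * 2 ^ j k)))) :
    ∃ᶠ k in atTop, ∀ N : ℕ, 1 ≤ N →
      Real.exp (-((I + θ) * (N * (r k * 2 ^ j k)) ^ d)) ≤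
        prB Λ (abx d md N (j k)) (w k)
          (RootDZ M Λ (j k) N md β (η0 * (r k * 2 ^ j k)) (bb * 2⁻¹ ^ j k)
            (ζ * (1 - β - β * 2⁻¹ ^ md / 16) * (r k * 2 ^ j k) * N)) := by
  have hpow2 : Tendsto (fun k : ℕ => (2 : ℝ) ^ k) atTop atTop :=
    tendsto_pow_atTop_atTop_of_one_lt (by norm_num)
  have hℓt : Tendsto (fun k => r k * 2 ^ j k) atTop atTop := by
    refine tendsto_atTop_mono (fun k => ?_) ((hpow2.comp hj).const_mul_atTop hrlo)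
    have h2 : (0 : ℝ) ≤ 2 ^ j k := by positivity
    exact mul_le_mul_of_nonneg_right (hr k).1 h2
  obtain ⟨k0, hk0⟩ := eventually_atTop.1 (hℓt.eventually (eventually_ge_atTop 1))
  have h := slack_main hd M hM Λ εu mmax hΛ hm (fun k => j (k + k0))
    (hj.comp (tendsto_add_atTop_nat k0)) (fun k => r (k + k0)) rlo rhi hrlo (fun k => hr (k + k0))
    (fun k => hk0 (k + k0) (by omega)) (fun k => w (k + k0)) (fun k => hw (k + k0))
    (fun k => hsum (k + k0)) p0 hp0 (fun k => hp (k + k0)) ζ β η0 bb I θ md hζ hβ hβ' hη hη' hbb hθ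
    (fun k => hI (k + k0))
  exact (tendsto_add_atTop_nat k0).frequently h

end MP4fb

end
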