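import Pool.Agent.Lib.MP_4fbc34_pr.LatDef

/-!
JOB LatA: elementary facts on lattice environments.
* `lpos_sep`: for `p ≠ p'` some coordinate differs: `|(p i + u) - (p' i + u')| >= 1 - |u - u'| >= 2 εu`, because
  `u, u' ∈ [εu, 1 - εu]`; so the distance is at least `2 εu η`.
* `massL_atom`: the site and the state of an atom are unique up to the position; for a fixed position the site
  is unique (`lpos_sep` with `η > 0`) and so is the state, as `σ p = some a`; the set in the definition is `{mm a}`.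
* `massL_nonneg`, `massL_le` (the set is empty or a singleton).
* `lat_count`: `M.count` with `r = 2 εu η`.
* `lat_ok`: `B = (1 + mmax) * (1 + 1 / (rlo εu))` or larger.  Mass of `C` at most `mmax * card C`, and
  `lam / (εu η) = lam 2^j / εu = ℓ lam / (r εu)`.
-/

set_option autoImplicit false

open scoped Classical

noncomputable section

namespace MP4fb

variable {d : ℕ}

theorem lpos_sep (Λ : Lat d) (εu mmax : ℝ) (hΛ : Λ.Ok εu mmax) (η : ℝ) (hη : 0 < η)
    (p p' : Fin d → ℤ) (a a' : Λ.A) (h : p ≠ p') :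
    2 * εu * η ≤ ‖lpos Λ η p a - lpos Λ η p' a'‖ := by
  obtain ⟨i, hi⟩ := Function.ne_iff.1 h
  have h1 : ‖(lpos Λ η p a - lpos Λ η p' a') i‖ ≤ ‖lpos Λ η p a - lpos Λ η p' a'‖ :=
    PiLp.norm_apply_le _ i
  refine le_trans ?_ h1
  have h2 : (lpos Λ η p a - lpos Λ η p' a') i =
      η * (((p i - p' i : ℤ) : ℝ) + (Λ.u a i - Λ.u a' i)) := by
    simp only [lpos, toE, PiLp.sub_apply, PiLp.smul_apply, PiLp.add_apply, smul_eq_mul]
    push_cast
    ring
  have h3 : (1 : ℝ) ≤ |((p i - p' i : ℤ) : ℝ)| := by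
    rw [← Int.cast_abs]
    exact_mod_cast Int.one_le_abs (sub_ne_zero.2 hi)
  have h4 := hΛ.u_ge a i
  have h5 := hΛ.u_le a i
  have h6 := hΛ.u_ge a' i
  have h7 := hΛ.u_le a' i
  rw [h2, Real.norm_eq_abs, abs_mul, abs_of_pos hη, mul_comm]
  apply mul_le_mul_of_nonneg_left _ hη.le
  rcases le_total 0 (((p i - p' i : ℤ) : ℝ)) with h8 | h8
  · rw [abs_of_nonneg h8] at h3
    refine le_trans ?_ (le_abs_self _)
    linarith
  · rw [abs_of_nonpos h8] at h3
    refine le_trans ?_ (neg_le_abs _)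
    linarith

private theorem lpos_inj (Λ : Lat d) (εu mmax : ℝ) (hΛ : Λ.Ok εu mmax) (η : ℝ) (hη : 0 < η)
    (p p' : Fin d → ℤ) (a a' : Λ.A) (h : lpos Λ η p a = lpos Λ η p' a') : p = p' := by
  by_contra hne
  have h1 := lpos_sep Λ εu mmax hΛ η hη p p' a a' hne
  rw [h, sub_self, norm_zero] at h1
  have h2 := mul_pos (mul_pos two_pos hΛ.eps_pos) hη
  linarith

theorem massL_atom (Λ : Lat d) (εu mmax : ℝ) (hΛ : Λ.Ok εu mmax) (η : ℝ) (hη : 0 < η) (σ : Cfg Λ)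
    (p : Fin d → ℤ) (a : Λ.A) (h : σ p = some a) : massL Λ η σ (lpos Λ η p a) = Λ.mm a := by
  have h1 : {t | ∃ (p' : Fin d → ℤ) (a' : Λ.A), σ p' = some a' ∧
      lpos Λ η p a = lpos Λ η p' a' ∧ t = Λ.mm a'} = {Λ.mm a} := by
    ext t
    constructor
    · rintro ⟨p', a', h2, h3, h4⟩
      have h5 := lpos_inj Λ εu mmax hΛ η hη p p' a a' h3
      rw [← h5, h, Option.some.injEq] at h2
      rw [Set.mem_singleton_iff, h4, h2]
    · intro h2
      exact ⟨p, a, h, rfl, h2⟩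
  rw [massL, h1, csSup_singleton]

theorem massL_nonneg (Λ : Lat d) (εu mmax : ℝ) (hΛ : Λ.Ok εu mmax) (η : ℝ) (hη : 0 < η) (σ : Cfg Λ)
    (y : E d) : 0 ≤ massL Λ η σ y := by
  apply Real.sSup_nonneg
  rintro t ⟨p, a, _, _, rfl⟩
  exact hΛ.mm_nonneg a

theorem massL_le (Λ : Lat d) (εu mmax : ℝ) (hΛ : Λ.Ok εu mmax) (η : ℝ) (hη : 0 < η) (σ : Cfg Λ)
    (y : E d) (hm : 0 ≤ mmax) : massL Λ η σ y ≤ mmax := by
  apply Real.sSup_le _ hm
  rintro t ⟨p, a, _, _, rfl⟩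
  exact hΛ.mm_le a

theorem lat_count (M : Model d) (hM : M.Ok) (Λ : Lat d) (εu mmax : ℝ) (hΛ : Λ.Ok εu mmax) (η : ℝ)
    (hη : 0 < η) (σ : Cfg Λ) (a b : E d) (lam : ℝ) (C : Finset (E d)) (k : ℝ)
    (h : M.O (atoms Λ η σ) a b lam C k) : (C.card : ℝ) ≤ 1 + lam / (εu * η) := by
  have hr : 0 < 2 * εu * η := mul_pos (mul_pos two_pos hΛ.eps_pos) hη
  have h1 := hM.count _ a b lam C k (2 * εu * η) h hr.le (fun x hx y hy hxy => by
    obtain ⟨p, c, h2, rfl⟩ := hM.supp _ _ _ _ _ _ h (Finset.mem_coe.2 hx)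
    obtain ⟨p', c', h3, rfl⟩ := hM.supp _ _ _ _ _ _ h (Finset.mem_coe.2 hy)
    apply lpos_sep Λ εu mmax hΛ η hη
    intro h4
    apply hxy
    rw [h4, h3, Option.some.injEq] at h2
    rw [h4, h2])
  have h2 : (C.card : ℝ) = (2 * εu * η * C.card) / (2 * εu * η) := by
    rw [mul_div_assoc, mul_div_cancel₀]
    exact hr.ne'
  have h3 : 1 + lam / (εu * η) = (2 * εu * η + 2 * lam) / (2 * εu * η) := by
    have h4 := hΛ.eps_pos
    field_simp
  rw [h3, le_div_iff₀ hr]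
  linarith

theorem lat_ok (M : Model d) (hM : M.Ok) (Λ : Lat d) (εu mmax : ℝ) (hΛ : Λ.Ok εu mmax)
    (hm : 0 ≤ mmax) (j : ℕ → ℕ) (hj : Filter.Tendsto j Filter.atTop Filter.atTop) (r : ℕ → ℝ)
    (rlo : ℝ) (hrlo : 0 < rlo) (hr : ∀ k, rlo ≤ r k) (hr1 : ∀ k, 1 ≤ r k * 2 ^ j k)
    (w : ℕ → Option Λ.A → ℝ) (hw : ∀ k x, 0 ≤ w k x) (Bs : ℕ → Finset (Fin d → ℤ))
    (Ev : ∀ k, Set (Bs k → Option Λ.A)) :
    ∃ B : ℝ, (latSq Λ j r w Bs Ev).Ok M B := by
  have he := hΛ.eps_pos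
  refine ⟨(1 + mmax) * (1 + 1 / (rlo * εu)), ?_, ?_, ?_, ?_, ?_, ?_⟩
  · positivity
  · intro k f
    exact Finset.prod_nonneg fun x _ => hw k _
  · exact hr1
  · have h1 : Filter.Tendsto (fun k => rlo * (2 : ℝ) ^ j k) Filter.atTop Filter.atTop :=
      Filter.Tendsto.const_mul_atTop hrlo
        ((tendsto_pow_atTop_atTop_of_one_lt one_lt_two).comp hj)
    exact Filter.tendsto_atTop_mono
      (fun k => mul_le_mul_of_nonneg_right (hr k) (by positivity)) h1
  · intro k f x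
    exact massL_nonneg Λ εu mmax hΛ _ (by positivity) _ _
  · intro k f a b lam C κ hO
    have hη : (0 : ℝ) < 2⁻¹ ^ j k := by positivity
    have hc := lat_count M hM Λ εu mmax hΛ _ hη _ a b lam C κ hO
    have hlam : 0 ≤ lam := (norm_nonneg _).trans (hM.valid _ _ _ _ _ _ hO)
    have hrk : 0 < r k := lt_of_lt_of_le hrlo (hr k)
    have hX : 0 ≤ r k * 2 ^ j k * lam := by positivity
    have h1 : lam / (εu * 2⁻¹ ^ j k) = (r k * 2 ^ j k * lam) / (r k * εu) := by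
      rw [inv_pow]
      field_simp
    have h2 : (r k * 2 ^ j k * lam) / (r k * εu) ≤ (r k * 2 ^ j k * lam) / (rlo * εu) := by
      have := hr k
      gcongr
    have h3 : (C.card : ℝ) ≤ 1 + (r k * 2 ^ j k * lam) / (rlo * εu) := by
      rw [h1] at hc
      linarith
    have hq : 0 < rlo * εu := mul_pos hrlo he
    have h4 : 1 + (r k * 2 ^ j k * lam) / (rlo * εu) ≤
        (1 + 1 / (rlo * εu)) * (r k * 2 ^ j k * lam + 1) := by
      have h5 : (r k * 2 ^ j k * lam) / (rlo * εu) = 1 / (rlo * εu) * (r k * 2 ^ j k * lam) := by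
        ring
      rw [h5]
      have h6 : 0 < 1 / (rlo * εu) := by positivity
      nlinarith
    have h7 : (0 : ℝ) ≤ (1 + 1 / (rlo * εu)) * (r k * 2 ^ j k * lam + 1) := by positivity
    constructor
    · have h5 : ∑ x ∈ C, massL Λ (2⁻¹ ^ j k) (ext Λ _ f) x ≤ ∑ x ∈ C, mmax :=
        Finset.sum_le_sum fun x _ => massL_le Λ εu mmax hΛ _ hη _ _ hm
      rw [Finset.sum_const, nsmul_eq_mul] at h5
      refine h5.trans ?_
      calc (C.card : ℝ) * mmax ≤
            ((1 + 1 / (rlo * εu)) * (r k * 2 ^ j k * lam + 1)) * (1 + mmax) := by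
            apply mul_le_mul (h3.trans h4) (by linarith) hm h7
        _ = (1 + mmax) * (1 + 1 / (rlo * εu)) * (r k * 2 ^ j k * lam + 1) := by ring
    · calc (C.card : ℝ) ≤ 1 * ((1 + 1 / (rlo * εu)) * (r k * 2 ^ j k * lam + 1)) := by
            rw [one_mul]
            exact h3.trans h4
        _ ≤ (1 + mmax) * ((1 + 1 / (rlo * εu)) * (r k * 2 ^ j k * lam + 1)) := by
            apply mul_le_mul_of_nonneg_right (by linarith) h7
        _ = (1 + mmax) * (1 + 1 / (rlo * εu)) * (r k * 2 ^ j k * lam + 1) := by ring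

end MP4fb

end
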