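import Pool.Agent.Lib.MP_4fbc34_pr.Base

/-!
JOB Lip: a Lipschitz map which moves finitely many points a little.

`Φ y = y + ∑_{i ∈ P} max 0 (1 - ‖y - x i‖ / ρ) • (x' i - x i)`.  At most one term is nonzero at every point: if two terms
`i ≠ j` are nonzero at `y` then `‖x i - x j‖ < 2 ρ`, a contradiction.  Each term is Lipschitz with constant `ε`
(`|max 0 (1 - s) - max 0 (1 - t)| <= |s - t|`, `‖x' i - x i‖ <= ε ρ`).  For two points `y, z`: if the nonzero terms are `i` at `y`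
and `j` at `z`, the difference of the sums is `f_i y - f_j z`, and if `i ≠ j` it is
`(f_i y - f_i z) + (f_j y - f_j z)` because `f_i z = 0 = f_j y`; so at most `2 ε ‖y - z‖`.
-/

set_option autoImplicit false

open scoped Classical

noncomputable section

namespace MP4fb

variable {d : ℕ}

private theorem lip_w (x y z : E d) (ρ : ℝ) (hρ : 0 < ρ) :
    |max 0 (1 - ‖y - x‖ / ρ) - max 0 (1 - ‖z - x‖ / ρ)| ≤ ‖y - z‖ / ρ := by
  have h1 : |max 0 (1 - ‖y - x‖ / ρ) - max 0 (1 - ‖z - x‖ / ρ)| ≤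
      |(1 - ‖y - x‖ / ρ) - (1 - ‖z - x‖ / ρ)| := by
    have := abs_max_sub_max_le_max (0 : ℝ) (1 - ‖y - x‖ / ρ) 0 (1 - ‖z - x‖ / ρ)
    rw [sub_self, abs_zero] at this
    exact this.trans (le_of_eq (max_eq_right (abs_nonneg _)))
  refine h1.trans ?_
  have e : (1 - ‖y - x‖ / ρ) - (1 - ‖z - x‖ / ρ) = (‖z - x‖ - ‖y - x‖) / ρ := by ring
  rw [e, abs_div, abs_of_pos hρ]
  refine div_le_div_of_nonneg_right ?_ hρ.le
  have h2 := abs_norm_sub_norm_le (z - x) (y - x)
  rw [sub_sub_sub_cancel_right] at h2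
  rw [norm_sub_rev y z]
  exact h2

theorem lip_map {ι : Type} (P : Finset ι) (x x' : ι → E d) (ρ ε : ℝ) (hρ : 0 < ρ) (hε : 0 ≤ ε)
    (hsep : ∀ i ∈ P, ∀ j ∈ P, i ≠ j → 2 * ρ ≤ ‖x i - x j‖)
    (hx : ∀ i ∈ P, ‖x' i - x i‖ ≤ ε * ρ) :
    ∃ Φ : E d → E d, (∀ i ∈ P, Φ (x i) = x' i) ∧ (∀ y, (∀ i ∈ P, ρ ≤ ‖y - x i‖) → Φ y = y) ∧
      ∀ y z, ‖Φ y - Φ z‖ ≤ (1 + 2 * ε) * ‖y - z‖ := by
  set w : ι → E d → ℝ := fun i y => max 0 (1 - ‖y - x i‖ / ρ) with hw
  have hw0 : ∀ i y, ρ ≤ ‖y - x i‖ → w i y = 0 := by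
    intro i y h
    apply max_eq_left
    have : 1 ≤ ‖y - x i‖ / ρ := (one_le_div hρ).2 h
    linarith
  have hw1 : ∀ i y, w i y ≠ 0 → ‖y - x i‖ < ρ := by
    intro i y h
    by_contra hcon
    exact h (hw0 i y (not_lt.1 hcon))
  have huniq : ∀ y, (P.filter (fun i => w i y ≠ 0)).card ≤ 1 := by
    intro y
    rw [Finset.card_le_one]
    intro i hi j hj
    rw [Finset.mem_filter] at hi hj
    by_contra hij
    have h1 := hsep i hi.1 j hj.1 hij
    have h2 := hw1 i y hi.2
    have h3 := hw1 j y hj.2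
    have h4 : ‖x i - x j‖ ≤ ‖y - x i‖ + ‖y - x j‖ := by
      have e : x i - x j = (y - x j) - (y - x i) := by abel
      rw [e, add_comm]
      exact norm_sub_le _ _
    linarith
  refine ⟨fun y => y + ∑ i ∈ P, w i y • (x' i - x i), ?_, ?_, ?_⟩
  · intro i hi
    show x i + ∑ j ∈ P, w j (x i) • (x' j - x j) = x' i
    rw [Finset.sum_eq_single i]
    · have : w i (x i) = 1 := by
        simp [hw]
      rw [this, one_smul]
      abel
    · intro j hj hji
      rw [hw0 j (x i) ?_, zero_smul]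
      have := hsep i hi j hj (Ne.symm hji)
      linarith
    · intro h
      exact absurd hi h
  · intro y hy
    show y + ∑ j ∈ P, w j y • (x' j - x j) = y
    rw [Finset.sum_eq_zero, add_zero]
    intro j hj
    rw [hw0 j y (hy j hj), zero_smul]
  · intro y z
    have e1 : (y + ∑ i ∈ P, w i y • (x' i - x i)) - (z + ∑ i ∈ P, w i z • (x' i - x i)) =
        (y - z) + ∑ i ∈ P, (w i y - w i z) • (x' i - x i) := by
      rw [add_sub_add_comm, ← Finset.sum_sub_distrib]
      congr 1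
      refine Finset.sum_congr rfl fun i _ => ?_
      rw [sub_smul]
    show ‖(y + ∑ i ∈ P, w i y • (x' i - x i)) - (z + ∑ i ∈ P, w i z • (x' i - x i))‖ ≤ _
    rw [e1]
    refine (norm_add_le _ _).trans ?_
    have h1 : ‖∑ i ∈ P, (w i y - w i z) • (x' i - x i)‖ ≤ 2 * ε * ‖y - z‖ := by
      have h2 : ∑ i ∈ P, (w i y - w i z) • (x' i - x i) =
          ∑ i ∈ P.filter (fun i => w i y ≠ 0 ∨ w i z ≠ 0), (w i y - w i z) • (x' i - x i) := by
        rw [Finset.sum_filter]
        refine Finset.sum_congr rfl fun i _ => ?_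
        split_ifs with h
        · rfl
        · push Not at h
          rw [h.1, h.2, sub_zero, zero_smul]
      rw [h2]
      refine (norm_sum_le _ _).trans ?_
      have h3 : ∀ i ∈ P.filter (fun i => w i y ≠ 0 ∨ w i z ≠ 0),
          ‖(w i y - w i z) • (x' i - x i)‖ ≤ ε * ‖y - z‖ := by
        intro i hi
        have hiP := (Finset.mem_filter.1 hi).1
        rw [norm_smul, Real.norm_eq_abs]
        have h4 := lip_w (x i) y z ρ hρ
        have h5 := hx i hiP
        calc |w i y - w i z| * ‖x' i - x i‖ ≤ ‖y - z‖ / ρ * (ε * ρ) :=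
              mul_le_mul h4 h5 (norm_nonneg _) (div_nonneg (norm_nonneg _) hρ.le)
          _ = ε * ‖y - z‖ := by field_simp
      have h6 := Finset.sum_le_card_nsmul _ _ _ h3
      rw [nsmul_eq_mul] at h6
      refine h6.trans ?_
      have h7 : (P.filter (fun i => w i y ≠ 0 ∨ w i z ≠ 0)).card ≤ 2 := by
        rw [Finset.filter_or]
        refine (Finset.card_union_le _ _).trans ?_
        have := huniq y
        have := huniq z
        omega
      have h8 : ((P.filter (fun i => w i y ≠ 0 ∨ w i z ≠ 0)).card : ℝ) ≤ 2 := by exact_mod_cast h7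
      rw [mul_assoc]
      exact mul_le_mul_of_nonneg_right h8 (mul_nonneg hε (norm_nonneg _))
    linarith

end MP4fb

end
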