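import Pool.Agent.Lib.MP_4fbc34_pr.DisA
import Pool.Agent.Lib.MP_4fbc34_pr.LatA
import Pool.Agent.Lib.MP_4fbc34_pr.Lip

/-!
JOB UpIncl: the root event of the configuration implies the root event of the upper discretisation.

Let `K = 1 + 2 ε`, `ε = d / (np εu)`, `ρ = εu r`, `U = r 2^j`.  Let `P0` be the (finite) set of the sites `p ∈ abx d md 1 j` with
`upc p = some a_p`; by `upc_some` there is exactly one point `(z_p, t_p)` of `X` in `Cset p a_p`, so
`z_p ∈ mcell p a_p.1` and `t_p >= mm a_p`.  Let `y_p = r (p + u a_p)` (`= U * lpos (2⁻ʲ) p a_p`).  Then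
`‖z_p - y_p‖ <= √d r (1 - 2 εu) / np <= d r / np = ε ρ`, the `y_p` are at mutual distance at least `2 ρ` (`lpos_sep` scaled by `U`),
and `‖0 - y_p‖ >= ρ` (all coordinates of `y_p` have absolute value at least `εu r`).  `lip_map` gives `Φ` with
`Φ y_p = z_p`, `Φ 0 = 0`, Lipschitz constant `K`.
Let `M.O (atoms σ) 0 b 1 C κ`, `σ = ext (upc ..)`.  `M.lip` with the map `x ↦ Φ (U x)` (constant `K U`), `S' = psupp X`: an object
from `0` to `Φ (U b)` of budget `K U <= L` collecting the image of `C`, with cost `κ' <= κ`; increase the budget to `L` by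
`M.cone`.  By `hroot`: `∑_{image} mass X <= ofReal (v + κ')`.  On the other hand the map is injective on the atoms
(different sites have different `z_p`, they are in different cells) and `mass X z_p >= ofReal t_p >= ofReal (massL ..)`
(`massL_atom`), so `ofReal (∑_C massL) <= ofReal (v + κ)`; as `v + κ >= 0` (`M.nonneg`) we get
`∑_C massL - κ <= v`.
-/

set_option autoImplicit false

open scoped ENNReal Classical

noncomputable section

namespace MP4fb

variable {d : ℕ}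

private theorem norm_le_coord (hd : 1 ≤ d) (x : E d) (c : ℝ) (hc : 0 ≤ c) (h : ∀ i, |x i| ≤ c) :
    ‖x‖ ≤ d * c := by
  have hd' : (1 : ℝ) ≤ d := by exact_mod_cast hd
  rw [EuclideanSpace.norm_eq]
  apply Real.sqrt_le_iff.2
  refine ⟨by positivity, ?_⟩
  have h1 : ∀ i, ‖x i‖ ^ 2 ≤ c ^ 2 := fun i => pow_le_pow_left₀ (norm_nonneg _) (h i) 2
  refine (Finset.sum_le_sum fun i _ => h1 i).trans ?_
  rw [Finset.sum_const, Finset.card_univ, Fintype.card_fin, nsmul_eq_mul, mul_pow]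
  have h4 : (d : ℝ) ≤ (d : ℝ) ^ 2 := by nlinarith
  exact mul_le_mul_of_nonneg_right h4 (by positivity)

private theorem cell_eq {r εu : ℝ} (hr : 0 < r) (he : 0 < εu) (p q : Fin d → ℤ) (x : E d)
    (h1 : ∀ i, r * (p i + εu) ≤ x i ∧ x i < r * (p i + (1 - εu)))
    (h2 : ∀ i, r * (q i + εu) ≤ x i ∧ x i < r * (q i + (1 - εu))) : p = q := by
  funext i
  have h3 : (p i : ℝ) < q i + 1 := by
    have := lt_of_le_of_lt (h1 i).1 (h2 i).2
    have := lt_of_mul_lt_mul_left this hr.le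
    linarith
  have h4 : (q i : ℝ) < p i + 1 := by
    have := lt_of_le_of_lt (h2 i).1 (h1 i).2
    have := lt_of_mul_lt_mul_left this hr.le
    linarith
  have h5 : p i < q i + 1 := by exact_mod_cast h3
  have h6 : q i < p i + 1 := by exact_mod_cast h4
  omega

theorem up_incl (hd : 1 ≤ d) (M : Model d) (hM : M.Ok) (P : DP) (hP : P.Ok) (r : ℝ) (hr : 0 < r)
    (md j : ℕ) (X : Set (E d × ℝ)) (hX : ∀ p ∈ X, 0 < p.2) (L v : ℝ) (hv : 0 ≤ v)
    (hL : (1 + 2 * (d / (P.np * P.εu))) * (r * 2 ^ j) ≤ L) (hroot : RootT M X L v) :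
    ext (P.lat d) (abx d md 1 j) (fun p => upc P r X p) ∈ RootEv M (P.lat d) j 1 v := by
  have hΛ := dp_lat_ok (d := d) P hP
  set σ : Cfg (P.lat d) := ext (P.lat d) (abx d md 1 j) (fun p => upc P r X p) with hσ
  have hη : (0 : ℝ) < 2⁻¹ ^ j := by positivity
  have hU : 0 < r * 2 ^ j := by positivity
  have hUη : r * 2 ^ j * 2⁻¹ ^ j = r := by
    rw [inv_pow]
    field_simp
  set U : ℝ := r * 2 ^ j with hUdef
  have hnp : (0 : ℝ) < P.np := by exact_mod_cast hP.np_pos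
  have he := hP.eu_pos
  have hd' : (1 : ℝ) ≤ d := by exact_mod_cast hd
  have hdata : ∀ (p : Fin d → ℤ) (a : (P.lat d).A), σ p = some a →
      ∃ z : E d × ℝ, z ∈ X ∧ z ∈ Cset P r p a := by
    intro p a h
    have h1 : upc P r X p = some a := by
      rw [hσ] at h
      unfold ext at h
      split_ifs at h with h2
      exact h
    have h2 := ((upc_some P hP r hr X p a).1 h1).1
    obtain ⟨z, hz⟩ := Set.encard_eq_one.1 h2
    have h3 : z ∈ X ∩ Cset P r p a := by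
      rw [hz]
      exact Set.mem_singleton z
    exact ⟨z, h3.1, h3.2⟩
  have hmemσ : ∀ (p : Fin d → ℤ) (a : (P.lat d).A), σ p = some a → p ∈ abx d md 1 j := by
    intro p a h
    rw [hσ] at h
    unfold ext at h
    split_ifs at h with h2
    exact h2
  choose! z hzX hzC using hdata
  have hlposU : ∀ (p : Fin d → ℤ) (a : (P.lat d).A) (i : Fin d),
      (U • lpos (P.lat d) (2⁻¹ ^ j) p a) i = r * (p i + (P.lat d).u a i) := by
    intro p a i
    simp only [lpos, toE, PiLp.smul_apply, PiLp.add_apply, smul_eq_mul]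
    rw [← mul_assoc, hUη]
  have hinner : ∀ (p : Fin d → ℤ) (a : (P.lat d).A), σ p = some a →
      ∀ i, r * (p i + P.εu) ≤ (z p a).1 i ∧ (z p a).1 i < r * (p i + (1 - P.εu)) :=
    fun p a h => mcell_sub P hP r hr p a.1 _ (hzC p a h).1
  set P0 : Finset ((Fin d → ℤ) × (P.lat d).A) :=
    (abx d md 1 j ×ˢ (Finset.univ : Finset (P.lat d).A)).filter (fun q => σ q.1 = some q.2) with hP0
  have hmem0 : ∀ q ∈ P0, σ q.1 = some q.2 := fun q hq => (Finset.mem_filter.1 hq).2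
  obtain ⟨Φ, hΦ1, hΦ2, hΦ3⟩ := lip_map P0 (fun q => U • lpos (P.lat d) (2⁻¹ ^ j) q.1 q.2)
    (fun q => (z q.1 q.2).1) (P.εu * r) (d / (P.np * P.εu)) (by positivity) (by positivity)
    (by
      intro q hq q' hq' hne
      have h1 : q.1 ≠ q'.1 := by
        intro h2
        apply hne
        have h3 := hmem0 q hq
        rw [h2, hmem0 q' hq', Option.some.injEq] at h3
        exact Prod.ext h2 h3.symm
      have h2 := lpos_sep (P.lat d) P.εu _ hΛ (2⁻¹ ^ j) hη q.1 q'.1 q.2 q'.2 h1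
      rw [← smul_sub, norm_smul, Real.norm_eq_abs, abs_of_pos hU]
      calc 2 * (P.εu * r) = U * (2 * P.εu * 2⁻¹ ^ j) := by rw [← hUη]; ring
        _ ≤ _ := mul_le_mul_of_nonneg_left h2 hU.le)
    (by
      intro q hq
      have h1 := (hzC q.1 q.2 (hmem0 q hq)).1
      have h2 : (d : ℝ) / (P.np * P.εu) * (P.εu * r) = d * (r / P.np) := by
        field_simp
      rw [h2]
      apply norm_le_coord hd _ _ (by positivity)
      intro i
      have h3 := h1 i
      have h4 : (U • lpos (P.lat d) (2⁻¹ ^ j) q.1 q.2) i =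
          r * (q.1 i + (P.εu + (1 - 2 * P.εu) * ((q.2.1 i : ℕ) : ℝ) / P.np)) := hlposU q.1 q.2 i
      rw [PiLp.sub_apply, h4, abs_le]
      have h5 : r * (q.1 i + (P.εu + (1 - 2 * P.εu) * (((q.2.1 i : ℕ) : ℝ) + 1) / P.np)) =
          r * (q.1 i + (P.εu + (1 - 2 * P.εu) * ((q.2.1 i : ℕ) : ℝ) / P.np)) +
            (1 - 2 * P.εu) * (r / P.np) := by
        ring
      rw [h5] at h3
      have h6 : 0 < r / P.np := by positivity
      constructor
      · linarith [h3.1]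
      · nlinarith [h3.2])
  have hK0 : 0 ≤ 1 + 2 * ((d : ℝ) / (P.np * P.εu)) := by positivity
  have hΦ0 : Φ 0 = 0 := by
    apply hΦ2
    intro q hq
    rw [zero_sub, norm_neg]
    have h1 : |(U • lpos (P.lat d) (2⁻¹ ^ j) q.1 q.2) ⟨0, hd⟩| ≤
      ‖U • lpos (P.lat d) (2⁻¹ ^ j) q.1 q.2‖ := by
      rw [← Real.norm_eq_abs]
      exact PiLp.norm_apply_le _ _
    refine le_trans ?_ h1
    rw [hlposU, abs_mul, abs_of_pos hr, mul_comm]
    apply mul_le_mul_of_nonneg_left _ hr.le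
    have h2 := hΛ.u_ge q.2 ⟨0, hd⟩
    have h3 := hΛ.u_le q.2 ⟨0, hd⟩
    rcases le_or_gt 0 (q.1 ⟨0, hd⟩) with h4 | h4
    · have h5 : (0 : ℝ) ≤ q.1 ⟨0, hd⟩ := by exact_mod_cast h4
      refine le_trans ?_ (le_abs_self _)
      linarith
    · have h5 : (q.1 ⟨0, hd⟩ : ℝ) ≤ -1 := by
        have : q.1 ⟨0, hd⟩ ≤ -1 := by omega
        exact_mod_cast this
      refine le_trans ?_ (neg_le_abs _)
      linarith
  have hΨ : ∀ (p : Fin d → ℤ) (a : (P.lat d).A), σ p = some a →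
      Φ (U • lpos (P.lat d) (2⁻¹ ^ j) p a) = (z p a).1 := by
    intro p a h
    exact hΦ1 (p, a) (Finset.mem_filter.2 ⟨Finset.mem_product.2 ⟨hmemσ p a h, Finset.mem_univ _⟩, h⟩)
  show Root M (atoms (P.lat d) (2⁻¹ ^ j) σ) (massL (P.lat d) (2⁻¹ ^ j) σ) 1 v
  intro b C κ hO
  obtain ⟨κ', hκ', hO'⟩ := hM.lip (atoms (P.lat d) (2⁻¹ ^ j) σ) (psupp X) 0 b 1 C κ
    (fun x => Φ (U • x)) ((1 + 2 * ((d : ℝ) / (P.np * P.εu))) * U) (by positivity)
    (by
      intro x y
      refine (hΦ3 _ _).trans ?_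
      rw [← smul_sub, norm_smul, Real.norm_eq_abs, abs_of_pos hU]
      exact (mul_assoc _ _ _).symm.le)
    (by
      rintro x ⟨p, a, h, rfl⟩
      rw [hΨ p a h]
      exact ⟨(z p a).2, hzX p a h⟩) hO
  have hO2 : M.O (psupp X) 0 (Φ (U • b)) L (C.image (fun x => Φ (U • x))) κ' := by
    apply hM.cone _ _ _ _ _ _ _ _ _ hO'
    simp only [smul_zero, hΦ0, sub_self, norm_zero, add_zero, mul_one]
    exact hL
  have h1 := hroot _ _ _ hO2
  have hCat : ∀ x ∈ C, ∃ (p : Fin d → ℤ) (a : (P.lat d).A), σ p = some a ∧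
      x = lpos (P.lat d) (2⁻¹ ^ j) p a := fun x hx => hM.supp _ _ _ _ _ _ hO (Finset.mem_coe.2 hx)
  rw [Finset.sum_image (by
    intro x hx y hy hxy
    obtain ⟨p, a, h2, rfl⟩ := hCat x (Finset.mem_coe.1 hx)
    obtain ⟨q, a', h3, rfl⟩ := hCat y (Finset.mem_coe.1 hy)
    simp only at hxy
    rw [hΨ p a h2, hΨ q a' h3] at hxy
    have h4 := hinner p a h2
    rw [hxy] at h4
    have h5 := cell_eq hr he p q _ h4 (hinner q a' h3)
    rw [h5, h3, Option.some.injEq] at h2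
    rw [h5, h2])] at h1
  have h2 : ∀ x ∈ C, ENNReal.ofReal (massL (P.lat d) (2⁻¹ ^ j) σ x) ≤ mass X (Φ (U • x)) := by
    intro x hx
    obtain ⟨p, a, h3, rfl⟩ := hCat x hx
    rw [massL_atom (P.lat d) P.εu _ hΛ _ hη σ p a h3, hΨ p a h3]
    have h4 : (z p a).2 ≥ (P.lat d).mm a := (hzC p a h3).2.1
    refine (ENNReal.ofReal_le_ofReal h4).trans ?_
    exact ENNReal.le_tsum (f := fun t : {t : ℝ // ((z p a).1, t) ∈ X} => ENNReal.ofReal t)
      ⟨(z p a).2, hzX p a h3⟩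
  have h3 : ENNReal.ofReal (∑ x ∈ C, massL (P.lat d) (2⁻¹ ^ j) σ x) ≤ ENNReal.ofReal (v + κ) := by
    rw [ENNReal.ofReal_sum_of_nonneg fun x _ => massL_nonneg (P.lat d) P.εu _ hΛ _ hη σ x]
    refine (Finset.sum_le_sum h2).trans (h1.trans ?_)
    apply ENNReal.ofReal_le_ofReal
    linarith
  have h4 : 0 ≤ v + κ := add_nonneg hv (hM.nonneg _ _ _ _ _ _ hO)
  have h5 := (ENNReal.ofReal_le_ofReal_iff h4).1 h3
  linarith

end MP4fb

end
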