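import Pool.Agent.Lib.MP_4fbc34_pr.CoreDef
import Pool.Agent.Lib.MP_4fbc34_pr.UpIncl
import Pool.Agent.Lib.MP_4fbc34_pr.DisP
import Pool.Agent.Lib.MP_4fbc34_pr.Slack

/-!
JOB CoreB: the reference scales, and the application of `slack`.

Choose a sequence `ℓ_k → ∞` of lengths with the property in `hI` (`ℓ_k >= k`, `Filter.Frequently`), all so large that
`U_k = (1 - c) ℓ_k / KP > r0`.  Let `j_k` be the least natural number with `U_k / 2^(j_k) <= r0` and `r_k = U_k / 2^(j_k)`, so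
`j_k >= 1`, `r0 / 2 < r_k <= r0`, `j_k → ∞`, `r_k 2^(j_k) = U_k`.  Put `w k = wup P ν d (r_k)` (`wup_props`, `lam1`), `p0 = exp (-1)`.
REFERENCE: `exp (-(I ℓ_k^d)) <= (μ {RootT M (Ξ ω) ((1 - c) ℓ_k) (ζ ℓ_k)}).toReal`, and by `up_incl` (`KP * U_k = (1 - c) ℓ_k`) this set is
contained in `{ext (upc ..) ∈ RootEv M (P.lat d) j_k 1 (ζ ℓ_k)}`, whose probability is `prB .. (wup ..)` by `up_event`.  With
`ζ1 = ζ KP / (1 - c)`: `ζ ℓ_k = ζ1 U_k`, and `I ℓ_k^d = I1 U_k^d` with `I1 = I (KP / (1 - c))^d`.  (Here `μ` of a set which need not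
be measurable is monotone; `RootT` needs the masses positive: `hΞ.pos`.)
Apply `slack` with `ζ1`, `η0 = ζ1 β / 4`, `bb = 2^ib`, `I1`, `θ / 8`, `rlo = r0/2`, `rhi = r0`, `εu = P.εu`, `mmax = δ0 + nv mst`
(`dp_lat_ok`), and take some `k` with the conclusion and `j_k >= jmin`.
-/

set_option autoImplicit false

open MeasureTheory ProbabilityTheory Filter
open scoped ENNReal Classical

noncomputable section

namespace MP4fb

private theorem exists_scale (U r0 : ℝ) (h0 : 0 < r0) (hU : r0 ≤ U) :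
    ∃ (r : ℝ) (j : ℕ), r0 / 2 ≤ r ∧ r ≤ r0 ∧ r * 2 ^ j = U := by
  obtain ⟨n, h1, h2⟩ := exists_nat_pow_near (x := U / r0) (y := 2)
    (by rw [le_div_iff₀ h0]; linarith) one_lt_two
  have hp : (0 : ℝ) < 2 ^ n := by positivity
  refine ⟨U / 2 ^ (n + 1), n + 1, ?_, ?_, ?_⟩
  · rw [le_div_iff₀ h0] at h1
    rw [le_div_iff₀ (by positivity), pow_succ]
    linarith
  · rw [div_lt_iff₀ h0] at h2
    rw [div_le_iff₀ (by positivity)]
    linarith
  · field_simp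

private theorem prB_nonneg {d : ℕ} (Λ : Lat d) (B : Finset (Fin d → ℤ)) (w : Option Λ.A → ℝ)
    (hw : ∀ x, 0 ≤ w x) (Ev : Set (Cfg Λ)) : 0 ≤ prB Λ B w Ev := by
  unfold prB
  refine Finset.sum_nonneg fun f _ => ?_
  split_ifs
  · exact Finset.prod_nonneg fun x _ => hw _
  · exact le_refl _

variable {d : ℕ} {Ω : Type*} [MeasurableSpace Ω] (μ : Measure Ω) [IsProbabilityMeasure μ]
  (Ξ : Ω → Set (E d × ℝ)) (ν : Measure ℝ)

theorem core_scales (hd : 2 ≤ d) (hΞ : IsPPP μ Ξ ν) (hν : ν (Set.Iic 0) = 0)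
    (hfin : ∀ t : ℝ, 0 < t → ν (Set.Ici t) ≠ ∞) (M : Model d) (hM : M.Ok)
    (SDp : ℝ → ℝ → ℝ → Prop) (ζ I θ : ℝ) (hζ : 0 < ζ) (hI0 : 0 ≤ I) (hθ : 0 < θ)
    (β c r0 τ0 e1 e2 bmin : ℝ) (md : ℕ) (P : DP)
    (hP : ParOk d ν SDp ζ I θ β c r0 τ0 e1 e2 bmin md P)
    (hI : ∃ᶠ ℓ : ℝ in atTop, Real.exp (-(I * ℓ ^ d)) ≤
      (μ {ω | RootT M (Ξ ω) ((1 - c) * ℓ) (ζ * ℓ)}).toReal) (ib jmin : ℕ) :
    ∃ (r : ℝ) (j : ℕ), r0 / 2 ≤ r ∧ r ≤ r0 ∧ jmin ≤ j ∧ ∀ N : ℕ, 1 ≤ N →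
      Real.exp (-((I * (KP d P / (1 - c)) ^ d + θ / 8) * (N * (r * 2 ^ j)) ^ d)) ≤
        prB (P.lat d) (abx d md N j) (wup P ν d r)
          (RootDZ M (P.lat d) j N md β (ζ * KP d P / (1 - c) * β / 4 * (r * 2 ^ j))
            (r * 2 ^ ib / (r * 2 ^ j))
            (ζ * KP d P / (1 - c) * (1 - β - β * 2⁻¹ ^ md / 16) * (r * 2 ^ j) * N)) := by
  have hd1 : 1 ≤ d := by omega
  have hPok := hP.Pok
  have hnp : (0 : ℝ) < P.np := by exact_mod_cast hPok.np_pos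
  have hnv : (0 : ℝ) ≤ P.nv := Nat.cast_nonneg _
  have he := hPok.eu_pos
  have hms := hPok.ms
  have hd0 := hPok.d0
  have hr0 := hP.r0pos
  have hc0 := hP.c01.1
  have hc1 : 0 < 1 - c := by linarith [hP.c01.2]
  have hK1 : 1 ≤ KP d P := by
    have : 0 ≤ 2 * ((d : ℝ) / (P.np * P.εu)) := by positivity
    unfold KP
    linarith
  have hK0 : 0 < KP d P := by linarith
  have hβ := hP.beta.1
  -- the sequence
  have hseq : ∀ k : ℕ, ∃ (ℓ r : ℝ) (j : ℕ), (k : ℝ) ≤ ℓ ∧ r0 / 2 ≤ r ∧ r ≤ r0 ∧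
      r * 2 ^ j = (1 - c) * ℓ / KP d P ∧
      Real.exp (-(I * ℓ ^ d)) ≤ (μ {ω | RootT M (Ξ ω) ((1 - c) * ℓ) (ζ * ℓ)}).toReal := by
    intro k
    obtain ⟨ℓ, h1, h2⟩ := (hI.and_eventually
      (eventually_ge_atTop (max (k : ℝ) (r0 * KP d P / (1 - c))))).exists
    have h3 : (k : ℝ) ≤ ℓ := (le_max_left _ _).trans h2
    have h4 : r0 * KP d P / (1 - c) ≤ ℓ := (le_max_right _ _).trans h2
    have h5 : r0 ≤ (1 - c) * ℓ / KP d P := by
      rw [div_le_iff₀ hc1] at h4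
      rw [le_div_iff₀ hK0]
      linarith
    obtain ⟨r, j, h6, h7, h8⟩ := exists_scale _ r0 hr0 h5
    exact ⟨ℓ, r, j, h3, h6, h7, h8, h1⟩
  choose ℓ r j hℓ hr1 hr2 hrj hμ using hseq
  have hr : ∀ k, 0 < r k := fun k => lt_of_lt_of_le (by linarith) (hr1 k)
  have hj : Tendsto j atTop atTop := by
    rw [tendsto_atTop]
    intro b
    have h1 : Tendsto (fun k : ℕ => (1 - c) / KP d P * (k : ℝ)) atTop atTop :=
      Tendsto.const_mul_atTop (by positivity) tendsto_natCast_atTop_atTop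
    filter_upwards [h1.eventually_gt_atTop (r0 * 2 ^ b)] with k hk
    by_contra h2
    push Not at h2
    have h3 : (2 : ℝ) ^ j k ≤ 2 ^ b := pow_le_pow_right₀ one_le_two h2.le
    have h4 : r k * 2 ^ j k ≤ r0 * 2 ^ b := mul_le_mul (hr2 k) h3 (by positivity) hr0.le
    have h5 : (1 - c) / KP d P * (k : ℝ) ≤ r k * 2 ^ j k := by
      rw [hrj k]
      have h6 : (1 - c) * ℓ k / KP d P = (1 - c) / KP d P * ℓ k := by ring
      rw [h6]
      exact mul_le_mul_of_nonneg_left (hℓ k) (by positivity)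
    linarith
  have hw := fun k => wup_props ν P hPok hP.nu1 (r k) (hr k) (hP.lam1 (r k) (hr k) (hr2 k)).1
  have hζ1 : 0 < ζ * KP d P / (1 - c) := by positivity
  have hℓ0 : ∀ k, 0 ≤ ℓ k := fun k => (Nat.cast_nonneg k).trans (hℓ k)
  have hmain := slack hd M hM (P.lat d) P.εu (P.δ0 + P.nv * P.mst) (dp_lat_ok P hPok)
    (by positivity) j hj r (r0 / 2) r0 (by linarith) (fun k => ⟨hr1 k, hr2 k⟩)
    (fun k => wup P ν d (r k)) (fun k => (hw k).1) (fun k => (hw k).2.1) (Real.exp (-1))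
    (Real.exp_pos _) (fun k => (hw k).2.2.1) (ζ * KP d P / (1 - c)) β
    (ζ * KP d P / (1 - c) * β / 4) (2 ^ ib) (I * (KP d P / (1 - c)) ^ d) (θ / 8) md hζ1 hβ
    hP.beta.2 (by positivity) le_rfl (by positivity) (by positivity) (by
      intro k
      have h1 : I * (KP d P / (1 - c)) ^ d * (r k * 2 ^ j k) ^ d = I * ℓ k ^ d := by
        rw [hrj k, mul_assoc, ← mul_pow]
        congr 2
        field_simp
      have h2 : ζ * KP d P / (1 - c) * (r k * 2 ^ j k) = ζ * ℓ k := by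
        rw [hrj k]
        field_simp
      rw [h1, h2]
      refine (hμ k).trans ?_
      have h3 : {ω | RootT M (Ξ ω) ((1 - c) * ℓ k) (ζ * ℓ k)} ⊆
          {ω | ext (P.lat d) (abx d md 1 (j k)) (fun p => upc P (r k) (Ξ ω) p) ∈
            RootEv M (P.lat d) (j k) 1 (ζ * ℓ k)} := by
        intro ω hω
        refine up_incl hd1 M hM P hPok (r k) (hr k) md (j k) (Ξ ω) (hΞ.pos ω) ((1 - c) * ℓ k)
          (ζ * ℓ k) (mul_nonneg hζ.le (hℓ0 k)) (le_of_eq ?_) hω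
        rw [hrj k]
        have h4 : (1 : ℝ) + 2 * (d / (P.np * P.εu)) = KP d P := rfl
        rw [h4]
        field_simp
      have h4 := measure_mono (μ := μ) h3
      rw [up_event μ Ξ ν hΞ hν hfin P hPok hP.nu1 (r k) (hr k)
        (hP.lam1 (r k) (hr k) (hr2 k)).1 (abx d md 1 (j k))
        (RootEv M (P.lat d) (j k) 1 (ζ * ℓ k))] at h4
      have h5 := ENNReal.toReal_mono ENNReal.ofReal_ne_top h4
      rwa [ENNReal.toReal_ofReal (prB_nonneg _ _ _ (hw k).1 _)] at h5)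
  obtain ⟨k, hk1, hk2⟩ := (hmain.and_eventually (hj.eventually_ge_atTop jmin)).exists
  refine ⟨r k, j k, hr1 k, hr2 k, hk2, fun N hN => ?_⟩
  have h1 := hk1 N hN
  have h2 : (2 : ℝ) ^ ib * 2⁻¹ ^ j k = r k * 2 ^ ib / (r k * 2 ^ j k) := by
    have := (hr k).ne'
    rw [inv_pow]
    field_simp
  rw [h2] at h1
  exact h1

end MP4fb

end
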