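import Pool.Agent.Lib.MP_4fbc34_pr.PppDef

/-!
JOB PolyC: from polygons of length at most `b` in one cube to all polygons.

Cut the list `l` into consecutive sublists with `plen <= b`, greedily: a sublist is closed when adding the next
vertex would make its length larger than `b` (so an edge longer than `b` lies between two sublists).  The length of
a closed sublist plus the edge to the next vertex is larger than `b`, so there are at most `plen l / b + 1` sublists
(none if `l = []`).  All the vertices of a sublist are within distance `b` of its first vertex `x`, so each of them is in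
a cube `gcell b Q` with `|Q i - ⌊x i / b⌋| <= 1` for all `i`, at most `3^d` cubes; so the sum over the vertices of the
sublist is at most `3^d e b`.  The sum over all vertices (as a finset) is at most the sum over the sublists.
Total: `(plen l / b + 1) 3^d e b = 3^d e (plen l + b)`.
Induction suggestion: prove by strong induction on the length of the list, or define the greedy cutting by
recursion with an accumulator; each point is in exactly one cube `gcell b (fun i => ⌊x i / b⌋)`.
-/

set_option autoImplicit false

open scoped ENNReal Classical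

noncomputable section

namespace MP4fb

variable {d : ℕ}

private theorem pc_append (l1 : List (E d)) (y : E d) (l2 : List (E d)) :
    plen (l1 ++ y :: l2) = plen (l1 ++ [y]) + plen (y :: l2) := by
  induction l1 with
  | nil =>
    show plen (y :: l2) = plen [y] + plen (y :: l2)
    simp [plen]
  | cons x l1 ih =>
    cases l1 with
    | nil =>
      show ‖x - y‖ + plen (y :: l2) = (‖x - y‖ + plen [y]) + plen (y :: l2)
      simp [plen]
    | cons x' l1' =>
      show ‖x - x'‖ + plen ((x' :: l1') ++ y :: l2) =
        (‖x - x'‖ + plen ((x' :: l1') ++ [y])) + plen (y :: l2)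
      rw [ih]
      ring

private theorem pc_nonneg (l : List (E d)) : 0 ≤ plen l := by
  induction l with
  | nil => simp [plen]
  | cons x l ih =>
    cases l with
    | nil => simp [plen]
    | cons y l =>
      show 0 ≤ ‖x - y‖ + plen (y :: l)
      positivity

private theorem pc_dist (a : E d) (l : List (E d)) : ∀ x ∈ a :: l, ‖x - a‖ ≤ plen (a :: l) := by
  induction l generalizing a with
  | nil =>
    intro x hx
    rw [List.mem_singleton] at hx
    rw [hx, sub_self, norm_zero]
    exact pc_nonneg _
  | cons y l ih =>
    intro x hx
    have e : plen (a :: y :: l) = ‖a - y‖ + plen (y :: l) := rfl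
    rw [e]
    rcases List.mem_cons.1 hx with rfl | hx
    · rw [sub_self, norm_zero]
      have := pc_nonneg (y :: l)
      positivity
    · have h1 := ih y x hx
      have h2 : ‖x - a‖ ≤ ‖x - y‖ + ‖a - y‖ := by
        have e : x - a = (x - y) - (a - y) := by abel
        rw [e]
        exact norm_sub_le _ _
      linarith

private theorem pc_split (b : ℝ) (r : List (E d)) : ∀ l1 : List (E d), l1 ≠ [] → plen l1 ≤ b →
    b < plen (l1 ++ r) → ∃ (m1 : List (E d)) (y : E d) (m2 : List (E d)), l1 ++ r = m1 ++ y :: m2 ∧
      m1 ≠ [] ∧ plen m1 ≤ b ∧ b < plen (m1 ++ [y]) := by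
  induction r with
  | nil =>
    intro l1 _ h1 h2
    rw [List.append_nil] at h2
    exact absurd h1 (not_le.2 h2)
  | cons y r ih =>
    intro l1 h0 h1 h2
    by_cases h3 : b < plen (l1 ++ [y])
    · exact ⟨l1, y, r, rfl, h0, h1, h3⟩
    · push Not at h3
      have e : l1 ++ y :: r = (l1 ++ [y]) ++ r := by simp
      rw [e] at h2 ⊢
      exact ih (l1 ++ [y]) (by simp) h3 h2

private theorem pc_block (b e : ℝ) (hb : 0 < b) (he : 0 ≤ e) (g : E d → ℝ≥0∞)
    (h : ∀ (Q : Fin d → ℤ) (l : List (E d)), plen l ≤ b →
      ∑ x ∈ l.toFinset.filter (fun x => x ∈ gcell b Q), g x ≤ ENNReal.ofReal (e * b))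
    (l : List (E d)) (hl : plen l ≤ b) :
    ∑ x ∈ l.toFinset, g x ≤ ENNReal.ofReal (3 ^ d * e * b) := by
  cases l with
  | nil => simp
  | cons a l =>
    set box : Finset (Fin d → ℤ) :=
      Fintype.piFinset (fun i => Finset.Icc (⌊a i / b⌋ - 1) (⌊a i / b⌋ + 1)) with hbox
    have hcard : box.card = 3 ^ d := by
      rw [hbox, Fintype.card_piFinset]
      have : ∀ i : Fin d, (Finset.Icc (⌊a i / b⌋ - 1) (⌊a i / b⌋ + 1)).card = 3 := by
        intro i
        rw [Int.card_Icc]
        omega
      simp only [this, Finset.prod_const, Finset.card_univ, Fintype.card_fin]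
    have hcov : ∀ x ∈ (a :: l).toFinset, ∃ Q ∈ box, x ∈ gcell b Q := by
      intro x hx
      rw [List.mem_toFinset] at hx
      have h1 : ‖x - a‖ ≤ b := (pc_dist a l x hx).trans hl
      refine ⟨fun i => ⌊x i / b⌋, ?_, ?_⟩
      · rw [hbox, Fintype.mem_piFinset]
        intro i
        have h2 : |x i - a i| ≤ b := by
          have h3 := PiLp.norm_apply_le (x - a) i
          rw [Real.norm_eq_abs] at h3
          exact h3.trans h1
        have h4 : |x i / b - a i / b| ≤ 1 := by
          rw [← sub_div, abs_div, abs_of_pos hb, div_le_one hb]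
          exact h2
        have h5 := abs_le.1 h4
        have f1 := Int.floor_le (x i / b)
        have f2 := Int.lt_floor_add_one (x i / b)
        have f3 := Int.floor_le (a i / b)
        have f4 := Int.lt_floor_add_one (a i / b)
        rw [Finset.mem_Icc]
        constructor
        · have : ((⌊a i / b⌋ - 1 : ℤ) : ℝ) < ((⌊x i / b⌋ + 1 : ℤ) : ℝ) := by
            push_cast
            linarith
          have := Int.cast_lt.1 this
          omega
        · have : ((⌊x i / b⌋ : ℤ) : ℝ) < ((⌊a i / b⌋ + 2 : ℤ) : ℝ) := by
            push_cast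
            linarith
          have := Int.cast_lt.1 this
          omega
      · intro i
        have f1 := Int.floor_le (x i / b)
        have f2 := Int.lt_floor_add_one (x i / b)
        rw [le_div_iff₀ hb] at f1
        rw [div_lt_iff₀ hb] at f2
        constructor
        · show b * ((⌊x i / b⌋ : ℤ) : ℝ) ≤ x i
          linarith
        · show x i < b * (((⌊x i / b⌋ : ℤ) : ℝ) + 1)
          linarith
    have h6 : ∑ x ∈ (a :: l).toFinset, g x ≤
        ∑ Q ∈ box, ∑ x ∈ (a :: l).toFinset.filter (fun x => x ∈ gcell b Q), g x := by
      have h7 : ∀ x ∈ (a :: l).toFinset, g x ≤ ∑ Q ∈ box, if x ∈ gcell b Q then g x else 0 := by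
        intro x hx
        obtain ⟨Q, hQ, hxQ⟩ := hcov x hx
        refine le_trans ?_ (Finset.single_le_sum (f := fun Q => if x ∈ gcell b Q then g x else 0)
          (fun _ _ => zero_le) hQ)
        simp [hxQ]
      refine (Finset.sum_le_sum h7).trans (le_of_eq ?_)
      rw [Finset.sum_comm]
      refine Finset.sum_congr rfl fun Q _ => ?_
      rw [Finset.sum_filter]
    refine h6.trans ((Finset.sum_le_card_nsmul _ _ _ fun Q _ => h Q (a :: l) hl).trans ?_)
    rw [hcard, nsmul_eq_mul]
    have e3 : (((3 : ℕ) ^ d : ℕ) : ℝ≥0∞) = ENNReal.ofReal (3 ^ d) := by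
      rw [← ENNReal.ofReal_natCast]
      push_cast
      rfl
    rw [e3, ← ENNReal.ofReal_mul (by positivity)]
    apply ENNReal.ofReal_le_ofReal
    apply le_of_eq
    ring

theorem poly_cubes (b e : ℝ) (hb : 0 < b) (he : 0 ≤ e) (g : E d → ℝ≥0∞)
    (h : ∀ (Q : Fin d → ℤ) (l : List (E d)), plen l ≤ b →
      ∑ x ∈ l.toFinset.filter (fun x => x ∈ gcell b Q), g x ≤ ENNReal.ofReal (e * b))
    (l : List (E d)) :
    ∑ x ∈ l.toFinset, g x ≤ ENNReal.ofReal (3 ^ d * e * (plen l + b)) := by
  induction hn : l.length using Nat.strong_induction_on generalizing l with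
  | _ n ih =>
    by_cases h1 : plen l ≤ b
    · refine (pc_block b e hb he g h l h1).trans (ENNReal.ofReal_le_ofReal ?_)
      have := pc_nonneg l
      have h2 : b ≤ plen l + b := by linarith
      exact mul_le_mul_of_nonneg_left h2 (by positivity)
    · push Not at h1
      cases l with
      | nil =>
        exfalso
        simp only [plen] at h1
        linarith
      | cons a l =>
        obtain ⟨m1, y, m2, e1, hm1, hm2, hm3⟩ := pc_split b l [a] (by simp) (by simp [plen]; exact hb.le)
          (by simpa using h1)
        have e1' : a :: l = m1 ++ y :: m2 := by simpa using e1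
        have hlen : (y :: m2).length < n := by
          rw [← hn, e1', List.length_append]
          have : 0 < m1.length := List.length_pos_iff.2 hm1
          omega
        have h2 := ih (y :: m2).length hlen (y :: m2) rfl
        have h3 := pc_block b e hb he g h m1 hm2
        have hpl : plen (a :: l) = plen (m1 ++ [y]) + plen (y :: m2) := by
          rw [e1', pc_append]
        have h4 : ∑ x ∈ (a :: l).toFinset, g x ≤
            ∑ x ∈ m1.toFinset, g x + ∑ x ∈ (y :: m2).toFinset, g x := by
          rw [e1', List.toFinset_append]
          have := Finset.sum_union_inter (s₁ := m1.toFinset) (s₂ := (y :: m2).toFinset) (f := g)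
          rw [← this]
          exact le_self_add
        refine h4.trans ((add_le_add h3 h2).trans ?_)
        have hy := pc_nonneg (y :: m2)
        rw [← ENNReal.ofReal_add (by positivity) (by positivity)]
        apply ENNReal.ofReal_le_ofReal
        have h5 : b + (plen (y :: m2) + b) ≤ plen (a :: l) + b := by linarith
        have h6 := mul_le_mul_of_nonneg_left h5 (by positivity : (0 : ℝ) ≤ 3 ^ d * e)
        linarith

end MP4fb

end
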