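import Pool.Agent.Lib.MP_4fbc34_pr.PppA

/-!
JOB SmF: the small mass events for finitely many cubes together with another event.

For a number `K` let `E_K = E0 ∩ {ω | ∀ Q ∈ 𝒬, ∀ k < K, Ξ ω ∈ F Q k}`.  By `ce_finset` for the index set `𝒬 × {0, .., K-1}` (the
sets `gcell b Q ×ˢ Ico (δ Q/2^(k+1)) (δ Q/2^k)` are pairwise disjoint: different cubes are disjoint, different bands are
disjoint, `gcell` needs `0 < b`) and `ce_inter` with `E0`:
`μ E_K = μ E0 * ∏_Q ∏_{k<K} μ {Ξ ∈ F Q k} >= μ E0 * ∏_Q (1 - ∑_k exp (-(k+2))) >= μ E0 * (1/2)^(card 𝒬)`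
(`∏ (1 - a_k) >= 1 - ∑ a_k`, `∑_k exp (-(k + 2)) = e^{-2} / (1 - e^{-1}) <= 1/2`).  The sets `E_K` decrease in `K` to the event in
question, so its measure is the limit (`tendsto_measure_iInter_atTop` or similar).
-/

set_option autoImplicit false

open MeasureTheory ProbabilityTheory
open scoped ENNReal Classical

noncomputable section

namespace MP4fb

variable {d : ℕ}

private theorem SmF_prod (K : ℕ) :
    (1 / 2 : ℝ) + (1 / 2) ^ (K + 1) ≤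
      ∏ k ∈ Finset.range K, (1 - Real.exp (-((k : ℝ) + 2))) := by
  induction K with
  | zero => norm_num
  | succ K ih =>
    rw [Finset.prod_range_succ]
    have h1 : Real.exp (-((K : ℝ) + 2)) ≤ (1 / 2 : ℝ) ^ (K + 2) := by
      have h2 : Real.exp (-((K : ℝ) + 2)) = (Real.exp (-1)) ^ (K + 2) := by
        rw [← Real.exp_nat_mul]
        congr 1
        push_cast
        ring
      rw [h2]
      refine pow_le_pow_left₀ (Real.exp_pos _).le ?_ _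
      rw [Real.exp_neg, one_div]
      refine inv_anti₀ two_pos ?_
      have := Real.add_one_le_exp (1 : ℝ)
      linarith
    have ht : (1 / 2 : ℝ) ^ (K + 2) ≤ 1 / 4 := by
      have h3 : (1 / 2 : ℝ) ^ K ≤ 1 := pow_le_one₀ (by norm_num) (by norm_num)
      rw [pow_add]
      nlinarith
    have ht0 : 0 < (1 / 2 : ℝ) ^ (K + 2) := by positivity
    have h4 : (1 / 2 : ℝ) ^ (K + 1) = 2 * (1 / 2) ^ (K + 2) := by
      rw [pow_succ (1 / 2 : ℝ) (K + 1)]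
      ring
    rw [h4] at ih
    have h5 : (1 / 2 : ℝ) ^ (K + 1 + 1) = (1 / 2) ^ (K + 2) := rfl
    rw [h5]
    generalize (1 / 2 : ℝ) ^ (K + 2) = t at *
    have h6 : (1 / 2 + 2 * t) * (1 - t) ≤
        (∏ k ∈ Finset.range K, (1 - Real.exp (-((k : ℝ) + 2)))) *
          (1 - Real.exp (-((K : ℝ) + 2))) := by
      refine mul_le_mul ih (by linarith) (by linarith) ?_
      linarith
    nlinarith

private theorem SmF_cell {b : ℝ} (hb : 0 < b) {Q Q' : Fin d → ℤ} (h : Q ≠ Q') :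
    Disjoint (gcell (d := d) b Q) (gcell b Q') := by
  rw [Set.disjoint_left]
  intro x h1 h2
  apply h
  funext i
  obtain ⟨a1, a2⟩ := h1 i
  obtain ⟨b1, b2⟩ := h2 i
  have c1 : (Q i : ℝ) < Q' i + 1 := lt_of_mul_lt_mul_left (lt_of_le_of_lt a1 b2) hb.le
  have c2 : (Q' i : ℝ) < Q i + 1 := lt_of_mul_lt_mul_left (lt_of_le_of_lt b1 a2) hb.le
  have c3 : Q i < Q' i + 1 := by exact_mod_cast c1
  have c4 : Q' i < Q i + 1 := by exact_mod_cast c2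
  omega

private theorem SmF_band_aux {δ : ℝ} (hδ : 0 < δ) {k k' : ℕ} (h : k < k') :
    Disjoint (Set.Ico (δ / 2 ^ (k + 1)) (δ / 2 ^ k)) (Set.Ico (δ / 2 ^ (k' + 1)) (δ / 2 ^ k')) := by
  rw [Set.disjoint_left]
  intro x h1 h2
  have h3 : δ / 2 ^ k' ≤ δ / 2 ^ (k + 1) := by
    refine div_le_div_of_nonneg_left hδ.le (by positivity) ?_
    exact pow_le_pow_right₀ one_le_two h
  exact absurd (lt_of_lt_of_le h2.2 h3) (not_lt.2 h1.1)

private theorem SmF_band {δ : ℝ} (hδ : 0 < δ) {k k' : ℕ} (h : k ≠ k') :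
    Disjoint (Set.Ico (δ / 2 ^ (k + 1)) (δ / 2 ^ k)) (Set.Ico (δ / 2 ^ (k' + 1)) (δ / 2 ^ k')) := by
  rcases lt_or_gt_of_ne h with h | h
  · exact SmF_band_aux hδ h
  · exact (SmF_band_aux hδ h).symm

theorem small_prob {Ω : Type*} [MeasurableSpace Ω] (μ : Measure Ω) [IsProbabilityMeasure μ]
    (Ξ : Ω → Set (E d × ℝ)) (ν : Measure ℝ) (hΞ : IsPPP μ Ξ ν) (b : ℝ) (hb : 0 < b)
    (𝒬 : Finset (Fin d → ℤ)) (δ : (Fin d → ℤ) → ℝ) (hδ : ∀ Q, 0 < δ Q)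
    (F : (Fin d → ℤ) → ℕ → Set (Set (E d × ℝ)))
    (hF : ∀ Q ∈ 𝒬, ∀ k,
      CE Ξ (gcell b Q ×ˢ Set.Ico (δ Q / 2 ^ (k + 1)) (δ Q / 2 ^ k)) {ω | Ξ ω ∈ F Q k} ∧
      μ {ω | Ξ ω ∉ F Q k} ≤ ENNReal.ofReal (Real.exp (-(k + 2))))
    (B0 : Set (E d × ℝ)) (E0 : Set Ω) (hE0 : CE Ξ B0 E0)
    (hdis : ∀ Q ∈ 𝒬, Disjoint B0 (gcell b Q ×ˢ Set.Ioo 0 (δ Q))) :
    μ E0 * (1 / 2) ^ 𝒬.card ≤ μ (E0 ∩ {ω | ∀ Q ∈ 𝒬, ∀ k, Ξ ω ∈ F Q k}) := by
  let B : (Fin d → ℤ) × ℕ → Set (E d × ℝ) := fun i =>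
    gcell b i.1 ×ˢ Set.Ico (δ i.1 / 2 ^ (i.2 + 1)) (δ i.1 / 2 ^ i.2)
  let Ev : (Fin d → ℤ) × ℕ → Set Ω := fun i => {ω | Ξ ω ∈ F i.1 i.2}
  have hBdis : ∀ i j : (Fin d → ℤ) × ℕ, i ≠ j → Disjoint (B i) (B j) := by
    intro i j hij
    rw [Set.disjoint_prod]
    by_cases h : i.1 = j.1
    · right
      rw [h]
      refine SmF_band (hδ _) (fun h2 => hij (Prod.ext h h2))
    · left
      exact SmF_cell hb h
  have hB0 : ∀ i : (Fin d → ℤ) × ℕ, i.1 ∈ 𝒬 → Disjoint B0 (B i) := by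
    intro i hi
    refine (hdis i.1 hi).mono_right ?_
    refine Set.prod_mono le_rfl ?_
    intro t ht
    refine ⟨lt_of_lt_of_le (div_pos (hδ _) (by positivity)) ht.1, lt_of_lt_of_le ht.2 ?_⟩
    exact div_le_self (hδ _).le (one_le_pow₀ one_le_two)
  let S : ℕ → Finset ((Fin d → ℤ) × ℕ) := fun K => 𝒬 ×ˢ Finset.range K
  have hmemS : ∀ {K : ℕ} {i : (Fin d → ℤ) × ℕ}, i ∈ S K ↔ i.1 ∈ 𝒬 ∧ i.2 < K := by
    intro K i
    simp only [S, Finset.mem_product, Finset.mem_range]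
  let G : ℕ → Set Ω := fun K => E0 ∩ ⋂ i ∈ S K, Ev i
  have hG : ∀ K, CE Ξ (B0 ∪ ⋃ i ∈ S K, B i) (G K) ∧
      μ (G K) = μ E0 * ∏ i ∈ S K, μ (Ev i) := by
    intro K
    have h1 := ce_finset hΞ (S K) B (fun i _ j _ hij => hBdis i j hij) Ev
      (fun i hi => (hF i.1 (hmemS.1 hi).1 i.2).1)
    have h2 := ce_inter hΞ B0 (⋃ i ∈ S K, B i) (by
      rw [Set.disjoint_iUnion₂_right]
      exact fun i hi => hB0 i (hmemS.1 hi).1) E0 (⋂ i ∈ S K, Ev i) hE0 h1.1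
    refine ⟨h2.1, ?_⟩
    rw [h2.2, h1.2]
  have hEvm : ∀ i : (Fin d → ℤ) × ℕ, i.1 ∈ 𝒬 → MeasurableSet (Ev i) := fun i hi =>
    ce_meas hΞ _ _ (hF i.1 hi i.2).1
  have hEvp : ∀ i : (Fin d → ℤ) × ℕ, i.1 ∈ 𝒬 →
      ENNReal.ofReal (1 - Real.exp (-((i.2 : ℝ) + 2))) ≤ μ (Ev i) := by
    intro i hi
    have h1 := (hF i.1 hi i.2).2
    have h2 : μ (Ev i)ᶜ ≤ ENNReal.ofReal (Real.exp (-((i.2 : ℝ) + 2))) := h1
    have h3 : μ (Ev i) + μ (Ev i)ᶜ = 1 := by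
      rw [measure_add_measure_compl (hEvm i hi), measure_univ]
    rw [ENNReal.ofReal_sub _ (Real.exp_pos _).le, ENNReal.ofReal_one, tsub_le_iff_right, ← h3]
    exact add_le_add_right h2 _
  have hlow : ∀ K, μ E0 * (1 / 2) ^ 𝒬.card ≤ μ (G K) := by
    intro K
    rw [(hG K).2]
    refine mul_le_mul_right ?_ _
    rw [Finset.prod_product]
    have h1 : ∀ Q ∈ 𝒬, (1 / 2 : ℝ≥0∞) ≤ ∏ k ∈ Finset.range K, μ (Ev (Q, k)) := by
      intro Q hQ
      calc (1 / 2 : ℝ≥0∞) = ENNReal.ofReal (1 / 2) := by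
            rw [ENNReal.ofReal_div_of_pos two_pos, ENNReal.ofReal_one, ENNReal.ofReal_ofNat]
        _ ≤ ENNReal.ofReal (∏ k ∈ Finset.range K, (1 - Real.exp (-((k : ℝ) + 2)))) := by
            apply ENNReal.ofReal_le_ofReal
            have h2 := SmF_prod K
            have h3 : (0 : ℝ) ≤ (1 / 2) ^ (K + 1) := by positivity
            linarith
        _ = ∏ k ∈ Finset.range K, ENNReal.ofReal (1 - Real.exp (-((k : ℝ) + 2))) := by
            apply ENNReal.ofReal_prod_of_nonneg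
            intro k _
            have h4 : Real.exp (-((k : ℝ) + 2)) ≤ 1 := by
              rw [Real.exp_le_one_iff]
              have : (0 : ℝ) ≤ k := Nat.cast_nonneg k
              linarith
            linarith
        _ ≤ ∏ k ∈ Finset.range K, μ (Ev (Q, k)) :=
            Finset.prod_le_prod' (fun k _ => hEvp (Q, k) hQ)
    calc (1 / 2 : ℝ≥0∞) ^ 𝒬.card = ∏ _Q ∈ 𝒬, (1 / 2 : ℝ≥0∞) := by rw [Finset.prod_const]
      _ ≤ _ := Finset.prod_le_prod' h1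
  have hset : E0 ∩ {ω | ∀ Q ∈ 𝒬, ∀ k, Ξ ω ∈ F Q k} = ⋂ K, G K := by
    ext ω
    simp only [G, Set.mem_inter_iff, Set.mem_ofPred_eq, Set.mem_iInter]
    constructor
    · rintro ⟨h1, h2⟩ K
      exact ⟨h1, fun i hi => h2 i.1 (hmemS.1 hi).1 i.2⟩
    · intro h
      refine ⟨(h 0).1, fun Q hQ k => ?_⟩
      exact (h (k + 1)).2 (Q, k) (hmemS.2 ⟨hQ, Nat.lt_succ_self k⟩)
  rw [hset]
  have hanti : Antitone G := by
    intro K K' h
    refine Set.inter_subset_inter_right _ ?_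
    intro ω hω
    simp only [Set.mem_iInter] at hω ⊢
    exact fun i hi => hω i (hmemS.2 ⟨(hmemS.1 hi).1, lt_of_lt_of_le (hmemS.1 hi).2 h⟩)
  have hlim := tendsto_measure_iInter_atTop (μ := μ) (s := G)
    (fun K => (ce_meas hΞ _ _ (hG K).1).nullMeasurableSet) hanti ⟨0, measure_ne_top _ _⟩
  exact ge_of_tendsto' hlim hlow

end MP4fb

end
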