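import Pool.Agent.Lib.MP_4fbc34_pr.LowIncl
import Pool.Agent.Lib.MP_4fbc34_pr.DisP
import Pool.Agent.Lib.MP_4fbc34_pr.SmF
import Pool.Agent.Lib.MP_4fbc34_pr.PolyC

/-!
JOB LowP: lower bound for the probability of the root event.

Let `b = r 2^ib`, `U = r 2^j`, `dz = dzone (N U 2⁻ᵐᵈ)`, `E0 = {∃ f, ext f ∈ RootDZ.. ∧ ∀ p, St (Ξ ω) p (f p)} ∩
{(Ξ ω ∩ (dz ×ˢ Ici τ0)).encard = 0}`.  By `low_event`, `ppp_zero`, `prod_rect` (`volume dz = (2 N U 2⁻ᵐᵈ)^d`) and `ce_inter` (the sets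
`Tot p`, `p` alive, are disjoint from `dz ×ˢ univ`: alive cells are outside the dead zone) `E0` is a count event on
`B0 = (⋃_{p alive} Tot p) ∪ (dz ×ˢ Ici τ0)` with
`μ E0 = ofReal (prB .. * exp (-(2 N U 2⁻ᵐᵈ)^d ν(Ici τ0)))`.
FIRST CASE (`δ0 = τ0 = 0`): `E0 ⊆ {RootT}` by `low_incl` (`e1`, `e2` arbitrary, the sums in `htiny`, `hsmall` vanish because
`Ioo 0 0 = ∅`), and `(1/2)^.. <= 1`.
SECOND CASE: let `F1`, `F2` be the events of the two `SmallData`, `𝒬 = bx d (N 2^(j - ib))` (of cardinality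
`(2 N 2^(j-ib))^d`; the cubes `gcell b Q`, `Q ∈ 𝒬`, fill `dzone (N U)`), dead cubes: `Q ∈ bx d (N 2^(j - md - ib))` (they fill `dz`),
`δ Q = τ0`, `F Q = F2 Q` for dead cubes, `δ Q = δ0`, `F Q = F1 Q` for the others.  `B0` is disjoint from
`gcell b Q ×ˢ Ioo 0 (δ Q)` (for a dead cube the positions are in `dz` and the masses below `τ0`; for the others the masses are
below `δ0 <= τ0`).  `small_prob` gives `μ E0 (1/2)^(card 𝒬) <= μ (E0 ∩ {∀ Q ∈ 𝒬, ∀ k, Ξ ω ∈ F Q k})`, and this set is contained in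
`{RootT}` by `low_incl` with `e1 = 3^d e1'`, `e2 = 3^d e2'`: `htiny` follows from `poly_cubes` with
`g x = massI X (Ioo 0 δ0) x` for `x ∈ dzone (N U) \ dz` and `g x = 0` otherwise (cubes which are not in `𝒬` or dead do not meet
this region), and `hsmall` with `g x = massI X (Ioo 0 τ0) x` for `x ∈ dz`, `0` otherwise.
-/

set_option autoImplicit false

open MeasureTheory ProbabilityTheory
open scoped ENNReal Classical

noncomputable section

namespace MP4fb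

theorem lowp_cell_in {d : ℕ} (b : ℝ) (hb : 0 < b) (m : ℕ) (Q : Fin d → ℤ) (hQ : Q ∈ bx d m)
    (x : E d) (hx : x ∈ gcell b Q) : x ∈ dzone d (b * m) := by
  intro i
  have h1 := Finset.mem_Ico.1 (Fintype.mem_piFinset.1 hQ i)
  have h2 := hx i
  have h3 : (-(m : ℝ)) ≤ (Q i : ℝ) := by exact_mod_cast h1.1
  have h4 : (Q i : ℝ) + 1 ≤ (m : ℝ) := by exact_mod_cast h1.2
  constructor
  · have h5 : b * (-(m : ℝ)) ≤ b * (Q i : ℝ) := mul_le_mul_of_nonneg_left h3 hb.le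
    linarith [h2.1]
  · have h5 : b * ((Q i : ℝ) + 1) ≤ b * (m : ℝ) := mul_le_mul_of_nonneg_left h4 hb.le
    linarith [h2.2]

theorem lowp_cell_out {d : ℕ} (b : ℝ) (hb : 0 < b) (m : ℕ) (Q : Fin d → ℤ) (hQ : Q ∉ bx d m)
    (x : E d) (hx : x ∈ gcell b Q) : x ∉ dzone d (b * m) := by
  intro hz
  apply hQ
  refine Fintype.mem_piFinset.2 fun i => Finset.mem_Ico.2 ?_
  have h1 := hz i
  have h2 := hx i
  constructor
  · by_contra h3
    have h4 : Q i + 1 ≤ -(m : ℤ) := by omega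
    have h5 : (Q i : ℝ) + 1 ≤ -(m : ℝ) := by exact_mod_cast h4
    have h6 : b * ((Q i : ℝ) + 1) ≤ b * (-(m : ℝ)) := mul_le_mul_of_nonneg_left h5 hb.le
    linarith [h1.1, h2.2]
  · by_contra h3
    have h4 : (m : ℤ) ≤ Q i := by omega
    have h5 : (m : ℝ) ≤ (Q i : ℝ) := by exact_mod_cast h4
    have h6 : b * (m : ℝ) ≤ b * (Q i : ℝ) := mul_le_mul_of_nonneg_left h5 hb.le
    linarith [h1.2, h2.1]

theorem lowp_dz_eq (d : ℕ) (W : ℝ) : dzone d W =
    (fun x : E d => (fun i => x i : Fin d → ℝ)) ⁻¹' (Set.univ.pi fun _ => Set.Ico (-W) W) := by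
  ext x
  simp only [dzone, Set.mem_ofPred_eq, Set.mem_preimage, Set.mem_pi, Set.mem_univ, Set.mem_Ico,
    forall_true_left]

theorem lowp_dz_meas (d : ℕ) (W : ℝ) : MeasurableSet (dzone d W) := by
  rw [lowp_dz_eq]
  have h : Measurable (fun x : E d => (fun i => x i : Fin d → ℝ)) := by fun_prop
  exact h (MeasurableSet.univ_pi fun _ => measurableSet_Ico)

theorem lowp_dz_vol (d : ℕ) (W : ℝ) (hW : 0 ≤ W) :
    volume (dzone d W) = ENNReal.ofReal ((2 * W) ^ d) := by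
  have h1 : dzone d W = (WithLp.ofLp : E d → (Fin d → ℝ)) ⁻¹'
      (Set.univ.pi fun _ => Set.Ico (-W) W) := by
    ext x
    simp only [dzone, Set.mem_ofPred_eq, Set.mem_preimage, Set.mem_pi, Set.mem_univ, Set.mem_Ico,
      forall_true_left]
  rw [h1, (PiLp.volume_preserving_ofLp (Fin d)).measure_preimage
    (MeasurableSet.univ_pi fun _ => measurableSet_Ico).nullMeasurableSet, Real.volume_pi_Ico]
  rw [Finset.prod_const, Finset.card_univ, Fintype.card_fin, ← ENNReal.ofReal_pow (by linarith)]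
  congr 2
  ring

theorem lowp_card (d m : ℕ) : (bx d m).card = (2 * m) ^ d := by
  unfold bx
  rw [Fintype.card_piFinset]
  simp only [Int.card_Ico, Finset.prod_const, Finset.card_univ, Fintype.card_fin]
  congr 1
  omega

theorem lowp_massI_empty {d : ℕ} (X : Set (E d × ℝ)) (x : E d) (c : ℝ) (hc : c = 0) :
    massI X (Set.Ioo 0 c) x = 0 := by
  unfold massI
  have h : IsEmpty {t : ℝ // (x, t) ∈ X ∧ t ∈ Set.Ioo (0 : ℝ) c} := by
    refine ⟨?_⟩
    rintro ⟨t, -, ht⟩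
    have h1 := ht.1
    have h2 := ht.2
    linarith
  rw [tsum_empty]

theorem lowp_prB_nonneg {d : ℕ} (Λ : Lat d) (B : Finset (Fin d → ℤ)) (w : Option Λ.A → ℝ)
    (hw : ∀ x, 0 ≤ w x) (Ev : Set (Cfg Λ)) : 0 ≤ prB Λ B w Ev := by
  unfold prB
  refine Finset.sum_nonneg fun f _ => ?_
  split_ifs
  · exact Finset.prod_nonneg fun x _ => hw _
  · exact le_rfl

theorem lowp_scaleA (r : ℝ) (N j md : ℕ) (h : md ≤ j) :
    r * ((N * 2 ^ (j - md) : ℕ) : ℝ) = N * (r * 2 ^ j) * 2⁻¹ ^ md := by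
  have h1 : (2 : ℝ) ^ j = 2 ^ (j - md) * 2 ^ md := by
    rw [← pow_add, Nat.sub_add_cancel h]
  rw [h1, inv_pow]
  push_cast
  have h2 : (2 : ℝ) ^ md ≠ 0 := by positivity
  field_simp

theorem lowp_scaleB (r : ℝ) (N j ib : ℕ) (h : ib ≤ j) :
    r * 2 ^ ib * ((N * 2 ^ (j - ib) : ℕ) : ℝ) = N * (r * 2 ^ j) := by
  have h1 : (2 : ℝ) ^ j = 2 ^ (j - ib) * 2 ^ ib := by
    rw [← pow_add, Nat.sub_add_cancel h]
  rw [h1]
  push_cast
  ring

theorem lowp_scaleC (r : ℝ) (N j md ib : ℕ) (h : md + ib ≤ j) :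
    r * 2 ^ ib * ((N * 2 ^ (j - md - ib) : ℕ) : ℝ) = N * (r * 2 ^ j) * 2⁻¹ ^ md := by
  have h1 : (2 : ℝ) ^ (j - md) = 2 ^ (j - md - ib) * 2 ^ ib := by
    rw [← pow_add, Nat.sub_add_cancel (by omega)]
  rw [← lowp_scaleA r N j md (by omega)]
  push_cast
  rw [h1]
  ring

variable {d : ℕ} {Ω : Type*} [MeasurableSpace Ω] (μ : Measure Ω) [IsProbabilityMeasure μ]
  (Ξ : Ω → Set (E d × ℝ)) (ν : Measure ℝ)

theorem lowp_zero_ce (B : Set (E d × ℝ)) (hB : MeasurableSet B) :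
    CE Ξ B {ω | (Ξ ω ∩ B).encard = 0} := by
  have h := ce_of_fintype (Ξ := Ξ) (ι := Unit) (fun _ => B) {a | a () = 0} B (fun _ => hB)
    (fun i j hij => (hij (Subsingleton.elim i j)).elim) (fun _ => subset_rfl)
  exact h

theorem low_prob (hd : 1 ≤ d) (hΞ : IsPPP μ Ξ ν) (hν : ν (Set.Iic 0) = 0)
    (hfin : ∀ t : ℝ, 0 < t → ν (Set.Ici t) ≠ ∞) (M : Model d) (hM : M.Ok) (P : DP) (hP : P.Ok)
    (hT : ν (Set.Ici P.δ0) ≠ ∞) (r : ℝ) (hr : 0 < r) (md j N ib : ℕ) (hj : md + ib ≤ j)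
    (hN : 1 ≤ N) (β η V τ0 e1 e2 L v : ℝ) (hβ : 0 < β) (hβ' : β < 1) (he1 : 0 ≤ e1) (he2 : 0 ≤ e2)
    (hL0 : 0 ≤ L) (hV : 0 ≤ V) (hT0 : ν (Set.Ici τ0) ≠ ∞)
    (hcase : (P.δ0 = 0 ∧ τ0 = 0) ∨ (0 < P.δ0 ∧ P.δ0 ≤ τ0 ∧ M.Ins ∧ ¬ M.hub ∧
      SmallData μ Ξ P.δ0 (r * 2 ^ ib) e1 ∧ SmallData μ Ξ τ0 (r * 2 ^ ib) e2))
    (hη : 2 * (3 ^ d * e2) * (r * 2 ^ j) ≤ η)
    (hL : (1 + 2 * (d / (P.np * P.εu))) * L ≤ (1 - β) * N * (r * 2 ^ j))
    (hv : V + P.mst * (1 + L / (P.εu * r)) + 3 ^ d * e1 * (2 * L + r * 2 ^ ib) ≤ v) :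
    ENNReal.ofReal (prB (P.lat d) (abx d md N j) (wlow P ν d r)
        (RootDZ M (P.lat d) j N md β η (r * 2 ^ ib / (r * 2 ^ j)) V) *
      Real.exp (-((2 * (N * (r * 2 ^ j) * 2⁻¹ ^ md)) ^ d * (ν (Set.Ici τ0)).toReal)) *
      (1 / 2) ^ ((2 * N * 2 ^ (j - ib)) ^ d)) ≤ μ {ω | RootT M (Ξ ω) L v} := by
  have hmd : md ≤ j := by omega
  have hib : ib ≤ j := by omega
  have hb : 0 < r * 2 ^ ib := by positivity
  have hW0 : 0 ≤ N * (r * 2 ^ j) * 2⁻¹ ^ md := by positivity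
  have h3d : (0 : ℝ) ≤ 3 ^ d := by positivity
  -- the alive cells are outside the dead zone
  have halive : ∀ p ∈ abx d md N j, ∀ x ∈ gcell r p,
      x ∉ dzone d (N * (r * 2 ^ j) * 2⁻¹ ^ md) := by
    intro p hp x hx
    rw [← lowp_scaleA r N j md hmd]
    exact lowp_cell_out r hr _ p (Finset.mem_sdiff.1 hp).2 x hx
  -- the two events
  obtain ⟨hce0, hpr0⟩ := low_event μ Ξ ν hΞ hν hfin P hP hT r hr (abx d md N j)
    (RootDZ M (P.lat d) j N md β η (r * 2 ^ ib / (r * 2 ^ j)) V)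
  have hmeas1 : MeasurableSet (dzone d (N * (r * 2 ^ j) * 2⁻¹ ^ md) ×ˢ Set.Ici τ0) :=
    (lowp_dz_meas d _).prod measurableSet_Ici
  have hce1 := lowp_zero_ce Ξ _ hmeas1
  have hprod : ((volume : Measure (E d)).prod ν)
      (dzone d (N * (r * 2 ^ j) * 2⁻¹ ^ md) ×ˢ Set.Ici τ0) =
      ENNReal.ofReal ((2 * (N * (r * 2 ^ j) * 2⁻¹ ^ md)) ^ d) * ν (Set.Ici τ0) := by
    rw [prod_rect ν hν hfin, lowp_dz_vol d _ hW0]
  have hpr1 : μ {ω | (Ξ ω ∩ (dzone d (N * (r * 2 ^ j) * 2⁻¹ ^ md) ×ˢ Set.Ici τ0)).encard = 0} =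
      ENNReal.ofReal
        (Real.exp (-((2 * (N * (r * 2 ^ j) * 2⁻¹ ^ md)) ^ d * (ν (Set.Ici τ0)).toReal))) := by
    rw [ppp_zero hΞ _ hmeas1 (by rw [hprod]; exact ENNReal.mul_ne_top ENNReal.ofReal_ne_top hT0),
      hprod, ENNReal.toReal_mul, ENNReal.toReal_ofReal (by positivity)]
  have hdisj : Disjoint (⋃ p ∈ abx d md N j, Tot P r p)
      (dzone d (N * (r * 2 ^ j) * 2⁻¹ ^ md) ×ˢ Set.Ici τ0) := by
    rw [Set.disjoint_left]
    intro z hz hz2
    obtain ⟨p, hp, hz3⟩ := Set.mem_iUnion₂.1 hz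
    exact halive p hp z.1 hz3.1 hz2.1
  obtain ⟨hceE, hprE⟩ := ce_inter hΞ _ _ hdisj _ _ hce0 hce1
  rw [hpr0, hpr1] at hprE
  have hpB : 0 ≤ prB (P.lat d) (abx d md N j) (wlow P ν d r)
      (RootDZ M (P.lat d) j N md β η (r * 2 ^ ib / (r * 2 ^ j)) V) :=
    lowp_prB_nonneg _ _ _ (fun x => wlow_nonneg ν P hP r hr x) _
  rw [ENNReal.ofReal_mul (by positivity), ENNReal.ofReal_mul hpB, ← hprE]
  have hhalf : ENNReal.ofReal ((1 / 2) ^ ((2 * N * 2 ^ (j - ib)) ^ d)) =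
      (1 / 2) ^ ((2 * N * 2 ^ (j - ib)) ^ d) := by
    rw [ENNReal.ofReal_pow (by norm_num)]
    congr 1
    rw [ENNReal.ofReal_div_of_pos (by norm_num)]
    simp
  rw [hhalf]
  rcases hcase with ⟨hδ, hτ⟩ | ⟨hδ, hδτ, hIns, hhub, hS1, hS2⟩
  · -- first case
    have hle : μ ({ω | ∃ f : (abx d md N j) → Option (P.lat d).A,
          ext (P.lat d) (abx d md N j) f ∈
            RootDZ M (P.lat d) j N md β η (r * 2 ^ ib / (r * 2 ^ j)) V ∧
          ∀ p : (abx d md N j), St P r (Ξ ω) p (f p)} ∩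
        {ω | (Ξ ω ∩ (dzone d (N * (r * 2 ^ j) * 2⁻¹ ^ md) ×ˢ Set.Ici τ0)).encard = 0}) ≤
        μ {ω | RootT M (Ξ ω) L v} := by
      refine measure_mono ?_
      rintro ω ⟨⟨f, hf1, hf2⟩, hω⟩
      have hω' : Ξ ω ∩ (dzone d (N * (r * 2 ^ j) * 2⁻¹ ^ md) ×ˢ Set.Ici τ0) = ∅ :=
        Set.encard_eq_zero.1 hω
      refine low_incl hd M hM P hP r hr md j N hmd hN (Ξ ω) (hΞ.pos ω) f hf2 β η (r * 2 ^ ib) V τ0
        (3 ^ d * e1) (3 ^ d * e2) L v hβ hβ' hb.le (by positivity) (by positivity) hL0 hV hf1 hω'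
        (Or.inr ⟨hδ, hτ⟩) ?_ ?_ hη hL hv
      · intro l
        rw [Finset.sum_eq_zero fun x _ => lowp_massI_empty (Ξ ω) x _ hδ]
        exact zero_le
      · intro l
        rw [Finset.sum_eq_zero fun x _ => lowp_massI_empty (Ξ ω) x _ hτ]
        exact zero_le
    refine le_trans ?_ hle
    have h1 : ((1 : ℝ≥0∞) / 2) ^ ((2 * N * 2 ^ (j - ib)) ^ d) ≤ 1 := by
      refine pow_le_one₀ zero_le ?_
      rw [ENNReal.div_le_iff (by norm_num) (by norm_num)]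
      norm_num
    exact (mul_le_mul_right h1 _).trans (mul_one _).le
  · -- second case
    obtain ⟨F1, hF1a, hF1b⟩ := hS1
    obtain ⟨F2, hF2a, hF2b⟩ := hS2
    have hcard : (bx d (N * 2 ^ (j - ib))).card = (2 * N * 2 ^ (j - ib)) ^ d := by
      rw [lowp_card, mul_assoc]
    have hsub : ∀ Q ∈ bx d (N * 2 ^ (j - md - ib)), Q ∈ bx d (N * 2 ^ (j - ib)) := by
      intro Q hQ
      refine Fintype.mem_piFinset.2 fun i => ?_
      have h1 := Finset.mem_Ico.1 (Fintype.mem_piFinset.1 hQ i)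
      have h2 : N * 2 ^ (j - md - ib) ≤ N * 2 ^ (j - ib) :=
        Nat.mul_le_mul_left _ (Nat.pow_le_pow_right (by norm_num) (by omega))
      rw [Finset.mem_Ico]
      omega
    have hdeadin : ∀ Q ∈ bx d (N * 2 ^ (j - md - ib)), ∀ x ∈ gcell (r * 2 ^ ib) Q,
        x ∈ dzone d (N * (r * 2 ^ j) * 2⁻¹ ^ md) := by
      intro Q hQ x hx
      rw [← lowp_scaleC r N j md ib hj]
      exact lowp_cell_in _ hb _ Q hQ x hx
    have hdeadout : ∀ Q, Q ∉ bx d (N * 2 ^ (j - md - ib)) → ∀ x ∈ gcell (r * 2 ^ ib) Q,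
        x ∉ dzone d (N * (r * 2 ^ j) * 2⁻¹ ^ md) := by
      intro Q hQ x hx
      rw [← lowp_scaleC r N j md ib hj]
      exact lowp_cell_out _ hb _ Q hQ x hx
    have hboxout : ∀ Q, Q ∉ bx d (N * 2 ^ (j - ib)) → ∀ x ∈ gcell (r * 2 ^ ib) Q,
        x ∉ dzone d (N * (r * 2 ^ j)) := by
      intro Q hQ x hx
      rw [← lowp_scaleB r N j ib hib]
      exact lowp_cell_out _ hb _ Q hQ x hx
    have hsp := small_prob μ Ξ ν hΞ (r * 2 ^ ib) hb (bx d (N * 2 ^ (j - ib)))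
      (fun Q => if Q ∈ bx d (N * 2 ^ (j - md - ib)) then τ0 else P.δ0)
      (fun Q => by
        split_ifs
        · exact hδ.trans_le hδτ
        · exact hδ)
      (fun Q => if Q ∈ bx d (N * 2 ^ (j - md - ib)) then F2 Q else F1 Q)
      (fun Q _ k => by
        by_cases hQ : Q ∈ bx d (N * 2 ^ (j - md - ib))
        · simp only [if_pos hQ]
          exact hF2b Q k
        · simp only [if_neg hQ]
          exact hF1b Q k)
      _ _ hceE
      (fun Q _ => by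
        rw [Set.disjoint_left]
        rintro z (hz | hz) hz2
        · obtain ⟨p, hp, hz3⟩ := Set.mem_iUnion₂.1 hz
          by_cases hQ : Q ∈ bx d (N * 2 ^ (j - md - ib))
          · exact halive p hp z.1 hz3.1 (hdeadin Q hQ z.1 hz2.1)
          · have h1 := hz2.2.2
            simp only [if_neg hQ] at h1
            exact absurd hz3.2 (not_le.2 h1)
        · by_cases hQ : Q ∈ bx d (N * 2 ^ (j - md - ib))
          · have h1 := hz2.2.2
            simp only [if_pos hQ] at h1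
            exact absurd hz.2 (not_le.2 h1)
          · have h1 := hz2.2.2
            simp only [if_neg hQ] at h1
            exact absurd (hδτ.trans hz.2) (not_le.2 h1))
    rw [hcard] at hsp
    refine hsp.trans (measure_mono ?_)
    rintro ω ⟨⟨⟨f, hf1, hf2⟩, hω⟩, hFω⟩
    have hω' : Ξ ω ∩ (dzone d (N * (r * 2 ^ j) * 2⁻¹ ^ md) ×ˢ Set.Ici τ0) = ∅ :=
      Set.encard_eq_zero.1 hω
    refine low_incl hd M hM P hP r hr md j N hmd hN (Ξ ω) (hΞ.pos ω) f hf2 β η (r * 2 ^ ib) V τ0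
      (3 ^ d * e1) (3 ^ d * e2) L v hβ hβ' hb.le (by positivity) (by positivity) hL0 hV hf1 hω'
      (Or.inl ⟨hIns, hhub⟩) ?_ ?_ hη hL hv
    · intro l
      have h := poly_cubes (r * 2 ^ ib) e1 hb he1
        (fun x => if x ∈ dzone d (N * (r * 2 ^ j)) ∧ x ∉ dzone d (N * (r * 2 ^ j) * 2⁻¹ ^ md)
          then massI (Ξ ω) (Set.Ioo 0 P.δ0) x else 0) ?_ l
      · rw [Finset.sum_filter]
        exact h
      · intro Q l hl
        by_cases hQ : Q ∈ bx d (N * 2 ^ (j - md - ib))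
        · rw [Finset.sum_eq_zero]
          · exact zero_le
          · intro x hx
            rw [if_neg]
            rintro ⟨-, h2⟩
            exact h2 (hdeadin Q hQ x (Finset.mem_filter.1 hx).2)
        · by_cases hQ2 : Q ∈ bx d (N * 2 ^ (j - ib))
          · have h1 := hFω Q hQ2
            simp only [if_neg hQ] at h1
            refine le_trans (Finset.sum_le_sum fun x _ => ?_) (hF1a (Ξ ω) Q h1 l hl)
            split_ifs
            · exact le_rfl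
            · exact zero_le
          · rw [Finset.sum_eq_zero]
            · exact zero_le
            · intro x hx
              rw [if_neg]
              rintro ⟨h2, -⟩
              exact hboxout Q hQ2 x (Finset.mem_filter.1 hx).2 h2
    · intro l
      have h := poly_cubes (r * 2 ^ ib) e2 hb he2
        (fun x => if x ∈ dzone d (N * (r * 2 ^ j) * 2⁻¹ ^ md)
          then massI (Ξ ω) (Set.Ioo 0 τ0) x else 0) ?_ l
      · rw [Finset.sum_filter]
        exact h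
      · intro Q l hl
        by_cases hQ : Q ∈ bx d (N * 2 ^ (j - md - ib))
        · have h1 := hFω Q (hsub Q hQ)
          simp only [if_pos hQ] at h1
          refine le_trans (Finset.sum_le_sum fun x _ => ?_) (hF2a (Ξ ω) Q h1 l hl)
          split_ifs
          · exact le_rfl
          · exact zero_le
        · rw [Finset.sum_eq_zero]
          · exact zero_le
          · intro x hx
            rw [if_neg]
            exact hdeadout Q hQ x (Finset.mem_filter.1 hx).2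

end MP4fb

end
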