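import Pool.Agent.Lib.MP_4fbc34_pr.CoreDef
import Pool.Agent.Lib.MP_4fbc34_pr.LowP

/-!
JOB CoreC: from one scale to all large lengths.

Write `U = r 2^j`, `K = KP d P`, `γ = β 2⁻ᵐᵈ / 16`, `ζ1 = ζ K / (1 - c)`.  For large `L` let `N = ⌈K L / ((1 - β) U)⌉₊`, so
`K L <= (1 - β) N U` and `N U <= K L / (1 - β) + U`.  Apply `low_prob` with this `N`, `η = ζ1 β / 4 * U`, `v = ζ L`,
`V = ζ1 (1 - β - γ) U N >= 0`, and the two cases of `hP.case` (`hcase'` provides `M.Ins ∧ ¬ M.hub` in the second case;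
`b = r 2^ib >= bmin >= 1`).
* `hη`: `2 (3^d e2) U <= ζ β / 4 U <= ζ1 β / 4 U` (`K >= 1`, `1 - c <= 1`).
* `hv`: `V <= ζ1 (1 - β - γ) (K L / (1 - β) + U) <= ζ L (K^2 / (1 - c)) (1 - γ) + ζ1 U <= ζ L (1 - γ / 2) + ζ1 U`
  (`(1 - β - γ)/(1 - β) <= 1 - γ`), `mst (1 + L / (εu r)) <= mst + ζ γ L / 8` (`r >= r0 / 2`),
  `3^d e1 (2 L + b) <= ζ γ L / 8 + 3^d e1 b`; the constants are at most `ζ γ L / 4` for `L` large.  Sum `<= ζ L`.
* PROBABILITY: `wlow x >= exp (-(lamT^2 + lamT - ∑ lamA)) wup x` for all `x` (`wup_props`), so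
  `prB .. wlow .. >= exp (-(lamT^2 + ...) card (abx d md N j)) prB .. wup ..`, and `card <= (2 N 2^j)^d`, so the factor is at
  least `exp (-(θ / 8) (N U)^d)` by `lam1` (`r^d (2^j)^d = U^d`).  Next `(2 N U 2⁻ᵐᵈ)^d ν(Ici τ0) <= θ / 8 (N U)^d` by `dead`, and
  `(1/2)^((2 N 2^(j-ib))^d) = exp (-log 2 * 2^d (N U / b)^d) >= exp (-(θ / 8) (N U)^d)` by `cube` (`b >= bmin`;
  `N 2^(j - ib) = N U / b`).  With `hslack` the total is at least `exp (-(I1 + θ / 2) (N U)^d)`,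
  `I1 = I (K / (1 - c))^d`, and `(N U)^d <= (K L / (1 - β) + U)^d`, so
  `(I1 + θ/2) (N U)^d <= (I + θ) L^d` for `L` large by `expo` (divide by `L^d`, limit `(I1 + θ / 2) (K / (1 - β))^d < I + θ`).
-/

set_option autoImplicit false

open MeasureTheory ProbabilityTheory Filter
open scoped ENNReal Classical

noncomputable section

namespace MP4fb

private theorem card_abx_le (d md N j : ℕ) : (abx d md N j).card ≤ (2 * N * 2 ^ j) ^ d := by
  have h1 : (abx d md N j).card ≤ (bx d (N * 2 ^ j)).card :=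
    Finset.card_le_card Finset.sdiff_subset
  refine h1.trans (le_of_eq ?_)
  rw [bx, Fintype.card_piFinset, Finset.prod_const, Int.card_Ico, Finset.card_univ,
    Fintype.card_fin]
  congr 1
  have h2 : ((N * 2 ^ j : ℕ) : ℤ) - -((N * 2 ^ j : ℕ) : ℤ) = ((2 * N * 2 ^ j : ℕ) : ℤ) := by
    push_cast
    ring
  rw [h2, Int.toNat_natCast]

private theorem prB_low {d : ℕ} (Λ : Lat d) (B : Finset (Fin d → ℤ)) (wl wu : Option Λ.A → ℝ)
    (hu : ∀ x, 0 ≤ wu x) (a : ℝ) (hw : ∀ x, Real.exp (-a) * wu x ≤ wl x) (Ev : Set (Cfg Λ)) :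
    Real.exp (-(a * B.card)) * prB Λ B wu Ev ≤ prB Λ B wl Ev := by
  unfold prB
  rw [Finset.mul_sum]
  refine Finset.sum_le_sum fun f _ => ?_
  split_ifs with h
  · have h1 : Real.exp (-(a * B.card)) = ∏ _x : B, Real.exp (-a) := by
      rw [Finset.prod_const, Finset.card_univ, Fintype.card_coe, ← Real.exp_nat_mul]
      congr 1
      ring
    rw [h1, ← Finset.prod_mul_distrib]
    exact Finset.prod_le_prod (fun x _ => mul_nonneg (Real.exp_pos _).le (hu _)) fun x _ => hw _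
  · rw [mul_zero]

variable {d : ℕ} {Ω : Type*} [MeasurableSpace Ω] (μ : Measure Ω) [IsProbabilityMeasure μ]
  (Ξ : Ω → Set (E d × ℝ)) (ν : Measure ℝ)

theorem core_all (hd : 2 ≤ d) (hΞ : IsPPP μ Ξ ν) (hν : ν (Set.Iic 0) = 0)
    (hfin : ∀ t : ℝ, 0 < t → ν (Set.Ici t) ≠ ∞) (M : Model d) (hM : M.Ok)
    (ζ I θ : ℝ) (hζ : 0 < ζ) (hI0 : 0 ≤ I) (hθ : 0 < θ)
    (β c r0 τ0 e1 e2 bmin : ℝ) (md : ℕ) (P : DP)
    (hP : ParOk d ν (SmallData μ Ξ) ζ I θ β c r0 τ0 e1 e2 bmin md P)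
    (hcase' : 0 < P.δ0 → M.Ins ∧ ¬ M.hub) (ib j : ℕ) (r : ℝ) (hib : bmin ≤ r0 / 2 * 2 ^ ib)
    (hj : md + ib ≤ j) (hr : r0 / 2 ≤ r) (hr' : r ≤ r0)
    (hslack : ∀ N : ℕ, 1 ≤ N →
      Real.exp (-((I * (KP d P / (1 - c)) ^ d + θ / 8) * (N * (r * 2 ^ j)) ^ d)) ≤
        prB (P.lat d) (abx d md N j) (wup P ν d r)
          (RootDZ M (P.lat d) j N md β (ζ * KP d P / (1 - c) * β / 4 * (r * 2 ^ j))
            (r * 2 ^ ib / (r * 2 ^ j))
            (ζ * KP d P / (1 - c) * (1 - β - β * 2⁻¹ ^ md / 16) * (r * 2 ^ j) * N))) :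
    ∀ᶠ L : ℝ in atTop, Real.exp (-((I + θ) * L ^ d)) ≤
      (μ {ω | RootT M (Ξ ω) L (ζ * L)}).toReal := by
  have hd1 : 1 ≤ d := by omega
  have hPok := hP.Pok
  have hnp : (0 : ℝ) < P.np := by exact_mod_cast hPok.np_pos
  have he := hPok.eu_pos
  have hms := hPok.ms
  have hd0 := hPok.d0
  have hr0 := hP.r0pos
  have hc0 := hP.c01.1
  have hc1 : 0 < 1 - c := by linarith [hP.c01.2]
  have hβ := hP.beta.1
  have hβ2 := hP.beta.2
  have hβ1 : 0 < 1 - β := by linarith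
  have he1 := hP.e1pos
  have he2 := hP.e2pos
  have hrp : 0 < r := lt_of_lt_of_le (by linarith) hr
  have hKdef : (1 : ℝ) + 2 * (d / (P.np * P.εu)) = KP d P := rfl
  have hK1 : 1 ≤ KP d P := by
    have : 0 ≤ 2 * ((d : ℝ) / (P.np * P.εu)) := by positivity
    unfold KP
    linarith
  set K : ℝ := KP d P with hK
  have hK0 : 0 < K := by linarith
  have hU : 0 < r * 2 ^ j := by positivity
  set U : ℝ := r * 2 ^ j with hUdef
  have hb0 : 0 < r * 2 ^ ib := by positivity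
  have hbmin : bmin ≤ r * 2 ^ ib := hib.trans (mul_le_mul_of_nonneg_right hr (by positivity))
  have hb1 : 1 ≤ r * 2 ^ ib := hP.b1.trans hbmin
  set b : ℝ := r * 2 ^ ib with hbdef
  have hpmd : (0 : ℝ) < 2⁻¹ ^ md := by positivity
  have hpmd1 : (2⁻¹ : ℝ) ^ md ≤ 1 := pow_le_one₀ (by norm_num) (by norm_num)
  set γ : ℝ := β * 2⁻¹ ^ md / 16 with hγdef
  have hγ0 : 0 < γ := by positivity
  have hγ1 : γ ≤ β / 16 := by
    rw [hγdef]
    have : β * 2⁻¹ ^ md ≤ β * 1 := mul_le_mul_of_nonneg_left hpmd1 hβ.le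
    linarith
  have hζ1 : ζ ≤ ζ * K / (1 - c) := by
    rw [le_div_iff₀ hc1]
    nlinarith
  set ζ1 : ℝ := ζ * K / (1 - c) with hζ1def
  have hζ10 : 0 < ζ1 := by positivity
  have hgain : ζ1 * (1 - β - γ) * (K / (1 - β)) ≤ ζ * (1 - γ / 2) := by
    have h1 : (1 - β - γ) / (1 - β) ≤ 1 - γ := by
      rw [div_le_iff₀ hβ1]
      nlinarith
    have h2 := hP.gain
    have h3 : K ^ 2 / (1 - c) * (1 - γ) ≤ 1 - γ / 2 := by
      have h4 : β * 2⁻¹ ^ md / 32 = γ / 2 := by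
        rw [hγdef]
        ring
      rw [← h4]
      exact h2
    have h5 : ζ1 * (1 - β - γ) * (K / (1 - β)) =
        ζ * (K ^ 2 / (1 - c) * ((1 - β - γ) / (1 - β))) := by
      rw [hζ1def]
      ring
    rw [h5]
    apply mul_le_mul_of_nonneg_left _ hζ.le
    refine le_trans ?_ h3
    exact mul_le_mul_of_nonneg_left h1 (by positivity)
  have hrnd : P.mst / (P.εu * r) ≤ ζ * γ / 8 := by
    refine le_trans ?_ hP.rnd
    apply div_le_div_of_nonneg_left hms.le (by positivity)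
    exact mul_le_mul_of_nonneg_left hr he.le
  have hrate1 := hP.rate1
  rw [← hγdef] at hrate1
  set lamE : ℝ := lamT P ν d r ^ 2 + (lamT P ν d r - ∑ a, lamA P ν d r a) with hlamE
  have hlam1 := hP.lam1 r hrp hr'
  have hwup := wup_props ν P hPok hP.nu1 r hrp hlam1.1
  -- the limit
  have hexpo := hP.expo
  have hlim : ∀ᶠ L : ℝ in atTop,
      (I * (K / (1 - c)) ^ d + θ / 2) * (K / (1 - β) + U / L) ^ d < I + θ := by
    have h1 : Tendsto (fun L : ℝ => (I * (K / (1 - c)) ^ d + θ / 2) * (K / (1 - β) + U / L) ^ d)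
        atTop (nhds ((I * (K / (1 - c)) ^ d + θ / 2) * (K / (1 - β) + 0) ^ d)) :=
      ((tendsto_const_nhds.add (tendsto_const_nhds.div_atTop tendsto_id)).pow d).const_mul _
    rw [add_zero] at h1
    exact h1.eventually_lt_const hexpo
  have hbig : ∀ᶠ L : ℝ in atTop, ζ1 * U + P.mst + 3 ^ d * e1 * b ≤ ζ * γ / 4 * L := by
    have h1 : Tendsto (fun L : ℝ => ζ * γ / 4 * L) atTop atTop :=
      Tendsto.const_mul_atTop (by positivity) tendsto_id
    exact h1.eventually_ge_atTop _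
  filter_upwards [hlim, hbig, eventually_gt_atTop 0] with L hL1 hL2 hL0
  set N : ℕ := ⌈K * L / ((1 - β) * U)⌉₊ with hNdef
  have hq : 0 < K * L / ((1 - β) * U) := by positivity
  have hN1 : 1 ≤ N := Nat.one_le_iff_ne_zero.2 (by
    rw [hNdef]
    exact (Nat.ceil_pos.2 hq).ne')
  have hNle : K * L / ((1 - β) * U) ≤ N := Nat.le_ceil _
  have hNlt : (N : ℝ) < K * L / ((1 - β) * U) + 1 := Nat.ceil_lt_add_one hq.le
  have hKL : K * L ≤ (1 - β) * N * U := by
    rw [div_le_iff₀ (by positivity)] at hNle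
    linarith
  have hNU : N * U ≤ K / (1 - β) * L + U := by
    have h1 : (N : ℝ) * U ≤ (K * L / ((1 - β) * U) + 1) * U :=
      mul_le_mul_of_nonneg_right hNlt.le hU.le
    refine h1.trans (le_of_eq ?_)
    field_simp
  have hN0 : (0 : ℝ) < N := by exact_mod_cast hN1
  have hg0 : 0 < 1 - β - γ := by linarith
  have hV0 : 0 ≤ ζ1 * (1 - β - β * 2⁻¹ ^ md / 16) * U * N := by
    rw [← hγdef]
    positivity
  have hv : ζ1 * (1 - β - β * 2⁻¹ ^ md / 16) * U * N + P.mst * (1 + L / (P.εu * r)) +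
      3 ^ d * e1 * (2 * L + r * 2 ^ ib) ≤ ζ * L := by
    rw [← hγdef, ← hbdef]
    have h1 : ζ1 * (1 - β - γ) * U * N ≤ ζ1 * (1 - β - γ) * (K / (1 - β) * L + U) := by
      have := mul_le_mul_of_nonneg_left hNU (show 0 ≤ ζ1 * (1 - β - γ) by positivity)
      linarith
    have h2 : ζ1 * (1 - β - γ) * (K / (1 - β) * L + U) ≤ ζ * (1 - γ / 2) * L + ζ1 * U := by
      have h3 := mul_le_mul_of_nonneg_right hgain hL0.le
      have h4 : ζ1 * (1 - β - γ) * U ≤ ζ1 * U := by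
        have : ζ1 * (1 - β - γ) ≤ ζ1 * 1 := mul_le_mul_of_nonneg_left (by linarith) hζ10.le
        rw [mul_one] at this
        exact mul_le_mul_of_nonneg_right this hU.le
      linarith
    have h3 : P.mst * (1 + L / (P.εu * r)) ≤ P.mst + ζ * γ / 8 * L := by
      have h4 := mul_le_mul_of_nonneg_right hrnd hL0.le
      have h5 : P.mst * (1 + L / (P.εu * r)) = P.mst + P.mst / (P.εu * r) * L := by ring
      rw [h5]
      linarith
    have h4 : 3 ^ d * e1 * (2 * L + b) ≤ ζ * γ / 8 * L + 3 ^ d * e1 * b := by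
      have h5 := mul_le_mul_of_nonneg_right hrate1 hL0.le
      linarith
    have h5 : ζ * (1 - γ / 2) * L = ζ * L - ζ * γ / 4 * L - ζ * γ / 4 * L := by ring
    have h6 : ζ * γ / 8 * L + ζ * γ / 8 * L = ζ * γ / 4 * L := by ring
    linarith
  have hlow := low_prob μ Ξ ν hd1 hΞ hν hfin M hM P hPok hP.nu1 r hrp md j N ib hj hN1 β
    (ζ1 * β / 4 * U) (ζ1 * (1 - β - β * 2⁻¹ ^ md / 16) * U * N) τ0 e1 e2 L (ζ * L) hβ (by linarith)
    he1.le he2.le hL0.le hV0 hP.nu2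
    (by
      rcases hP.case with ⟨h1, h2, -⟩ | ⟨h1, h2, h3⟩
      · exact Or.inl ⟨h1, h2⟩
      · exact Or.inr ⟨h1, h2, (hcase' h1).1, (hcase' h1).2, (h3 _ hb1).1, (h3 _ hb1).2⟩)
    (by
      apply mul_le_mul_of_nonneg_right _ hU.le
      refine hP.rate2.trans ?_
      have := mul_le_mul_of_nonneg_right hζ1 hβ.le
      linarith)
    (by
      rw [hKdef]
      exact hKL) hv
  rw [← hUdef] at hlow
  set X : ℝ := (N * U) ^ d with hX
  have hX0 : 0 ≤ X := by positivity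
  -- the factors
  have hS := hslack N hN1
  rw [← hX] at hS
  have hlow1 := prB_low (P.lat d) (abx d md N j) (wlow P ν d r) (wup P ν d r) hwup.1 lamE
    hwup.2.2.2 (RootDZ M (P.lat d) j N md β (ζ1 * β / 4 * U) (b / U)
      (ζ1 * (1 - β - β * 2⁻¹ ^ md / 16) * U * N))
  have hf1 : Real.exp (-(θ / 8 * X)) ≤ Real.exp (-(lamE * (abx d md N j).card)) := by
    apply Real.exp_le_exp.2
    rw [neg_le_neg_iff]
    have hlamE0 : 0 ≤ lamE := by
      have := (sum_lam (d := d) ν P hPok hP.nu1 r hrp).1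
      rw [hlamE]
      positivity
    have h1 : ((abx d md N j).card : ℝ) ≤ (2 * N * 2 ^ j) ^ d := by
      exact_mod_cast card_abx_le d md N j
    calc lamE * (abx d md N j).card ≤ lamE * (2 * N * 2 ^ j) ^ d :=
          mul_le_mul_of_nonneg_left h1 hlamE0
      _ = (2 ^ d * lamE) * (N * 2 ^ j) ^ d := by
          rw [mul_assoc (2 : ℝ), mul_pow (2 : ℝ)]
          ring
      _ ≤ (θ / 8 * r ^ d) * (N * 2 ^ j) ^ d :=
          mul_le_mul_of_nonneg_right hlam1.2 (by positivity)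
      _ = θ / 8 * X := by
          rw [hX, hUdef, mul_assoc, ← mul_pow]
          congr 2
          ring
  have hf2 : Real.exp (-(θ / 8 * X)) ≤
      Real.exp (-((2 * (N * U * 2⁻¹ ^ md)) ^ d * (ν (Set.Ici τ0)).toReal)) := by
    apply Real.exp_le_exp.2
    rw [neg_le_neg_iff]
    have h1 : (2 * (N * U * 2⁻¹ ^ md)) ^ d * (ν (Set.Ici τ0)).toReal =
        ((2 * 2⁻¹ ^ md) ^ d * (ν (Set.Ici τ0)).toReal) * X := by
      have h2 : (2 * (N * U * 2⁻¹ ^ md) : ℝ) = (2 * 2⁻¹ ^ md) * (N * U) := by ring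
      rw [h2, mul_pow (2 * 2⁻¹ ^ md : ℝ), ← hX]
      ring
    rw [h1]
    exact mul_le_mul_of_nonneg_right hP.dead hX0
  have hf3 : Real.exp (-(θ / 8 * X)) ≤ (1 / 2 : ℝ) ^ ((2 * N * 2 ^ (j - ib)) ^ d) := by
    have h1 : (1 / 2 : ℝ) ^ ((2 * N * 2 ^ (j - ib)) ^ d) =
        Real.exp (-(Real.log 2 * ((2 * N * 2 ^ (j - ib)) ^ d : ℕ))) := by
      rw [← Real.rpow_natCast, Real.rpow_def_of_pos (by norm_num)]
      congr 1
      rw [one_div, Real.log_inv]
      ring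
    rw [h1]
    apply Real.exp_le_exp.2
    rw [neg_le_neg_iff]
    have h2 : (((2 * N * 2 ^ (j - ib)) ^ d : ℕ) : ℝ) = 2 ^ d * (X / b ^ d) := by
      have h3 : (2 : ℝ) ^ j = 2 ^ (j - ib) * 2 ^ ib := by
        rw [← pow_add, Nat.sub_add_cancel (by omega)]
      push_cast
      rw [hX, ← div_pow, ← mul_pow]
      congr 1
      rw [hUdef, hbdef, h3]
      field_simp
    have hbp : 0 < bmin := by linarith [hP.b1]
    have h4 : bmin ^ d ≤ b ^ d := pow_le_pow_left₀ hbp.le hbmin d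
    rw [h2]
    calc Real.log 2 * (2 ^ d * (X / b ^ d)) = 2 ^ d * Real.log 2 / b ^ d * X := by ring
      _ ≤ 2 ^ d * Real.log 2 / bmin ^ d * X := by
          apply mul_le_mul_of_nonneg_right _ hX0
          apply div_le_div_of_nonneg_left _ (by positivity) h4
          have := Real.log_nonneg one_le_two
          positivity
      _ ≤ θ / 8 * X := mul_le_mul_of_nonneg_right hP.cube hX0
  -- total
  have htot : Real.exp (-((I * (K / (1 - c)) ^ d + θ / 2) * X)) ≤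
      prB (P.lat d) (abx d md N j) (wlow P ν d r)
        (RootDZ M (P.lat d) j N md β (ζ1 * β / 4 * U) (b / U)
          (ζ1 * (1 - β - β * 2⁻¹ ^ md / 16) * U * N)) *
      Real.exp (-((2 * (N * U * 2⁻¹ ^ md)) ^ d * (ν (Set.Ici τ0)).toReal)) *
      (1 / 2) ^ ((2 * N * 2 ^ (j - ib)) ^ d) := by
    have h1 : Real.exp (-((I * (K / (1 - c)) ^ d + θ / 2) * X)) =
        (Real.exp (-(θ / 8 * X)) * Real.exp (-((I * (K / (1 - c)) ^ d + θ / 8) * X))) *
          Real.exp (-(θ / 8 * X)) * Real.exp (-(θ / 8 * X)) := by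
      rw [← Real.exp_add, ← Real.exp_add, ← Real.exp_add]
      congr 1
      ring
    rw [h1]
    have h2 : Real.exp (-(θ / 8 * X)) * Real.exp (-((I * (K / (1 - c)) ^ d + θ / 8) * X)) ≤
        prB (P.lat d) (abx d md N j) (wlow P ν d r)
        (RootDZ M (P.lat d) j N md β (ζ1 * β / 4 * U) (b / U)
          (ζ1 * (1 - β - β * 2⁻¹ ^ md / 16) * U * N)) :=
      (mul_le_mul hf1 hS (Real.exp_pos _).le (Real.exp_pos _).le).trans hlow1
    have h3 := mul_le_mul h2 hf2 (Real.exp_pos _).le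
      ((mul_pos (Real.exp_pos _) (Real.exp_pos _)).le.trans h2)
    refine mul_le_mul h3 hf3 (Real.exp_pos _).le ?_
    exact (mul_pos (mul_pos (Real.exp_pos _) (Real.exp_pos _)) (Real.exp_pos _)).le.trans h3
  have hXle : (I * (K / (1 - c)) ^ d + θ / 2) * X ≤ (I + θ) * L ^ d := by
    have hc : 0 ≤ I * (K / (1 - c)) ^ d + θ / 2 := by positivity
    have h1 : X ≤ ((K / (1 - β) + U / L) * L) ^ d := by
      rw [hX]
      apply pow_le_pow_left₀ (by positivity)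
      have h2 : (K / (1 - β) + U / L) * L = K / (1 - β) * L + U := by
        field_simp
      rw [h2]
      exact hNU
    rw [mul_pow] at h1
    have h2 := mul_le_mul_of_nonneg_left h1 hc
    have h3 := mul_le_mul_of_nonneg_right hL1.le (show 0 ≤ L ^ d by positivity)
    linarith
  have h9 : Real.exp (-((I + θ) * L ^ d)) ≤ Real.exp (-((I * (K / (1 - c)) ^ d + θ / 2) * X)) := by
    apply Real.exp_le_exp.2
    linarith
  refine h9.trans (htot.trans ?_)
  exact (ENNReal.ofReal_le_iff_le_toReal (measure_ne_top μ _)).1 hlow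

end MP4fb

end
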