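import Pool.Agent.Lib.MP_4fbc34_pr.Base

/-!
JOB Walk: a small family of sets of unit cells which covers the cells visited by a polygon.

WALKS.  A walk is a sequence of cells `c_0, ..., c_m`, `m = 2^(i+1)`, `c_t ∈ {0, ..., 2^i - 1}^d`, consecutive cells
differing by at most `1` in every coordinate (equal cells are allowed).  Their number is at most
`(2^i)^d * (3^d)^(2^(i+1)) <= exp (H1 2^i)` with `H1 = d + 2 d log 3` (as `2^i <= exp (2^i)`); for example encode a walk
by its first cell and its increments in `{-1, 0, 1}^d`, and let `𝒲` be the image of the finite set of these codes.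
The set `W` of a walk consists of all cells of the box `{0, ..., 2^i - 1}^d` which differ from some `c_t` by at most `1`
in every coordinate; `card W <= 3^d (2^(i+1) + 1) <= H2 2^i` with `H2 = 3^(d+1)`.
POLYGONS.  Let `l = x_0, x_1, ...` with `plen l <= 2^i` (for `l = []` any walk will do).  Anchors: `y = x_0`, walk `c_0 = ⌊x_0⌋`.
Go through the list: if `‖x_t - y‖ < 1` the cell of `x_t` is a neighbour of the cell of the anchor `y`, nothing is
done.  Otherwise let `K = ⌈‖x_t - y‖⌉ <= 2 ‖x_t - y‖`, append the cells of the points `y + (k / K) (x_t - y)`, `k = 1..K`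
(they are in the box by convexity; consecutive points are at distance at most `1`, so their cells differ by at
most `1` in every coordinate), and make `x_t` the new anchor.  The distance from the old to the new anchor is at
most the length of the polygon between them, so the total number of steps is at most `2 plen l <= 2^(i+1)`; pad
the walk by repeating the last cell.
Induction on the list with the statement: for every anchor `y` in the box there is a walk of `m` steps starting
at the cell of `y` with `m <= 2 plen (y :: l)` which covers (in the sense of neighbours) all the cells of `y :: l`; for the case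
`‖x - y‖ < 1` one keeps the anchor `y` and drops `x` from the list: `plen (y :: l) <= plen (y :: x :: l)`.
-/

set_option autoImplicit false

open scoped Classical

noncomputable section

namespace MP4fb

/-- The steps of a walk. -/
def WalkD (d : ℕ) : Finset (Fin d → ℤ) := Fintype.piFinset fun _ => Finset.Icc (-1 : ℤ) 1

/-- The neighbours of a cell. -/
def WalkN {d : ℕ} (c : Fin d → ℤ) : Finset (Fin d → ℤ) := (WalkD d).image fun δ => c + δ

/-- The sets covered by the walks of `m` steps starting at `c`. -/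
def WalkS {d : ℕ} : ℕ → (Fin d → ℤ) → Finset (Finset (Fin d → ℤ))
  | 0, c => {WalkN c}
  | m + 1, c => (WalkD d).biUnion fun δ => (WalkS m (c + δ)).image fun W => WalkN c ∪ W

theorem Walk_card_D (d : ℕ) : (WalkD d).card = 3 ^ d := by
  unfold WalkD
  rw [Fintype.card_piFinset]
  simp

theorem Walk_mem_D {d : ℕ} {δ : Fin d → ℤ} : δ ∈ WalkD d ↔ ∀ c, |δ c| ≤ 1 := by
  unfold WalkD
  rw [Fintype.mem_piFinset]
  simp only [Finset.mem_Icc, abs_le]

theorem Walk_zero_D (d : ℕ) : (0 : Fin d → ℤ) ∈ WalkD d := by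
  rw [Walk_mem_D]
  intro c
  simp

theorem Walk_mem_N {d : ℕ} {c w : Fin d → ℤ} (h : ∀ a, |w a - c a| ≤ 1) : w ∈ WalkN c := by
  unfold WalkN
  rw [Finset.mem_image]
  exact ⟨w - c, Walk_mem_D.2 h, by abel⟩

theorem Walk_card_N {d : ℕ} (c : Fin d → ℤ) : (WalkN c).card ≤ 3 ^ d := by
  unfold WalkN
  exact Finset.card_image_le.trans (Walk_card_D d).le

theorem Walk_nonempty {d : ℕ} (m : ℕ) : ∀ c : Fin d → ℤ, ∃ W, W ∈ WalkS m c := by
  induction m with
  | zero => exact fun c => ⟨WalkN c, by simp [WalkS]⟩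
  | succ m ih =>
    intro c
    obtain ⟨W, hW⟩ := ih (c + 0)
    refine ⟨WalkN c ∪ W, ?_⟩
    simp only [WalkS, Finset.mem_biUnion, Finset.mem_image]
    exact ⟨0, Walk_zero_D d, W, hW, rfl⟩

theorem Walk_N_sub {d : ℕ} (m : ℕ) (c : Fin d → ℤ) (W : Finset (Fin d → ℤ)) (hW : W ∈ WalkS m c) :
    WalkN c ⊆ W := by
  cases m with
  | zero =>
    simp only [WalkS, Finset.mem_singleton] at hW
    rw [hW]
  | succ m =>
    simp only [WalkS, Finset.mem_biUnion, Finset.mem_image] at hW
    obtain ⟨δ, _, W', _, rfl⟩ := hW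
    exact Finset.subset_union_left

theorem Walk_card_S {d : ℕ} (m : ℕ) : ∀ c : Fin d → ℤ, (WalkS m c).card ≤ (3 ^ d) ^ m := by
  induction m with
  | zero => intro c; simp [WalkS]
  | succ m ih =>
    intro c
    simp only [WalkS]
    refine (Finset.card_biUnion_le_card_mul _ _ ((3 ^ d) ^ m) fun δ _ =>
      Finset.card_image_le.trans (ih _)).trans ?_
    rw [Walk_card_D, pow_succ, mul_comm]

theorem Walk_card_W {d : ℕ} (m : ℕ) : ∀ (c : Fin d → ℤ) (W : Finset (Fin d → ℤ)),
    W ∈ WalkS m c → W.card ≤ (m + 1) * 3 ^ d := by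
  induction m with
  | zero =>
    intro c W hW
    simp only [WalkS, Finset.mem_singleton] at hW
    rw [hW]
    simpa using Walk_card_N c
  | succ m ih =>
    intro c W hW
    simp only [WalkS, Finset.mem_biUnion, Finset.mem_image] at hW
    obtain ⟨δ, _, W', hW', rfl⟩ := hW
    have h1 := ih _ _ hW'
    have h2 := Walk_card_N c
    have h3 := Finset.card_union_le (WalkN c) W'
    calc _ ≤ _ := h3
      _ ≤ 3 ^ d + (m + 1) * 3 ^ d := add_le_add h2 h1
      _ = _ := by ring

theorem Walk_step {d : ℕ} (m : ℕ) (c c' : Fin d → ℤ) (h : c' - c ∈ WalkD d)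
    (W : Finset (Fin d → ℤ)) (hW : W ∈ WalkS m c') : ∃ W' ∈ WalkS (m + 1) c, W ⊆ W' := by
  refine ⟨WalkN c ∪ W, ?_, Finset.subset_union_right⟩
  simp only [WalkS, Finset.mem_biUnion, Finset.mem_image]
  exact ⟨c' - c, h, W, by rwa [add_sub_cancel], rfl⟩

theorem Walk_path {d : ℕ} (m : ℕ) (K : ℕ) : ∀ (a : ℕ → Fin d → ℤ),
    (∀ t < K, a (t + 1) - a t ∈ WalkD d) → ∀ W ∈ WalkS m (a K), ∃ W' ∈ WalkS (m + K) (a 0),
      W ⊆ W' := by
  induction K with
  | zero => intro a _ W hW; exact ⟨W, hW, subset_rfl⟩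
  | succ K ih =>
    intro a ha W hW
    obtain ⟨W1, hW1, h1⟩ := ih (fun t => a (t + 1)) (fun t ht => ha (t + 1) (by omega)) W hW
    obtain ⟨W2, hW2, h2⟩ := Walk_step (m + K) (a 0) (a 1) (ha 0 (by omega)) W1 hW1
    exact ⟨W2, hW2, h1.trans h2⟩

theorem Walk_pad {d : ℕ} (m K : ℕ) (c : Fin d → ℤ) (W : Finset (Fin d → ℤ)) (hW : W ∈ WalkS m c) :
    ∃ W' ∈ WalkS (m + K) c, W ⊆ W' :=
  Walk_path m K (fun _ => c) (fun _ _ => by rw [sub_self]; exact Walk_zero_D d) W hW

theorem Walk_floor {u v : ℝ} (h : |v - u| ≤ 1) : |⌊v⌋ - ⌊u⌋| ≤ 1 := by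
  have h1 := abs_le.1 h
  have h2 := Int.floor_le u
  have h3 := Int.lt_floor_add_one u
  have h4 := Int.floor_le v
  have h5 := Int.lt_floor_add_one v
  rw [abs_le]
  constructor
  · have : ((⌊u⌋ : ℤ) : ℝ) < ((⌊v⌋ + 2 : ℤ) : ℝ) := by push_cast; linarith
    have := Int.cast_lt.1 this
    omega
  · have : ((⌊v⌋ : ℤ) : ℝ) < ((⌊u⌋ + 2 : ℤ) : ℝ) := by push_cast; linarith
    have := Int.cast_lt.1 this
    omega

theorem Walk_coord {d : ℕ} (x y : E d) (c : Fin d) : |x c - y c| ≤ ‖x - y‖ := by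
  have := PiLp.norm_apply_le (x - y) c
  rwa [PiLp.sub_apply, Real.norm_eq_abs] at this

theorem Walk_plen {d : ℕ} (x y : E d) (l : List (E d)) : plen (y :: l) ≤ plen (y :: x :: l) := by
  cases l with
  | nil => simp [plen]
  | cons z l =>
    simp only [plen]
    have := norm_sub_le_norm_sub_add_norm_sub y x z
    linarith

theorem Walk_plen_nonneg {d : ℕ} : ∀ l : List (E d), 0 ≤ plen l
  | [] => by simp [plen]
  | [x] => by simp [plen]
  | x :: y :: l => by
    simp only [plen]
    have := Walk_plen_nonneg (y :: l)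
    positivity

theorem Walk_cover {d : ℕ} (l : List (E d)) : ∀ (y : E d) (m : ℕ), 2 * plen (y :: l) ≤ m →
    ∃ W ∈ WalkS m (fun c => ⌊y c⌋), ∀ x ∈ y :: l, (fun c => ⌊x c⌋) ∈ W := by
  induction l with
  | nil =>
    intro y m _
    obtain ⟨W, hW⟩ := Walk_nonempty m (fun c => ⌊y c⌋)
    refine ⟨W, hW, fun x hx => ?_⟩
    rw [List.mem_singleton] at hx
    rw [hx]
    exact Walk_N_sub m _ W hW (Walk_mem_N fun a => by simp)
  | cons x l ih =>
    intro y m hm
    rcases lt_or_ge ‖x - y‖ 1 with h | h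
    · obtain ⟨W, hW, h1⟩ := ih y m (by linarith [Walk_plen x y l])
      refine ⟨W, hW, fun z hz => ?_⟩
      rcases List.mem_cons.1 hz with rfl | hz
      · exact h1 _ List.mem_cons_self
      · rcases List.mem_cons.1 hz with rfl | hz
        · refine Walk_N_sub m _ W hW (Walk_mem_N fun a => ?_)
          exact Walk_floor ((Walk_coord _ _ a).trans h.le)
        · exact h1 _ (List.mem_cons_of_mem _ hz)
    · set K : ℕ := ⌈‖x - y‖⌉₊ with hK
      have hK1 : ‖x - y‖ ≤ K := Nat.le_ceil _
      have hK2 : (K : ℝ) ≤ 2 * ‖x - y‖ := by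
        have := Nat.ceil_lt_add_one (norm_nonneg (x - y))
        rw [← hK] at this
        linarith
      have hK0 : (0 : ℝ) < K := by linarith
      have hp : plen (y :: x :: l) = ‖x - y‖ + plen (x :: l) := by
        simp only [plen]
        rw [norm_sub_rev]
      have hp0 := Walk_plen_nonneg (x :: l)
      have hKm : K ≤ m := by
        have : (K : ℝ) ≤ m := by linarith
        exact_mod_cast this
      obtain ⟨W, hW, h1⟩ := ih x (m - K) (by
        rw [Nat.cast_sub hKm]
        linarith)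
      set a : ℕ → Fin d → ℤ := fun t c => ⌊y c + (t / K : ℝ) * (x c - y c)⌋ with ha
      have ha0 : a 0 = fun c => ⌊y c⌋ := by
        funext c
        simp [ha]
      have haK : a K = fun c => ⌊x c⌋ := by
        funext c
        simp only [ha]
        rw [div_self hK0.ne']
        congr 1
        ring
      obtain ⟨W', hW', h2⟩ := Walk_path (m - K) K a (by
        intro t _
        rw [Walk_mem_D]
        intro c
        refine Walk_floor ?_
        have e1 : y c + ((t + 1 : ℕ) / K : ℝ) * (x c - y c) - (y c + (t / K : ℝ) * (x c - y c)) =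
            (x c - y c) / K := by
          push_cast
          field_simp
          ring
        rw [e1, abs_div, abs_of_pos hK0, div_le_one hK0]
        exact (Walk_coord x y c).trans hK1) W (by rw [haK]; exact hW)
      rw [ha0, Nat.sub_add_cancel hKm] at hW'
      refine ⟨W', hW', fun z hz => ?_⟩
      rcases List.mem_cons.1 hz with rfl | hz
      · exact Walk_N_sub m _ W' hW' (Walk_mem_N fun a => by simp)
      · exact h2 (h1 z hz)

theorem walk_family (d : ℕ) (hd : 1 ≤ d) : ∃ H1 H2 : ℝ, 0 ≤ H1 ∧ 0 ≤ H2 ∧ ∀ i : ℕ,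
    ∃ 𝒲 : Finset (Finset (Fin d → ℤ)), (𝒲.card : ℝ) ≤ Real.exp (H1 * 2 ^ i) ∧
      (∀ W ∈ 𝒲, (W.card : ℝ) ≤ H2 * 2 ^ i ∧ ∀ w ∈ W, ∀ c, 0 ≤ w c ∧ w c < 2 ^ i) ∧
      ∀ l : List (E d), plen l ≤ 2 ^ i → (∀ x ∈ l, ∀ c, 0 ≤ x c ∧ x c < 2 ^ i) →
        ∃ W ∈ 𝒲, ∀ x ∈ l, (fun c => ⌊x c⌋) ∈ W := by
  have hlog : 0 ≤ Real.log 3 := Real.log_nonneg (by norm_num)
  refine ⟨d + 2 * d * Real.log 3, 3 ^ (d + 1), by positivity, by positivity, fun i => ?_⟩
  set box : Finset (Fin d → ℤ) := Fintype.piFinset fun _ => Finset.Ico (0 : ℤ) (2 ^ i) with hbox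
  have hboxm : ∀ w : Fin d → ℤ, w ∈ box ↔ ∀ c, 0 ≤ w c ∧ w c < 2 ^ i := by
    intro w
    rw [hbox, Fintype.mem_piFinset]
    simp only [Finset.mem_Ico]
  have hboxc : box.card = (2 ^ i) ^ d := by
    have e : ((2 : ℤ) ^ i).toNat = 2 ^ i := by
      rw [show ((2 : ℤ) ^ i) = ((2 ^ i : ℕ) : ℤ) by push_cast; rfl, Int.toNat_natCast]
    rw [hbox, Fintype.card_piFinset]
    simp [e]
  refine ⟨(box.biUnion fun c => WalkS (2 ^ (i + 1)) c).image fun W => W ∩ box, ?_, ?_, ?_⟩
  · have h1 : ((box.biUnion fun c => WalkS (2 ^ (i + 1)) c).image fun W => W ∩ box).card ≤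
        (2 ^ i) ^ d * (3 ^ d) ^ (2 ^ (i + 1)) := by
      refine Finset.card_image_le.trans ?_
      refine (Finset.card_biUnion_le_card_mul _ _ _ fun c _ => Walk_card_S _ c).trans ?_
      rw [hboxc]
    calc ((((box.biUnion fun c => WalkS (2 ^ (i + 1)) c).image fun W => W ∩ box).card : ℕ) : ℝ)
        ≤ (((2 ^ i) ^ d * (3 ^ d) ^ (2 ^ (i + 1)) : ℕ) : ℝ) := by exact_mod_cast h1
      _ = ((2 : ℝ) ^ i) ^ d * ((3 : ℝ) ^ d) ^ (2 ^ (i + 1)) := by push_cast; rfl
      _ ≤ Real.exp (d * 2 ^ i) * Real.exp (2 * d * Real.log 3 * 2 ^ i) := by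
          refine mul_le_mul ?_ ?_ (by positivity) (by positivity)
          · rw [Real.exp_nat_mul]
            refine pow_le_pow_left₀ (by positivity) ?_ _
            have := Real.add_one_le_exp ((2 : ℝ) ^ i)
            linarith
          · have e1 : (2 * d * Real.log 3 * 2 ^ i : ℝ) =
                ((2 ^ (i + 1) : ℕ) : ℝ) * (d * Real.log 3) := by
              push_cast
              ring
            rw [e1, Real.exp_nat_mul, Real.exp_nat_mul, Real.exp_log (by norm_num)]
      _ = _ := by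
          rw [← Real.exp_add]
          congr 1
          ring
  · intro W hW
    obtain ⟨W', hW', rfl⟩ := Finset.mem_image.1 hW
    obtain ⟨c, _, hc⟩ := Finset.mem_biUnion.1 hW'
    refine ⟨?_, fun w hw => (hboxm w).1 (Finset.mem_inter.1 hw).2⟩
    have h1 : (W' ∩ box).card ≤ (2 ^ (i + 1) + 1) * 3 ^ d :=
      (Finset.card_le_card Finset.inter_subset_left).trans (Walk_card_W _ c W' hc)
    have h2 : (2 ^ (i + 1) + 1) * 3 ^ d ≤ 3 ^ (d + 1) * 2 ^ i := by
      have h3 : 1 ≤ 2 ^ i := Nat.one_le_two_pow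
      calc (2 ^ (i + 1) + 1) * 3 ^ d ≤ (3 * 2 ^ i) * 3 ^ d := by
            refine Nat.mul_le_mul_right _ ?_
            rw [pow_succ]
            omega
        _ = _ := by ring
    have h3 := h1.trans h2
    exact_mod_cast h3
  · intro l hl hlb
    cases l with
    | nil =>
      obtain ⟨W, hW⟩ := Walk_nonempty (d := d) (2 ^ (i + 1)) 0
      refine ⟨W ∩ box, Finset.mem_image_of_mem _ (Finset.mem_biUnion.2 ⟨0, ?_, hW⟩), by simp⟩
      rw [hboxm]
      intro c
      simp
    | cons y l =>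
      obtain ⟨W, hW, h1⟩ := Walk_cover l y (2 ^ (i + 1)) (by
        push_cast
        rw [pow_succ]
        linarith)
      have hcell : ∀ x ∈ y :: l, (fun c => ⌊x c⌋) ∈ box := by
        intro x hx
        rw [hboxm]
        intro c
        have h2 := hlb x hx c
        refine ⟨Int.floor_nonneg.2 h2.1, ?_⟩
        rw [Int.floor_lt]
        push_cast
        exact h2.2
      refine ⟨W ∩ box, Finset.mem_image_of_mem _ (Finset.mem_biUnion.2
        ⟨_, hcell y List.mem_cons_self, hW⟩), fun x hx => ?_⟩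
      exact Finset.mem_inter.2 ⟨h1 x hx, hcell x hx⟩

end MP4fb

end
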