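import Pool.Agent.Lib.MP_4fbc34_pr.SmN
import Pool.Agent.Lib.MP_4fbc34_pr.Walk

/-!
JOB SmP: the events for the small masses.

Let `H1, H2` be from `walk_family`, `H = H1 + 2 H2`, `δ1` and `i` from `small_levels` for `H` and `ε`, `s_k = b / 2^(i k)`,
`h_k = ⌈H 2^(i k) + k + 2⌉₊ <= H 2^(i k) + k + 3`, `𝒲_k` the family of `walk_family` for `i k`.  For a cube `Q` and `W ∈ 𝒲_k` let
`U Q W = ⋃_{w ∈ W} gcell s_k (2^(i k) Q + w)` (a subset of `gcell b Q`), `band k = Ico (δ/2^(k+1)) (δ/2^k)` and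
`F Q k = {X | ∀ W ∈ 𝒲_k, (X ∩ (U Q W ×ˢ band k)).encard <= h_k}`.
DETERMINISTIC PART.  Let `l` be a polygon with `plen l <= b` and `l'` the sublist of its points in `gcell b Q`, so
`plen l' <= plen l` (triangle inequality; prove it for `List.filter`).  The polygon `x ↦ (x - b Q) / s_k` applied to
`l'` has length at most `2^(i k)` and lies in `[0, 2^(i k))^d`, so there is `W ∈ 𝒲_k` which contains the cells of all its
points, and `x ∈ U Q W` for `x ∈ l'`.  So `∑_{x ∈ l'} massI X (band k) x <= (δ/2^k) * (number of pairs (x, t) ∈ X with x ∈ l'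
and t ∈ band k) <= (δ/2^k) h_k`.  The bands are disjoint with union `Ioo 0 δ`, so
`∑_{x ∈ l'} massI X (Ioo 0 δ) x = ∑_k ∑_{x ∈ l'} massI X (band k) x <= ∑_k (δ/2^k) h_k <= ε b` (in `ℝ≥0∞`).
PROBABILITY.  `F Q k` is described by the numbers of points in the disjoint sets `gcell s_k (2^(i k) Q + w) ×ˢ band k`,
`w ∈ {0, .., 2^(i k) - 1}^d` (`ce_of_fintype`; the number of points of a disjoint finite union is the sum), all contained in
`gcell b Q ×ˢ band k`.  The intensity of `U Q W ×ˢ band k` is at most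
`card W * s_k^d * ν (band k) <= H2 2^(i k)`, so by `ppp_tail` (for `h_k + 1` or `h_k`) and the union bound the complement
has probability at most `card 𝒲_k * exp (2 H2 2^(i k) - h_k) <= exp (H 2^(i k) - h_k) <= exp (-(k + 2))`.
-/

set_option autoImplicit false

open MeasureTheory ProbabilityTheory
open scoped ENNReal Classical

noncomputable section

namespace MP4fb

variable {d : ℕ}

private theorem smp_drop (x a : E d) (l : List (E d)) : plen (x :: l) ≤ plen (x :: a :: l) := by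
  cases l with
  | nil =>
    have h : plen (x :: a :: []) = ‖x - a‖ + 0 := rfl
    have h2 : plen [x] = 0 := rfl
    rw [h, h2, add_zero]
    exact norm_nonneg _
  | cons b l =>
    have h : plen (x :: a :: b :: l) = ‖x - a‖ + (‖a - b‖ + plen (b :: l)) := rfl
    have h2 : plen (x :: b :: l) = ‖x - b‖ + plen (b :: l) := rfl
    rw [h, h2]
    have := norm_sub_le_norm_sub_add_norm_sub x a b
    linarith

private theorem smp_sub1 {l1 l2 : List (E d)} (h : List.Sublist l1 l2) :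
    ∀ x : E d, plen (x :: l1) ≤ plen (x :: l2) := by
  induction h with
  | slnil => exact fun x => le_rfl
  | cons a h ih => exact fun x => (ih x).trans (smp_drop x a _)
  | cons_cons a h ih =>
    intro x
    exact add_le_add_right (ih a) ‖x - a‖

private theorem smp_sub {l1 l2 : List (E d)} (h : List.Sublist l1 l2) : plen l1 ≤ plen l2 := by
  induction h with
  | slnil => exact le_rfl
  | @cons l1 l2 a h ih =>
    refine ih.trans ?_
    cases l2 with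
    | nil => exact le_rfl
    | cons b l =>
      show plen (b :: l) ≤ ‖a - b‖ + plen (b :: l)
      linarith [norm_nonneg (a - b)]
  | @cons_cons l1 l2 a h ih => exact smp_sub1 h a

private theorem smp_map (g : E d → E d) (c : ℝ) (hg : ∀ x y, ‖g x - g y‖ = c * ‖x - y‖) :
    ∀ l : List (E d), plen (l.map g) = c * plen l
  | [] => (mul_zero c).symm
  | [x] => (mul_zero c).symm
  | x :: y :: l => by
    have ih := smp_map g c hg (y :: l)
    have h1 : plen (List.map g (x :: y :: l)) = ‖g x - g y‖ + plen (List.map g (y :: l)) := rfl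
    have h2 : plen (x :: y :: l) = ‖x - y‖ + plen (y :: l) := rfl
    rw [h1, h2, ih, hg]
    ring

private theorem smp_encard {α ι : Type*} (X : Set α) (D : ι → Set α) (W : Finset ι)
    (hD : ∀ i ∈ W, ∀ j ∈ W, i ≠ j → Disjoint (D i) (D j)) :
    (X ∩ ⋃ i ∈ W, D i).encard = ∑ i ∈ W, (X ∩ D i).encard := by
  induction W using Finset.induction_on with
  | empty => simp
  | insert a s ha ih =>
    rw [Finset.sum_insert ha, ← ih fun i hi j hj => hD i (Finset.mem_insert_of_mem hi) j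
      (Finset.mem_insert_of_mem hj), Finset.set_biUnion_insert, Set.inter_union_distrib_left,
      Set.encard_union_eq]
    refine Disjoint.mono Set.inter_subset_right Set.inter_subset_right ?_
    rw [Set.disjoint_iUnion₂_right]
    intro j hj
    exact hD a (Finset.mem_insert_self _ _) j (Finset.mem_insert_of_mem hj) (fun h => ha (h ▸ hj))

private theorem smp_band {δ t : ℝ} (ht : 0 < t) (htδ : t < δ) :
    ∃ k : ℕ, δ / 2 ^ (k + 1) ≤ t ∧ t < δ / 2 ^ k := by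
  have hex : ∃ n : ℕ, δ / 2 ^ (n + 1) ≤ t := by
    obtain ⟨n, hn⟩ := pow_unbounded_of_one_lt (δ / t) (one_lt_two (α := ℝ))
    refine ⟨n, ?_⟩
    rw [div_lt_iff₀ ht] at hn
    rw [div_le_iff₀ (by positivity)]
    have h1 : (2 : ℝ) ^ n ≤ 2 ^ (n + 1) := pow_le_pow_right₀ one_le_two (Nat.le_succ n)
    nlinarith
  refine ⟨Nat.find hex, Nat.find_spec hex, ?_⟩
  rcases h : Nat.find hex with _ | m
  · rw [pow_zero, div_one]
    exact htδ
  · have h2 := Nat.find_min hex (m := m) (by omega)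
    exact not_le.1 h2

private theorem smp_massI (X : Set (E d × ℝ)) (I : Set ℝ) (x : E d) :
    massI X I x = ∑' t : ℝ, Set.indicator {t | (x, t) ∈ X ∧ t ∈ I} (fun t => ENNReal.ofReal t) t := by
  unfold massI
  exact tsum_subtype {t | (x, t) ∈ X ∧ t ∈ I} (fun t => ENNReal.ofReal t)

private theorem smp_massI_le (X : Set (E d × ℝ)) (δ : ℝ) (x : E d) :
    massI X (Set.Ioo 0 δ) x ≤ ∑' k : ℕ, massI X (Set.Ico (δ / 2 ^ (k + 1)) (δ / 2 ^ k)) x := by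
  simp only [smp_massI]
  rw [ENNReal.tsum_comm]
  refine ENNReal.tsum_le_tsum fun t => ?_
  by_cases ht : t ∈ {t | (x, t) ∈ X ∧ t ∈ Set.Ioo 0 δ}
  · rw [Set.indicator_of_mem ht]
    obtain ⟨k, hk1, hk2⟩ := smp_band ht.2.1 ht.2.2
    refine le_trans (le_of_eq ?_) (ENNReal.le_tsum k)
    rw [Set.indicator_of_mem]
    exact ⟨ht.1, hk1, hk2⟩
  · rw [Set.indicator_of_notMem ht]
    exact zero_le

private theorem smp_count (X : Set (E d × ℝ)) (I : Set ℝ) (c : ℝ) (hc : ∀ t ∈ I, t ≤ c)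
    (T : Finset (E d)) (U : Set (E d)) (hT : ∀ x ∈ T, x ∈ U) (h : ℕ)
    (hX : (X ∩ (U ×ˢ I)).encard ≤ h) :
    ∑ x ∈ T, massI X I x ≤ (h : ℝ≥0∞) * ENNReal.ofReal c := by
  have h1 : ∀ x ∈ T, massI X I x ≤
      (((X ∩ (({x} : Set (E d)) ×ˢ I)).encard : ℕ∞) : ℝ≥0∞) * ENNReal.ofReal c := by
    intro x _
    have e : (X ∩ (({x} : Set (E d)) ×ˢ I)) = (fun t => (x, t)) '' {t | (x, t) ∈ X ∧ t ∈ I} := by
      ext ⟨y, t⟩
      constructor
      · rintro ⟨h1, h2, h3⟩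
        have h2' : y = x := h2
        subst h2'
        exact ⟨t, ⟨h1, h3⟩, rfl⟩
      · rintro ⟨t', ⟨h1, h2⟩, h3⟩
        cases h3
        exact ⟨h1, rfl, h2⟩
    have hinj : Function.Injective (fun t : ℝ => (x, t)) := fun a b hab => congrArg Prod.snd hab
    rw [e, hinj.encard_image, ← ENNReal.tsum_set_const]
    exact ENNReal.tsum_le_tsum fun t => ENNReal.ofReal_le_ofReal (hc t t.2.2)
  refine (Finset.sum_le_sum h1).trans ?_
  rw [← Finset.sum_mul]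
  refine mul_le_mul_left ?_ _
  have h2 : ∑ x ∈ T, (X ∩ (({x} : Set (E d)) ×ˢ I)).encard ≤ (h : ℕ∞) := by
    rw [← smp_encard X (fun x => ({x} : Set (E d)) ×ˢ I) T]
    · refine (Set.encard_le_encard ?_).trans hX
      rintro p ⟨hp, hp2⟩
      obtain ⟨x, hx, hx2⟩ := Set.mem_iUnion₂.1 hp2
      have h3 : p.1 = x := hx2.1
      exact ⟨hp, h3 ▸ hT x hx, hx2.2⟩
    · intro x _ y _ hxy
      rw [Set.disjoint_left]
      rintro p ⟨h3, _⟩ ⟨h4, _⟩
      exact hxy ((show p.1 = x from h3).symm.trans h4)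
  have h3 : ((∑ x ∈ T, (X ∩ (({x} : Set (E d)) ×ˢ I)).encard : ℕ∞) : ℝ≥0∞) ≤ ((h : ℕ∞) : ℝ≥0∞) :=
    ENat.toENNReal_le.2 h2
  rw [ENat.toENNReal_coe] at h3
  refine le_trans (le_of_eq ?_) h3
  exact (map_sum ENat.toENNRealRingHom _ _).symm

private def smpU (b : ℝ) (n : ℕ) (Q : Fin d → ℤ) (W : Finset (Fin d → ℤ)) : Set (E d) :=
  ⋃ w ∈ W, gcell (b / 2 ^ n) (fun c => 2 ^ n * Q c + w c)

private theorem smp_geo (b : ℝ) (hb : 0 < b) (n : ℕ) (Q : Fin d → ℤ)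
    (𝒲 : Finset (Finset (Fin d → ℤ)))
    (h𝒲 : ∀ l : List (E d), plen l ≤ 2 ^ n → (∀ x ∈ l, ∀ c, 0 ≤ x c ∧ x c < 2 ^ n) →
        ∃ W ∈ 𝒲, ∀ x ∈ l, (fun c => ⌊x c⌋) ∈ W) (l : List (E d)) (hl : plen l ≤ b) :
    ∃ W ∈ 𝒲, ∀ x ∈ l, x ∈ gcell b Q → x ∈ smpU b n Q W := by
  set s : ℝ := b / 2 ^ n with hs_def
  have h2 : (0 : ℝ) < 2 ^ n := by positivity
  have hs : 0 < s := by positivity
  have hsb : s * 2 ^ n = b := div_mul_cancel₀ b h2.ne'
  set v : E d := WithLp.toLp 2 (fun c => b * (Q c : ℝ)) with hv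
  set g : E d → E d := fun x => s⁻¹ • (x - v) with hg_def
  have hg : ∀ x y, ‖g x - g y‖ = s⁻¹ * ‖x - y‖ := by
    intro x y
    show ‖s⁻¹ • (x - v) - s⁻¹ • (y - v)‖ = _
    rw [← smul_sub, sub_sub_sub_cancel_right, norm_smul, Real.norm_of_nonneg (inv_nonneg.2 hs.le)]
  have hgc : ∀ x c, g x c = s⁻¹ * (x c - b * Q c) := fun x c => rfl
  set l' := l.filter (fun x => decide (x ∈ gcell b Q)) with hl'
  have hlen : plen (l'.map g) ≤ 2 ^ n := by
    rw [smp_map g s⁻¹ hg, inv_mul_le_iff₀ hs, hsb]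
    exact (smp_sub List.filter_sublist).trans hl
  have hbox : ∀ x ∈ l'.map g, ∀ c, 0 ≤ x c ∧ x c < 2 ^ n := by
    intro y hy c
    obtain ⟨x, hx, rfl⟩ := List.mem_map.1 hy
    have hxQ : x ∈ gcell b Q := by
      have := (List.mem_filter.1 hx).2
      exact of_decide_eq_true this
    obtain ⟨h3, h4⟩ := hxQ c
    rw [hgc]
    constructor
    · exact mul_nonneg (inv_nonneg.2 hs.le) (by linarith)
    · rw [inv_mul_lt_iff₀ hs, hsb]
      linarith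
  obtain ⟨W, hW, hW2⟩ := h𝒲 (l'.map g) hlen hbox
  refine ⟨W, hW, fun x hx hxQ => ?_⟩
  have hx' : x ∈ l' := List.mem_filter.2 ⟨hx, decide_eq_true hxQ⟩
  have hw := hW2 (g x) (List.mem_map_of_mem hx')
  refine Set.mem_iUnion₂.2 ⟨_, hw, fun c => ?_⟩
  have h5 := Int.floor_le (g x c)
  have h6 := Int.lt_floor_add_one (g x c)
  show b / 2 ^ n * (((2 ^ n * Q c + ⌊g x c⌋ : ℤ)) : ℝ) ≤ x c ∧
    x c < b / 2 ^ n * ((((2 ^ n * Q c + ⌊g x c⌋ : ℤ)) : ℝ) + 1)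
  generalize ⌊g x c⌋ = a at h5 h6 ⊢
  rw [hgc] at h5 h6
  rw [← div_eq_inv_mul] at h5 h6
  rw [le_div_iff₀ hs] at h5
  rw [div_lt_iff₀ hs] at h6
  push_cast
  constructor
  · have : s * (2 ^ n * (Q c : ℝ) + a) = b * Q c + a * s := by
      rw [← hsb]
      ring
    rw [← hs_def, this]
    linarith
  · have : s * (2 ^ n * (Q c : ℝ) + a + 1) = b * Q c + (a + 1) * s := by
      rw [← hsb]
      ring
    rw [← hs_def, this]
    linarith

private theorem smp_cell_disj {s : ℝ} (hs : 0 < s) (c c' : Fin d → ℤ) (h : c ≠ c') :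
    Disjoint (gcell (d := d) s c) (gcell s c') := by
  rw [Set.disjoint_left]
  intro x hx hx'
  apply h
  funext i
  obtain ⟨h1, h2⟩ := hx i
  obtain ⟨h3, h4⟩ := hx' i
  have h5 : (c i : ℝ) < c' i + 1 := lt_of_mul_lt_mul_left (h1.trans_lt h4) hs.le
  have h6 : (c' i : ℝ) < c i + 1 := lt_of_mul_lt_mul_left (h3.trans_lt h2) hs.le
  have h7 : c i < c' i + 1 := by exact_mod_cast h5
  have h8 : c' i < c i + 1 := by exact_mod_cast h6
  omega

private theorem smp_vol (ν : Measure ℝ) (hν : ν (Set.Iic 0) = 0)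
    (hfin : ∀ t : ℝ, 0 < t → ν (Set.Ici t) ≠ ∞) (b : ℝ) (hb : 0 < b) (n : ℕ) (Q : Fin d → ℤ)
    (W : Finset (Fin d → ℤ)) (L : ℝ) (hW : (W.card : ℝ) ≤ L) (I : Set ℝ) (hI : ν I ≠ ∞)
    (h1 : (b / 2 ^ n) ^ d * (ν I).toReal ≤ 1) :
    ((volume : Measure (E d)).prod ν) (smpU b n Q W ×ˢ I) ≤ ENNReal.ofReal L := by
  rw [prod_rect ν hν hfin]
  have h2 : volume (smpU (d := d) b n Q W) ≤ W.card * ENNReal.ofReal ((b / 2 ^ n) ^ d) := by
    refine (measure_biUnion_finset_le _ _).trans ?_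
    rw [Finset.sum_congr rfl fun w _ => gcell_vol (b / 2 ^ n) (by positivity) _, Finset.sum_const,
      nsmul_eq_mul]
  have h3 : ENNReal.ofReal ((b / 2 ^ n) ^ d) * ν I ≤ 1 := by
    rw [← ENNReal.ofReal_toReal hI, ← ENNReal.ofReal_mul (by positivity), ← ENNReal.ofReal_one]
    exact ENNReal.ofReal_le_ofReal h1
  calc volume (smpU b n Q W) * ν I ≤ (W.card * ENNReal.ofReal ((b / 2 ^ n) ^ d)) * ν I :=
        mul_le_mul_left h2 _
    _ = W.card * (ENNReal.ofReal ((b / 2 ^ n) ^ d) * ν I) := mul_assoc _ _ _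
    _ ≤ W.card * 1 := mul_le_mul_right h3 _
    _ = ENNReal.ofReal (W.card : ℝ) := by rw [mul_one, ENNReal.ofReal_natCast]
    _ ≤ ENNReal.ofReal L := ENNReal.ofReal_le_ofReal hW

private theorem smp_U_meas (b : ℝ) (n : ℕ) (Q : Fin d → ℤ) (W : Finset (Fin d → ℤ)) :
    MeasurableSet (smpU (d := d) b n Q W) :=
  Finset.measurableSet_biUnion _ fun _ _ => gcell_meas _ _

private theorem smp_ce {Ω : Type*} [MeasurableSpace Ω] (Ξ : Ω → Set (E d × ℝ)) (b : ℝ) (hb : 0 < b)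
    (n : ℕ) (Q : Fin d → ℤ) (𝒲 : Finset (Finset (Fin d → ℤ)))
    (h𝒲 : ∀ W ∈ 𝒲, ∀ w ∈ W, ∀ c, 0 ≤ w c ∧ w c < 2 ^ n) (I : Set ℝ) (hI : MeasurableSet I)
    (m : ℕ) :
    CE Ξ (gcell b Q ×ˢ I) {ω | ∀ W ∈ 𝒲, (Ξ ω ∩ (smpU b n Q W ×ˢ I)).encard ≤ m} := by
  have h2 : (0 : ℝ) < 2 ^ n := by positivity
  have hs : 0 < b / 2 ^ n := by positivity
  have hsb : b / 2 ^ n * 2 ^ n = b := div_mul_cancel₀ b h2.ne'
  set box : Finset (Fin d → ℤ) := Fintype.piFinset (fun _ => Finset.Ico (0 : ℤ) (2 ^ n)) with hbox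
  set D : (Fin d → ℤ) → Set (E d × ℝ) := fun w =>
    gcell (b / 2 ^ n) (fun c => 2 ^ n * Q c + w c) ×ˢ I with hD
  have hDdisj : ∀ w w' : Fin d → ℤ, w ≠ w' → Disjoint (D w) (D w') := by
    intro w w' hww
    rw [Set.disjoint_left]
    rintro p ⟨h3, _⟩ ⟨h4, _⟩
    refine Set.disjoint_left.1 (smp_cell_disj hs _ _ ?_) h3 h4
    intro h5
    apply hww
    funext c
    exact add_left_cancel (show 2 ^ n * Q c + w c = 2 ^ n * Q c + w' c from congrFun h5 c)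
  have hDm : ∀ w, MeasurableSet (D w) := fun w => (gcell_meas _ _).prod hI
  have hDb : ∀ w ∈ box, D w ⊆ gcell b Q ×ˢ I := by
    rintro w hw p ⟨h3, h4⟩
    refine ⟨fun c => ?_, h4⟩
    obtain ⟨h5, h6⟩ := h3 c
    have h7 := Finset.mem_Ico.1 (Fintype.mem_piFinset.1 hw c)
    have h8 : (0 : ℝ) ≤ (w c : ℝ) := by exact_mod_cast h7.1
    have h9 : (w c : ℝ) + 1 ≤ 2 ^ n := by
      have : w c + 1 ≤ 2 ^ n := h7.2
      exact_mod_cast this
    push_cast at h5 h6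
    have e1 : b / 2 ^ n * (2 ^ n * (Q c : ℝ) + w c) = b * Q c + b / 2 ^ n * w c := by
      conv_rhs => rw [← hsb]
      rw [hsb]
      have : b / 2 ^ n * (2 ^ n * (Q c : ℝ) + w c) = (b / 2 ^ n * 2 ^ n) * Q c + b / 2 ^ n * w c := by
        ring
      rw [this, hsb]
    have e2 : b / 2 ^ n * (2 ^ n * (Q c : ℝ) + w c + 1) = b * Q c + b / 2 ^ n * (w c + 1) := by
      have : b / 2 ^ n * (2 ^ n * (Q c : ℝ) + w c + 1) =
          (b / 2 ^ n * 2 ^ n) * Q c + b / 2 ^ n * (w c + 1) := by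
        ring
      rw [this, hsb]
    rw [e1] at h5
    rw [e2] at h6
    have h10 : 0 ≤ b / 2 ^ n * (w c : ℝ) := mul_nonneg hs.le h8
    have h11 : b / 2 ^ n * ((w c : ℝ) + 1) ≤ b := by
      calc b / 2 ^ n * ((w c : ℝ) + 1) ≤ b / 2 ^ n * 2 ^ n := mul_le_mul_of_nonneg_left h9 hs.le
        _ = b := hsb
    constructor
    · linarith
    · linarith
  have hU : ∀ W : Finset (Fin d → ℤ), smpU (d := d) b n Q W ×ˢ I = ⋃ w ∈ W, D w := by
    intro W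
    unfold smpU
    ext p
    simp only [Set.mem_prod, Set.mem_iUnion, hD, exists_prop]
    constructor
    · rintro ⟨⟨w, h1, h2⟩, h3⟩
      exact ⟨w, h1, h2, h3⟩
    · rintro ⟨w, h1, h2, h3⟩
      exact ⟨⟨w, h1, h2⟩, h3⟩
  have key : {ω | ∀ W ∈ 𝒲, (Ξ ω ∩ (smpU b n Q W ×ˢ I)).encard ≤ m} =
      {ω | (fun w : {w // w ∈ box} => (Ξ ω ∩ D w).encard) ∈
        {f : {w // w ∈ box} → ℕ∞ | ∀ W ∈ 𝒲, ∑ w ∈ W, (if h : w ∈ box then f ⟨w, h⟩ else 0) ≤ m}} := by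
    ext ω
    simp only [Set.mem_ofPred_eq]
    refine forall₂_congr fun W hW => ?_
    rw [hU, smp_encard (Ξ ω) D W fun i _ j _ hij => hDdisj i j hij]
    have e : ∑ w ∈ W, (Ξ ω ∩ D w).encard = ∑ w ∈ W, (if h : w ∈ box then (Ξ ω ∩ D w).encard else 0) := by
      refine Finset.sum_congr rfl fun w hw => ?_
      have h3 : w ∈ box := Fintype.mem_piFinset.2 fun c => Finset.mem_Ico.2 (h𝒲 W hW w hw c)
      rw [dif_pos h3]
    rw [e]
  rw [key]
  exact ce_of_fintype (fun w : {w // w ∈ box} => D w) _ _ (fun w => hDm w)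
    (fun w w' hww => hDdisj w w' fun h => hww (Subtype.ext h)) (fun w => hDb w w.2)

theorem small_rate (hd : 1 ≤ d) {Ω : Type*} [MeasurableSpace Ω] (μ : Measure Ω)
    [IsProbabilityMeasure μ] (Ξ : Ω → Set (E d × ℝ)) (ν : Measure ℝ) (hΞ : IsPPP μ Ξ ν)
    (hν : ν (Set.Iic 0) = 0)
    (hG : ∫⁻ t in Set.Ioi (0 : ℝ), (ν (Set.Ici t)) ^ ((d : ℝ)⁻¹) ≠ ∞) (ε : ℝ) (hε : 0 < ε) :
    ∃ δ1 : ℝ, 0 < δ1 ∧ ∀ δ : ℝ, 0 < δ → δ ≤ δ1 → ∀ b : ℝ, 1 ≤ b → SmallData μ Ξ δ b ε := by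
  obtain ⟨H1, H2, hH1, hH2, hW⟩ := walk_family d hd
  obtain ⟨δ1, hδ1, hlev⟩ := small_levels d hd ν hν hG (H1 + 2 * H2) ε (by positivity) hε
  refine ⟨δ1, hδ1, fun δ hδ hδ' b hb => ?_⟩
  obtain ⟨i, hi1, hi2, hi3⟩ := hlev δ hδ hδ' b hb
  choose 𝒲 h𝒲1 h𝒲2 h𝒲3 using hW
  have hb0 : 0 < b := lt_of_lt_of_le one_pos hb
  have hfin := nu_fin ν hd hG
  set Hk : ℕ → ℕ := fun k => ⌈(H1 + 2 * H2) * 2 ^ (i k) + k + 2⌉₊ with hHk
  have hHk1 : ∀ k, (H1 + 2 * H2) * 2 ^ (i k) + k + 2 ≤ (Hk k : ℝ) := fun k => Nat.le_ceil _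
  have hHk2 : ∀ k, (Hk k : ℝ) ≤ (H1 + 2 * H2) * 2 ^ (i k) + k + 3 := by
    intro k
    have h0 : (0 : ℝ) ≤ (H1 + 2 * H2) * 2 ^ (i k) + k + 2 := by positivity
    have := Nat.ceil_lt_add_one h0
    show ((⌈(H1 + 2 * H2) * 2 ^ (i k) + k + 2⌉₊ : ℕ) : ℝ) ≤ _
    linarith
  refine ⟨fun Q k => {X | ∀ W ∈ 𝒲 (i k), (X ∩ (smpU b (i k) Q W ×ˢ
    Set.Ico (δ / 2 ^ (k + 1)) (δ / 2 ^ k))).encard ≤ Hk k}, ?_, ?_⟩
  · intro X Q hX l hl
    set T := l.toFinset.filter (fun x => x ∈ gcell b Q) with hT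
    have hk : ∀ k, ∑ x ∈ T, massI X (Set.Ico (δ / 2 ^ (k + 1)) (δ / 2 ^ k)) x ≤
        ENNReal.ofReal (δ / 2 ^ k * ((H1 + 2 * H2) * 2 ^ (i k) + k + 3)) := by
      intro k
      obtain ⟨W, hW1, hW2⟩ := smp_geo b hb0 (i k) Q (𝒲 (i k)) (h𝒲3 (i k)) l hl
      have hδk : (0 : ℝ) ≤ δ / 2 ^ k := by positivity
      refine (smp_count X _ (δ / 2 ^ k) (fun t ht => ht.2.le) T (smpU b (i k) Q W) ?_ (Hk k)
        (hX k W hW1)).trans ?_
      · intro x hx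
        have hx2 := Finset.mem_filter.1 hx
        exact hW2 x (List.mem_toFinset.1 hx2.1) hx2.2
      · rw [← ENNReal.ofReal_natCast, ← ENNReal.ofReal_mul (Nat.cast_nonneg _), mul_comm]
        exact ENNReal.ofReal_le_ofReal (mul_le_mul_of_nonneg_left (hHk2 k) hδk)
    calc ∑ x ∈ T, massI X (Set.Ioo 0 δ) x
        ≤ ∑ x ∈ T, ∑' k : ℕ, massI X (Set.Ico (δ / 2 ^ (k + 1)) (δ / 2 ^ k)) x :=
          Finset.sum_le_sum fun x _ => smp_massI_le X δ x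
      _ = ∑' k : ℕ, ∑ x ∈ T, massI X (Set.Ico (δ / 2 ^ (k + 1)) (δ / 2 ^ k)) x :=
          (Summable.tsum_finsetSum fun _ _ => ENNReal.summable).symm
      _ ≤ ∑' k : ℕ, ENNReal.ofReal (δ / 2 ^ k * ((H1 + 2 * H2) * 2 ^ (i k) + k + 3)) :=
          ENNReal.tsum_le_tsum hk
      _ = ENNReal.ofReal (∑' k : ℕ, δ / 2 ^ k * ((H1 + 2 * H2) * 2 ^ (i k) + k + 3)) :=
          (ENNReal.ofReal_tsum_of_nonneg (fun k => by positivity) hi2).symm
      _ ≤ ENNReal.ofReal (ε * b) := ENNReal.ofReal_le_ofReal hi3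
  · intro Q k
    refine ⟨smp_ce Ξ b hb0 (i k) Q (𝒲 (i k)) (fun W hW w hw c => (h𝒲2 (i k) W hW).2 w hw c) _
      measurableSet_Ico (Hk k), ?_⟩
    have hsub : {ω | Ξ ω ∉ {X | ∀ W ∈ 𝒲 (i k), (X ∩ (smpU b (i k) Q W ×ˢ
        Set.Ico (δ / 2 ^ (k + 1)) (δ / 2 ^ k))).encard ≤ Hk k}} ⊆
        ⋃ W ∈ 𝒲 (i k), {ω | (Hk k : ℕ∞) ≤ (Ξ ω ∩ (smpU b (i k) Q W ×ˢ
          Set.Ico (δ / 2 ^ (k + 1)) (δ / 2 ^ k))).encard} := by
      intro ω hω
      have hω2 : ¬ ∀ W ∈ 𝒲 (i k), (Ξ ω ∩ (smpU b (i k) Q W ×ˢ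
        Set.Ico (δ / 2 ^ (k + 1)) (δ / 2 ^ k))).encard ≤ Hk k := hω
      push Not at hω2
      obtain ⟨W, hW1, hW2⟩ := hω2
      exact Set.mem_iUnion₂.2 ⟨W, hW1, hW2.le⟩
    refine (measure_mono hsub).trans ((measure_biUnion_finset_le _ _).trans ?_)
    have hIfin : ν (Set.Ico (δ / 2 ^ (k + 1)) (δ / 2 ^ k)) ≠ ∞ :=
      ne_top_of_le_ne_top (hfin (δ / 2 ^ (k + 1)) (by positivity)) (measure_mono Set.Ico_subset_Ici_self)
    have hW : ∀ W ∈ 𝒲 (i k), μ {ω | (Hk k : ℕ∞) ≤ (Ξ ω ∩ (smpU b (i k) Q W ×ˢ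
          Set.Ico (δ / 2 ^ (k + 1)) (δ / 2 ^ k))).encard} ≤
        ENNReal.ofReal (Real.exp (2 * (H2 * 2 ^ (i k)) - Hk k)) := by
      intro W hW
      exact ppp_tail hΞ _ ((smp_U_meas _ _ _ _).prod measurableSet_Ico) _ (by positivity)
        (smp_vol ν hν hfin b hb0 (i k) Q W _ (h𝒲2 (i k) W hW).1 _ hIfin (hi1 k)) _
    refine (Finset.sum_le_sum hW).trans ?_
    rw [Finset.sum_const, nsmul_eq_mul, ← ENNReal.ofReal_natCast,
      ← ENNReal.ofReal_mul (Nat.cast_nonneg _)]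
    apply ENNReal.ofReal_le_ofReal
    calc ((𝒲 (i k)).card : ℝ) * Real.exp (2 * (H2 * 2 ^ (i k)) - Hk k)
        ≤ Real.exp (H1 * 2 ^ (i k)) * Real.exp (2 * (H2 * 2 ^ (i k)) - Hk k) :=
          mul_le_mul_of_nonneg_right (h𝒲1 (i k)) (Real.exp_pos _).le
      _ = Real.exp (H1 * 2 ^ (i k) + (2 * (H2 * 2 ^ (i k)) - Hk k)) := (Real.exp_add _ _).symm
      _ ≤ Real.exp (-(k + 2)) := by
          apply Real.exp_le_exp.2
          have := hHk1 k
          nlinarith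

end MP4fb

end
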