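import Pool.Agent.Lib.MP_4fbc34_pr.CoreA
import Pool.Agent.Lib.MP_4fbc34_pr.CoreB
import Pool.Agent.Lib.MP_4fbc34_pr.CoreC
import Pool.Agent.Lib.MP_4fbc34_pr.SmP

/-!
The core theorem: combination of `exists_par`, `core_scales` and `core_all`.
-/

set_option autoImplicit false

open MeasureTheory ProbabilityTheory Filter
open scoped ENNReal Classical

noncomputable section

namespace MP4fb

variable {d : ℕ} {Ω : Type*} [MeasurableSpace Ω] (μ : Measure Ω) [IsProbabilityMeasure μ]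
  (Ξ : Ω → Set (E d × ℝ)) (ν : Measure ℝ)

theorem core (hd : 2 ≤ d) (hΞ : IsPPP μ Ξ ν) (hν : ν (Set.Iic 0) = 0)
    (hG : ∫⁻ t in Set.Ioi (0 : ℝ), (ν (Set.Ici t)) ^ ((d : ℝ)⁻¹) ≠ ∞)
    (M : Model d) (hM : M.Ok) (hcase : ν Set.univ ≠ ∞ ∨ (M.Ins ∧ ¬ M.hub))
    (ζ I θ : ℝ) (hζ : 0 < ζ) (hI0 : 0 ≤ I) (hθ : 0 < θ)
    (hI : ∀ c : ℝ, 0 < c → c < 1 → ∃ᶠ ℓ : ℝ in atTop, Real.exp (-(I * ℓ ^ d)) ≤
      (μ {ω | RootT M (Ξ ω) ((1 - c) * ℓ) (ζ * ℓ)}).toReal) :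
    ∀ᶠ L : ℝ in atTop, Real.exp (-((I + θ) * L ^ d)) ≤
      (μ {ω | RootT M (Ξ ω) L (ζ * L)}).toReal := by
  have hfin : ∀ t : ℝ, 0 < t → ν (Set.Ici t) ≠ ∞ :=
    fun t ht => nu_fin ν (by omega) hG t ht
  obtain ⟨β, c, r0, τ0, e1, e2, bmin, md, P, hP, hPf⟩ := exists_par d hd ν hν hfin
    (SmallData μ Ξ) (fun ε hε => small_rate (by omega) μ Ξ ν hΞ hν hG ε hε) ζ I θ hζ hI0 hθ
  obtain ⟨ib, hib⟩ : ∃ ib : ℕ, bmin ≤ r0 / 2 * 2 ^ ib := by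
    obtain ⟨ib, h⟩ := pow_unbounded_of_one_lt (bmin / (r0 / 2)) (one_lt_two (α := ℝ))
    refine ⟨ib, ?_⟩
    have h2 : (0 : ℝ) < r0 / 2 := by have := hP.r0pos; linarith
    rw [div_lt_iff₀ h2] at h
    linarith
  obtain ⟨r, j, hr1, hr2, hj, hs⟩ := core_scales μ Ξ ν hd hΞ hν hfin M hM (SmallData μ Ξ) ζ I θ
    hζ hI0 hθ β c r0 τ0 e1 e2 bmin md P hP (hI c hP.c01.1 hP.c01.2) ib (md + ib)
  refine core_all μ Ξ ν hd hΞ hν hfin M hM ζ I θ hζ hI0 hθ β c r0 τ0 e1 e2 bmin md P hP ?_ ib j r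
    hib hj hr1 hr2 hs
  intro h0
  refine hcase.resolve_left fun h => ?_
  rw [hPf h] at h0
  exact lt_irrefl _ h0

end MP4fb

end
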