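import Pool.Agent.Lib.MP_4fbc34_pr.PppDef

/-!
JOB PppA: elementary facts on Poisson point processes and count events.

* `nu_fin`: if `ν (Ici t) = ∞` for some `t > 0` then the integrand is `∞` on `(0, t]`.
* `nu_sfin`: `ν` is the sum of its restrictions to `Ico (1/(n+2)) (1/(n+1))` and `Ici 1` (which are finite) and to
  `Iic 0` (which is null); for example `ν` is sigma finite because `ℝ` is the union of `Iic 0` and the sets
  `Ici (1/(n+1))`.
* `gcell_vol`, `gcell_meas`: a box with sides `s` (volume preserving measurable equivalence of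
  `EuclideanSpace ℝ (Fin d)` with `Fin d → ℝ`, `Real.volume_pi_Ico`).
* `prod_rect`: `Measure.prod_prod` with the `SFinite` instance from `nu_sfin`.
* `ce_of_fintype`: reindex by `Fintype.equivFin`.
* `ce_meas`: all subsets of `Fin n → ℕ∞` are measurable (countable type with measurable singletons;
  `ℕ∞` has the discrete sigma algebra), the map is measurable by `meas`.
* `ce_mono`.
* `ce_inter`: the two families of sets together form a disjoint family indexed by `Fin n ⊕ Fin m` (reindex to
  `Fin (n + m)`), `iIndepFun.indepFun_finset` gives the independence of the two groups of counts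
  (`IndepFun.measure_inter_preimage_eq_mul`).
* `ce_finset`: induction with `ce_inter`.
* `ppp_zero`: the law with `n = 0`.
* `ppp_tail`: the event is the complement of the union over `n < h` of the events `{count = n}`, so its
  probability is `∑_{n >= h} e^{-λ} λ^n / n!` (the total mass of the Poisson weights is one)
  `<= e^{-h} ∑ e^{-λ} (e λ)^n / n! = exp (λ (e - 1) - h) <= exp (2 λ - h)`.
-/

set_option autoImplicit false

open MeasureTheory ProbabilityTheory
open scoped ENNReal Classical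

noncomputable section

namespace MP4fb

variable {d : ℕ}

theorem nu_fin (ν : Measure ℝ) (hd : 1 ≤ d)
    (hG : ∫⁻ t in Set.Ioi (0 : ℝ), (ν (Set.Ici t)) ^ ((d : ℝ)⁻¹) ≠ ∞) (t : ℝ) (ht : 0 < t) :
    ν (Set.Ici t) ≠ ∞ := by
  intro htop
  apply hG
  have hd' : (0 : ℝ) < (d : ℝ)⁻¹ := by
    have : (0 : ℝ) < d := by exact_mod_cast hd
    positivity
  rw [eq_top_iff]
  calc (∞ : ℝ≥0∞) = ∞ * volume (Set.Ioc 0 t) := by
        rw [Real.volume_Ioc, sub_zero, ENNReal.top_mul]
        simpa using ht
    _ = ∫⁻ _ in Set.Ioc 0 t, ∞ := by rw [setLIntegral_const]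
    _ ≤ ∫⁻ s in Set.Ioc 0 t, (ν (Set.Ici s)) ^ ((d : ℝ)⁻¹) := by
        refine setLIntegral_mono' measurableSet_Ioc ?_
        intro s hs
        have h1 : ν (Set.Ici s) = ∞ := by
          rw [eq_top_iff, ← htop]
          exact measure_mono (Set.Ici_subset_Ici.mpr hs.2)
        rw [h1, ENNReal.top_rpow_of_pos hd']
    _ ≤ ∫⁻ s in Set.Ioi (0 : ℝ), (ν (Set.Ici s)) ^ ((d : ℝ)⁻¹) :=
        lintegral_mono_set Set.Ioc_subset_Ioi_self

theorem nu_sfin (ν : Measure ℝ) (hν : ν (Set.Iic 0) = 0) (h : ∀ t : ℝ, 0 < t → ν (Set.Ici t) ≠ ∞) :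
    SigmaFinite ν := by
  refine ⟨⟨⟨fun n => Set.Iic 0 ∪ Set.Ici (1 / ((n : ℝ) + 1)), fun n => Set.mem_univ _, fun n => ?_, ?_⟩⟩⟩
  · refine lt_of_le_of_lt (measure_union_le _ _) ?_
    rw [hν, zero_add]
    exact lt_top_iff_ne_top.mpr (h _ (by positivity))
  · rw [Set.eq_univ_iff_forall]
    intro x
    rw [Set.mem_iUnion]
    rcases le_or_gt x 0 with hx | hx
    · exact ⟨0, Or.inl hx⟩
    · obtain ⟨n, hn⟩ := exists_nat_one_div_lt hx
      exact ⟨n, Or.inr hn.le⟩

theorem gcell_meas (s : ℝ) (c : Fin d → ℤ) : MeasurableSet (gcell (d := d) s c) := by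
  unfold gcell
  rw [Set.ofPred_forall]
  refine MeasurableSet.iInter fun i => ?_
  have hc : Measurable (fun x : E d => x i) := by fun_prop
  exact (measurableSet_le measurable_const hc).inter (measurableSet_lt hc measurable_const)

theorem gcell_vol (s : ℝ) (hs : 0 ≤ s) (c : Fin d → ℤ) :
    volume (gcell (d := d) s c) = ENNReal.ofReal (s ^ d) := by
  have h1 : gcell (d := d) s c = (@WithLp.ofLp 2 (Fin d → ℝ)) ⁻¹'
      (Set.pi Set.univ fun i => Set.Ico (s * c i) (s * (c i + 1))) := by
    ext x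
    simp only [gcell, Set.mem_ofPred_eq, Set.mem_preimage, Set.mem_pi, Set.mem_univ, true_imp_iff,
      Set.mem_Ico]
  rw [h1, (PiLp.volume_preserving_ofLp (Fin d)).measure_preimage
    (MeasurableSet.univ_pi fun i => measurableSet_Ico).nullMeasurableSet, Real.volume_pi_Ico]
  have h2 : ∀ i : Fin d, ENNReal.ofReal (s * (c i + 1) - s * c i) = ENNReal.ofReal s := by
    intro i
    congr 1
    ring
  rw [Finset.prod_congr rfl (fun i _ => h2 i), Finset.prod_const, Finset.card_univ, Fintype.card_fin,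
    ENNReal.ofReal_pow hs]

theorem prod_rect (ν : Measure ℝ) (hν : ν (Set.Iic 0) = 0)
    (h : ∀ t : ℝ, 0 < t → ν (Set.Ici t) ≠ ∞) (A : Set (E d)) (I : Set ℝ) :
    ((volume : Measure (E d)).prod ν) (A ×ˢ I) = volume A * ν I := by
  have := nu_sfin ν hν h
  exact Measure.prod_prod A I

variable {Ω : Type*} [MeasurableSpace Ω] {μ : Measure Ω} {Ξ : Ω → Set (E d × ℝ)} {ν : Measure ℝ}

theorem ce_of_fintype {ι : Type} [Fintype ι] (D : ι → Set (E d × ℝ)) (A : Set (ι → ℕ∞))
    (B : Set (E d × ℝ)) (hD : ∀ i, MeasurableSet (D i)) (hdis : Pairwise (Function.onFun Disjoint D))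
    (hB : ∀ i, D i ⊆ B) : CE Ξ B {ω | (fun i => (Ξ ω ∩ D i).encard) ∈ A} := by
  refine ⟨Fintype.card ι, fun i => D ((Fintype.equivFin ι).symm i),
    {f | (fun i => f (Fintype.equivFin ι i)) ∈ A}, fun i => hD _, ?_, fun i => hB _, ?_⟩
  · intro i j hij
    exact hdis ((Fintype.equivFin ι).symm.injective.ne hij)
  · ext ω
    simp only [Set.mem_ofPred_eq, Equiv.symm_apply_apply]

theorem ce_meas (hΞ : IsPPP μ Ξ ν) (B : Set (E d × ℝ)) (Ev : Set Ω) (h : CE Ξ B Ev) :
    MeasurableSet Ev := by
  obtain ⟨n, D, A, h1, h2, h3, h4⟩ := h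
  rw [h4]
  have hA : MeasurableSet A := MeasurableSet.of_discrete
  have hm : Measurable (fun ω => (fun i => (Ξ ω ∩ D i).encard)) :=
    measurable_pi_lambda _ fun i => hΞ.meas (D i) (h1 i)
  exact hm hA

theorem ce_mono (B B' : Set (E d × ℝ)) (hB : B ⊆ B') (Ev : Set Ω) (h : CE Ξ B Ev) :
    CE Ξ B' Ev := by
  obtain ⟨n, D, A, h1, h2, h3, h4⟩ := h
  exact ⟨n, D, A, h1, h2, fun i => (h3 i).trans hB, h4⟩

theorem ce_inter (hΞ : IsPPP μ Ξ ν) (B B' : Set (E d × ℝ)) (hB : Disjoint B B') (Ev Ev' : Set Ω)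
    (h : CE Ξ B Ev) (h' : CE Ξ B' Ev') :
    CE Ξ (B ∪ B') (Ev ∩ Ev') ∧ μ (Ev ∩ Ev') = μ Ev * μ Ev' := by
  obtain ⟨n, D, A, h1, h2, h3, h4⟩ := h
  obtain ⟨m, D', A', h1', h2', h3', h4'⟩ := h'
  have hdis : Pairwise (Function.onFun Disjoint
      (Sum.elim D D' : Fin n ⊕ Fin m → Set (E d × ℝ))) := by
    rintro (i | i) (j | j) hij
    · exact h2 (fun h => hij (by rw [h]))
    · exact hB.mono (h3 i) (h3' j)
    · exact hB.symm.mono (h3' i) (h3 j)
    · exact h2' (fun h => hij (by rw [h]))
  have hmeas : ∀ i, MeasurableSet ((Sum.elim D D' : Fin n ⊕ Fin m → Set (E d × ℝ)) i) := by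
    rintro (i | i)
    · exact h1 i
    · exact h1' i
  have hsub : ∀ i, (Sum.elim D D' : Fin n ⊕ Fin m → Set (E d × ℝ)) i ⊆ B ∪ B' := by
    rintro (i | i)
    · exact (h3 i).trans Set.subset_union_left
    · exact (h3' i).trans Set.subset_union_right
  subst h4
  subst h4'
  refine ⟨?_, ?_⟩
  · exact ce_of_fintype (Ξ := Ξ) (Sum.elim D D')
      {f | (fun i => f (Sum.inl i)) ∈ A ∧ (fun i => f (Sum.inr i)) ∈ A'} (B ∪ B') hmeas hdis hsub
  · have hind : iIndepFun (fun (i : Fin n ⊕ Fin m) ω => (Ξ ω ∩ Sum.elim D D' i).encard) μ := by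
      have h0 := hΞ.indep (n + m) (fun i => Sum.elim D D' (finSumFinEquiv.symm i))
        (fun i => hmeas _) (fun i j hij => hdis (finSumFinEquiv.symm.injective.ne hij))
      have h00 := iIndepFun.precomp finSumFinEquiv.injective h0
      simpa using h00
    have hdj : Disjoint ((Finset.univ : Finset (Fin n)).map (Function.Embedding.inl (β := Fin m)))
        ((Finset.univ : Finset (Fin m)).map (Function.Embedding.inr (α := Fin n))) := by
      rw [Finset.disjoint_left]
      intro x hx hx'
      rw [Finset.mem_map] at hx hx'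
      obtain ⟨i, _, rfl⟩ := hx
      obtain ⟨j, _, hj⟩ := hx'
      cases hj
    have hSI := hind.indepFun_finset _ _ hdj (fun i => hΞ.meas _ (hmeas i))
    exact hSI.measure_inter_preimage_eq_mul
      {f | (fun i : Fin n => f ⟨Sum.inl i, by simp⟩) ∈ A}
      {f | (fun i : Fin m => f ⟨Sum.inr i, by simp⟩) ∈ A'}
      MeasurableSet.of_discrete MeasurableSet.of_discrete

theorem ce_finset [IsProbabilityMeasure μ] (hΞ : IsPPP μ Ξ ν) {ι : Type} (s : Finset ι)
    (B : ι → Set (E d × ℝ)) (hB : ∀ i ∈ s, ∀ j ∈ s, i ≠ j → Disjoint (B i) (B j)) (Ev : ι → Set Ω)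
    (h : ∀ i ∈ s, CE Ξ (B i) (Ev i)) :
    CE Ξ (⋃ i ∈ s, B i) (⋂ i ∈ s, Ev i) ∧ μ (⋂ i ∈ s, Ev i) = ∏ i ∈ s, μ (Ev i) := by
  induction s using Finset.induction_on with
  | empty =>
    refine ⟨⟨0, fun i => i.elim0, Set.univ, fun i => i.elim0, fun i => i.elim0, fun i => i.elim0, ?_⟩, ?_⟩
    · ext ω
      simp
    · simp
  | insert a s ha ih =>
    have ih' := ih (fun i hi j hj hij => hB i (Finset.mem_insert_of_mem hi) j
      (Finset.mem_insert_of_mem hj) hij) (fun i hi => h i (Finset.mem_insert_of_mem hi))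
    have hdj : Disjoint (B a) (⋃ i ∈ s, B i) := by
      rw [Set.disjoint_iUnion₂_right]
      intro i hi
      exact hB a (Finset.mem_insert_self _ _) i (Finset.mem_insert_of_mem hi)
        (fun h => ha (h ▸ hi))
    have h1 := ce_inter hΞ (B a) (⋃ i ∈ s, B i) hdj (Ev a) (⋂ i ∈ s, Ev i)
      (h a (Finset.mem_insert_self _ _)) ih'.1
    rw [Finset.set_biUnion_insert, Finset.set_biInter_insert, Finset.prod_insert ha, ← ih'.2]
    exact h1

theorem ppp_zero (hΞ : IsPPP μ Ξ ν) (B : Set (E d × ℝ)) (hB : MeasurableSet B)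
    (hfin : ((volume : Measure (E d)).prod ν) B ≠ ∞) :
    μ {ω | (Ξ ω ∩ B).encard = 0} =
      ENNReal.ofReal (Real.exp (-(((volume : Measure (E d)).prod ν) B).toReal)) := by
  have h := hΞ.law B hB hfin 0
  simpa using h

theorem ppp_tail [IsProbabilityMeasure μ] (hΞ : IsPPP μ Ξ ν) (B : Set (E d × ℝ))
    (hB : MeasurableSet B) (lam : ℝ) (hlam : 0 ≤ lam)
    (hfin : ((volume : Measure (E d)).prod ν) B ≤ ENNReal.ofReal lam) (h : ℕ) :
    μ {ω | (h : ℕ∞) ≤ (Ξ ω ∩ B).encard} ≤ ENNReal.ofReal (Real.exp (2 * lam - h)) := by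
  have hfin' : ((volume : Measure (E d)).prod ν) B ≠ ∞ :=
    ne_top_of_le_ne_top ENNReal.ofReal_ne_top hfin
  set L : ℝ := (((volume : Measure (E d)).prod ν) B).toReal with hL
  have hL0 : 0 ≤ L := ENNReal.toReal_nonneg
  have hLlam : L ≤ lam := ENNReal.toReal_le_of_le_ofReal hlam hfin
  have hlaw := hΞ.law B hB hfin'
  rw [← hL] at hlaw
  have hcm : ∀ n : ℕ, MeasurableSet {ω | (Ξ ω ∩ B).encard = n} := fun n =>
    (hΞ.meas B hB) (measurableSet_singleton (n : ℕ∞))
  -- the complement
  have hcompl : {ω | (h : ℕ∞) ≤ (Ξ ω ∩ B).encard} =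
      (⋃ n ∈ Finset.range h, {ω | (Ξ ω ∩ B).encard = n})ᶜ := by
    ext ω
    simp only [Set.mem_ofPred_eq, Set.mem_compl_iff, Set.mem_iUnion, Finset.mem_range, exists_prop,
      not_exists, not_and]
    constructor
    · intro h1 n hn h2
      rw [h2] at h1
      have : h ≤ n := by exact_mod_cast h1
      omega
    · intro h1
      by_contra h2
      push Not at h2
      obtain ⟨n, hn⟩ := ENat.ne_top_iff_exists.mp (ne_top_of_lt h2)
      rw [← hn] at h2
      exact h1 n (by exact_mod_cast h2) hn.symm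
  have hmU : MeasurableSet (⋃ n ∈ Finset.range h, {ω | (Ξ ω ∩ B).encard = n}) :=
    Finset.measurableSet_biUnion _ (fun n _ => hcm n)
  rw [hcompl, prob_compl_eq_one_sub hmU, measure_biUnion_finset ?_ (fun n _ => hcm n),
    Finset.sum_congr rfl (fun n _ => hlaw n), ← ENNReal.ofReal_sum_of_nonneg ?_]
  · rw [← ENNReal.ofReal_one, ← ENNReal.ofReal_sub]
    · apply ENNReal.ofReal_le_ofReal
      -- real inequality
      have hf : HasSum (fun n : ℕ => L ^ n / n.factorial) (Real.exp L) := by
        rw [Real.exp_eq_exp_ℝ]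
        exact NormedSpace.expSeries_div_hasSum_exp L
      have hg : HasSum (fun n : ℕ => Real.exp (-h) * ((Real.exp 1 * L) ^ n / n.factorial))
          (Real.exp (-h) * Real.exp (Real.exp 1 * L)) := by
        apply HasSum.mul_left
        rw [Real.exp_eq_exp_ℝ]
        exact NormedSpace.expSeries_div_hasSum_exp _
      have hk : HasSum (fun n : ℕ => L ^ n / n.factorial -
          (if n ∈ Finset.range h then L ^ n / n.factorial else 0))
          (Real.exp L - ∑ n ∈ Finset.range h, L ^ n / n.factorial) := by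
        refine hf.sub ?_
        have : HasSum (fun n : ℕ => (if n ∈ Finset.range h then L ^ n / (n.factorial : ℝ) else 0))
            (∑ n ∈ Finset.range h, (if n ∈ Finset.range h then L ^ n / (n.factorial : ℝ) else 0)) :=
          hasSum_sum_of_ne_finset_zero (fun n hn => if_neg hn)
        rw [Finset.sum_congr rfl (fun n hn => if_pos hn)] at this
        exact this
      have hle := hasSum_le (fun n => ?_) hk hg
      · have h5 : 1 - ∑ n ∈ Finset.range h, Real.exp (-L) * L ^ n / n.factorial =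
            Real.exp (-L) * (Real.exp L - ∑ n ∈ Finset.range h, L ^ n / n.factorial) := by
          rw [mul_sub, ← Real.exp_add, neg_add_cancel, Real.exp_zero, Finset.mul_sum]
          congr 1
          refine Finset.sum_congr rfl fun n _ => ?_
          ring
        rw [h5]
        calc Real.exp (-L) * (Real.exp L - ∑ n ∈ Finset.range h, L ^ n / n.factorial)
            ≤ Real.exp (-L) * (Real.exp (-h) * Real.exp (Real.exp 1 * L)) :=
              mul_le_mul_of_nonneg_left hle (Real.exp_pos _).le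
          _ = Real.exp (-L + (-h + Real.exp 1 * L)) := by
              rw [← Real.exp_add, ← Real.exp_add]
          _ ≤ Real.exp (2 * lam - h) := by
              apply Real.exp_le_exp.mpr
              have he : Real.exp 1 < 3 := lt_trans Real.exp_one_lt_d9 (by norm_num)
              nlinarith
      · show L ^ n / n.factorial - (if n ∈ Finset.range h then L ^ n / n.factorial else 0) ≤
          Real.exp (-h) * ((Real.exp 1 * L) ^ n / n.factorial)
        split_ifs with hn
        · rw [sub_self]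
          positivity
        · rw [sub_zero]
          rw [Finset.mem_range, not_lt] at hn
          have h6 : Real.exp (-h) * ((Real.exp 1 * L) ^ n / n.factorial) =
              Real.exp (n - h) * (L ^ n / n.factorial) := by
            rw [mul_pow, ← Real.exp_nat_mul, mul_one, sub_eq_add_neg, Real.exp_add]
            ring
          rw [h6]
          have h7 : (1 : ℝ) ≤ Real.exp (n - h) := by
            rw [Real.one_le_exp_iff]
            have : (h : ℝ) ≤ n := by exact_mod_cast hn
            linarith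
          have h8 : (0 : ℝ) ≤ L ^ n / n.factorial := by positivity
          nlinarith
    · exact Finset.sum_nonneg (fun n _ => by positivity)
  · intro n _
    positivity
  · intro i hi j hj hij
    rw [Function.onFun, Set.disjoint_left]
    intro ω h1 h2
    apply hij
    have h3 : ((i : ℕ) : ℕ∞) = j := h1.symm.trans h2
    exact_mod_cast h3

end MP4fb

end
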