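import Pool.Agent.Lib.MP_4fbc34_pr.DisDef
import Pool.Agent.Lib.MP_4fbc34_pr.PppA

/-!
JOB DisA: elementary properties of the discretisation.

* `dp_lat_ok`: `u_i = εu + (1 - 2 εu) c_i / np <= 1 - εu` as `c_i <= np - 1`.
* `mcell_sub`: the micro cells are in the inner part `r (p + [εu, 1 - εu))^d` of the cell; `mcell_disj`.
* `cset_sub`, `cset_disj`: disjoint micro cells or disjoint mass classes.
* `upc_some`: if `St (some a)` and `St (some a')` then `a = a'` (the point of `Cset a` would be in `Tot \ Cset a'` by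
  disjointness).
* `mcell_vol`: a box with sides `r (1 - 2 εu) / np`.
* `prod_cset`, `prod_tot`: `prod_rect`; all quantities are finite since `ν (Ici δ0) < ∞`.
* `sum_lam`: `∑_a lamA = (r (1 - 2 εu))^d ν([δ0, δ0 + nv mst))` (sum over the `np^d` micro cells and the `nv` classes), and
  `lamT - ∑_a lamA = r^d (ν([δ0,∞)) - (1 - 2 εu)^d ν([δ0, δ0 + nv mst)))`, which is between `0` and
  `r^d (ν([δ0 + nv mst, ∞)) + 2 d εu ν([δ0, ∞)))` by Bernoulli's inequality `(1 - 2 εu)^d >= 1 - 2 d εu`.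
* `wup_none`: with `λ = lamT <= 1`, `β = λ - ∑ lamA >= 0`:
  `wup none = 1 - e^{-λ} (λ - β) = e^{-λ} (e^λ - λ + β) <= e^{-λ} (1 + λ^2 + β) <= e^{-λ} exp (λ^2 + β)`
  (`e^λ <= 1 + λ + λ^2` for `0 <= λ <= 1`), and `e^λ - λ + β >= 1`.
-/

set_option autoImplicit false

open MeasureTheory ProbabilityTheory
open scoped ENNReal Classical

noncomputable section

namespace MP4fb

variable {d : ℕ}

private lemma DisA_box_meas (a b : Fin d → ℝ) :
    MeasurableSet {x : E d | ∀ i, a i ≤ x i ∧ x i < b i} := by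
  have h : {x : E d | ∀ i, a i ≤ x i ∧ x i < b i} =
      (WithLp.ofLp : E d → (Fin d → ℝ)) ⁻¹' (Set.pi Set.univ (fun i => Set.Ico (a i) (b i))) := by
    ext x
    simp [Set.mem_pi]
  rw [h]
  exact (PiLp.volume_preserving_ofLp (Fin d)).measurable
    (MeasurableSet.univ_pi (fun i => measurableSet_Ico))

private lemma DisA_box_vol (a b : Fin d → ℝ) :
    volume {x : E d | ∀ i, a i ≤ x i ∧ x i < b i} = ∏ i, ENNReal.ofReal (b i - a i) := by
  have h : {x : E d | ∀ i, a i ≤ x i ∧ x i < b i} =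
      (WithLp.ofLp : E d → (Fin d → ℝ)) ⁻¹' (Set.pi Set.univ (fun i => Set.Ico (a i) (b i))) := by
    ext x
    simp [Set.mem_pi]
  rw [h, (PiLp.volume_preserving_ofLp (Fin d)).measure_preimage
    (MeasurableSet.univ_pi (fun i => measurableSet_Ico)).nullMeasurableSet, Real.volume_pi_Ico]

private lemma DisA_np (P : DP) (hP : P.Ok) : (0 : ℝ) < P.np := by
  exact_mod_cast hP.np_pos

private lemma DisA_w (P : DP) (hP : P.Ok) : (0 : ℝ) < 1 - 2 * P.εu := by
  linarith [hP.eu_le]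

/-- an index is determined by its class -/
private lemma DisA_idx (w0 s y : ℝ) (hs : 0 < s) (m n : ℕ) (h1 : w0 + m * s ≤ y)
    (h2 : y < w0 + (m + 1) * s) (h3 : w0 + n * s ≤ y) (h4 : y < w0 + (n + 1) * s) : m = n := by
  have h5 : (m : ℝ) * s < (n + 1) * s := by linarith
  have h6 : (n : ℝ) * s < (m + 1) * s := by linarith
  have h7 : (m : ℝ) < n + 1 := lt_of_mul_lt_mul_right h5 hs.le
  have h8 : (n : ℝ) < m + 1 := lt_of_mul_lt_mul_right h6 hs.le
  have h9 : m < n + 1 := by exact_mod_cast h7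
  have h10 : n < m + 1 := by exact_mod_cast h8
  omega

theorem dp_lat_ok (P : DP) (hP : P.Ok) : (P.lat d).Ok P.εu (P.δ0 + P.nv * P.mst) := by
  have hn := DisA_np P hP
  have hw := DisA_w P hP
  have hm := hP.ms
  refine ⟨hP.eu_pos, ?_, ?_, ?_, ?_⟩
  · intro a i
    change P.εu ≤ P.εu + (1 - 2 * P.εu) * ((a.1 i : ℕ) : ℝ) / P.np
    have : 0 ≤ (1 - 2 * P.εu) * ((a.1 i : ℕ) : ℝ) / P.np := by positivity
    linarith
  · intro a i
    change P.εu + (1 - 2 * P.εu) * ((a.1 i : ℕ) : ℝ) / P.np ≤ 1 - P.εu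
    have h1 : ((a.1 i : ℕ) : ℝ) ≤ P.np := by exact_mod_cast (a.1 i).2.le
    have h2 : (1 - 2 * P.εu) * ((a.1 i : ℕ) : ℝ) / P.np ≤ 1 - 2 * P.εu := by
      rw [div_le_iff₀ hn]
      exact mul_le_mul_of_nonneg_left h1 hw.le
    linarith
  · intro a
    change 0 ≤ P.δ0 + ((a.2 : ℕ) : ℝ) * P.mst
    have := hP.d0
    positivity
  · intro a
    change P.δ0 + ((a.2 : ℕ) : ℝ) * P.mst ≤ P.δ0 + P.nv * P.mst
    have h1 : ((a.2 : ℕ) : ℝ) ≤ P.nv := by exact_mod_cast a.2.2.le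
    have := mul_le_mul_of_nonneg_right h1 hm.le
    linarith

theorem mcell_sub (P : DP) (hP : P.Ok) (r : ℝ) (hr : 0 < r) (p : Fin d → ℤ) (c : Fin d → Fin P.np)
    (x : E d) (hx : x ∈ mcell P r p c) :
    ∀ i, r * (p i + P.εu) ≤ x i ∧ x i < r * (p i + (1 - P.εu)) := by
  intro i
  have hn := DisA_np P hP
  have hw := DisA_w P hP
  obtain ⟨h1, h2⟩ := hx i
  constructor
  · refine le_trans ?_ h1
    have : 0 ≤ (1 - 2 * P.εu) * ((c i : ℕ) : ℝ) / P.np := by positivity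
    exact mul_le_mul_of_nonneg_left (by linarith) hr.le
  · refine lt_of_lt_of_le h2 ?_
    have h1 : ((c i : ℕ) : ℝ) + 1 ≤ P.np := by exact_mod_cast (c i).2
    have h2 : (1 - 2 * P.εu) * (((c i : ℕ) : ℝ) + 1) / P.np ≤ 1 - 2 * P.εu := by
      rw [div_le_iff₀ hn]
      exact mul_le_mul_of_nonneg_left h1 hw.le
    exact mul_le_mul_of_nonneg_left (by linarith) hr.le

theorem mcell_meas (P : DP) (r : ℝ) (p : Fin d → ℤ) (c : Fin d → Fin P.np) :
    MeasurableSet (mcell P r p c) :=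
  DisA_box_meas (fun i => r * (p i + (P.εu + (1 - 2 * P.εu) * ((c i : ℕ) : ℝ) / P.np)))
    (fun i => r * (p i + (P.εu + (1 - 2 * P.εu) * (((c i : ℕ) : ℝ) + 1) / P.np)))

theorem mcell_vol (P : DP) (hP : P.Ok) (r : ℝ) (hr : 0 < r) (p : Fin d → ℤ)
    (c : Fin d → Fin P.np) :
    volume (mcell P r p c) = ENNReal.ofReal ((r * ((1 - 2 * P.εu) / P.np)) ^ d) := by
  have hn := DisA_np P hP
  have hw := DisA_w P hP
  have h := DisA_box_vol (fun i => r * (p i + (P.εu + (1 - 2 * P.εu) * ((c i : ℕ) : ℝ) / P.np)))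
    (fun i => r * (p i + (P.εu + (1 - 2 * P.εu) * (((c i : ℕ) : ℝ) + 1) / P.np)))
  unfold mcell
  rw [h]
  have h1 : ∀ i : Fin d, ENNReal.ofReal
      (r * (p i + (P.εu + (1 - 2 * P.εu) * (((c i : ℕ) : ℝ) + 1) / P.np)) -
        r * (p i + (P.εu + (1 - 2 * P.εu) * ((c i : ℕ) : ℝ) / P.np))) =
      ENNReal.ofReal (r * ((1 - 2 * P.εu) / P.np)) := by
    intro i
    congr 1
    field_simp
    ring
  rw [Finset.prod_congr rfl (fun i _ => h1 i), Finset.prod_const, Finset.card_univ,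
    Fintype.card_fin, ENNReal.ofReal_pow (by positivity)]

private lemma DisA_mcell_gcell (P : DP) (hP : P.Ok) (r : ℝ) (hr : 0 < r) (p : Fin d → ℤ)
    (c : Fin d → Fin P.np) : mcell P r p c ⊆ gcell r p := by
  intro x hx i
  obtain ⟨h1, h2⟩ := mcell_sub P hP r hr p c x hx i
  have he := hP.eu_pos
  have h3 : r * (p i) ≤ r * (p i + P.εu) := mul_le_mul_of_nonneg_left (by linarith) hr.le
  have h4 : r * (p i + (1 - P.εu)) ≤ r * (p i + 1) := mul_le_mul_of_nonneg_left (by linarith) hr.le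
  exact ⟨by linarith, by linarith⟩

theorem cset_sub (P : DP) (hP : P.Ok) (r : ℝ) (hr : 0 < r) (p : Fin d → ℤ) (a : (P.lat d).A) :
    Cset P r p a ⊆ Tot P r p := by
  rintro ⟨x, t⟩ ⟨h1, h2⟩
  refine ⟨DisA_mcell_gcell P hP r hr p a.1 h1, ?_⟩
  have hm := hP.ms
  have h3 : P.δ0 + ((a.2 : ℕ) : ℝ) * P.mst ≤ t := h2.1
  have h4 : 0 ≤ ((a.2 : ℕ) : ℝ) * P.mst := by positivity
  change P.δ0 ≤ t
  linarith

theorem cset_disj (P : DP) (hP : P.Ok) (r : ℝ) (hr : 0 < r) (p : Fin d → ℤ) (a a' : (P.lat d).A)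
    (h : a ≠ a') : Disjoint (Cset P r p a) (Cset P r p a') := by
  rw [Set.disjoint_left]
  rintro ⟨x, t⟩ ⟨h1, h2⟩ ⟨h1', h2'⟩
  apply h
  have hn := DisA_np P hP
  have hw := DisA_w P hP
  have hs : 0 < r * ((1 - 2 * P.εu) / P.np) := by positivity
  have e1 : a.1 = a'.1 := by
    funext i
    obtain ⟨u1, u2⟩ := h1 i
    obtain ⟨v1, v2⟩ := h1' i
    apply Fin.ext
    refine DisA_idx (r * (p i + P.εu)) (r * ((1 - 2 * P.εu) / P.np)) (x i) hs _ _ ?_ ?_ ?_ ?_
    · refine le_trans (le_of_eq ?_) u1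
      ring
    · refine lt_of_lt_of_le u2 (le_of_eq ?_)
      ring
    · refine le_trans (le_of_eq ?_) v1
      ring
    · refine lt_of_lt_of_le v2 (le_of_eq ?_)
      ring
  have e2 : a.2 = a'.2 := by
    apply Fin.ext
    exact DisA_idx P.δ0 P.mst t hP.ms _ _ h2.1 h2.2 h2'.1 h2'.2
  exact Prod.ext e1 e2

theorem tot_disj (P : DP) (r : ℝ) (hr : 0 < r) (p p' : Fin d → ℤ) (h : p ≠ p') :
    Disjoint (Tot P r p) (Tot P r p') := by
  rw [Set.disjoint_left]
  rintro ⟨x, t⟩ ⟨h1, -⟩ ⟨h2, -⟩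
  apply h
  funext i
  obtain ⟨u1, u2⟩ := h1 i
  obtain ⟨v1, v2⟩ := h2 i
  have h5 : r * (p i : ℝ) < r * (p' i + 1) := by linarith
  have h6 : r * (p' i : ℝ) < r * (p i + 1) := by linarith
  have h7 : (p i : ℝ) < p' i + 1 := lt_of_mul_lt_mul_left h5 hr.le
  have h8 : (p' i : ℝ) < p i + 1 := lt_of_mul_lt_mul_left h6 hr.le
  have h9 : p i < p' i + 1 := by exact_mod_cast h7
  have h10 : p' i < p i + 1 := by exact_mod_cast h8
  omega

theorem cset_meas (P : DP) (r : ℝ) (p : Fin d → ℤ) (a : (P.lat d).A) :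
    MeasurableSet (Cset P r p a) :=
  (mcell_meas P r p a.1).prod measurableSet_Ico

theorem tot_meas (P : DP) (r : ℝ) (p : Fin d → ℤ) : MeasurableSet (Tot P r p) :=
  (gcell_meas r p).prod measurableSet_Ici

private lemma DisA_uniq (P : DP) (hP : P.Ok) (r : ℝ) (hr : 0 < r) (X : Set (E d × ℝ))
    (p : Fin d → ℤ) (a a' : (P.lat d).A) (h : St P r X p (some a)) (h' : St P r X p (some a')) :
    a = a' := by
  by_contra hne
  have h1 : (X ∩ Cset P r p a).encard = 1 := h.1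
  have h2 : (X ∩ (Tot P r p \ Cset P r p a')).encard = 0 := h'.2
  rw [Set.encard_eq_zero] at h2
  have h3 : X ∩ Cset P r p a ⊆ X ∩ (Tot P r p \ Cset P r p a') := by
    rintro x ⟨hx, hx2⟩
    exact ⟨hx, cset_sub P hP r hr p a hx2,
      Set.disjoint_left.1 (cset_disj P hP r hr p a a' hne) hx2⟩
  rw [h2, Set.subset_empty_iff] at h3
  rw [h3, Set.encard_empty] at h1
  exact zero_ne_one h1

theorem upc_some (P : DP) (hP : P.Ok) (r : ℝ) (hr : 0 < r) (X : Set (E d × ℝ)) (p : Fin d → ℤ)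
    (a : (P.lat d).A) : upc P r X p = some a ↔ St P r X p (some a) := by
  unfold upc
  constructor
  · intro h
    split_ifs at h with h1
    have h2 := h1.choose_spec
    rw [Option.some.injEq] at h
    rw [h] at h2
    exact h2
  · intro h
    have h1 : ∃ a, St P r X p (some a) := ⟨a, h⟩
    rw [dif_pos h1, DisA_uniq P hP r hr X p h1.choose a h1.choose_spec h]

variable (ν : Measure ℝ) (hν : ν (Set.Iic 0) = 0) (hfin : ∀ t : ℝ, 0 < t → ν (Set.Ici t) ≠ ∞)

include hν hfin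

theorem prod_cset (P : DP) (hP : P.Ok) (hT : ν (Set.Ici P.δ0) ≠ ∞) (r : ℝ) (hr : 0 < r)
    (p : Fin d → ℤ) (a : (P.lat d).A) :
    ((volume : Measure (E d)).prod ν) (Cset P r p a) = ENNReal.ofReal (lamA P ν d r a) := by
  have hn := DisA_np P hP
  have hw := DisA_w P hP
  have hm := hP.ms
  unfold Cset lamA
  rw [prod_rect ν hν hfin, mcell_vol P hP r hr p a.1, ENNReal.ofReal_mul (by positivity),
    ENNReal.ofReal_toReal]
  refine ne_top_of_le_ne_top hT (measure_mono ?_)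
  intro t ht
  have h3 : P.δ0 + ((a.2 : ℕ) : ℝ) * P.mst ≤ t := ht.1
  have h4 : 0 ≤ ((a.2 : ℕ) : ℝ) * P.mst := by positivity
  change P.δ0 ≤ t
  linarith

theorem prod_tot (P : DP) (hP : P.Ok) (hT : ν (Set.Ici P.δ0) ≠ ∞) (r : ℝ) (hr : 0 < r)
    (p : Fin d → ℤ) :
    ((volume : Measure (E d)).prod ν) (Tot P r p) = ENNReal.ofReal (lamT P ν d r) := by
  unfold Tot lamT
  rw [prod_rect ν hν hfin, gcell_vol r hr.le p, ENNReal.ofReal_mul (by positivity),
    ENNReal.ofReal_toReal hT]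

omit hν hfin

private lemma DisA_classes (δ m : ℝ) (hm : 0 < m) (hT : ν (Set.Ici δ) ≠ ∞) (n : ℕ) :
    ∑ v ∈ Finset.range n, (ν (Set.Ico (δ + (v : ℝ) * m) (δ + ((v : ℝ) + 1) * m))).toReal =
      (ν (Set.Ico δ (δ + n * m))).toReal := by
  induction n with
  | zero => simp
  | succ n ih =>
    rw [Finset.sum_range_succ, ih]
    have h1 : Set.Ico δ (δ + ((n + 1 : ℕ) : ℝ) * m) =
        Set.Ico δ (δ + n * m) ∪ Set.Ico (δ + (n : ℝ) * m) (δ + ((n : ℝ) + 1) * m) := by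
      rw [Set.Ico_union_Ico_eq_Ico]
      · push_cast
        rfl
      · have : 0 ≤ (n : ℝ) * m := by positivity
        linarith
      · nlinarith
    have h2 : Disjoint (Set.Ico δ (δ + n * m))
        (Set.Ico (δ + (n : ℝ) * m) (δ + ((n : ℝ) + 1) * m)) := by
      rw [Set.disjoint_left]
      intro x hx hx2
      exact absurd hx.2 (not_lt.2 hx2.1)
    have h3 : ν (Set.Ico δ (δ + n * m)) ≠ ∞ :=
      ne_top_of_le_ne_top hT (measure_mono (fun x hx => hx.1))
    have h4 : ν (Set.Ico (δ + (n : ℝ) * m) (δ + ((n : ℝ) + 1) * m)) ≠ ∞ := by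
      refine ne_top_of_le_ne_top hT (measure_mono (fun x hx => ?_))
      have h5 : δ + (n : ℝ) * m ≤ x := hx.1
      have : 0 ≤ (n : ℝ) * m := by positivity
      change δ ≤ x
      linarith
    rw [h1, measure_union h2 measurableSet_Ico, ENNReal.toReal_add h3 h4]

private lemma DisA_sum (P : DP) (hP : P.Ok) (hT : ν (Set.Ici P.δ0) ≠ ∞) (r : ℝ) :
    ∑ a, lamA P ν d r a = (r * (1 - 2 * P.εu)) ^ d *
      (ν (Set.Ico P.δ0 (P.δ0 + P.nv * P.mst))).toReal := by
  have hn := DisA_np P hP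
  have h1 : ∑ a, lamA P ν d r a = ∑ a : (Fin d → Fin P.np) × Fin P.nv,
      (r * ((1 - 2 * P.εu) / P.np)) ^ d *
    (ν (Set.Ico (P.δ0 + ((a.2 : ℕ) : ℝ) * P.mst) (P.δ0 + (((a.2 : ℕ) : ℝ) + 1) * P.mst))).toReal :=
    rfl
  rw [h1, Fintype.sum_prod_type]
  simp only
  rw [Finset.sum_const, Finset.card_univ, Fintype.card_fun, Fintype.card_fin, Fintype.card_fin,
    ← Finset.mul_sum, ← DisA_classes ν P.δ0 P.mst hP.ms hT P.nv,
    Finset.sum_range (fun v : ℕ =>
      (ν (Set.Ico (P.δ0 + (v : ℝ) * P.mst) (P.δ0 + ((v : ℝ) + 1) * P.mst))).toReal),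
    nsmul_eq_mul, ← mul_assoc]
  congr 1
  push_cast
  rw [← mul_pow]
  congr 1
  field_simp

theorem sum_lam (P : DP) (hP : P.Ok) (hT : ν (Set.Ici P.δ0) ≠ ∞) (r : ℝ) (hr : 0 < r) :
    0 ≤ lamT P ν d r - ∑ a, lamA P ν d r a ∧
    lamT P ν d r - ∑ a, lamA P ν d r a ≤ r ^ d * ((ν (Set.Ici (P.δ0 + P.nv * P.mst))).toReal +
      2 * d * P.εu * (ν (Set.Ici P.δ0)).toReal) := by
  rw [DisA_sum ν P hP hT r, lamT, mul_pow]
  have hw := DisA_w P hP
  have he := hP.eu_pos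
  have hm := hP.ms
  have hnm : 0 ≤ (P.nv : ℝ) * P.mst := by positivity
  have h1 : Set.Ici P.δ0 = Set.Ico P.δ0 (P.δ0 + P.nv * P.mst) ∪ Set.Ici (P.δ0 + P.nv * P.mst) := by
    rw [Set.Ico_union_Ici_eq_Ici (by linarith)]
  have h2 : Disjoint (Set.Ico P.δ0 (P.δ0 + P.nv * P.mst)) (Set.Ici (P.δ0 + P.nv * P.mst)) := by
    rw [Set.disjoint_left]
    intro x hx hx2
    exact absurd hx.2 (not_lt.2 hx2)
  have h3 : ν (Set.Ico P.δ0 (P.δ0 + P.nv * P.mst)) ≠ ∞ :=
    ne_top_of_le_ne_top hT (measure_mono (fun x hx => hx.1))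
  have h4 : ν (Set.Ici (P.δ0 + P.nv * P.mst)) ≠ ∞ := by
    refine ne_top_of_le_ne_top hT (measure_mono (fun x hx => ?_))
    have h5 : P.δ0 + P.nv * P.mst ≤ x := hx
    change P.δ0 ≤ x
    linarith
  have h5 : (ν (Set.Ici P.δ0)).toReal = (ν (Set.Ico P.δ0 (P.δ0 + P.nv * P.mst))).toReal +
      (ν (Set.Ici (P.δ0 + P.nv * P.mst))).toReal := by
    rw [← ENNReal.toReal_add h3 h4, ← measure_union h2 measurableSet_Ici, ← h1]
  rw [h5]
  have hB : 0 ≤ (ν (Set.Ico P.δ0 (P.δ0 + P.nv * P.mst))).toReal := ENNReal.toReal_nonneg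
  have hC : 0 ≤ (ν (Set.Ici (P.δ0 + P.nv * P.mst))).toReal := ENNReal.toReal_nonneg
  generalize (ν (Set.Ico P.δ0 (P.δ0 + P.nv * P.mst))).toReal = B at *
  generalize (ν (Set.Ici (P.δ0 + P.nv * P.mst))).toReal = C at *
  have hber : 1 + (d : ℝ) * (-(2 * P.εu)) ≤ (1 + -(2 * P.εu)) ^ d :=
    one_add_mul_le_pow (by linarith [hP.eu_le]) d
  have hle1 : (1 - 2 * P.εu) ^ d ≤ 1 := pow_le_one₀ hw.le (by linarith)
  have hber' : 1 - 2 * d * P.εu ≤ (1 - 2 * P.εu) ^ d := by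
    have e1 : 1 + -(2 * P.εu) = 1 - 2 * P.εu := by ring
    rw [e1] at hber
    linarith
  generalize (1 - 2 * P.εu) ^ d = z at *
  have hrd : 0 ≤ r ^ d := by positivity
  have e2 : r ^ d * (B + C) - r ^ d * z * B = r ^ d * ((1 - z) * B + C) := by ring
  rw [e2]
  constructor
  · have : 0 ≤ (1 - z) * B := mul_nonneg (by linarith) hB
    positivity
  · refine mul_le_mul_of_nonneg_left ?_ hrd
    have h6 : (1 - z) * B ≤ (2 * d * P.εu) * B := mul_le_mul_of_nonneg_right (by linarith) hB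
    have h7 : 0 ≤ 2 * d * P.εu * C := by positivity
    linarith

private lemma DisA_lamA_nonneg (P : DP) (hP : P.Ok) (r : ℝ) (hr : 0 < r) (a : (P.lat d).A) :
    0 ≤ lamA P ν d r a := by
  have hn := DisA_np P hP
  have hw := DisA_w P hP
  unfold lamA
  exact mul_nonneg (by positivity) ENNReal.toReal_nonneg

theorem wlow_nonneg (P : DP) (hP : P.Ok) (r : ℝ) (hr : 0 < r) (x : Option (P.lat d).A) :
    0 ≤ wlow P ν d r x := by
  cases x with
  | none => exact (Real.exp_pos _).le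
  | some a => exact mul_nonneg (DisA_lamA_nonneg ν P hP r hr a) (Real.exp_pos _).le

theorem wup_props (P : DP) (hP : P.Ok) (hT : ν (Set.Ici P.δ0) ≠ ∞) (r : ℝ) (hr : 0 < r)
    (hlam : lamT P ν d r ≤ 1) :
    (∀ x, 0 ≤ wup P ν d r x) ∧ ∑ x, wup P ν d r x = 1 ∧ Real.exp (-1) ≤ wup P ν d r none ∧
    ∀ x, Real.exp (-(lamT P ν d r ^ 2 + (lamT P ν d r - ∑ a, lamA P ν d r a))) * wup P ν d r x ≤
      wlow P ν d r x := by
  obtain ⟨hb1, -⟩ := sum_lam (d := d) ν P hP hT r hr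
  have hS0 : 0 ≤ ∑ a, lamA P ν d r a :=
    Finset.sum_nonneg (fun a _ => DisA_lamA_nonneg ν P hP r hr a)
  have hnone : wup P ν d r none =
      1 - (∑ a, lamA P ν d r a) * Real.exp (-lamT P ν d r) := by
    change 1 - ∑ a, lamA P ν d r a * Real.exp (-lamT P ν d r) = _
    rw [Finset.sum_mul]
  have hlow : wlow P ν d r none = Real.exp (-lamT P ν d r) := rfl
  have hexp1 : Real.exp (-1) ≤ wup P ν d r none := by
    rw [hnone]
    have h1 : lamT P ν d r ≤ Real.exp (lamT P ν d r - 1) := by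
      have := Real.add_one_le_exp (lamT P ν d r - 1)
      linarith
    have h2 : (∑ a, lamA P ν d r a) * Real.exp (-lamT P ν d r) ≤ Real.exp (-1) := by
      have h3 : (∑ a, lamA P ν d r a) * Real.exp (-lamT P ν d r) ≤
          Real.exp (lamT P ν d r - 1) * Real.exp (-lamT P ν d r) :=
        mul_le_mul_of_nonneg_right (by linarith) (Real.exp_pos _).le
      rw [← Real.exp_add] at h3
      have e1 : lamT P ν d r - 1 + -lamT P ν d r = -1 := by ring
      rw [e1] at h3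
      exact h3
    have h4 : 2 * Real.exp (-1) ≤ 1 := by
      have h5 : (2 : ℝ) ≤ Real.exp 1 := by
        have := Real.add_one_le_exp (1 : ℝ)
        linarith
      have h6 : Real.exp 1 * Real.exp (-1) = 1 := by
        rw [← Real.exp_add]
        simp
      nlinarith [Real.exp_pos (-1)]
    linarith
  have hnn : ∀ x, 0 ≤ wup P ν d r x := by
    intro x
    cases x with
    | none => exact (Real.exp_pos _).le.trans hexp1
    | some a => exact wlow_nonneg ν P hP r hr (some a)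
  refine ⟨hnn, ?_, hexp1, ?_⟩
  · rw [Fintype.sum_option]
    change (1 - ∑ a, wlow P ν d r (some a)) + ∑ a, wlow P ν d r (some a) = 1
    ring
  · intro x
    have hlamT0 : 0 ≤ lamT P ν d r := by linarith
    cases x with
    | none =>
      rw [hnone, hlow]
      have hq : Real.exp (lamT P ν d r) ≤ 1 + lamT P ν d r + lamT P ν d r ^ 2 := by
        have h1 := Real.abs_exp_sub_one_sub_id_le (x := lamT P ν d r)
          (by rw [abs_of_nonneg hlamT0]; exact hlam)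
        have h2 := (abs_le.1 h1).2
        linarith
      generalize lamT P ν d r = l at *
      generalize ∑ a, lamA P ν d r a = S at *
      have h1 : 1 - S * Real.exp (-l) = Real.exp (-l) * (Real.exp l - S) := by
        rw [mul_sub, ← Real.exp_add]
        simp [mul_comm]
      have h2 : Real.exp l - S ≤ Real.exp (l ^ 2 + (l - S)) := by
        have := Real.add_one_le_exp (l ^ 2 + (l - S))
        linarith
      rw [h1]
      calc Real.exp (-(l ^ 2 + (l - S))) * (Real.exp (-l) * (Real.exp l - S))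
          ≤ Real.exp (-(l ^ 2 + (l - S))) * (Real.exp (-l) * Real.exp (l ^ 2 + (l - S))) := by
            gcongr
        _ = Real.exp (-l) := by
            rw [← Real.exp_add, ← Real.exp_add]
            congr 1
            ring
    | some a =>
      change _ * wlow P ν d r (some a) ≤ wlow P ν d r (some a)
      have h1 : Real.exp (-(lamT P ν d r ^ 2 + (lamT P ν d r - ∑ a, lamA P ν d r a))) ≤ 1 := by
        rw [Real.exp_le_one_iff]
        have : 0 ≤ lamT P ν d r ^ 2 := sq_nonneg _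
        linarith
      exact mul_le_of_le_one_left (wlow_nonneg ν P hP r hr (some a)) h1

end MP4fb

end
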