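import Pool.Agent.Lib.MP_4fbc34_pr.CoreDef
import Pool.Agent.Lib.MP_4fbc34_pr.DisA

/-!
JOB CoreA: existence of the parameters.

Order of the choices.
1. `β ∈ (0, 1/2]` with `(I + θ/2) (1/(1 - β))^d < I + θ` (continuity at `β = 0`).
2. `e2 = ζ β / (8 * 3^d)`.
3. Infinite case (`ν univ = ∞`): `τ0 = δ1` from `hS e2`.  Finite case (`ν univ ≠ ∞`): `τ0 = 0`.
4. `md` with `(2 * 2⁻ᵐᵈ)^d ν(Ici τ0) <= θ / 8` (`d >= 1`).  Let `γ = β 2⁻ᵐᵈ / 16`.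
5. `e1 = ζ γ / (16 * 3^d)`.  Infinite case: `δ0 = min τ0 δ1(e1)`; finite case `δ0 = 0` (`ν (Ici 0) <= ν univ`).
   Let `a = (ν (Ici δ0)).toReal` (`< ∞` by `hfin`).
6. `bmin >= 1` with `2^d log 2 / bmin^d <= θ / 8`.
7. `εu ∈ (0, 1/4]` with `2^d * 2 d εu a <= θ / 32`.
8. `r0 > 0` with `r0^d a <= 1` and `2^d r0^d a^2 <= θ / 32`.
9. `mst > 0` with `mst / (εu r0 / 2) <= ζ γ / 8`.
10. `nv >= 1` with `2^d ν(Ici (δ0 + nv mst)) <= θ / 32` (`ν (Ici t) → 0` as `t → ∞`, continuity from above, `ν (Ici δ0) < ∞`).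
11. `np >= 1` large and `c > 0` small: with `K = 1 + 2 d / (np εu)` close to `1`:
   `K^2 / (1 - c) (1 - γ) <= 1 - γ / 2` and `(I (K/(1-c))^d + θ/2) (K/(1-β))^d < I + θ` (continuity at `K = 1`, `c = 0`).
`lam1`: `sum_lam` gives `lamT - ∑ lamA <= r^d (ν(Ici (δ0 + nv mst)) + 2 d εu a)`, and `lamT^2 = r^d (r^d a^2)`.
-/

set_option autoImplicit false

open MeasureTheory ProbabilityTheory
open scoped ENNReal Classical

noncomputable section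

namespace MP4fb

private theorem CoreA_beta (d : ℕ) (I θ : ℝ) (hθ : 0 < θ) :
    ∃ β : ℝ, 0 < β ∧ β ≤ 1 / 2 ∧ (I + θ / 2) * (1 / (1 - β)) ^ d < I + θ := by
  have h1 : Filter.Tendsto (fun β : ℝ => (I + θ / 2) * (1 / (1 - β)) ^ d) (nhds 0)
      (nhds ((I + θ / 2) * (1 / (1 - 0)) ^ d)) := by
    apply ContinuousAt.tendsto
    have : (1 : ℝ) - 0 ≠ 0 := by norm_num
    fun_prop (disch := assumption)
  have h2 : (I + θ / 2) * (1 / (1 - 0)) ^ d < I + θ := by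
    simp only [sub_zero, div_one, one_pow, mul_one]
    linarith
  have h3 := h1.eventually (gt_mem_nhds h2)
  obtain ⟨ε, hε, hb⟩ := Metric.eventually_nhds_iff.1 h3
  refine ⟨min (ε / 2) (1 / 2), lt_min (by linarith) (by norm_num), min_le_right _ _, hb ?_⟩
  rw [Real.dist_eq, sub_zero, abs_of_nonneg (le_min (by linarith) (by norm_num))]
  exact lt_of_le_of_lt (min_le_left _ _) (by linarith)

private theorem CoreA_md (d : ℕ) (hd : 2 ≤ d) (A θ : ℝ) (hθ : 0 < θ) :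
    ∃ md : ℕ, (2 * (2 : ℝ)⁻¹ ^ md) ^ d * A ≤ θ / 8 := by
  have h0 : Filter.Tendsto (fun m : ℕ => ((2 : ℝ)⁻¹) ^ m) Filter.atTop (nhds 0) :=
    tendsto_pow_atTop_nhds_zero_of_lt_one (by norm_num) (by norm_num)
  have h1 : Filter.Tendsto (fun m : ℕ => (2 * (2 : ℝ)⁻¹ ^ m) ^ d * A) Filter.atTop
      (nhds ((2 * 0) ^ d * A)) := ((h0.const_mul 2).pow d).mul_const A
  have h2 : (2 * (0 : ℝ)) ^ d * A < θ / 8 := by
    rw [mul_zero, zero_pow (by omega), zero_mul]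
    linarith
  obtain ⟨m, hm⟩ := (h1.eventually (gt_mem_nhds h2)).exists
  exact ⟨m, hm.le⟩

private theorem CoreA_bmin (d : ℕ) (hd : 2 ≤ d) (θ : ℝ) (hθ : 0 < θ) :
    ∃ b : ℝ, 1 ≤ b ∧ 2 ^ d * Real.log 2 / b ^ d ≤ θ / 8 := by
  have hlog : 0 < Real.log 2 := Real.log_pos (by norm_num)
  refine ⟨max 1 (2 ^ d * Real.log 2 * 8 / θ), le_max_left _ _, ?_⟩
  set b := max 1 (2 ^ d * Real.log 2 * 8 / θ) with hb
  have hb1 : 1 ≤ b := le_max_left _ _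
  have hb2 : 2 ^ d * Real.log 2 * 8 / θ ≤ b := le_max_right _ _
  have hb3 : b ≤ b ^ d := le_self_pow₀ hb1 (by omega)
  rw [div_le_iff₀ (by positivity)]
  rw [div_le_iff₀ hθ] at hb2
  nlinarith

/-- a small number -/
private theorem CoreA_small (A η : ℝ) (hA : 0 ≤ A) (hη : 0 < η) (M : ℝ) (hM : 0 < M) :
    ∃ x : ℝ, 0 < x ∧ x ≤ M ∧ x * A ≤ η := by
  refine ⟨min M (η / (A + 1)), lt_min hM (by positivity), min_le_left _ _, ?_⟩
  have h1 : min M (η / (A + 1)) * A ≤ η / (A + 1) * A :=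
    mul_le_mul_of_nonneg_right (min_le_right _ _) hA
  refine h1.trans ?_
  rw [div_mul_eq_mul_div, div_le_iff₀ (by positivity)]
  nlinarith

private theorem CoreA_nv (ν : Measure ℝ) (δ0 : ℝ) (hδ : ν (Set.Ici δ0) ≠ ∞) (mst η : ℝ)
    (hm : 0 < mst) (hη : 0 < η) :
    ∃ nv : ℕ, 1 ≤ nv ∧ (ν (Set.Ici (δ0 + nv * mst))).toReal ≤ η := by
  have h1 : Filter.Tendsto (ν ∘ fun n : ℕ => Set.Ici (δ0 + n * mst)) Filter.atTop
      (nhds (ν (⋂ n : ℕ, Set.Ici (δ0 + n * mst)))) := by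
    apply tendsto_measure_iInter_atTop
    · exact fun n => measurableSet_Ici.nullMeasurableSet
    · intro m n hmn
      apply Set.Ici_subset_Ici.2
      have : (m : ℝ) ≤ n := by exact_mod_cast hmn
      nlinarith
    · exact ⟨0, by simpa using hδ⟩
  have h2 : (⋂ n : ℕ, Set.Ici (δ0 + n * mst)) = ∅ := by
    apply Set.eq_empty_of_forall_notMem
    intro x hx
    obtain ⟨n, hn⟩ := exists_nat_gt ((x - δ0) / mst)
    rw [Set.mem_iInter] at hx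
    have := hx n
    rw [Set.mem_Ici] at this
    rw [div_lt_iff₀ hm] at hn
    linarith
  rw [h2, measure_empty] at h1
  have h3 : Filter.Tendsto (fun n : ℕ => (ν (Set.Ici (δ0 + n * mst))).toReal) Filter.atTop
      (nhds (0 : ℝ)) := by
    have h4 := (ENNReal.tendsto_toReal ENNReal.zero_ne_top).comp h1
    rw [ENNReal.toReal_zero] at h4
    exact h4
  obtain ⟨n, hn1, hn2⟩ := ((h3.eventually (gt_mem_nhds hη)).and
    (Filter.eventually_ge_atTop 1)).exists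
  exact ⟨n, hn2, hn1.le⟩

private theorem CoreA_np (d : ℕ) (εu β γ I θ : ℝ) (hε : 0 < εu) (hγ : 0 < γ)
    (hβ : β ≤ 1 / 2) (hI : (I + θ / 2) * (1 / (1 - β)) ^ d < I + θ) :
    ∃ (np : ℕ) (c : ℝ), 1 ≤ np ∧ 0 < c ∧ c < 1 ∧
      (1 + 2 * (d / (np * εu))) ^ 2 / (1 - c) * (1 - γ) ≤ 1 - γ / 2 ∧
      (I * ((1 + 2 * (d / (np * εu))) / (1 - c)) ^ d + θ / 2) *
        ((1 + 2 * (d / (np * εu))) / (1 - β)) ^ d < I + θ := by
  have hK : Filter.Tendsto (fun n : ℕ => 1 + 2 * ((d : ℝ) / (((n + 1 : ℕ) : ℝ) * εu)))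
      Filter.atTop (nhds 1) := by
    have h1 : Filter.Tendsto (fun n : ℕ => ((n + 1 : ℕ) : ℝ) * εu) Filter.atTop Filter.atTop := by
      apply Filter.Tendsto.atTop_mul_const hε
      exact (tendsto_natCast_atTop_atTop (R := ℝ)).comp (Filter.tendsto_add_atTop_nat 1)
    have h2 := (h1.const_div_atTop (d : ℝ)).const_mul 2
    have h3 := h2.const_add 1
    simpa using h3
  have hc : Filter.Tendsto (fun n : ℕ => (1 : ℝ) / ((n : ℝ) + 2)) Filter.atTop (nhds 0) := by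
    have h1 : Filter.Tendsto (fun n : ℕ => (n : ℝ) + 2) Filter.atTop Filter.atTop :=
      Filter.tendsto_atTop_add_const_right _ _ tendsto_natCast_atTop_atTop
    exact h1.const_div_atTop 1
  have h1c := hc.const_sub 1
  rw [sub_zero] at h1c
  have hg1 : Filter.Tendsto (fun n : ℕ => (1 + 2 * ((d : ℝ) / (((n + 1 : ℕ) : ℝ) * εu))) ^ 2 /
      (1 - 1 / ((n : ℝ) + 2)) * (1 - γ)) Filter.atTop (nhds (1 ^ 2 / 1 * (1 - γ))) :=
    ((hK.pow 2).div h1c one_ne_zero).mul_const _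
  have hg2 : Filter.Tendsto (fun n : ℕ =>
      (I * ((1 + 2 * ((d : ℝ) / (((n + 1 : ℕ) : ℝ) * εu))) / (1 - 1 / ((n : ℝ) + 2))) ^ d + θ / 2) *
        ((1 + 2 * ((d : ℝ) / (((n + 1 : ℕ) : ℝ) * εu))) / (1 - β)) ^ d) Filter.atTop
      (nhds ((I * (1 / 1) ^ d + θ / 2) * (1 / (1 - β)) ^ d)) :=
    ((((hK.div h1c one_ne_zero).pow d).const_mul I).add_const _).mul
      ((hK.div_const _).pow d)
  have e1 : (1 : ℝ) ^ 2 / 1 * (1 - γ) < 1 - γ / 2 := by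
    norm_num
    linarith
  have e2 : (I * ((1 : ℝ) / 1) ^ d + θ / 2) * (1 / (1 - β)) ^ d < I + θ := by
    rw [div_one, one_pow, mul_one]
    exact hI
  obtain ⟨n, hn1, hn2⟩ := ((hg1.eventually (gt_mem_nhds e1)).and
    (hg2.eventually (gt_mem_nhds e2))).exists
  refine ⟨n + 1, 1 / ((n : ℝ) + 2), by omega, by positivity, ?_, hn1.le, hn2⟩
  rw [div_lt_one (by positivity)]
  have : (0 : ℝ) ≤ n := Nat.cast_nonneg n
  linarith

theorem exists_par (d : ℕ) (hd : 2 ≤ d) (ν : Measure ℝ) (hν : ν (Set.Iic 0) = 0)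
    (hfin : ∀ t : ℝ, 0 < t → ν (Set.Ici t) ≠ ∞) (SDp : ℝ → ℝ → ℝ → Prop)
    (hS : ∀ ε : ℝ, 0 < ε → ∃ δ1 : ℝ, 0 < δ1 ∧ ∀ δ : ℝ, 0 < δ → δ ≤ δ1 → ∀ b : ℝ, 1 ≤ b →
      SDp δ b ε)
    (ζ I θ : ℝ) (hζ : 0 < ζ) (hI : 0 ≤ I) (hθ : 0 < θ) :
    ∃ (β c r0 τ0 e1 e2 bmin : ℝ) (md : ℕ) (P : DP),
      ParOk d ν SDp ζ I θ β c r0 τ0 e1 e2 bmin md P ∧ (ν Set.univ ≠ ∞ → P.δ0 = 0) := by
  obtain ⟨β, hβ0, hβ1, hβ2⟩ := CoreA_beta d I θ hθ
  set e2 : ℝ := ζ * β / (8 * 3 ^ d) with he2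
  have he2p : 0 < e2 := by positivity
  -- the threshold `τ0`
  obtain ⟨τ0, hτ⟩ : ∃ τ0 : ℝ, (τ0 = 0 ∧ ν Set.univ ≠ ∞) ∨ (0 < τ0 ∧ ν Set.univ = ∞ ∧
      ∀ b : ℝ, 1 ≤ b → SDp τ0 b e2) := by
    by_cases h : ν Set.univ = ∞
    · obtain ⟨δ1, hδ1, h1⟩ := hS e2 he2p
      exact ⟨δ1, Or.inr ⟨hδ1, h, fun b hb => h1 δ1 hδ1 le_rfl b hb⟩⟩
    · exact ⟨0, Or.inl ⟨rfl, h⟩⟩
  obtain ⟨md, hmd⟩ := CoreA_md d hd (ν (Set.Ici τ0)).toReal θ hθ
  set γ : ℝ := β * 2⁻¹ ^ md / 16 with hγ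
  have hγ0 : 0 < γ := by positivity
  set e1 : ℝ := ζ * γ / (16 * 3 ^ d) with he1
  have he1p : 0 < e1 := by positivity
  obtain ⟨δ0, hδ0, hcase⟩ : ∃ δ0 : ℝ, 0 ≤ δ0 ∧ ((δ0 = 0 ∧ τ0 = 0 ∧ ν Set.univ ≠ ∞) ∨
      (0 < δ0 ∧ δ0 ≤ τ0 ∧ ν Set.univ = ∞ ∧ ∀ b, 1 ≤ b → SDp δ0 b e1 ∧ SDp τ0 b e2)) := by
    rcases hτ with ⟨h1, h2⟩ | ⟨h1, h2, h3⟩
    · exact ⟨0, le_rfl, Or.inl ⟨rfl, h1, h2⟩⟩
    · obtain ⟨δ1, hδ1, h4⟩ := hS e1 he1p
      refine ⟨min τ0 δ1, (lt_min h1 hδ1).le, Or.inr ⟨lt_min h1 hδ1, min_le_left _ _, h2, ?_⟩⟩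
      exact fun b hb => ⟨h4 _ (lt_min h1 hδ1) (min_le_right _ _) b hb, h3 b hb⟩
  have hnu1 : ν (Set.Ici δ0) ≠ ∞ := by
    rcases hcase with ⟨_, _, h3⟩ | ⟨h1, _, _, _⟩
    · exact ne_top_of_le_ne_top h3 (measure_mono (Set.subset_univ _))
    · exact hfin _ h1
  have hnu2 : ν (Set.Ici τ0) ≠ ∞ := by
    rcases hcase with ⟨_, _, h3⟩ | ⟨h1, h2, _, _⟩
    · exact ne_top_of_le_ne_top h3 (measure_mono (Set.subset_univ _))
    · exact hfin _ (h1.trans_le h2)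
  set a : ℝ := (ν (Set.Ici δ0)).toReal with ha
  have ha0 : 0 ≤ a := ENNReal.toReal_nonneg
  obtain ⟨bmin, hb1, hb2⟩ := CoreA_bmin d hd θ hθ
  obtain ⟨εu, hε0, hε1, hε2⟩ := CoreA_small (2 ^ d * (2 * d * a)) (θ / 32) (by positivity)
    (by positivity) (1 / 4) (by norm_num)
  obtain ⟨r0, hr0, hr1, hr2⟩ := CoreA_small (a + 2 ^ d * a ^ 2) (min 1 (θ / 32)) (by positivity)
    (lt_min one_pos (by positivity)) 1 one_pos
  set mst : ℝ := ζ * γ / 8 * (εu * (r0 / 2)) with hmst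
  have hmst0 : 0 < mst := by positivity
  obtain ⟨nv, hnv1, hnv2⟩ := CoreA_nv ν δ0 hnu1 mst (θ / (32 * 2 ^ d)) hmst0 (by positivity)
  obtain ⟨np, c, hnp, hc0, hc1, hgain, hexpo⟩ := CoreA_np d εu β γ I θ hε0 hγ0 hβ1 hβ2
  refine ⟨β, c, r0, τ0, e1, e2, bmin, md, ⟨np, nv, εu, δ0, mst⟩, ?_, ?_⟩
  · have hPok : (DP.Ok ⟨np, nv, εu, δ0, mst⟩) := ⟨hnp, hnv1, hε0, hε1, hδ0, hmst0⟩
    refine ⟨⟨hβ0, hβ1⟩, ⟨hc0, hc1⟩, hPok, hr0, hb1, he1p, he2p, ?_, hnu1, hnu2, ?_, ?_, hmd, hb2,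
      ?_, ?_, ?_, ?_⟩
    · rcases hcase with ⟨h1, h2, h3⟩ | ⟨h1, h2, _, h4⟩
      · exact Or.inl ⟨h1, h2, h3⟩
      · exact Or.inr ⟨h1, h2, h4⟩
    · rw [he2]
      have h3 : (0 : ℝ) < 3 ^ d := by positivity
      apply le_of_eq
      field_simp
      norm_num
    · intro r hr hrr
      have hrd : r ^ d ≤ r0 ^ d := pow_le_pow_left₀ hr.le hrr d
      have hr0d : r0 ^ d ≤ r0 := by
        calc r0 ^ d ≤ r0 ^ 1 := pow_le_pow_of_le_one hr0.le hr1 (by omega)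
          _ = r0 := pow_one _
      have hrr0 : r ^ d ≤ r0 := hrd.trans hr0d
      have hrdpos : 0 < r ^ d := by positivity
      have hlamT : lamT ⟨np, nv, εu, δ0, mst⟩ ν d r = r ^ d * a := rfl
      have hsum := (sum_lam (d := d) ν ⟨np, nv, εu, δ0, mst⟩ hPok hnu1 r hr).2
      have hA1 : r0 * (a + 2 ^ d * a ^ 2) ≤ 1 := hr2.trans (min_le_left _ _)
      have hA2 : r0 * (a + 2 ^ d * a ^ 2) ≤ θ / 32 := hr2.trans (min_le_right _ _)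
      have hB1 : r ^ d * a ≤ 1 := by
        have h1 : r ^ d * a ≤ r0 * a := mul_le_mul_of_nonneg_right hrr0 ha0
        have h2 : 0 ≤ r0 * (2 ^ d * a ^ 2) := by positivity
        nlinarith
      have hB2 : 2 ^ d * (r ^ d * a ^ 2) ≤ θ / 32 := by
        have h1 : 2 ^ d * (r ^ d * a ^ 2) ≤ 2 ^ d * (r0 * a ^ 2) := by gcongr
        have h2 : 0 ≤ r0 * a := by positivity
        nlinarith
      refine ⟨by rw [hlamT]; exact hB1, ?_⟩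
      have h2d : (0 : ℝ) < 2 ^ d := by positivity
      calc 2 ^ d * (lamT ⟨np, nv, εu, δ0, mst⟩ ν d r ^ 2 + (lamT ⟨np, nv, εu, δ0, mst⟩ ν d r -
            ∑ x, lamA ⟨np, nv, εu, δ0, mst⟩ ν d r x))
          ≤ 2 ^ d * ((r ^ d * a) ^ 2 + r ^ d * ((ν (Set.Ici (δ0 + nv * mst))).toReal +
              2 * d * εu * a)) := by
            rw [hlamT]
            rw [hlamT] at hsum
            gcongr
        _ = r ^ d * (2 ^ d * (r ^ d * a ^ 2) + 2 ^ d * (ν (Set.Ici (δ0 + nv * mst))).toReal +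
              εu * (2 ^ d * (2 * d * a))) := by ring
        _ ≤ r ^ d * (θ / 32 + θ / 32 + θ / 32) := by
            have h3 : 2 ^ d * (ν (Set.Ici (δ0 + nv * mst))).toReal ≤ θ / 32 := by
              calc 2 ^ d * (ν (Set.Ici (δ0 + nv * mst))).toReal ≤ 2 ^ d * (θ / (32 * 2 ^ d)) := by
                    gcongr
                _ = θ / 32 := by field_simp
            exact mul_le_mul_of_nonneg_left (add_le_add (add_le_add hB2 h3) hε2) hrdpos.le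
        _ ≤ θ / 8 * r ^ d := by
            have h4 : r ^ d * (θ / 32 + θ / 32 + θ / 32) = 3 / 4 * (θ / 8 * r ^ d) := by ring
            have h5 : 0 ≤ θ / 8 * r ^ d := mul_nonneg (by linarith) hrdpos.le
            rw [h4]
            linarith
    · show KP d ⟨np, nv, εu, δ0, mst⟩ ^ 2 / (1 - c) * (1 - β * 2⁻¹ ^ md / 16) ≤
        1 - β * 2⁻¹ ^ md / 32
      have h1 : (1 : ℝ) - β * 2⁻¹ ^ md / 32 = 1 - γ / 2 := by rw [hγ]; ring
      rw [h1]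
      exact hgain
    · show mst / (εu * (r0 / 2)) ≤ ζ * (β * 2⁻¹ ^ md / 16) / 8
      rw [hmst, ← hγ]
      have h1 : 0 < εu * (r0 / 2) := by positivity
      rw [mul_div_assoc, div_self h1.ne', mul_one]
    · rw [he1, ← hγ]
      have h3 : (0 : ℝ) < 3 ^ d := by positivity
      apply le_of_eq
      field_simp
      norm_num
    · exact hexpo
  · intro h
    rcases hcase with ⟨h1, _, _⟩ | ⟨_, _, h3, _⟩
    · exact h1
    · exact absurd h3 h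

end MP4fb

end
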