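import Pool.Agent.Lib.MP_4fbc34_pr.DisDef

/-!
The list of all the inequalities between the parameters of the final argument.
-/

set_option autoImplicit false

open MeasureTheory ProbabilityTheory
open scoped ENNReal Classical

noncomputable section

namespace MP4fb

/-- Lipschitz constant of the comparison map -/
def KP (d : ℕ) (P : DP) : ℝ := 1 + 2 * (d / (P.np * P.εu))

/-- All the conditions on the parameters.  `SDp δ b e` stands for `SmallData μ Ξ δ b e`. -/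
structure ParOk (d : ℕ) (ν : Measure ℝ) (SDp : ℝ → ℝ → ℝ → Prop) (ζ I θ : ℝ)
    (β c r0 τ0 e1 e2 bmin : ℝ) (md : ℕ) (P : DP) : Prop where
  beta : 0 < β ∧ β ≤ 1 / 2
  c01 : 0 < c ∧ c < 1
  Pok : P.Ok
  r0pos : 0 < r0
  b1 : 1 ≤ bmin
  e1pos : 0 < e1
  e2pos : 0 < e2
  case : (P.δ0 = 0 ∧ τ0 = 0 ∧ ν Set.univ ≠ ∞) ∨
    (0 < P.δ0 ∧ P.δ0 ≤ τ0 ∧ ∀ b, 1 ≤ b → SDp P.δ0 b e1 ∧ SDp τ0 b e2)
  nu1 : ν (Set.Ici P.δ0) ≠ ∞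
  nu2 : ν (Set.Ici τ0) ≠ ∞
  rate2 : 2 * (3 ^ d * e2) ≤ ζ * β / 4
  lam1 : ∀ r, 0 < r → r ≤ r0 → lamT P ν d r ≤ 1 ∧
    2 ^ d * (lamT P ν d r ^ 2 + (lamT P ν d r - ∑ a, lamA P ν d r a)) ≤ θ / 8 * r ^ d
  dead : (2 * 2⁻¹ ^ md) ^ d * (ν (Set.Ici τ0)).toReal ≤ θ / 8
  cube : 2 ^ d * Real.log 2 / bmin ^ d ≤ θ / 8
  gain : KP d P ^ 2 / (1 - c) * (1 - β * 2⁻¹ ^ md / 16) ≤ 1 - β * 2⁻¹ ^ md / 32
  rnd : P.mst / (P.εu * (r0 / 2)) ≤ ζ * (β * 2⁻¹ ^ md / 16) / 8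
  rate1 : 2 * (3 ^ d * e1) ≤ ζ * (β * 2⁻¹ ^ md / 16) / 8
  expo : (I * (KP d P / (1 - c)) ^ d + θ / 2) * (KP d P / (1 - β)) ^ d < I + θ

end MP4fb

end
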