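import Pool.Agent.Lib.MP_4fbc34_pr.Base

/-!
JOB Cube: cubes in Euclidean space and their volumes.  `E d = EuclideanSpace ℝ (Fin d)`; the volume is the
pull back of the product measure (`EuclideanSpace.volume_preserving_measurableEquiv` or the current name),
under which `cube c r` is a product of intervals (`Real.volume_pi_Ico`).
`cube_shift`: `cube (c + y) r \ cube c r` is contained in the union over `i` of the points of
`cube (c + y) r` whose `i`-th coordinate is outside `[c i, c i + r)`, a box with one side at most `|y i|`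
and the others `r`; `|y i| <= ‖y‖`; same for the other difference; the integral over the symmetric
difference is at most `B` times its volume.  (If the interval is longer than `r` the bound is trivial.)
-/

set_option autoImplicit false

open MeasureTheory
open scoped ENNReal

noncomputable section

namespace MP4fb

variable {d : ℕ}

/-- half open cube with corner `c` and side `r` -/
def cube (c : E d) (r : ℝ) : Set (E d) := {x | ∀ i, c i ≤ x i ∧ x i < c i + r}

/-- the cell of index `z` of the grid of mesh `2⁻ⁿ` -/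
def cell (n : ℕ) (z : Fin d → ℤ) : Set (E d) :=
  {x | ∀ i, (z i : ℝ) * 2⁻¹ ^ n ≤ x i ∧ x i < ((z i : ℝ) + 1) * 2⁻¹ ^ n}

/-- indices of the cells of `[-1, 1)^d` -/
def zbox (d n : ℕ) : Finset (Fin d → ℤ) := Fintype.piFinset (fun _ => Finset.Ico (-2 ^ n) (2 ^ n))

theorem meas_cube (c : E d) (r : ℝ) : MeasurableSet (cube c r) := by
  have h : cube c r = ⋂ i, {x : E d | c i ≤ x i ∧ x i < c i + r} := by
    ext x; simp [cube]
  rw [h]
  refine MeasurableSet.iInter fun i => ?_
  have hx : Measurable (fun x : E d => x i) := by fun_prop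
  exact (measurableSet_le measurable_const hx).inter (measurableSet_lt hx measurable_const)

/-- box -/
private theorem cube_vol_box (l u : Fin d → ℝ) :
    volume {x : E d | ∀ i, l i ≤ x i ∧ x i < u i} = ∏ i, ENNReal.ofReal (u i - l i) := by
  have h : {x : E d | ∀ i, l i ≤ x i ∧ x i < u i} =
      (fun x : E d => WithLp.ofLp x) ⁻¹' (Set.pi Set.univ fun i => Set.Ico (l i) (u i)) := by
    ext x; simp [Set.mem_pi]
  rw [h, (PiLp.volume_preserving_ofLp (Fin d)).measure_preimage
    (MeasurableSet.univ_pi fun i => measurableSet_Ico).nullMeasurableSet, Real.volume_pi_Ico]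

theorem vol_cube (c : E d) (r : ℝ) (hr : 0 ≤ r) (hd : 1 ≤ d) :
    volume (cube c r) = ENNReal.ofReal (r ^ d) := by
  have h := cube_vol_box (fun i => c i) (fun i => c i + r)
  rw [show cube c r = {x : E d | ∀ i, c i ≤ x i ∧ x i < c i + r} from rfl, h]
  simp [ENNReal.ofReal_pow hr]

theorem cell_eq_cube (n : ℕ) (z : Fin d → ℤ) : ∃ c : E d, cell n z = cube c (2⁻¹ ^ n) := by
  refine ⟨WithLp.toLp 2 (fun i => (z i : ℝ) * 2⁻¹ ^ n), ?_⟩
  ext x
  simp only [cell, cube, Set.mem_setOf_eq]
  refine forall_congr' fun i => ?_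
  rw [add_mul, one_mul]

theorem cube_translate (c y : E d) (r : ℝ) (f : E d → ℝ) :
    ∫ x in cube c r, f (x + y) = ∫ x in cube (c + y) r, f x := by
  have h := (measurePreserving_add_right (volume : Measure (E d)) y).setIntegral_preimage_emb
    (measurableEmbedding_addRight y) f (cube (c + y) r)
  rw [← h]
  congr 2
  ext x
  simp only [cube, Set.mem_preimage, Set.mem_setOf_eq, PiLp.add_apply]
  refine forall_congr' fun i => ?_
  constructor
  · rintro ⟨h1, h2⟩; exact ⟨by linarith, by linarith⟩
  · rintro ⟨h1, h2⟩; exact ⟨by linarith, by linarith⟩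

private theorem cube_abs_le_norm (y : E d) (i : Fin d) : |y i| ≤ ‖y‖ := by
  simpa using PiLp.norm_apply_le y i

private theorem cube_diff_vol (hd : 1 ≤ d) (c y : E d) (r : ℝ) (hr : 0 < r) :
    volume (cube (c + y) r \ cube c r) ≤ ENNReal.ofReal (d * r ^ (d - 1) * ‖y‖) := by
  classical
  let l : Fin d → Fin d → ℝ := fun i j => if j = i then (if 0 ≤ y i then c i + r else c i + y i)
    else c j + y j
  let u : Fin d → Fin d → ℝ := fun i j => if j = i then (if 0 ≤ y i then c i + y i + r else c i)
    else c j + y j + r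
  have hsub : cube (c + y) r \ cube c r ⊆ ⋃ i, {x : E d | ∀ j, l i j ≤ x j ∧ x j < u i j} := by
    rintro x ⟨h1, h2⟩
    simp only [cube, Set.mem_setOf_eq, PiLp.add_apply] at h1 h2
    push Not at h2
    obtain ⟨i, hi⟩ := h2
    rw [Set.mem_iUnion]
    refine ⟨i, ?_⟩
    intro j
    by_cases hj : j = i
    · subst hj
      simp only [l, u, if_true]
      have h3 := h1 j
      split_ifs with h4
      · exact ⟨hi (by linarith), by linarith⟩
      · refine ⟨by linarith, ?_⟩
        by_contra h5
        push Not at h5 h4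
        have := hi h5
        linarith
    · simp only [l, u, if_neg hj]
      exact h1 j
  refine (measure_mono hsub).trans ((measure_iUnion_fintype_le _ _).trans ?_)
  have hterm : ∀ i : Fin d, volume {x : E d | ∀ j, l i j ≤ x j ∧ x j < u i j} ≤
      ENNReal.ofReal (r ^ (d - 1) * ‖y‖) := by
    intro i
    rw [cube_vol_box, ← Finset.mul_prod_erase Finset.univ _ (Finset.mem_univ i)]
    have h1 : u i i - l i i = |y i| := by
      simp only [l, u, if_true]
      split_ifs with h
      · rw [abs_of_nonneg h]; ring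
      · rw [abs_of_neg (not_le.mp h)]; ring
    have h2 : ∏ j ∈ Finset.univ.erase i, ENNReal.ofReal (u i j - l i j) =
        ENNReal.ofReal r ^ (d - 1) := by
      rw [Finset.prod_congr rfl (g := fun _ => ENNReal.ofReal r)]
      · rw [Finset.prod_const, Finset.card_erase_of_mem (Finset.mem_univ i)]
        simp
      · intro j hj
        have hji : j ≠ i := Finset.ne_of_mem_erase hj
        simp only [l, u, if_neg hji]
        congr 1; ring
    rw [h1, h2, ← ENNReal.ofReal_pow hr.le, ← ENNReal.ofReal_mul (abs_nonneg _)]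
    apply ENNReal.ofReal_le_ofReal
    rw [mul_comm]
    exact mul_le_mul_of_nonneg_left (cube_abs_le_norm y i) (pow_nonneg hr.le _)
  refine (Finset.sum_le_sum fun i _ => hterm i).trans ?_
  rw [Finset.sum_const, Finset.card_univ, Fintype.card_fin, nsmul_eq_mul]
  rw [mul_assoc, ENNReal.ofReal_mul (Nat.cast_nonneg d), ENNReal.ofReal_natCast]

private theorem cube_int_on (f : E d → ℝ) (B : ℝ) (hf : Measurable f) (h0 : ∀ x, 0 ≤ f x)
    (hB : ∀ x, f x ≤ B) (s : Set (E d)) (hs : volume s ≠ ∞) : IntegrableOn f s := by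
  refine Measure.integrableOn_of_bounded (M := B) hs hf.aestronglyMeasurable ?_
  filter_upwards with x
  rw [Real.norm_eq_abs, abs_of_nonneg (h0 x)]
  exact hB x

theorem cube_shift (hd : 1 ≤ d) (f : E d → ℝ) (B : ℝ) (hf : Measurable f) (h0 : ∀ x, 0 ≤ f x)
    (hB : ∀ x, f x ≤ B) (c y : E d) (r : ℝ) (hr : 0 < r) :
    |(∫ x in cube (c + y) r, f x) - ∫ x in cube c r, f x| ≤ 2 * d * B * r ^ (d - 1) * ‖y‖ := by
  have hB0 : 0 ≤ B := (h0 0).trans (hB 0)
  have hfin : ∀ c : E d, volume (cube c r) ≠ ∞ := fun c => by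
    rw [vol_cube c r hr.le hd]; exact ENNReal.ofReal_ne_top
  have key : ∀ A C : Set (E d), MeasurableSet A → MeasurableSet C → volume A ≠ ∞ → volume C ≠ ∞ →
      ∀ K : ℝ, 0 ≤ K → volume (A \ C) ≤ ENNReal.ofReal K →
      (∫ x in A, f x) - ∫ x in C, f x ≤ B * K := by
    intro A C hA hC hAf hCf K hK hv
    have iA : IntegrableOn f A := cube_int_on f B hf h0 hB A hAf
    have iC : IntegrableOn f C := cube_int_on f B hf h0 hB C hCf
    have h1 : ∫ x in A, f x = (∫ x in A ∩ C, f x) + ∫ x in A \ C, f x :=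
      (integral_inter_add_sdiff hC iA).symm
    have h2 : ∫ x in A ∩ C, f x ≤ ∫ x in C, f x :=
      setIntegral_mono_set iC (Filter.Eventually.of_forall h0)
        (Filter.Eventually.of_forall fun x hx => hx.2)
    have h3 : ∫ x in A \ C, f x ≤ B * K := by
      have hfd : volume (A \ C) ≠ ∞ := ne_top_of_le_ne_top hAf (measure_mono Set.diff_subset)
      have h4 : ∫ x in A \ C, f x ≤ ∫ x in A \ C, B :=
        setIntegral_mono_on (iA.mono_set Set.diff_subset)
          (integrableOn_const hfd) (hA.diff hC) fun x _ => hB x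
      refine h4.trans ?_
      rw [setIntegral_const, smul_eq_mul, mul_comm]
      refine mul_le_mul_of_nonneg_left ?_ hB0
      exact ENNReal.toReal_le_of_le_ofReal hK hv
    linarith
  have hK : 0 ≤ (d : ℝ) * r ^ (d - 1) * ‖y‖ := by positivity
  have h1 := key _ _ (meas_cube (c + y) r) (meas_cube c r) (hfin _) (hfin _) _ hK
    (cube_diff_vol hd c y r hr)
  have h2v : volume (cube c r \ cube (c + y) r) ≤ ENNReal.ofReal (d * r ^ (d - 1) * ‖y‖) := by
    have := cube_diff_vol hd (c + y) (-y) r hr
    rwa [add_neg_cancel_right, norm_neg] at this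
  have h2 := key _ _ (meas_cube c r) (meas_cube (c + y) r) (hfin _) (hfin _) _ hK h2v
  have h3 : B * (d * r ^ (d - 1) * ‖y‖) ≤ 2 * d * B * r ^ (d - 1) * ‖y‖ := by
    have : 0 ≤ B * (d * r ^ (d - 1) * ‖y‖) := mul_nonneg hB0 hK
    nlinarith
  rw [abs_le]
  constructor <;> linarith

/-- every point of `[-1, 1)^d` is in exactly one cell with index in `zbox` -/
theorem cell_unique (n : ℕ) (z z' : Fin d → ℤ) (x : E d) (h : x ∈ cell n z) (h' : x ∈ cell n z') :
    z = z' := by
  have hp : (0 : ℝ) < 2⁻¹ ^ n := by positivity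
  have key : ∀ w : Fin d → ℤ, x ∈ cell n w → ∀ i, w i = ⌊x i / 2⁻¹ ^ n⌋ := by
    intro w hw i
    symm
    rw [Int.floor_eq_iff]
    exact ⟨(le_div_iff₀ hp).2 (hw i).1, (div_lt_iff₀ hp).2 (hw i).2⟩
  funext i
  rw [key z h i, key z' h' i]

theorem card_zbox (d n : ℕ) : (zbox d n).card = (2 ^ (n + 1)) ^ d := by
  rw [zbox, Fintype.card_piFinset]
  simp only [Int.card_Ico, Finset.prod_const, Finset.card_univ, Fintype.card_fin]
  congr 1
  rw [sub_neg_eq_add, ← two_mul, ← pow_succ']
  norm_cast

/-- finite grids: an `r`-net of points -/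
theorem exists_grid (d : ℕ) (R r : ℝ) (hr : 0 < r) : ∃ G : Finset (E d),
    (∀ x : E d, ‖x‖ ≤ R → ∃ a ∈ G, ‖x - a‖ ≤ r) := by
  obtain ⟨t, -, ht, hc⟩ := (isCompact_closedBall (0 : E d) R).finite_cover_balls hr
  refine ⟨ht.toFinset, fun x hx => ?_⟩
  have hx' : x ∈ Metric.closedBall (0 : E d) R := by simpa using hx
  obtain ⟨a, ha, hxa⟩ := Set.mem_iUnion₂.1 (hc hx')
  refine ⟨a, by simpa using ha, ?_⟩
  rw [Metric.mem_ball, dist_eq_norm] at hxa
  exact hxa.le

end MP4fb

end
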