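import Pool.Agent.Lib.MP_4fbc34_pr.Cube

/-!
JOB Dens: existence of a density for the limits of integrals over cubes.

Work in the Hilbert space `H = L²(μ)`, `μ = volume.restrict (cube c0 R)` (a finite measure).  Let `𝒰` be an
ultrafilter below `𝓝[>] 0` on `ℝ` (`Ultrafilter.of`).  For `f ∈ H` the family `s ↦ ∫ f φ_s dμ` is bounded by
`B ‖f‖_1 <= B' ‖f‖_2` (for `s > 0`), so it has a limit `Λ f` along `𝒰` (compactness).  `Λ` is linear and
bounded, so `Λ f = ⟪h, f⟫` for some `h ∈ H` (`InnerProductSpace.toDual`).  For a measurable set `A` and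
`f = 1_A`: `0 <= Λ f <= B μ(A)`, so `0 <= h <= B` almost everywhere; modify `h` on a null set
(and outside the cube put `h = 0`; take a measurable representative and `max 0 (min B h)`).  For a cube
`cube c r ⊆ cube c0 R` take `f = 1_{cube c r}`: the limit along `𝒰` is `∫_{cube c r} h`, and since the limit
along `𝓝[>] 0` exists it is the same.
(Other proofs are fine, for example with Radon-Nikodym derivatives.)
-/

set_option autoImplicit false

open MeasureTheory Filter Topology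
open scoped ENNReal

noncomputable section

namespace MP4fb

variable {d : ℕ}

private lemma Dens_vol_lt (c : E d) (R : ℝ) : volume (cube c R) < ∞ := by
  have hb : Bornology.IsBounded (cube c R) := by
    refine (Metric.isBounded_closedBall (x := c) (r := Real.sqrt (d * R ^ 2))).subset ?_
    intro x hx
    rw [Metric.mem_closedBall, dist_eq_norm, EuclideanSpace.norm_eq]
    refine Real.sqrt_le_sqrt ?_
    calc ∑ i, ‖(x - c) i‖ ^ 2 ≤ ∑ _i : Fin d, R ^ 2 := by
          refine Finset.sum_le_sum fun i _ => ?_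
          have h1 : (x - c) i = x i - c i := rfl
          have h2 := hx i
          rw [h1, Real.norm_of_nonneg (by linarith)]
          exact pow_le_pow_left₀ (by linarith) (by linarith) 2
      _ = d * R ^ 2 := by simp
  exact hb.measure_lt_top

theorem density (B : ℝ) (hB : 0 ≤ B) (φ : ℝ → E d → ℝ) (hm : ∀ s, Measurable (φ s))
    (h0 : ∀ s, 0 < s → ∀ x, 0 ≤ φ s x) (h1 : ∀ s, 0 < s → ∀ x, φ s x ≤ B) (c0 : E d) (R : ℝ)
    (hlim : ∀ (c : E d) (r : ℝ), 0 < r → ∃ l : ℝ,
      Tendsto (fun s => ∫ x in cube c r, φ s x) (𝓝[>] 0) (𝓝 l)) :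
    ∃ h : E d → ℝ, Measurable h ∧ (∀ x, 0 ≤ h x) ∧ (∀ x, h x ≤ B) ∧
      ∀ (c : E d) (r : ℝ), 0 < r → cube c r ⊆ cube c0 R →
        Tendsto (fun s => ∫ x in cube c r, φ s x) (𝓝[>] 0) (𝓝 (∫ x in cube c r, h x)) := by
  classical
  obtain ⟨μ, hμ⟩ : ∃ μ : Measure (E d), μ = volume.restrict (cube c0 R) := ⟨_, rfl⟩
  have hfin : IsFiniteMeasure μ := ⟨by
    rw [hμ, Measure.restrict_apply_univ]
    exact Dens_vol_lt c0 R⟩
  have hmem : ∀ s, 0 < s → MemLp (φ s) 2 μ := fun s hs =>
    MemLp.of_bound (hm s).aestronglyMeasurable B (ae_of_all _ fun x => by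
      rw [Real.norm_of_nonneg (h0 s hs x)]
      exact h1 s hs x)
  let Φ : ℝ → Lp ℝ 2 μ := fun s => if hs : 0 < s then (hmem s hs).toLp (φ s) else 0
  have hΦpos : ∀ s (hs : 0 < s), Φ s = (hmem s hs).toLp (φ s) := fun s hs => dif_pos hs
  have hΦneg : ∀ s, ¬ 0 < s → Φ s = 0 := fun s hs => dif_neg hs
  obtain ⟨C, hC⟩ : ∃ C : ℝ, ∀ s, ‖Φ s‖ ≤ C := by
    refine ⟨(measureUnivNNReal μ : ℝ) ^ (2 : ℝ≥0∞).toReal⁻¹ * B, fun s => ?_⟩
    by_cases hs : 0 < s
    · rw [hΦpos s hs]
      refine Lp.norm_le_of_ae_bound hB ?_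
      filter_upwards [(hmem s hs).coeFn_toLp] with x hx
      rw [hx, Real.norm_of_nonneg (h0 s hs x)]
      exact h1 s hs x
    · rw [hΦneg s hs, norm_zero]
      positivity
  -- the ultrafilter
  let 𝒰 : Ultrafilter ℝ := Ultrafilter.of (𝓝[>] (0 : ℝ))
  have h𝒰 : (𝒰 : Filter ℝ) ≤ 𝓝[>] (0 : ℝ) := Ultrafilter.of_le _
  have h𝒰pos : ∀ᶠ s in (𝒰 : Filter ℝ), 0 < s := h𝒰 self_mem_nhdsWithin
  -- weak limit
  let T : ℝ → WeakDual ℝ (Lp ℝ 2 μ) := fun s =>
    StrongDual.toWeakDual (InnerProductSpace.toDual ℝ (Lp ℝ 2 μ) (Φ s))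
  have hT : ∀ s f, T s f = inner ℝ (Φ s) f := fun s f => InnerProductSpace.toDual_apply_apply
  have hcomp := WeakDual.isCompact_closedBall (𝕜 := ℝ) (E := Lp ℝ 2 μ) 0 C
  obtain ⟨Λ, -, hΛ⟩ := hcomp.ultrafilter_le_nhds' (𝒰.map T) (by
    refine Filter.mem_map.2 (Filter.univ_mem' fun s => ?_)
    show (InnerProductSpace.toDual ℝ (Lp ℝ 2 μ) (Φ s)) ∈ Metric.closedBall 0 C
    rw [mem_closedBall_zero_iff, LinearIsometryEquiv.norm_map]
    exact hC s)
  have hΛt : ∀ f : Lp ℝ 2 μ, Tendsto (fun s => T s f) (𝒰 : Filter ℝ) (𝓝 (Λ f)) := fun f =>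
    ((WeakDual.eval_continuous f).tendsto Λ).comp hΛ
  obtain ⟨h, hh⟩ : ∃ h : Lp ℝ 2 μ, ∀ f : Lp ℝ 2 μ, Λ f = inner ℝ h f := by
    refine ⟨(InnerProductSpace.toDual ℝ (Lp ℝ 2 μ)).symm (WeakDual.toStrongDual Λ), fun f => ?_⟩
    rw [InnerProductSpace.toDual_symm_apply]
    rfl
  -- limits of integrals over sets
  have hA : ∀ A : Set (E d), MeasurableSet A →
      Tendsto (fun s => ∫ x in A, φ s x ∂μ) (𝒰 : Filter ℝ) (𝓝 (∫ x in A, h x ∂μ)) := by
    intro A hA
    have h2 := hΛt (indicatorConstLp 2 hA (measure_ne_top μ A) (1 : ℝ))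
    have h3 : Λ (indicatorConstLp 2 hA (measure_ne_top μ A) (1 : ℝ)) = ∫ x in A, h x ∂μ := by
      rw [hh, real_inner_comm, L2.inner_indicatorConstLp_one]
    rw [h3] at h2
    refine h2.congr' ?_
    filter_upwards [h𝒰pos] with s hs
    rw [hT, real_inner_comm, L2.inner_indicatorConstLp_one, hΦpos s hs]
    exact integral_congr_ae (ae_restrict_of_ae (hmem s hs).coeFn_toLp)
  have hint : Integrable h μ := (Lp.memLp h).integrable (by norm_num)
  have hφint : ∀ s, 0 < s → Integrable (φ s) μ := fun s hs =>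
    (hmem s hs).integrable (by norm_num)
  have hpos : 0 ≤ᵐ[μ] h := by
    refine ae_nonneg_of_forall_setIntegral_nonneg hint fun A hAm _ => ?_
    refine ge_of_tendsto (hA A hAm) ?_
    filter_upwards [h𝒰pos] with s hs
    exact integral_nonneg fun x => h0 s hs x
  have hle : ∀ᵐ x ∂μ, h x ≤ B := by
    have h4 : 0 ≤ᵐ[μ] fun x => B - h x := by
      refine ae_nonneg_of_forall_setIntegral_nonneg ((integrable_const B).sub hint)
        fun A hAm _ => ?_
      have h5 : ∫ x in A, (B - h x) ∂μ = (∫ _ in A, B ∂μ) - ∫ x in A, h x ∂μ :=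
        integral_sub (integrable_const B).integrableOn hint.integrableOn
      rw [h5]
      have h6 : ∫ x in A, h x ∂μ ≤ ∫ _ in A, B ∂μ := by
        refine le_of_tendsto (hA A hAm) ?_
        filter_upwards [h𝒰pos] with s hs
        exact integral_mono (hφint s hs).integrableOn (integrable_const B).integrableOn
          fun x => h1 s hs x
      linarith
    filter_upwards [h4] with x hx
    have hx : 0 ≤ B - h x := hx
    linarith
  have hhm : Measurable (h : E d → ℝ) := (Lp.stronglyMeasurable h).measurable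
  refine ⟨fun x => max 0 (min B (h x)), measurable_const.max (measurable_const.min hhm),
    fun x => le_max_left _ _, fun x => max_le hB (min_le_left _ _), ?_⟩
  intro c r hr hsub
  obtain ⟨l, hl⟩ := hlim c r hr
  have hres : μ.restrict (cube c r) = volume.restrict (cube c r) := by
    rw [hμ, Measure.restrict_restrict (meas_cube c r), Set.inter_eq_left.2 hsub]
  have h7 := hA (cube c r) (meas_cube c r)
  rw [hres] at h7
  have h8 := tendsto_nhds_unique (hl.mono_left h𝒰) h7
  have h9 : ∫ x in cube c r, h x = ∫ x in cube c r, max 0 (min B (h x)) := by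
    rw [← hres]
    refine integral_congr_ae (ae_restrict_of_ae ?_)
    filter_upwards [hpos, hle] with x hx1 hx2
    have hx1 : 0 ≤ h x := hx1
    rw [min_eq_right hx2, max_eq_right hx1]
  rw [h8, h9] at hl
  exact hl

end MP4fb

end
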