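import Pool.Agent.Lib.MP_4fbc34_pr.PppA

/-!
JOB Dense: the atoms are dense if `ν` is infinite; and the empty ball probability.

`ppp_dense`: let `D` be a countable dense subset of `E d` (for example `TopologicalSpace.denseSeq`).  For `x ∈ D` and
`n : ℕ` let `B = ball x (1/(n+1))`, of volume `v ∈ (0, ∞)`.  The event that no point of `Ξ ω` has its position in `B` is
contained in `{(Ξ ω ∩ (B ×ˢ Ici t)).encard = 0}` for every `t > 0`, of probability `exp (-v ν(Ici t))` (`ppp_zero`,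
`prod_rect`), which tends to `0` as `t → 0` because `ν (Ici t)` increases to `ν (Ioi 0) = ν univ = ∞`.  So it is a null set;
countable union.
`empty_ball`: the positions `p.1` with `‖p.1‖ <= ℓ` are excluded iff the number of points in `closedBall 0 ℓ ×ˢ Ioi 0` is zero
(all marks are positive).  If `ν univ < ∞`: `ppp_zero`, volume of the ball `= ℓ^d * volume (ball 0 1)`
(`EuclideanSpace.volume_closedBall` or `Measure.addHaar_closedBall`).  If `ν univ = ∞`: as in the first part the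
probability is at most `exp (-v ν(Ici t))` for every `t > 0` (`ℓ > 0`), so it is `0`.
`zero_limit`: in the first case `-log μ / ℓ^d` is the constant `(volume (ball 0 1) * ν univ).toReal` for `ℓ > 0`; in the second it
is `-⊥ / ℓ^d = ⊤`.
-/

set_option autoImplicit false

open MeasureTheory ProbabilityTheory Filter Topology
open scoped ENNReal Classical

noncomputable section

namespace MP4fb

variable {d : ℕ} {Ω : Type*} [MeasurableSpace Ω] (μ : Measure Ω) [IsProbabilityMeasure μ]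
  (Ξ : Ω → Set (E d × ℝ)) (ν : Measure ℝ)

theorem Dense_null (hΞ : IsPPP μ Ξ ν) (hν : ν (Set.Iic 0) = 0)
    (hfin : ∀ t : ℝ, 0 < t → ν (Set.Ici t) ≠ ∞) (hinf : ν Set.univ = ∞) (B : Set (E d))
    (hB : MeasurableSet B) (hB0 : volume B ≠ 0) (hB1 : volume B ≠ ∞) :
    μ {ω | ∀ p ∈ Ξ ω, p.1 ∉ B} = 0 := by
  have hIoi : ν (Set.Ioi 0) = ∞ := by
    have h1 : ν Set.univ ≤ ν (Set.Iic 0) + ν (Set.Ioi 0) := by
      rw [← Set.Iic_union_Ioi (a := (0 : ℝ))]
      exact measure_union_le _ _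
    rw [hν, zero_add, hinf] at h1
    exact top_le_iff.mp h1
  have hun : (⋃ n : ℕ, Set.Ici (1 / ((n : ℝ) + 1))) = Set.Ioi 0 := by
    ext x
    simp only [Set.mem_iUnion, Set.mem_Ici, Set.mem_Ioi]
    constructor
    · rintro ⟨n, hn⟩
      exact lt_of_lt_of_le (by positivity) hn
    · intro hx
      obtain ⟨n, hn⟩ := exists_nat_one_div_lt hx
      exact ⟨n, hn.le⟩
  have hmono : Monotone (fun n : ℕ => Set.Ici (1 / ((n : ℝ) + 1))) := by
    intro a b hab
    apply Set.Ici_subset_Ici.mpr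
    have : (a : ℝ) ≤ b := by exact_mod_cast hab
    exact one_div_le_one_div_of_le (by positivity) (by linarith)
  have ht : Tendsto (fun n : ℕ => ν (Set.Ici (1 / ((n : ℝ) + 1)))) atTop (𝓝 ∞) := by
    have h1 := tendsto_measure_iUnion_atTop (μ := ν) hmono
    rw [hun, hIoi] at h1
    exact h1
  have hbound : ∀ R : ℝ, μ {ω | ∀ p ∈ Ξ ω, p.1 ∉ B} ≤ ENNReal.ofReal (Real.exp (-R)) := by
    intro R
    set v := (volume B).toReal with hv
    have hv0 : 0 < v := ENNReal.toReal_pos hB0 hB1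
    have hev : ∀ᶠ n : ℕ in atTop, ENNReal.ofReal (R / v) < ν (Set.Ici (1 / ((n : ℝ) + 1))) :=
      ht.eventually_const_lt ENNReal.ofReal_lt_top
    obtain ⟨n, hn⟩ := hev.exists
    set t := 1 / ((n : ℝ) + 1) with htd
    have ht0 : 0 < t := by positivity
    have hft := hfin t ht0
    have hI : ((volume : Measure (E d)).prod ν) (B ×ˢ Set.Ici t) = volume B * ν (Set.Ici t) :=
      prod_rect ν hν hfin B _
    have hne : ((volume : Measure (E d)).prod ν) (B ×ˢ Set.Ici t) ≠ ∞ := by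
      rw [hI]
      exact ENNReal.mul_ne_top hB1 hft
    have h0 := ppp_zero hΞ (B ×ˢ Set.Ici t) (hB.prod measurableSet_Ici) hne
    have hsub : {ω | ∀ p ∈ Ξ ω, p.1 ∉ B} ⊆ {ω | (Ξ ω ∩ (B ×ˢ Set.Ici t)).encard = 0} := by
      intro ω hω
      simp only [Set.mem_ofPred_eq, Set.encard_eq_zero]
      rw [Set.eq_empty_iff_forall_notMem]
      rintro p ⟨hp1, hp2⟩
      exact hω p hp1 hp2.1
    refine (measure_mono hsub).trans ?_
    rw [h0]
    apply ENNReal.ofReal_le_ofReal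
    apply Real.exp_le_exp.mpr
    rw [hI, ENNReal.toReal_mul]
    have h2 : R / v ≤ (ν (Set.Ici t)).toReal := (ENNReal.ofReal_le_iff_le_toReal hft).mp hn.le
    rw [div_le_iff₀' hv0] at h2
    linarith
  have hlim : Tendsto (fun R : ℝ => ENNReal.ofReal (Real.exp (-R))) atTop (𝓝 0) := by
    have h1 := ENNReal.tendsto_ofReal Real.tendsto_exp_neg_atTop_nhds_zero
    rw [ENNReal.ofReal_zero] at h1
    exact h1
  exact le_antisymm (ge_of_tendsto' hlim hbound) zero_le

theorem ppp_dense (hd : 1 ≤ d) (hΞ : IsPPP μ Ξ ν) (hν : ν (Set.Iic 0) = 0)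
    (hfin : ∀ t : ℝ, 0 < t → ν (Set.Ici t) ≠ ∞) (hinf : ν Set.univ = ∞) :
    ∀ᵐ ω ∂μ, ∀ (x : E d) (ε : ℝ), 0 < ε → ∃ y ∈ psupp (Ξ ω), ‖y - x‖ < ε := by
  have hfd : 0 < d := hd
  have hnull : ∀ k n : ℕ, ∀ᵐ ω ∂μ, ¬ ∀ p ∈ Ξ ω,
      p.1 ∉ Metric.ball (TopologicalSpace.denseSeq (E d) k) (1 / ((n : ℝ) + 1)) := by
    intro k n
    have hpos : (0 : ℝ) < 1 / ((n : ℝ) + 1) := by positivity
    have h := Dense_null μ Ξ ν hΞ hν hfin hinf
      (Metric.ball (TopologicalSpace.denseSeq (E d) k) (1 / ((n : ℝ) + 1))) measurableSet_ball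
      (Metric.measure_ball_pos volume _ hpos).ne' measure_ball_lt_top.ne
    rw [ae_iff]
    simpa only [not_not] using h
  have hall : ∀ᵐ ω ∂μ, ∀ k n : ℕ, ¬ ∀ p ∈ Ξ ω,
      p.1 ∉ Metric.ball (TopologicalSpace.denseSeq (E d) k) (1 / ((n : ℝ) + 1)) := by
    rw [ae_all_iff]
    intro k
    rw [ae_all_iff]
    intro n
    exact hnull k n
  filter_upwards [hall] with ω hω x ε hε
  obtain ⟨n, hn⟩ := exists_nat_one_div_lt (half_pos hε)
  obtain ⟨k, hk⟩ := (TopologicalSpace.denseRange_denseSeq (E d)).exists_dist_lt x (half_pos hε)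
  have h1 := hω k n
  push Not at h1
  obtain ⟨p, hp, hpB⟩ := h1
  refine ⟨p.1, ⟨p.2, hp⟩, ?_⟩
  rw [Metric.mem_ball] at hpB
  rw [← dist_eq_norm]
  calc dist p.1 x ≤ dist p.1 (TopologicalSpace.denseSeq (E d) k) +
        dist (TopologicalSpace.denseSeq (E d) k) x := dist_triangle _ _ _
    _ < ε / 2 + ε / 2 := by
      have h2 : dist (TopologicalSpace.denseSeq (E d) k) x < ε / 2 := by
        rw [dist_comm]
        exact hk
      linarith
    _ = ε := by ring

theorem zero_limit (hd : 1 ≤ d) (hΞ : IsPPP μ Ξ ν) (hν : ν (Set.Iic 0) = 0)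
    (hfin : ∀ t : ℝ, 0 < t → ν (Set.Ici t) ≠ ∞) :
    ∃ L : EReal, 0 ≤ L ∧ Tendsto (fun ℓ : ℝ =>
      -(ENNReal.log (μ {ω | ∀ p ∈ Ξ ω, ℓ < ‖p.1‖})) / ((ℓ ^ d : ℝ) : EReal)) atTop (𝓝 L) := by
  have hev0 : ∀ ℓ : ℝ, {ω | ∀ p ∈ Ξ ω, ℓ < ‖p.1‖} = {ω | ∀ p ∈ Ξ ω, p.1 ∉ Metric.closedBall (0 : E d) ℓ} := by
    intro ℓ
    ext ω
    simp only [Set.mem_ofPred_eq, mem_closedBall_zero_iff, not_le]
  rcases eq_or_ne (ν Set.univ) ∞ with hinf | hne
  · refine ⟨⊤, le_top, ?_⟩
    refine Tendsto.congr' (f₁ := fun _ => ⊤) ?_ tendsto_const_nhds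
    filter_upwards [eventually_gt_atTop (0 : ℝ)] with ℓ hℓ
    have h0 : μ {ω | ∀ p ∈ Ξ ω, ℓ < ‖p.1‖} = 0 := by
      rw [hev0]
      exact Dense_null μ Ξ ν hΞ hν hfin hinf _ Metric.isClosed_closedBall.measurableSet
        (Metric.measure_closedBall_pos volume _ hℓ).ne' measure_closedBall_lt_top.ne
    have hp : 0 < ℓ ^ d := by positivity
    rw [h0, ENNReal.log_zero, EReal.neg_bot,
      EReal.top_div_of_pos_ne_top (by exact_mod_cast hp) (EReal.coe_ne_top _)]
  · set κ : ℝ := (volume (Metric.ball (0 : E d) 1) * ν (Set.Ioi 0)).toReal with hκ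
    have hIoi : ν (Set.Ioi 0) ≠ ∞ := ((measure_mono (Set.subset_univ _)).trans_lt (lt_top_iff_ne_top.mpr hne)).ne
    refine ⟨(κ : EReal), by exact_mod_cast ENNReal.toReal_nonneg, ?_⟩
    refine Tendsto.congr' (f₁ := fun _ => (κ : EReal)) ?_ tendsto_const_nhds
    filter_upwards [eventually_gt_atTop (0 : ℝ)] with ℓ hℓ
    have hp : 0 < ℓ ^ d := by positivity
    have hI : ((volume : Measure (E d)).prod ν) (Metric.closedBall (0 : E d) ℓ ×ˢ Set.Ioi 0) =
        volume (Metric.closedBall (0 : E d) ℓ) * ν (Set.Ioi 0) := prod_rect ν hν hfin _ _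
    have hIne : ((volume : Measure (E d)).prod ν) (Metric.closedBall (0 : E d) ℓ ×ˢ Set.Ioi 0) ≠ ∞ := by
      rw [hI]
      exact ENNReal.mul_ne_top measure_closedBall_lt_top.ne hIoi
    have hset : {ω | ∀ p ∈ Ξ ω, ℓ < ‖p.1‖} =
        {ω | (Ξ ω ∩ (Metric.closedBall (0 : E d) ℓ ×ˢ Set.Ioi 0)).encard = 0} := by
      rw [hev0]
      ext ω
      simp only [Set.mem_ofPred_eq, Set.encard_eq_zero]
      constructor
      · intro h
        rw [Set.eq_empty_iff_forall_notMem]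
        rintro p ⟨hp1, hp2⟩
        exact h p hp1 hp2.1
      · intro h p hp1 hp2
        have : p ∈ Ξ ω ∩ (Metric.closedBall (0 : E d) ℓ ×ˢ Set.Ioi 0) := ⟨hp1, hp2, hΞ.pos ω p hp1⟩
        rw [h] at this
        exact this
    rw [hset, ppp_zero hΞ _ (Metric.isClosed_closedBall.measurableSet.prod measurableSet_Ioi) hIne,
      ENNReal.log_ofReal_of_pos (Real.exp_pos _), Real.log_exp, ← EReal.coe_neg, ← EReal.coe_div, neg_neg, hI]
    have hvol : volume (Metric.closedBall (0 : E d) ℓ) =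
        ENNReal.ofReal (ℓ ^ d) * volume (Metric.ball (0 : E d) 1) := by
      have h1 := Measure.addHaar_closedBall (volume : Measure (E d)) (0 : E d) hℓ.le
      rw [h1, finrank_euclideanSpace_fin]
    rw [hvol, mul_assoc, ENNReal.toReal_mul, ENNReal.toReal_ofReal hp.le, ← hκ, mul_div_cancel_left₀ _ hp.ne']

end MP4fb

end
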