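import Pool.Agent.Lib.MP_4fbc34_pr.Base

/-!
Poisson point processes of marked points, the functionals of the problem, and count events.
-/

set_option autoImplicit false

open MeasureTheory ProbabilityTheory
open scoped ENNReal Classical

noncomputable section

namespace MP4fb

variable {d : ℕ}

/-- `IsPoisson` with unfolded definitions -/
structure IsPPP {Ω : Type*} [MeasurableSpace Ω] (μ : Measure Ω) (Ξ : Ω → Set (E d × ℝ))
    (ν : Measure ℝ) : Prop where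
  pos : ∀ ω, ∀ p ∈ Ξ ω, 0 < p.2
  meas : ∀ B : Set (E d × ℝ), MeasurableSet B → Measurable (fun ω => (Ξ ω ∩ B).encard)
  law : ∀ B : Set (E d × ℝ), MeasurableSet B → ((volume : Measure (E d)).prod ν) B ≠ ∞ → ∀ n : ℕ,
    μ {ω | (Ξ ω ∩ B).encard = n} =
      ENNReal.ofReal (Real.exp (-(((volume : Measure (E d)).prod ν) B).toReal) *
        (((volume : Measure (E d)).prod ν) B).toReal ^ n / n.factorial)
  indep : ∀ (n : ℕ) (B : Fin n → Set (E d × ℝ)), (∀ i, MeasurableSet (B i)) →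
    Pairwise (Function.onFun Disjoint B) → iIndepFun (fun i ω => (Ξ ω ∩ B i).encard) μ

theorem IsPoisson.isPPP {Ω : Type*} [MeasurableSpace Ω] {μ : Measure Ω} {Ξ : Ω → Set (E d × ℝ)}
    {ν : Measure ℝ} (h : IsPoisson μ Ξ ν) : IsPPP μ Ξ ν :=
  ⟨h.pos, h.meas, h.law, h.indep⟩

/-- mass of the atoms at `x` with marks in `I` -/
def massI (X : Set (E d × ℝ)) (I : Set ℝ) (x : E d) : ℝ≥0∞ :=
  ∑' t : {t : ℝ // (x, t) ∈ X ∧ t ∈ I}, ENNReal.ofReal t

/-- The root event of a configuration. -/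
def RootT (M : Model d) (X : Set (E d × ℝ)) (L r : ℝ) : Prop :=
  ∀ (b : E d) (C : Finset (E d)) (κ : ℝ), M.O (psupp X) 0 b L C κ →
    ∑ x ∈ C, mass X x ≤ ENNReal.ofReal (r + κ)

/-- `Ev` is an event described by the numbers of points in finitely many disjoint measurable subsets
of `B`. -/
def CE {Ω : Type*} (Ξ : Ω → Set (E d × ℝ)) (B : Set (E d × ℝ)) (Ev : Set Ω) : Prop :=
  ∃ (n : ℕ) (D : Fin n → Set (E d × ℝ)) (A : Set (Fin n → ℕ∞)), (∀ i, MeasurableSet (D i)) ∧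
    Pairwise (Function.onFun Disjoint D) ∧ (∀ i, D i ⊆ B) ∧
    Ev = {ω | (fun i => (Ξ ω ∩ D i).encard) ∈ A}

/-- grid cell of side `s` and index `c` -/
def gcell (s : ℝ) (c : Fin d → ℤ) : Set (E d) := {x | ∀ i, s * c i ≤ x i ∧ x i < s * (c i + 1)}

/-- The data for the small masses: events `F Q k` for the cubes `Q` of side `b` and the bands of masses
`[δ / 2^(k+1), δ / 2^k)`, on which no polygon of length at most `b` collects more than `e b` in a cube. -/
def SmallData {Ω : Type*} [MeasurableSpace Ω] (μ : Measure Ω) (Ξ : Ω → Set (E d × ℝ))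
    (δ b e : ℝ) : Prop :=
  ∃ F : (Fin d → ℤ) → ℕ → Set (Set (E d × ℝ)),
    (∀ (X : Set (E d × ℝ)) (Q : Fin d → ℤ), (∀ k, X ∈ F Q k) → ∀ l : List (E d), plen l ≤ b →
      ∑ x ∈ l.toFinset.filter (fun x => x ∈ gcell b Q), massI X (Set.Ioo 0 δ) x ≤
        ENNReal.ofReal (e * b)) ∧
    ∀ Q k, CE Ξ (gcell b Q ×ˢ Set.Ico (δ / 2 ^ (k + 1)) (δ / 2 ^ k)) {ω | Ξ ω ∈ F Q k} ∧
      μ {ω | Ξ ω ∉ F Q k} ≤ ENNReal.ofReal (Real.exp (-(k + 2)))

end MP4fb

end
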