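import Pool.Agent.Lib.MP_4fbc34_pr.LatDef
import Pool.Agent.Lib.MP_4fbc34_pr.PppDef

/-!
Discretisation of a configuration: cells of side `r`; the inner part `[εu, 1 - εu)^d` of a cell is divided into
`np^d` micro cells, the masses `[δ0, δ0 + nv * mst)` into `nv` classes of width `mst`.
-/

set_option autoImplicit false

open MeasureTheory ProbabilityTheory
open scoped ENNReal Classical

noncomputable section

namespace MP4fb

variable {d : ℕ}

/-- parameters of the discretisation -/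
structure DP where
  np : ℕ
  nv : ℕ
  εu : ℝ
  δ0 : ℝ
  mst : ℝ

structure DP.Ok (P : DP) : Prop where
  np_pos : 1 ≤ P.np
  nv_pos : 1 ≤ P.nv
  eu_pos : 0 < P.εu
  eu_le : P.εu ≤ 1 / 4
  d0 : 0 ≤ P.δ0
  ms : 0 < P.mst

/-- the lattice model: states are (micro cell, mass class) -/
def DP.lat (P : DP) (d : ℕ) : Lat d where
  A := (Fin d → Fin P.np) × Fin P.nv
  fin := inferInstance
  u := fun a => WithLp.toLp 2 (fun i => P.εu + (1 - 2 * P.εu) * ((a.1 i : ℕ) : ℝ) / P.np)
  mm := fun a => P.δ0 + ((a.2 : ℕ) : ℝ) * P.mst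

/-- micro cell `c` of the cell `p` -/
def mcell (P : DP) (r : ℝ) (p : Fin d → ℤ) (c : Fin d → Fin P.np) : Set (E d) :=
  {x | ∀ i, r * (p i + (P.εu + (1 - 2 * P.εu) * ((c i : ℕ) : ℝ) / P.np)) ≤ x i ∧
    x i < r * (p i + (P.εu + (1 - 2 * P.εu) * (((c i : ℕ) : ℝ) + 1) / P.np))}

/-- points of the cell `p` with state `a` -/
def Cset (P : DP) (r : ℝ) (p : Fin d → ℤ) (a : (P.lat d).A) : Set (E d × ℝ) :=
  mcell P r p a.1 ×ˢ
    Set.Ico (P.δ0 + ((a.2 : ℕ) : ℝ) * P.mst) (P.δ0 + (((a.2 : ℕ) : ℝ) + 1) * P.mst)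

/-- all points of the cell `p` of mass at least `δ0` -/
def Tot (P : DP) (r : ℝ) (p : Fin d → ℤ) : Set (E d × ℝ) := gcell r p ×ˢ Set.Ici P.δ0

/-- the cell `p` has state `s` -/
def St (P : DP) (r : ℝ) (X : Set (E d × ℝ)) (p : Fin d → ℤ) : Option (P.lat d).A → Prop
  | none => (X ∩ Tot P r p).encard = 0
  | some a => (X ∩ Cset P r p a).encard = 1 ∧ (X ∩ (Tot P r p \ Cset P r p a)).encard = 0

/-- the upper state: `some a` if this is the state, `none` in all other cases -/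
def upc (P : DP) (r : ℝ) (X : Set (E d × ℝ)) (p : Fin d → ℤ) : Option (P.lat d).A :=
  if h : ∃ a, St P r X p (some a) then some h.choose else none

/-- intensity of a cell -/
def lamT (P : DP) (ν : Measure ℝ) (d : ℕ) (r : ℝ) : ℝ := r ^ d * (ν (Set.Ici P.δ0)).toReal

/-- intensity of a state -/
def lamA (P : DP) (ν : Measure ℝ) (d : ℕ) (r : ℝ) (a : (P.lat d).A) : ℝ :=
  (r * ((1 - 2 * P.εu) / P.np)) ^ d *
    (ν (Set.Ico (P.δ0 + ((a.2 : ℕ) : ℝ) * P.mst) (P.δ0 + (((a.2 : ℕ) : ℝ) + 1) * P.mst))).toReal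

/-- probabilities of the states (their sum is less than one, because of the other configurations) -/
def wlow (P : DP) (ν : Measure ℝ) (d : ℕ) (r : ℝ) : Option (P.lat d).A → ℝ
  | none => Real.exp (-lamT P ν d r)
  | some a => lamA P ν d r a * Real.exp (-lamT P ν d r)

/-- probabilities of the upper states -/
def wup (P : DP) (ν : Measure ℝ) (d : ℕ) (r : ℝ) : Option (P.lat d).A → ℝ
  | none => 1 - ∑ a, wlow P ν d r (some a)
  | some a => wlow P ν d r (some a)

end MP4fb

end
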