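import Pool.Agent.Lib.MP_4fbc34_pr.PoCut
import Pool.Agent.Lib.MP_4fbc34_pr.AoCut

/-!
The two families of models have all the properties.
-/

set_option autoImplicit false

open scoped ENNReal Classical

noncomputable section

namespace MP4fb

theorem pathM_ok (d : ℕ) : (pathM d).Ok where
  k0_nonneg := le_refl _
  emp := po_emp
  sub := po_sub
  nonneg := fun S a b lam C κ h => by rw [h.2.1]
  supp := fun S a b lam C κ h => h.1
  valid := po_valid
  cat := po_cat
  cone := po_cone
  lip := po_lip
  loc := po_loc
  count := fun S a b lam C κ r h hr hC => by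
    have h1 := po_count S a b lam C κ r h hr hC
    have h2 := po_valid S a b lam C κ h
    have h3 := norm_nonneg (a - b)
    linarith
  rev := po_rev
  poly := po_poly
  cutasm := pathM_cutAsm d

theorem animM_ok (d : ℕ) (q : ℝ≥0∞) : (animM d q).Ok where
  k0_nonneg := ENNReal.toReal_nonneg
  emp := ao_emp q
  sub := ao_sub q
  nonneg := ao_nonneg q
  supp := fun S a b lam C κ h => h.1
  valid := ao_valid q
  cat := ao_cat q
  cone := ao_cone q
  lip := ao_lip q
  loc := ao_loc q
  count := ao_count q
  rev := ao_rev q
  poly := ao_poly q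
  cutasm := animM_cutAsm d q

theorem pathM_ins (d : ℕ) : (pathM d).Ins := po_ins

theorem animM_ins (d : ℕ) : (animM d 0).Ins := ao_ins0

end MP4fb

end
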