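import Mathlib

/-!
JOB LimEx: existence of the limit from the comparison of scales.

Let `f ℓ = -log (μ (E ℓ)) / ℓ^d`, which is in `[0, ⊤]` for `ℓ > 0` (`μ <= 1`).  For real `I >= 0` call `I` good if
`∃ᶠ ℓ, exp (-(I ℓ^d)) <= (μ (E ℓ)).toReal`.  If `I` is good every `I' >= I` is good.
If no `I >= 0` is good: for every `I`, eventually `(μ (E ℓ)).toReal < exp (-(I ℓ^d))`, so `f ℓ >= I` eventually, and `f → ⊤`.
Otherwise let `L` be the infimum of the good numbers, `L >= 0`.  For `θ > 0` some `I < L + θ` is good, so by `hE` eventually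
`exp (-((I + θ) ℓ^d)) <= μ (E ℓ)`, that is `f ℓ <= I + θ < L + 2 θ`.  If `L > 0`, for `0 <= I < L` the number `I` is not good, so
eventually `f ℓ >= I`.  Hence `f → L`.
-/

set_option autoImplicit false

open MeasureTheory Filter Topology
open scoped ENNReal

noncomputable section

namespace MP4fb

theorem LimEx_iff (m : ℝ≥0∞) (hm : m ≤ 1) (d : ℕ) (ℓ I : ℝ) (hℓ : 0 < ℓ) :
    Real.exp (-(I * ℓ ^ d)) ≤ m.toReal ↔
      -(ENNReal.log m) / ((ℓ ^ d : ℝ) : EReal) ≤ (I : EReal) := by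
  have hp : 0 < ℓ ^ d := by positivity
  rcases eq_or_ne m 0 with rfl | h0
  · simp only [ENNReal.toReal_zero, ENNReal.log_zero, EReal.neg_bot]
    rw [EReal.top_div_of_pos_ne_top (by exact_mod_cast hp) (EReal.coe_ne_top _)]
    constructor
    · intro h
      exact absurd h (not_le.mpr (Real.exp_pos _))
    · intro h
      exact absurd h (not_le.mpr (EReal.coe_lt_top _))
  · have hfin : m ≠ ⊤ := (lt_of_le_of_lt hm ENNReal.one_lt_top).ne
    have hx : 0 < m.toReal := ENNReal.toReal_pos h0 hfin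
    rw [ENNReal.log_pos_real h0 hfin, ← EReal.coe_neg, ← EReal.coe_div, EReal.coe_le_coe_iff,
      div_le_iff₀ hp, ← Real.le_log_iff_exp_le hx]
    constructor <;> intro h <;> linarith

theorem LimEx_nonneg (m : ℝ≥0∞) (hm : m ≤ 1) (d : ℕ) (ℓ : ℝ) (hℓ : 0 < ℓ) :
    0 ≤ -(ENNReal.log m) / ((ℓ ^ d : ℝ) : EReal) := by
  have hp : 0 < ℓ ^ d := by positivity
  rcases eq_or_ne m 0 with rfl | h0
  · rw [ENNReal.log_zero, EReal.neg_bot,
      EReal.top_div_of_pos_ne_top (by exact_mod_cast hp) (EReal.coe_ne_top _)]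
    exact le_top
  · have hfin : m ≠ ⊤ := (lt_of_le_of_lt hm ENNReal.one_lt_top).ne
    have hx : 0 < m.toReal := ENNReal.toReal_pos h0 hfin
    have hx1 : m.toReal ≤ 1 := by
      have := ENNReal.toReal_mono ENNReal.one_ne_top hm
      simpa using this
    rw [ENNReal.log_pos_real h0 hfin, ← EReal.coe_neg, ← EReal.coe_div]
    have hl := Real.log_nonpos hx.le hx1
    have : 0 ≤ -Real.log m.toReal / ℓ ^ d := div_nonneg (by linarith) hp.le
    exact_mod_cast this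

theorem lim_exists {Ω : Type*} [MeasurableSpace Ω] (μ : Measure Ω) [IsProbabilityMeasure μ] (d : ℕ)
    (hd : 1 ≤ d) (Ev : ℝ → Set Ω)
    (hE : ∀ I θ : ℝ, 0 ≤ I → 0 < θ →
      (∃ᶠ ℓ : ℝ in atTop, Real.exp (-(I * ℓ ^ d)) ≤ (μ (Ev ℓ)).toReal) →
      ∀ᶠ L : ℝ in atTop, Real.exp (-((I + θ) * L ^ d)) ≤ (μ (Ev L)).toReal) :
    ∃ L : EReal, 0 ≤ L ∧ Tendsto (fun ℓ : ℝ =>
      -(ENNReal.log (μ (Ev ℓ))) / ((ℓ ^ d : ℝ) : EReal)) atTop (𝓝 L) := by
  set F : ℝ → EReal := fun ℓ => -(ENNReal.log (μ (Ev ℓ))) / ((ℓ ^ d : ℝ) : EReal) with hF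
  have hm : ∀ ℓ, μ (Ev ℓ) ≤ 1 := fun ℓ => prob_le_one
  set G : Set EReal := {J : EReal | ∃ I : ℝ, J = (I : EReal) ∧ 0 ≤ I ∧
    ∃ᶠ ℓ : ℝ in atTop, Real.exp (-(I * ℓ ^ d)) ≤ (μ (Ev ℓ)).toReal} with hG
  have hL0 : 0 ≤ sInf G := by
    refine le_sInf ?_
    rintro J ⟨I, rfl, hI, -⟩
    exact_mod_cast hI
  refine ⟨sInf G, hL0, ?_⟩
  rw [tendsto_order]
  constructor
  · intro a ha
    rcases lt_or_ge a 0 with h0 | h0
    · filter_upwards [eventually_gt_atTop (0 : ℝ)] with ℓ hℓ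
      exact lt_of_lt_of_le h0 (LimEx_nonneg _ (hm ℓ) d ℓ hℓ)
    · obtain ⟨r, har, hrL⟩ := EReal.lt_iff_exists_real_btwn.mp ha
      have hr0 : 0 ≤ r := by
        have : (0 : EReal) < (r : EReal) := lt_of_le_of_lt h0 har
        exact_mod_cast this.le
      have hng : ¬ ∃ᶠ ℓ : ℝ in atTop, Real.exp (-(r * ℓ ^ d)) ≤ (μ (Ev ℓ)).toReal := by
        intro h
        exact absurd (sInf_le (show (r : EReal) ∈ G from ⟨r, rfl, hr0, h⟩)) (not_le.mpr hrL)
      rw [Filter.not_frequently] at hng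
      filter_upwards [hng, eventually_gt_atTop (0 : ℝ)] with ℓ h1 hℓ
      rw [LimEx_iff _ (hm ℓ) d ℓ r hℓ, not_le] at h1
      exact har.trans h1
  · intro b hb
    obtain ⟨J, ⟨I, rfl, hI0, hI⟩, hJb⟩ := sInf_lt_iff.mp hb
    obtain ⟨r, hIr, hrb⟩ := EReal.lt_iff_exists_real_btwn.mp hJb
    have hIr' : I < r := by exact_mod_cast hIr
    have h2 := hE I (r - I) hI0 (by linarith) hI
    filter_upwards [h2, eventually_gt_atTop (0 : ℝ)] with ℓ h1 hℓ
    rw [add_sub_cancel, LimEx_iff _ (hm ℓ) d ℓ r hℓ] at h1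
    exact lt_of_le_of_lt h1 hrb

end MP4fb

end
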