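import Pool.Agent.Lib.MP_4fbc34_pr.PppDef
import Pool.Agent.Lib.MP_4fbc34_pr.AoBasic

/-!
JOB TruA: from the animal functional to the root event of the animal model.

Let `AO q S 0 b ℓ C κ`.  If `C = ∅` and `κ = 0` the claim is trivial.  Otherwise let `Tr V L` be the tree, `x, y ∈ V`.  Put
`V' = V.toFinset`.  GRAPH LEMMA (induction on `Tr`): there is a connected graph `G` on `V.toFinset` with
`glen <= L`.  Convenient formulation for the induction: there is a finset `D` of unordered pairs of different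
points of `V.toFinset` (or a relation) such that the graph with these edges is connected (every two vertices are
joined by a chain) and `∑_{e ∈ D} length e <= L`; for `join x y` take the union of the two sets and the pair `{x, y}` if
`x ≠ y` (the vertex sets may overlap, this does not matter; sums over unions are at most the sums).
`infDist 0 V' <= ‖0 - x‖`.  So the value of `(V', G)` is allowed in the supremum:
`(∑_{V'} mass) - q card (V' \ S) <= r`.  As `card (V' \ S) <= V.countP (· ∉ S)`, `q card <= ofReal κ`, hence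
`∑_C mass <= ∑_{V'} mass <= ofReal (r + κ)` (in particular it is finite).
-/

set_option autoImplicit false

open scoped ENNReal Classical

noncomputable section

namespace MP4fb

variable {d : ℕ}

/-- length of an unordered pair -/
private def TruA_len (e : Sym2 (E d)) : ℝ :=
  Sym2.lift ⟨fun (x y : E d) => ‖x - y‖, fun x y => norm_sub_rev x y⟩ e

private lemma TruA_ne {V : List (E d)} {L : ℝ} (h : Tr V L) : V ≠ [] := by
  induction h with
  | single x => simp
  | @join V W L L' x y hV hW hx hy ihV ihW => simp [ihV]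

private lemma TruA_len_mk (x y : E d) : TruA_len s(x, y) = ‖x - y‖ := rfl

private lemma TruA_len_nonneg (e : Sym2 (E d)) : 0 ≤ TruA_len e := by
  induction e using Sym2.ind with
  | _ x y =>
    rw [TruA_len_mk]
    exact norm_nonneg (x - y)

private lemma TruA_graph {V : List (E d)} {L : ℝ} (h : Tr V L) :
    ∃ D : Finset (Sym2 (E d)), (∀ x y, s(x, y) ∈ D → x ∈ V ∧ y ∈ V) ∧
      (∀ x ∈ V, ∀ y ∈ V, Relation.ReflTransGen (fun a b => s(a, b) ∈ D) x y) ∧
      ∑ e ∈ D, TruA_len e ≤ L := by
  induction h with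
  | single x =>
    refine ⟨∅, by simp, ?_, by simp⟩
    intro a ha b hb
    rw [List.mem_singleton] at ha hb
    rw [ha, hb]
  | @join V W L L' x y hV hW hx hy ihV ihW =>
    obtain ⟨D1, a1, b1, c1⟩ := ihV
    obtain ⟨D2, a2, b2, c2⟩ := ihW
    have m1 : ∀ a b, Relation.ReflTransGen (fun a b => s(a, b) ∈ D1) a b →
        Relation.ReflTransGen (fun a b => s(a, b) ∈ D1 ∪ D2 ∪ {s(x, y)}) a b := by
      intro a b hab
      exact Relation.ReflTransGen.mono
        (fun u v huv => Finset.mem_union_left _ (Finset.mem_union_left _ huv)) _ _ hab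
    have m2 : ∀ a b, Relation.ReflTransGen (fun a b => s(a, b) ∈ D2) a b →
        Relation.ReflTransGen (fun a b => s(a, b) ∈ D1 ∪ D2 ∪ {s(x, y)}) a b := by
      intro a b hab
      exact Relation.ReflTransGen.mono
        (fun u v huv => Finset.mem_union_left _ (Finset.mem_union_right _ huv)) _ _ hab
    have m3 : Relation.ReflTransGen (fun a b => s(a, b) ∈ D1 ∪ D2 ∪ {s(x, y)}) x y :=
      Relation.ReflTransGen.single (Finset.mem_union_right _ (Finset.mem_singleton_self _))
    have m4 : Relation.ReflTransGen (fun a b => s(a, b) ∈ D1 ∪ D2 ∪ {s(x, y)}) y x := by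
      refine Relation.ReflTransGen.single (Finset.mem_union_right _ ?_)
      rw [Finset.mem_singleton]
      exact Sym2.eq_swap
    refine ⟨D1 ∪ D2 ∪ {s(x, y)}, ?_, ?_, ?_⟩
    · intro a b hab
      rcases Finset.mem_union.1 hab with hab | hab
      · rcases Finset.mem_union.1 hab with hab | hab
        · obtain ⟨u, v⟩ := a1 a b hab
          exact ⟨List.mem_append_left _ u, List.mem_append_left _ v⟩
        · obtain ⟨u, v⟩ := a2 a b hab
          exact ⟨List.mem_append_right _ u, List.mem_append_right _ v⟩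
      · rw [Finset.mem_singleton] at hab
        rcases Sym2.eq_iff.1 hab with ⟨rfl, rfl⟩ | ⟨rfl, rfl⟩
        · exact ⟨List.mem_append_left _ hx, List.mem_append_right _ hy⟩
        · exact ⟨List.mem_append_right _ hy, List.mem_append_left _ hx⟩
    · intro a ha b hb
      rcases List.mem_append.1 ha with ha | ha
      · rcases List.mem_append.1 hb with hb | hb
        · exact m1 _ _ (b1 a ha b hb)
        · exact ((m1 _ _ (b1 a ha x hx)).trans m3).trans (m2 _ _ (b2 y hy b hb))
      · rcases List.mem_append.1 hb with hb | hb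
        · exact ((m2 _ _ (b2 a ha y hy)).trans m4).trans (m1 _ _ (b1 x hx b hb))
        · exact m2 _ _ (b2 a ha b hb)
    · have e1 := Finset.sum_union_inter (s₁ := D1 ∪ D2) (s₂ := {s(x, y)}) (f := TruA_len)
      have e2 := Finset.sum_union_inter (s₁ := D1) (s₂ := D2) (f := TruA_len)
      have e3 : 0 ≤ ∑ e ∈ (D1 ∪ D2) ∩ {s(x, y)}, TruA_len e :=
        Finset.sum_nonneg (fun e _ => TruA_len_nonneg e)
      have e4 : 0 ≤ ∑ e ∈ D1 ∩ D2, TruA_len e := Finset.sum_nonneg (fun e _ => TruA_len_nonneg e)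
      rw [Finset.sum_singleton, TruA_len_mk] at e1
      linarith

private lemma TruA_glen_le (V : Finset (E d)) (G : SimpleGraph V) (D : Finset (Sym2 (E d)))
    (h : ∀ a b, G.Adj a b → s((a : E d), (b : E d)) ∈ D) : glen V G ≤ ∑ e ∈ D, TruA_len e := by
  have hinj : Function.Injective (Sym2.map (fun z : {z : E d // z ∈ V} => (z : E d))) :=
    Sym2.map.injective Subtype.val_injective
  have h1 : glen V G =
      ∑ e ∈ G.edgeFinset.image (Sym2.map (fun z : {z : E d // z ∈ V} => (z : E d))), TruA_len e := by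
    rw [Finset.sum_image (fun a _ b _ hab => hinj hab)]
    unfold glen
    refine Finset.sum_congr rfl (fun e _ => ?_)
    induction e using Sym2.ind with
    | _ x y => rfl
  rw [h1]
  refine Finset.sum_le_sum_of_subset_of_nonneg ?_ (fun e _ _ => TruA_len_nonneg e)
  intro e he
  obtain ⟨e', he', rfl⟩ := Finset.mem_image.1 he
  rw [SimpleGraph.mem_edgeFinset] at he'
  induction e' using Sym2.ind with
  | _ x y =>
    rw [SimpleGraph.mem_edgeSet] at he'
    exact h x y he'

private lemma TruA_glen {V : List (E d)} {L : ℝ} (h : Tr V L) :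
    ∃ G : SimpleGraph (V.toFinset : Finset (E d)), G.Connected ∧ glen V.toFinset G ≤ L := by
  obtain ⟨D, hD1, hD2, hD3⟩ := TruA_graph h
  set G : SimpleGraph (V.toFinset : Finset (E d)) :=
    { Adj := fun a b => a ≠ b ∧ s((a : E d), (b : E d)) ∈ D
      symm := ⟨fun a b hab => ⟨hab.1.symm, by rw [Sym2.eq_swap]; exact hab.2⟩⟩
      loopless := ⟨fun a ha => ha.1 rfl⟩ } with hG
  have hreach : ∀ (x y : E d) (hx : x ∈ V.toFinset),
      Relation.ReflTransGen (fun a b => s(a, b) ∈ D) x y →
      ∃ hy : y ∈ V.toFinset, G.Reachable ⟨x, hx⟩ ⟨y, hy⟩ := by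
    intro x y hx hxy
    induction hxy with
    | refl => exact ⟨hx, SimpleGraph.Reachable.refl _⟩
    | @tail b c hab hbc ih =>
      obtain ⟨hb, hr⟩ := ih
      have hc : c ∈ V.toFinset := List.mem_toFinset.2 (hD1 b c hbc).2
      refine ⟨hc, hr.trans ?_⟩
      by_cases hbc' : b = c
      · subst hbc'
        exact SimpleGraph.Reachable.refl _
      · refine SimpleGraph.Adj.reachable ?_
        exact ⟨fun h => hbc' (congrArg Subtype.val h), hbc⟩
  refine ⟨G, ?_, ?_⟩
  · have hne : V ≠ [] := TruA_ne h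
    obtain ⟨x, hx⟩ := List.exists_mem_of_ne_nil V hne
    have : Nonempty (V.toFinset : Finset (E d)) := ⟨⟨x, List.mem_toFinset.2 hx⟩⟩
    refine SimpleGraph.Connected.mk ?_
    rintro ⟨a, ha⟩ ⟨b, hb⟩
    obtain ⟨hb', hr⟩ := hreach a b ha
      (hD2 a (List.mem_toFinset.1 ha) b (List.mem_toFinset.1 hb))
    exact hr
  · refine le_trans ?_ hD3
    exact TruA_glen_le V.toFinset G D (fun a b hab => hab.2)

theorem gval_animal_mp (q : ℝ≥0∞) (X : Set (E d × ℝ)) (ℓ r : ℝ) (hr : 0 ≤ r)
    (h : Gval (.animal q) X ℓ ≤ ((r : ℝ) : EReal)) : RootT (animM d q) X ℓ r := by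
  intro b C κ hO
  obtain ⟨hC, hO⟩ := hO
  rcases hO with ⟨h1, h2, h3⟩ | ⟨V, L, hV, hCV, ⟨x, hx, y, hy, hL⟩, hκ, hκ2⟩
  · subst h1
    simp
  · obtain ⟨G, hG, hlen⟩ := TruA_glen hV
    have hinf : Metric.infDist 0 (V.toFinset : Set (E d)) ≤ ‖(0 : E d) - x‖ := by
      rw [← dist_eq_norm]
      exact Metric.infDist_le_dist_of_mem (by simpa using hx)
    have hle : glen V.toFinset G + Metric.infDist 0 (V.toFinset : Set (E d)) ≤ ℓ := by
      have := norm_nonneg (b - y)
      linarith
    have h4 : (((∑ x ∈ V.toFinset, mass X x : ℝ≥0∞) : EReal) -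
      ((q * ((V.toFinset.filter (fun x => x ∉ psupp X)).card : ℝ≥0∞) : ℝ≥0∞) : EReal)) ≤
        ((r : ℝ) : EReal) := by
      refine le_trans ?_ h
      refine le_trans ?_ (le_max_right _ _)
      exact le_iSup_of_le V.toFinset (le_iSup_of_le G (le_iSup_of_le hG (le_iSup_of_le hle le_rfl)))
    have hcard : (V.toFinset.filter (fun x => x ∉ psupp X)).card ≤
        V.countP (fun x => decide (x ∉ psupp X)) := by
      rw [List.countP_eq_length_filter]
      refine le_trans (le_of_eq ?_) (List.toFinset_card_le _)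
      congr 1
      ext z
      simp
    have hq : q * ((V.toFinset.filter (fun x => x ∉ psupp X)).card : ℝ≥0∞) ≤ ENNReal.ofReal κ := by
      rw [hκ2]
      gcongr
    have hqt : q * ((V.toFinset.filter (fun x => x ∉ psupp X)).card : ℝ≥0∞) ≠ ∞ :=
      ne_top_of_le_ne_top ENNReal.ofReal_ne_top hq
    have h5 : ((∑ x ∈ V.toFinset, mass X x : ℝ≥0∞) : EReal) ≤ ((r : ℝ) : EReal) +
        ((q * ((V.toFinset.filter (fun x => x ∉ psupp X)).card : ℝ≥0∞) : ℝ≥0∞) : EReal) := by
      refine (EReal.sub_le_iff_le_add (Or.inl ?_) (Or.inl ?_)).1 h4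
      · exact EReal.coe_ennreal_ne_bot _
      · rw [Ne, EReal.coe_ennreal_eq_top_iff]
        exact hqt
    have h6 : ((∑ x ∈ V.toFinset, mass X x : ℝ≥0∞) : EReal) ≤ ((ENNReal.ofReal (r + κ) : ℝ≥0∞) : EReal) := by
      refine h5.trans ?_
      rw [EReal.coe_ennreal_ofReal, max_eq_left (by linarith), EReal.coe_add]
      gcongr
      refine (EReal.coe_ennreal_le_coe_ennreal_iff.2 hq).trans ?_
      rw [EReal.coe_ennreal_ofReal, max_eq_left hκ]
    have h7 := EReal.coe_ennreal_le_coe_ennreal_iff.1 h6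
    refine le_trans ?_ h7
    refine Finset.sum_le_sum_of_subset ?_
    intro z hz
    exact List.mem_toFinset.2 (hCV z hz)

end MP4fb

end
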