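import Pool.Agent.Lib.MP_4fbc34_pr.PppDef
import Pool.Agent.Lib.MP_4fbc34_pr.AoBasic

/-!
JOB TruB: from the root event of the animal model to the animal functional.

Let `(V, G)` be a finite connected graph with `glen V G + infDist 0 V <= ℓ`.
SPANNING TREE LEMMA: there is a list `W`, a permutation of `V.toList`, and `L <= glen V G` with `Tr W L`.  Proof by
growing: claim for every `n` with `1 <= n <= card V`: there are a list `W` without repetitions of `n` vertices and a finset `D`
of edges of `G` between vertices of `W` with `Tr W (∑_{e ∈ D} length e)`; step: if `W` does not contain all vertices, by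
connectedness there is an edge `{x, y}` of `G` with `x ∈ W`, `y ∉ W` (it is not in `D`), and
`Tr.join x y (hW) (Tr.single y)` gives `Tr (W ++ [y]) (L + 0 + ‖x - y‖)`.
The infimum distance is attained at some `x ∈ V` (finite nonempty set): `infDist 0 V = ‖0 - x‖`.
Let `C = V.filter (· ∈ psupp X)`, `c = card (V \ S)`, equal to the count of `W`.
If `q * c = ∞` the value of `(V, G)` is `a - ⊤ = ⊥` for every extended nonnegative `a` (`EReal` arithmetic: `⊤ - ⊤ = ⊥`),
fine.  Otherwise let `κ = (q * c).toReal`, `AO q (psupp X) 0 x ℓ C κ` with the tree `W` and the points `x, x`, so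
`∑_C mass <= ofReal (r + κ)`, the vertices outside `psupp X` have mass `0`, and the value is at most `r`.
The empty animal has value `0 <= r`.
-/

set_option autoImplicit false

open scoped ENNReal Classical

noncomputable section

namespace MP4fb

variable {d : ℕ}

/-- length of an edge -/
private def truB_len (V : Finset (E d)) : Sym2 V → ℝ :=
  Sym2.lift ⟨fun (x y : V) => ‖(x : E d) - y‖, fun _ _ => norm_sub_rev _ _⟩

private theorem truB_len_nonneg (V : Finset (E d)) (e : Sym2 V) : 0 ≤ truB_len V e := by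
  induction e using Sym2.ind with
  | _ x y => exact norm_nonneg ((x : E d) - (y : E d))

private theorem truB_grow (V : Finset (E d)) (G : SimpleGraph V) (hG : G.Connected) (n : ℕ)
    (hn : 1 ≤ n) (hnV : n ≤ V.card) :
    ∃ (W : List V) (D : Finset (Sym2 V)), W.Nodup ∧ W.length = n ∧ (∀ e ∈ D, e ∈ G.edgeSet) ∧
      (∀ e ∈ D, ∀ v ∈ e, v ∈ W) ∧ Tr (W.map Subtype.val) (∑ e ∈ D, truB_len V e) := by
  induction n, hn using Nat.le_induction with
  | base =>
    obtain ⟨v⟩ := hG.nonempty
    refine ⟨[v], ∅, List.nodup_singleton v, rfl, by simp, by simp, ?_⟩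
    simpa using Tr.single (v : E d)
  | succ n hn ih =>
    obtain ⟨W, D, hnd, hlen, hDG, hDW, hTr⟩ := ih (by omega)
    have hex : ∃ v0 : V, v0 ∉ W := by
      by_contra hcon
      push Not at hcon
      have h1 : (Finset.univ : Finset V) ⊆ W.toFinset := fun v _ => List.mem_toFinset.mpr (hcon v)
      have h2 := Finset.card_le_card h1
      rw [Finset.card_univ, Fintype.card_coe, List.toFinset_card_of_nodup hnd, hlen] at h2
      omega
    obtain ⟨v0, hv0⟩ := hex
    obtain ⟨w0, hw0⟩ : ∃ w0, w0 ∈ W := by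
      have : 0 < W.length := by omega
      exact ⟨W[0], List.getElem_mem this⟩
    obtain ⟨pw⟩ := hG.preconnected w0 v0
    obtain ⟨dd, _, hd1, hd2⟩ := pw.exists_boundary_dart {v | v ∈ W} hw0 hv0
    have hadj : G.Adj dd.fst dd.snd := dd.adj
    have hd1' : dd.fst ∈ W := hd1
    have hd2' : dd.snd ∉ W := hd2
    have hnot : s(dd.fst, dd.snd) ∉ D := by
      intro h
      exact hd2' (hDW _ h dd.snd (Sym2.mem_mk_right _ _))
    refine ⟨W ++ [dd.snd], insert s(dd.fst, dd.snd) D, ?_, ?_, ?_, ?_, ?_⟩
    · rw [List.nodup_append]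
      refine ⟨hnd, List.nodup_singleton _, ?_⟩
      intro a ha b hb hab
      rw [List.mem_singleton] at hb
      subst hb
      subst hab
      exact hd2' ha
    · simp [hlen]
    · intro e he
      rcases Finset.mem_insert.mp he with rfl | he
      · exact hadj
      · exact hDG e he
    · intro e he v hv
      rcases Finset.mem_insert.mp he with rfl | he
      · rcases Sym2.mem_iff.mp hv with rfl | rfl
        · exact List.mem_append_left _ hd1'
        · simp
      · exact List.mem_append_left _ (hDW e he v hv)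
    · have h := Tr.join (dd.fst : E d) (dd.snd : E d) hTr (Tr.single (dd.snd : E d))
        (List.mem_map_of_mem hd1') (List.mem_singleton.mpr rfl)
      have hs : ∑ e ∈ insert s(dd.fst, dd.snd) D, truB_len V e =
          ∑ e ∈ D, truB_len V e + 0 + ‖(dd.fst : E d) - (dd.snd : E d)‖ := by
        rw [Finset.sum_insert hnot]
        have : truB_len V s(dd.fst, dd.snd) = ‖(dd.fst : E d) - (dd.snd : E d)‖ := rfl
        rw [this]
        ring
      rw [hs]
      simpa using h

private theorem truB_span (V : Finset (E d)) (G : SimpleGraph V) (hG : G.Connected) :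
    ∃ (W : List (E d)) (L : ℝ), W.Perm V.toList ∧ L ≤ glen V G ∧ Tr W L := by
  obtain ⟨v⟩ := hG.nonempty
  have hc : 1 ≤ V.card := Finset.card_pos.mpr ⟨v.1, v.2⟩
  obtain ⟨W, D, hnd, hlen, hDG, _, hTr⟩ := truB_grow V G hG V.card hc le_rfl
  refine ⟨W.map Subtype.val, _, ?_, ?_, hTr⟩
  · have hnd' : (W.map Subtype.val).Nodup := hnd.map Subtype.val_injective
    rw [List.perm_ext_iff_of_nodup hnd' V.nodup_toList]
    have huniv : W.toFinset = Finset.univ := by
      apply Finset.eq_univ_of_card
      rw [List.toFinset_card_of_nodup hnd, hlen, Fintype.card_coe]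
    intro a
    rw [Finset.mem_toList, List.mem_map]
    constructor
    · rintro ⟨b, _, rfl⟩
      exact b.2
    · intro ha
      refine ⟨⟨a, ha⟩, ?_, rfl⟩
      rw [← List.mem_toFinset, huniv]
      exact Finset.mem_univ _
  · unfold glen
    refine Finset.sum_le_sum_of_subset_of_nonneg ?_ (fun e _ _ => truB_len_nonneg V e)
    intro e he
    rw [SimpleGraph.mem_edgeFinset]
    exact hDG e he

private theorem truB_mass_zero (X : Set (E d × ℝ)) (x : E d) (hx : x ∉ psupp X) :
    mass X x = 0 := by
  unfold mass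
  have : IsEmpty {t : ℝ // (x, t) ∈ X} := ⟨fun t => hx ⟨t.1, t.2⟩⟩
  exact tsum_empty

theorem gval_animal_mpr (q : ℝ≥0∞) (X : Set (E d × ℝ)) (ℓ r : ℝ) (hr : 0 ≤ r)
    (h : RootT (animM d q) X ℓ r) : Gval (.animal q) X ℓ ≤ ((r : ℝ) : EReal) := by
  show Aval q X ℓ ≤ ((r : ℝ) : EReal)
  unfold Aval
  refine max_le (by exact_mod_cast hr) ?_
  refine iSup_le fun V => iSup_le fun G => iSup_le fun hG => iSup_le fun hlen => ?_
  obtain ⟨W, L, hperm, hL, hTr⟩ := truB_span V G hG
  obtain ⟨v⟩ := hG.nonempty
  have hne : (V : Set (E d)).Nonempty := ⟨v.1, v.2⟩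
  obtain ⟨x, hxV, hx⟩ := V.finite_toSet.isCompact.exists_infDist_eq_dist hne (0 : E d)
  have hcount : W.countP (fun x => decide (x ∉ psupp X)) =
      (V.filter (fun x => x ∉ psupp X)).card := by
    rw [hperm.countP_eq, ← Multiset.coe_countP, Finset.coe_toList, Multiset.countP_eq_card_filter]
    rfl
  by_cases htop : q * ((V.filter (fun x => x ∉ psupp X)).card : ℝ≥0∞) = ⊤
  · rw [htop, EReal.coe_ennreal_top, sub_eq_add_neg, EReal.neg_top, EReal.add_bot]
    exact bot_le
  · have hmass : ∑ x ∈ V, mass X x = ∑ x ∈ V.filter (fun x => x ∈ psupp X), mass X x := by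
      rw [Finset.sum_filter]
      refine Finset.sum_congr rfl fun y _ => ?_
      split_ifs with hy
      · rfl
      · exact truB_mass_zero X y hy
    have hκ0 : 0 ≤ (q * ((V.filter (fun x => x ∉ psupp X)).card : ℝ≥0∞)).toReal :=
      ENNReal.toReal_nonneg
    have hκ : ENNReal.ofReal (q * ((V.filter (fun x => x ∉ psupp X)).card : ℝ≥0∞)).toReal =
        q * ((V.filter (fun x => x ∉ psupp X)).card : ℝ≥0∞) := ENNReal.ofReal_toReal htop
    have hAO : AO q (psupp X) 0 x ℓ (V.filter (fun x => x ∈ psupp X))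
        (q * ((V.filter (fun x => x ∉ psupp X)).card : ℝ≥0∞)).toReal := by
      refine ⟨?_, Or.inr ⟨W, L, hTr, ?_, ?_, hκ0, ?_⟩⟩
      · intro y hy
        exact (Finset.mem_filter.mp (Finset.mem_coe.mp hy)).2
      · intro y hy
        rw [hperm.mem_iff, Finset.mem_toList]
        exact (Finset.mem_filter.mp hy).1
      · have hxW : x ∈ W := by
          rw [hperm.mem_iff, Finset.mem_toList]
          exact hxV
        refine ⟨x, hxW, x, hxW, ?_⟩
        rw [sub_self, norm_zero, add_zero, ← dist_eq_norm, ← hx]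
        linarith
      · rw [hκ, hcount]
    have h1 := h x _ _ hAO
    rw [hmass]
    set κ := (q * ((V.filter (fun x => x ∉ psupp X)).card : ℝ≥0∞)).toReal with hκdef
    rw [← hκ]
    have h2 : ((∑ x ∈ V.filter (fun x => x ∈ psupp X), mass X x : ℝ≥0∞) : EReal) ≤
        ((r + κ : ℝ) : EReal) := by
      refine (EReal.coe_ennreal_le_coe_ennreal_iff.mpr h1).trans ?_
      rw [EReal.coe_ennreal_ofReal, max_eq_left (by linarith)]
    have h3 : ((ENNReal.ofReal κ : ℝ≥0∞) : EReal) = ((κ : ℝ) : EReal) := by
      rw [EReal.coe_ennreal_ofReal, max_eq_left hκ0]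
    rw [h3]
    refine (EReal.sub_le_sub h2 le_rfl).trans ?_
    rw [← EReal.coe_sub]
    exact le_of_eq (by congr 1; ring)

end MP4fb

end
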