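import Pool.Agent.Lib.MP_4fbc34_pr.PppDef
import Pool.Agent.Lib.MP_4fbc34_pr.AoBasic

/-!
JOB TruD: if the atoms are dense, Steiner points are free.

Let `AO 0 S 0 b ℓ' C κ`, `S = psupp X`; the cost is `κ = 0` (`ofReal κ = 0 * .. = 0`, `κ >= 0`).  If `C = ∅` the claim is trivial
(the sum is `0`).  Otherwise let `Tr V L`, `x, y ∈ V`, `L + ‖0 - x‖ + ‖b - y‖ <= ℓ'`.  Let `ε > 0` with
`(2 * V.length + 2) * ε <= ℓ - ℓ'`.  Choose `φ` with `φ z = z` for `z ∈ S` and `φ z ∈ S`, `‖φ z - z‖ < ε` for `z ∉ S`.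
PERTURBATION LEMMA (induction on `Tr`): `Tr (V.map φ) L'` for some `L' <= L + 2 ε V.length`.
The tree `V.map φ` has all its vertices in `S` and contains `C` (`C ⊆ S`, `φ` is the identity there), so
`AO q S 0 b ℓ C 0` for every `q` (`L' + ‖0 - φ x‖ + ‖b - φ y‖ <= ℓ' + 2 ε V.length + 2 ε <= ℓ`), and `h` gives
`∑_C mass <= ofReal (r + 0)`.
-/

set_option autoImplicit false

open scoped ENNReal Classical

noncomputable section

namespace MP4fb

variable {d : ℕ}

private lemma TruD_pert (φ : E d → E d) (ε : ℝ) (hφ : ∀ z, ‖φ z - z‖ ≤ ε) {V : List (E d)} {L : ℝ}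
    (h : Tr V L) : ∃ L' : ℝ, Tr (V.map φ) L' ∧ L' + 2 * ε ≤ L + 2 * ε * V.length := by
  induction h with
  | single x => exact ⟨0, Tr.single (φ x), by simp⟩
  | @join V W L L' x y hV hW hx hy ihV ihW =>
    obtain ⟨L1, h1, h1'⟩ := ihV
    obtain ⟨L2, h2, h2'⟩ := ihW
    refine ⟨L1 + L2 + ‖φ x - φ y‖, ?_, ?_⟩
    · rw [List.map_append]
      exact Tr.join (φ x) (φ y) h1 h2 (List.mem_map_of_mem hx) (List.mem_map_of_mem hy)
    · have h3 : ‖φ x - φ y‖ ≤ ‖x - y‖ + 2 * ε := by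
        have h4 : φ x - φ y = (φ x - x) + (x - y) - (φ y - y) := by abel
        rw [h4]
        have h5 := norm_sub_le ((φ x - x) + (x - y)) (φ y - y)
        have h6 := norm_add_le (φ x - x) (x - y)
        have h7 := hφ x
        have h8 := hφ y
        linarith
      rw [List.length_append]
      push_cast
      nlinarith

theorem dense_animal (q : ℝ≥0∞) (X : Set (E d × ℝ))
    (hdense : ∀ (x : E d) (ε : ℝ), 0 < ε → ∃ y ∈ psupp X, ‖y - x‖ < ε) (ℓ ℓ' r : ℝ) (hℓ : ℓ' < ℓ)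
    (h : RootT (animM d q) X ℓ r) : RootT (animM d 0) X ℓ' r := by
  intro b C κ hO
  obtain ⟨hC, hO⟩ := hO
  rcases hO with ⟨h1, h2, h3⟩ | ⟨V, L, hV, hCV, ⟨x, hx, y, hy, hL⟩, hκ, hκ2⟩
  · subst h1
    simp
  · have hκ0 : κ = 0 := by
      rw [zero_mul, ENNReal.ofReal_eq_zero] at hκ2
      exact le_antisymm hκ2 hκ
    subst hκ0
    set ε : ℝ := (ℓ - ℓ') / (2 * V.length + 2) with hε
    have hpos : (0 : ℝ) < 2 * V.length + 2 := by positivity
    have hε0 : 0 < ε := div_pos (by linarith) hpos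
    have hεm : ε * (2 * V.length + 2) = ℓ - ℓ' := by
      rw [hε]
      field_simp
    have hex : ∀ z : E d, ∃ w : E d, w ∈ psupp X ∧ ‖w - z‖ ≤ ε ∧ (z ∈ psupp X → w = z) := by
      intro z
      by_cases hz : z ∈ psupp X
      · exact ⟨z, hz, by rw [sub_self, norm_zero]; exact hε0.le, fun _ => rfl⟩
      · obtain ⟨w, hw, hw2⟩ := hdense z ε hε0
        exact ⟨w, hw, hw2.le, fun hz' => absurd hz' hz⟩
    choose φ hφ1 hφ2 hφ3 using hex
    obtain ⟨L', hT, hL'⟩ := TruD_pert φ ε hφ2 hV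
    have hAO : (animM d q).O (psupp X) 0 b ℓ C 0 := by
      refine ⟨hC, Or.inr ⟨V.map φ, L', hT, ?_, ⟨φ x, List.mem_map_of_mem hx, φ y,
        List.mem_map_of_mem hy, ?_⟩, le_refl _, ?_⟩⟩
      · intro z hz
        have h1 := hφ3 z (hC hz)
        rw [← h1]
        exact List.mem_map_of_mem (hCV z hz)
      · have h4 : ‖(0 : E d) - φ x‖ ≤ ‖(0 : E d) - x‖ + ε := by
          have h5 : (0 : E d) - φ x = (0 - x) - (φ x - x) := by abel
          rw [h5]
          exact (norm_sub_le _ _).trans (by linarith [hφ2 x])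
        have h6 : ‖b - φ y‖ ≤ ‖b - y‖ + ε := by
          have h5 : b - φ y = (b - y) - (φ y - y) := by abel
          rw [h5]
          exact (norm_sub_le _ _).trans (by linarith [hφ2 y])
        nlinarith
      · have h7 : (V.map φ).countP (fun x => decide (x ∉ psupp X)) = 0 := by
          rw [List.countP_eq_zero]
          intro z hz
          obtain ⟨w, -, rfl⟩ := List.mem_map.1 hz
          simp [hφ1 w]
        rw [h7]
        simp
    exact h b C 0 hAO

/-- a larger Steiner cost makes the root event larger -/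
theorem root_animal_mono (q : ℝ≥0∞) (X : Set (E d × ℝ)) (ℓ r : ℝ)
    (h : RootT (animM d 0) X ℓ r) : RootT (animM d q) X ℓ r := by
  intro b C κ hO
  obtain ⟨hC, hO⟩ := hO
  rcases hO with ⟨h1, h2, h3⟩ | ⟨V, L, hV, hCV, hxy, hκ, hκ2⟩
  · subst h1
    simp
  · have hAO : (animM d 0).O (psupp X) 0 b ℓ C 0 := by
      refine ⟨hC, Or.inr ⟨V, L, hV, hCV, hxy, le_refl _, ?_⟩⟩
      rw [zero_mul, ENNReal.ofReal_zero]
    refine (h b C 0 hAO).trans (ENNReal.ofReal_le_ofReal ?_)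
    linarith

end MP4fb

end
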