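import Pool.Agent.Lib.MP_4fbc34_pr.Base

/-!
JOB PoBasic: the elementary properties of path objects.
* `plen` facts (prove as private lemmas first): `plen` is nonnegative; `plen (x :: l ++ y :: l')` splits;
  the distance of two entries of a list is at most `plen`; the triangle inequality when the end points
  are moved (`plen (a' :: (a :: l ++ [b]) ++ [b'])`); concatenation of `a :: (l ++ [b])` and
  `b :: (l' ++ [c])` gives the list `a :: ((l ++ [b] ++ l') ++ [c])` whose length is at most the sum
  (exactly the sum, the point `b` occurs once or twice, both are fine); images under a Lipschitz map.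
* cone: use the list with `a'` in front of `a` and `b'` behind `b`.
* loc: all vertices of the polygon are within distance `plen <= lam` of `a`, so the set `C` is contained
  in the ball; the same list works.
* count: a list which visits `n` points that are pairwise at distance at least `r` has
  `plen >= (n - 1) r` (induction on the list, remembering the last visited point of `C`; or: order the
  points of `C` by first visit), even `r * card <= r + lam`.
* rev: reverse the list (`plen l.reverse = plen l`).  poly: the list itself, `0 <= plen <= lam <= 2 lam`.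
-/

set_option autoImplicit false

open scoped ENNReal Classical

noncomputable section

namespace MP4fb

variable {d : ℕ}

theorem plen_nonneg (l : List (E d)) : 0 ≤ plen l := by
  induction l with
  | nil => exact le_of_eq rfl
  | cons x l ih =>
    cases l with
    | nil => exact le_of_eq rfl
    | cons y l =>
      show 0 ≤ ‖x - y‖ + plen (y :: l)
      have := norm_nonneg (x - y)
      linarith

private theorem pob_cc (x y : E d) (l : List (E d)) : plen (x :: y :: l) = ‖x - y‖ + plen (y :: l) := rfl

private theorem pob_one (x : E d) : plen [x] = 0 := rfl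

private theorem pob_append (l l' : List (E d)) (x : E d) :
    plen (l ++ x :: l') = plen (l ++ [x]) + plen (x :: l') := by
  induction l with
  | nil => rw [List.nil_append, List.nil_append, pob_one, zero_add]
  | cons y l ih =>
    cases l with
    | nil =>
      show plen (y :: x :: l') = plen (y :: x :: []) + plen (x :: l')
      rw [pob_cc, pob_cc, pob_one, add_zero]
    | cons z l =>
      show plen (y :: z :: (l ++ x :: l')) = plen (y :: z :: (l ++ [x])) + plen (x :: l')
      rw [pob_cc, pob_cc]
      have h : plen (z :: (l ++ x :: l')) = plen (z :: (l ++ [x])) + plen (x :: l') := ih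
      rw [h]
      ring

private theorem pob_tri (l : List (E d)) (a b : E d) : ‖a - b‖ ≤ plen (a :: (l ++ [b])) := by
  induction l generalizing a with
  | nil =>
    show ‖a - b‖ ≤ plen (a :: b :: [])
    rw [pob_cc, pob_one, add_zero]
  | cons c l ih =>
    show ‖a - b‖ ≤ plen (a :: c :: (l ++ [b]))
    rw [pob_cc]
    have h1 := ih c
    have h2 := norm_sub_le_norm_sub_add_norm_sub a c b
    linarith

private theorem pob_mem (l : List (E d)) (a x : E d) (hx : x ∈ a :: l) : ‖a - x‖ ≤ plen (a :: l) := by
  induction l generalizing a with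
  | nil =>
    rw [List.mem_singleton] at hx
    rw [hx, sub_self, norm_zero]
    exact plen_nonneg _
  | cons c l ih =>
    rcases List.mem_cons.1 hx with rfl | hx
    · rw [sub_self, norm_zero]
      exact plen_nonneg _
    · rw [pob_cc]
      have h1 := ih c hx
      have h2 := norm_sub_le_norm_sub_add_norm_sub a c x
      linarith

private theorem pob_reverse (l : List (E d)) : plen l.reverse = plen l := by
  induction l with
  | nil => rfl
  | cons x l ih =>
    cases l with
    | nil => rfl
    | cons y l =>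
      have h : (x :: y :: l).reverse = l.reverse ++ y :: [x] := by simp
      have h1 : (y :: l).reverse = l.reverse ++ [y] := by simp
      rw [h, pob_append, ← h1, ih, pob_cc, pob_cc, pob_one, add_zero, norm_sub_rev y x]
      ring

private theorem pob_map (Φ : E d → E d) (K : ℝ) (hΦ : ∀ x y, ‖Φ x - Φ y‖ ≤ K * ‖x - y‖) (l : List (E d)) :
    plen (l.map Φ) ≤ K * plen l := by
  induction l with
  | nil =>
    show (0 : ℝ) ≤ K * 0
    rw [mul_zero]
  | cons x l ih =>
    cases l with
    | nil =>
      show (0 : ℝ) ≤ K * 0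
      rw [mul_zero]
    | cons y l =>
      show ‖Φ x - Φ y‖ + plen ((y :: l).map Φ) ≤ K * (‖x - y‖ + plen (y :: l))
      have := hΦ x y
      rw [mul_add]
      linarith

private theorem pob_cnt (r : ℝ) (_ : 0 ≤ r) (L : List (E d)) : ∀ (z p : E d) (C : Finset (E d)),
    (∀ x ∈ C, x ∈ z :: L) → (∀ x ∈ C, ∀ y ∈ C, x ≠ y → r ≤ ‖x - y‖) → (∀ x ∈ C, r ≤ ‖p - x‖) →
    r * C.card ≤ ‖p - z‖ + plen (z :: L) := by
  induction L with
  | nil =>
    intro z p C hC _ hp
    rw [pob_one, add_zero]
    have h1 : C ⊆ {z} := fun x hx => by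
      have := hC x hx
      rw [List.mem_singleton] at this
      rw [Finset.mem_singleton]
      exact this
    rcases Finset.subset_singleton_iff.1 h1 with h | h
    · rw [h, Finset.card_empty, Nat.cast_zero, mul_zero]
      exact norm_nonneg _
    · rw [h, Finset.card_singleton, Nat.cast_one, mul_one]
      exact hp z (by rw [h]; exact Finset.mem_singleton_self z)
  | cons w L ih =>
    intro z p C hC hs hp
    rw [pob_cc]
    by_cases hz : z ∈ C
    · have h1 := ih w z (C.erase z) (fun x hx => by
          rcases List.mem_cons.1 (hC x (Finset.mem_of_mem_erase hx)) with h | h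
          · exact absurd h (Finset.ne_of_mem_erase hx)
          · exact h)
        (fun x hx y hy => hs x (Finset.mem_of_mem_erase hx) y (Finset.mem_of_mem_erase hy))
        (fun x hx => hs z hz x (Finset.mem_of_mem_erase hx) (Finset.ne_of_mem_erase hx).symm)
      have h2 := hp z hz
      have h3 : (C.card : ℝ) = (C.erase z).card + 1 := by
        rw [← Finset.card_erase_add_one hz]
        push_cast
        rfl
      rw [h3]
      linarith
    · have h1 := ih w p C (fun x hx => by
          rcases List.mem_cons.1 (hC x hx) with h | h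
          · rw [h] at hx
            exact absurd hx hz
          · exact h) hs hp
      have h2 := norm_sub_le_norm_sub_add_norm_sub p z w
      linarith

private theorem pob_count (r : ℝ) (hr : 0 ≤ r) (L : List (E d)) : ∀ (z : E d) (C : Finset (E d)),
    (∀ x ∈ C, x ∈ z :: L) → (∀ x ∈ C, ∀ y ∈ C, x ≠ y → r ≤ ‖x - y‖) →
    r * C.card ≤ r + plen (z :: L) := by
  induction L with
  | nil =>
    intro z C hC _
    rw [pob_one, add_zero]
    have h1 : C ⊆ {z} := fun x hx => by
      have := hC x hx
      rw [List.mem_singleton] at this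
      rw [Finset.mem_singleton]
      exact this
    have h2 : C.card ≤ 1 := by
      have := Finset.card_le_card h1
      rwa [Finset.card_singleton] at this
    have h3 : (C.card : ℝ) ≤ 1 := by exact_mod_cast h2
    nlinarith
  | cons w L ih =>
    intro z C hC hs
    rw [pob_cc]
    by_cases hz : z ∈ C
    · have h1 := pob_cnt r hr L w z (C.erase z) (fun x hx => by
          rcases List.mem_cons.1 (hC x (Finset.mem_of_mem_erase hx)) with h | h
          · exact absurd h (Finset.ne_of_mem_erase hx)
          · exact h)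
        (fun x hx y hy => hs x (Finset.mem_of_mem_erase hx) y (Finset.mem_of_mem_erase hy))
        (fun x hx => hs z hz x (Finset.mem_of_mem_erase hx) (Finset.ne_of_mem_erase hx).symm)
      have h3 : (C.card : ℝ) = (C.erase z).card + 1 := by
        rw [← Finset.card_erase_add_one hz]
        push_cast
        rfl
      rw [h3]
      linarith
    · have h1 := ih w C (fun x hx => by
          rcases List.mem_cons.1 (hC x hx) with h | h
          · rw [h] at hx
            exact absurd hx hz
          · exact h) hs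
      have h2 := norm_nonneg (z - w)
      linarith

theorem po_emp (S : Set (E d)) (a b : E d) (lam : ℝ) (h : ‖a - b‖ ≤ lam) : PO S a b lam ∅ 0 := by
  refine ⟨by simp, rfl, [], ?_, ?_⟩
  · show plen (a :: b :: []) ≤ lam
    rw [pob_cc, pob_one, add_zero]
    exact h
  · intro x hx
    exact absurd hx (Finset.notMem_empty x)

theorem po_sub (S : Set (E d)) (a b : E d) (lam : ℝ) (C C' : Finset (E d)) (κ : ℝ)
    (h : PO S a b lam C κ) (hC : C' ⊆ C) : PO S a b lam C' κ := by
  obtain ⟨h1, h2, l, h3, h4⟩ := h
  exact ⟨fun x hx => h1 (hC hx), h2, l, h3, fun x hx => h4 x (hC hx)⟩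

theorem po_valid (S : Set (E d)) (a b : E d) (lam : ℝ) (C : Finset (E d)) (κ : ℝ)
    (h : PO S a b lam C κ) : ‖a - b‖ ≤ lam := by
  obtain ⟨_, _, l, h3, _⟩ := h
  exact (pob_tri l a b).trans h3

theorem po_cat (S : Set (E d)) (a b c : E d) (lam mu : ℝ) (C C' : Finset (E d)) (κ κ' : ℝ)
    (h : PO S a b lam C κ) (h' : PO S b c mu C' κ') : PO S a c (lam + mu) (C ∪ C') (κ + κ') := by
  obtain ⟨h1, h2, l, h3, h4⟩ := h
  obtain ⟨h1', h2', l', h3', h4'⟩ := h'
  refine ⟨?_, by rw [h2, h2', add_zero], l ++ b :: l', ?_, ?_⟩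
  · intro x hx
    rw [Finset.mem_coe, Finset.mem_union] at hx
    rcases hx with hx | hx
    · exact h1 hx
    · exact h1' hx
  · have e1 : a :: ((l ++ b :: l') ++ [c]) = (a :: l) ++ b :: (l' ++ [c]) := by simp
    rw [e1, pob_append]
    exact add_le_add h3 h3'
  · intro x hx
    rw [Finset.mem_union] at hx
    rcases hx with hx | hx
    · have := h4 x hx
      simp only [List.mem_cons, List.mem_append, List.not_mem_nil, or_false] at this ⊢
      tauto
    · have := h4' x hx
      simp only [List.mem_cons, List.mem_append, List.not_mem_nil, or_false] at this ⊢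
      tauto

theorem po_cone (S : Set (E d)) (a b a' b' : E d) (lam lam' : ℝ) (C : Finset (E d)) (κ : ℝ)
    (h : PO S a b lam C κ) (hl : lam + ‖a - a'‖ + ‖b - b'‖ ≤ lam') : PO S a' b' lam' C κ := by
  obtain ⟨h1, h2, l, h3, h4⟩ := h
  refine ⟨h1, h2, a :: (l ++ [b]), ?_, ?_⟩
  · have e1 : a' :: ((a :: (l ++ [b])) ++ [b']) = a' :: a :: (l ++ b :: [b']) := by simp
    have e2 : a :: (l ++ b :: [b']) = (a :: l) ++ b :: [b'] := rfl
    have e3 : (a :: l) ++ [b] = a :: (l ++ [b]) := rfl
    rw [e1, pob_cc, e2, pob_append, e3, pob_cc, pob_one, add_zero, norm_sub_rev a' a]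
    linarith
  · intro x hx
    have := h4 x hx
    simp only [List.mem_cons, List.mem_append, List.not_mem_nil, or_false] at this ⊢
    tauto

theorem po_lip (S S' : Set (E d)) (a b : E d) (lam : ℝ) (C : Finset (E d)) (κ : ℝ) (Φ : E d → E d)
    (K : ℝ) (hK : 0 ≤ K) (hΦ : ∀ x y, ‖Φ x - Φ y‖ ≤ K * ‖x - y‖) (hS : ∀ x ∈ S, Φ x ∈ S')
    (h : PO S a b lam C κ) : ∃ κ' ≤ κ, PO S' (Φ a) (Φ b) (K * lam) (C.image Φ) κ' := by
  obtain ⟨h1, h2, l, h3, h4⟩ := h
  refine ⟨κ, le_rfl, ?_, h2, l.map Φ, ?_, ?_⟩
  · intro y hy
    rw [Finset.mem_coe, Finset.mem_image] at hy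
    obtain ⟨x, hx, rfl⟩ := hy
    exact hS x (h1 hx)
  · have e1 : Φ a :: (l.map Φ ++ [Φ b]) = (a :: (l ++ [b])).map Φ := by simp
    rw [e1]
    exact (pob_map Φ K hΦ _).trans (mul_le_mul_of_nonneg_left h3 hK)
  · intro y hy
    rw [Finset.mem_image] at hy
    obtain ⟨x, hx, rfl⟩ := hy
    have e1 : Φ a :: (l.map Φ ++ [Φ b]) = (a :: (l ++ [b])).map Φ := by simp
    rw [e1]
    exact List.mem_map_of_mem (h4 x hx)

theorem po_loc (S : Set (E d)) (a b : E d) (lam : ℝ) (C : Finset (E d)) (κ : ℝ)
    (h : PO S a b lam C κ) : PO (S ∩ Metric.closedBall a lam) a b lam C κ := by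
  obtain ⟨h1, h2, l, h3, h4⟩ := h
  refine ⟨fun x hx => ⟨h1 hx, ?_⟩, h2, l, h3, h4⟩
  rw [Metric.mem_closedBall, dist_eq_norm, norm_sub_rev]
  exact (pob_mem _ a x (h4 x hx)).trans h3

theorem po_count (S : Set (E d)) (a b : E d) (lam : ℝ) (C : Finset (E d)) (κ r : ℝ)
    (h : PO S a b lam C κ) (hr : 0 ≤ r) (hC : ∀ x ∈ C, ∀ y ∈ C, x ≠ y → r ≤ ‖x - y‖) :
    r * C.card ≤ r + lam := by
  obtain ⟨h1, h2, l, h3, h4⟩ := h
  have := pob_count r hr (l ++ [b]) a C h4 hC
  linarith

theorem po_rev (S : Set (E d)) (a b : E d) (lam : ℝ) (C : Finset (E d)) (κ : ℝ)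
    (h : PO S a b lam C κ) : PO S b a lam C κ := by
  obtain ⟨h1, h2, l, h3, h4⟩ := h
  have e1 : b :: (l.reverse ++ [a]) = (a :: (l ++ [b])).reverse := by simp
  refine ⟨h1, h2, l.reverse, ?_, ?_⟩
  · rw [e1, pob_reverse]
    exact h3
  · intro x hx
    rw [e1, List.mem_reverse]
    exact h4 x hx

theorem po_poly (S : Set (E d)) (a b : E d) (lam : ℝ) (C : Finset (E d)) (κ : ℝ)
    (h : PO S a b lam C κ) : ∃ l : List (E d), plen l ≤ 2 * lam ∧ ∀ x ∈ C, x ∈ l := by
  obtain ⟨h1, h2, l, h3, h4⟩ := h
  refine ⟨a :: (l ++ [b]), ?_, h4⟩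
  have := plen_nonneg (a :: (l ++ [b]))
  linarith

theorem po_ins (S S' : Set (E d)) (a b : E d) (lam : ℝ) (C : Finset (E d)) (κ : ℝ)
    (h : PO S a b lam C κ) (hC : ↑C ⊆ S') : ∃ κ' ≤ κ, PO S' a b lam C κ' := by
  obtain ⟨h1, h2, l, h3, h4⟩ := h
  exact ⟨κ, le_rfl, hC, h2, l, h3, h4⟩

end MP4fb

end
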