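import Pool.Agent.Lib.MP_4fbc34_pr.PppDef
import Pool.Agent.Lib.MP_4fbc34_pr.PoBasic

/-!
JOB TruP: the path functional and the root event of the path model.

`Gval .path X ℓ = (Pval X ℓ : EReal)`; `((x : ℝ≥0∞) : EReal) <= (r : EReal)` iff `x <= ENNReal.ofReal r` for `r >= 0`.
(→) Let `PO S 0 b ℓ C κ`, so `κ = 0` and there is a list `l` with `plen (0 :: (l ++ [b])) <= ℓ` whose vertices contain `C`.  The
list `l ++ [b]` is allowed in the supremum, so `∑_{x ∈ C} mass <= ∑ over the vertices <= ofReal r`.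
(←) Let `plen (0 :: l) <= ℓ`; `C` = the vertices in `psupp X`, the others have mass `0` (empty sum).  If `l = []` use
`b = 0` and the list `0 :: ([] ++ [0])` of length `0 <= ℓ` (`plen [0] = 0 <= ℓ`), otherwise `l = l' ++ [b]`.
-/

set_option autoImplicit false

open scoped ENNReal Classical

noncomputable section

namespace MP4fb

variable {d : ℕ}

private theorem TruP_mass_zero (X : Set (E d × ℝ)) (x : E d) (hx : x ∉ psupp X) :
    mass X x = 0 := by
  have : IsEmpty {t : ℝ // (x, t) ∈ X} := ⟨fun t => hx ⟨t.1, t.2⟩⟩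
  exact tsum_empty

theorem gval_path (X : Set (E d × ℝ)) (ℓ r : ℝ) (hr : 0 ≤ r) :
    Gval .path X ℓ ≤ ((r : ℝ) : EReal) ↔ RootT (pathM d) X ℓ r := by
  have h0 : Gval .path X ℓ ≤ ((r : ℝ) : EReal) ↔ Pval X ℓ ≤ ENNReal.ofReal r := by
    have h1 : ((ENNReal.ofReal r : ℝ≥0∞) : EReal) = ((r : ℝ) : EReal) := by
      rw [EReal.coe_ennreal_ofReal, max_eq_left hr]
    rw [← h1]
    exact EReal.coe_ennreal_le_coe_ennreal_iff
  rw [h0, Pval, iSup₂_le_iff]
  constructor
  · rintro h b C κ ⟨-, rfl, l, hl, hC⟩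
    rw [add_zero]
    refine le_trans (Finset.sum_le_sum_of_subset fun x hx => ?_) (h (l ++ [b]) hl)
    exact List.mem_toFinset.2 (hC x hx)
  · intro h l hl
    have hsum : ∑ x ∈ (0 :: l).toFinset, mass X x =
        ∑ x ∈ (0 :: l).toFinset.filter (fun x => x ∈ psupp X), mass X x := by
      rw [Finset.sum_filter]
      refine Finset.sum_congr rfl fun x _ => ?_
      by_cases hx : x ∈ psupp X
      · rw [if_pos hx]
      · rw [if_neg hx, TruP_mass_zero X x hx]
    rw [hsum]
    have key : ∃ b : E d, PO (psupp X) 0 b ℓ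
        ((0 :: l).toFinset.filter (fun x => x ∈ psupp X)) 0 := by
      have hsub : (((0 :: l).toFinset.filter (fun x => x ∈ psupp X) : Finset (E d)) :
          Set (E d)) ⊆ psupp X := by
        intro x hx
        exact (Finset.mem_filter.1 (Finset.mem_coe.1 hx)).2
      rcases List.eq_nil_or_concat' l with rfl | ⟨l', b, rfl⟩
      · refine ⟨0, hsub, rfl, [], ?_, ?_⟩
        · have h1 : plen (0 :: ([] ++ [(0 : E d)])) = plen [(0 : E d)] := by
            simp [plen]
          rw [h1]
          exact hl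
        · intro x hx
          have := List.mem_toFinset.1 (Finset.mem_filter.1 hx).1
          exact List.mem_cons.2 (Or.inl (List.mem_singleton.1 this))
      · exact ⟨b, hsub, rfl, l', hl, fun x hx =>
          List.mem_toFinset.1 (Finset.mem_filter.1 hx).1⟩
    obtain ⟨b, hb⟩ := key
    have := h b _ 0 hb
    rwa [add_zero] at this

end MP4fb

end
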