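import Pool.Agent.Lib.MP_4fbc34_pr.Core
import Pool.Agent.Lib.MP_4fbc34_pr.Inst
import Pool.Agent.Lib.MP_4fbc34_pr.TruP
import Pool.Agent.Lib.MP_4fbc34_pr.TruA
import Pool.Agent.Lib.MP_4fbc34_pr.TruB
import Pool.Agent.Lib.MP_4fbc34_pr.TruD
import Pool.Agent.Lib.MP_4fbc34_pr.Dense
import Pool.Agent.Lib.MP_4fbc34_pr.LimEx

/-!
The final theorem.
-/

set_option autoImplicit false

open MeasureTheory ProbabilityTheory Filter Topology
open scoped ENNReal Classical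

noncomputable section

namespace MP4fb

variable {d : ℕ}

theorem rootT_mono (M : Model d) (hM : M.Ok) (X : Set (E d × ℝ)) (L L' r : ℝ) (h : L' ≤ L)
    (hR : RootT M X L r) : RootT M X L' r := by
  intro b C κ hO
  exact hR b C κ (hM.cone _ 0 b 0 b L' L C κ hO (by simpa using h))

theorem frequently_mono_pos (p q : ℝ → Prop) (h : ∀ ℓ, 0 < ℓ → p ℓ → q ℓ) (hp : ∃ᶠ ℓ in atTop, p ℓ) :
    ∃ᶠ ℓ in atTop, q ℓ := by
  refine (hp.and_eventually (eventually_gt_atTop 0)).mono ?_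
  rintro ℓ ⟨h1, h2⟩
  exact h ℓ h2 h1

variable {Ω : Type*} [MeasurableSpace Ω] (μ : Measure Ω) [IsProbabilityMeasure μ]
  (Ξ : Ω → Set (E d × ℝ)) (ν : Measure ℝ)

/-- positive `ζ`, models without the difference between `q` and `0` -/
theorem pos_limit (hd : 2 ≤ d) (hΞ : IsPPP μ Ξ ν) (hν : ν (Set.Iic 0) = 0)
    (hG : ∫⁻ t in Set.Ioi (0 : ℝ), (ν (Set.Ici t)) ^ ((d : ℝ)⁻¹) ≠ ∞)
    (M : Model d) (hM : M.Ok) (hcase : ν Set.univ ≠ ∞ ∨ (M.Ins ∧ ¬ M.hub)) (ζ : ℝ) (hζ : 0 < ζ)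
    (Ev : ℝ → Set Ω) (hlow : ∀ ℓ, 0 < ℓ → {ω | RootT M (Ξ ω) ℓ (ζ * ℓ)} ⊆ Ev ℓ)
    (hup : ∀ ℓ c, 0 < ℓ → 0 < c → c < 1 →
      μ (Ev ℓ) ≤ μ {ω | RootT M (Ξ ω) ((1 - c) * ℓ) (ζ * ℓ)}) :
    ∃ L : EReal, 0 ≤ L ∧ Tendsto (fun ℓ : ℝ =>
      -(ENNReal.log (μ (Ev ℓ))) / ((ℓ ^ d : ℝ) : EReal)) atTop (𝓝 L) := by
  refine lim_exists μ d (by omega) Ev ?_
  intro I θ hI hθ hf
  have h := core μ Ξ ν hd hΞ hν hG M hM hcase ζ I θ hζ hI hθ (fun c hc0 hc1 => by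
    refine frequently_mono_pos _ _ ?_ hf
    intro ℓ hℓ h1
    refine h1.trans (ENNReal.toReal_mono (measure_ne_top μ _) (hup ℓ c hℓ hc0 hc1)))
  filter_upwards [h, eventually_gt_atTop 0] with L hL hL0
  exact hL.trans (ENNReal.toReal_mono (measure_ne_top μ _) (measure_mono (hlow L hL0)))

theorem gval_animal (q : ℝ≥0∞) (X : Set (E d × ℝ)) (ℓ r : ℝ) (hr : 0 ≤ r) :
    Gval (.animal q) X ℓ ≤ ((r : ℝ) : EReal) ↔ RootT (animM d q) X ℓ r :=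
  ⟨gval_animal_mp q X ℓ r hr, gval_animal_mpr q X ℓ r hr⟩

theorem gval_nonneg (G : GType) (X : Set (E d × ℝ)) (ℓ : ℝ) : 0 ≤ Gval G X ℓ := by
  cases G with
  | path => exact EReal.coe_ennreal_nonneg _
  | animal q => exact le_max_left _ _

theorem mass_pos (X : Set (E d × ℝ)) (p : E d × ℝ) (hp : p ∈ X) (h : 0 < p.2) :
    0 < mass X p.1 := by
  have h1 : ENNReal.ofReal p.2 ≤ mass X p.1 :=
    ENNReal.le_tsum (f := fun t : {t : ℝ // (p.1, t) ∈ X} => ENNReal.ofReal t) ⟨p.2, hp⟩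
  exact (ENNReal.ofReal_pos.mpr h).trans_le h1

/-- the root event at level zero -/
theorem root_zero (M : Model d) (hM : M.Ok)
    (hone : ∀ (S : Set (E d)) (z : E d) (ℓ : ℝ), z ∈ S → ‖z‖ ≤ ℓ → M.O S 0 z ℓ {z} 0)
    (X : Set (E d × ℝ)) (hX : ∀ p ∈ X, 0 < p.2) (ℓ : ℝ) :
    RootT M X ℓ 0 ↔ ∀ p ∈ X, ℓ < ‖p.1‖ := by
  constructor
  · intro h p hp
    by_contra hlt
    push Not at hlt
    have h1 := h p.1 {p.1} 0 (hone (psupp X) p.1 ℓ ⟨p.2, hp⟩ hlt)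
    have h2 := mass_pos X p hp (hX p hp)
    simp only [Finset.sum_singleton, add_zero, ENNReal.ofReal_zero] at h1
    exact absurd h1 (not_le.mpr h2)
  · intro h b C κ hO
    have hloc := hM.loc _ _ _ _ _ _ hO
    have hs := hM.supp _ _ _ _ _ _ hloc
    have hC : C = ∅ := by
      rw [Finset.eq_empty_iff_forall_notMem]
      intro x hx
      obtain ⟨⟨t, ht⟩, h2⟩ := hs hx
      have h3 := h _ ht
      simp only [Metric.mem_closedBall, dist_zero_right] at h2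
      exact absurd h3 (not_lt.mpr h2)
    subst hC
    simp

theorem path_one (S : Set (E d)) (z : E d) (ℓ : ℝ) (hz : z ∈ S) (h : ‖z‖ ≤ ℓ) :
    (pathM d).O S 0 z ℓ {z} 0 := by
  refine ⟨by simpa using hz, rfl, [], ?_, ?_⟩
  · simpa [plen] using h
  · simp

theorem anim_one (q : ℝ≥0∞) (S : Set (E d)) (z : E d) (ℓ : ℝ) (hz : z ∈ S) (h : ‖z‖ ≤ ℓ) :
    (animM d q).O S 0 z ℓ {z} 0 := by
  refine ⟨by simpa using hz, Or.inr ⟨[z], 0, Tr.single z, by simp, ?_, le_refl _, ?_⟩⟩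
  · exact ⟨z, by simp, z, by simp, by simpa using h⟩
  · simp [hz]

theorem gval_zero (G : GType) (X : Set (E d × ℝ)) (hX : ∀ p ∈ X, 0 < p.2) (ℓ : ℝ) :
    Gval G X ℓ ≤ ((0 : ℝ) : EReal) ↔ ∀ p ∈ X, ℓ < ‖p.1‖ := by
  cases G with
  | path =>
    rw [gval_path X ℓ 0 le_rfl]
    exact root_zero _ (pathM_ok d) path_one X hX ℓ
  | animal q =>
    rw [gval_animal q X ℓ 0 le_rfl]
    exact root_zero _ (animM_ok d q) (anim_one q) X hX ℓ

theorem all_limit (hd : 2 ≤ d) (hΞ : IsPPP μ Ξ ν) (hν : ν (Set.Iic 0) = 0)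
    (hG : ∫⁻ t in Set.Ioi (0 : ℝ), (ν (Set.Ici t)) ^ ((d : ℝ)⁻¹) ≠ ∞) (G : GType) (ζ : ℝ) :
    ∃ L : EReal, 0 ≤ L ∧ Tendsto (fun ℓ : ℝ =>
      -(ENNReal.log (μ {ω | Gval G (Ξ ω) ℓ ≤ ((ζ * ℓ : ℝ) : EReal)})) / ((ℓ ^ d : ℝ) : EReal))
      atTop (𝓝 L) := by
  have hfin : ∀ t : ℝ, 0 < t → ν (Set.Ici t) ≠ ∞ :=
    fun t ht => nu_fin ν (by omega) hG t ht
  rcases lt_trichotomy ζ 0 with hζ | hζ | hζ
  · refine ⟨⊤, le_top, ?_⟩
    refine Tendsto.congr' ?_ tendsto_const_nhds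
    filter_upwards [eventually_gt_atTop 0] with ℓ hℓ
    have h0 : {ω | Gval G (Ξ ω) ℓ ≤ ((ζ * ℓ : ℝ) : EReal)} = ∅ := by
      rw [Set.eq_empty_iff_forall_notMem]
      intro ω hω
      have h1 : (0 : EReal) ≤ ((ζ * ℓ : ℝ) : EReal) := (gval_nonneg G (Ξ ω) ℓ).trans hω
      rw [EReal.coe_nonneg] at h1
      nlinarith
    rw [h0, measure_empty, ENNReal.log_zero, EReal.neg_bot]
    have h2 : (0 : ℝ) < ℓ ^ d := by positivity
    exact (EReal.top_div_of_pos_ne_top (by exact_mod_cast h2) (EReal.coe_ne_top _)).symm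
  · subst hζ
    obtain ⟨L, hL0, hL⟩ := zero_limit μ Ξ ν (by omega : 1 ≤ d) hΞ hν hfin
    refine ⟨L, hL0, hL.congr fun ℓ => ?_⟩
    congr 3
    congr 1
    ext ω
    simp only [Set.mem_setOf_eq, zero_mul]
    exact (gval_zero G (Ξ ω) (hΞ.pos ω) ℓ).symm
  · cases G with
    | path =>
      refine pos_limit μ Ξ ν hd hΞ hν hG (pathM d) (pathM_ok d) (Or.inr ⟨pathM_ins d, id⟩) ζ hζ _
        ?_ ?_
      · intro ℓ hℓ ω hω
        exact (gval_path (Ξ ω) ℓ (ζ * ℓ) (by positivity)).mpr hω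
      · intro ℓ c hℓ hc0 hc1
        refine measure_mono fun ω hω => ?_
        exact rootT_mono _ (pathM_ok d) _ ℓ _ _ (by nlinarith)
          ((gval_path (Ξ ω) ℓ (ζ * ℓ) (by positivity)).mp hω)
    | animal q =>
      by_cases hf : ν Set.univ = ∞
      · refine pos_limit μ Ξ ν hd hΞ hν hG (animM d 0) (animM_ok d 0)
          (Or.inr ⟨animM_ins d, by simp [animM]⟩) ζ hζ _ ?_ ?_
        · intro ℓ hℓ ω hω
          exact (gval_animal q (Ξ ω) ℓ (ζ * ℓ) (by positivity)).mpr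
            (root_animal_mono q (Ξ ω) ℓ (ζ * ℓ) hω)
        · intro ℓ c hℓ hc0 hc1
          refine measure_mono_ae ?_
          filter_upwards [ppp_dense μ Ξ ν (by omega : 1 ≤ d) hΞ hν hfin hf] with ω hd' hω
          exact dense_animal q (Ξ ω) hd' ℓ _ (ζ * ℓ) (by nlinarith)
            ((gval_animal q (Ξ ω) ℓ (ζ * ℓ) (by positivity)).mp hω)
      · refine pos_limit μ Ξ ν hd hΞ hν hG (animM d q) (animM_ok d q) (Or.inl hf) ζ hζ _ ?_ ?_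
        · intro ℓ hℓ ω hω
          exact (gval_animal q (Ξ ω) ℓ (ζ * ℓ) (by positivity)).mpr hω
        · intro ℓ c hℓ hc0 hc1
          refine measure_mono fun ω hω => ?_
          exact rootT_mono _ (animM_ok d q) _ ℓ _ _ (by nlinarith)
            ((gval_animal q (Ξ ω) ℓ (ζ * ℓ) (by positivity)).mp hω)

end MP4fb

end
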