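import Pool.Agent.Lib.MP_4fbc34_pr.Cube

/-!
JOB Step: a bounded measurable function is almost constant on most small cells.

Let `Q = {x | ∀ i, -1 <= x i < 1}`.  The function `1_Q h` is integrable, so there is a continuous function `f`
with compact support with `∫ |1_Q h - f| <= τ / 4` (`MeasureTheory.Integrable.exists_hasCompactSupport_integral_sub_le`).
`f` is uniformly continuous: for `n` large it oscillates by at most `τ / (4 * 2^d)` on every cell of `Q`.
With `g z = f (corner of the cell)`: `∑_z ∫_{cell z} |h - g z| <= τ/4 + 2^d τ / (4 * 2^d)`, and replacing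
`g z` by the average `(2^n)^d ∫_{cell z} h` at most doubles this (`|avg - g z| vol <= ∫ |h - g z|`).
-/

set_option autoImplicit false

open MeasureTheory Filter Topology
open scoped ENNReal

noncomputable section

namespace MP4fb

variable {d : ℕ}

/-- average over a cell -/
def cellAvg (h : E d → ℝ) (n : ℕ) (z : Fin d → ℤ) : ℝ := (2 ^ n) ^ d * ∫ x in cell n z, h x

private theorem step_norm_le (hd : 1 ≤ d) (c x : E d) (r : ℝ) (hr : 0 ≤ r) (hx : x ∈ cube c r) :
    ‖x - c‖ ≤ d * r := by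
  rw [EuclideanSpace.norm_eq]
  apply Real.sqrt_le_iff.2
  refine ⟨by positivity, ?_⟩
  have h1 : ∀ i ∈ (Finset.univ : Finset (Fin d)), ‖(x - c) i‖ ^ 2 ≤ r ^ 2 := by
    intro i _
    have h2 := hx i
    have h3 : (x - c) i = x i - c i := rfl
    rw [h3, Real.norm_of_nonneg (by linarith [h2.1])]
    apply pow_le_pow_left₀ (by linarith [h2.1])
    linarith [h2.2]
  have h4 := Finset.sum_le_card_nsmul _ _ _ h1
  rw [Finset.card_univ, Fintype.card_fin, nsmul_eq_mul] at h4
  refine h4.trans ?_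
  have h5 : (1 : ℝ) ≤ d := by exact_mod_cast hd
  have h6 : 0 ≤ r ^ 2 := by positivity
  nlinarith [mul_nonneg (mul_nonneg (by linarith : (0 : ℝ) ≤ d) (by linarith : (0 : ℝ) ≤ (d : ℝ) - 1)) h6]

private theorem step_meas (n : ℕ) (z : Fin d → ℤ) : MeasurableSet (cell n z) := by
  obtain ⟨c, hc⟩ := cell_eq_cube n z
  rw [hc]
  exact meas_cube c _

private theorem step_vol (hd : 1 ≤ d) (n : ℕ) (z : Fin d → ℤ) :
    volume (cell n z) = ENNReal.ofReal ((2⁻¹ ^ n) ^ d) := by
  obtain ⟨c, hc⟩ := cell_eq_cube n z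
  rw [hc]
  exact vol_cube c _ (by positivity) hd

private theorem step_two (hd : 1 ≤ d) (n : ℕ) (z : Fin d → ℤ) (h : E d → ℝ)
    (hh : IntegrableOn h (cell n z)) (g : ℝ) :
    ∫ x in cell n z, |h x - cellAvg h n z| ≤ 2 * ∫ x in cell n z, |h x - g| := by
  have hvol := step_vol hd n z
  have hfin : volume (cell n z) ≠ ∞ := by rw [hvol]; exact ENNReal.ofReal_ne_top
  have hreal : volume.real (cell n z) = (2⁻¹ ^ n) ^ d := by
    rw [Measure.real, hvol, ENNReal.toReal_ofReal (by positivity)]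
  have hc : ∀ t : ℝ, IntegrableOn (fun _ : E d => t) (cell n z) := fun t => integrableOn_const hfin
  have h1 : IntegrableOn (fun x => |h x - g|) (cell n z) := (hh.sub (hc g)).abs
  have h2 : ∫ x in cell n z, |h x - cellAvg h n z| ≤
      ∫ x in cell n z, (|h x - g| + |g - cellAvg h n z|) := by
    refine setIntegral_mono (hh.sub (hc _)).abs (h1.add (hc _)) fun x => ?_
    exact abs_sub_le _ _ _
  have h3 : ∫ x in cell n z, (|h x - g| + |g - cellAvg h n z|) =
      (∫ x in cell n z, |h x - g|) + (2⁻¹ ^ n) ^ d * |g - cellAvg h n z| := by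
    rw [integral_add h1 (hc _), setIntegral_const, hreal, smul_eq_mul]
  have h4 : (2⁻¹ ^ n) ^ d * |g - cellAvg h n z| ≤ ∫ x in cell n z, |h x - g| := by
    have e1 : (2⁻¹ ^ n : ℝ) ^ d * (g - cellAvg h n z) = - ∫ x in cell n z, (h x - g) := by
      rw [integral_sub hh (hc g), setIntegral_const, hreal, smul_eq_mul]
      unfold cellAvg
      have e2 : (2⁻¹ ^ n : ℝ) ^ d * ((2 ^ n) ^ d) = 1 := by
        rw [← mul_pow, ← mul_pow, inv_mul_cancel₀ (by norm_num), one_pow, one_pow]
      rw [mul_sub, ← mul_assoc, e2]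
      ring
    have e3 : (2⁻¹ ^ n : ℝ) ^ d * |g - cellAvg h n z| = |(2⁻¹ ^ n : ℝ) ^ d * (g - cellAvg h n z)| := by
      rw [abs_mul, abs_of_nonneg (by positivity : (0 : ℝ) ≤ (2⁻¹ ^ n) ^ d)]
    rw [e3, e1, abs_neg]
    exact abs_integral_le_integral_abs
  linarith

theorem step_approx (hd : 1 ≤ d) (h : E d → ℝ) (B : ℝ) (hm : Measurable h) (h0 : ∀ x, 0 ≤ h x)
    (h1 : ∀ x, h x ≤ B) (τ : ℝ) (hτ : 0 < τ) :
    ∃ n0 : ℕ, ∀ n ≥ n0, ∑ z ∈ zbox d n, ∫ x in cell n z, |h x - cellAvg h n z| ≤ τ := by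
  set c0 : E d := WithLp.toLp 2 (fun _ => (-1 : ℝ)) with hc0
  have hc0i : ∀ i, c0 i = -1 := fun i => rfl
  set Q : Set (E d) := cube c0 2 with hQ
  have hQm : MeasurableSet Q := meas_cube _ _
  have hQfin : volume Q ≠ ∞ := by
    rw [hQ, vol_cube c0 2 (by norm_num) hd]
    exact ENNReal.ofReal_ne_top
  have hbd : ∀ s : Set (E d), volume s ≠ ∞ → IntegrableOn h s := by
    intro s hs
    refine Measure.integrableOn_of_bounded (M := B) hs hm.aestronglyMeasurable ?_
    refine Filter.Eventually.of_forall fun x => ?_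
    rw [Real.norm_of_nonneg (h0 x)]
    exact h1 x
  have hQi : Integrable (Q.indicator h) := (integrable_indicator_iff hQm).2 (hbd Q hQfin)
  obtain ⟨f, hfs, hf1, hfc, hfi⟩ := hQi.exists_hasCompactSupport_integral_sub_le
    (by positivity : 0 < τ / 4)
  have hfu : UniformContinuous f := hfs.uniformContinuous_of_continuous hfc
  set η : ℝ := τ / (4 * 2 ^ d) with hη
  have hη0 : 0 < η := by positivity
  obtain ⟨δ, hδ, hfδ⟩ := Metric.uniformContinuous_iff.1 hfu η hη0
  have hd0 : (0 : ℝ) < d := by exact_mod_cast hd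
  obtain ⟨n0, hn0⟩ : ∃ n0 : ℕ, (2⁻¹ : ℝ) ^ n0 < δ / d :=
    exists_pow_lt_of_lt_one (by positivity) (by norm_num)
  refine ⟨n0, fun n hn => ?_⟩
  have hn1 : (d : ℝ) * 2⁻¹ ^ n < δ := by
    have : (2⁻¹ : ℝ) ^ n ≤ 2⁻¹ ^ n0 := pow_le_pow_of_le_one (by norm_num) (by norm_num) hn
    have h2 : (2⁻¹ : ℝ) ^ n < δ / d := this.trans_lt hn0
    rw [lt_div_iff₀ hd0] at h2
    linarith
  have hpn : (0 : ℝ) < 2⁻¹ ^ n := by positivity
  -- cells in the cube
  have hsub : ∀ z ∈ zbox d n, cell n z ⊆ Q := by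
    intro z hz x hx i
    have hzi := Fintype.mem_piFinset.1 hz i
    rw [Finset.mem_Ico] at hzi
    have hxi := hx i
    have e1 : (-(2 : ℝ) ^ n) ≤ z i := by exact_mod_cast hzi.1
    have e2 : (z i : ℝ) + 1 ≤ 2 ^ n := by exact_mod_cast hzi.2
    have e3 : (2 : ℝ) ^ n * 2⁻¹ ^ n = 1 := by
      rw [← mul_pow, mul_inv_cancel₀ (by norm_num), one_pow]
    rw [hc0i]
    constructor
    · have e4 := mul_le_mul_of_nonneg_right e1 hpn.le
      rw [neg_mul, e3] at e4
      exact e4.trans hxi.1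
    · have e4 := mul_le_mul_of_nonneg_right e2 hpn.le
      rw [e3] at e4
      linarith [hxi.2]
  have hvol := fun z => step_vol hd n z
  have hfin : ∀ z, volume (cell n z) ≠ ∞ := fun z => by rw [hvol z]; exact ENNReal.ofReal_ne_top
  have hreal : ∀ z, volume.real (cell n z) = (2⁻¹ ^ n) ^ d := fun z => by
    rw [Measure.real, hvol z, ENNReal.toReal_ofReal (by positivity)]
  set F : E d → ℝ := fun x => |Q.indicator h x - f x| with hF
  have hFi : Integrable F := (hQi.sub hfi).abs
  have hF0 : ∀ x, 0 ≤ F x := fun x => abs_nonneg _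
  have hcell : ∀ z ∈ zbox d n, ∃ g : ℝ, ∫ x in cell n z, |h x - g| ≤
      (∫ x in cell n z, F x) + (2⁻¹ ^ n) ^ d * η := by
    intro z hz
    obtain ⟨c, hc⟩ := cell_eq_cube n z
    refine ⟨f c, ?_⟩
    have hcl : (2⁻¹ ^ n : ℝ) ^ d * η = ∫ x in cell n z, (fun _ => η) x := by
      rw [setIntegral_const, hreal, smul_eq_mul]
    rw [hcl, ← integral_add hFi.integrableOn (integrableOn_const (hfin z))]
    refine setIntegral_mono_on ?_ (hFi.integrableOn.add (integrableOn_const (hfin z)))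
      (step_meas n z) fun x hx => ?_
    · exact ((hbd _ (hfin z)).sub (integrableOn_const (hfin z))).abs
    · have e1 : Q.indicator h x = h x := Set.indicator_of_mem (hsub z hz hx) h
      have e2 : |f x - f c| < η := by
        rw [← Real.dist_eq]
        apply hfδ
        rw [dist_eq_norm]
        refine lt_of_le_of_lt (step_norm_le hd c x _ hpn.le (by rw [← hc]; exact hx)) hn1
      have e3 : |h x - f c| ≤ |h x - f x| + |f x - f c| := abs_sub_le _ _ _
      show |h x - f c| ≤ F x + η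
      simp only [hF, e1]
      linarith
  have hmain : ∀ z ∈ zbox d n, ∫ x in cell n z, |h x - cellAvg h n z| ≤
      2 * ((∫ x in cell n z, F x) + (2⁻¹ ^ n) ^ d * η) := by
    intro z hz
    obtain ⟨g, hg⟩ := hcell z hz
    have := step_two hd n z h (hbd _ (hfin z)) g
    linarith
  refine (Finset.sum_le_sum hmain).trans ?_
  rw [← Finset.mul_sum, Finset.sum_add_distrib, Finset.sum_const, card_zbox, nsmul_eq_mul]
  have e1 : ∑ z ∈ zbox d n, ∫ x in cell n z, F x ≤ τ / 4 := by
    rw [← integral_biUnion_finset (zbox d n) (fun z _ => step_meas n z) ?_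
      (fun z _ => hFi.integrableOn)]
    · refine (setIntegral_le_integral hFi (Filter.Eventually.of_forall hF0)).trans ?_
      exact hf1
    · intro z _ z' _ hzz
      rw [Function.onFun, Set.disjoint_left]
      intro x hx hx'
      exact hzz (cell_unique n z z' x hx hx')
  have e2 : (((2 ^ (n + 1)) ^ d : ℕ) : ℝ) * ((2⁻¹ ^ n) ^ d * η) = τ / 4 := by
    push_cast
    rw [← mul_assoc, ← mul_pow, pow_succ, mul_right_comm, ← mul_pow,
      mul_inv_cancel₀ (by norm_num), one_pow, one_mul, hη]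
    field_simp
  linarith

end MP4fb

end
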