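import Pool.Agent.Lib.MP_4fbc34_pr.UppT
import Pool.Agent.Lib.MP_4fbc34_pr.Dens
import Pool.Agent.Lib.MP_4fbc34_pr.Step

/-!
JOB Homog: the homogenisation theorem.

For each `t ∈ 𝒯` let `ρ_t, τ_t` be the constants of `upperT` and `τ'_t` that of `lowerT` (with the given `ε, K`).
Let `𝒯' = 𝒯 ∪ {(v, lam - ρ_t)}`; for each `t' ∈ 𝒯'` let `h_{t'}` be the density given by `density` (with
`φ_s = phi D v lam s`, `B = C0 lam`, `hlim` from `cube_lim`) on the cube `[-1, 1)^d` (`cube c0 2`), which contains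
all the cells with index in `zbox d n` (for all `n`).  Let `τ` be the minimum of all `τ_t, τ'_t`.  By `step_approx`
applied to the finitely many densities with a small `τ0` there is `n >= n0` with
`∑_z ∫_{cell} |h_{t'} - avg| <= τ0` for all `t' ∈ 𝒯'`.  A cell is bad if `∫_{cell} |h_{t'} - avg| > τ (2⁻ⁿ)^d` for
some `t' ∈ 𝒯'`; the number of bad cells is at most `card 𝒯' * τ0 / (τ (2⁻ⁿ)^d) <= ε (2^n)^d` for `τ0` small.
`g z t` = the average of `h_t` over the cell (between `0` and `C0 lam`).  For cells which are not bad, `lowerT` and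
`upperT` apply; take the minimum of the finitely many `s0`.  (For `z` not in `zbox d n` or bad nothing is claimed;
put `g z t = 0` for `t ∉ 𝒯`.)
-/

set_option autoImplicit false

open MeasureTheory Filter Topology
open scoped ENNReal

noncomputable section

namespace MP4fb

variable {d : ℕ} {D : E d → E d → ℝ → ℝ} {C0 : ℝ}

private theorem homog_min {α : Type*} (S : Finset α) (Q : α → ℝ → Prop)
    (h : ∀ a ∈ S, ∃ s0 : ℝ, 0 < s0 ∧ ∀ s, 0 < s → s < s0 → Q a s) :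
    ∃ s0 : ℝ, 0 < s0 ∧ ∀ s, 0 < s → s < s0 → ∀ a ∈ S, Q a s := by
  classical
  induction S using Finset.induction_on with
  | empty => exact ⟨1, one_pos, fun s _ _ a ha => absurd ha (Finset.notMem_empty a)⟩
  | insert a S ha ih =>
    obtain ⟨s1, h1, h1'⟩ := ih fun b hb => h b (Finset.mem_insert_of_mem hb)
    obtain ⟨s2, h2, h2'⟩ := h a (Finset.mem_insert_self a S)
    refine ⟨min s1 s2, lt_min h1 h2, fun s hs hs' b hb => ?_⟩
    rcases Finset.mem_insert.1 hb with rfl | hb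
    · exact h2' s hs (hs'.trans_le (min_le_right _ _))
    · exact h1' s hs (hs'.trans_le (min_le_left _ _)) b hb

private theorem homog_minpos {α : Type*} (S : Finset α) (f : α → ℝ) (h : ∀ a ∈ S, 0 < f a) :
    ∃ s0 : ℝ, 0 < s0 ∧ ∀ a ∈ S, s0 ≤ f a := by
  classical
  induction S using Finset.induction_on with
  | empty => exact ⟨1, one_pos, fun a ha => absurd ha (Finset.notMem_empty a)⟩
  | insert a S ha ih =>
    obtain ⟨s1, h1, h1'⟩ := ih fun b hb => h b (Finset.mem_insert_of_mem hb)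
    refine ⟨min s1 (f a), lt_min h1 (h a (Finset.mem_insert_self a S)), fun b hb => ?_⟩
    rcases Finset.mem_insert.1 hb with rfl | hb
    · exact min_le_right _ _
    · exact (min_le_left _ _).trans (h1' b hb)

private theorem homog_maxn {α : Type*} (S : Finset α) (Q : α → ℕ → Prop)
    (h : ∀ a ∈ S, ∃ n0 : ℕ, ∀ n ≥ n0, Q a n) :
    ∃ n0 : ℕ, ∀ n ≥ n0, ∀ a ∈ S, Q a n := by
  classical
  induction S using Finset.induction_on with
  | empty => exact ⟨0, fun s _ a ha => absurd ha (Finset.notMem_empty a)⟩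
  | insert a S ha ih =>
    obtain ⟨s1, h1⟩ := ih fun b hb => h b (Finset.mem_insert_of_mem hb)
    obtain ⟨s2, h2⟩ := h a (Finset.mem_insert_self a S)
    refine ⟨max s1 s2, fun n hn b hb => ?_⟩
    rcases Finset.mem_insert.1 hb with rfl | hb
    · exact h2 n ((le_max_right _ _).trans hn)
    · exact h1 n ((le_max_left _ _).trans hn) b hb

private theorem homog_cell_sub (n : ℕ) (z : Fin d → ℤ) (hz : z ∈ zbox d n) :
    cell n z ⊆ cube (WithLp.toLp 2 (fun _ => (-1 : ℝ))) 2 := by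
  intro x hx i
  have h1 := hx i
  rw [zbox, Fintype.mem_piFinset] at hz
  have h2 := Finset.mem_Ico.1 (hz i)
  have h3 : ((-2 ^ n : ℤ) : ℝ) ≤ (z i : ℝ) := by exact_mod_cast h2.1
  have h4 : (z i : ℝ) + 1 ≤ ((2 ^ n : ℤ) : ℝ) := by exact_mod_cast h2.2
  push_cast at h3 h4
  have hp : (0 : ℝ) < 2⁻¹ ^ n := by positivity
  have hq : (2 : ℝ) ^ n * 2⁻¹ ^ n = 1 := by rw [← mul_pow]; norm_num
  have h5 : -(2 : ℝ) ^ n * 2⁻¹ ^ n ≤ (z i : ℝ) * 2⁻¹ ^ n := mul_le_mul_of_nonneg_right h3 hp.le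
  have h6 : ((z i : ℝ) + 1) * 2⁻¹ ^ n ≤ (2 : ℝ) ^ n * 2⁻¹ ^ n := mul_le_mul_of_nonneg_right h4 hp.le
  show (-1 : ℝ) ≤ x i ∧ x i < -1 + 2
  constructor
  · linarith [h1.1]
  · linarith [h1.2]

private theorem homog_dens (hd : 1 ≤ d) (hD : Nice D C0) (v : E d) (lam : ℝ) (hv : ‖v‖ < lam) :
    ∃ h : E d → ℝ, Measurable h ∧ (∀ x, 0 ≤ h x) ∧ (∀ x, h x ≤ C0 * lam) ∧
      ∀ (n : ℕ) (z : Fin d → ℤ), z ∈ zbox d n → IsDens D v lam (cell n z) h := by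
  have hl : 0 ≤ lam := (norm_nonneg v).trans hv.le
  obtain ⟨h, h1, h2, h3, h4⟩ := density (C0 * lam) (mul_nonneg hD.C0_nonneg hl)
    (fun s => phi D v lam s) (fun s => phi_meas hD v lam s)
    (fun s hs x => phi_nonneg hD v lam s hs x) (fun s hs x => phi_le hD v lam s hs hl x)
    (WithLp.toLp 2 (fun _ => (-1 : ℝ))) 2
    (fun c r hr => by
      obtain ⟨l, hl, -⟩ := cube_lim hd hD v lam hv c r hr
      exact ⟨l, hl⟩)
  refine ⟨h, h1, h2, h3, fun n z hz => ⟨h1, h2, ⟨_, h3⟩, fun c r hr hsub => ?_⟩⟩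
  exact h4 c r hr (hsub.trans (homog_cell_sub n z hz))

private theorem homog_vol_cell (hd : 1 ≤ d) (n : ℕ) (z : Fin d → ℤ) :
    volume (cell n z) = ENNReal.ofReal ((2⁻¹ ^ n) ^ d) := by
  obtain ⟨c, hc⟩ := cell_eq_cube n z
  rw [hc, vol_cube c _ (by positivity) hd]

private theorem homog_avg_nonneg (h : E d → ℝ) (h0 : ∀ x, 0 ≤ h x) (n : ℕ) (z : Fin d → ℤ) :
    0 ≤ cellAvg h n z :=
  mul_nonneg (by positivity) (integral_nonneg h0)

private theorem homog_avg_le (hd : 1 ≤ d) (h : E d → ℝ) (B : ℝ)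
    (h0 : ∀ x, 0 ≤ h x) (h1 : ∀ x, h x ≤ B) (n : ℕ) (z : Fin d → ℤ) :
    cellAvg h n z ≤ B := by
  have hv := homog_vol_cell hd n z
  have hfin : volume (cell n z) < ∞ := by rw [hv]; exact ENNReal.ofReal_lt_top
  have h2 : ‖∫ x in cell n z, h x‖ ≤ B * volume.real (cell n z) :=
    norm_setIntegral_le_of_norm_le_const hfin fun x _ => by
      rw [Real.norm_eq_abs, abs_of_nonneg (h0 x)]; exact h1 x
  have h3 : volume.real (cell n z) = (2⁻¹ ^ n) ^ d := by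
    rw [Measure.real, hv, ENNReal.toReal_ofReal (by positivity)]
  rw [h3] at h2
  have h4 := (le_abs_self _).trans h2
  unfold cellAvg
  have h5 : ((2 : ℝ) ^ n) ^ d * (B * (2⁻¹ ^ n) ^ d) = B := by
    rw [mul_left_comm, ← mul_pow, ← mul_pow]; norm_num
  calc ((2 : ℝ) ^ n) ^ d * ∫ x in cell n z, h x ≤ (2 ^ n) ^ d * (B * (2⁻¹ ^ n) ^ d) :=
        mul_le_mul_of_nonneg_left h4 (by positivity)
    _ = B := h5

theorem homog (hd : 1 ≤ d) (hD : Nice D C0) (𝒯 : Finset (E d × ℝ)) (h𝒯 : ∀ t ∈ 𝒯, ‖t.1‖ < t.2)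
    (ε K : ℝ) (hε : 0 < ε) (hK : 0 < K) (n0 : ℕ) :
    ∃ n ≥ n0, ∃ (g : (Fin d → ℤ) → E d × ℝ → ℝ) (Bad : Finset (Fin d → ℤ)),
      (Bad.card : ℝ) ≤ ε * (2 ^ n) ^ d ∧ (∀ z t, 0 ≤ g z t) ∧ (∀ z, ∀ t ∈ 𝒯, g z t ≤ C0 * t.2) ∧
      (∀ z ∈ zbox d n, z ∉ Bad → ∀ t ∈ 𝒯, ∀ (a : E d) (L : ℝ), 0 ≤ L → L ≤ K * 2⁻¹ ^ n →
        (∀ x, (∃ u, 0 ≤ u ∧ u ≤ L ∧ ‖x - (a + u • t.1)‖ ≤ ε * 2⁻¹ ^ n) → x ∈ cell n z) →
        L * g z t - ε * 2⁻¹ ^ n ≤ D a (a + L • t.1) (L * t.2 + ε * 2⁻¹ ^ n)) ∧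
      ∃ s0 : ℝ, 0 < s0 ∧ ∀ s, 0 < s → s < s0 → ∀ z ∈ zbox d n, z ∉ Bad → ∀ t ∈ 𝒯,
        volume {x | x ∈ cell n z ∧ s * (g z t + ε) < D x (x + s • t.1) (s * t.2)} ≤
          ENNReal.ofReal (ε * (2⁻¹ ^ n) ^ d) := by
  classical
  -- constants
  have hU : ∀ t : E d × ℝ, ∃ ρ τ : ℝ, t ∈ 𝒯 → (0 < ρ ∧ 0 < τ ∧ ‖t.1‖ < t.2 - ρ ∧
      ∀ (h h' : E d → ℝ) (n : ℕ) (z : Fin d → ℤ) (g g' : ℝ),
      IsDens D t.1 t.2 (cell n z) h → IsDens D t.1 (t.2 - ρ) (cell n z) h' → 0 ≤ g → 0 ≤ g' →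
      ∫ x in cell n z, |h x - g| ≤ τ * (2⁻¹ ^ n) ^ d →
      ∫ x in cell n z, |h' x - g'| ≤ τ * (2⁻¹ ^ n) ^ d →
      ∃ s0 : ℝ, 0 < s0 ∧ ∀ s, 0 < s → s < s0 →
        volume {x | x ∈ cell n z ∧ s * (g + ε) < D x (x + s • t.1) (s * t.2)} ≤
          ENNReal.ofReal (ε * (2⁻¹ ^ n) ^ d)) := by
    intro t
    by_cases ht : t ∈ 𝒯
    · obtain ⟨ρ, τ, h⟩ := upperT hd hD t.1 t.2 (h𝒯 t ht) ε hε
      exact ⟨ρ, τ, fun _ => h⟩
    · exact ⟨0, 0, fun h => absurd h ht⟩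
  choose ρ τU hU using hU
  have hL : ∀ t : E d × ℝ, ∃ τ : ℝ, t ∈ 𝒯 → (0 < τ ∧ ∀ (h : E d → ℝ) (n : ℕ) (z : Fin d → ℤ)
      (g : ℝ), IsDens D t.1 t.2 (cell n z) h → 0 ≤ g →
      ∫ x in cell n z, |h x - g| ≤ τ * (2⁻¹ ^ n) ^ d →
      ∀ (a : E d) (L : ℝ), 0 ≤ L → L ≤ K * 2⁻¹ ^ n →
        (∀ x, (∃ u, 0 ≤ u ∧ u ≤ L ∧ ‖x - (a + u • t.1)‖ ≤ ε * 2⁻¹ ^ n) → x ∈ cell n z) →
        L * g - ε * 2⁻¹ ^ n ≤ D a (a + L • t.1) (L * t.2 + ε * 2⁻¹ ^ n)) := by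
    intro t
    by_cases ht : t ∈ 𝒯
    · obtain ⟨τ, h⟩ := lowerT hd hD t.1 t.2 (h𝒯 t ht) ε K hε hK
      exact ⟨τ, fun _ => h⟩
    · exact ⟨0, fun h => absurd h ht⟩
  choose τL hL using hL
  -- densities
  have hH : ∀ t : E d × ℝ, ∃ h : E d → ℝ, t ∈ 𝒯 → (Measurable h ∧ (∀ x, 0 ≤ h x) ∧
      (∀ x, h x ≤ C0 * t.2) ∧
      ∀ (n : ℕ) (z : Fin d → ℤ), z ∈ zbox d n → IsDens D t.1 t.2 (cell n z) h) := by
    intro t
    by_cases ht : t ∈ 𝒯
    · obtain ⟨h, hh⟩ := homog_dens hd hD t.1 t.2 (h𝒯 t ht)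
      exact ⟨h, fun _ => hh⟩
    · exact ⟨fun _ => 0, fun h => absurd h ht⟩
  choose H hH using hH
  have hH' : ∀ t : E d × ℝ, ∃ h : E d → ℝ, t ∈ 𝒯 → (Measurable h ∧ (∀ x, 0 ≤ h x) ∧
      (∀ x, h x ≤ C0 * (t.2 - ρ t)) ∧
      ∀ (n : ℕ) (z : Fin d → ℤ), z ∈ zbox d n → IsDens D t.1 (t.2 - ρ t) (cell n z) h) := by
    intro t
    by_cases ht : t ∈ 𝒯
    · obtain ⟨h, hh⟩ := homog_dens hd hD t.1 (t.2 - ρ t) (hU t ht).2.2.1
      exact ⟨h, fun _ => hh⟩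
    · exact ⟨fun _ => 0, fun h => absurd h ht⟩
  choose H' hH' using hH'
  obtain ⟨τ, hτ, hτmin⟩ := homog_minpos 𝒯 (fun t => min (τU t) (τL t))
    (fun t ht => lt_min (hU t ht).2.1 (hL t ht).1)
  set c : ℝ := (𝒯.card : ℝ) with hc
  have hc0 : 0 ≤ c := by positivity
  set τ0 : ℝ := ε * τ / (2 * c + 1) with hτ0def
  have hτ0 : 0 < τ0 := by positivity
  obtain ⟨n1, hn1⟩ := homog_maxn 𝒯 (fun t n =>
      (∑ z ∈ zbox d n, ∫ x in cell n z, |H t x - cellAvg (H t) n z| ≤ τ0) ∧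
      (∑ z ∈ zbox d n, ∫ x in cell n z, |H' t x - cellAvg (H' t) n z| ≤ τ0)) (by
    intro t ht
    obtain ⟨a1, a2⟩ := step_approx hd (H t) _ (hH t ht).1 (hH t ht).2.1 (hH t ht).2.2.1 τ0 hτ0
    obtain ⟨b1, b2⟩ := step_approx hd (H' t) _ (hH' t ht).1 (hH' t ht).2.1 (hH' t ht).2.2.1 τ0 hτ0
    exact ⟨max a1 b1, fun n hn => ⟨a2 n ((le_max_left _ _).trans hn),
      b2 n ((le_max_right _ _).trans hn)⟩⟩)
  set n : ℕ := max n0 n1 with hn
  have hn1' := hn1 n (le_max_right _ _)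
  set p : ℝ := (2⁻¹ ^ n) ^ d with hp
  have hp0 : 0 < p := by positivity
  have hpq : p * (2 ^ n) ^ d = 1 := by rw [hp, ← mul_pow, ← mul_pow]; norm_num
  let Bad : Finset (Fin d → ℤ) := (zbox d n).filter fun z => ∃ t ∈ 𝒯,
    τ * p < (∫ x in cell n z, |H t x - cellAvg (H t) n z|) +
      ∫ x in cell n z, |H' t x - cellAvg (H' t) n z|
  have hnonneg : ∀ (h : E d → ℝ) (z : Fin d → ℤ),
      0 ≤ ∫ x in cell n z, |h x - cellAvg h n z| := fun h z => integral_nonneg fun x => abs_nonneg _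
  refine ⟨n, le_max_left _ _, fun z t => if t ∈ 𝒯 then cellAvg (H t) n z else 0, Bad, ?_, ?_, ?_,
    ?_, ?_⟩
  · -- the number of bad cells
    have h1 : (Bad.card : ℝ) * (τ * p) ≤ ∑ z ∈ Bad, ∑ t ∈ 𝒯,
        ((∫ x in cell n z, |H t x - cellAvg (H t) n z|) +
        ∫ x in cell n z, |H' t x - cellAvg (H' t) n z|) := by
      rw [← nsmul_eq_mul]
      refine Finset.card_nsmul_le_sum _ _ _ fun z hz => ?_
      obtain ⟨t, ht, htz⟩ := (Finset.mem_filter.1 hz).2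
      refine htz.le.trans ?_
      exact Finset.single_le_sum (f := fun t => (∫ x in cell n z, |H t x - cellAvg (H t) n z|) +
        ∫ x in cell n z, |H' t x - cellAvg (H' t) n z|)
        (fun t _ => add_nonneg (hnonneg _ _) (hnonneg _ _)) ht
    have h2 : ∑ z ∈ Bad, ∑ t ∈ 𝒯,
        ((∫ x in cell n z, |H t x - cellAvg (H t) n z|) +
        ∫ x in cell n z, |H' t x - cellAvg (H' t) n z|) ≤ c * (2 * τ0) := by
      rw [Finset.sum_comm, hc, ← nsmul_eq_mul]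
      refine Finset.sum_le_card_nsmul _ _ _ fun t ht => ?_
      rw [Finset.sum_add_distrib]
      have e1 := hn1' t ht
      have e2 : ∑ z ∈ Bad, ∫ x in cell n z, |H t x - cellAvg (H t) n z| ≤
          ∑ z ∈ zbox d n, ∫ x in cell n z, |H t x - cellAvg (H t) n z| :=
        Finset.sum_le_sum_of_subset_of_nonneg (Finset.filter_subset _ _)
          fun z _ _ => hnonneg _ _
      have e3 : ∑ z ∈ Bad, ∫ x in cell n z, |H' t x - cellAvg (H' t) n z| ≤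
          ∑ z ∈ zbox d n, ∫ x in cell n z, |H' t x - cellAvg (H' t) n z| :=
        Finset.sum_le_sum_of_subset_of_nonneg (Finset.filter_subset _ _)
          fun z _ _ => hnonneg _ _
      linarith [e1.1, e1.2]
    have h3 : c * (2 * τ0) ≤ ε * τ := by
      rw [hτ0def, show c * (2 * (ε * τ / (2 * c + 1))) = (ε * τ) * ((2 * c) / (2 * c + 1)) by ring]
      have h4 : (2 * c) / (2 * c + 1) ≤ 1 := by
        rw [div_le_one (by positivity)]; linarith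
      calc ε * τ * (2 * c / (2 * c + 1)) ≤ ε * τ * 1 :=
            mul_le_mul_of_nonneg_left h4 (by positivity)
        _ = ε * τ := mul_one _
    have h4 : (Bad.card : ℝ) * (τ * p) ≤ ε * τ := (h1.trans h2).trans h3
    have h5 : (Bad.card : ℝ) * p ≤ ε := by
      have : ((Bad.card : ℝ) * p) * τ ≤ ε * τ := by linarith [h4]
      exact le_of_mul_le_mul_right this hτ
    calc (Bad.card : ℝ) = ((Bad.card : ℝ) * p) * (2 ^ n) ^ d := by rw [mul_assoc, hpq, mul_one]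
      _ ≤ ε * (2 ^ n) ^ d := mul_le_mul_of_nonneg_right h5 (by positivity)
  · intro z t
    show 0 ≤ if t ∈ 𝒯 then cellAvg (H t) n z else 0
    split_ifs with ht
    · exact homog_avg_nonneg _ (hH t ht).2.1 n z
    · exact le_refl 0
  · intro z t ht
    show (if t ∈ 𝒯 then cellAvg (H t) n z else 0) ≤ C0 * t.2
    rw [if_pos ht]
    exact homog_avg_le hd _ _
      (hH t ht).2.1 (hH t ht).2.2.1 n z
  · intro z hz hb t ht
    show ∀ (a : E d) (L : ℝ), 0 ≤ L → L ≤ K * 2⁻¹ ^ n →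
        (∀ x, (∃ u, 0 ≤ u ∧ u ≤ L ∧ ‖x - (a + u • t.1)‖ ≤ ε * 2⁻¹ ^ n) → x ∈ cell n z) →
        L * (if t ∈ 𝒯 then cellAvg (H t) n z else 0) - ε * 2⁻¹ ^ n ≤
          D a (a + L • t.1) (L * t.2 + ε * 2⁻¹ ^ n)
    rw [if_pos ht]
    refine (hL t ht).2 (H t) n z _ ((hH t ht).2.2.2 n z hz) (homog_avg_nonneg _ (hH t ht).2.1 n z) ?_
    have h1 : ¬ (τ * p < (∫ x in cell n z, |H t x - cellAvg (H t) n z|) +
      ∫ x in cell n z, |H' t x - cellAvg (H' t) n z|) := fun h =>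
        hb (Finset.mem_filter.2 ⟨hz, t, ht, h⟩)
    have h2 : τ * p ≤ τL t * p :=
      mul_le_mul_of_nonneg_right ((hτmin t ht).trans (min_le_right _ _)) hp0.le
    have h3 := hnonneg (H' t) z
    refine le_trans ?_ (show _ ≤ τL t * p from h2)
    linarith [not_lt.1 h1]
  · have := homog_min ((zbox d n \ Bad) ×ˢ 𝒯) (fun zt s =>
      volume {x | x ∈ cell n zt.1 ∧ s * (cellAvg (H zt.2) n zt.1 + ε) <
        D x (x + s • zt.2.1) (s * zt.2.2)} ≤ ENNReal.ofReal (ε * (2⁻¹ ^ n) ^ d)) (by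
      rintro ⟨z, t⟩ hzt
      obtain ⟨hz, ht⟩ := Finset.mem_product.1 hzt
      obtain ⟨hz, hb⟩ := Finset.mem_sdiff.1 hz
      have hz : z ∈ zbox d n := hz
      have hb : z ∉ Bad := hb
      have ht : t ∈ 𝒯 := ht
      have h1 : ¬ (τ * p < (∫ x in cell n z, |H t x - cellAvg (H t) n z|) +
        ∫ x in cell n z, |H' t x - cellAvg (H' t) n z|) := fun h =>
          hb (Finset.mem_filter.2 ⟨hz, t, ht, h⟩)
      have h2 : τ * p ≤ τU t * p :=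
        mul_le_mul_of_nonneg_right ((hτmin t ht).trans (min_le_left _ _)) hp0.le
      have h3 := hnonneg (H' t) z
      have h4 := hnonneg (H t) z
      exact (hU t ht).2.2.2 (H t) (H' t) n z (cellAvg (H t) n z) (cellAvg (H' t) n z)
        ((hH t ht).2.2.2 n z hz) ((hH' t ht).2.2.2 n z hz) (homog_avg_nonneg _ (hH t ht).2.1 n z)
        (homog_avg_nonneg _ (hH' t ht).2.1 n z)
        (le_trans (by linarith [not_lt.1 h1]) h2) (le_trans (by linarith [not_lt.1 h1]) h2))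
    obtain ⟨s0, hs0, hs⟩ := this
    refine ⟨s0, hs0, fun s h1 h2 z hz hb t ht => ?_⟩
    show volume {x | x ∈ cell n z ∧ s * ((if t ∈ 𝒯 then cellAvg (H t) n z else 0) + ε) <
      D x (x + s • t.1) (s * t.2)} ≤ ENNReal.ofReal (ε * (2⁻¹ ^ n) ^ d)
    rw [if_pos ht]
    exact hs s h1 h2 (z, t) (Finset.mem_product.2 ⟨Finset.mem_sdiff.2 ⟨hz, hb⟩, ht⟩)

end MP4fb

end
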