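import Pool.Agent.Lib.MP_4fbc34_pr.HthmDef
import Pool.Agent.Lib.MP_4fbc34_pr.Homog

/-!
JOB Hthm: the two scale form of the homogenisation theorem.

NET.  `rm = min (c1 / 16) (1 / 16)`; `net` = all pairs `(v, l)` with `v` in an `rm`-net of the ball of radius `3`
(`exists_grid`), `l ∈ {rm, 2 rm, ..., } ∩ [0, 3]` and `‖v‖ + rm <= l`.  Rounding: given `‖v‖ <= lam <= 2` choose
`v'` with `‖v - v'‖ <= rm` and `l` a multiple of `rm` in `[lam + 4 rm, lam + 5 rm]`, `5 rm <= c1`; then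
`‖v'‖ + rm <= lam + 2 rm <= l` and `l <= 2 + 5/16 <= 3`.
TYPES.  Apply `homog` to `𝒯 = {(t.1, t.2 + 2 rm) | t ∈ net}` with `K = κ / c1` (or larger) and `ε` very small
(depending on `net, rm, κ, δ, c1, d`), and `n0`; put `g z t = g' z (t.1, t.2 + 2 rm)`.
HLow.  `Lt t <= κ 2⁻ⁿ / (2 c1) <= K 2⁻ⁿ`.  Enumerate `net` and put `x_0 = a`, `x_{k+1} = x_k + Lt t_k t_k.1`.  All points of
the segments are within `∑ Lt t ‖t.1‖ <= κ/2 2⁻ⁿ` of `a`, so with the `ε 2⁻ⁿ` neighbourhood in the ball of radius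
`κ 2⁻ⁿ` about `a`.  `homog` gives
`D x_k x_{k+1} (Lt t (t.2 + 2 rm) + ε 2⁻ⁿ) >= Lt t g z t - ε 2⁻ⁿ`, and the sum is at most
`D a x_end (∑ ... + card net ε 2⁻ⁿ)` by superadditivity (strict validity holds because of the `ε 2⁻ⁿ`), then the cone
property: `∑ Lt t (t.2 + 2 rm) + card net ε 2⁻ⁿ + ‖x_end - c‖ <= Lam` if `2 rm <= c1`, `card net * ε <= δ κ`.
HUpp.  Let `s = sc κ n'`, `n'` so large that `s < s0`, `n' > n` and `n' >= n1`.  For a good cell `z0` of level `n` and
`t ∈ net` the exceptional set `X_t = {x ∈ cell n z0 | s (g + ε) < D x (x + s v) (s (t.2 + 2 rm))}` has volume at most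
`ε (2⁻ⁿ)^d`.  Call a cell `z` of level `n'` with parent `z0` bad if for some `t` the volume of
`X_t ∩ cell n' z` is at least the volume `(rm s / (2 √d + 2))^d` of a small cube.  The number of bad cells with parent
`z0` is at most `card net * ε (2⁻ⁿ)^d / (rm s / (2 √d + 2))^d`, which is
`card net * ε * (8 (2 √d + 2) / (rm κ))^d * (2^(n'-n))^d`; summing over the `(2^(n+1))^d` parents and taking `ε` small gives
`BadT.card <= δ (2^n')^d`.  If `z` is good and the ball of radius `rm s` about `a` is in `cell n' z`, a cube of side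
`rm s / (2 √d + 2)` containing... (with corner `a`) is contained in the ball, so it contains a point `x ∉ X_t`, and
`D a (a + s v) (s t.2) <= D x (x + s v) (s (t.2 + 2 rm)) <= s (g + ε)` (cone property, `2 ‖x - a‖ <= 2 rm s`).
(The cells of level `n'` with a given parent `par n n' z = z0` are the cells contained in `cell n z0`, disjoint.)
-/

set_option autoImplicit false

open MeasureTheory Filter Topology
open scoped ENNReal

noncomputable section

namespace MP4fb

variable {d : ℕ} {D : E d → E d → ℝ → ℝ} {C0 : ℝ}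

theorem exists_net (d : ℕ) (c1 : ℝ) (hc1 : 0 < c1) : ∃ (net : Finset (E d × ℝ)) (rm : ℝ),
    NetOk net rm c1 ∧ 2 * rm ≤ c1 := by
  classical
  set rm : ℝ := min (c1 / 16) (1 / 16) with hrm
  have hrm0 : 0 < rm := lt_min (by positivity) (by norm_num)
  have hrm1 : rm ≤ c1 / 16 := min_le_left _ _
  have hrm2 : rm ≤ 1 / 16 := min_le_right _ _
  obtain ⟨G, hG⟩ := exists_grid d 2 rm hrm0
  refine ⟨(G ×ˢ (Finset.range (⌈3 / rm⌉₊ + 2)).image (fun k : ℕ => (k : ℝ) * rm)).filter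
    (fun t => ‖t.1‖ + rm ≤ t.2 ∧ t.2 ≤ 3), rm, ⟨hrm0, by linarith, by linarith, ?_, ?_⟩, by linarith⟩
  · intro t ht
    exact (Finset.mem_filter.1 ht).2
  · intro v lam hv hlam
    obtain ⟨a, ha, hva⟩ := hG v (hv.trans hlam)
    have hlam0 : 0 ≤ lam := (norm_nonneg v).trans hv
    set k := ⌈(lam + 4 * rm) / rm⌉₊ with hk
    have hq : 0 ≤ (lam + 4 * rm) / rm := by positivity
    have k1 : lam + 4 * rm ≤ k * rm := by
      have := Nat.le_ceil ((lam + 4 * rm) / rm)
      rwa [div_le_iff₀ hrm0] at this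
    have k2 : (k : ℝ) * rm ≤ lam + 5 * rm := by
      have := (Nat.ceil_lt_add_one hq).le
      have h2 : (k : ℝ) * rm ≤ ((lam + 4 * rm) / rm + 1) * rm := mul_le_mul_of_nonneg_right this hrm0.le
      rw [add_mul, div_mul_cancel₀ _ hrm0.ne'] at h2
      linarith
    have k3 : (k : ℝ) * rm ≤ 3 := by linarith
    have ha2 : ‖a‖ ≤ ‖v‖ + rm := by
      have : ‖a‖ ≤ ‖v‖ + ‖v - a‖ := by
        have h := norm_sub_le v (v - a)
        rwa [sub_sub_cancel] at h
      linarith
    refine ⟨(a, k * rm), ?_, hva, k1, by linarith⟩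
    rw [Finset.mem_filter, Finset.mem_product]
    refine ⟨⟨ha, Finset.mem_image.2 ⟨k, ?_, rfl⟩⟩, ?_, k3⟩
    · rw [Finset.mem_range]
      have h1 : (k : ℝ) ≤ 3 / rm := by
        rwa [le_div_iff₀ hrm0]
      have h2 : (k : ℝ) ≤ ⌈3 / rm⌉₊ := h1.trans (Nat.le_ceil _)
      have h3 : k ≤ ⌈3 / rm⌉₊ := by exact_mod_cast h2
      omega
    · show ‖a‖ + rm ≤ k * rm
      linarith

theorem par_mem (n n' : ℕ) (h : n ≤ n') (z : Fin d → ℤ) (hz : z ∈ zbox d n') :
    par n n' z ∈ zbox d n := by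
  unfold zbox at hz ⊢
  rw [Fintype.mem_piFinset] at hz ⊢
  intro i
  have h1 := Finset.mem_Ico.1 (hz i)
  have e : (2 : ℤ) ^ n' = 2 ^ n * 2 ^ (n' - n) := by
    rw [← pow_add]
    congr 1
    omega
  have hp : (0 : ℤ) < 2 ^ (n' - n) := by positivity
  rw [Finset.mem_Ico]
  unfold par
  constructor
  · rw [Int.le_ediv_iff_mul_le hp]
    rw [neg_mul, ← e]
    exact h1.1
  · rw [Int.ediv_lt_iff_lt_mul hp, ← e]
    exact h1.2

theorem cell_sub_par (n n' : ℕ) (h : n ≤ n') (z : Fin d → ℤ) : cell n' z ⊆ cell n (par n n' z) := by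
  intro x hx i
  have hxi := hx i
  have hp : (0 : ℤ) < 2 ^ (n' - n) := by positivity
  have e : (2⁻¹ : ℝ) ^ n = 2 ^ (n' - n) * 2⁻¹ ^ n' := by
    have e1 : (2⁻¹ : ℝ) ^ n' = 2⁻¹ ^ (n' - n) * 2⁻¹ ^ n := by
      rw [← pow_add]
      congr 1
      omega
    rw [e1, ← mul_assoc, ← mul_pow, mul_inv_cancel₀ (by norm_num), one_pow, one_mul]
  have hpn : (0 : ℝ) ≤ 2⁻¹ ^ n' := by positivity
  have h1 : par n n' z i * 2 ^ (n' - n) ≤ z i := Int.ediv_mul_le _ hp.ne'
  have h2 : z i + 1 ≤ (par n n' z i + 1) * 2 ^ (n' - n) := by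
    have := Int.lt_ediv_add_one_mul_self (z i) hp
    exact this
  have h1' : (par n n' z i : ℝ) * 2 ^ (n' - n) ≤ z i := by exact_mod_cast h1
  have h2' : (z i : ℝ) + 1 ≤ ((par n n' z i : ℝ) + 1) * 2 ^ (n' - n) := by exact_mod_cast h2
  rw [e]
  constructor
  · have := mul_le_mul_of_nonneg_right h1' hpn
    rw [mul_assoc] at this
    exact this.trans hxi.1
  · have := mul_le_mul_of_nonneg_right h2' hpn
    rw [mul_assoc ((par n n' z i : ℝ) + 1)] at this
    exact hxi.2.trans_le this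

private theorem ht_norm_le (hd : 1 ≤ d) (c x : E d) (r : ℝ) (hr : 0 ≤ r) (hx : x ∈ cube c r) :
    ‖x - c‖ ≤ d * r := by
  rw [EuclideanSpace.norm_eq]
  apply Real.sqrt_le_iff.2
  refine ⟨by positivity, ?_⟩
  have h1 : ∀ i ∈ (Finset.univ : Finset (Fin d)), ‖(x - c) i‖ ^ 2 ≤ r ^ 2 := by
    intro i _
    have h2 := hx i
    have h3 : (x - c) i = x i - c i := rfl
    rw [h3, Real.norm_of_nonneg (by linarith [h2.1])]
    apply pow_le_pow_left₀ (by linarith [h2.1])
    linarith [h2.2]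
  have h4 := Finset.sum_le_card_nsmul _ _ _ h1
  rw [Finset.card_univ, Fintype.card_fin, nsmul_eq_mul] at h4
  refine h4.trans ?_
  have h5 : (1 : ℝ) ≤ d := by exact_mod_cast hd
  have h6 : 0 ≤ r ^ 2 := by positivity
  nlinarith [mul_nonneg (mul_nonneg (by linarith : (0 : ℝ) ≤ d) (by linarith : (0 : ℝ) ≤ (d : ℝ) - 1)) h6]

private theorem ht_meas (n : ℕ) (z : Fin d → ℤ) : MeasurableSet (cell n z) := by
  obtain ⟨c, hc⟩ := cell_eq_cube n z
  rw [hc]
  exact meas_cube c _

/-- the lower bound -/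
private theorem ht_low (hD : Nice D C0) (net : Finset (E d × ℝ)) (rm κ δ c1 ε : ℝ)
    (hnet : NetOk net rm c1) (hrm : 2 * rm ≤ c1) (hκ : 0 < κ) (hε : 0 < ε)
    (hε1 : ε ≤ κ / 2) (hε2 : ((net.card : ℝ) + 1) * ε ≤ δ * κ) (n : ℕ)
    (g : (Fin d → ℤ) → E d × ℝ → ℝ) (Bad : Finset (Fin d → ℤ))
    (hg : ∀ z ∈ zbox d n, z ∉ Bad → ∀ t ∈ net, ∀ (a : E d) (L : ℝ), 0 ≤ L →
      L ≤ κ / (2 * c1) * 2⁻¹ ^ n →
        (∀ x, (∃ u, 0 ≤ u ∧ u ≤ L ∧ ‖x - (a + u • t.1)‖ ≤ ε * 2⁻¹ ^ n) → x ∈ cell n z) →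
        L * g z t - ε * 2⁻¹ ^ n ≤ D a (a + L • t.1) (L * (t.2 + 2 * rm) + ε * 2⁻¹ ^ n)) :
    HLow D net κ δ c1 n g Bad := by
  classical
  intro z hz hzB a c Lt Lam hLt hsum hball hLam
  set p : ℝ := 2⁻¹ ^ n with hp
  have hp0 : 0 < p := by positivity
  have hrm0 := hnet.rm_pos
  have hc10 : 0 < c1 := by linarith
  have ht2 : ∀ t ∈ net, 0 < t.2 := by
    intro t ht
    have := (hnet.typ t ht).1
    linarith [norm_nonneg t.1]
  have hnorm : ∀ t ∈ net, ‖t.1‖ ≤ t.2 := by
    intro t ht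
    have := (hnet.typ t ht).1
    linarith
  have hterm : ∀ t ∈ net, 0 ≤ Lt t * (t.2 + c1) := fun t ht =>
    mul_nonneg (hLt t) (by linarith [ht2 t ht])
  -- total displacement
  have hdisp : ∀ s ⊆ net, ∑ t ∈ s, Lt t * ‖t.1‖ ≤ ∑ t ∈ s, Lt t * (t.2 + 2 * rm) := by
    intro s hs
    refine Finset.sum_le_sum fun t ht => mul_le_mul_of_nonneg_left ?_ (hLt t)
    linarith [hnorm t (hs ht)]
  have hdisp2 : ∀ s ⊆ net, ∑ t ∈ s, Lt t * ‖t.1‖ ≤ κ / 2 * p := by
    intro s hs
    calc ∑ t ∈ s, Lt t * ‖t.1‖ ≤ ∑ t ∈ net, Lt t * ‖t.1‖ :=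
          Finset.sum_le_sum_of_subset_of_nonneg hs fun t _ _ => mul_nonneg (hLt t) (norm_nonneg _)
      _ ≤ ∑ t ∈ net, Lt t * (t.2 + c1) :=
          Finset.sum_le_sum fun t ht => mul_le_mul_of_nonneg_left (by linarith [hnorm t ht]) (hLt t)
      _ ≤ κ / 2 * p := hsum
  have hvec : ∀ s : Finset (E d × ℝ), ‖∑ t ∈ s, Lt t • t.1‖ ≤ ∑ t ∈ s, Lt t * ‖t.1‖ := by
    intro s
    refine (norm_sum_le _ _).trans (le_of_eq ?_)
    refine Finset.sum_congr rfl fun t _ => ?_
    rw [norm_smul, Real.norm_of_nonneg (hLt t)]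
  have main : ∀ s : Finset (E d × ℝ), s ⊆ net →
      ∑ t ∈ s, (Lt t * g z t - ε * p) ≤
        D a (a + ∑ t ∈ s, Lt t • t.1) (ε * p + ∑ t ∈ s, (Lt t * (t.2 + 2 * rm) + ε * p)) := by
    intro s
    induction s using Finset.induction_on with
    | empty =>
      intro _
      rw [Finset.sum_empty]
      exact hD.nonneg _ _ _
    | insert t0 s ht0 ih =>
      intro hs
      have hs' : s ⊆ net := (Finset.subset_insert _ _).trans hs
      have ht0n : t0 ∈ net := hs (Finset.mem_insert_self _ _)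
      have ih' := ih hs'
      rw [Finset.sum_insert ht0, Finset.sum_insert ht0, Finset.sum_insert ht0]
      set xs : E d := a + ∑ t ∈ s, Lt t • t.1 with hxs
      have hL : Lt t0 ≤ κ / (2 * c1) * p := by
        have h1 : Lt t0 * (t0.2 + c1) ≤ κ / 2 * p :=
          (Finset.single_le_sum (f := fun t => Lt t * (t.2 + c1)) hterm ht0n).trans hsum
        have h2 : Lt t0 * c1 ≤ Lt t0 * (t0.2 + c1) :=
          mul_le_mul_of_nonneg_left (by linarith [ht2 t0 ht0n]) (hLt t0)
        have h3 : κ / (2 * c1) * p = κ / 2 * p / c1 := by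
          field_simp
        rw [h3, le_div_iff₀ hc10]
        linarith
      have h1 := hg z hz hzB t0 ht0n xs (Lt t0) (hLt t0) hL (by
        rintro x ⟨u, hu0, hu1, hx⟩
        apply hball
        have e1 : x - a = (x - (xs + u • t0.1)) + (∑ t ∈ s, Lt t • t.1) + u • t0.1 := by
          rw [hxs]
          abel
        rw [e1]
        refine (norm_add₃_le).trans ?_
        have e2 : ‖u • t0.1‖ ≤ Lt t0 * ‖t0.1‖ := by
          rw [norm_smul, Real.norm_of_nonneg hu0]
          exact mul_le_mul_of_nonneg_right hu1 (norm_nonneg _)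
        have e3 := hvec s
        have e4 := hdisp2 (insert t0 s) hs
        rw [Finset.sum_insert ht0] at e4
        have e5 : ε * p ≤ κ / 2 * p := mul_le_mul_of_nonneg_right hε1 hp0.le
        linarith)
      have h2 := hD.sup a xs (xs + Lt t0 • t0.1)
        (ε * p + ∑ t ∈ s, (Lt t * (t.2 + 2 * rm) + ε * p)) (Lt t0 * (t0.2 + 2 * rm) + ε * p)
        (by
          have e1 : a - xs = -(∑ t ∈ s, Lt t • t.1) := by
            rw [hxs]
            abel
          rw [e1, norm_neg, Finset.sum_add_distrib]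
          have e2 := hvec s
          have e3 := hdisp s hs'
          have e4 : 0 ≤ ∑ t ∈ s, ε * p := Finset.sum_nonneg fun _ _ => by positivity
          have e5 : 0 < ε * p := by positivity
          linarith)
        (by
          rw [sub_add_cancel_left, norm_neg, norm_smul, Real.norm_of_nonneg (hLt t0)]
          have e2 : Lt t0 * ‖t0.1‖ ≤ Lt t0 * (t0.2 + 2 * rm) :=
            mul_le_mul_of_nonneg_left (by linarith [hnorm t0 ht0n]) (hLt t0)
          have e5 : 0 < ε * p := by positivity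
          linarith)
      have e3 : a + (Lt t0 • t0.1 + ∑ t ∈ s, Lt t • t.1) = xs + Lt t0 • t0.1 := by
        rw [hxs]
        abel
      have e4 : ε * p + (Lt t0 * (t0.2 + 2 * rm) + ε * p + ∑ t ∈ s, (Lt t * (t.2 + 2 * rm) + ε * p)) =
          ε * p + ∑ t ∈ s, (Lt t * (t.2 + 2 * rm) + ε * p) + (Lt t0 * (t0.2 + 2 * rm) + ε * p) := by
        ring
      rw [e3, e4]
      linarith
  have hm := main net (Finset.Subset.refl _)
  have hfin : D a (a + ∑ t ∈ net, Lt t • t.1)
      (ε * p + ∑ t ∈ net, (Lt t * (t.2 + 2 * rm) + ε * p)) ≤ D a c Lam := by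
    apply hD.cone
    rw [sub_self, norm_zero, Finset.sum_add_distrib, Finset.sum_const, nsmul_eq_mul]
    have e1 : ∑ t ∈ net, Lt t * (t.2 + 2 * rm) ≤ ∑ t ∈ net, Lt t * (t.2 + c1) :=
      Finset.sum_le_sum fun t _ => mul_le_mul_of_nonneg_left (by linarith) (hLt t)
    have e2 : ((net.card : ℝ) + 1) * ε * p ≤ δ * κ * p := mul_le_mul_of_nonneg_right hε2 hp0.le
    have e3 : ((net.card : ℝ) + 1) * ε * p = (net.card : ℝ) * (ε * p) + ε * p := by ring
    linarith
  rw [Finset.sum_sub_distrib, Finset.sum_const, nsmul_eq_mul] at hm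
  have e2 : ((net.card : ℝ) + 1) * ε * p ≤ δ * κ * p := mul_le_mul_of_nonneg_right hε2 hp0.le
  have e3 : ((net.card : ℝ) + 1) * ε * p = (net.card : ℝ) * (ε * p) + ε * p := by ring
  have e5 : 0 < ε * p := by positivity
  linarith

/-- the upper bound -/
private theorem ht_upp (hd : 1 ≤ d) (hD : Nice D C0) (net : Finset (E d × ℝ)) (rm κ δ c1 ε : ℝ)
    (hnet : NetOk net rm c1) (hκ : 0 < κ) (hε : 0 < ε) (hε1 : ε ≤ δ)
    (hε2 : (net.card : ℝ) * ε * (16 * d / (rm * κ)) ^ d ≤ δ) (n n' : ℕ) (hnn : n ≤ n')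
    (g : (Fin d → ℤ) → E d × ℝ → ℝ) (Bad : Finset (Fin d → ℤ))
    (hg : ∀ z ∈ zbox d n, z ∉ Bad → ∀ t ∈ net,
        volume {x | x ∈ cell n z ∧ sc κ n' * (g z t + ε) <
          D x (x + sc κ n' • t.1) (sc κ n' * (t.2 + 2 * rm))} ≤
          ENNReal.ofReal (ε * (2⁻¹ ^ n) ^ d)) :
    ∃ BadT : Finset (Fin d → ℤ),
        (BadT.card : ℝ) ≤ δ * (2 ^ n') ^ d ∧ HUpp D net rm κ δ n n' g Bad BadT := by
  classical
  set s : ℝ := sc κ n' with hs
  have hs0 : 0 < s := by
    rw [hs]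
    unfold sc
    positivity
  have hrm0 := hnet.rm_pos
  have hd0 : (0 : ℝ) < d := by exact_mod_cast hd
  set X : (Fin d → ℤ) → E d × ℝ → Set (E d) := fun z t =>
    {x | x ∈ cell n z ∧ s * (g z t + ε) < D x (x + s • t.1) (s * (t.2 + 2 * rm))} with hX
  set side : ℝ := rm * s / d with hside
  have hside0 : 0 < side := by positivity
  set w : ℝ := side ^ d with hw
  have hw0 : 0 < w := by positivity
  set BadT : Finset (Fin d → ℤ) := (zbox d n').filter (fun z => par n n' z ∉ Bad ∧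
    ∃ t ∈ net, ENNReal.ofReal w ≤ volume (X (par n n' z) t ∩ cell n' z)) with hBadT
  refine ⟨BadT, ?_, ?_⟩
  · -- counting
    set Y : E d × ℝ → Set (E d) := fun t => ⋃ z ∈ (zbox d n).filter (fun z => z ∉ Bad), X z t with hY
    have hYv : ∀ t ∈ net, volume (Y t) ≤ ENNReal.ofReal (2 ^ d * ε) := by
      intro t ht
      refine (measure_biUnion_finset_le _ _).trans ?_
      have h1 : ∀ z ∈ (zbox d n).filter (fun z => z ∉ Bad), volume (X z t) ≤
          ENNReal.ofReal (ε * (2⁻¹ ^ n) ^ d) := by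
        intro z hz
        rw [Finset.mem_filter] at hz
        exact hg z hz.1 hz.2 t ht
      refine (Finset.sum_le_card_nsmul _ _ _ h1).trans ?_
      rw [nsmul_eq_mul]
      have h2 : (((zbox d n).filter (fun z => z ∉ Bad)).card : ENNReal) ≤
          ENNReal.ofReal ((2 ^ (n + 1)) ^ d) := by
        have h3 : ((zbox d n).filter (fun z => z ∉ Bad)).card ≤ (2 ^ (n + 1)) ^ d := by
          rw [← card_zbox]
          exact Finset.card_filter_le _ _
        have h4 : (((zbox d n).filter (fun z => z ∉ Bad)).card : ℝ) ≤ (2 ^ (n + 1)) ^ d := by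
          exact_mod_cast h3
        rw [← ENNReal.ofReal_natCast]
        exact ENNReal.ofReal_le_ofReal h4
      refine (mul_le_mul_left h2 _).trans ?_
      rw [← ENNReal.ofReal_mul (by positivity)]
      apply ENNReal.ofReal_le_ofReal
      apply le_of_eq
      have e2 : ((2 : ℝ) ^ (n + 1)) ^ d * (2⁻¹ ^ n) ^ d = 2 ^ d := by
        rw [← mul_pow, pow_succ, mul_right_comm, ← mul_pow, mul_inv_cancel₀ (by norm_num), one_pow,
          one_mul]
      calc ((2 : ℝ) ^ (n + 1)) ^ d * (ε * (2⁻¹ ^ n) ^ d)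
          = ((2 : ℝ) ^ (n + 1)) ^ d * (2⁻¹ ^ n) ^ d * ε := by ring
        _ = 2 ^ d * ε := by rw [e2]
    have hcount : (BadT.card : ENNReal) * ENNReal.ofReal w ≤
        ∑ t ∈ net, volume (Y t) := by
      have h1 : ∀ z ∈ BadT, ENNReal.ofReal w ≤ ∑ t ∈ net, volume (Y t ∩ cell n' z) := by
        intro z hz
        rw [hBadT, Finset.mem_filter] at hz
        obtain ⟨hz1, hz2, t, ht, hz3⟩ := hz
        refine hz3.trans (le_trans ?_
          (Finset.single_le_sum (f := fun t => volume (Y t ∩ cell n' z)) (fun _ _ => zero_le) ht))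
        apply measure_mono
        apply Set.inter_subset_inter_left
        intro x hx
        rw [hY]
        simp only [Set.mem_iUnion]
        exact ⟨par n n' z, Finset.mem_filter.2 ⟨par_mem n n' hnn z hz1, hz2⟩, hx⟩
      have h2 := Finset.card_nsmul_le_sum _ _ _ h1
      rw [nsmul_eq_mul] at h2
      refine h2.trans ?_
      rw [Finset.sum_comm]
      refine Finset.sum_le_sum fun t _ => ?_
      have h3 : ∀ z ∈ BadT, volume (Y t ∩ cell n' z) = (volume.restrict (Y t)) (cell n' z) := by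
        intro z _
        rw [Measure.restrict_apply (ht_meas n' z), Set.inter_comm]
      rw [Finset.sum_congr rfl h3, ← measure_biUnion_finset ?_ (fun z _ => ht_meas n' z)]
      · refine (measure_mono (Set.subset_univ _)).trans ?_
        rw [Measure.restrict_apply_univ]
      · intro z _ z' _ hzz
        rw [Function.onFun, Set.disjoint_left]
        intro x hx hx'
        exact hzz (cell_unique n' z z' x hx hx')
    have hcount2 : (BadT.card : ENNReal) * ENNReal.ofReal w ≤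
        ENNReal.ofReal ((net.card : ℝ) * (2 ^ d * ε)) := by
      refine hcount.trans ((Finset.sum_le_card_nsmul _ _ _ hYv).trans ?_)
      rw [nsmul_eq_mul, ENNReal.ofReal_mul (p := (net.card : ℝ)) (by positivity), ENNReal.ofReal_natCast]
    rw [← ENNReal.ofReal_natCast, ← ENNReal.ofReal_mul (by positivity),
      ENNReal.ofReal_le_ofReal_iff (by positivity)] at hcount2
    have hwe : w * (16 * d / (rm * κ)) ^ d * (2 ^ n') ^ d = 2 ^ d := by
      rw [hw, ← mul_pow, ← mul_pow]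
      congr 1
      rw [hside, hs]
      unfold sc
      have e1 : (2⁻¹ : ℝ) ^ n' * 2 ^ n' = 1 := by
        rw [← mul_pow, inv_mul_cancel₀ (by norm_num), one_pow]
      have : rm * (κ * 2⁻¹ ^ n' / 8) / d * (16 * d / (rm * κ)) * 2 ^ n' = 2 * (2⁻¹ ^ n' * 2 ^ n') := by
        field_simp
        ring
      rw [this, e1, mul_one]
    have h5 : (BadT.card : ℝ) * w ≤ δ * (2 ^ n') ^ d * w := by
      have h6 : (net.card : ℝ) * (2 ^ d * ε) =
          ((net.card : ℝ) * ε * (16 * d / (rm * κ)) ^ d) * ((2 ^ n') ^ d * w) := by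
        rw [← hwe]
        ring
      rw [h6] at hcount2
      refine hcount2.trans ?_
      rw [mul_assoc δ]
      exact mul_le_mul_of_nonneg_right hε2 (by positivity)
    exact le_of_mul_le_mul_right h5 hw0
  · intro z hz hzT hzB t ht a hball
    have hsmall : volume (X (par n n' z) t ∩ cell n' z) < ENNReal.ofReal w := by
      by_contra hcon
      push Not at hcon
      exact hzT (Finset.mem_filter.2 ⟨hz, hzB, t, ht, hcon⟩)
    have hvolc : volume (cube a side) = ENNReal.ofReal w := vol_cube a side hside0.le hd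
    obtain ⟨x, hx1, hx2⟩ : ∃ x ∈ cube a side, x ∉ X (par n n' z) t ∩ cell n' z := by
      by_contra hcon
      push Not at hcon
      have : volume (cube a side) ≤ volume (X (par n n' z) t ∩ cell n' z) := measure_mono hcon
      rw [hvolc] at this
      exact absurd this (not_le.2 hsmall)
    have hxa : ‖x - a‖ ≤ rm * s := by
      have := ht_norm_le hd a x side hside0.le hx1
      rwa [hside, mul_div_cancel₀ _ hd0.ne'] at this
    have hxc : x ∈ cell n' z := hball x hxa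
    have hxc' : x ∈ cell n (par n n' z) := cell_sub_par n n' hnn z hxc
    have h1 : D x (x + s • t.1) (s * (t.2 + 2 * rm)) ≤ s * (g (par n n' z) t + ε) := by
      by_contra hcon
      push Not at hcon
      exact hx2 ⟨⟨hxc', hcon⟩, hxc⟩
    have h2 : D a (a + s • t.1) (s * t.2) ≤ D x (x + s • t.1) (s * (t.2 + 2 * rm)) := by
      apply hD.cone
      rw [add_sub_add_right_eq_sub, norm_sub_rev a x]
      nlinarith
    refine h2.trans (h1.trans ?_)
    exact mul_le_mul_of_nonneg_left (by linarith) hs0.le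

theorem two_scale (hd : 1 ≤ d) (hD : Nice D C0) (net : Finset (E d × ℝ)) (rm κ δ c1 : ℝ)
    (hnet : NetOk net rm c1) (hrm : 2 * rm ≤ c1) (hκ : 0 < κ) (hκ1 : κ ≤ 1 / 4) (hδ : 0 < δ)
    (hc1 : c1 ≤ 1) (n0 : ℕ) :
    ∃ n ≥ n0, ∃ (g : (Fin d → ℤ) → E d × ℝ → ℝ) (Bad : Finset (Fin d → ℤ)),
      (Bad.card : ℝ) ≤ δ * (2 ^ n) ^ d ∧ (∀ z t, 0 ≤ g z t) ∧ HLow D net κ δ c1 n g Bad ∧
      ∀ n1 : ℕ, ∃ n' ≥ n1, n < n' ∧ ∃ BadT : Finset (Fin d → ℤ),
        (BadT.card : ℝ) ≤ δ * (2 ^ n') ^ d ∧ HUpp D net rm κ δ n n' g Bad BadT := by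
  classical
  have hrm0 := hnet.rm_pos
  have hc10 : 0 < c1 := by linarith
  have hd0 : (0 : ℝ) < d := by exact_mod_cast hd
  set Q : ℝ := (16 * d / (rm * κ)) ^ d with hQ
  have hQ0 : 0 < Q := by positivity
  set ε : ℝ := min (min (κ / 2) δ) (min (δ * κ / ((net.card : ℝ) + 1)) (δ / (((net.card : ℝ) + 1) * Q)))
    with hε
  have hε0 : 0 < ε := by
    rw [hε]
    refine lt_min (lt_min (by positivity) hδ) (lt_min (by positivity) (by positivity))
  have hε1 : ε ≤ κ / 2 := (min_le_left _ _).trans (min_le_left _ _)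
  have hε2 : ε ≤ δ := (min_le_left _ _).trans (min_le_right _ _)
  have hε3 : ((net.card : ℝ) + 1) * ε ≤ δ * κ := by
    have : ε ≤ δ * κ / ((net.card : ℝ) + 1) := (min_le_right _ _).trans (min_le_left _ _)
    rw [le_div_iff₀ (by positivity)] at this
    linarith
  have hε4 : (net.card : ℝ) * ε * Q ≤ δ := by
    have : ε ≤ δ / (((net.card : ℝ) + 1) * Q) := (min_le_right _ _).trans (min_le_right _ _)
    rw [le_div_iff₀ (by positivity)] at this
    have h2 : 0 ≤ ε * Q := by positivity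
    linarith
  obtain ⟨n, hn, g', Bad, hB, hg0, -, hlow, s0, hs0, hupp⟩ := homog hd hD
    (net.image (fun t => (t.1, t.2 + 2 * rm))) (by
      intro t ht
      obtain ⟨t', ht', rfl⟩ := Finset.mem_image.1 ht
      have := (hnet.typ t' ht').1
      show ‖t'.1‖ < t'.2 + 2 * rm
      linarith) ε (κ / (2 * c1)) hε0 (by positivity) n0
  refine ⟨n, hn, fun z t => g' z (t.1, t.2 + 2 * rm), Bad, ?_, fun z t => hg0 _ _, ?_, ?_⟩
  · exact hB.trans (mul_le_mul_of_nonneg_right hε2 (by positivity))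
  · refine ht_low hD net rm κ δ c1 ε hnet hrm hκ hε0 hε1 hε3 n _ Bad ?_
    intro z hz hzB t ht a L hL0 hL1 hseg
    exact hlow z hz hzB (t.1, t.2 + 2 * rm) (Finset.mem_image_of_mem _ ht) a L hL0 hL1 hseg
  · intro n1
    obtain ⟨N1, hN1⟩ : ∃ N1 : ℕ, (2⁻¹ : ℝ) ^ N1 < 8 * s0 / κ :=
      exists_pow_lt_of_lt_one (by positivity) (by norm_num)
    refine ⟨max N1 (max n1 (n + 1)), ?_, ?_, ?_⟩
    · exact (le_max_left _ _).trans (le_max_right _ _)
    · exact lt_of_lt_of_le (Nat.lt_succ_self n) ((le_max_right _ _).trans (le_max_right _ _))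
    · set n' := max N1 (max n1 (n + 1)) with hn'
      have hnn : n ≤ n' := (Nat.le_succ n).trans ((le_max_right _ _).trans (le_max_right _ _))
      have hsc0 : 0 < sc κ n' := by
        unfold sc
        positivity
      have hsc : sc κ n' < s0 := by
        have h1 : (2⁻¹ : ℝ) ^ n' ≤ 2⁻¹ ^ N1 :=
          pow_le_pow_of_le_one (by norm_num) (by norm_num) (le_max_left _ _)
        have h2 : (2⁻¹ : ℝ) ^ n' < 8 * s0 / κ := h1.trans_lt hN1
        rw [lt_div_iff₀ hκ] at h2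
        unfold sc
        linarith
      refine ht_upp hd hD net rm κ δ c1 ε hnet hκ hε0 hε2 hε4 n n' hnn _ Bad ?_
      intro z hz hzB t ht
      exact hupp (sc κ n') hsc0 hsc z hz hzB (t.1, t.2 + 2 * rm) (Finset.mem_image_of_mem _ ht)

end MP4fb

end
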