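import Pool.Agent.Lib.MP_4fbc34_pr.Cube

/-!
The output of the homogenisation theorem in the form used for the magnification, as structures.
-/

set_option autoImplicit false

open MeasureTheory Filter Topology
open scoped ENNReal

noncomputable section

namespace MP4fb

variable {d : ℕ}

/-- parent cell at level `n` of a cell of level `n'` -/
def par (n n' : ℕ) (z : Fin d → ℤ) : Fin d → ℤ := fun i => z i / 2 ^ (n' - n)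

/-- micro scale -/
def sc (κ : ℝ) (n' : ℕ) : ℝ := κ * 2⁻¹ ^ n' / 8

/-- A net of types with rounding radius `rm` and slack `c1`. -/
structure NetOk (net : Finset (E d × ℝ)) (rm c1 : ℝ) : Prop where
  rm_pos : 0 < rm
  rm_le : rm ≤ c1
  rm_le_one : rm ≤ 1
  typ : ∀ t ∈ net, ‖t.1‖ + rm ≤ t.2 ∧ t.2 ≤ 3
  round : ∀ (v : E d) (lam : ℝ), ‖v‖ ≤ lam → lam ≤ 2 → ∃ t ∈ net, ‖v - t.1‖ ≤ rm ∧
    lam + 4 * rm ≤ t.2 ∧ t.2 ≤ lam + c1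

/-- Lower bound on the macro scale. -/
def HLow (D : E d → E d → ℝ → ℝ) (net : Finset (E d × ℝ)) (κ δ c1 : ℝ) (n : ℕ)
    (g : (Fin d → ℤ) → E d × ℝ → ℝ) (Bad : Finset (Fin d → ℤ)) : Prop :=
  ∀ z ∈ zbox d n, z ∉ Bad → ∀ (a c : E d) (Lt : E d × ℝ → ℝ) (Lam : ℝ), (∀ t, 0 ≤ Lt t) →
    ∑ t ∈ net, Lt t * (t.2 + c1) ≤ κ / 2 * 2⁻¹ ^ n →
    (∀ x, ‖x - a‖ ≤ κ * 2⁻¹ ^ n → x ∈ cell n z) →
    ∑ t ∈ net, Lt t * (t.2 + c1) + ‖a + ∑ t ∈ net, Lt t • t.1 - c‖ + δ * κ * 2⁻¹ ^ n ≤ Lam →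
    ∑ t ∈ net, Lt t * g z t - δ * κ * 2⁻¹ ^ n ≤ D a c Lam

/-- Upper bound on the micro scale. -/
def HUpp (D : E d → E d → ℝ → ℝ) (net : Finset (E d × ℝ)) (rm κ δ : ℝ) (n n' : ℕ)
    (g : (Fin d → ℤ) → E d × ℝ → ℝ) (Bad BadT : Finset (Fin d → ℤ)) : Prop :=
  ∀ z ∈ zbox d n', z ∉ BadT → par n n' z ∉ Bad → ∀ t ∈ net, ∀ a : E d,
    (∀ x, ‖x - a‖ ≤ rm * sc κ n' → x ∈ cell n' z) →
    D a (a + sc κ n' • t.1) (sc κ n' * t.2) ≤ sc κ n' * (g (par n n' z) t + δ)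

end MP4fb

end
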