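import Pool.Agent.Lib.MP_4fbc34_pr.SeqDef
import Pool.Agent.Lib.MP_4fbc34_pr.Blocks

/-!
Lattice environments.  A `Lat` has a finite type of states; in a cell of index `p` (of a grid of mesh `η`) with
state `a` there is exactly one atom, at the point `η (p + u a)`, of mass `mm a`; a cell may also be empty
(`none`).
-/

set_option autoImplicit false

open scoped Classical

noncomputable section

namespace MP4fb

variable {d : ℕ}

/-- the lattice point as a point of Euclidean space -/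
def toE (p : Fin d → ℤ) : E d := WithLp.toLp 2 (fun i => (p i : ℝ))

/-- states of a cell -/
structure Lat (d : ℕ) where
  A : Type
  fin : Fintype A
  u : A → E d
  mm : A → ℝ

instance (Λ : Lat d) : Fintype Λ.A := Λ.fin

/-- positions are at distance at least `εu` from the boundary of the cell, masses in `[0, mmax]` -/
structure Lat.Ok (Λ : Lat d) (εu mmax : ℝ) : Prop where
  eps_pos : 0 < εu
  u_ge : ∀ a i, εu ≤ Λ.u a i
  u_le : ∀ a i, Λ.u a i ≤ 1 - εu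
  mm_nonneg : ∀ a, 0 ≤ Λ.mm a
  mm_le : ∀ a, Λ.mm a ≤ mmax

/-- configurations -/
abbrev Cfg (Λ : Lat d) := (Fin d → ℤ) → Option Λ.A

/-- position of the atom of cell `p` with state `a` -/
def lpos (Λ : Lat d) (η : ℝ) (p : Fin d → ℤ) (a : Λ.A) : E d := η • (toE p + Λ.u a)

/-- the set of atoms -/
def atoms (Λ : Lat d) (η : ℝ) (σ : Cfg Λ) : Set (E d) :=
  {y | ∃ (p : Fin d → ℤ) (a : Λ.A), σ p = some a ∧ y = lpos Λ η p a}

/-- the mass function -/
def massL (Λ : Lat d) (η : ℝ) (σ : Cfg Λ) (y : E d) : ℝ :=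
  sSup {t | ∃ (p : Fin d → ℤ) (a : Λ.A), σ p = some a ∧ y = lpos Λ η p a ∧ t = Λ.mm a}

/-- extension by `none` -/
def ext (Λ : Lat d) (B : Finset (Fin d → ℤ)) (f : B → Option Λ.A) : Cfg Λ :=
  fun p => if h : p ∈ B then f ⟨p, h⟩ else none

/-- weight of an event under the product weight on the sites of `B` -/
def prB (Λ : Lat d) (B : Finset (Fin d → ℤ)) (w : Option Λ.A → ℝ) (Ev : Set (Cfg Λ)) : ℝ :=
  ∑ f : B → Option Λ.A, if ext Λ B f ∈ Ev then ∏ x, w (f x) else 0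

/-- the box of sites `[-n, n)^d` -/
def bx (d n : ℕ) : Finset (Fin d → ℤ) := Fintype.piFinset (fun _ => Finset.Ico (-(n : ℤ)) n)

/-- the alive sites: the box `[-N 2^j, N 2^j)^d` without the dead box `[-N 2^(j-md), N 2^(j-md))^d` -/
def abx (d md N j : ℕ) : Finset (Fin d → ℤ) := bx d (N * 2 ^ j) \ bx d (N * 2 ^ (j - md))

/-- the sequence of spaces attached to lattice models -/
def latSq (Λ : Lat d) (j : ℕ → ℕ) (r : ℕ → ℝ) (w : ℕ → Option Λ.A → ℝ)
    (Bs : ℕ → Finset (Fin d → ℤ)) (Ev : ∀ k, Set (Bs k → Option Λ.A)) : Sq d where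
  Ω := fun k => Bs k → Option Λ.A
  fin := fun k => inferInstance
  w := fun k f => ∏ x, w k (f x)
  S := fun k f => atoms Λ (2⁻¹ ^ j k) (ext Λ _ f)
  m := fun k f => massL Λ (2⁻¹ ^ j k) (ext Λ _ f)
  ell := fun k => r k * 2 ^ j k
  Ev := Ev

/-- kept tiles -/
def KeptT (κ : ℝ) (n n' : ℕ) (Bad BadT : Finset (Fin d → ℤ)) (z : Fin d → ℤ) : Prop :=
  z ∈ zbox d n' ∧ z ∉ BadT ∧ par n n' z ∉ Bad ∧
    ∀ x y : E d, y ∈ cell n' z → ‖x - y‖ ≤ 2 * κ * 2⁻¹ ^ n → x ∈ cell n (par n n' z)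

/-- kept sites; `b = 2 ^ (j - n')` is the number of cells per side of a tile -/
def KeptS (κ : ℝ) (n n' j : ℕ) (Bad BadT : Finset (Fin d → ℤ)) (p : Fin d → ℤ) : Prop :=
  KeptT κ n n' Bad BadT (fun i => p i / 2 ^ (j - n')) ∧
    ∀ i, κ * 2 ^ (j - n') ≤ ((p i % 2 ^ (j - n') : ℤ) : ℝ) ∧
      ((p i % 2 ^ (j - n') : ℤ) : ℝ) + 1 ≤ (1 - κ) * 2 ^ (j - n')

/-- the site of the magnified box which corresponds to the site `p` and the copy `i` -/
def bmap (N n' j : ℕ) (i : Fin d → Fin N) (p : Fin d → ℤ) : Fin d → ℤ := fun c =>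
  N * 2 ^ (j - n') * (p c / 2 ^ (j - n')) + 2 ^ (j - n') * (i c : ℤ) + p c % 2 ^ (j - n')

/-- `σ` is the magnified configuration built from the configurations `σ' i`: the alive kept sites are copied,
everything else is empty. -/
structure Magn (Λ : Lat d) (κ : ℝ) (n n' md j N : ℕ) (Bad BadT : Finset (Fin d → ℤ)) (σ : Cfg Λ)
    (σ' : (Fin d → Fin N) → Cfg Λ) : Prop where
  copy : ∀ i, ∀ p ∈ abx d md 1 j, KeptS κ n n' j Bad BadT p → σ (bmap N n' j i p) = σ' i p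
  rest : ∀ y, (¬ ∃ i, ∃ p ∈ abx d md 1 j, KeptS κ n n' j Bad BadT p ∧ y = bmap N n' j i p) →
    σ y = none

/-- The root event of a lattice configuration of mesh `2⁻ʲ`. -/
def RootEv (M : Model d) (Λ : Lat d) (j : ℕ) (L v : ℝ) : Set (Cfg Λ) :=
  {σ | Root M (atoms Λ (2⁻¹ ^ j) σ) (massL Λ (2⁻¹ ^ j) σ) L v}

/-- The root event of a magnified configuration to which atoms are added in the dead zone, where any object
with budget `lam` collects at most mass `η (lam + b0)`. -/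
def RootDZ (M : Model d) (Λ : Lat d) (j N md : ℕ) (β η b0 V : ℝ) : Set (Cfg Λ) :=
  {σ | ∀ (Sin : Set (E d)) (m : E d → ℝ), (M.hub → Sin = ∅) →
    (∀ y ∈ Sin, ∀ i, -(N * 2⁻¹ ^ md) ≤ y i ∧ y i < N * 2⁻¹ ^ md) → (∀ x, 0 ≤ m x) →
    (∀ y ∈ atoms Λ (2⁻¹ ^ j) σ, m y = massL Λ (2⁻¹ ^ j) σ y) →
    (∀ (a b : E d) (lam : ℝ) (C : Finset (E d)) (κ : ℝ),
      M.O (atoms Λ (2⁻¹ ^ j) σ ∪ Sin) a b lam C κ →
      ∑ x ∈ C.filter (fun x => x ∈ Sin), m x ≤ η * (lam + b0)) →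
    Root M (atoms Λ (2⁻¹ ^ j) σ ∪ Sin) m ((1 - β) * N) V}

end MP4fb

end
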