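import Pool.Agent.Lib.MP_4fbc34_pr.LvB

/-!
JOB LimA: the limit on dyadic triples.

`grid n` is a finite set of triples: `a, b` in `2⁻ⁿ ℤ^d` with coordinates of absolute value at most `n`,
`lam` in `2⁻ⁿ ℕ`, `lam <= n`, `‖a - b‖ <= lam`; every dyadic triple (a triple with `2^k a`, `2^k b` integral
and `2^k lam` a natural number for some `k`, and `‖a - b‖ <= lam`) is in `grid n` for all large `n`.
(Define it as the image of a product of `Fintype.piFinset`s of integer intervals, filtered.)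
Apply `seq_data` with `T = grid n`, `ε = 2⁻ⁿ`, `N0 = n` and get `dat_n`, `c_n`, `CU_n`.  Put
`D_n τ = 2⁻ⁿ * dat_n τ`.
Let `𝒰` be an ultrafilter on `ℕ` below `atTop` (`Filter.hyperfilter ℕ`).  For a dyadic triple `τ` the values
`D_n τ` are bounded: `dat * ε * ℓ <= B (ℓ lam + 1)` for (infinitely many) `k` with `ℓ = X.ell k → ∞`, so
`D_n τ <= B lam` (if `τ ∈ grid n`, and `D_n τ = 0` otherwise).  Let `Dst τ` be the limit along `𝒰`
(compactness of intervals; `Ultrafilter` limits, or `lim`).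
Properties on dyadic triples: `0 <= Dst τ <= B lam`; `Dst τ1 + Dst τ2 <= Dst τ3` for composable triples
(`DatOk.sup`), symmetric under exchange of the end points (`DatOk.symm`, `grid n` is symmetric); both hold because the frequently quantifier provides at least one environment (the error
`2⁻ⁿ → 0`; if `pr k (Ev k) = 0` the set `A` may be empty, therefore the hypothesis `hpos`); monotone.
-/

set_option autoImplicit false

open scoped ENNReal Classical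

noncomputable section

namespace MP4fb

variable {d : ℕ} (M : Model d) (hM : M.Ok)

/-- dyadic points -/
def Dy (x : E d) : Prop := ∃ (k : ℕ) (z : Fin d → ℤ), ∀ i, 2 ^ k * x i = z i

/-- dyadic numbers -/
def DyR (x : ℝ) : Prop := ∃ (k : ℕ) (z : ℤ), 2 ^ k * x = z

/-- valid dyadic triples -/
def DyT (τ : E d × E d × ℝ) : Prop := Dy τ.1 ∧ Dy τ.2.1 ∧ DyR τ.2.2 ∧ ‖τ.1 - τ.2.1‖ ≤ τ.2.2

include hM

/-- grid numbers -/
private def LimA_gx (n : ℕ) : Finset ℝ :=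
  (Finset.Icc (-((n : ℤ) * 2 ^ n)) ((n : ℤ) * 2 ^ n)).image (fun z : ℤ => (z : ℝ) / 2 ^ n)

/-- grid points -/
private def LimA_gE (d n : ℕ) : Finset (E d) :=
  (Fintype.piFinset (fun _ : Fin d => LimA_gx n)).image (fun f => WithLp.toLp 2 f)

/-- grid triples -/
private def LimA_g (d n : ℕ) : Finset (E d × E d × ℝ) :=
  ((LimA_gE d n) ×ˢ ((LimA_gE d n) ×ˢ (LimA_gx n))).filter (fun τ => ‖τ.1 - τ.2.1‖ ≤ τ.2.2)

omit hM in
private theorem LimA_gx_mem (x : ℝ) (h : DyR x) : ∀ᶠ n : ℕ in Filter.atTop, x ∈ LimA_gx n := by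
  obtain ⟨k, z, hz⟩ := h
  obtain ⟨m, hm⟩ := exists_nat_ge |x|
  filter_upwards [Filter.eventually_ge_atTop (max k m)] with n hn
  have hk : k ≤ n := le_trans (le_max_left _ _) hn
  have hmn : (m : ℝ) ≤ n := by exact_mod_cast le_trans (le_max_right _ _) hn
  have h2 : (0 : ℝ) < 2 ^ n := by positivity
  have hx : (2 : ℝ) ^ n * x = ((2 ^ (n - k) * z : ℤ) : ℝ) := by
    push_cast
    rw [← hz, ← mul_assoc, ← pow_add, Nat.sub_add_cancel hk]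
  have hb : |((2 ^ (n - k) * z : ℤ) : ℝ)| ≤ n * 2 ^ n := by
    rw [← hx, abs_mul, abs_of_pos h2, mul_comm]
    exact mul_le_mul_of_nonneg_right (le_trans hm hmn) h2.le
  unfold LimA_gx
  rw [Finset.mem_image]
  refine ⟨2 ^ (n - k) * z, ?_, ?_⟩
  · rw [Finset.mem_Icc]
    have h3 := abs_le.mp hb
    constructor
    · have := h3.1
      exact_mod_cast this
    · have := h3.2
      exact_mod_cast this
  · rw [← hx]
    field_simp

omit hM in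
private theorem LimA_gE_mem_iff (n : ℕ) (x : E d) : x ∈ LimA_gE d n ↔ ∀ i, x i ∈ LimA_gx n := by
  unfold LimA_gE
  rw [Finset.mem_image]
  constructor
  · rintro ⟨f, hf, rfl⟩ i
    rw [Fintype.mem_piFinset] at hf
    exact hf i
  · intro h
    refine ⟨fun i => x i, ?_, ?_⟩
    · rw [Fintype.mem_piFinset]
      exact h
    · ext i
      rfl

omit hM in
private theorem LimA_gE_mem (x : E d) (h : Dy x) : ∀ᶠ n : ℕ in Filter.atTop, x ∈ LimA_gE d n := by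
  obtain ⟨k, z, hz⟩ := h
  have h1 : ∀ i : Fin d, ∀ᶠ n : ℕ in Filter.atTop, x i ∈ LimA_gx n := by
    intro i
    exact LimA_gx_mem (x i) ⟨k, z i, hz i⟩
  have h2 := Filter.eventually_all.mpr h1
  filter_upwards [h2] with n hn
  rw [LimA_gE_mem_iff]
  exact hn

omit hM in
private theorem LimA_g_mem (τ : E d × E d × ℝ) (h : DyT τ) :
    ∀ᶠ n : ℕ in Filter.atTop, τ ∈ LimA_g d n := by
  obtain ⟨h1, h2, h3, h4⟩ := h
  filter_upwards [LimA_gE_mem _ h1, LimA_gE_mem _ h2, LimA_gx_mem _ h3] with n k1 k2 k3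
  unfold LimA_g
  rw [Finset.mem_filter, Finset.mem_product, Finset.mem_product]
  exact ⟨⟨k1, k2, k3⟩, h4⟩

omit hM in
private theorem LimA_g_valid (n : ℕ) (τ : E d × E d × ℝ) (h : τ ∈ LimA_g d n) :
    ‖τ.1 - τ.2.1‖ ≤ τ.2.2 := by
  unfold LimA_g at h
  rw [Finset.mem_filter] at h
  exact h.2

omit hM in
private theorem LimA_nonempty (X : Sq d) (k : ℕ) (A : Set (X.Ω k)) (h : 0 < X.pr k A) :
    ∃ ω, ω ∈ A := by
  by_contra hA
  push Not at hA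
  have h0 : X.pr k A = 0 := by
    unfold Sq.pr
    apply Finset.sum_eq_zero
    intro ω _
    rw [if_neg (hA ω)]
  rw [h0] at h
  exact lt_irrefl _ h

theorem limit_dyadic (X : Sq d) (B : ℝ) (hX : X.Ok M B) (hpos : ∀ k, 0 < X.pr k (X.Ev k)) :
    ∃ (Dst : E d × E d × ℝ → ℝ) (g : ℕ → Finset (E d × E d × ℝ)) (dat : ℕ → E d × E d × ℝ → ℕ),
      (∀ n, ∀ τ ∈ g n, ‖τ.1 - τ.2.1‖ ≤ τ.2.2) ∧
      (∀ τ, DyT τ → ∀ᶠ n in Filter.atTop, τ ∈ g n) ∧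
      (∀ τ, DyT τ → 0 ≤ Dst τ ∧ Dst τ ≤ B * τ.2.2) ∧
      (∀ τ1 τ2 τ3, DyT τ1 → DyT τ2 → DyT τ3 → τ1.2.1 = τ2.1 → τ3.1 = τ1.1 → τ3.2.1 = τ2.2.1 →
        τ3.2.2 = τ1.2.2 + τ2.2.2 → Dst τ1 + Dst τ2 ≤ Dst τ3) ∧
      (∀ τ1 τ2, DyT τ1 → DyT τ2 → τ1.2.2 + ‖τ1.1 - τ2.1‖ + ‖τ1.2.1 - τ2.2.1‖ ≤ τ2.2.2 →
        Dst τ1 ≤ Dst τ2) ∧
      (∀ τ1 τ2, DyT τ1 → DyT τ2 → τ2.1 = τ1.2.1 → τ2.2.1 = τ1.1 → τ2.2.2 = τ1.2.2 →
        Dst τ1 = Dst τ2) ∧
      (∀ (T : Finset (E d × E d × ℝ)) (ε : ℝ) (n0 : ℕ), (∀ τ ∈ T, DyT τ) → 0 < ε →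
        ∃ n ≥ n0, T ⊆ g n ∧ (∀ τ ∈ T, |(2⁻¹ : ℝ) ^ n * dat n τ - Dst τ| ≤ ε) ∧
          ∃ c CU : ℝ, 0 < c ∧ ∃ᶠ k in Filter.atTop, ∃ A ⊆ X.Ev k, c * X.pr k (X.Ev k) ≤ X.pr k A ∧
            ∀ ω ∈ A, DatOk M (g n) B ((2⁻¹ : ℝ) ^ n) n CU (X.S k ω) (X.m k ω) (X.ell k) (dat n)) := by
  have hdat : ∀ n : ℕ, ∃ (c CU : ℝ) (dat : E d × E d × ℝ → ℕ), 0 < c ∧
      (∀ τ ∉ LimA_g d n, dat τ = 0) ∧
      ∃ᶠ k in Filter.atTop, ∃ A ⊆ X.Ev k, c * X.pr k (X.Ev k) ≤ X.pr k A ∧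
        ∀ ω ∈ A, DatOk M (LimA_g d n) B ((2⁻¹ : ℝ) ^ n) n CU (X.S k ω) (X.m k ω) (X.ell k) dat := by
    intro n
    exact seq_data M hM X B hX (LimA_g d n) (LimA_g_valid n) ((2⁻¹ : ℝ) ^ n) (by positivity) n
  choose c CU dat hc hdat0 hfreq using hdat
  -- one environment
  have hone : ∀ n : ℕ, ∃ᶠ k in Filter.atTop, ∃ ω,
      DatOk M (LimA_g d n) B ((2⁻¹ : ℝ) ^ n) n (CU n) (X.S k ω) (X.m k ω) (X.ell k) (dat n) := by
    intro n
    refine (hfreq n).mono ?_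
    rintro k ⟨A, hA, hpr, hok⟩
    have h1 : 0 < X.pr k A := lt_of_lt_of_le (mul_pos (hc n) (hpos k)) hpr
    obtain ⟨ω, hω⟩ := LimA_nonempty X k A h1
    exact ⟨ω, hok ω hω⟩
  have hone' : ∀ n : ℕ, ∃ k ω,
      DatOk M (LimA_g d n) B ((2⁻¹ : ℝ) ^ n) n (CU n) (X.S k ω) (X.m k ω) (X.ell k) (dat n) := by
    intro n
    exact (hone n).exists
  -- bound
  have hbd : ∀ (n : ℕ) (τ : E d × E d × ℝ), τ ∈ LimA_g d n →
      (2⁻¹ : ℝ) ^ n * dat n τ ≤ B * τ.2.2 := by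
    intro n τ hτ
    by_contra hcon
    push Not at hcon
    set D : ℝ := (2⁻¹ : ℝ) ^ n * dat n τ with hD
    have hgap : 0 < D - B * τ.2.2 := by linarith
    have hev : ∀ᶠ k in Filter.atTop, B / (D - B * τ.2.2) < X.ell k :=
      hX.ell_tend.eventually_gt_atTop _
    obtain ⟨k, ⟨ω, hω⟩, hk⟩ := ((hone n).and_eventually hev).exists
    have hb := hω.bound τ hτ
    rw [div_lt_iff₀ hgap] at hk
    have h3 : (dat n τ : ℝ) * (2⁻¹ : ℝ) ^ n * X.ell k = D * X.ell k := by rw [hD]; ring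
    rw [h3] at hb
    nlinarith
  -- limits
  have hlim : ∀ τ : E d × E d × ℝ, ∃ L : ℝ, DyT τ → 0 ≤ L ∧ L ≤ B * τ.2.2 ∧
      Filter.Tendsto (fun n : ℕ => (2⁻¹ : ℝ) ^ n * (dat n τ : ℝ))
        (Filter.hyperfilter ℕ : Filter ℕ) (nhds L) := by
    intro τ
    by_cases hτ : DyT τ
    · have hev : ∀ᶠ n : ℕ in Filter.atTop, (2⁻¹ : ℝ) ^ n * (dat n τ : ℝ) ∈ Set.Icc 0 (B * τ.2.2) := by
        filter_upwards [LimA_g_mem τ hτ] with n hn
        refine ⟨by positivity, hbd n τ hn⟩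
      have hev2 : ∀ᶠ n : ℕ in (Filter.hyperfilter ℕ : Filter ℕ),
          (2⁻¹ : ℝ) ^ n * (dat n τ : ℝ) ∈ Set.Icc 0 (B * τ.2.2) :=
        Nat.hyperfilter_le_atTop hev
      have hcomp : IsCompact (Set.Icc (0 : ℝ) (B * τ.2.2)) := isCompact_Icc
      obtain ⟨L, hL, hle⟩ := hcomp.ultrafilter_le_nhds
        ((Filter.hyperfilter ℕ).map (fun n : ℕ => (2⁻¹ : ℝ) ^ n * (dat n τ : ℝ)))
        (by
          rw [Filter.le_principal_iff]
          exact hev2)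
      exact ⟨L, fun _ => ⟨hL.1, hL.2, hle⟩⟩
    · exact ⟨0, fun h => absurd h hτ⟩
  choose Dst hDst using hlim
  have h2z : Filter.Tendsto (fun n : ℕ => (2⁻¹ : ℝ) ^ n) (Filter.hyperfilter ℕ : Filter ℕ) (nhds 0) :=
    (tendsto_pow_atTop_nhds_zero_of_lt_one (by norm_num) (by norm_num)).mono_left
      Nat.hyperfilter_le_atTop
  have hup : ∀ {p : ℕ → Prop}, (∀ᶠ n in Filter.atTop, p n) →
      ∀ᶠ n in (Filter.hyperfilter ℕ : Filter ℕ), p n := by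
    intro p hp
    exact Nat.hyperfilter_le_atTop hp
  refine ⟨Dst, fun n => LimA_g d n, dat, ?_, ?_, ?_, ?_, ?_, ?_, ?_⟩
  · intro n τ hτ
    exact LimA_g_valid n τ hτ
  · intro τ hτ
    exact LimA_g_mem τ hτ
  · intro τ hτ
    exact ⟨(hDst τ hτ).1, (hDst τ hτ).2.1⟩
  · intro τ1 τ2 τ3 h1 h2 h3 e1 e2 e3 e4
    have t12 := (hDst τ1 h1).2.2.add (hDst τ2 h2).2.2
    have t3 := (hDst τ3 h3).2.2.add h2z
    rw [add_zero] at t3
    refine le_of_tendsto_of_tendsto t12 t3 ?_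
    filter_upwards [hup (LimA_g_mem τ1 h1), hup (LimA_g_mem τ2 h2), hup (LimA_g_mem τ3 h3)]
      with n m1 m2 m3
    obtain ⟨k, ω, hok⟩ := hone' n
    have hs := hok.sup τ1 m1 τ2 m2 τ3 m3 e1 e2 e3 e4
    have hs' : (dat n τ1 : ℝ) + dat n τ2 ≤ dat n τ3 + 1 := by exact_mod_cast hs
    have hp : (0 : ℝ) < (2⁻¹ : ℝ) ^ n := by positivity
    have := mul_le_mul_of_nonneg_left hs' hp.le
    linarith
  · intro τ1 τ2 h1 h2 e1
    refine le_of_tendsto_of_tendsto (hDst τ1 h1).2.2 (hDst τ2 h2).2.2 ?_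
    filter_upwards [hup (LimA_g_mem τ1 h1), hup (LimA_g_mem τ2 h2)] with n m1 m2
    obtain ⟨k, ω, hok⟩ := hone' n
    have hs := hok.mono τ1 m1 τ2 m2 e1
    have hs' : (dat n τ1 : ℝ) ≤ dat n τ2 := by exact_mod_cast hs
    have hp : (0 : ℝ) < (2⁻¹ : ℝ) ^ n := by positivity
    exact mul_le_mul_of_nonneg_left hs' hp.le
  · intro τ1 τ2 h1 h2 e1 e2 e3
    refine tendsto_nhds_unique_of_eventuallyEq (hDst τ1 h1).2.2 (hDst τ2 h2).2.2 ?_
    filter_upwards [hup (LimA_g_mem τ1 h1), hup (LimA_g_mem τ2 h2)] with n m1 m2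
    obtain ⟨k, ω, hok⟩ := hone' n
    rw [hok.symm τ1 m1 τ2 m2 e1 e2 e3]
  · intro T ε n0 hT hε
    have hE1 : ∀ᶠ n in (Filter.hyperfilter ℕ : Filter ℕ), ∀ τ ∈ T, τ ∈ LimA_g d n := by
      rw [Filter.eventually_all_finset]
      intro τ hτ
      exact hup (LimA_g_mem τ (hT τ hτ))
    have hE2 : ∀ᶠ n in (Filter.hyperfilter ℕ : Filter ℕ), ∀ τ ∈ T,
        |(2⁻¹ : ℝ) ^ n * dat n τ - Dst τ| ≤ ε := by
      rw [Filter.eventually_all_finset]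
      intro τ hτ
      have := (Metric.tendsto_nhds.mp (hDst τ (hT τ hτ)).2.2) ε hε
      filter_upwards [this] with n hn
      rw [Real.dist_eq] at hn
      exact hn.le
    have hE3 : ∀ᶠ n in (Filter.hyperfilter ℕ : Filter ℕ), n0 ≤ n :=
      hup (Filter.eventually_ge_atTop n0)
    obtain ⟨n, ⟨hn1, hn2⟩, hn3⟩ := ((hE1.and hE2).and hE3).exists
    exact ⟨n, hn3, fun τ hτ => hn1 τ hτ, hn2, c n, CU n, hc n, hfreq n⟩

end MP4fb

end
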