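import Pool.Agent.Lib.MP_4fbc34_pr.DisA
import Pool.Agent.Lib.MP_4fbc34_pr.LatA
import Pool.Agent.Lib.MP_4fbc34_pr.Lip

/-!
JOB LowIncl: if every alive cell of `X` has a state, given by `f`, the lattice configuration `ext f` satisfies the
root event with the dead zone, and the small masses are small, then `X` satisfies the root event.

Notation: `U = r 2^j`, `box = {x | ∀ i, -N U <= x i < N U}`, `dz = {x | ∀ i, -N U 2⁻ᵐᵈ <= x i < N U 2⁻ᵐᵈ}` (dead zone),
`K = 1 + 2 ε`, `ε = d / (np εu)`, `ρ = εu r`.  The cells `gcell r p` with `p ∈ abx d md N j` are the cells in `box \ dz`.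
Let `M.O (psupp X) 0 b L C κ`.
1. By `M.loc` it is an object in `psupp X ∩ closedBall 0 L`, and the ball is inside `box` (`L <= (1 - β) N U < N U`;
   `0 < N U`); `C ⊆ psupp X ∩ closedBall 0 L` by `M.supp`.
2. Let `Sb` = the positions `z ∈ closedBall 0 L`, `z ∈ box \ dz`, with a point `(z, t) ∈ X`, `t >= δ0`; `Sd` = the positions in
   `dz ∩ closedBall 0 L`.  `C' = C.filter (· ∈ Sb ∪ Sd)`.  There is `κ' <= κ` with `M.O (Sb ∪ Sd) 0 b L C' κ'`: in the first case of
   `hcase` by `M.sub` and `M.Ins`; in the second case (`δ0 = 0`, `τ0 = 0`) `Sd = ∅` by `hdead` (masses are positive) and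
   `psupp X ∩ closedBall 0 L ⊆ Sb`, so `C' = C`; use `M.lip` with the identity.
3. For `z ∈ Sb` let `p` be its cell, `p ∈ abx d md N j`.  `St p (f p)` holds and the point `(z, t)` is in `Tot p`, so
   `f p = some a` and `(z, t)` is the unique point of `X` in `Tot p`, `(z, t) ∈ Cset p a`.  Let `P0` be the set of the sites `p`
   with `f p = some a_p`, `(z_p, t_p)` the unique point, `y_p = r (p + u a_p)`; `t_p < mm a_p + mst`,
   `‖z_p - y_p‖ <= √d r / np <= ε ρ`.  The `z_p` are in the inner parts of different cells (`mcell_sub`), so at mutual distance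
   at least `2 ρ`, at distance at least `ρ` from `0` and from all points of `dz`.  `lip_map` (`x i = z_i`, `x' i = y_i`) gives
   `Φ` with `Φ z_p = y_p`, `Φ = id` on `dz` and at `0`, constant `K`.
4. Let `Ψ x = U⁻¹ Φ x`, constant `K / U`.  `Ψ z_p = lpos (2⁻ʲ) p a_p ∈ atoms (ext f)`.  `Sin = {U⁻¹ z | z ∈ Sd}`.  `M.lip` gives
   `M.O (atoms (ext f) ∪ Sin) 0 (Ψ b) (K / U * L) (C'.image Ψ) κ''`, `κ'' <= κ'`; enlarge the budget to `(1 - β) N`
   (`M.cone`, `hL`).
5. Apply `hroot` with `Sin` and `m y = massL y` for `y ∈ atoms (ext f)`, `m y = (massI X (Ioo 0 τ0) (U y)).toReal` for other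
   `y ∈ Sin`, `0` otherwise (atoms of alive cells are not in `U⁻¹ dz`, so `Sin` and the atoms are disjoint).  Conditions:
   `M.hub → Sin = ∅`: in the first case of `hcase` there is no hub, in the second `Sd = ∅`.  The condition on objects: for
   `M.O (atoms ∪ Sin) a' b' lam C1 k`, `M.poly` gives a list `l` with `plen l <= 2 lam` containing `C1`; scale it by `U` and apply
   `hsmall`: `∑_{C1 ∩ Sin} m = (∑ massI X (Ioo 0 τ0) (U y)).toReal <= e2 (2 lam U + b0) <= η (lam + b0 / U)` by `hη`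
   (`lam >= 0` by `M.valid`; each single mass is finite by `hsmall` for a one point list).
   So `∑_{C'.image Ψ} m - κ'' <= V`.
6. Masses.  For `z ∈ C ∩ dz`: `mass X z = massI X (Ioo 0 τ0) z` (by `hdead` and positivity), `= ofReal (m (Ψ z))`.
   For `z ∈ C`, `z ∉ dz`: `mass X z = massI X (Ioo 0 δ0) z + massI X (Ici δ0) z`, where the last term is
   `ofReal t_p <= ofReal (m (Ψ z) + mst)` if `z = z_p ∈ Sb`, and `0` if `z ∉ Sb`.  `Ψ` is injective on `Sb ∪ Sd`.  So
   `∑_C mass X z <= ofReal (∑_{C'.image Ψ} m) + ofReal (mst * card (C ∩ Sb)) + ∑_{z ∈ C, z ∉ dz} massI X (Ioo 0 δ0) z`.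
   The number `card (C ∩ Sb) <= 1 + L / (εu r)` by `M.sub` and `M.count` (separation `2 ρ`).  The last sum is at most
   `ofReal (e1 (2 L + b0))` by `M.poly` and `htiny`.
   Total at most `ofReal (V + κ + mst (1 + L / (εu r)) + e1 (2 L + b0)) <= ofReal (v + κ)`.
-/

set_option autoImplicit false

open scoped ENNReal Classical

noncomputable section

namespace MP4fb

variable {d : ℕ}

/-- the dead zone -/
def dzone (d : ℕ) (W : ℝ) : Set (E d) := {x | ∀ i, -W ≤ x i ∧ x i < W}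

private theorem norm_le_coord (hd : 1 ≤ d) (x : E d) (c : ℝ) (hc : 0 ≤ c) (h : ∀ i, |x i| ≤ c) :
    ‖x‖ ≤ d * c := by
  have hd' : (1 : ℝ) ≤ d := by exact_mod_cast hd
  rw [EuclideanSpace.norm_eq]
  apply Real.sqrt_le_iff.2
  refine ⟨by positivity, ?_⟩
  have h1 : ∀ i, ‖x i‖ ^ 2 ≤ c ^ 2 := fun i => pow_le_pow_left₀ (norm_nonneg _) (h i) 2
  refine (Finset.sum_le_sum fun i _ => h1 i).trans ?_
  rw [Finset.sum_const, Finset.card_univ, Fintype.card_fin, nsmul_eq_mul, mul_pow]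
  have h4 : (d : ℝ) ≤ (d : ℝ) ^ 2 := by nlinarith
  exact mul_le_mul_of_nonneg_right h4 (by positivity)

private theorem coord_le (x : E d) (i : Fin d) : |x i| ≤ ‖x‖ := by
  rw [← Real.norm_eq_abs]
  exact PiLp.norm_apply_le _ _

private theorem pow_dz {N md j : ℕ} (hmd : md ≤ j) (r : ℝ) :
    (N : ℝ) * (r * 2 ^ j) * 2⁻¹ ^ md = r * (N * 2 ^ (j - md)) := by
  have h : (2 : ℝ) ^ j = 2 ^ (j - md) * 2 ^ md := by rw [← pow_add, Nat.sub_add_cancel hmd]
  rw [h, inv_pow]
  field_simp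

private theorem mem_bx (d n : ℕ) (p : Fin d → ℤ) :
    p ∈ bx d n ↔ ∀ i, -(n : ℤ) ≤ p i ∧ p i < n := by
  rw [bx, Fintype.mem_piFinset]
  simp only [Finset.mem_Ico]

private theorem alive_far {N md j : ℕ} (hmd : md ≤ j) {r εu : ℝ} (hr : 0 < r)
    (p : Fin d → ℤ) (hp : p ∈ abx d md N j) (s y : E d)
    (hs : ∀ i, r * (p i + εu) ≤ s i ∧ s i ≤ r * (p i + (1 - εu)))
    (hy : y ∈ dzone d (N * (r * 2 ^ j) * 2⁻¹ ^ md)) : εu * r ≤ ‖y - s‖ := by
  rw [abx, Finset.mem_sdiff, mem_bx, mem_bx] at hp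
  obtain ⟨-, h1⟩ := hp
  push Not at h1
  obtain ⟨i, hi⟩ := h1
  refine le_trans ?_ (coord_le (y - s) i)
  have h3 := hy i
  rw [pow_dz hmd] at h3
  rw [PiLp.sub_apply]
  by_cases h4 : -((N * 2 ^ (j - md) : ℕ) : ℤ) ≤ p i
  · have h5 := hi h4
    have h6 : ((N : ℝ) * 2 ^ (j - md)) ≤ p i := by exact_mod_cast h5
    have h8 : r * (N * 2 ^ (j - md)) ≤ r * p i := mul_le_mul_of_nonneg_left h6 hr.le
    rw [abs_sub_comm]
    refine le_trans ?_ (le_abs_self _)
    linarith [h3.2, (hs i).1]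
  · push Not at h4
    have h6 : (p i : ℝ) + 1 ≤ -((N : ℝ) * 2 ^ (j - md)) := by
      have : p i + 1 ≤ -((N * 2 ^ (j - md) : ℕ) : ℤ) := by omega
      exact_mod_cast this
    have h8 : r * (p i + 1) ≤ r * (-((N : ℝ) * 2 ^ (j - md))) := mul_le_mul_of_nonneg_left h6 hr.le
    refine le_trans ?_ (le_abs_self _)
    linarith [h3.1, (hs i).2]

private theorem exists_cell {N md j : ℕ} (hmd : md ≤ j) {r : ℝ} (hr : 0 < r) (z : E d)
    (h1 : z ∈ dzone d (N * (r * 2 ^ j))) (h2 : z ∉ dzone d (N * (r * 2 ^ j) * 2⁻¹ ^ md)) :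
    ∃ p ∈ abx d md N j, z ∈ gcell r p := by
  have hc : z ∈ gcell r (fun i => ⌊z i / r⌋) := by
    intro i
    constructor
    · have := Int.floor_le (z i / r)
      rw [le_div_iff₀ hr] at this
      linarith
    · have := Int.lt_floor_add_one (z i / r)
      rw [div_lt_iff₀ hr] at this
      linarith
  refine ⟨_, ?_, hc⟩
  rw [abx, Finset.mem_sdiff, mem_bx, mem_bx]
  constructor
  · intro i
    have h3 := h1 i
    have h4 : (N : ℝ) * (r * 2 ^ j) = r * (N * 2 ^ j) := by ring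
    rw [h4] at h3
    constructor
    · rw [Int.le_floor]
      push_cast
      rw [le_div_iff₀ hr]
      linarith [h3.1]
    · rw [Int.floor_lt]
      push_cast
      rw [div_lt_iff₀ hr]
      linarith [h3.2]
  · intro h3
    apply h2
    intro i
    rw [pow_dz hmd]
    have h4 := h3 i
    have h5 := hc i
    have h6 : -((N : ℝ) * 2 ^ (j - md)) ≤ (⌊z i / r⌋ : ℝ) := by exact_mod_cast h4.1
    have h7 : (⌊z i / r⌋ : ℝ) + 1 ≤ N * 2 ^ (j - md) := by
      have := h4.2
      have h8 : ⌊z i / r⌋ + 1 ≤ ((N * 2 ^ (j - md) : ℕ) : ℤ) := by omega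
      exact_mod_cast h8
    have h8 := mul_le_mul_of_nonneg_left h6 hr.le
    have h9 := mul_le_mul_of_nonneg_left h7 hr.le
    constructor
    · linarith [h5.1]
    · linarith [h5.2]

private theorem sep_inner {r εu : ℝ} (hr : 0 < r) (p q : Fin d → ℤ) (h : p ≠ q) (x y : E d)
    (hx : ∀ i, r * (p i + εu) ≤ x i ∧ x i < r * (p i + (1 - εu)))
    (hy : ∀ i, r * (q i + εu) ≤ y i ∧ y i < r * (q i + (1 - εu))) :
    2 * (εu * r) ≤ ‖x - y‖ := by
  obtain ⟨i, hi⟩ := Function.ne_iff.1 h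
  refine le_trans ?_ (coord_le (x - y) i)
  rw [PiLp.sub_apply]
  rcases lt_or_gt_of_ne hi with h1 | h1
  · have h2 : (p i : ℝ) + 1 ≤ q i := by exact_mod_cast h1
    have h3 := mul_le_mul_of_nonneg_left h2 hr.le
    rw [abs_sub_comm]
    refine le_trans ?_ (le_abs_self _)
    linarith [(hx i).2, (hy i).1]
  · have h2 : (q i : ℝ) + 1 ≤ p i := by exact_mod_cast h1
    have h3 := mul_le_mul_of_nonneg_left h2 hr.le
    refine le_trans ?_ (le_abs_self _)
    linarith [(hx i).1, (hy i).2]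

private theorem mass_eq (X : Set (E d × ℝ)) (x : E d) :
    mass X x = ∑' t : ℝ, if (x, t) ∈ X then ENNReal.ofReal t else 0 := by
  have := tsum_subtype {t : ℝ | (x, t) ∈ X} (fun t => ENNReal.ofReal t)
  refine Eq.trans this ?_
  refine tsum_congr fun t => ?_
  rw [Set.indicator_apply]
  rfl

private theorem massI_eq (X : Set (E d × ℝ)) (I : Set ℝ) (x : E d) :
    massI X I x = ∑' t : ℝ, if (x, t) ∈ X ∧ t ∈ I then ENNReal.ofReal t else 0 := by
  have := tsum_subtype {t : ℝ | (x, t) ∈ X ∧ t ∈ I} (fun t => ENNReal.ofReal t)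
  refine Eq.trans this ?_
  refine tsum_congr fun t => ?_
  rw [Set.indicator_apply]
  rfl

private theorem mass_le_add (X : Set (E d × ℝ)) (hX : ∀ p ∈ X, 0 < p.2) (δ : ℝ) (x : E d) :
    mass X x ≤ massI X (Set.Ioo 0 δ) x + massI X (Set.Ici δ) x := by
  rw [mass_eq, massI_eq, massI_eq, ← ENNReal.tsum_add]
  refine ENNReal.tsum_le_tsum fun t => ?_
  by_cases h : (x, t) ∈ X
  · have h1 : 0 < t := hX _ h
    rcases lt_or_ge t δ with h2 | h2
    · rw [if_pos h, if_pos ⟨h, h1, h2⟩]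
      exact le_self_add
    · rw [if_pos h, if_pos (show (x, t) ∈ X ∧ t ∈ Set.Ici δ from ⟨h, h2⟩)]
      exact le_add_self
  · rw [if_neg h]
    exact zero_le

private theorem mass_le_massI (X : Set (E d × ℝ)) (I : Set ℝ) (x : E d)
    (h : ∀ t, (x, t) ∈ X → t ∈ I) : mass X x ≤ massI X I x := by
  rw [mass_eq, massI_eq]
  refine ENNReal.tsum_le_tsum fun t => ?_
  by_cases h1 : (x, t) ∈ X
  · rw [if_pos h1, if_pos ⟨h1, h t h1⟩]
  · rw [if_neg h1]
    exact zero_le

private theorem massI_le_single (X : Set (E d × ℝ)) (I : Set ℝ) (x : E d) (t0 : ℝ)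
    (h : ∀ t, (x, t) ∈ X → t ∈ I → t = t0) : massI X I x ≤ ENNReal.ofReal t0 := by
  rw [massI_eq]
  calc (∑' t : ℝ, if (x, t) ∈ X ∧ t ∈ I then ENNReal.ofReal t else 0) ≤
        ∑' t : ℝ, if t = t0 then ENNReal.ofReal t0 else 0 := by
        refine ENNReal.tsum_le_tsum fun t => ?_
        by_cases h1 : (x, t) ∈ X ∧ t ∈ I
        · rw [if_pos h1, h t h1.1 h1.2, if_pos rfl]
        · rw [if_neg h1]
          exact zero_le
    _ = ENNReal.ofReal t0 := tsum_ite_eq t0 _

private theorem massI_zero (X : Set (E d × ℝ)) (I : Set ℝ) (x : E d)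
    (h : ∀ t, (x, t) ∈ X → t ∉ I) : massI X I x = 0 := by
  rw [massI_eq]
  refine ENNReal.tsum_eq_zero.2 fun t => ?_
  rw [if_neg fun h1 => h t h1.1 h1.2]

private theorem plen_smul (U : ℝ) (hU : 0 ≤ U) : ∀ l : List (E d),
    plen (l.map (fun x => U • x)) = U * plen l
  | [] => by simp [plen]
  | [x] => by simp [plen]
  | x :: y :: l => by
    have h := plen_smul U hU (y :: l)
    simp only [List.map_cons] at h
    simp only [List.map_cons, plen]
    rw [h, ← smul_sub, norm_smul, Real.norm_eq_abs, abs_of_nonneg hU]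
    ring

theorem low_incl (hd : 1 ≤ d) (M : Model d) (hM : M.Ok) (P : DP) (hP : P.Ok) (r : ℝ) (hr : 0 < r)
    (md j N : ℕ) (hmd : md ≤ j) (hN : 1 ≤ N) (X : Set (E d × ℝ)) (hX : ∀ p ∈ X, 0 < p.2)
    (f : abx d md N j → Option (P.lat d).A) (hSt : ∀ p : abx d md N j, St P r X p (f p))
    (β η b0 V τ0 e1 e2 L v : ℝ) (hβ : 0 < β) (hβ' : β < 1) (hb0 : 0 ≤ b0) (he1 : 0 ≤ e1)
    (he2 : 0 ≤ e2) (hL0 : 0 ≤ L) (hV : 0 ≤ V)
    (hroot : ext (P.lat d) (abx d md N j) f ∈
      RootDZ M (P.lat d) j N md β η (b0 / (r * 2 ^ j)) V)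
    (hdead : X ∩ (dzone d (N * (r * 2 ^ j) * 2⁻¹ ^ md) ×ˢ Set.Ici τ0) = ∅)
    (hcase : (M.Ins ∧ ¬ M.hub) ∨ (P.δ0 = 0 ∧ τ0 = 0))
    (htiny : ∀ l : List (E d), ∑ x ∈ l.toFinset.filter (fun x => x ∈ dzone d (N * (r * 2 ^ j)) ∧
      x ∉ dzone d (N * (r * 2 ^ j) * 2⁻¹ ^ md)), massI X (Set.Ioo 0 P.δ0) x ≤
        ENNReal.ofReal (e1 * (plen l + b0)))
    (hsmall : ∀ l : List (E d),
      ∑ x ∈ l.toFinset.filter (fun x => x ∈ dzone d (N * (r * 2 ^ j) * 2⁻¹ ^ md)),
        massI X (Set.Ioo 0 τ0) x ≤ ENNReal.ofReal (e2 * (plen l + b0)))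
    (hη : 2 * e2 * (r * 2 ^ j) ≤ η)
    (hL : (1 + 2 * (d / (P.np * P.εu))) * L ≤ (1 - β) * N * (r * 2 ^ j))
    (hv : V + P.mst * (1 + L / (P.εu * r)) + e1 * (2 * L + b0) ≤ v) :
    RootT M X L v := by
  have hΛ := dp_lat_ok (d := d) P hP
  set σ : Cfg (P.lat d) := ext (P.lat d) (abx d md N j) f with hσ
  have hη0 : (0 : ℝ) < 2⁻¹ ^ j := by positivity
  have hU : 0 < r * 2 ^ j := by positivity
  have hUη : r * 2 ^ j * 2⁻¹ ^ j = r := by
    rw [inv_pow]
    field_simp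
  have hfar := fun (p : Fin d → ℤ) (hp : p ∈ abx d md N j) (s y : E d) =>
    alive_far (εu := P.εu) hmd hr p hp s y
  have hcell := fun (z : E d) => exists_cell (N := N) hmd hr z
  set U : ℝ := r * 2 ^ j with hUdef
  have hnp : (0 : ℝ) < P.np := by exact_mod_cast hP.np_pos
  have he := hP.eu_pos
  have hd' : (1 : ℝ) ≤ d := by exact_mod_cast hd
  have hN' : (1 : ℝ) ≤ N := by exact_mod_cast hN
  have hNU : 0 < N * U := by positivity
  set W : ℝ := N * U * 2⁻¹ ^ md with hW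
  have hW0 : 0 < W := by positivity
  set K : ℝ := 1 + 2 * (d / (P.np * P.εu)) with hK
  have hK1 : 1 ≤ K := by
    have : 0 ≤ 2 * ((d : ℝ) / (P.np * P.εu)) := by positivity
    linarith
  have hρ : 0 < P.εu * r := mul_pos he hr
  have hmst := hP.ms
  -- the ball is in the box
  have hLb : L < N * U := by
    have h1 : L ≤ K * L := le_mul_of_one_le_left hL0 hK1
    have h2 : β * (N * U) > 0 := mul_pos hβ hNU
    nlinarith
  have hballbox : ∀ z : E d, ‖z‖ ≤ L → z ∈ dzone d (N * U) := by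
    intro z hz i
    have h1 := (abs_le.1 ((coord_le z i).trans hz))
    constructor
    · linarith [h1.1]
    · linarith [h1.2]
  -- the points of the states
  have hσf : ∀ (p : Fin d → ℤ) (a : (P.lat d).A), σ p = some a →
      ∃ h : p ∈ abx d md N j, f ⟨p, h⟩ = some a := by
    intro p a h
    rw [hσ] at h
    unfold ext at h
    split_ifs at h with h2
    exact ⟨h2, h⟩
  have hpt : ∀ (p : Fin d → ℤ) (a : (P.lat d).A), σ p = some a →
      ∃ zt : E d × ℝ, X ∩ Cset P r p a = {zt} := by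
    intro p a h
    obtain ⟨h1, h2⟩ := hσf p a h
    have h3 := hSt ⟨p, h1⟩
    rw [h2] at h3
    exact Set.encard_eq_one.1 h3.1
  choose! zt hzt using hpt
  have hztm : ∀ (p : Fin d → ℤ) (a : (P.lat d).A), σ p = some a →
      zt p a ∈ X ∩ Cset P r p a := by
    intro p a h
    rw [hzt p a h]
    exact Set.mem_singleton _
  have hinner : ∀ (p : Fin d → ℤ) (a : (P.lat d).A), σ p = some a →
      ∀ i, r * (p i + P.εu) ≤ (zt p a).1 i ∧ (zt p a).1 i < r * (p i + (1 - P.εu)) :=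
    fun p a h => mcell_sub P hP r hr p a.1 _ (hztm p a h).2.1
  have hbig : ∀ (z : E d) (t : ℝ), (z, t) ∈ X → P.δ0 ≤ t → z ∈ dzone d (N * U) →
      z ∉ dzone d W → ∃ (p : Fin d → ℤ) (a : (P.lat d).A), σ p = some a ∧ zt p a = (z, t) := by
    intro z t hz ht h1 h2
    obtain ⟨p, hp, hzp⟩ := hcell z h1 h2
    have hT : (z, t) ∈ Tot P r p := ⟨hzp, ht⟩
    have hs := hSt ⟨p, hp⟩
    rcases hf : f ⟨p, hp⟩ with _ | a
    · rw [hf] at hs
      have h3 : X ∩ Tot P r p = ∅ := Set.encard_eq_zero.1 hs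
      exact absurd (show (z, t) ∈ X ∩ Tot P r p from ⟨hz, hT⟩) (by rw [h3]; exact Set.notMem_empty _)
    · rw [hf] at hs
      have h3 : X ∩ (Tot P r p \ Cset P r p a) = ∅ := Set.encard_eq_zero.1 hs.2
      have h4 : (z, t) ∈ Cset P r p a := by
        by_contra h5
        exact absurd (show (z, t) ∈ X ∩ (Tot P r p \ Cset P r p a) from ⟨hz, hT, h5⟩)
          (by rw [h3]; exact Set.notMem_empty _)
      have h5 : σ p = some a := by
        rw [hσ]
        unfold ext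
        rw [dif_pos hp, hf]
      refine ⟨p, a, h5, ?_⟩
      have h6 : (z, t) ∈ X ∩ Cset P r p a := ⟨hz, h4⟩
      rw [hzt p a h5] at h6
      exact (Set.mem_singleton_iff.1 h6).symm
  have hlposU : ∀ (p : Fin d → ℤ) (a : (P.lat d).A) (i : Fin d),
      (U • lpos (P.lat d) (2⁻¹ ^ j) p a) i = r * (p i + (P.lat d).u a i) := by
    intro p a i
    simp only [lpos, toE, PiLp.smul_apply, PiLp.add_apply, smul_eq_mul]
    rw [← mul_assoc, hUη]
  have hlposin : ∀ (p : Fin d → ℤ) (a : (P.lat d).A) (i : Fin d),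
      r * (p i + P.εu) ≤ (U • lpos (P.lat d) (2⁻¹ ^ j) p a) i ∧
      (U • lpos (P.lat d) (2⁻¹ ^ j) p a) i ≤ r * (p i + (1 - P.εu)) := by
    intro p a i
    rw [hlposU]
    have h1 := hΛ.u_ge a i
    have h2 := hΛ.u_le a i
    constructor
    · apply mul_le_mul_of_nonneg_left _ hr.le
      linarith
    · apply mul_le_mul_of_nonneg_left _ hr.le
      linarith
  set P0 : Finset ((Fin d → ℤ) × (P.lat d).A) :=
    (abx d md N j ×ˢ (Finset.univ : Finset (P.lat d).A)).filter (fun q => σ q.1 = some q.2) with hP0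
  have hmem0 : ∀ q ∈ P0, σ q.1 = some q.2 := fun q hq => (Finset.mem_filter.1 hq).2
  have hne0 : ∀ q ∈ P0, ∀ q' ∈ P0, q ≠ q' → q.1 ≠ q'.1 := by
    intro q hq q' hq' hne h2
    apply hne
    have h3 := hmem0 q hq
    rw [h2, hmem0 q' hq', Option.some.injEq] at h3
    exact Prod.ext h2 h3.symm
  obtain ⟨Φ, hΦ1, hΦ2, hΦ3⟩ := lip_map P0 (fun q => (zt q.1 q.2).1)
    (fun q => U • lpos (P.lat d) (2⁻¹ ^ j) q.1 q.2)
    (P.εu * r) (d / (P.np * P.εu)) hρ (by positivity)
    (fun q hq q' hq' hne => sep_inner hr q.1 q'.1 (hne0 q hq q' hq' hne) _ _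
      (hinner q.1 q.2 (hmem0 q hq)) (hinner q'.1 q'.2 (hmem0 q' hq')))
    (by
      intro q hq
      have h1 := (hztm q.1 q.2 (hmem0 q hq)).2.1
      have h2 : (d : ℝ) / (P.np * P.εu) * (P.εu * r) = d * (r / P.np) := by
        field_simp
      rw [h2]
      apply norm_le_coord hd _ _ (by positivity)
      intro i
      have h3 := h1 i
      have h4 : (U • lpos (P.lat d) (2⁻¹ ^ j) q.1 q.2) i =
          r * (q.1 i + (P.εu + (1 - 2 * P.εu) * ((q.2.1 i : ℕ) : ℝ) / P.np)) := hlposU q.1 q.2 i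
      rw [PiLp.sub_apply, h4, abs_le]
      have h5 : r * (q.1 i + (P.εu + (1 - 2 * P.εu) * (((q.2.1 i : ℕ) : ℝ) + 1) / P.np)) =
          r * (q.1 i + (P.εu + (1 - 2 * P.εu) * ((q.2.1 i : ℕ) : ℝ) / P.np)) +
            (1 - 2 * P.εu) * (r / P.np) := by
        ring
      rw [h5] at h3
      have h6 : 0 < r / P.np := by positivity
      constructor
      · nlinarith [h3.2]
      · linarith [h3.1])
  have hΦz : ∀ (p : Fin d → ℤ) (a : (P.lat d).A), σ p = some a →
      Φ (zt p a).1 = U • lpos (P.lat d) (2⁻¹ ^ j) p a := by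
    intro p a h
    exact hΦ1 (p, a) (Finset.mem_filter.2
      ⟨Finset.mem_product.2 ⟨(hσf p a h).1, Finset.mem_univ _⟩, h⟩)
  have hΦd : ∀ y ∈ dzone d W, Φ y = y := by
    intro y hy
    apply hΦ2
    intro q hq
    exact hfar q.1 (hσf _ _ (hmem0 q hq)).1 _ y
      (fun i => ⟨(hinner q.1 q.2 (hmem0 q hq) i).1, (hinner q.1 q.2 (hmem0 q hq) i).2.le⟩) hy
  have h0W : (0 : E d) ∈ dzone d W := by
    intro i
    rw [PiLp.zero_apply]
    constructor <;> linarith
  have hUinv : ∀ x : E d, U⁻¹ • (U • x) = x := fun x => by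
    rw [smul_smul, inv_mul_cancel₀ hU.ne', one_smul]
  have hUinv' : ∀ x : E d, U • (U⁻¹ • x) = x := fun x => by
    rw [smul_smul, mul_inv_cancel₀ hU.ne', one_smul]
  intro b C κ hO
  have hκ0 := hM.nonneg _ _ _ _ _ _ hO
  have hOl := hM.loc _ _ _ _ _ _ hO
  have hCs : ∀ z ∈ C, z ∈ psupp X ∧ z ∈ dzone d (N * U) := by
    intro z hz
    have h1 := hM.supp _ _ _ _ _ _ hOl (Finset.mem_coe.2 hz)
    exact ⟨h1.1, hballbox z (mem_closedBall_zero_iff.1 h1.2)⟩
  set Sb : Set (E d) := {z | z ∉ dzone d W ∧ z ∈ dzone d (N * U) ∧ ∃ t, (z, t) ∈ X ∧ P.δ0 ≤ t}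
    with hSb
  set Sd : Set (E d) := {z | z ∈ dzone d W ∧ z ∈ psupp X} with hSd
  have hCfil : (C.filter (fun z => z ∈ Sb ∪ Sd)) ⊆ C := Finset.filter_subset _ _
  have hO2 : ∃ κ' ≤ κ, M.O (Sb ∪ Sd) 0 b L (C.filter (fun z => z ∈ Sb ∪ Sd)) κ' := by
    rcases hcase with ⟨hI, -⟩ | ⟨hδ, -⟩
    · refine hI (psupp X) (Sb ∪ Sd) 0 b L _ κ (hM.sub _ _ _ _ _ _ _ hO hCfil) ?_
      intro z hz
      exact (Finset.mem_filter.1 (Finset.mem_coe.1 hz)).2
    · obtain ⟨κ', h1, h2⟩ := obj_mono M hM _ (Sb ∪ Sd) _ _ _ _ _ (by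
        rintro z ⟨⟨t, ht⟩, hz⟩
        by_cases h3 : z ∈ dzone d W
        · exact Or.inr ⟨h3, t, ht⟩
        · refine Or.inl ⟨h3, hballbox z (mem_closedBall_zero_iff.1 hz), t, ht, ?_⟩
          rw [hδ]
          exact (hX _ ht).le) hOl
      exact ⟨κ', h1, hM.sub _ _ _ _ _ _ _ h2 hCfil⟩
  obtain ⟨κ', hκ', hO'⟩ := hO2
  have hhub : M.hub → Sd = ∅ := by
    intro hh
    rcases hcase with ⟨-, h1⟩ | ⟨-, hτ⟩
    · exact absurd hh h1
    · rw [Set.eq_empty_iff_forall_notMem]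
      rintro z ⟨hz, t, ht⟩
      have h1 : (z, t) ∈ X ∩ (dzone d W ×ˢ Set.Ici τ0) := ⟨ht, hz, by
        rw [hτ]
        exact (hX _ ht).le⟩
      rw [hdead] at h1
      exact h1
  set Sin : Set (E d) := (fun z => U⁻¹ • z) '' Sd with hSin
  have hΨb : ∀ z ∈ Sb, ∃ (p : Fin d → ℤ) (a : (P.lat d).A) (t : ℝ), σ p = some a ∧
      zt p a = (z, t) ∧ U⁻¹ • Φ z = lpos (P.lat d) (2⁻¹ ^ j) p a := by
    rintro z ⟨h1, h2, t, ht, hδt⟩
    obtain ⟨p, a, h3, h4⟩ := hbig z t ht hδt h2 h1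
    refine ⟨p, a, t, h3, h4, ?_⟩
    have h5 := hΦz p a h3
    rw [h4] at h5
    simp only at h5
    rw [h5, hUinv]
  have hΨd : ∀ z ∈ Sd, U⁻¹ • Φ z = U⁻¹ • z := fun z hz => by rw [hΦd z hz.1]
  obtain ⟨κ'', hκ'', hO''⟩ := hM.lip (Sb ∪ Sd) (atoms (P.lat d) (2⁻¹ ^ j) σ ∪ Sin) 0 b L _ κ'
    (fun x => U⁻¹ • Φ x) (U⁻¹ * K) (by positivity)
    (by
      intro x y
      rw [← smul_sub, norm_smul, Real.norm_eq_abs, abs_of_pos (inv_pos.2 hU), mul_assoc]
      exact mul_le_mul_of_nonneg_left (hΦ3 x y) (inv_pos.2 hU).le)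
    (by
      rintro z (hz | hz)
      · obtain ⟨p, a, t, h3, h4, h5⟩ := hΨb z hz
        rw [h5]
        exact Or.inl ⟨p, a, h3, rfl⟩
      · rw [hΨd z hz]
        exact Or.inr ⟨z, hz, rfl⟩) hO'
  set C' : Finset (E d) := C.filter (fun z => z ∈ Sb ∪ Sd) with hC'
  have hO3 : M.O (atoms (P.lat d) (2⁻¹ ^ j) σ ∪ Sin) 0 (U⁻¹ • Φ b) ((1 - β) * N)
      (C'.image (fun x => U⁻¹ • Φ x)) κ'' := by
    apply hM.cone _ _ _ _ _ _ _ _ _ hO''
    simp only [hΦd 0 h0W, smul_zero, sub_self, norm_zero, add_zero]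
    rw [mul_assoc, inv_mul_le_iff₀ hU]
    linarith
  have hdisj : ∀ y ∈ atoms (P.lat d) (2⁻¹ ^ j) σ, ∀ z ∈ dzone d W, y ≠ U⁻¹ • z := by
    rintro y ⟨p, a, h1, rfl⟩ z hz h2
    have h3 := hfar p (hσf p a h1).1 (U • lpos (P.lat d) (2⁻¹ ^ j) p a) z (hlposin p a) hz
    rw [h2, hUinv', sub_self, norm_zero] at h3
    linarith
  set m : E d → ℝ := fun y => if y ∈ atoms (P.lat d) (2⁻¹ ^ j) σ then
    massL (P.lat d) (2⁻¹ ^ j) σ y else
      if y ∈ Sin then (massI X (Set.Ioo 0 τ0) (U • y)).toReal else 0 with hm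
  have hm1 : ∀ y ∈ atoms (P.lat d) (2⁻¹ ^ j) σ, m y = massL (P.lat d) (2⁻¹ ^ j) σ y := by
    intro y hy
    rw [hm]
    simp only
    rw [if_pos hy]
  have hm2 : ∀ z ∈ Sd, m (U⁻¹ • z) = (massI X (Set.Ioo 0 τ0) z).toReal := by
    intro z hz
    rw [hm]
    simp only
    rw [if_neg (fun h => hdisj _ h z hz.1 rfl), if_pos ⟨z, hz, rfl⟩, hUinv']
  have hm0 : ∀ x, 0 ≤ m x := by
    intro x
    rw [hm]
    simp only
    split_ifs
    · exact massL_nonneg (P.lat d) P.εu _ hΛ _ hη0 σ x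
    · exact ENNReal.toReal_nonneg
    · exact le_refl _
  have hfin : ∀ z ∈ dzone d W, massI X (Set.Ioo 0 τ0) z ≠ ∞ := by
    intro z hz
    have h1 := hsmall [z]
    have h2 : ([z].toFinset.filter (fun x => x ∈ dzone d W)) = {z} := by
      ext x
      simp only [List.toFinset_cons, List.toFinset_nil, insert_empty_eq, Finset.mem_filter,
        Finset.mem_singleton]
      constructor
      · exact fun h => h.1
      · rintro rfl
        exact ⟨rfl, hz⟩
    rw [h2, Finset.sum_singleton] at h1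
    exact ne_top_of_le_ne_top ENNReal.ofReal_ne_top h1
  have hroot' := hroot Sin m (fun hh => by rw [hSin, hhub hh, Set.image_empty])
    (by
      rintro y ⟨z, hz, rfl⟩ i
      have h1 := hz.1 i
      have h2 : W = U * (N * 2⁻¹ ^ md) := by
        rw [hW]
        ring
      rw [h2] at h1
      simp only [PiLp.smul_apply, smul_eq_mul]
      constructor
      · rw [← div_eq_inv_mul, le_div_iff₀ hU]
        linarith [h1.1]
      · rw [← div_eq_inv_mul, div_lt_iff₀ hU]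
        linarith [h1.2])
    hm0 hm1
    (by
      intro a' b' lam C1 k hO1
      have hlam : 0 ≤ lam := (norm_nonneg _).trans (hM.valid _ _ _ _ _ _ hO1)
      obtain ⟨l, hl1, hl2⟩ := hM.poly _ _ _ _ _ _ hO1
      have h1 := hsmall (l.map (fun x => U • x))
      rw [plen_smul U hU.le] at h1
      have hmem : ∀ x ∈ C1.filter (fun x => x ∈ Sin), U • x ∈
          (l.map (fun x => U • x)).toFinset.filter (fun x => x ∈ dzone d W) := by
        intro x hx
        obtain ⟨hx1, z, hz, rfl⟩ := Finset.mem_filter.1 hx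
        rw [Finset.mem_filter, List.mem_toFinset, List.mem_map]
        refine ⟨⟨_, hl2 _ hx1, rfl⟩, ?_⟩
        simp only [hUinv']
        exact hz.1
      have hmx : ∀ x ∈ C1.filter (fun x => x ∈ Sin),
          m x = (massI X (Set.Ioo 0 τ0) (U • x)).toReal := by
        intro x hx
        obtain ⟨hx1, z, hz, rfl⟩ := Finset.mem_filter.1 hx
        simp only [hUinv']
        exact hm2 z hz
      have hinj : Function.Injective (fun x : E d => U • x) := by
        intro x y hxy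
        have := congrArg (fun x => U⁻¹ • x) hxy
        simpa only [hUinv] using this
      have h2 : ∑ x ∈ C1.filter (fun x => x ∈ Sin), massI X (Set.Ioo 0 τ0) (U • x) ≤
          ENNReal.ofReal (e2 * (U * plen l + b0)) := by
        refine le_trans ?_ h1
        rw [← Finset.sum_image (f := fun z => massI X (Set.Ioo 0 τ0) z)
          (g := fun x : E d => U • x) (fun x _ y _ h => hinj h)]
        apply Finset.sum_le_sum_of_subset
        intro y hy
        obtain ⟨x, hx, rfl⟩ := Finset.mem_image.1 hy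
        exact hmem x hx
      have hpl : 0 ≤ U * plen l + b0 ∨ U * plen l + b0 < 0 := le_or_gt _ _
      rw [Finset.sum_congr rfl hmx, ← ENNReal.toReal_sum (fun x hx => hfin _
        (Finset.mem_filter.1 (hmem x hx)).2)]
      have h3 : e2 * (U * plen l + b0) ≤ η * (lam + b0 / U) := by
        have h4 : e2 * (U * plen l + b0) ≤ e2 * (U * (2 * lam) + 2 * b0) := by
          apply mul_le_mul_of_nonneg_left _ he2
          have := mul_le_mul_of_nonneg_left hl1 hU.le
          linarith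
        have h5 : e2 * (U * (2 * lam) + 2 * b0) = 2 * e2 * U * (lam + b0 / U) := by
          field_simp
        have h6 : 0 ≤ lam + b0 / U := by positivity
        rw [h5] at h4
        exact h4.trans (mul_le_mul_of_nonneg_right hη h6)
      have h4 : 0 ≤ η * (lam + b0 / U) := by
        have h5 : 0 ≤ 2 * e2 * U := by positivity
        exact mul_nonneg (h5.trans hη) (by positivity)
      exact ENNReal.toReal_le_of_le_ofReal h4 (h2.trans (ENNReal.ofReal_le_ofReal h3)))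
  have hV1 := hroot' _ _ _ hO3
  -- injectivity
  have hinjC : Set.InjOn (fun x => U⁻¹ • Φ x) (C' : Set (E d)) := by
    intro x hx y hy hxy
    simp only at hxy
    have hx' := (Finset.mem_filter.1 (Finset.mem_coe.1 hx)).2
    have hy' := (Finset.mem_filter.1 (Finset.mem_coe.1 hy)).2
    rcases hx' with hx' | hx' <;> rcases hy' with hy' | hy'
    · obtain ⟨p, a, t, h1, h2, h3⟩ := hΨb x hx'
      obtain ⟨q, a', t', h4, h5, h6⟩ := hΨb y hy'
      rw [h3, h6] at hxy
      have h7 : p = q := by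
        by_contra h8
        have h9 := lpos_sep (P.lat d) P.εu _ hΛ (2⁻¹ ^ j) hη0 p q a a' h8
        rw [hxy, sub_self, norm_zero] at h9
        have h10 : 0 < 2 * P.εu * 2⁻¹ ^ j := by positivity
        linarith
      rw [h7, h4, Option.some.injEq] at h1
      rw [h7, ← h1, h5, Prod.mk.injEq] at h2
      exact h2.1.symm
    · exfalso
      obtain ⟨p, a, t, h1, h2, h3⟩ := hΨb x hx'
      rw [h3, hΨd y hy'] at hxy
      exact hdisj _ ⟨p, a, h1, rfl⟩ y hy'.1 hxy
    · exfalso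
      obtain ⟨p, a, t, h1, h2, h3⟩ := hΨb y hy'
      rw [h3, hΨd x hx'] at hxy
      exact hdisj _ ⟨p, a, h1, rfl⟩ x hx'.1 hxy.symm
    · rw [hΨd x hx', hΨd y hy'] at hxy
      have := congrArg (fun x => U • x) hxy
      simpa only [hUinv'] using this
  rw [Finset.sum_image hinjC] at hV1
  -- the mass of a point
  have hmass : ∀ z ∈ C, mass X z ≤
      (if z ∈ Sb ∪ Sd then ENNReal.ofReal (m (U⁻¹ • Φ z)) else 0) +
      (if z ∈ Sb then ENNReal.ofReal P.mst else 0) +
      (if z ∈ dzone d (N * U) ∧ z ∉ dzone d W then massI X (Set.Ioo 0 P.δ0) z else 0) := by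
    intro z hz
    obtain ⟨h1, h2⟩ := hCs z hz
    by_cases h3 : z ∈ dzone d W
    · have h4 : z ∈ Sd := ⟨h3, h1⟩
      rw [if_pos (show z ∈ Sb ∪ Sd from Or.inr h4), hΨd z h4, hm2 z h4, ENNReal.ofReal_toReal (hfin z h3)]
      refine le_trans (mass_le_massI X (Set.Ioo 0 τ0) z ?_) ?_
      · intro t ht
        refine ⟨hX _ ht, ?_⟩
        by_contra h5
        push Not at h5
        have h6 : (z, t) ∈ X ∩ (dzone d W ×ˢ Set.Ici τ0) := ⟨ht, h3, h5⟩
        rw [hdead] at h6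
        exact h6
      · rw [add_assoc]
        exact le_self_add
    · rw [if_pos (show z ∈ dzone d (N * U) ∧ z ∉ dzone d W from ⟨h2, h3⟩)]
      refine (mass_le_add X hX P.δ0 z).trans ?_
      rw [add_comm (massI X (Set.Ioo 0 P.δ0) z)]
      refine add_le_add ?_ (le_refl _)
      by_cases h4 : z ∈ Sb
      · rw [if_pos (show z ∈ Sb ∪ Sd from Or.inl h4), if_pos h4]
        obtain ⟨p, a, t, h5, h6, h7⟩ := hΨb z h4
        rw [h7, hm1 _ ⟨p, a, h5, rfl⟩, massL_atom (P.lat d) P.εu _ hΛ _ hη0 σ p a h5]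
        have h8 := (hztm p a h5).2.2
        rw [h6] at h8
        refine (massI_le_single X (Set.Ici P.δ0) z t ?_).trans ?_
        · intro t' ht' hδt'
          obtain ⟨q, a', h9, h10⟩ := hbig z t' ht' hδt' h2 h3
          have h11 : p = q := by
            by_contra h12
            have h13 := sep_inner hr p q h12 _ _ (hinner p a h5) (hinner q a' h9)
            rw [h6, h10] at h13
            simp only [sub_self, norm_zero] at h13
            linarith
          rw [← h11, h5, Option.some.injEq] at h9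
          rw [← h11, ← h9, h6, Prod.mk.injEq] at h10
          exact h10.2.symm
        · rw [← ENNReal.ofReal_add (hΛ.mm_nonneg a) hmst.le]
          apply ENNReal.ofReal_le_ofReal
          have h9 : (P.lat d).mm a = P.δ0 + ((a.2 : ℕ) : ℝ) * P.mst := rfl
          have h10 : t < P.δ0 + (((a.2 : ℕ) : ℝ) + 1) * P.mst := h8.2
          rw [h9]
          linarith
      · rw [massI_zero X (Set.Ici P.δ0) z fun t ht hδt => h4 ⟨h3, h2, t, ht, hδt⟩]
        exact zero_le
  have hS1 : ∑ z ∈ C, (if z ∈ Sb ∪ Sd then ENNReal.ofReal (m (U⁻¹ • Φ z)) else 0) ≤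
      ENNReal.ofReal (V + κ) := by
    rw [← Finset.sum_filter, ← ENNReal.ofReal_sum_of_nonneg fun z _ => hm0 _]
    apply ENNReal.ofReal_le_ofReal
    linarith
  have hS2 : ∑ z ∈ C, (if z ∈ Sb then ENNReal.ofReal P.mst else 0) ≤
      ENNReal.ofReal (P.mst * (1 + L / (P.εu * r))) := by
    rw [← Finset.sum_filter, Finset.sum_const, nsmul_eq_mul]
    have h1 : M.O (psupp X) 0 b L (C.filter (fun z => z ∈ Sb)) κ :=
      hM.sub _ _ _ _ _ _ _ hO (Finset.filter_subset _ _)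
    have h2 := hM.count _ _ _ _ _ _ (2 * (P.εu * r)) h1 (by positivity) (by
      intro x hx y hy hxy
      obtain ⟨p, a, t, h3, h4, -⟩ := hΨb x (Finset.mem_filter.1 hx).2
      obtain ⟨q, a', t', h6, h7, -⟩ := hΨb y (Finset.mem_filter.1 hy).2
      have h8 : p ≠ q := by
        intro h9
        rw [h9, h6, Option.some.injEq] at h3
        rw [h9, ← h3, h7, Prod.mk.injEq] at h4
        exact hxy h4.1.symm
      have h9 := sep_inner hr p q h8 _ _ (hinner p a h3) (hinner q a' h6)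
      rw [h4, h7] at h9
      exact h9)
    have h3 : ((C.filter (fun z => z ∈ Sb)).card : ℝ) ≤ 1 + L / (P.εu * r) := by
      have h4 : 1 + L / (P.εu * r) = (2 * (P.εu * r) + 2 * L) / (2 * (P.εu * r)) := by
        field_simp
      rw [h4, le_div_iff₀ (by positivity)]
      linarith
    rw [← ENNReal.ofReal_natCast, ← ENNReal.ofReal_mul (Nat.cast_nonneg _)]
    apply ENNReal.ofReal_le_ofReal
    rw [mul_comm]
    exact mul_le_mul_of_nonneg_left h3 hmst.le
  have hS3 : ∑ z ∈ C, (if z ∈ dzone d (N * U) ∧ z ∉ dzone d W then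
      massI X (Set.Ioo 0 P.δ0) z else 0) ≤ ENNReal.ofReal (e1 * (2 * L + b0)) := by
    rw [← Finset.sum_filter]
    obtain ⟨l, hl1, hl2⟩ := hM.poly _ _ _ _ _ _ hO
    refine le_trans ?_ ((htiny l).trans ?_)
    · apply Finset.sum_le_sum_of_subset
      intro z hz
      obtain ⟨h1, h2⟩ := Finset.mem_filter.1 hz
      exact Finset.mem_filter.2 ⟨List.mem_toFinset.2 (hl2 z h1), h2⟩
    · apply ENNReal.ofReal_le_ofReal
      apply mul_le_mul_of_nonneg_left _ he1
      linarith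
  refine (Finset.sum_le_sum hmass).trans ?_
  rw [Finset.sum_add_distrib, Finset.sum_add_distrib]
  refine (add_le_add (add_le_add hS1 hS2) hS3).trans ?_
  rw [← ENNReal.ofReal_add (by positivity) (by positivity),
    ← ENNReal.ofReal_add (by positivity) (by positivity)]
  apply ENNReal.ofReal_le_ofReal
  linarith

end MP4fb

end
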