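import Pool.Agent.Lib.MP_4fbc34_pr.Phi

/-!
JOB LowT: lower bound for macroscopic segments in a cell on which the density `h` of the type `(v, lam)` is
almost constant.

Write `ρ = 2⁻ⁿ`, `r = ε ρ / (4 (√d + 1))` and let `Q = cube a r` (corner `a`).  For `x ∈ Q`,
`‖x - a‖ <= √d r <= ε ρ / 4`, so by the cone property
`D a (a + L v) (L lam + ε ρ) >= D x (x + L v) (L lam)`; average over `x ∈ Q` (volume `r^d`).  If `L = 0` the claim
is trivial (`D >= 0`).  For `m >= 1`, `split_floor` with `s = L`, `s' = L / m` gives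
`D x (x + L v) (L lam) >= (L/m) ∑_{i<m} phi_{L/m} (x + (i L / m) v)`, whose average over `Q` is
`(L/m) ∑_{i<m} r^(-d) ∫_{Q_i} phi_{L/m}` with `Q_i = cube (a + (i L/m) v) r`, contained in the cell by `hball`.  By
`cube_lim` (second part, and uniqueness of limits)
`∫_{Q_i} phi_{L/m} >= ∫_{Q_i} h - 2 d C0 lam r^(d-1) ‖v‖ L / m`, and
`∫_{Q_i} h >= g r^d - ∫_{cell} |h - g| >= g r^d - τ ρ^d`.  So
`D a (a + L v) (L lam + ε ρ) >= L g - L τ ρ^d r^(-d) - 2 d C0 lam ‖v‖ L² / (m r)`.  The last term is at most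
`ε ρ / 2` for `m` large, and `L τ ρ^d r^(-d) <= K ρ τ (4 (√d + 1) / ε)^d <= ε ρ / 2` if `τ` is small enough
(depending on `ε, K, d` only).
-/

set_option autoImplicit false

open MeasureTheory Filter Topology
open scoped ENNReal

noncomputable section

namespace MP4fb

variable {d : ℕ} {D : E d → E d → ℝ → ℝ} {C0 : ℝ}

/-- `h` is a density for the type `(v, lam)` on the set `Q0`. -/
def IsDens (D : E d → E d → ℝ → ℝ) (v : E d) (lam : ℝ) (Q0 : Set (E d)) (h : E d → ℝ) : Prop :=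
  Measurable h ∧ (∀ x, 0 ≤ h x) ∧ (∃ B, ∀ x, h x ≤ B) ∧
    ∀ (c : E d) (r : ℝ), 0 < r → cube c r ⊆ Q0 →
      Tendsto (fun s => ∫ x in cube c r, phi D v lam s x) (𝓝[>] 0) (𝓝 (∫ x in cube c r, h x))

private lemma LowT_norm (c x : E d) {r : ℝ} (hr : 0 ≤ r) (hx : x ∈ cube c r) :
    ‖x - c‖ ≤ Real.sqrt d * r := by
  rw [EuclideanSpace.norm_eq]
  have h3 : Real.sqrt d * r = Real.sqrt (d * r ^ 2) := by
    rw [Real.sqrt_mul (Nat.cast_nonneg d), Real.sqrt_sq hr]
  rw [h3]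
  refine Real.sqrt_le_sqrt ?_
  calc ∑ i, ‖(x - c) i‖ ^ 2 ≤ ∑ _i : Fin d, r ^ 2 := by
        refine Finset.sum_le_sum fun i _ => ?_
        have h1 : (x - c) i = x i - c i := rfl
        have h2 := hx i
        rw [h1, Real.norm_of_nonneg (by linarith)]
        exact pow_le_pow_left₀ (by linarith) (by linarith) 2
    _ = d * r ^ 2 := by simp

private lemma LowT_fin (hd : 1 ≤ d) (c : E d) {r : ℝ} (hr : 0 ≤ r) :
    IsFiniteMeasure (volume.restrict (cube c r)) := ⟨by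
  rw [Measure.restrict_apply_univ, vol_cube c r hr hd]
  exact ENNReal.ofReal_lt_top⟩

private lemma LowT_integrable (hd : 1 ≤ d) (c : E d) {r : ℝ} (hr : 0 ≤ r) {f : E d → ℝ}
    (hf : Measurable f) {B : ℝ} (hB : ∀ x, |f x| ≤ B) : IntegrableOn f (cube c r) := by
  have := LowT_fin hd c hr
  exact Integrable.of_bound hf.aestronglyMeasurable B (ae_of_all _ fun x => by
    rw [Real.norm_eq_abs]
    exact hB x)

private lemma LowT_lim {X Y M : ℝ} (h : ∀ m : ℕ, X - Y / ((m : ℝ) + 1) ≤ M) : X ≤ M := by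
  have h1 : Tendsto (fun m : ℕ => X - Y * (1 / ((m : ℝ) + 1))) atTop (𝓝 (X - Y * 0)) :=
    tendsto_const_nhds.sub (tendsto_one_div_add_atTop_nhds_zero_nat.const_mul Y)
  rw [mul_zero, sub_zero] at h1
  refine le_of_tendsto' h1 fun m => ?_
  have h2 := h m
  rw [mul_one_div]
  exact h2

/-- one scale -/
private lemma LowT_scale (hd : 1 ≤ d) (hD : Nice D C0) (v : E d) (lam : ℝ) (hv : ‖v‖ < lam)
    (Q0 : Set (E d)) (h : E d → ℝ) (hdens : IsDens D v lam Q0 h) (a : E d) (r L M W : ℝ)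
    (hr : 0 < r) (hL : 0 < L) (m : ℕ)
    (hsub : ∀ u, 0 ≤ u → u ≤ L → cube (a + u • v) r ⊆ Q0)
    (hW : ∀ u, 0 ≤ u → u ≤ L → W ≤ ∫ x in cube (a + u • v) r, h x)
    (hM : ∀ x ∈ cube a r, D x (x + L • v) (L * lam) ≤ M) :
    L * W - (2 * d * (C0 * lam) * r ^ (d - 1) * (‖v‖ * L) * L) / ((m : ℝ) + 1) ≤ M * r ^ d := by
  have hlam : 0 < lam := (norm_nonneg v).trans_lt hv
  have hm : 0 < (m : ℝ) + 1 := by positivity
  obtain ⟨s', hs'⟩ : ∃ s', s' = L / ((m : ℝ) + 1) := ⟨_, rfl⟩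
  have hs'0 : 0 < s' := by
    rw [hs']
    exact div_pos hL hm
  have hs'L : s' * ((m : ℝ) + 1) = L := by
    rw [hs']
    exact div_mul_cancel₀ L hm.ne'
  have hfl : ⌊L / s'⌋₊ = m + 1 := by
    have h1 : L / s' = ((m + 1 : ℕ) : ℝ) := by
      rw [div_eq_iff hs'0.ne', mul_comm]
      push_cast
      exact hs'L.symm
    rw [h1, Nat.floor_natCast]
  have hs'le : s' ≤ L := by
    rw [hs']
    exact div_le_self hL.le (by
      have : (0 : ℝ) ≤ m := Nat.cast_nonneg m
      linarith)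
  have hui : ∀ i ∈ Finset.range (m + 1), 0 ≤ (i : ℝ) * s' ∧ (i : ℝ) * s' ≤ L := by
    intro i hi
    have h1 : (i : ℝ) ≤ (m : ℝ) + 1 := by
      have := Finset.mem_range.1 hi
      exact_mod_cast this.le
    refine ⟨mul_nonneg (Nat.cast_nonneg i) hs'0.le, ?_⟩
    calc (i : ℝ) * s' ≤ ((m : ℝ) + 1) * s' := mul_le_mul_of_nonneg_right h1 hs'0.le
      _ = L := by rw [mul_comm, hs'L]
  have hphi_abs : ∀ x, |phi D v lam s' x| ≤ C0 * lam := by
    intro x
    rw [abs_of_nonneg (phi_nonneg hD v lam s' hs'0 x)]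
    exact phi_le hD v lam s' hs'0 hlam.le x
  -- pointwise
  have hpt : ∀ x ∈ cube a r,
      ∑ i ∈ Finset.range (m + 1), s' * phi D v lam s' (x + ((i : ℝ) * s') • v) ≤ M := by
    intro x hx
    have h1 := split_floor hD v lam hv x L s' hs'0 hs'le
    rw [hfl] at h1
    refine le_trans (le_of_eq ?_) (h1.trans (hM x hx))
    refine Finset.sum_congr rfl fun i _ => ?_
    unfold phi
    exact mul_div_cancel₀ _ hs'0.ne'
  -- integrate
  have hint : ∀ i ∈ Finset.range (m + 1),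
      IntegrableOn (fun x => s' * phi D v lam s' (x + ((i : ℝ) * s') • v)) (cube a r) := by
    intro i _
    refine LowT_integrable hd a hr.le (B := s' * (C0 * lam)) ?_ ?_
    · exact ((phi_meas hD v lam s').comp (measurable_id.add_const _)).const_mul s'
    · intro x
      rw [abs_mul, abs_of_pos hs'0]
      exact mul_le_mul_of_nonneg_left (hphi_abs _) hs'0.le
  have hmain : ∫ x in cube a r,
      ∑ i ∈ Finset.range (m + 1), s' * phi D v lam s' (x + ((i : ℝ) * s') • v) ≤ M * r ^ d := by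
    have h2 : ∫ _ in cube a r, M = M * r ^ d := by
      rw [setIntegral_const, Measure.real, vol_cube a r hr.le hd,
        ENNReal.toReal_ofReal (pow_nonneg hr.le d), smul_eq_mul, mul_comm]
    rw [← h2]
    have hfinm := LowT_fin hd a hr.le
    refine setIntegral_mono_on (integrable_finsetSum _ hint) (integrable_const M)
      (meas_cube a r) hpt
  rw [integral_finsetSum _ hint] at hmain
  have hterm : ∀ i ∈ Finset.range (m + 1),
      s' * (W - 2 * d * (C0 * lam) * r ^ (d - 1) * (‖v‖ * s')) ≤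
      ∫ x in cube a r, s' * phi D v lam s' (x + ((i : ℝ) * s') • v) := by
    intro i hi
    rw [integral_const_mul]
    refine mul_le_mul_of_nonneg_left ?_ hs'0.le
    rw [cube_translate a (((i : ℝ) * s') • v) r (phi D v lam s')]
    obtain ⟨l, hl, hl2⟩ := cube_lim hd hD v lam hv (a + ((i : ℝ) * s') • v) r hr
    have h4 := hdens.2.2.2 (a + ((i : ℝ) * s') • v) r hr (hsub _ (hui i hi).1 (hui i hi).2)
    have h5 := tendsto_nhds_unique hl h4
    have h6 := hl2 s' hs'0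
    have h7 := hW _ (hui i hi).1 (hui i hi).2
    rw [h5] at h6
    linarith
  have hsum := Finset.sum_le_sum hterm
  rw [Finset.sum_const, Finset.card_range, nsmul_eq_mul] at hsum
  have hfin := hsum.trans hmain
  refine le_trans (le_of_eq ?_) hfin
  push_cast
  have e1 : (2 * d * (C0 * lam) * r ^ (d - 1) * (‖v‖ * L) * L) / ((m : ℝ) + 1) =
      2 * d * (C0 * lam) * r ^ (d - 1) * (‖v‖ * s') * L := by
    rw [hs']
    ring
  rw [e1]
  calc L * W - 2 * d * (C0 * lam) * r ^ (d - 1) * (‖v‖ * s') * L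
      = L * (W - 2 * d * (C0 * lam) * r ^ (d - 1) * (‖v‖ * s')) := by ring
    _ = (s' * ((m : ℝ) + 1)) * (W - 2 * d * (C0 * lam) * r ^ (d - 1) * (‖v‖ * s')) := by
        rw [hs'L]
    _ = ((m : ℝ) + 1) * (s' * (W - 2 * d * (C0 * lam) * r ^ (d - 1) * (‖v‖ * s'))) := by ring

theorem lowerT (hd : 1 ≤ d) (hD : Nice D C0) (v : E d) (lam : ℝ) (hv : ‖v‖ < lam) (ε K : ℝ)
    (hε : 0 < ε) (hK : 0 < K) :
    ∃ τ : ℝ, 0 < τ ∧ ∀ (h : E d → ℝ) (n : ℕ) (z : Fin d → ℤ) (g : ℝ),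
      IsDens D v lam (cell n z) h → 0 ≤ g →
      ∫ x in cell n z, |h x - g| ≤ τ * (2⁻¹ ^ n) ^ d →
      ∀ (a : E d) (L : ℝ), 0 ≤ L → L ≤ K * 2⁻¹ ^ n →
        (∀ x, (∃ u, 0 ≤ u ∧ u ≤ L ∧ ‖x - (a + u • v)‖ ≤ ε * 2⁻¹ ^ n) → x ∈ cell n z) →
        L * g - ε * 2⁻¹ ^ n ≤ D a (a + L • v) (L * lam + ε * 2⁻¹ ^ n) := by
  have hsq : 0 ≤ Real.sqrt d := Real.sqrt_nonneg _
  obtain ⟨δ, hδdef⟩ : ∃ δ, δ = ε / (4 * (Real.sqrt d + 1)) := ⟨_, rfl⟩
  have hδ : 0 < δ := by
    rw [hδdef]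
    positivity
  have hδε : Real.sqrt d * δ ≤ ε / 4 := by
    have h1 : Real.sqrt d * δ = ε / 4 * (Real.sqrt d / (Real.sqrt d + 1)) := by
      rw [hδdef]
      field_simp
    rw [h1]
    refine mul_le_of_le_one_right (by positivity) ?_
    rw [div_le_one (by linarith)]
    linarith
  refine ⟨ε * δ ^ d / (2 * K), by positivity, ?_⟩
  intro h n z g hdens hg hint a L hL0 hLK hball
  obtain ⟨ρ, hρ⟩ : ∃ ρ : ℝ, ρ = 2⁻¹ ^ n := ⟨_, rfl⟩
  have hρ0 : 0 < ρ := by
    rw [hρ]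
    positivity
  rw [← hρ] at hint hLK hball ⊢
  rcases hL0.eq_or_lt with hL | hL
  · rw [← hL, zero_mul]
    have h1 := hD.nonneg a (a + (0 : ℝ) • v) (0 * lam + ε * ρ)
    have h2 : 0 < ε * ρ := mul_pos hε hρ0
    linarith
  obtain ⟨r, hr⟩ : ∃ r, r = δ * ρ := ⟨_, rfl⟩
  have hr0 : 0 < r := by
    rw [hr]
    positivity
  have hrρ : Real.sqrt d * r ≤ ε / 4 * ρ := by
    rw [hr, ← mul_assoc]
    exact mul_le_mul_of_nonneg_right hδε hρ0.le
  obtain ⟨hmeas, hh0, ⟨B, hhB⟩, hlim⟩ := hdens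
  obtain ⟨c, hc⟩ := cell_eq_cube n z
  rw [← hρ] at hc
  have hsub : ∀ u, 0 ≤ u → u ≤ L → cube (a + u • v) r ⊆ cell n z := by
    intro u hu0 huL x hx
    refine hball x ⟨u, hu0, huL, ?_⟩
    have h1 := LowT_norm (a + u • v) x hr0.le hx
    have h2 : 0 < ε * ρ := mul_pos hε hρ0
    linarith
  have habs : ∀ x, |h x - g| ≤ B + g := by
    intro x
    rw [abs_le]
    constructor
    · have := hh0 x
      have := hhB x
      linarith
    · have := hhB x
      linarith
  have hhabs : ∀ x, |h x| ≤ B := fun x => by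
    rw [abs_of_nonneg (hh0 x)]
    exact hhB x
  have hW : ∀ u, 0 ≤ u → u ≤ L →
      g * r ^ d - ε * δ ^ d / (2 * K) * ρ ^ d ≤ ∫ x in cube (a + u • v) r, h x := by
    intro u hu0 huL
    have hfinm := LowT_fin hd (a + u • v) hr0.le
    have h1 : ∫ _ in cube (a + u • v) r, g = g * r ^ d := by
      rw [setIntegral_const, Measure.real, vol_cube _ r hr0.le hd,
        ENNReal.toReal_ofReal (pow_nonneg hr0.le d), smul_eq_mul, mul_comm]
    have hi1 : IntegrableOn h (cube (a + u • v) r) := LowT_integrable hd _ hr0.le hmeas hhabs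
    have hi2 : IntegrableOn (fun x => |h x - g|) (cube (a + u • v) r) :=
      LowT_integrable hd _ hr0.le (hmeas.sub_const g).abs (B := B + g) (fun x => by
        rw [abs_abs]
        exact habs x)
    have hi3 : IntegrableOn (fun x => |h x - g|) (cell n z) := by
      rw [hc]
      exact LowT_integrable hd _ hρ0.le (hmeas.sub_const g).abs (B := B + g) (fun x => by
        rw [abs_abs]
        exact habs x)
    have h2 : ∫ x in cube (a + u • v) r, |h x - g| ≤ ∫ x in cell n z, |h x - g| :=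
      setIntegral_mono_set hi3 (ae_of_all _ fun x => abs_nonneg _)
        (HasSubset.Subset.eventuallyLE (hsub u hu0 huL))
    have h3 : ∫ x in cube (a + u • v) r, (g - |h x - g|) ≤ ∫ x in cube (a + u • v) r, h x := by
      refine integral_mono ((integrable_const g).sub hi2) hi1 fun x => ?_
      have h4 := neg_abs_le (h x - g)
      show g - |h x - g| ≤ h x
      linarith
    rw [integral_sub (integrable_const g) hi2, h1] at h3
    linarith
  have hM : ∀ x ∈ cube a r, D x (x + L • v) (L * lam) ≤ D a (a + L • v) (L * lam + ε * ρ) := by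
    intro x hx
    refine hD.cone _ _ _ _ _ _ ?_
    have h1 := LowT_norm a x hr0.le hx
    have h2 : x + L • v - (a + L • v) = x - a := by abel
    rw [h2]
    have h3 : 0 < ε * ρ := mul_pos hε hρ0
    linarith
  have hkey := LowT_lim (fun m => LowT_scale hd hD v lam hv (cell n z) h
    ⟨hmeas, hh0, ⟨B, hhB⟩, hlim⟩ a r L _ _ hr0 hL m hsub hW hM)
  -- divide by `r ^ d`
  have hrd : 0 < r ^ d := pow_pos hr0 d
  have h5 : L * (g * r ^ d - ε * δ ^ d / (2 * K) * ρ ^ d) =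
      (L * g - L * (ε / (2 * K))) * r ^ d := by
    rw [hr, mul_pow]
    ring
  rw [h5] at hkey
  have h6 := le_of_mul_le_mul_right hkey hrd
  have h7 : L * (ε / (2 * K)) ≤ ε * ρ / 2 := by
    calc L * (ε / (2 * K)) ≤ K * ρ * (ε / (2 * K)) :=
          mul_le_mul_of_nonneg_right hLK (by positivity)
      _ = ε * ρ / 2 := by
          field_simp
  have h8 : 0 < ε * ρ := mul_pos hε hρ0
  linarith

end MP4fb

end
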