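import Pool.Agent.Lib.MP_4fbc34_pr.RobA

/-!
JOB LvA: integer data of one environment.

`T` is a finite set of triples `(a, b, lam)` with `‖a - b‖ <= lam`.  Put `δ = ε ℓ`,
`Bmax = B (Lmax + 1) ℓ` with `Lmax >= lam` for all triples of `T`, `nmax` a natural number larger than
`B (Lmax + 1) / ε + 1`.  Let `q` be a natural number with `q >= 1 + B (Lmax + 1) / ε`, and `N_i = max N0 1 * q ^ i`.
Define `f i τ = Nat.findGreatest (fun n => Rob M S m (N_i) τ (n * ε * ℓ)) nmax`.  Since `N_i` increases, `f i τ`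
decreases in `i` (`rob_mono`), and the value at `n = 0` is always fine (`rob_zero`), the value at `n = nmax`
never (the mass of an object of budget `lam` is at most `B (ℓ lam + 1) <= B (Lmax + 1) ℓ < nmax ε ℓ`, use
`ℓ >= 1`, `N_i >= 1`, `m.nonneg`).  The sum over `T` of `f i τ` is a decreasing sequence of natural numbers bounded by
`card T * nmax`, so there is `i <= card T * nmax` with `f i τ = f (i+1) τ` for all `τ ∈ T`.
Put `dat = f (i + 1)`.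
* lower: `rob_mono` (`N0 <= N_{i+1}`).
* upper: `Rob` fails for `N_{i+1}` at `dat + 1 <= nmax`; apply `rob_del` to each `τ ∈ T` and take the union of
  the sets `U`; objects in `S \ U` are objects in the larger set `S \ U_τ` (`obj_mono`).
  `card U <= card T * N_{i+1} * B (Lmax + 1) ℓ`, and `N_{i+1}` is bounded by a constant.
* sup: `rob_cat` with `N = N_i`, `N' = N_{i+1}`, `B := Bmax`, `ε := δ`: robust value `(dat τ1 + dat τ2 - 1) δ` at
  level `N_i` for `τ3`, so `f i τ3 >= dat τ1 + dat τ2 - 1`, and `f i τ3 = dat τ3`.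
* mono: `rob_mono`.
* symm: `rob_symm` (the two predicates in `findGreatest` are equivalent).
* bound: by the mass bound, `dat τ * ε * ℓ <= B (ℓ lam + 1)`.
The constant `CU` may depend on `T, B, ε, N0` but not on the environment.
-/

set_option autoImplicit false

open scoped ENNReal Classical

noncomputable section

namespace MP4fb

variable {d : ℕ} (M : Model d) (hM : M.Ok)

/-- The properties of the integer data `dat` of an environment. -/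
structure DatOk (M : Model d) (T : Finset (E d × E d × ℝ)) (B ε : ℝ) (N0 : ℕ) (CU : ℝ) (S : Set (E d))
    (m : E d → ℝ) (ℓ : ℝ) (dat : E d × E d × ℝ → ℕ) : Prop where
  lower : ∀ τ ∈ T, Rob M S m N0 τ.1 τ.2.1 τ.2.2 (dat τ * ε * ℓ)
  upper : ∃ U : Finset (E d), ↑U ⊆ S ∧ (U.card : ℝ) ≤ CU * ℓ ∧ ∀ τ ∈ T,
    ∀ (C : Finset (E d)) (κ : ℝ), M.O (S \ ↑U) τ.1 τ.2.1 τ.2.2 C κ →
      ∑ x ∈ C, m x - κ < (dat τ + 1) * ε * ℓ
  sup : ∀ τ1 ∈ T, ∀ τ2 ∈ T, ∀ τ3 ∈ T, τ1.2.1 = τ2.1 → τ3.1 = τ1.1 → τ3.2.1 = τ2.2.1 →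
    τ3.2.2 = τ1.2.2 + τ2.2.2 → dat τ1 + dat τ2 ≤ dat τ3 + 1
  mono : ∀ τ1 ∈ T, ∀ τ2 ∈ T, τ1.2.2 + ‖τ1.1 - τ2.1‖ + ‖τ1.2.1 - τ2.2.1‖ ≤ τ2.2.2 → dat τ1 ≤ dat τ2
  symm : ∀ τ1 ∈ T, ∀ τ2 ∈ T, τ2.1 = τ1.2.1 → τ2.2.1 = τ1.1 → τ2.2.2 = τ1.2.2 → dat τ1 = dat τ2
  bound : ∀ τ ∈ T, (dat τ : ℝ) * ε * ℓ ≤ B * (ℓ * τ.2.2 + 1)

private theorem lva_const (g : ℕ → ℕ) (hg : ∀ i, g (i + 1) ≤ g i) (W : ℕ) (hW : g 0 ≤ W) :
    ∃ i ≤ W, g i = g (i + 1) := by
  by_contra hcon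
  push Not at hcon
  have h : ∀ i, i ≤ W + 1 → g i + i ≤ W := by
    intro i
    induction i with
    | zero =>
      intro _
      simpa using hW
    | succ i ih =>
      intro hi
      have h1 := ih (by omega)
      have h2 := hcon i (by omega)
      have h3 := hg i
      omega
  have := h (W + 1) le_rfl
  omega

include hM

theorem level_data (T : Finset (E d × E d × ℝ)) (hT : ∀ τ ∈ T, ‖τ.1 - τ.2.1‖ ≤ τ.2.2) (B ε : ℝ)
    (hB : 0 < B) (hε : 0 < ε) (N0 : ℕ) :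
    ∃ (CU : ℝ) (nmax : ℕ), ∀ (S : Set (E d)) (m : E d → ℝ) (ℓ : ℝ), 1 ≤ ℓ → (∀ x, 0 ≤ m x) →
      (∀ (a b : E d) (lam : ℝ) (C : Finset (E d)) (κ : ℝ), M.O S a b lam C κ →
        ∑ x ∈ C, m x ≤ B * (ℓ * lam + 1) ∧ (C.card : ℝ) ≤ B * (ℓ * lam + 1)) →
      ∃ dat : E d × E d × ℝ → ℕ, (∀ τ, dat τ ≤ nmax) ∧ (∀ τ ∉ T, dat τ = 0) ∧
        DatOk M T B ε N0 CU S m ℓ dat := by
  set Lmax : ℝ := ∑ τ ∈ T, |τ.2.2| with hLmax
  have hL0 : 0 ≤ Lmax := Finset.sum_nonneg fun _ _ => abs_nonneg _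
  have hL : ∀ τ ∈ T, τ.2.2 ≤ Lmax := by
    intro τ hτ
    refine (le_abs_self _).trans ?_
    exact Finset.single_le_sum (f := fun τ : E d × E d × ℝ => |τ.2.2|)
      (fun _ _ => abs_nonneg _) hτ
  set K0 : ℝ := B * (Lmax + 1) with hK0
  have hK0p : 0 < K0 := by positivity
  obtain ⟨nmax, hnmax⟩ := exists_nat_gt (K0 / ε)
  obtain ⟨q, hq⟩ := exists_nat_ge (1 + K0 / ε)
  have hq1 : 1 ≤ q := by
    have h1 : (1 : ℝ) ≤ q := by
      have : 0 ≤ K0 / ε := by positivity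
      linarith
    exact_mod_cast h1
  set NN : ℕ → ℕ := fun i => max N0 1 * q ^ i with hNN
  have hNN1 : ∀ i, 1 ≤ NN i := by
    intro i
    exact Nat.mul_pos (lt_of_lt_of_le Nat.zero_lt_one (le_max_right _ _)) (Nat.pow_pos hq1)
  have hNN0 : ∀ i, N0 ≤ NN i := by
    intro i
    calc N0 ≤ max N0 1 := le_max_left _ _
      _ = max N0 1 * 1 := (mul_one _).symm
      _ ≤ max N0 1 * q ^ i := Nat.mul_le_mul_left _ (Nat.one_le_pow _ _ hq1)
  have hNNm : ∀ i j, i ≤ j → NN i ≤ NN j := by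
    intro i j hij
    exact Nat.mul_le_mul_left _ (Nat.pow_le_pow_right hq1 hij)
  set W : ℕ := T.card * nmax with hW
  refine ⟨T.card * (NN (W + 1) * K0), nmax, ?_⟩
  intro S m ℓ hℓ hm hBd
  have hℓ0 : 0 < ℓ := by linarith
  have hmass : ∀ τ ∈ T, ∀ (C : Finset (E d)) (κ : ℝ), M.O S τ.1 τ.2.1 τ.2.2 C κ →
      ∑ x ∈ C, m x ≤ K0 * ℓ ∧ (C.card : ℝ) ≤ K0 * ℓ := by
    intro τ hτ C κ hC
    have h1 := hBd _ _ _ C κ hC
    have h2 : B * (ℓ * τ.2.2 + 1) ≤ K0 * ℓ := by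
      have h3 : ℓ * τ.2.2 ≤ ℓ * Lmax := mul_le_mul_of_nonneg_left (hL τ hτ) hℓ0.le
      calc B * (ℓ * τ.2.2 + 1) ≤ B * (ℓ * Lmax + ℓ) :=
            mul_le_mul_of_nonneg_left (by linarith) hB.le
        _ = K0 * ℓ := by rw [hK0]; ring
    exact ⟨h1.1.trans h2, h1.2.trans h2⟩
  -- values of robust families are bounded
  have hval : ∀ τ ∈ T, ∀ (N : ℕ), 1 ≤ N → ∀ v : ℝ, Rob M S m N τ.1 τ.2.1 τ.2.2 v →
      v ≤ B * (ℓ * τ.2.2 + 1) ∧ v ≤ K0 * ℓ := by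
    intro τ hτ N hN v hv
    obtain ⟨F, _, hF⟩ := hv
    obtain ⟨κ, h1, h2⟩ := hF ⟨0, hN⟩
    have h3 := (hmass τ hτ _ κ h1).1
    have h4 := (hBd _ _ _ _ κ h1).1
    have h5 := hM.nonneg _ _ _ _ _ _ h1
    constructor <;> linarith
  have hlt : ∀ τ ∈ T, ∀ (N : ℕ), 1 ≤ N → ∀ n : ℕ, Rob M S m N τ.1 τ.2.1 τ.2.2 (n * ε * ℓ) →
      n < nmax := by
    intro τ hτ N hN n hn
    have h1 := (hval τ hτ N hN _ hn).2
    have h2 : (n : ℝ) * ε ≤ K0 := le_of_mul_le_mul_right h1 hℓ0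
    have h3 : (n : ℝ) ≤ K0 / ε := by rwa [le_div_iff₀ hε]
    have h4 : (n : ℝ) < nmax := h3.trans_lt hnmax
    exact_mod_cast h4
  set P : ℕ → E d × E d × ℝ → ℕ → Prop := fun i τ n =>
    Rob M S m (NN i) τ.1 τ.2.1 τ.2.2 ((n : ℝ) * ε * ℓ) with hP
  set f : ℕ → E d × E d × ℝ → ℕ := fun i τ => Nat.findGreatest (P i τ) nmax with hf
  have hP0 : ∀ i, ∀ τ ∈ T, P i τ 0 := by
    intro i τ hτ
    apply rob_zero M hM S m _ _ _ _ _ _ (hT τ hτ)
    simp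
  have hspec : ∀ i, ∀ τ ∈ T, P i τ (f i τ) := by
    intro i τ hτ
    exact Nat.findGreatest_spec (P := P i τ) (Nat.zero_le nmax) (hP0 i τ hτ)
  have hle : ∀ i, ∀ τ ∈ T, ∀ n, P i τ n → n ≤ f i τ := by
    intro i τ hτ n hn
    exact Nat.le_findGreatest (hlt τ hτ _ (hNN1 i) n hn).le hn
  have hflt : ∀ i, ∀ τ ∈ T, f i τ < nmax := fun i τ hτ =>
    hlt τ hτ _ (hNN1 i) _ (hspec i τ hτ)
  have hmonoN : ∀ i j, i ≤ j → ∀ τ n, P j τ n → P i τ n := by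
    intro i j hij τ n h
    exact rob_mono M hM S m (NN i) (NN j) _ _ _ _ _ _ _ _ (hNNm i j hij) (by simp) le_rfl h
  have hdec : ∀ i, ∀ τ ∈ T, f (i + 1) τ ≤ f i τ := by
    intro i τ hτ
    exact hle i τ hτ _ (hmonoN i (i + 1) (Nat.le_succ i) τ _ (hspec (i + 1) τ hτ))
  obtain ⟨i, hiW, hi⟩ := lva_const (fun i => ∑ τ ∈ T, f i τ)
    (fun i => Finset.sum_le_sum (hdec i)) W (by
      calc ∑ τ ∈ T, f 0 τ ≤ ∑ τ ∈ T, nmax := Finset.sum_le_sum fun τ hτ => (hflt 0 τ hτ).le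
        _ = W := by rw [Finset.sum_const, smul_eq_mul])
  have hieq : ∀ τ ∈ T, f (i + 1) τ = f i τ := by
    exact (Finset.sum_eq_sum_iff_of_le (hdec i)).1 hi.symm
  set dat : E d × E d × ℝ → ℕ := fun τ => if τ ∈ T then f (i + 1) τ else 0 with hdat
  have hdT : ∀ τ ∈ T, dat τ = f (i + 1) τ := fun τ hτ => by
    rw [hdat]
    exact if_pos hτ
  have hdR : ∀ τ ∈ T, Rob M S m (NN (i + 1)) τ.1 τ.2.1 τ.2.2 ((dat τ : ℝ) * ε * ℓ) := by
    intro τ hτ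
    rw [hdT τ hτ]
    exact hspec (i + 1) τ hτ
  have hdN : ∀ τ ∈ T, ∀ n : ℕ, Rob M S m (NN (i + 1)) τ.1 τ.2.1 τ.2.2 ((n : ℝ) * ε * ℓ) →
      n ≤ dat τ := by
    intro τ hτ n hn
    rw [hdT τ hτ]
    exact hle (i + 1) τ hτ n hn
  refine ⟨dat, ?_, ?_, ?_⟩
  · intro τ
    by_cases hτ : τ ∈ T
    · rw [hdT τ hτ]
      exact (hflt (i + 1) τ hτ).le
    · rw [hdat]
      simp only
      rw [if_neg hτ]
      exact Nat.zero_le _
  · intro τ hτ
    rw [hdat]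
    exact if_neg hτ
  · refine ⟨?_, ?_, ?_, ?_, ?_, ?_⟩
    · intro τ hτ
      exact rob_mono M hM S m N0 (NN (i + 1)) _ _ _ _ _ _ _ _ (hNN0 _) (by simp) le_rfl (hdR τ hτ)
    · have hU : ∀ τ ∈ T, ∃ U : Finset (E d), ↑U ⊆ S ∧ (U.card : ℝ) ≤ (NN (i + 1) : ℝ) * (K0 * ℓ) ∧
          ∀ (C : Finset (E d)) (κ : ℝ), M.O (S \ ↑U) τ.1 τ.2.1 τ.2.2 C κ →
            ∑ x ∈ C, m x - κ < ((dat τ + 1 : ℕ) : ℝ) * ε * ℓ := by
        intro τ hτ
        apply rob_del M hM S m (NN (i + 1)) _ _ _ _ (K0 * ℓ) (by positivity)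
          (fun C κ hC => (hmass τ hτ C κ hC).2)
        intro hcon
        have := hdN τ hτ (dat τ + 1) hcon
        omega
      choose! U hU1 hU2 hU3 using hU
      refine ⟨T.biUnion U, ?_, ?_, ?_⟩
      · intro x hx
        obtain ⟨τ, hτ, h1⟩ := Finset.mem_biUnion.1 (Finset.mem_coe.1 hx)
        exact hU1 τ hτ (Finset.mem_coe.2 h1)
      · have h1 : ((T.biUnion U).card : ℝ) ≤ ∑ τ ∈ T, ((U τ).card : ℝ) := by
          exact_mod_cast Finset.card_biUnion_le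
        have h2 : ∑ τ ∈ T, ((U τ).card : ℝ) ≤ ∑ τ ∈ T, (NN (W + 1) : ℝ) * (K0 * ℓ) := by
          apply Finset.sum_le_sum
          intro τ hτ
          refine (hU2 τ hτ).trans ?_
          apply mul_le_mul_of_nonneg_right _ (by positivity)
          exact_mod_cast hNNm (i + 1) (W + 1) (by omega)
        rw [Finset.sum_const, nsmul_eq_mul] at h2
        calc ((T.biUnion U).card : ℝ) ≤ _ := h1
          _ ≤ _ := h2
          _ = _ := by ring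
      · intro τ hτ C κ hC
        obtain ⟨κ', h1, h2⟩ := obj_mono M hM (S \ ↑(T.biUnion U)) (S \ ↑(U τ)) _ _ _ C κ (by
          intro x hx
          refine ⟨hx.1, fun h => hx.2 ?_⟩
          exact Finset.mem_coe.2 (Finset.mem_biUnion.2 ⟨τ, hτ, Finset.mem_coe.1 h⟩)) hC
        have h3 := hU3 τ hτ C κ' h2
        push_cast at h3
        linarith
    · intro τ1 h1 τ2 h2 τ3 h3 h12 h31 h32 hlam
      by_cases h0 : dat τ1 + dat τ2 = 0
      · omega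
      have hBK : 0 ≤ K0 * ℓ := by positivity
      have hcat := rob_cat M hM S m hm (NN i) (NN (i + 1)) τ1.1 τ1.2.1 τ2.2.1 τ1.2.2 τ2.2.2
        ((dat τ1 : ℝ) * ε * ℓ) ((dat τ2 : ℝ) * ε * ℓ) (K0 * ℓ) (ε * ℓ) hBK
        (fun C κ hC => (hmass τ1 h1 C κ hC).1) (by positivity) (by
          have h4 : (NN (i + 1) : ℝ) = NN i * q := by
            rw [hNN]
            push_cast
            ring
          rw [h4]
          have h5 : (NN i : ℝ) * (K0 * ℓ) / (ε * ℓ) = NN i * (K0 / ε) := by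
            field_simp
          rw [h5]
          calc (NN i : ℝ) + NN i * (K0 / ε) = NN i * (1 + K0 / ε) := by ring
            _ ≤ NN i * q := mul_le_mul_of_nonneg_left hq (Nat.cast_nonneg _))
        (hdR τ1 h1) (by rw [h12]; exact hdR τ2 h2)
      rw [← h31, ← h32, ← hlam] at hcat
      obtain ⟨n, hn⟩ : ∃ n, dat τ1 + dat τ2 = n + 1 := ⟨dat τ1 + dat τ2 - 1, by omega⟩
      have h6 : (dat τ1 : ℝ) * ε * ℓ + (dat τ2 : ℝ) * ε * ℓ - ε * ℓ = (n : ℝ) * ε * ℓ := by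
        have h7 : (dat τ1 : ℝ) + dat τ2 = n + 1 := by exact_mod_cast hn
        have h8 : (dat τ1 : ℝ) * ε * ℓ + (dat τ2 : ℝ) * ε * ℓ - ε * ℓ =
            ((dat τ1 : ℝ) + dat τ2 - 1) * ε * ℓ := by ring
        rw [h8, h7]
        ring
      rw [h6] at hcat
      have h9 : n ≤ f i τ3 := hle i τ3 h3 n hcat
      rw [← hieq τ3 h3, ← hdT τ3 h3] at h9
      omega
    · intro τ1 h1 τ2 h2 hl
      apply hdN τ2 h2
      exact rob_mono M hM S m (NN (i + 1)) (NN (i + 1)) _ _ _ _ _ _ _ _ le_rfl hl le_rfl (hdR τ1 h1)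
    · intro τ1 h1 τ2 h2 ha hb hl
      apply le_antisymm
      · apply hdN τ2 h2
        have := rob_symm M hM S m _ _ _ _ _ (hdR τ1 h1)
        rw [← ha, ← hb, ← hl] at this
        exact this
      · apply hdN τ1 h1
        have := rob_symm M hM S m _ _ _ _ _ (hdR τ2 h2)
        rw [ha, hb, hl] at this
        exact this
    · intro τ hτ
      exact (hval τ hτ _ (hNN1 (i + 1)) _ (hdR τ hτ)).1

end MP4fb

end
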