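import Pool.Agent.Lib.MP_4fbc34_pr.RobA

/-!
Sequences of finite probability spaces with environments.
-/

set_option autoImplicit false

open scoped ENNReal Classical

noncomputable section

namespace MP4fb

variable {d : ℕ}

/-- A sequence of finite weighted spaces with environments, scales and events. -/
structure Sq (d : ℕ) where
  Ω : ℕ → Type
  fin : ∀ k, Fintype (Ω k)
  w : ∀ k, Ω k → ℝ
  S : ∀ k, Ω k → Set (E d)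
  m : ∀ k, Ω k → E d → ℝ
  ell : ℕ → ℝ
  Ev : ∀ k, Set (Ω k)

instance (X : Sq d) (k : ℕ) : Fintype (X.Ω k) := X.fin k

/-- weight of a set -/
def Sq.pr (X : Sq d) (k : ℕ) (A : Set (X.Ω k)) : ℝ := ∑ ω, if ω ∈ A then X.w k ω else 0

/-- assumptions on the sequence -/
structure Sq.Ok (X : Sq d) (M : Model d) (B : ℝ) : Prop where
  B_pos : 0 < B
  w_nonneg : ∀ k ω, 0 ≤ X.w k ω
  ell_one : ∀ k, 1 ≤ X.ell k
  ell_tend : Filter.Tendsto X.ell Filter.atTop Filter.atTop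
  m_nonneg : ∀ k ω x, 0 ≤ X.m k ω x
  mass : ∀ k ω (a b : E d) (lam : ℝ) (C : Finset (E d)) (κ : ℝ), M.O (X.S k ω) a b lam C κ →
    ∑ x ∈ C, X.m k ω x ≤ B * (X.ell k * lam + 1) ∧ (C.card : ℝ) ≤ B * (X.ell k * lam + 1)

/-- the final property of the limit functional -/
def Sq.Lim (X : Sq d) (M : Model d) (D : E d → E d → ℝ → ℝ) : Prop :=
  ∀ (Tup : Finset (E d × E d × ℝ × ℝ)) (Tlow : Finset (E d × E d × ℝ)) (Z : Finset (Set (E d)))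
    (ε : ℝ) (Nr : ℕ), 0 < ε → (∀ t ∈ Tup, ‖t.1 - t.2.1‖ ≤ t.2.2.1 ∧ t.2.2.1 < t.2.2.2) →
    (∀ t ∈ Tlow, ‖t.1 - t.2.1‖ < t.2.2) →
    ∃ c CU : ℝ, 0 < c ∧ ∃ᶠ k in Filter.atTop, ∃ A ⊆ X.Ev k, c * X.pr k (X.Ev k) ≤ X.pr k A ∧
      (∀ ω ∈ A, ∃ U : Finset (E d), ↑U ⊆ X.S k ω ∧ (U.card : ℝ) ≤ CU * X.ell k ∧
        ∀ t ∈ Tup, ∀ (C : Finset (E d)) (κ : ℝ), M.O (X.S k ω \ ↑U) t.1 t.2.1 t.2.2.1 C κ →
          ∑ x ∈ C, X.m k ω x - κ ≤ X.ell k * (D t.1 t.2.1 t.2.2.2 + ε)) ∧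
      (∀ ω ∈ A, ∀ t ∈ Tlow, Rob M (X.S k ω) (X.m k ω) Nr t.1 t.2.1 t.2.2
        (X.ell k * (D t.1 t.2.1 t.2.2 - ε))) ∧
      (∀ ω ∈ A, ∀ ω' ∈ A, ∀ z ∈ Z, (X.S k ω ∩ z).Nonempty ↔ (X.S k ω' ∩ z).Nonempty)

end MP4fb

end
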