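import Pool.Agent.Lib.MP_4fbc34_pr.LvA
import Pool.Agent.Lib.MP_4fbc34_pr.SeqDef

/-!
JOB LvB: pigeonhole over the data.

Fix `T`, `ε`, `N0` and let `CU`, `nmax` be the constants of `level_data`.  For every `k` and `ω` choose data
`dat k ω`.  The functions `T → {0, ..., nmax}` (extended by `0`) form a finite set with `Q` elements
(`Q = (nmax+1)^(card T)`).  For every `k` there is a value `δ_k` with
`pr k {ω ∈ Ev k | dat k ω = δ_k} >= (1/Q) pr k (Ev k)`.  Infinitely many `k` have the same `δ_k`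
(`Filter.Frequently` pigeonhole over a finite type: if for every `δ` eventually `δ_k ≠ δ` we get a
contradiction), this is `dat`, and `c = 1/Q`, `A = {ω ∈ Ev k | dat k ω = δ}`.
-/

set_option autoImplicit false

open scoped ENNReal Classical

noncomputable section

namespace MP4fb

private theorem LvB_split {d : ℕ} (X : Sq d) (k : ℕ) (Ev : Set (X.Ω k)) {Δ : Type} [Fintype Δ]
    (key : X.Ω k → Δ) : X.pr k Ev = ∑ δ : Δ, X.pr k {ω | ω ∈ Ev ∧ key ω = δ} := by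
  unfold Sq.pr
  rw [Finset.sum_comm]
  refine Finset.sum_congr rfl fun ω _ => ?_
  rw [Finset.sum_eq_single (key ω)]
  · by_cases h : ω ∈ Ev
    · rw [if_pos h, if_pos (show ω ∈ {ω' | ω' ∈ Ev ∧ key ω' = key ω} from ⟨h, rfl⟩)]
    · rw [if_neg h, if_neg (fun h' : ω ∈ {ω' | ω' ∈ Ev ∧ key ω' = key ω} => h h'.1)]
  · intro δ _ hδ
    exact if_neg (fun h' : ω ∈ {ω' | ω' ∈ Ev ∧ key ω' = δ} => hδ h'.2.symm)
  · intro h
    exact absurd (Finset.mem_univ _) h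

private theorem LvB_pigeon {d : ℕ} (X : Sq d) (k : ℕ) (Ev : Set (X.Ω k)) {Δ : Type} [Fintype Δ]
    [Nonempty Δ] (key : X.Ω k → Δ) :
    ∃ δ : Δ, (1 / (Fintype.card Δ : ℝ)) * X.pr k Ev ≤ X.pr k {ω | ω ∈ Ev ∧ key ω = δ} := by
  by_contra hcon
  push Not at hcon
  have h1 : ∑ δ : Δ, X.pr k {ω | ω ∈ Ev ∧ key ω = δ} <
      ∑ _δ : Δ, (1 / (Fintype.card Δ : ℝ)) * X.pr k Ev :=
    Finset.sum_lt_sum_of_nonempty Finset.univ_nonempty fun δ _ => hcon δ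
  rw [← LvB_split X k Ev key, Finset.sum_const, Finset.card_univ, nsmul_eq_mul] at h1
  have h2 : (Fintype.card Δ : ℝ) ≠ 0 := Nat.cast_ne_zero.2 Fintype.card_ne_zero
  rw [← mul_assoc, mul_one_div_cancel h2, one_mul] at h1
  exact lt_irrefl _ h1

variable {d : ℕ} (M : Model d) (hM : M.Ok)

include hM

theorem seq_data (X : Sq d) (B : ℝ) (hX : X.Ok M B) (T : Finset (E d × E d × ℝ))
    (hT : ∀ τ ∈ T, ‖τ.1 - τ.2.1‖ ≤ τ.2.2) (ε : ℝ) (hε : 0 < ε) (N0 : ℕ) :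
    ∃ (c CU : ℝ) (dat : E d × E d × ℝ → ℕ), 0 < c ∧ (∀ τ ∉ T, dat τ = 0) ∧
      ∃ᶠ k in Filter.atTop, ∃ A ⊆ X.Ev k, c * X.pr k (X.Ev k) ≤ X.pr k A ∧
        ∀ ω ∈ A, DatOk M T B ε N0 CU (X.S k ω) (X.m k ω) (X.ell k) dat := by
  obtain ⟨CU, nmax, hdat⟩ := level_data M hM T hT B ε hX.B_pos hε N0
  choose dat hd1 hd2 hd3 using fun (k : ℕ) (ω : X.Ω k) =>
    hdat (X.S k ω) (X.m k ω) (X.ell k) (hX.ell_one k) (hX.m_nonneg k ω) (hX.mass k ω)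
  let Δ : Type := {τ : E d × E d × ℝ // τ ∈ T} → Fin (nmax + 1)
  let key : ∀ k, X.Ω k → Δ := fun k ω τ => ⟨dat k ω τ.1, Nat.lt_succ_of_le (hd1 k ω τ.1)⟩
  choose δ hδ using fun k => LvB_pigeon X k (X.Ev k) (key k)
  have hfreq : ∃ δ₀ : Δ, ∃ᶠ k in Filter.atTop, δ k = δ₀ := by
    by_contra hcon
    push Not at hcon
    have h1 : ∀ δ₀ : Δ, ∀ᶠ k in Filter.atTop, δ k ≠ δ₀ := fun δ₀ => hcon δ₀
    have h2 : ∀ᶠ k in Filter.atTop, ∀ δ₀ : Δ, δ k ≠ δ₀ := Filter.eventually_all.2 h1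
    obtain ⟨k, hk⟩ := h2.exists
    exact hk (δ k) rfl
  obtain ⟨δ₀, hδ₀⟩ := hfreq
  let dat' : E d × E d × ℝ → ℕ := fun τ => if h : τ ∈ T then (δ₀ ⟨τ, h⟩ : ℕ) else 0
  refine ⟨1 / (Fintype.card Δ : ℝ), CU, dat', ?_, fun τ hτ => dif_neg hτ, ?_⟩
  · exact one_div_pos.2 (Nat.cast_pos.2 Fintype.card_pos)
  · refine hδ₀.mono fun k hk => ⟨{ω | ω ∈ X.Ev k ∧ key k ω = δ₀}, fun ω hω => hω.1, ?_, ?_⟩
    · have h1 := hδ k
      rwa [hk] at h1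
    · intro ω hω
      have h1 : dat k ω = dat' := by
        funext τ
        by_cases h : τ ∈ T
        · have h2 := congrFun hω.2 ⟨τ, h⟩
          have h3 : dat' τ = (δ₀ ⟨τ, h⟩ : ℕ) := dif_pos h
          rw [h3, ← h2]
        · have h3 : dat' τ = 0 := dif_neg h
          rw [h3, hd2 k ω τ h]
      rw [← h1]
      exact hd3 k ω

end MP4fb

end
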