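import Pool.Agent.Lib.MP_4fbc34_pr.Blocks

/-!
JOB MacroB: the value of a macro piece.  `p` has scale `R = κ 2⁻ⁿ N / 16`, micro scale `s = sc κ n'`.

If all collected atoms are in `Sin` we are in the first case of the conclusion.  Otherwise some micro piece `q0`
collects an atom `y0 ∉ Sin`, so the micro pieces are not all empty and
`p.lam + s * length <= 2 R` (the other alternative of `Macro.Ok` says that all are empty).
All collected atoms of `p` are within `2 p.lam <= 4 R` of `p.a` (`hball`, `‖q.u - p.a‖ <= p.lam`,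
`q.lam <= p.lam` as all budgets are nonnegative), so within `8 R = κ 2⁻ⁿ N / 2` of `y0`; by `far` none of them is in
`Sin`.  Hence every micro piece with `C ≠ ∅` (necessarily short, the second alternative of `Micro.Ok` excluded)
collects an atom outside `Sin`, and `hmic` gives a type `t_q ∈ net` and an atom `y_q`.  After scaling by `N⁻¹` the
`y_q` are within `κ 2⁻ⁿ / 2` of each other; by `deep` (and `pos`, `cell_unique` for the level `n`) they have the same
parent cell `z0`, and the ball of radius `κ 2⁻ⁿ` about `N⁻¹ p.a` is in `cell n z0`.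
Let `Lt t = (s / N) * #{q | C_q ≠ ∅, t_q = t}`.  Then
`∑ Lt t (t.2 + c1) <= N⁻¹ ∑ (lam_q + 2 c1 s) <= N⁻¹ (p.lam + 2 c1 s length) <= 4 R / N = κ 2⁻ⁿ / 4`, and
`N⁻¹ p.a + ∑ Lt t t.1 - N⁻¹ p.c = N⁻¹ (∑_{C ≠ ∅} (s t_q.1 - v_q) - ∑_{C = ∅} v_q)` has norm at most
`N⁻¹ (rm s length + ∑_{C = ∅} lam_q)` (for `C = ∅` in the short case `‖v‖ <= lam` by validity, hypothesis `hval`).
So `HLow` applies with `Lam` as in the statement (`rm <= c1`), and
`∑_q (∑_{q.C} mass - κ_q) <= ℓ ∑_{C ≠ ∅} (s (g z0 t_q + δ) + ε) = ℓ N ∑ Lt t g z0 t + ℓ (δ s + ε) #...` (costs are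
nonnegative).  Finally `‖y0‖ >= rad N` and `‖y0 - p.a‖ <= 4 R`.
-/

set_option autoImplicit false

noncomputable section

namespace MP4fb

variable {d : ℕ}

private theorem mb_par_zbox (n n' : ℕ) (hnn : n ≤ n') (z : Fin d → ℤ) (hz : z ∈ zbox d n') :
    par n n' z ∈ zbox d n := by
  unfold zbox at *
  rw [Fintype.mem_piFinset] at *
  intro i
  have h := hz i
  rw [Finset.mem_Ico] at *
  have hp : (0 : ℤ) < 2 ^ (n' - n) := by positivity
  have hpow : (2 : ℤ) ^ n' = 2 ^ n * 2 ^ (n' - n) := by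
    rw [← pow_add]; congr 1; omega
  unfold par
  constructor
  · rw [Int.le_ediv_iff_mul_le hp]
    have := h.1
    rw [hpow] at this
    linarith [neg_mul ((2 : ℤ) ^ n) (2 ^ (n' - n))]
  · rw [Int.ediv_lt_iff_lt_mul hp]
    rw [← hpow]; exact h.2

private theorem mb_net_sum {V T : Type*} [AddCommGroup V] [Module ℝ V] (net : Finset T)
    (l : List (Micro d)) (P : Micro d → Prop) [DecidablePred P] [DecidableEq T] (Tq : Micro d → T)
    (hT : ∀ q ∈ l, P q → Tq q ∈ net) (f : T → V) :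
    ∑ t ∈ net, (l.map (fun q => if P q ∧ Tq q = t then (1 : ℝ) else 0)).sum • f t =
      (l.map (fun q => if P q then f (Tq q) else 0)).sum := by
  induction l with
  | nil => simp
  | cons q l ih =>
    simp only [List.map_cons, List.sum_cons, add_smul, Finset.sum_add_distrib]
    rw [ih (fun q hq => hT q (List.mem_cons_of_mem _ hq))]
    congr 1
    by_cases hP : P q
    · rw [Finset.sum_eq_single (Tq q)]
      · simp [hP]
      · intro t _ ht
        rw [if_neg (fun h => ht h.2.symm), zero_smul]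
      · intro h; exact absurd (hT q List.mem_cons_self hP) h
    · simp [hP]

private theorem mb_sum_le (l : List (Micro d)) (f g : Micro d → ℝ) (h : ∀ q ∈ l, f q ≤ g q) :
    (l.map f).sum ≤ (l.map g).sum := List.sum_le_sum h

private theorem mb_norm_sum (l : List (Micro d)) (f : Micro d → E d) :
    ‖(l.map f).sum‖ ≤ (l.map (fun q => ‖f q‖)).sum := by
  induction l with
  | nil => simp
  | cons q l ih =>
    simp only [List.map_cons, List.sum_cons]
    exact (norm_add_le _ _).trans (by linarith)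

private theorem mb_sum_const (l : List (Micro d)) (f : Micro d → ℝ) (c : ℝ) :
    (l.map (fun q => f q + c)).sum = (l.map f).sum + c * l.length := by
  induction l with
  | nil => simp
  | cons q l ih =>
    simp only [List.map_cons, List.sum_cons, List.length_cons]
    rw [ih]; push_cast; ring

private theorem mb_sum_mul (l : List (Micro d)) (f : Micro d → ℝ) (c : ℝ) :
    (l.map (fun q => c * f q)).sum = c * (l.map f).sum := by
  induction l with
  | nil => simp
  | cons q l ih =>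
    simp only [List.map_cons, List.sum_cons]
    rw [ih]; ring

private theorem mb_sum_add {V : Type*} [AddCommGroup V] (l : List (Micro d)) (f g : Micro d → V) :
    (l.map (fun q => f q + g q)).sum = (l.map f).sum + (l.map g).sum := by
  induction l with
  | nil => simp
  | cons q l ih =>
    simp only [List.map_cons, List.sum_cons]
    rw [ih]; abel

private theorem mb_sum_smul (l : List (Micro d)) (f : Micro d → E d) (c : ℝ) :
    (l.map (fun q => c • f q)).sum = c • (l.map f).sum := by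
  induction l with
  | nil => simp
  | cons q l ih =>
    simp only [List.map_cons, List.sum_cons, smul_add]
    rw [ih]

private theorem mb_le_lam (l : List (Micro d)) (h : ∀ q ∈ l, 0 ≤ q.lam) (q : Micro d) (hq : q ∈ l) :
    q.lam ≤ (l.map Micro.lam).sum := by
  apply List.single_le_sum
  · intro x hx
    rw [List.mem_map] at hx
    obtain ⟨y, hy, rfl⟩ := hx
    exact h y hy
  · exact List.mem_map_of_mem hq

theorem macro_bound (M : Model d) {I : Type} (S Sin : Set (E d)) (m : E d → ℝ)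
    (S' : I → Set (E d)) (m' : I → E d → ℝ) (N κ rad rm c1 δ ε ℓ : ℝ) (n n' : ℕ)
    (Bad BadT : Finset (Fin d → ℤ)) (tz : E d → Fin d → ℤ) (ti : E d → I)
    (τ : (Fin d → ℤ) → I → E d)
    (hB : BlocksOk S Sin m S' m' N κ rad n n' Bad BadT tz ti τ) (hN : 1 ≤ N) (hκ : 0 < κ)
    (hκ1 : κ ≤ 1 / 4) (hδ : 0 < δ) (hε : 0 < ε) (hℓ : 0 < ℓ) (hc1 : c1 ≤ 1) (hnn : n < n')
    (net : Finset (E d × ℝ)) (hnet : NetOk net rm c1)
    (g : (Fin d → ℤ) → E d × ℝ → ℝ) (hg : ∀ z t, 0 ≤ g z t)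
    (D : E d → E d → ℝ → ℝ) (hD0 : ∀ a b lam, 0 ≤ D a b lam)
    (hlow : HLow D net κ δ c1 n g Bad)
    (hval : ∀ (a b : E d) (lam : ℝ) (C : Finset (E d)) (k : ℝ), M.O S a b lam C k → ‖a - b‖ ≤ lam)
    (hball : ∀ (a b : E d) (lam : ℝ) (C : Finset (E d)) (k : ℝ), M.O S a b lam C k →
      ∀ x ∈ C, x ∈ S ∧ ‖x - a‖ ≤ lam)
    (hnonneg : ∀ (a b : E d) (lam : ℝ) (C : Finset (E d)) (k : ℝ), M.O S a b lam C k → 0 ≤ k)
    (hmic : ∀ (u v : E d) (lam : ℝ) (C : Finset (E d)) (k : ℝ), M.O S u (u + v) lam C k →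
      lam ≤ 2 * sc κ n' → (∃ y ∈ C, y ∉ Sin) →
      ∃ t ∈ net, ‖v - sc κ n' • t.1‖ ≤ rm * sc κ n' ∧ sc κ n' * t.2 ≤ lam + c1 * sc κ n' ∧
      ∃ y ∈ C, y ∈ S \ Sin ∧ ‖y - u‖ ≤ lam ∧
        ∑ x ∈ C, m x - k ≤ ℓ * (sc κ n' * (g (par n n' (tz y)) t + δ) + ε))
    (p : Macro d) (hp : p.Ok M S (sc κ n') (κ * 2⁻¹ ^ n * N / 16)) :
    (∀ q ∈ p.l, ∀ x ∈ q.C, x ∈ Sin) ∨
    ((p.l.map (fun q => ∑ x ∈ q.C, m x - q.κ)).sum ≤
      ℓ * N * (D (N⁻¹ • p.a) (N⁻¹ • p.c)
        (N⁻¹ * (p.lam + 3 * c1 * sc κ n' * p.l.length) + 2 * δ * κ * 2⁻¹ ^ n) +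
        2 * δ * κ * 2⁻¹ ^ n) + ℓ * p.l.length * (δ * sc κ n' + ε) ∧
      p.lam + sc κ n' * p.l.length ≤ 2 * (κ * 2⁻¹ ^ n * N / 16) ∧
      rad * N ≤ ‖p.a‖ + 4 * (κ * 2⁻¹ ^ n * N / 16)) := by
  classical
  by_cases hall : ∀ q ∈ p.l, ∀ x ∈ q.C, x ∈ Sin
  · exact Or.inl hall
  right
  push Not at hall
  obtain ⟨q0, hq0, y0, hy0, hy0S⟩ := hall
  obtain ⟨hok, hvsum, hlam0, hlen, hupa⟩ := hp
  set s := sc κ n' with hs
  have hs0 : 0 < s := by rw [hs]; unfold sc; positivity
  set K : ℝ := κ * 2⁻¹ ^ n with hK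
  have hK0 : 0 < K := by positivity
  have hN0 : 0 < N := by linarith
  set R : ℝ := K * N / 16 with hR
  have hR0 : 0 < R := by positivity
  have hc10 : 0 < c1 := lt_of_lt_of_le hnet.rm_pos hnet.rm_le
  have hlen' : p.lam + s * p.l.length ≤ 2 * R := by
    rcases hlen with h | h
    · exact h
    · exfalso
      have := (h q0 hq0).1
      rw [this] at hy0
      simp at hy0
  have hplam : 0 ≤ p.lam := by
    unfold Macro.lam
    apply List.sum_nonneg
    intro x hx
    rw [List.mem_map] at hx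
    obtain ⟨y, hy, rfl⟩ := hx
    exact hlam0 y hy
  have hlenn : (0 : ℝ) ≤ p.l.length := by positivity
  have hslen : 0 ≤ s * p.l.length := by positivity
  have hqlam : ∀ q ∈ p.l, q.lam ≤ p.lam := fun q hq => mb_le_lam p.l hlam0 q hq
  -- collected atoms
  have hshort : ∀ q ∈ p.l, q.C.Nonempty → M.O S q.u (q.u + q.v) q.lam q.C q.κ ∧ q.lam ≤ 2 * s := by
    intro q hq hne
    rcases hok q hq with h | h
    · exact h
    · exfalso; rw [h.1] at hne; simp at hne
  have hatom : ∀ q ∈ p.l, ∀ y ∈ q.C, y ∈ S ∧ ‖y - p.a‖ ≤ 4 * R := by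
    intro q hq y hy
    obtain ⟨hO, _⟩ := hshort q hq ⟨y, hy⟩
    obtain ⟨h1, h2⟩ := hball _ _ _ _ _ hO y hy
    refine ⟨h1, ?_⟩
    have h3 := hupa q hq
    have h4 := hqlam q hq
    have h5 : ‖y - p.a‖ ≤ ‖y - q.u‖ + ‖q.u - p.a‖ := by
      have : y - p.a = (y - q.u) + (q.u - p.a) := by abel
      rw [this]; exact norm_add_le _ _
    linarith
  have hy0' := hatom q0 hq0 y0 hy0
  have hy0d : y0 ∈ S \ Sin := ⟨hy0'.1, hy0S⟩
  have hnear : ∀ q ∈ p.l, ∀ y ∈ q.C, ‖y0 - y‖ ≤ 8 * R := by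
    intro q hq y hy
    have h1 := (hatom q hq y hy).2
    have h2 := hy0'.2
    have h5 : ‖y0 - y‖ ≤ ‖y0 - p.a‖ + ‖y - p.a‖ := by
      have : y0 - y = (y0 - p.a) - (y - p.a) := by abel
      rw [this]; exact norm_sub_le _ _
    linarith
  have hout : ∀ q ∈ p.l, ∀ y ∈ q.C, y ∉ Sin := by
    intro q hq y hy hyS
    have h1 := hB.far y0 hy0d y (hatom q hq y hy).1 hyS
    have h2 := hnear q hq y hy
    have h3 : 8 * R < 2 * κ * 2⁻¹ ^ n * N := by
      rw [hR, hK]
      have : 0 < κ * 2⁻¹ ^ n * N := by positivity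
      nlinarith
    linarith
  -- the types
  have hex : ∀ q ∈ p.l, q.C.Nonempty → ∃ t ∈ net, ‖q.v - s • t.1‖ ≤ rm * s ∧
      s * t.2 ≤ q.lam + c1 * s ∧ ∃ y ∈ q.C, y ∈ S \ Sin ∧ ‖y - q.u‖ ≤ q.lam ∧
        ∑ x ∈ q.C, m x - q.κ ≤ ℓ * (s * (g (par n n' (tz y)) t + δ) + ε) := by
    intro q hq hne
    obtain ⟨hO, hl⟩ := hshort q hq hne
    obtain ⟨y, hy⟩ := hne
    exact hmic q.u q.v q.lam q.C q.κ hO hl ⟨y, hy, hout q hq y hy⟩
  set z0 := par n n' (tz y0) with hz0
  have hpar : ∀ y ∈ S \ Sin, ‖y0 - y‖ ≤ 8 * R → par n n' (tz y) = z0 := by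
    intro y hy hd
    have h1 : N⁻¹ • y ∈ cell n (par n n' (tz y)) := by
      apply hB.deep y hy
      simp only [sub_self, norm_zero]
      positivity
    have h2 : N⁻¹ • y ∈ cell n z0 := by
      apply hB.deep y0 hy0d
      rw [← smul_sub, norm_smul, Real.norm_of_nonneg (by positivity), norm_sub_rev]
      calc N⁻¹ * ‖y0 - y‖ ≤ N⁻¹ * (8 * R) := by gcongr
        _ = K / 2 := by rw [hR]; field_simp; ring
        _ ≤ 2 * κ * 2⁻¹ ^ n := by rw [hK] at hK0 ⊢; linarith
    exact cell_unique n _ _ _ h1 h2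
  have hballa : ∀ x, ‖x - N⁻¹ • p.a‖ ≤ κ * 2⁻¹ ^ n → x ∈ cell n z0 := by
    intro x hx
    apply hB.deep y0 hy0d
    have h1 : ‖N⁻¹ • p.a - N⁻¹ • y0‖ ≤ K / 4 := by
      rw [← smul_sub, norm_smul, Real.norm_of_nonneg (by positivity), norm_sub_rev]
      calc N⁻¹ * ‖y0 - p.a‖ ≤ N⁻¹ * (4 * R) := by gcongr; exact hy0'.2
        _ = K / 4 := by rw [hR]; field_simp; ring
    have h2 : ‖x - N⁻¹ • y0‖ ≤ ‖x - N⁻¹ • p.a‖ + ‖N⁻¹ • p.a - N⁻¹ • y0‖ := by
      have : x - N⁻¹ • y0 = (x - N⁻¹ • p.a) + (N⁻¹ • p.a - N⁻¹ • y0) := by abel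
      rw [this]; exact norm_add_le _ _
    rw [← hK] at hx
    have : 2 * κ * 2⁻¹ ^ n = 2 * K := by rw [hK]; ring
    linarith
  have hz0box : z0 ∈ zbox d n := mb_par_zbox n n' hnn.le _ (hB.box y0 hy0d)
  have hz0bad : z0 ∉ Bad := hB.pgood y0 hy0d
  -- choice of types
  choose! Tq hTnet hTv hTl hTy using hex
  have hval' : ∀ q ∈ p.l, q.C.Nonempty →
      ∑ x ∈ q.C, m x - q.κ ≤ ℓ * (s * (g z0 (Tq q) + δ) + ε) := by
    intro q hq hne
    obtain ⟨y, hyC, hyS, _, hv⟩ := hTy q hq hne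
    rw [hpar y hyS (hnear q hq y hyC)] at hv
    exact hv
  set cnt : E d × ℝ → ℝ := fun t =>
    (p.l.map (fun q => if q.C.Nonempty ∧ Tq q = t then (1 : ℝ) else 0)).sum with hcnt
  have hcnt0 : ∀ t, 0 ≤ cnt t := by
    intro t
    apply List.sum_nonneg
    intro x hx
    rw [List.mem_map] at hx
    obtain ⟨y, _, rfl⟩ := hx
    split_ifs <;> norm_num
  have hnet' : ∀ q ∈ p.l, q.C.Nonempty → Tq q ∈ net := fun q hq h => hTnet q hq h
  set Lt : E d × ℝ → ℝ := fun t => s / N * cnt t with hLt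
  have hLt0 : ∀ t, 0 ≤ Lt t := fun t => mul_nonneg (by positivity) (hcnt0 t)
  have hreal : ∀ f : E d × ℝ → ℝ, ∑ t ∈ net, Lt t * f t =
      s / N * (p.l.map (fun q => if q.C.Nonempty then f (Tq q) else 0)).sum := by
    intro f
    have h := mb_net_sum net p.l (fun q => q.C.Nonempty) Tq hnet' f
    rw [← h, Finset.mul_sum]
    apply Finset.sum_congr rfl
    intro t _
    simp only [hLt, hcnt, smul_eq_mul]
    ring
  have hvec : ∑ t ∈ net, Lt t • t.1 =
      (s / N) • (p.l.map (fun q => if q.C.Nonempty then (Tq q).1 else 0)).sum := by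
    have h := mb_net_sum net p.l (fun q => q.C.Nonempty) Tq hnet' (fun t => t.1)
    rw [← h, Finset.smul_sum]
    apply Finset.sum_congr rfl
    intro t _
    simp only [hLt, hcnt, smul_smul]
  -- first bound
  set A1 : ℝ := ∑ t ∈ net, Lt t * (t.2 + c1) with hA1
  have hA1' : A1 = N⁻¹ * (p.l.map (fun q => if q.C.Nonempty then s * (Tq q).2 + s * c1 else 0)).sum := by
    rw [hA1, hreal (fun t => t.2 + c1)]
    rw [div_eq_inv_mul, mul_assoc, ← mb_sum_mul]
    congr 2
    apply congrArg (fun f => p.l.map f)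
    funext q
    split_ifs
    · ring
    · ring
  have hb1 : A1 ≤ κ / 2 * 2⁻¹ ^ n := by
    rw [hA1']
    have h1 : (p.l.map (fun q => if q.C.Nonempty then s * (Tq q).2 + s * c1 else 0)).sum ≤
        (p.l.map (fun q => q.lam + 2 * c1 * s)).sum := by
      apply mb_sum_le
      intro q hq
      split_ifs with h
      · have := hTl q hq h
        linarith
      · have := hlam0 q hq
        positivity
    rw [mb_sum_const] at h1
    have h2 : (p.l.map fun q => q.lam).sum = p.lam := rfl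
    rw [h2] at h1
    have h3 : 2 * c1 * s * p.l.length ≤ 2 * (s * p.l.length) := by nlinarith
    have h4 : (p.l.map (fun q => if q.C.Nonempty then s * (Tq q).2 + s * c1 else 0)).sum ≤
        4 * R := by linarith
    calc N⁻¹ * (p.l.map (fun q => if q.C.Nonempty then s * (Tq q).2 + s * c1 else 0)).sum
        ≤ N⁻¹ * (4 * R) := by gcongr
      _ = K / 4 := by rw [hR]; field_simp; ring
      _ ≤ κ / 2 * 2⁻¹ ^ n := by rw [hK] at hK0 ⊢; linarith
  -- second bound
  have hdisp : N⁻¹ • p.a + ∑ t ∈ net, Lt t • t.1 - N⁻¹ • p.c =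
      N⁻¹ • (p.l.map (fun q => (if q.C.Nonempty then s • (Tq q).1 else 0) + (-1 : ℝ) • q.v)).sum := by
    rw [mb_sum_add, mb_sum_smul p.l (fun q => q.v) (-1)]
    have h1 : (p.l.map fun q => q.v).sum = p.c - p.a := hvsum
    rw [h1, hvec]
    have h2 : (p.l.map (fun q => if q.C.Nonempty then s • (Tq q).1 else 0)).sum =
        s • (p.l.map (fun q => if q.C.Nonempty then (Tq q).1 else 0)).sum := by
      rw [← mb_sum_smul]
      congr 1
      apply congrArg (fun f => p.l.map f)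
      funext q
      split_ifs
      · rfl
      · rw [smul_zero]
    rw [h2, smul_add, smul_smul, smul_smul, smul_sub, div_eq_inv_mul]
    rw [mul_neg_one, neg_smul, neg_smul]
    abel
  have hvn : ∀ q ∈ p.l, ‖q.v‖ ≤ q.lam := by
    intro q hq
    rcases hok q hq with h | h
    · have := hval _ _ _ _ _ h.1
      rw [sub_add_cancel_left, norm_neg] at this
      exact this
    · exact h.2.2
  have hb2 : A1 + ‖N⁻¹ • p.a + ∑ t ∈ net, Lt t • t.1 - N⁻¹ • p.c‖ ≤
      N⁻¹ * (p.lam + 3 * c1 * s * p.l.length) := by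
    rw [hdisp, hA1', norm_smul, Real.norm_of_nonneg (by positivity : (0 : ℝ) ≤ N⁻¹), ← mul_add]
    apply mul_le_mul_of_nonneg_left _ (by positivity)
    calc _ ≤ (p.l.map (fun q => if q.C.Nonempty then s * (Tq q).2 + s * c1 else 0)).sum +
        (p.l.map (fun q => ‖(if q.C.Nonempty then s • (Tq q).1 else 0) + (-1 : ℝ) • q.v‖)).sum := by
          gcongr
          exact mb_norm_sum _ _
      _ = (p.l.map (fun q => (if q.C.Nonempty then s * (Tq q).2 + s * c1 else 0) +
          ‖(if q.C.Nonempty then s • (Tq q).1 else 0) + (-1 : ℝ) • q.v‖)).sum := by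
          rw [mb_sum_add]
      _ ≤ (p.l.map (fun q => q.lam + 3 * c1 * s)).sum := by
          apply mb_sum_le
          intro q hq
          split_ifs with h
          · have h1 := hTl q hq h
            have h2 := hTv q hq h
            have h3 : s • (Tq q).1 + (-1 : ℝ) • q.v = -(q.v - s • (Tq q).1) := by
              rw [neg_one_smul]; abel
            rw [h3, norm_neg]
            have h4 : rm * s ≤ c1 * s := mul_le_mul_of_nonneg_right hnet.rm_le hs0.le
            linarith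
          · have h1 := hvn q hq
            rw [zero_add, zero_add, neg_one_smul, norm_neg]
            have : 0 ≤ 3 * c1 * s := by positivity
            linarith
      _ = p.lam + 3 * c1 * s * p.l.length := by
          rw [mb_sum_const]; rfl
  have hδK : 0 ≤ δ * κ * 2⁻¹ ^ n := by positivity
  have hfinal := hlow z0 hz0box hz0bad (N⁻¹ • p.a) (N⁻¹ • p.c) Lt
    (N⁻¹ * (p.lam + 3 * c1 * s * p.l.length) + 2 * δ * κ * 2⁻¹ ^ n) hLt0 hb1 hballa
    (by
      have : 2 * δ * κ * 2⁻¹ ^ n = 2 * (δ * κ * 2⁻¹ ^ n) := by ring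
      rw [this]
      linarith)
  refine ⟨?_, hlen', ?_⟩
  · rw [hreal (fun t => g z0 t)] at hfinal
    set G : ℝ := (p.l.map (fun q => if q.C.Nonempty then g z0 (Tq q) else 0)).sum with hG
    have h1 : (p.l.map (fun q => ∑ x ∈ q.C, m x - q.κ)).sum ≤
        (p.l.map (fun q => ℓ * s * (if q.C.Nonempty then g z0 (Tq q) else 0) +
          ℓ * (δ * s + ε))).sum := by
      apply mb_sum_le
      intro q hq
      split_ifs with h
      · have := hval' q hq h
        linarith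
      · have h2 : q.C = ∅ := Finset.not_nonempty_iff_eq_empty.mp h
        have h3 : 0 ≤ q.κ := by
          rcases hok q hq with h4 | h4
          · exact hnonneg _ _ _ _ _ h4.1
          · rw [h4.2.1]
        rw [h2, Finset.sum_empty]
        have : 0 ≤ ℓ * (δ * s + ε) := by positivity
        linarith
    rw [mb_sum_const, mb_sum_mul] at h1
    rw [← hG] at h1
    have h2 : ℓ * s * G = ℓ * N * (s / N * G) := by field_simp
    have h3 : s / N * G ≤ D (N⁻¹ • p.a) (N⁻¹ • p.c)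
        (N⁻¹ * (p.lam + 3 * c1 * s * p.l.length) + 2 * δ * κ * 2⁻¹ ^ n) +
        2 * δ * κ * 2⁻¹ ^ n := by
      have : 2 * δ * κ * 2⁻¹ ^ n = 2 * (δ * κ * 2⁻¹ ^ n) := by ring
      linarith
    have h4 : ℓ * N * (s / N * G) ≤ ℓ * N * (D (N⁻¹ • p.a) (N⁻¹ • p.c)
        (N⁻¹ * (p.lam + 3 * c1 * s * p.l.length) + 2 * δ * κ * 2⁻¹ ^ n) +
        2 * δ * κ * 2⁻¹ ^ n) := by
      apply mul_le_mul_of_nonneg_left h3 (by positivity)
    have h5 : ℓ * (δ * s + ε) * p.l.length = ℓ * p.l.length * (δ * s + ε) := by ring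
    linarith
  · have h1 := hB.rad y0 hy0d
    have h2 : ‖y0‖ ≤ ‖y0 - p.a‖ + ‖p.a‖ := by
      have : y0 = (y0 - p.a) + p.a := by abel
      calc ‖y0‖ = ‖(y0 - p.a) + p.a‖ := by rw [← this]
        _ ≤ _ := norm_add_le _ _
    linarith [hy0'.2]

end MP4fb

end
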