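import Pool.Agent.Lib.MP_4fbc34_pr.RobA
import Pool.Agent.Lib.MP_4fbc34_pr.Blocks

/-!
JOB MicroB: the value of a short micro piece in the magnified environment.

Let `s = sc κ n'` (so `κ 2⁻ⁿ' = 8 s`), `y0 ∈ C` with `y0 ∉ Sin` (`y0 ∈ S` by `M.supp`), `z = tz y0`, `i = ti y0`,
`τ0 = τ z i`.  By `M.loc` the object is an object in `S ∩ closedBall u lam`, and all atoms there are within
`2 lam <= 4 s < 8 s` of `y0` (`y0` itself is in the ball, by `M.loc` and `M.supp`), so they are not in `Sin` and have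
the same `z, i` (`near`).  `M.lip` with `Φ x = x - τ0`, `K = 1`, maps it to an object of `S' i` from `u - τ0` to
`u - τ0 + v` (`src`), collected set the image of `C`, with the same mass (`mass`, `Finset.sum_image`), cost not
larger.  Let `a ∈ Gr` with `‖u - τ0 - a‖ <= rm s` (the point `u - τ0` is within `lam` of `y0 - τ0`, which is in the
cell `z` of `[-1, 1)^d`, so its norm is at most `√d + 1`; `hGr` is stated for norm `<= d + 3`), and `t ∈ net` with
`‖v / s - t.1‖ <= rm`, `lam / s + 4 rm <= t.2 <= lam / s + c1` (`NetOk.round`; `‖v‖ <= lam` by `M.valid`).  By `M.cone` it is an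
object from `a` to `a + s t.1` of budget `s (t.2 - rm)`, as `lam + rm s + 2 rm s <= s (t.2 - rm)`.  The ball of radius
`rm s` about `a` is contained in the cell `z`: its points are within `rm s + rm s + lam < 8 s` of `y0 - τ0`
(`inner`).  So `hup` applies.
-/

set_option autoImplicit false

noncomputable section

namespace MP4fb

variable {d : ℕ} (M : Model d) (hM : M.Ok)

include hM

theorem micro_bound {I : Type} (S Sin : Set (E d)) (m : E d → ℝ) (S' : I → Set (E d))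
    (m' : I → E d → ℝ) (N κ rad rm c1 δ ε ℓ : ℝ) (n n' : ℕ) (Bad BadT : Finset (Fin d → ℤ))
    (tz : E d → Fin d → ℤ) (ti : E d → I) (τ : (Fin d → ℤ) → I → E d)
    (hB : BlocksOk S Sin m S' m' N κ rad n n' Bad BadT tz ti τ) (hκ : 0 < κ) (hκ1 : κ ≤ 1 / 4)
    (net : Finset (E d × ℝ)) (hnet : NetOk net rm c1) (Gr : Finset (E d))
    (hGr : ∀ x : E d, ‖x‖ ≤ d + 3 → ∃ a ∈ Gr, ‖x - a‖ ≤ rm * sc κ n')
    (g : (Fin d → ℤ) → E d × ℝ → ℝ)
    (hup : ∀ z ∈ zbox d n', z ∉ BadT → par n n' z ∉ Bad → ∀ t ∈ net, ∀ a ∈ Gr,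
      (∀ x, ‖x - a‖ ≤ rm * sc κ n' → x ∈ cell n' z) → ∀ (i : I) (C : Finset (E d)) (k : ℝ),
      M.O (S' i) a (a + sc κ n' • t.1) (sc κ n' * (t.2 - rm)) C k →
      ∑ x ∈ C, m' i x - k ≤ ℓ * (sc κ n' * (g (par n n' z) t + δ) + ε))
    (u v : E d) (lam : ℝ) (C : Finset (E d)) (k : ℝ) (hO : M.O S u (u + v) lam C k)
    (hlam : lam ≤ 2 * sc κ n') (hC : ∃ y ∈ C, y ∉ Sin) :
    ∃ t ∈ net, ‖v - sc κ n' • t.1‖ ≤ rm * sc κ n' ∧ sc κ n' * t.2 ≤ lam + c1 * sc κ n' ∧
      ∃ y ∈ C, y ∈ S \ Sin ∧ ‖y - u‖ ≤ lam ∧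
        ∑ x ∈ C, m x - k ≤ ℓ * (sc κ n' * (g (par n n' (tz y)) t + δ) + ε) := by
  classical
  set s := sc κ n' with hs
  have hpow : (0 : ℝ) < 2⁻¹ ^ n' := by positivity
  have hs0 : 0 < s := by
    rw [hs]
    unfold sc
    positivity
  have h8 : κ * 2⁻¹ ^ n' = 8 * s := by
    rw [hs]
    unfold sc
    ring
  obtain ⟨y0, hy0C, hy0⟩ := hC
  have hloc := hM.loc _ _ _ _ _ _ hO
  have hsup : ∀ x ∈ C, x ∈ S ∩ Metric.closedBall u lam := fun x hx =>
    hM.supp _ _ _ _ _ _ hloc (Finset.mem_coe.2 hx)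
  have hy0S : y0 ∈ S \ Sin := ⟨(hsup y0 hy0C).1, hy0⟩
  have hy0u : ‖y0 - u‖ ≤ lam := by
    have := (hsup y0 hy0C).2
    rwa [Metric.mem_closedBall, dist_eq_norm] at this
  have hv : ‖v‖ ≤ lam := by
    have := hM.valid _ _ _ _ _ _ hO
    have e : u - (u + v) = -v := by abel
    rwa [e, norm_neg] at this
  have hlam0 : 0 ≤ lam := (norm_nonneg _).trans hv
  have hnear : ∀ x ∈ S ∩ Metric.closedBall u lam, x ∉ Sin ∧ tz y0 = tz x ∧ ti y0 = ti x := by
    intro x hx
    refine hB.near y0 hy0S x hx.1 ?_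
    have h1 : ‖x - u‖ ≤ lam := by
      have := hx.2
      rwa [Metric.mem_closedBall, dist_eq_norm] at this
    have e : y0 - x = (y0 - u) - (x - u) := by abel
    rw [e, h8]
    have := norm_sub_le (y0 - u) (x - u)
    linarith
  set i := ti y0 with hi
  set z := tz y0 with hz
  set τ0 := τ z i with hτ0
  have hsrc : ∀ x ∈ S ∩ Metric.closedBall u lam, (fun x => x - τ0) x ∈ S' i := by
    intro x hx
    obtain ⟨h1, h2, h3⟩ := hnear x hx
    have := hB.src x ⟨hx.1, h1⟩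
    rw [← h2, ← h3] at this
    exact this
  obtain ⟨k', hk', hO'⟩ := hM.lip (S ∩ Metric.closedBall u lam) (S' i) u (u + v) lam C k
    (fun x => x - τ0) 1 zero_le_one (fun x y => by
      rw [one_mul]
      apply le_of_eq
      congr 1
      abel) hsrc hloc
  rw [one_mul] at hO'
  -- the norm of `u - τ0`
  have hy1 : y0 - τ0 ∈ cell n' z := by
    refine hB.inner y0 hy0S _ ?_
    rw [← hτ0, sub_self, norm_zero]
    positivity
  have hzb := hB.box y0 hy0S
  rw [← hz] at hzb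
  have hyn : ‖y0 - τ0‖ ≤ d + 1 := by
    rw [EuclideanSpace.norm_eq]
    rw [Real.sqrt_le_left (by positivity)]
    have h1 : ∀ c : Fin d, ‖(y0 - τ0) c‖ ^ 2 ≤ 1 := by
      intro c
      have h2 := hy1 c
      have h3 := Fintype.mem_piFinset.1 hzb c
      rw [Finset.mem_Ico] at h3
      have h4 : (-2 ^ n' : ℝ) ≤ z c := by exact_mod_cast h3.1
      have h5 : (z c : ℝ) + 1 ≤ 2 ^ n' := by exact_mod_cast (show z c + 1 ≤ 2 ^ n' by linarith [h3.2])
      have h6 : (2 : ℝ) ^ n' * 2⁻¹ ^ n' = 1 := by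
        rw [← mul_pow]
        norm_num
      have h7 : (-1 : ℝ) ≤ (y0 - τ0) c := by
        refine le_trans ?_ h2.1
        have := mul_le_mul_of_nonneg_right h4 hpow.le
        nlinarith
      have h8 : (y0 - τ0) c ≤ 1 := by
        refine le_trans h2.2.le ?_
        have := mul_le_mul_of_nonneg_right h5 hpow.le
        nlinarith
      rw [Real.norm_eq_abs, sq_abs]
      nlinarith
    refine (Finset.sum_le_sum fun c _ => h1 c).trans ?_
    simp only [Finset.sum_const, Finset.card_univ, Fintype.card_fin, nsmul_eq_mul, mul_one]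
    have : (0 : ℝ) ≤ d := Nat.cast_nonneg d
    nlinarith
  have hs2 : 2 * s ≤ 1 := by
    have h1 : (2⁻¹ : ℝ) ^ n' ≤ 1 := pow_le_one₀ (by norm_num) (by norm_num)
    nlinarith
  have hun : ‖u - τ0‖ ≤ d + 3 := by
    have e : u - τ0 = (y0 - τ0) - (y0 - u) := by abel
    rw [e]
    have := norm_sub_le (y0 - τ0) (y0 - u)
    linarith
  obtain ⟨a, haG, ha⟩ := hGr (u - τ0) hun
  have hrm0 := hnet.rm_pos
  have hrm1 := hnet.rm_le_one
  obtain ⟨t, ht, ht1, ht2, ht3⟩ := hnet.round (s⁻¹ • v) (lam / s) (by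
    rw [norm_smul, norm_inv, Real.norm_of_nonneg hs0.le, inv_mul_eq_div]
    exact div_le_div_of_nonneg_right hv hs0.le) (by
    rw [div_le_iff₀ hs0]
    exact hlam)
  have ht1' : ‖v - s • t.1‖ ≤ rm * s := by
    have e : v - s • t.1 = s • (s⁻¹ • v - t.1) := by
      rw [smul_sub, smul_inv_smul₀ hs0.ne']
    rw [e, norm_smul, Real.norm_of_nonneg hs0.le]
    nlinarith
  have ht2' : lam + 4 * rm * s ≤ s * t.2 := by
    have : (lam / s + 4 * rm) * s ≤ t.2 * s := mul_le_mul_of_nonneg_right ht2 hs0.le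
    rw [add_mul, div_mul_cancel₀ _ hs0.ne'] at this
    linarith
  have ht3' : s * t.2 ≤ lam + c1 * s := by
    have : t.2 * s ≤ (lam / s + c1) * s := mul_le_mul_of_nonneg_right ht3 hs0.le
    rw [add_mul, div_mul_cancel₀ _ hs0.ne'] at this
    linarith
  have hcone : M.O (S' i) a (a + s • t.1) (s * (t.2 - rm)) (C.image (fun x => x - τ0)) k' := by
    refine hM.cone _ _ _ _ _ _ _ _ _ hO' ?_
    have e : (u + v - τ0) - (a + s • t.1) = (u - τ0 - a) + (v - s • t.1) := by abel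
    have h1 := norm_add_le (u - τ0 - a) (v - s • t.1)
    rw [← e] at h1
    have h2 : 0 < rm * s := by positivity
    nlinarith
  have hball : ∀ x, ‖x - a‖ ≤ rm * s → x ∈ cell n' z := by
    intro x hx
    refine hB.inner y0 hy0S x ?_
    rw [← hτ0, h8]
    have e : x - (y0 - τ0) = (x - a) - (u - τ0 - a) - (y0 - u) := by abel
    rw [e]
    have h1 := norm_sub_le ((x - a) - (u - τ0 - a)) (y0 - u)
    have h2 := norm_sub_le (x - a) (u - τ0 - a)
    have h3 : rm * s ≤ s := by nlinarith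
    linarith
  have hfin := hup z hzb (hB.good y0 hy0S) (hB.pgood y0 hy0S) t ht a haG hball i _ k' hcone
  rw [Finset.sum_image (by
    intro x _ y _ hxy
    exact sub_left_injective hxy)] at hfin
  have hmass : ∑ x ∈ C, m' i (x - τ0) = ∑ x ∈ C, m x := by
    refine Finset.sum_congr rfl fun x hx => ?_
    obtain ⟨h1, h2, h3⟩ := hnear x (hsup x hx)
    have := hB.mass x ⟨(hsup x hx).1, h1⟩
    rw [← h2, ← h3] at this
    exact this.symm
  rw [hmass] at hfin
  exact ⟨t, ht, ht1', ht3', y0, hy0C, hy0S, hy0u, by linarith⟩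

end MP4fb

end
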