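import Pool.Agent.Lib.MP_4fbc34_pr.Cube

/-!
JOB Phi: the rates `phi D v lam s x = D x (x + s v) (s lam) / s` of a limit functional.
* `split_floor`: superadditivity along the points `x + (i s') v`, `i < n = ⌊s / s'⌋`, and the remaining piece
  (if `n s' < s` it has budget `(s - n s') lam > ‖(s - n s') v‖` and value `>= 0`; if `n s' = s` nothing remains;
  for `n = 1` and `s = s'` trivial).  Induction on `n`.
* `cube_lim`: fix a cube `Q` of side `r` and write `I(s) = ∫_Q phi_s`, `K = 2 d (C0 lam) r^(d-1) ‖v‖`.  For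
  `0 < s' <= s` and `n = ⌊s/s'⌋`: `I(s) >= (s'/s) ∑_{i<n} ∫_{Q + i s' v} phi_{s'} >= (n s'/s) (I(s') - K s)` by
  `cube_shift` (`i s' <= s`; `phi_{s'} <= C0 lam`).  Let `s' → 0`: `n s'/s → 1`, hence
  `limsup_{s' → 0} I(s') <= I(s) + K s`; so `limsup <= liminf` and the limit exists.
* `budget_lim`: with `η = (lam' - lam) / (lam' - lam0)`: `(1 - η) lam' + η lam0 = lam`, and
  `D x (x + s v) (s lam) >= D x (x + (1-η) s v) ((1-η) s lam') + D _ _ (η s lam0)`, therefore
  `phi_s(lam) >= (1 - η) phi_{(1-η) s}(lam')`; take limits.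
-/

set_option autoImplicit false

open MeasureTheory Filter Topology
open scoped ENNReal

noncomputable section

namespace MP4fb

variable {d : ℕ}

/-- the rate at scale `s` -/
def phi (D : E d → E d → ℝ → ℝ) (v : E d) (lam s : ℝ) (x : E d) : ℝ := D x (x + s • v) (s * lam) / s

variable {D : E d → E d → ℝ → ℝ} {C0 : ℝ}

theorem phi_meas (hD : Nice D C0) (v : E d) (lam s : ℝ) : Measurable (phi D v lam s) :=
  (hD.meas (s • v) (s * lam)).div_const s

theorem phi_nonneg (hD : Nice D C0) (v : E d) (lam s : ℝ) (hs : 0 < s) (x : E d) :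
    0 ≤ phi D v lam s x :=
  div_nonneg (hD.nonneg _ _ _) hs.le

theorem phi_le (hD : Nice D C0) (v : E d) (lam s : ℝ) (hs : 0 < s) (hl : 0 ≤ lam) (x : E d) :
    phi D v lam s x ≤ C0 * lam := by
  unfold phi
  rw [div_le_iff₀ hs]
  refine (hD.bdd _ _ _ (mul_nonneg hs.le hl)).trans (le_of_eq ?_)
  ring

private theorem split_mul (hD : Nice D C0) (v : E d) (lam : ℝ) (hv : ‖v‖ < lam) (x : E d) (s' : ℝ)
    (hs' : 0 < s') (n : ℕ) (hn : 1 ≤ n) :
    ∑ i ∈ Finset.range n,
      D (x + ((i : ℝ) * s') • v) (x + ((i : ℝ) * s') • v + s' • v) (s' * lam) ≤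
    D x (x + ((n : ℝ) * s') • v) ((n : ℝ) * s' * lam) := by
  induction n, hn using Nat.le_induction with
  | base => simp
  | succ n hn ih =>
    rw [Finset.sum_range_succ]
    have hn0 : (0 : ℝ) < n := by exact_mod_cast hn
    have h1 := hD.sup x (x + ((n : ℝ) * s') • v) (x + ((n : ℝ) * s') • v + s' • v)
      ((n : ℝ) * s' * lam) (s' * lam) (by
        rw [sub_add_cancel_left, norm_neg, norm_smul, Real.norm_of_nonneg (by positivity)]
        exact mul_lt_mul_of_pos_left hv (by positivity)) (by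
        rw [sub_add_cancel_left, norm_neg, norm_smul, Real.norm_of_nonneg hs'.le]
        exact mul_lt_mul_of_pos_left hv hs')
    have e1 : x + ((n : ℝ) * s') • v + s' • v = x + (((n + 1 : ℕ) : ℝ) * s') • v := by
      push_cast
      rw [add_assoc, ← add_smul]
      congr 2
      ring
    have e2 : (n : ℝ) * s' * lam + s' * lam = ((n + 1 : ℕ) : ℝ) * s' * lam := by
      push_cast
      ring
    rw [← e1, ← e2]
    linarith

theorem split_floor (hD : Nice D C0) (v : E d) (lam : ℝ) (hv : ‖v‖ < lam) (x : E d) (s s' : ℝ)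
    (hs' : 0 < s') (hs : s' ≤ s) :
    ∑ i ∈ Finset.range ⌊s / s'⌋₊,
      D (x + ((i : ℝ) * s') • v) (x + ((i : ℝ) * s') • v + s' • v) (s' * lam) ≤
    D x (x + s • v) (s * lam) := by
  have h1 : 1 ≤ ⌊s / s'⌋₊ := Nat.floor_pos.2 ((one_le_div hs').2 hs)
  refine (split_mul hD v lam hv x s' hs' _ h1).trans ?_
  have h2 : (⌊s / s'⌋₊ : ℝ) * s' ≤ s := by
    have := Nat.floor_le (div_nonneg (hs'.le.trans hs) hs'.le : 0 ≤ s / s')
    rwa [le_div_iff₀ hs'] at this
  apply hD.cone
  rw [sub_self, norm_zero, add_sub_add_left_eq_sub, ← sub_smul, norm_smul, Real.norm_eq_abs, abs_sub_comm,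
    abs_of_nonneg (sub_nonneg.2 h2)]
  have h3 : (s - (⌊s / s'⌋₊ : ℝ) * s') * ‖v‖ ≤ (s - (⌊s / s'⌋₊ : ℝ) * s') * lam :=
    mul_le_mul_of_nonneg_left hv.le (sub_nonneg.2 h2)
  linarith

private theorem phi_int (hd : 1 ≤ d) (hD : Nice D C0) (v : E d) (lam s : ℝ) (hs : 0 < s) (hl : 0 ≤ lam)
    (c : E d) (r : ℝ) (hr : 0 < r) : IntegrableOn (phi D v lam s) (cube c r) := by
  have hfin : volume (cube c r) < ∞ := by
    rw [vol_cube c r hr.le hd]
    exact ENNReal.ofReal_lt_top
  refine Measure.integrableOn_of_bounded (M := C0 * lam) hfin.ne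
    (phi_meas hD v lam s).aestronglyMeasurable ?_
  refine Filter.Eventually.of_forall fun x => ?_
  rw [Real.norm_of_nonneg (phi_nonneg hD v lam s hs x)]
  exact phi_le hD v lam s hs hl x

private theorem phi_I_nonneg (hD : Nice D C0) (v : E d) (lam s : ℝ) (hs : 0 < s) (c : E d) (r : ℝ) :
    0 ≤ ∫ x in cube c r, phi D v lam s x :=
  integral_nonneg fun x => phi_nonneg hD v lam s hs x

private theorem phi_I_le (hd : 1 ≤ d) (hD : Nice D C0) (v : E d) (lam s : ℝ) (hs : 0 < s) (hl : 0 ≤ lam)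
    (c : E d) (r : ℝ) (hr : 0 < r) : ∫ x in cube c r, phi D v lam s x ≤ C0 * lam * r ^ d := by
  have hfin : volume (cube c r) < ∞ := by
    rw [vol_cube c r hr.le hd]
    exact ENNReal.ofReal_lt_top
  have h1 : ∫ x in cube c r, phi D v lam s x ≤ ∫ x in cube c r, (fun _ => C0 * lam) x := by
    refine setIntegral_mono (phi_int hd hD v lam s hs hl c r hr) ?_ fun x => phi_le hD v lam s hs hl x
    exact integrableOn_const hfin.ne
  refine h1.trans (le_of_eq ?_)
  rw [setIntegral_const, smul_eq_mul, Measure.real, vol_cube c r hr.le hd,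
    ENNReal.toReal_ofReal (by positivity)]
  ring

private theorem phi_step (hd : 1 ≤ d) (hD : Nice D C0) (v : E d) (lam : ℝ) (hv : ‖v‖ < lam) (c : E d)
    (r : ℝ) (hr : 0 < r) (s s' : ℝ) (hs' : 0 < s') (hs : s' ≤ s) :
    (⌊s / s'⌋₊ : ℝ) * s' / s * ((∫ x in cube c r, phi D v lam s' x) -
      2 * d * (C0 * lam) * r ^ (d - 1) * (‖v‖ * s)) ≤ ∫ x in cube c r, phi D v lam s x := by
  have hs0 : 0 < s := hs'.trans_le hs
  have hl : 0 ≤ lam := (norm_nonneg v).trans hv.le
  set n := ⌊s / s'⌋₊ with hn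
  have h2 : (n : ℝ) * s' ≤ s := by
    have := Nat.floor_le (div_nonneg hs0.le hs'.le : 0 ≤ s / s')
    rwa [le_div_iff₀ hs'] at this
  -- the translated integrands
  have hint : ∀ i : ℕ, IntegrableOn (fun x => phi D v lam s' (x + ((i : ℝ) * s') • v)) (cube c r) := by
    intro i
    have hfin : volume (cube c r) < ∞ := by
      rw [vol_cube c r hr.le hd]
      exact ENNReal.ofReal_lt_top
    refine Measure.integrableOn_of_bounded (M := C0 * lam) hfin.ne
      ((phi_meas hD v lam s').comp (measurable_add_const _)).aestronglyMeasurable ?_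
    refine Filter.Eventually.of_forall fun x => ?_
    rw [Real.norm_of_nonneg (phi_nonneg hD v lam s' hs' _)]
    exact phi_le hD v lam s' hs' hl _
  have h3 : ∀ x, s' / s * ∑ i ∈ Finset.range n, phi D v lam s' (x + ((i : ℝ) * s') • v) ≤
      phi D v lam s x := by
    intro x
    have h := split_floor hD v lam hv x s s' hs' hs
    unfold phi
    rw [← Finset.sum_div, div_mul_div_comm, mul_comm s' _, mul_div_mul_right _ _ hs'.ne']
    exact div_le_div_of_nonneg_right h hs0.le
  have h4 : ∫ x in cube c r, (s' / s * ∑ i ∈ Finset.range n, phi D v lam s' (x + ((i : ℝ) * s') • v)) ≤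
      ∫ x in cube c r, phi D v lam s x := by
    refine setIntegral_mono ?_ (phi_int hd hD v lam s hs0 hl c r hr) h3
    exact (integrable_finset_sum _ fun i _ => hint i).const_mul _
  refine le_trans ?_ h4
  rw [integral_const_mul, integral_finset_sum _ fun i _ => hint i]
  have h5 : ∀ i ∈ Finset.range n, (∫ x in cube c r, phi D v lam s' x) -
      2 * d * (C0 * lam) * r ^ (d - 1) * (‖v‖ * s) ≤
      ∫ x in cube c r, phi D v lam s' (x + ((i : ℝ) * s') • v) := by
    intro i hi
    have hi' : (i : ℝ) ≤ n := by exact_mod_cast (Finset.mem_range.1 hi).le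
    rw [cube_translate c (((i : ℝ) * s') • v) r (phi D v lam s')]
    have h6 := cube_shift hd (phi D v lam s') (C0 * lam) (phi_meas hD v lam s')
      (fun x => phi_nonneg hD v lam s' hs' x) (fun x => phi_le hD v lam s' hs' hl x) c
      (((i : ℝ) * s') • v) r hr
    have h7 := (abs_le.1 h6).1
    have h8 : ‖((i : ℝ) * s') • v‖ ≤ ‖v‖ * s := by
      rw [norm_smul, Real.norm_of_nonneg (by positivity), mul_comm]
      refine mul_le_mul_of_nonneg_left ?_ (norm_nonneg v)
      exact (mul_le_mul_of_nonneg_right hi' hs'.le).trans h2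
    have h9 : 2 * (d : ℝ) * (C0 * lam) * r ^ (d - 1) * ‖((i : ℝ) * s') • v‖ ≤
        2 * d * (C0 * lam) * r ^ (d - 1) * (‖v‖ * s) := by
      refine mul_le_mul_of_nonneg_left h8 ?_
      have := hD.C0_nonneg
      positivity
    linarith
  have h10 := Finset.card_nsmul_le_sum _ _ _ h5
  rw [Finset.card_range, nsmul_eq_mul] at h10
  have h11 : (n : ℝ) * s' / s * ((∫ x in cube c r, phi D v lam s' x) -
      2 * d * (C0 * lam) * r ^ (d - 1) * (‖v‖ * s)) = s' / s * ((n : ℝ) *
      ((∫ x in cube c r, phi D v lam s' x) - 2 * d * (C0 * lam) * r ^ (d - 1) * (‖v‖ * s))) := by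
    ring
  rw [h11]
  exact mul_le_mul_of_nonneg_left h10 (by positivity)

theorem cube_lim (hd : 1 ≤ d) (hD : Nice D C0) (v : E d) (lam : ℝ) (hv : ‖v‖ < lam) (c : E d) (r : ℝ)
    (hr : 0 < r) : ∃ l : ℝ,
      Tendsto (fun s => ∫ x in cube c r, phi D v lam s x) (𝓝[>] 0) (𝓝 l) ∧
      ∀ s, 0 < s → l ≤ (∫ x in cube c r, phi D v lam s x) +
        2 * d * (C0 * lam) * r ^ (d - 1) * (‖v‖ * s) := by
  have hl : 0 ≤ lam := (norm_nonneg v).trans hv.le
  have hC := hD.C0_nonneg
  set I : ℝ → ℝ := fun s => ∫ x in cube c r, phi D v lam s x with hI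
  set K : ℝ := 2 * d * (C0 * lam) * r ^ (d - 1) * ‖v‖ with hK
  have hK0 : 0 ≤ K := by positivity
  have hKs : ∀ s, 2 * d * (C0 * lam) * r ^ (d - 1) * (‖v‖ * s) = K * s := by
    intro s
    rw [hK]
    ring
  set M : ℝ := C0 * lam * r ^ d with hM
  have hM0 : 0 ≤ M := by positivity
  have hI0 : ∀ s, 0 < s → 0 ≤ I s := fun s hs => phi_I_nonneg hD v lam s hs c r
  have hIM : ∀ s, 0 < s → I s ≤ M := fun s hs => phi_I_le hd hD v lam s hs hl c r hr
  -- main inequality
  have hmain : ∀ s s', 0 < s' → s' < s → I s' ≤ I s + K * s + s' / (s - s') * M := by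
    intro s s' hs' hs
    have hs0 : 0 < s := hs'.trans hs
    have h1 := phi_step hd hD v lam hv c r hr s s' hs' hs.le
    rw [hKs] at h1
    have h2 : s - s' ≤ (⌊s / s'⌋₊ : ℝ) * s' := by
      have := Nat.lt_floor_add_one (s / s')
      rw [div_lt_iff₀ hs'] at this
      linarith
    have h3 : 0 < s - s' := sub_pos.2 hs
    by_cases h4 : I s' - K * s ≤ 0
    · have := hI0 s hs0
      have h5 : 0 ≤ s' / (s - s') * M := by positivity
      linarith
    · push Not at h4
      have h5 : (s - s') / s * (I s' - K * s) ≤ I s := by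
        refine le_trans (mul_le_mul_of_nonneg_right ?_ h4.le) h1
        exact div_le_div_of_nonneg_right h2 hs0.le
      have h6 : (s - s') * (I s' - K * s) ≤ s * I s := by
        rw [div_mul_eq_mul_div, div_le_iff₀ hs0] at h5
        linarith
      have h7 : I s' - K * s ≤ s * I s / (s - s') := by
        rw [le_div_iff₀ h3]
        linarith
      have h8 : s * I s / (s - s') = I s + s' / (s - s') * I s := by
        field_simp
        ring
      have h9 : s' / (s - s') * I s ≤ s' / (s - s') * M :=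
        mul_le_mul_of_nonneg_left (hIM s hs0) (by positivity)
      linarith
  -- the infimum
  set S : Set ℝ := (fun s => I s + K * s) '' Set.Ioi 0 with hS
  have hSbdd : BddBelow S := by
    refine ⟨0, ?_⟩
    rintro _ ⟨s, hs, rfl⟩
    have h1 := hI0 s hs
    have h2 : 0 ≤ K * s := mul_nonneg hK0 (le_of_lt hs)
    show 0 ≤ I s + K * s
    linarith
  have hSne : S.Nonempty := ⟨_, 1, Set.mem_Ioi.2 one_pos, rfl⟩
  refine ⟨sInf S, ?_, ?_⟩
  · rw [Metric.tendsto_nhds]
    intro ε hε
    obtain ⟨_, ⟨s1, hs1, rfl⟩, h1⟩ := exists_lt_of_csInf_lt hSne (lt_add_of_pos_right (sInf S) (half_pos hε))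
    have hs1' : 0 < s1 := hs1
    have h1' : I s1 + K * s1 < sInf S + ε / 2 := h1
    have hlim1 : Tendsto (fun s' : ℝ => s' / (s1 - s') * M) (𝓝[>] 0) (𝓝 0) := by
      have : Tendsto (fun s' : ℝ => s' / (s1 - s') * M) (𝓝 0) (𝓝 (0 / (s1 - 0) * M)) := by
        refine Tendsto.mul_const M (Tendsto.div tendsto_id (tendsto_const_nhds.sub tendsto_id) ?_)
        simpa using hs1'.ne'
      rw [zero_div, zero_mul] at this
      exact this.mono_left nhdsWithin_le_nhds
    have hlim2 : Tendsto (fun s' : ℝ => K * s') (𝓝[>] 0) (𝓝 0) := by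
      have : Tendsto (fun s' : ℝ => K * s') (𝓝 0) (𝓝 (K * 0)) := tendsto_id.const_mul K
      rw [mul_zero] at this
      exact this.mono_left nhdsWithin_le_nhds
    filter_upwards [hlim1.eventually (eventually_lt_nhds (half_pos hε)),
      hlim2.eventually (eventually_lt_nhds hε), self_mem_nhdsWithin,
      (eventually_lt_nhds hs1').filter_mono nhdsWithin_le_nhds] with s' e1 e2 e3 e4
    have e3' : 0 < s' := e3
    have h2 := hmain s1 s' e3' e4
    have h3 : sInf S ≤ I s' + K * s' := csInf_le hSbdd ⟨s', e3, rfl⟩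
    rw [Real.dist_eq, abs_lt]
    constructor
    · show -ε < I s' - sInf S
      linarith
    · show I s' - sInf S < ε
      linarith
  · intro s hs
    rw [hKs]
    exact csInf_le hSbdd ⟨s, hs, rfl⟩

theorem budget_lim (hd : 1 ≤ d) (hD : Nice D C0) (v : E d) (lam0 lam lam' : ℝ) (h0 : ‖v‖ < lam0)
    (h1 : lam0 < lam) (h2 : lam ≤ lam') (c : E d) (r : ℝ) (hr : 0 < r) (l l' : ℝ)
    (hl : Tendsto (fun s => ∫ x in cube c r, phi D v lam s x) (𝓝[>] 0) (𝓝 l))
    (hl' : Tendsto (fun s => ∫ x in cube c r, phi D v lam' s x) (𝓝[>] 0) (𝓝 l')) :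
    (1 - (lam' - lam) / (lam' - lam0)) * l' ≤ l := by
  set η := (lam' - lam) / (lam' - lam0) with hη
  have hp : 0 < lam' - lam0 := by linarith
  have hη0 : 0 ≤ η := div_nonneg (by linarith) hp.le
  have hη1 : η < 1 := by
    rw [hη, div_lt_one hp]
    linarith
  have hηe : (1 - η) * lam' + η * lam0 = lam := by
    have : η * (lam' - lam0) = lam' - lam := div_mul_cancel₀ _ hp.ne'
    linarith
  have hlam0 : 0 ≤ lam0 := (norm_nonneg v).trans h0.le
  have hlam : 0 ≤ lam := hlam0.trans h1.le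
  have hlam' : 0 ≤ lam' := hlam.trans h2
  have h1η : 0 < 1 - η := sub_pos.2 hη1
  have key : ∀ s, 0 < s → (1 - η) * ∫ x in cube c r, phi D v lam' ((1 - η) * s) x ≤
      ∫ x in cube c r, phi D v lam s x := by
    intro s hs
    have hs' : 0 < (1 - η) * s := mul_pos h1η hs
    rw [← integral_const_mul]
    refine setIntegral_mono ((phi_int hd hD v lam' _ hs' hlam' c r hr).const_mul _)
      (phi_int hd hD v lam s hs hlam c r hr) fun x => ?_
    show (1 - η) * phi D v lam' ((1 - η) * s) x ≤ phi D v lam s x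
    unfold phi
    have e1 : (1 - η) * (D x (x + ((1 - η) * s) • v) ((1 - η) * s * lam') / ((1 - η) * s)) =
        D x (x + ((1 - η) * s) • v) ((1 - η) * s * lam') / s := by
      field_simp
    rw [e1]
    refine div_le_div_of_nonneg_right ?_ hs.le
    apply hD.cone
    have e2 : (x + ((1 - η) * s) • v) - (x + s • v) = -((η * s) • v) := by
      rw [add_sub_add_left_eq_sub, ← sub_smul, ← neg_smul]
      congr 1
      ring
    rw [sub_self, norm_zero, e2, norm_neg, norm_smul, Real.norm_of_nonneg (by positivity)]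
    have e3 : η * s * ‖v‖ ≤ η * s * lam0 := mul_le_mul_of_nonneg_left h0.le (by positivity)
    have e4 : (1 - η) * s * lam' + η * s * lam0 = s * lam := by
      rw [← hηe]
      ring
    linarith
  have hsc : Tendsto (fun s : ℝ => (1 - η) * s) (𝓝[>] 0) (𝓝[>] 0) := by
    refine tendsto_nhdsWithin_of_tendsto_nhds_of_eventually_within _ ?_ ?_
    · have : Tendsto (fun s : ℝ => (1 - η) * s) (𝓝 0) (𝓝 ((1 - η) * 0)) := tendsto_id.const_mul _
      rw [mul_zero] at this
      exact this.mono_left nhdsWithin_le_nhds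
    · filter_upwards [self_mem_nhdsWithin] with s hs
      exact mul_pos h1η hs
  refine le_of_tendsto_of_tendsto ((hl'.comp hsc).const_mul (1 - η)) hl ?_
  filter_upwards [self_mem_nhdsWithin] with s hs
  exact key s hs

end MP4fb

end
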