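import Pool.Agent.Lib.MP_4fbc34_pr.PoBasic

/-!
JOB PoCut: the cutting and assembling property of the path model (`M.k0 = 0`, `M.hub = False`).

CUTTING.  Let `a :: (l ++ [b])` be the polygon, `a = 0`, with vertices `x_0 = 0, x_1, ..., x_n = b` and
total length at most `Lam` (note `Lam >= 0`).  Cut the list of edges greedily into consecutive groups: an
edge longer than `s` is a group of its own (a long group), the other edges are collected until the length
of the group exceeds `s` (so the length of a group is at most `2 s`).  Between two consecutive long groups,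
before the first group if it is long, and after the last group if it is long, insert a trivial group (one
vertex, length `0`), so that every vertex belongs to a group which is not long.  Micro pieces: a group from
`x_i` to `x_j` which is not long gives `u = x_i`, `v = x_j - x_i`, `lam` = its length, `C` = the points of
`C` among its vertices, `κ = 0`; a long group gives `u, v, lam` in the same way and `C = ∅`.  The number of
micro pieces is at most `1 + 4 Lam / s` or so (a group that is closed because its length exceeds `s`, or is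
long, uses length more than `s`; the others are at most one after each of these, plus one), far below
`20 (1 + Lam / s)`.  Then group the micro pieces (weights `lam + s`, each at most `3 s <= R` unless the piece
is long and empty) in the same greedy way with threshold `R`: a micro piece with weight larger than `R` is
necessarily a long empty piece and forms a macro piece of its own, the others are collected until the weight
exceeds `R`, so that the weight of a macro piece is at most `2 R`.  The total weight is at most
`Lam + s * nMicro <= 5 Lam + ... `, the number of macro pieces is below `200 (1 + Lam / R)`.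
For a macro piece, `a` is the starting point of its first micro piece and `c` the end point of the last, so
the sum of the displacements is `c - a` (telescoping), and the starting point of each micro piece is within
the total length of `a`; all vertices are within `Lam` of `0`, and the starting point of a macro piece is
within the sum of the lengths of the earlier macro pieces of `0`.  It is convenient to prove one general lemma on lists: for a list with nonnegative
weights and a threshold there is a partition into consecutive groups (`List.flatten`), each of weight at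
most twice the threshold or a singleton which is heavy, with the bound on the number of groups.

ASSEMBLING.  The macro pieces are consecutive: the first starts at `0`, each one starts where the previous
one ends.  So the objects in `S2` from `N⁻¹ a_i` to `N⁻¹ c_i` can be concatenated by `po_cat` (induction on
the list), giving an object from `0` to `N⁻¹ c_last`; then `po_cone` to increase the budget
(`4 * h0 * P.length >= 0`).
-/

set_option autoImplicit false

open scoped ENNReal Classical

noncomputable section

namespace MP4fb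

variable {d : ℕ}

/-- a good micro piece -/
private def PoCut_MOk (S : Set (E d)) (s : ℝ) (m : Micro d) : Prop :=
  m.κ = 0 ∧ ‖m.v‖ ≤ m.lam ∧ ((PO S m.u (m.u + m.v) m.lam m.C m.κ ∧ m.lam ≤ 2 * s) ∨ m.C = ∅)

/-- a chain of micro pieces -/
private def PoCut_ch : E d → List (Micro d) → E d → Prop
  | x, [], y => x = y
  | x, m :: ms, y => m.u = x ∧ PoCut_ch (x + m.v) ms y

private theorem PoCut_trivPO (S : Set (E d)) (C : Finset (E d)) (hC : ↑C ⊆ S) (x x' : E d) :
    PO S x x' ‖x - x'‖ (C.filter (fun z => z = x)) 0 := by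
  refine ⟨fun z hz => hC (Finset.mem_filter.1 (Finset.mem_coe.1 hz)).1, rfl, [], ?_, ?_⟩
  · change ‖x - x'‖ + 0 ≤ ‖x - x'‖
    rw [add_zero]
  · intro z hz
    rw [(Finset.mem_filter.1 hz).2]
    exact List.mem_cons_self

private theorem PoCut_micro (S : Set (E d)) (C : Finset (E d)) (hC : ↑C ⊆ S) (s : ℝ) (hs : 0 < s)
    (l : List (E d)) : ∀ x : E d, ∃ (m : Micro d) (ms : List (Micro d)) (y : E d),
      PoCut_ch x (m :: ms) y ∧ (∀ m' ∈ m :: ms, PoCut_MOk S s m') ∧
      (PO S m.u (m.u + m.v) m.lam m.C m.κ ∧ m.lam ≤ 2 * s) ∧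
      ((m :: ms).map Micro.lam).sum ≤ plen (x :: l) ∧
      s * ms.length ≤ 2 * (ms.map Micro.lam).sum ∧
      ∀ v ∈ C, v ∈ x :: l → ∃ m' ∈ m :: ms, v ∈ m'.C := by
  induction l with
  | nil =>
    intro x
    have h0 : PO S x (x + 0) 0 (C.filter (fun z => z = x)) 0 := by
      have h := PoCut_trivPO S C hC x x
      rw [sub_self, norm_zero] at h
      rw [add_zero]
      exact h
    refine ⟨⟨x, 0, 0, C.filter (fun z => z = x), 0⟩, [], x + 0, ⟨rfl, rfl⟩, ?_,
      ⟨h0, by positivity⟩, ?_, ?_, ?_⟩
    · intro m' hm'
      rw [List.mem_singleton] at hm'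
      subst hm'
      exact ⟨rfl, by simp, Or.inl ⟨h0, by positivity⟩⟩
    · simp [plen]
    · simp
    · intro v hv hvx
      rw [List.mem_singleton] at hvx
      exact ⟨_, List.mem_cons_self, Finset.mem_filter.2 ⟨hv, hvx⟩⟩
  | cons x' l ih =>
    intro x
    obtain ⟨m, ms, y, hch, hok, hm, hsum, hcnt, hcov⟩ := ih x'
    obtain ⟨hu, hch'⟩ := hch
    have hplen : plen (x :: x' :: l) = ‖x - x'‖ + plen (x' :: l) := rfl
    have hne : ‖x' - x‖ = ‖x - x'‖ := norm_sub_rev _ _
    have hm0 : 0 ≤ m.lam := (norm_nonneg _).trans (hok m List.mem_cons_self).2.1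
    have hxx : x + (x' - x) = x' := by abel
    by_cases he : s < ‖x - x'‖
    · have h0 : PO S x (x + 0) 0 (C.filter (fun z => z = x)) 0 := by
        have h := PoCut_trivPO S C hC x x
        rw [sub_self, norm_zero] at h
        rw [add_zero]
        exact h
      refine ⟨⟨x, 0, 0, C.filter (fun z => z = x), 0⟩,
        ⟨x, x' - x, ‖x - x'‖, ∅, 0⟩ :: m :: ms, y, ⟨rfl, ?_⟩, ?_, ⟨h0, by positivity⟩, ?_, ?_, ?_⟩
      · refine ⟨(add_zero x).symm, ?_⟩
        have h1 : x + 0 + (x' - x) = x' := by rw [add_zero, hxx]
        rw [h1]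
        exact ⟨hu, hch'⟩
      · intro m' hm'
        rcases List.mem_cons.1 hm' with h | hm'
        · subst h
          exact ⟨rfl, by simp, Or.inl ⟨h0, by positivity⟩⟩
        rcases List.mem_cons.1 hm' with h | hm'
        · subst h
          exact ⟨rfl, hne.le, Or.inr rfl⟩
        · exact hok m' hm'
      · rw [List.map_cons, List.sum_cons, List.map_cons, List.sum_cons, hplen]
        change (0 : ℝ) + (‖x - x'‖ + _) ≤ _
        linarith
      · rw [List.map_cons, List.sum_cons, List.map_cons, List.sum_cons, List.length_cons,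
          List.length_cons]
        push_cast
        nlinarith
      · intro v hv hvx
        rcases List.mem_cons.1 hvx with h | hvx
        · exact ⟨_, List.mem_cons_self, Finset.mem_filter.2 ⟨hv, h⟩⟩
        · obtain ⟨m', hm', hvm⟩ := hcov v hv hvx
          exact ⟨m', List.mem_cons_of_mem _ (List.mem_cons_of_mem _ hm'), hvm⟩
    · rw [not_lt] at he
      by_cases hms : m.lam ≤ s
      · have h1 : PO S x (x + ((x' - x) + m.v)) (‖x - x'‖ + m.lam)
            (C.filter (fun z => z = x) ∪ m.C) 0 := by
          have h2 := po_cat S x x' (x' + m.v) _ _ _ _ _ _ (PoCut_trivPO S C hC x x')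
            (by rw [← hu]; exact hm.1)
          have h3 : x + ((x' - x) + m.v) = x' + m.v := by rw [← add_assoc, hxx]
          rw [(hok m List.mem_cons_self).1, add_zero] at h2
          rw [h3]
          exact h2
        have h2 : ‖x - x'‖ + m.lam ≤ 2 * s := by linarith
        refine ⟨⟨x, (x' - x) + m.v, ‖x - x'‖ + m.lam, C.filter (fun z => z = x) ∪ m.C, 0⟩, ms, y,
          ⟨rfl, ?_⟩, ?_, ⟨h1, h2⟩, ?_, hcnt, ?_⟩
        · have h3 : x + ((x' - x) + m.v) = x' + m.v := by rw [← add_assoc, hxx]
          change PoCut_ch (x + ((x' - x) + m.v)) ms y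
          rw [h3]
          exact hch'
        · intro m' hm'
          rcases List.mem_cons.1 hm' with h | hm'
          · subst h
            refine ⟨rfl, ?_, Or.inl ⟨h1, h2⟩⟩
            have h3 := norm_add_le (x' - x) m.v
            have h4 := (hok m List.mem_cons_self).2.1
            change ‖(x' - x) + m.v‖ ≤ ‖x - x'‖ + m.lam
            linarith
          · exact hok m' (List.mem_cons_of_mem _ hm')
        · rw [List.map_cons, List.sum_cons] at hsum
          rw [List.map_cons, List.sum_cons, hplen]
          change ‖x - x'‖ + m.lam + _ ≤ _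
          linarith
        · intro v hv hvx
          rcases List.mem_cons.1 hvx with h | hvx
          · exact ⟨_, List.mem_cons_self,
              Finset.mem_union_left _ (Finset.mem_filter.2 ⟨hv, h⟩)⟩
          · obtain ⟨m', hm', hvm⟩ := hcov v hv hvx
            rcases List.mem_cons.1 hm' with h | hm'
            · rw [h] at hvm
              exact ⟨_, List.mem_cons_self, Finset.mem_union_right _ hvm⟩
            · exact ⟨m', List.mem_cons_of_mem _ hm', hvm⟩
      · rw [not_le] at hms
        have h1 : PO S x (x + (x' - x)) ‖x - x'‖ (C.filter (fun z => z = x)) 0 := by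
          rw [hxx]
          exact PoCut_trivPO S C hC x x'
        have h2 : ‖x - x'‖ ≤ 2 * s := by linarith
        refine ⟨⟨x, x' - x, ‖x - x'‖, C.filter (fun z => z = x), 0⟩, m :: ms, y,
          ⟨rfl, ?_⟩, ?_, ⟨h1, h2⟩, ?_, ?_, ?_⟩
        · change PoCut_ch (x + (x' - x)) (m :: ms) y
          rw [hxx]
          exact ⟨hu, hch'⟩
        · intro m' hm'
          rcases List.mem_cons.1 hm' with h | hm'
          · subst h
            exact ⟨rfl, hne.le, Or.inl ⟨h1, h2⟩⟩
          · exact hok m' hm'
        · rw [List.map_cons, List.sum_cons, hplen]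
          change ‖x - x'‖ + _ ≤ _
          linarith
        · rw [List.map_cons, List.sum_cons, List.length_cons]
          push_cast
          nlinarith
        · intro v hv hvx
          rcases List.mem_cons.1 hvx with h | hvx
          · exact ⟨_, List.mem_cons_self, Finset.mem_filter.2 ⟨hv, h⟩⟩
          · obtain ⟨m', hm', hvm⟩ := hcov v hv hvx
            exact ⟨m', List.mem_cons_of_mem _ hm', hvm⟩

/-- the weight of a macro piece -/
private def PoCut_w (s : ℝ) (p : Macro d) : ℝ := p.lam + s * p.l.length

/-- a chain of macro pieces -/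
private def PoCut_Mch : E d → List (Macro d) → E d → Prop
  | x, [], y => x = y
  | x, p :: P, y => p.a = x ∧ PoCut_ch p.a p.l p.c ∧ PoCut_Mch p.c P y

private theorem PoCut_macro (S : Set (E d)) (s R : ℝ) (hs : 0 < s) (hR : 3 * s ≤ R)
    (ms : List (Micro d)) : ∀ x y : E d, PoCut_ch x ms y → (∀ m ∈ ms, PoCut_MOk S s m) →
      ∃ (p : Macro d) (P : List (Macro d)), PoCut_Mch x (p :: P) y ∧
        (p :: P).flatMap Macro.l = ms ∧ PoCut_w s p ≤ 2 * R ∧
        (∀ q ∈ P, PoCut_w s q ≤ 2 * R ∨ ∀ m ∈ q.l, m.C = ∅) ∧
        R * P.length ≤ 2 * (P.map (PoCut_w s)).sum := by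
  induction ms with
  | nil =>
    intro x y hxy _
    have hxy' : x = y := hxy
    refine ⟨⟨x, x, []⟩, [], ⟨rfl, rfl, hxy'⟩, rfl, ?_, by simp, by simp⟩
    simp only [PoCut_w, Macro.lam, List.map_nil, List.sum_nil, List.length_nil, Nat.cast_zero,
      mul_zero, add_zero]
    linarith
  | cons m ms ih =>
    intro x y hxy hok
    obtain ⟨hu, hch⟩ := hxy
    obtain ⟨p, P, hM, hfl, hw, hall, hcnt⟩ := ih (x + m.v) y hch
      (fun m' hm' => hok m' (List.mem_cons_of_mem _ hm'))
    obtain ⟨hpa, hpc, hP⟩ := hM
    have hmok := hok m List.mem_cons_self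
    have hm0 : 0 ≤ m.lam := (norm_nonneg _).trans hmok.2.1
    have hw0 : 0 ≤ PoCut_w s p := by
      have h1 : 0 ≤ p.lam := by
        refine List.sum_nonneg ?_
        intro t ht
        obtain ⟨m', hm', rfl⟩ := List.mem_map.1 ht
        have h2 : m' ∈ ms := by
          rw [← hfl, List.flatMap_cons]
          exact List.mem_append_left _ hm'
        exact (norm_nonneg _).trans (hok m' (List.mem_cons_of_mem _ h2)).2.1
      have h2 : (0 : ℝ) ≤ s * p.l.length := by positivity
      unfold PoCut_w
      linarith
    have hw1 : ∀ a c : E d, PoCut_w s (⟨a, c, [m]⟩ : Macro d) = m.lam + s := by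
      intro a c
      simp [PoCut_w, Macro.lam]
    have hw2 : ∀ a c : E d, PoCut_w s (⟨a, c, m :: p.l⟩ : Macro d) = m.lam + s + PoCut_w s p := by
      intro a c
      simp only [PoCut_w, Macro.lam, List.map_cons, List.sum_cons, List.length_cons]
      push_cast
      ring
    by_cases hbig : R < m.lam + s
    · have hmC : m.C = ∅ := by
        rcases hmok.2.2 with h | h
        · have := h.2
          linarith
        · exact h
      refine ⟨⟨x, x, []⟩, ⟨x, x + m.v, [m]⟩ :: p :: P, ⟨rfl, rfl, rfl, ⟨hu, rfl⟩, hpa, hpc, hP⟩,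
        ?_, ?_, ?_, ?_⟩
      · rw [List.flatMap_cons, List.flatMap_cons, hfl]
        rfl
      · simp only [PoCut_w, Macro.lam, List.map_nil, List.sum_nil, List.length_nil, Nat.cast_zero,
          mul_zero, add_zero]
        linarith
      · intro q hq
        rcases List.mem_cons.1 hq with h | hq
        · right
          rw [h]
          intro m' hm'
          rw [List.mem_singleton] at hm'
          rw [hm']
          exact hmC
        rcases List.mem_cons.1 hq with h | hq
        · left
          rw [h]
          exact hw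
        · exact hall q hq
      · rw [List.map_cons, List.sum_cons, List.map_cons, List.sum_cons, List.length_cons,
          List.length_cons, hw1]
        push_cast
        nlinarith
    · rw [not_lt] at hbig
      by_cases hp : PoCut_w s p ≤ R
      · refine ⟨⟨x, p.c, m :: p.l⟩, P, ⟨rfl, ⟨hu, ?_⟩, hP⟩, ?_, ?_, hall, hcnt⟩
        · rw [← hpa]
          exact hpc
        · rw [List.flatMap_cons] at hfl ⊢
          change m :: p.l ++ P.flatMap Macro.l = m :: ms
          rw [List.cons_append, hfl]
        · rw [hw2]
          linarith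
      · rw [not_le] at hp
        refine ⟨⟨x, x + m.v, [m]⟩, p :: P, ⟨rfl, ⟨hu, rfl⟩, hpa, hpc, hP⟩, ?_, ?_, ?_, ?_⟩
        · rw [List.flatMap_cons, hfl]
          rfl
        · rw [hw1]
          linarith
        · intro q hq
          rcases List.mem_cons.1 hq with h | hq
          · left
            rw [h]
            exact hw
          · exact hall q hq
        · rw [List.map_cons, List.sum_cons, List.length_cons]
          push_cast
          nlinarith

private theorem PoCut_ch_sum (ms : List (Micro d)) : ∀ x y : E d, PoCut_ch x ms y →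
    (ms.map Micro.v).sum = y - x := by
  induction ms with
  | nil =>
    intro x y h
    have h' : x = y := h
    rw [h']
    simp
  | cons m ms ih =>
    intro x y h
    rw [List.map_cons, List.sum_cons, ih _ _ h.2]
    abel

private theorem PoCut_ch_dist (ms : List (Micro d)) : ∀ x y : E d, PoCut_ch x ms y →
    (∀ m ∈ ms, ‖m.v‖ ≤ m.lam) → ∀ m ∈ ms, ‖m.u - x‖ ≤ (ms.map Micro.lam).sum := by
  induction ms with
  | nil =>
    intro x y _ _ m hm
    exact absurd hm List.not_mem_nil
  | cons m0 ms ih =>
    intro x y h hok m hm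
    have h0 := hok m0 List.mem_cons_self
    have hnn : 0 ≤ (ms.map Micro.lam).sum := by
      refine List.sum_nonneg ?_
      intro t ht
      obtain ⟨m', hm', rfl⟩ := List.mem_map.1 ht
      exact (norm_nonneg _).trans (hok m' (List.mem_cons_of_mem _ hm'))
    rw [List.map_cons, List.sum_cons]
    rcases List.mem_cons.1 hm with hm | hm
    · rw [hm, h.1, sub_self, norm_zero]
      have := (norm_nonneg _).trans h0
      linarith
    · have h1 := ih _ _ h.2 (fun m' hm' => hok m' (List.mem_cons_of_mem _ hm')) m hm
      have h2 : m.u - x = (m.u - (x + m0.v)) + m0.v := by abel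
      rw [h2]
      have h3 := norm_add_le (m.u - (x + m0.v)) m0.v
      linarith

private theorem PoCut_norm_sum (ms : List (Micro d)) (hok : ∀ m ∈ ms, ‖m.v‖ ≤ m.lam) :
    ‖(ms.map Micro.v).sum‖ ≤ (ms.map Micro.lam).sum := by
  induction ms with
  | nil => simp
  | cons m ms ih =>
    rw [List.map_cons, List.sum_cons, List.map_cons, List.sum_cons]
    have h1 := norm_add_le m.v (ms.map Micro.v).sum
    have h2 := ih fun m' hm' => hok m' (List.mem_cons_of_mem _ hm')
    have h3 := hok m List.mem_cons_self
    linarith

private theorem PoCut_Mch_pos (P1 : List (Macro d)) : ∀ (P2 : List (Macro d)) (p : Macro d)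
    (x y : E d), PoCut_Mch x (P1 ++ p :: P2) y → (∀ q ∈ P1, ∀ m ∈ q.l, ‖m.v‖ ≤ m.lam) →
    ‖p.a - x‖ ≤ (P1.map Macro.lam).sum := by
  induction P1 with
  | nil =>
    intro P2 p x y h _
    rw [List.nil_append] at h
    rw [h.1]
    simp
  | cons q P1 ih =>
    intro P2 p x y h hok
    rw [List.cons_append] at h
    obtain ⟨h1, h2, h3⟩ := h
    have h4 := ih P2 p q.c y h3 (fun q' hq' => hok q' (List.mem_cons_of_mem _ hq'))
    have h5 := PoCut_ch_sum q.l q.a q.c h2
    have h6 := PoCut_norm_sum q.l (hok q List.mem_cons_self)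
    rw [h5, h1] at h6
    rw [List.map_cons, List.sum_cons]
    have h7 : p.a - x = (p.a - q.c) + (q.c - x) := by abel
    have h8 := norm_add_le (p.a - q.c) (q.c - x)
    rw [h7]
    change _ ≤ (q.l.map Micro.lam).sum + _
    linarith

private theorem PoCut_Mch_ch (P : List (Macro d)) : ∀ x y : E d, PoCut_Mch x P y →
    ∀ p ∈ P, PoCut_ch p.a p.l p.c := by
  induction P with
  | nil =>
    intro x y _ p hp
    exact absurd hp List.not_mem_nil
  | cons q P ih =>
    intro x y h p hp
    rcases List.mem_cons.1 hp with hp | hp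
    · rw [hp]
      exact h.2.1
    · exact ih _ _ h.2.2 p hp

private theorem PoCut_len (P : List (Macro d)) : nMicro P = (P.flatMap Macro.l).length := by
  induction P with
  | nil => rfl
  | cons p P ih =>
    rw [List.flatMap_cons, List.length_append, ← ih]
    simp [nMicro]

private theorem PoCut_lam (P : List (Macro d)) :
    (P.map Macro.lam).sum = ((P.flatMap Macro.l).map Micro.lam).sum := by
  induction P with
  | nil => rfl
  | cons p P ih =>
    rw [List.flatMap_cons, List.map_append, List.sum_append, ← ih, List.map_cons, List.sum_cons]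
    rfl

private theorem PoCut_wsum (s : ℝ) (P : List (Macro d)) :
    (P.map (PoCut_w s)).sum = (P.map Macro.lam).sum + s * nMicro P := by
  induction P with
  | nil => simp [nMicro]
  | cons p P ih =>
    rw [List.map_cons, List.sum_cons, ih, List.map_cons, List.sum_cons]
    have h1 : nMicro (p :: P) = p.l.length + nMicro P := by simp [nMicro]
    rw [h1]
    unfold PoCut_w
    push_cast
    ring

private theorem PoCut_asm (S2 : Set (E d)) (N : ℝ) (P : List (Macro d)) : ∀ (x y : E d),
    PoCut_Mch x P y → ∀ (L2 κ2 : Fin P.length → ℝ) (C2 : Fin P.length → Finset (E d)),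
      (∀ i, PO S2 (N⁻¹ • (P.get i).a) (N⁻¹ • (P.get i).c) (L2 i) (C2 i) (κ2 i)) →
      PO S2 (N⁻¹ • x) (N⁻¹ • y) (∑ i, L2 i) (Finset.univ.biUnion C2) (∑ i, κ2 i) := by
  induction P with
  | nil =>
    intro x y h L2 κ2 C2 _
    have h' : x = y := h
    subst h'
    have h1 : (Finset.univ : Finset (Fin ([] : List (Macro d)).length)) = ∅ := rfl
    rw [h1, Finset.sum_empty, Finset.sum_empty, Finset.biUnion_empty]
    exact po_emp _ _ _ _ (by rw [sub_self, norm_zero])
  | cons p P ih =>
    intro x y h L2 κ2 C2 hO
    obtain ⟨h1, _, h3⟩ := h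
    have h4 : PO S2 (N⁻¹ • x) (N⁻¹ • p.c) (L2 0) (C2 0) (κ2 0) := by
      have h5 := hO 0
      have h6 : (p :: P).get 0 = p := rfl
      rw [h6, h1] at h5
      exact h5
    have h7 := ih p.c y h3 (fun i => L2 i.succ) (fun i => κ2 i.succ) (fun i => C2 i.succ)
      (fun i => hO i.succ)
    have h8 := po_cat S2 _ _ _ _ _ _ _ _ _ h4 h7
    have h9 : (Finset.univ : Finset (Fin (p :: P).length)).biUnion C2 =
        C2 0 ∪ (Finset.univ : Finset (Fin P.length)).biUnion (fun i => C2 i.succ) := by
      ext z
      simp only [Finset.mem_biUnion, Finset.mem_univ, true_and, Finset.mem_union]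
      constructor
      · rintro ⟨i, hi⟩
        rcases Fin.eq_zero_or_eq_succ i with h | ⟨j, h⟩
        · rw [h] at hi
          exact Or.inl hi
        · rw [h] at hi
          exact Or.inr ⟨j, hi⟩
      · rintro (h | ⟨j, h⟩)
        · exact ⟨0, h⟩
        · exact ⟨j.succ, h⟩
    rw [h9]
    have h10 : ∀ f : Fin (p :: P).length → ℝ, ∑ i, f i = f 0 + ∑ i : Fin P.length, f i.succ :=
      fun f => Fin.sum_univ_succ f
    rw [h10 L2, h10 κ2]
    exact h8

theorem pathM_cutAsm (d : ℕ) : (pathM d).CutAsm := by
  intro S b Lam C κ s R hs hR hO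
  obtain ⟨hC, hκ, l, hl, hCl⟩ := (hO : PO S 0 b Lam C κ)
  obtain ⟨m, ms, y, hch, hok, hm, hsum, hcnt, hcov⟩ := PoCut_micro S C hC s hs (l ++ [b]) 0
  obtain ⟨p, P, hM, hfl, hw, hall, hcntM⟩ := PoCut_macro S s R hs hR (m :: ms) 0 y hch hok
  have hR0 : 0 < R := by linarith
  have hmem : ∀ q ∈ p :: P, ∀ m' ∈ q.l, m' ∈ m :: ms := by
    intro q hq m' hm'
    rw [← hfl]
    exact List.mem_flatMap.2 ⟨q, hq, hm'⟩
  have hvl : ∀ q ∈ p :: P, ∀ m' ∈ q.l, ‖m'.v‖ ≤ m'.lam := fun q hq m' hm' =>
    (hok m' (hmem q hq m' hm')).2.1
  have hnn : ∀ q ∈ p :: P, ∀ m' ∈ q.l, 0 ≤ m'.lam := fun q hq m' hm' =>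
    (norm_nonneg _).trans (hvl q hq m' hm')
  have hnnM : ∀ q ∈ p :: P, 0 ≤ q.lam := by
    intro q hq
    refine List.sum_nonneg ?_
    intro t ht
    obtain ⟨m', hm', rfl⟩ := List.mem_map.1 ht
    exact hnn q hq m' hm'
  have htot : ((p :: P).map Macro.lam).sum ≤ Lam := by
    rw [PoCut_lam, hfl]
    linarith
  have hLam : 0 ≤ Lam := (plen_nonneg _).trans hl
  have hnM : nMicro (p :: P) = (m :: ms).length := by rw [PoCut_len, hfl]
  have hlen : s * (nMicro (p :: P) : ℝ) ≤ s + 2 * Lam := by
    rw [hnM, List.length_cons]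
    push_cast
    have h1 : ((m :: ms).map Micro.lam).sum ≤ Lam := by linarith
    rw [List.map_cons, List.sum_cons] at h1
    have h2 : 0 ≤ m.lam := (norm_nonneg _).trans (hok m List.mem_cons_self).2.1
    linarith
  have hpos : ∀ (P1 P2 : List (Macro d)) (q : Macro d), p :: P = P1 ++ q :: P2 →
      ‖q.a‖ ≤ (P1.map Macro.lam).sum := by
    intro P1 P2 q hq
    have h1 := PoCut_Mch_pos P1 P2 q 0 y (by rw [← hq]; exact hM) (fun q' hq' => hvl q' (by
      rw [hq]
      exact List.mem_append_left _ hq'))
    rw [sub_zero] at h1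
    exact h1
  refine ⟨p :: P, by simp, ?_, ?_, hpos, ?_, ?_, htot, ?_, ?_, ?_⟩
  · intro q hq
    have hqch := PoCut_Mch_ch (p :: P) 0 y hM q hq
    refine ⟨?_, PoCut_ch_sum q.l q.a q.c hqch, hnn q hq, ?_,
      PoCut_ch_dist q.l q.a q.c hqch (hvl q hq)⟩
    · intro m' hm'
      obtain ⟨h1, h2, h3⟩ := hok m' (hmem q hq m' hm')
      rcases h3 with h3 | h3
      · exact Or.inl h3
      · exact Or.inr ⟨h3, h1, h2⟩
    · rcases List.mem_cons.1 hq with h | h
      · left
        rw [h]
        exact hw
      · rcases hall q h with h1 | h1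
        · exact Or.inl h1
        · right
          intro m' hm'
          exact ⟨h1 m' hm', (hok m' (hmem q hq m' hm')).1, hvl q hq m' hm'⟩
  · intro q hq
    obtain ⟨P1, P2, hPP⟩ := List.append_of_mem hq
    refine (hpos P1 P2 q hPP).trans ?_
    have h1 := htot
    rw [hPP, List.map_append, List.sum_append] at h1
    have h2 : 0 ≤ ((q :: P2).map Macro.lam).sum := by
      refine List.sum_nonneg ?_
      intro t ht
      obtain ⟨q', hq', rfl⟩ := List.mem_map.1 ht
      refine hnnM q' ?_
      rw [hPP]
      exact List.mem_append_right _ hq'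
    linarith
  · intro v hv
    obtain ⟨m', hm', hvm⟩ := hcov v hv (hCl v hv)
    rw [← hfl] at hm'
    obtain ⟨q, hq, hmq⟩ := List.mem_flatMap.1 hm'
    exact ⟨q, hq, m', hmq, hvm⟩
  · have h1 : ((p :: P).map (fun q => (q.l.map Micro.κ).sum)).sum = 0 := by
      refine List.sum_eq_zero ?_
      intro t ht
      obtain ⟨q, hq, rfl⟩ := List.mem_map.1 ht
      refine List.sum_eq_zero ?_
      intro t' ht'
      obtain ⟨m', hm', rfl⟩ := List.mem_map.1 ht'
      exact (hok m' (hmem q hq m' hm')).1
    rw [h1, hκ]
    change (0 : ℝ) ≤ 0 + 0 * _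
    rw [zero_mul, add_zero]
  · have h1 : (nMicro (p :: P) : ℝ) ≤ 1 + 2 * (Lam / s) := by
      have h2 : s * (1 + 2 * (Lam / s)) = s + 2 * Lam := by field_simp
      rw [← h2] at hlen
      exact le_of_mul_le_mul_left hlen hs
    have h3 : 0 ≤ Lam / s := by positivity
    linarith
  · have h1 : (P.map (PoCut_w s)).sum ≤ ((p :: P).map (PoCut_w s)).sum := by
      rw [List.map_cons, List.sum_cons]
      have h2 : 0 ≤ PoCut_w s p := by
        have h3 := hnnM p List.mem_cons_self
        unfold PoCut_w
        positivity
      linarith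
    rw [PoCut_wsum s (p :: P)] at h1
    have h4 : R * (P.length : ℝ) ≤ 6 * Lam + 2 * s := by linarith
    have h5 : R * ((p :: P).length : ℝ) ≤ R * (200 * (1 + Lam / R)) := by
      have h6 : R * (200 * (1 + Lam / R)) = 200 * R + 200 * Lam := by field_simp
      rw [h6, List.length_cons]
      push_cast
      linarith
    exact le_of_mul_le_mul_left h5 hR0
  · intro S2 N h0 hN hh0 _ L2 κ2 C2 hO2
    have h1 := PoCut_asm S2 N (p :: P) 0 y hM L2 κ2 C2 hO2
    rw [smul_zero] at h1
    refine ⟨N⁻¹ • y, ∑ i, κ2 i, ?_, ?_⟩
    · change _ ≤ _ + 0 * _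
      rw [zero_mul, add_zero]
    · refine po_cone S2 0 (N⁻¹ • y) 0 (N⁻¹ • y) _ _ _ _ h1 ?_
      simp only [sub_self, norm_zero, add_zero]
      have h2 : 0 ≤ 4 * h0 * ((p :: P).length : ℝ) := by positivity
      linarith

end MP4fb

end
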