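import Pool.Agent.Lib.MP_4fbc34_pr.RobA

/-!
JOB RefB: assembling in the reference environment.

Note `Λ i <= 1` for all `i` (all are nonnegative by `hval`, their sum is at most `1`).  For each `i` choose
`a i, c i ∈ Gr` with `‖A i - a i‖, ‖C i - c i‖ <= r2` and the natural number `k i = ⌊Λ i / r2⌋ + 3`, so that
`Λ i + 2 r2 < k i * r2 <= Λ i + 3 r2`, `k i <= K2` and `‖a i - c i‖ < k i * r2`.  By the cone property
`D (A i) (C i) (Λ i) <= D (a i) (c i) (k i r2)`, and by `hrob` and `rob_mono` there are `Nr` pairwise disjoint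
objects from `A i` to `C i` of budget `Λ i + 5 r2` and value at least `ℓ (D (A i) (C i) (Λ i) - ε)`.
Choose inductively `C2 i` among these such that the mass of `C2 i ∩ ⋃_{j<i} C2 j` is at most `ε ℓ`: the masses of the
intersections of the `Nr` disjoint sets with the union `U` of the earlier sets add up to at most the mass of `U`,
at most `nP * Bm * ℓ < Nr ε ℓ`.  (Induct on the number of pieces, `Fin.cons` or a function on `ℕ`.)  Then
`∑_{x ∈ ⋃ C2 i} m x >= ∑ i (∑_{x ∈ C2 i} m x - ε ℓ)`.  By `hasm` there is an object from `0` with budget at most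
`∑ (Λ i + 5 r2) + h <= 1` (enlarge to `1` by `M.cone`), so `hroot` gives
`∑_{⋃ C2} m - κ3 <= ζ ℓ`, that is `∑ i ℓ (D .. - ε) <= ζ ℓ + nP ε ℓ + 2 k0 nP`.
-/

set_option autoImplicit false

open scoped Classical

noncomputable section

namespace MP4fb

variable {d : ℕ} (M : Model d) (hM : M.Ok)

include hM

/-- Selection of nearly disjoint members of families of disjoint sets. -/
theorem RefB_select (S : Set (E d)) (m : E d → ℝ) (hm : ∀ x, 0 ≤ m x) (ε' B : ℝ) (hε' : 0 < ε')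
    (hB0 : 0 ≤ B) (Nr nP : ℕ) (A C : Fin nP → E d) (L2 v : Fin nP → ℝ)
    (hR : ∀ i, Rob M S m Nr (A i) (C i) (L2 i) (v i))
    (hB : ∀ (i : Fin nP) (F : Finset (E d)) (k : ℝ), M.O S (A i) (C i) (L2 i) F k →
      ∑ x ∈ F, m x ≤ B)
    (hNr : nP * B < Nr * ε') (s : Finset (Fin nP)) :
    ∃ (C2 : Fin nP → Finset (E d)) (κ2 : Fin nP → ℝ),
      (∀ i ∈ s, M.O S (A i) (C i) (L2 i) (C2 i) (κ2 i) ∧ v i ≤ ∑ x ∈ C2 i, m x - κ2 i) ∧
      ∑ i ∈ s, ∑ x ∈ C2 i, m x - s.card * ε' ≤ ∑ x ∈ s.biUnion C2, m x := by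
  induction s using Finset.induction_on with
  | empty => exact ⟨fun _ => ∅, fun _ => 0, by simp, by simp⟩
  | insert j s hj ih =>
    obtain ⟨C2, κ2, h1, h2⟩ := ih
    set U := s.biUnion C2 with hU
    have hUm : ∑ x ∈ U, m x ≤ nP * B := by
      have e1 : ∑ x ∈ U, m x ≤ ∑ i ∈ s, ∑ x ∈ C2 i, m x := by
        refine Finset.induction_on (motive := fun s => ∑ x ∈ s.biUnion C2, m x ≤
          ∑ i ∈ s, ∑ x ∈ C2 i, m x) s (by simp) ?_
        intro i s' hi hs'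
        rw [Finset.biUnion_insert, Finset.sum_insert hi]
        have e2 := Finset.sum_union_inter (s₁ := C2 i) (s₂ := s'.biUnion C2) (f := m)
        have e3 : 0 ≤ ∑ x ∈ C2 i ∩ s'.biUnion C2, m x := Finset.sum_nonneg fun x _ => hm x
        linarith
      have e4 : ∑ i ∈ s, ∑ x ∈ C2 i, m x ≤ ∑ _i ∈ s, B :=
        Finset.sum_le_sum fun i hi => hB i _ _ (h1 i hi).1
      have e5 : ∑ _i ∈ s, B ≤ nP * B := by
        rw [Finset.sum_const, nsmul_eq_mul]
        refine mul_le_mul_of_nonneg_right ?_ hB0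
        have := Finset.card_le_univ s
        rw [Fintype.card_fin] at this
        exact_mod_cast this
      linarith
    obtain ⟨F, hFd, hF⟩ := hR j
    have hex : ∃ t : Fin Nr, ∑ x ∈ F t ∩ U, m x ≤ ε' := by
      by_contra hcon
      push Not at hcon
      have e1 : (Nr : ℝ) * ε' ≤ ∑ t : Fin Nr, ∑ x ∈ F t ∩ U, m x := by
        calc (Nr : ℝ) * ε' = ∑ _t : Fin Nr, ε' := by
              rw [Finset.sum_const, Finset.card_univ, Fintype.card_fin, nsmul_eq_mul]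
          _ ≤ _ := Finset.sum_le_sum fun t _ => (hcon t).le
      have e2 : ∑ t : Fin Nr, ∑ x ∈ F t ∩ U, m x =
          ∑ x ∈ Finset.univ.biUnion (fun t : Fin Nr => F t ∩ U), m x := by
        rw [Finset.sum_biUnion]
        intro t _ t' _ htt
        exact Finset.disjoint_of_subset_left Finset.inter_subset_left
          (Finset.disjoint_of_subset_right Finset.inter_subset_left (hFd t t' htt))
      have e3 : ∑ x ∈ Finset.univ.biUnion (fun t : Fin Nr => F t ∩ U), m x ≤ ∑ x ∈ U, m x := by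
        refine Finset.sum_le_sum_of_subset_of_nonneg ?_ (fun x _ _ => hm x)
        intro x hx
        obtain ⟨t, _, ht⟩ := Finset.mem_biUnion.1 hx
        exact (Finset.mem_inter.1 ht).2
      linarith
    obtain ⟨t, ht⟩ := hex
    obtain ⟨κ, hκ1, hκ2⟩ := hF t
    have hne : ∀ i ∈ s, i ≠ j := fun i hi h => hj (h ▸ hi)
    have hcong : s.biUnion (Function.update C2 j (F t)) = U := by
      rw [hU]
      exact Finset.biUnion_congr rfl fun i hi => by rw [Function.update_of_ne (hne i hi)]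
    refine ⟨Function.update C2 j (F t), Function.update κ2 j κ, ?_, ?_⟩
    · intro i hi
      rcases Finset.mem_insert.1 hi with rfl | hi
      · rw [Function.update_self, Function.update_self]
        exact ⟨hκ1, hκ2⟩
      · rw [Function.update_of_ne (hne i hi), Function.update_of_ne (hne i hi)]
        exact h1 i hi
    · rw [Finset.sum_insert hj, Finset.biUnion_insert, Function.update_self,
        Finset.card_insert_of_notMem hj, hcong]
      have e1 : ∑ i ∈ s, ∑ x ∈ Function.update C2 j (F t) i, m x = ∑ i ∈ s, ∑ x ∈ C2 i, m x :=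
        Finset.sum_congr rfl fun i hi => by rw [Function.update_of_ne (hne i hi)]
      rw [e1]
      have e2 := Finset.sum_union_inter (s₁ := F t) (s₂ := U) (f := m)
      push_cast
      linarith

theorem ref_bound (S : Set (E d)) (m : E d → ℝ) (hm : ∀ x, 0 ≤ m x) (ℓ ζ : ℝ) (hℓ : 0 < ℓ)
    (hroot : Root M S m 1 (ζ * ℓ)) (D : E d → E d → ℝ → ℝ)
    (hcone : ∀ a b a' b' lam lam', lam + ‖a - a'‖ + ‖b - b'‖ ≤ lam' → D a b lam ≤ D a' b' lam')
    (Gr : Finset (E d)) (r2 : ℝ) (hr2 : 0 < r2) (hr2' : r2 ≤ 1)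
    (hGr : ∀ x : E d, ‖x‖ ≤ 3 → ∃ a ∈ Gr, ‖x - a‖ ≤ r2)
    (K2 : ℕ) (hK2 : 1 / r2 + 3 ≤ K2) (ε Bm : ℝ) (hε : 0 < ε) (Nr : ℕ)
    (hBm : ∀ (a b : E d) (lam : ℝ) (C : Finset (E d)) (k : ℝ), lam ≤ 6 → M.O S a b lam C k →
      ∑ x ∈ C, m x ≤ Bm * ℓ)
    (hrob : ∀ a ∈ Gr, ∀ c ∈ Gr, ∀ k : ℕ, k ≤ K2 → ‖a - c‖ < k * r2 →
      Rob M S m Nr a c (k * r2) (ℓ * (D a c (k * r2) - ε)))
    (nP : ℕ) (hNr : nP * Bm < Nr * ε) (A C : Fin nP → E d) (Λ : Fin nP → ℝ)
    (hA : ∀ i, ‖A i‖ ≤ 1) (hval : ∀ i, ‖A i - C i‖ ≤ Λ i) (h : ℝ) (hh : 0 ≤ h)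
    (hsum : ∑ i, Λ i + 5 * r2 * nP + h ≤ 1)
    (hasm : ∀ (L2 κ2 : Fin nP → ℝ) (C2 : Fin nP → Finset (E d)),
      (∀ i, M.O S (A i) (C i) (L2 i) (C2 i) (κ2 i)) →
      ∃ (b2 : E d) (κ3 : ℝ), κ3 ≤ ∑ i, κ2 i + M.k0 * (2 * nP) ∧
        M.O S 0 b2 (∑ i, L2 i + h) (Finset.univ.biUnion C2) κ3) :
    ∑ i, D (A i) (C i) (Λ i) ≤ ζ + 2 * nP * ε + 2 * M.k0 * nP / ℓ := by
  have hB0 : 0 ≤ Bm := by
    have h1 := hBm 0 0 0 ∅ 0 (by norm_num) (hM.emp S 0 0 0 (by simp))
    rw [Finset.sum_empty] at h1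
    by_contra hneg
    push Not at hneg
    nlinarith
  have hΛ0 : ∀ i, 0 ≤ Λ i := fun i => (norm_nonneg _).trans (hval i)
  have hΛ1 : ∀ i, Λ i ≤ 1 := by
    intro i
    have h1 : Λ i ≤ ∑ i, Λ i := Finset.single_le_sum (fun j _ => hΛ0 j) (Finset.mem_univ i)
    have h2 : 0 ≤ 5 * r2 * nP := by positivity
    linarith
  have hR : ∀ i, Rob M S m Nr (A i) (C i) (Λ i + 5 * r2) (ℓ * (D (A i) (C i) (Λ i) - ε)) := by
    intro i
    have hC3 : ‖C i‖ ≤ 3 := by
      have h1 : ‖C i‖ ≤ ‖A i‖ + ‖A i - C i‖ := by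
        have := norm_sub_le (A i) (A i - C i)
        rwa [sub_sub_cancel] at this
      have h2 := hA i
      have h3 := hval i
      have h4 := hΛ1 i
      linarith
    obtain ⟨a, haG, ha⟩ := hGr (A i) ((hA i).trans (by norm_num))
    obtain ⟨c, hcG, hc⟩ := hGr (C i) hC3
    set k : ℕ := ⌊Λ i / r2⌋₊ + 3 with hk
    have hk1 : (k : ℝ) = (⌊Λ i / r2⌋₊ : ℝ) + 3 := by rw [hk]; push_cast; ring
    have hk2 : Λ i + 2 * r2 < k * r2 := by
      have h1 := Nat.lt_floor_add_one (Λ i / r2)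
      rw [div_lt_iff₀ hr2] at h1
      rw [hk1]
      linarith
    have hk3 : (k : ℝ) * r2 ≤ Λ i + 3 * r2 := by
      have h1 := Nat.floor_le (div_nonneg (hΛ0 i) hr2.le)
      rw [le_div_iff₀ hr2] at h1
      rw [hk1]
      linarith
    have hk4 : k ≤ K2 := by
      have h1 := Nat.floor_le (div_nonneg (hΛ0 i) hr2.le)
      have h2 : Λ i / r2 ≤ 1 / r2 := div_le_div_of_nonneg_right (hΛ1 i) hr2.le
      have h3 : (k : ℝ) ≤ K2 := by rw [hk1]; linarith
      exact_mod_cast h3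
    have hac : ‖a - c‖ < k * r2 := by
      have h1 : a - c = -(A i - a) + ((A i - C i) + (C i - c)) := by abel
      have h2 : ‖a - c‖ ≤ ‖A i - a‖ + (‖A i - C i‖ + ‖C i - c‖) := by
        rw [h1]
        refine (norm_add_le _ _).trans ?_
        rw [norm_neg]
        exact add_le_add le_rfl (norm_add_le _ _)
      have h3 := hval i
      linarith
    refine rob_mono M hM S m Nr Nr a c (A i) (C i) (k * r2) _ _ _ le_rfl ?_ ?_
      (hrob a haG c hcG k hk4 hac)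
    · rw [norm_sub_rev a, norm_sub_rev c]
      linarith
    · refine mul_le_mul_of_nonneg_left ?_ hℓ.le
      have h1 := hcone (A i) (C i) a c (Λ i) (k * r2) (by linarith)
      linarith
  obtain ⟨C2, κ2, h1, h2⟩ := RefB_select M hM S m hm (ε * ℓ) (Bm * ℓ) (by positivity)
    (by positivity) Nr nP A C (fun i => Λ i + 5 * r2) (fun i => ℓ * (D (A i) (C i) (Λ i) - ε)) hR
    (by
      intro i F k hO
      exact hBm _ _ _ F k (by have := hΛ1 i; linarith) hO)
    (by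
      have := mul_lt_mul_of_pos_right hNr hℓ
      linarith) Finset.univ
  obtain ⟨b2, κ3, h3, h4⟩ := hasm (fun i => Λ i + 5 * r2) κ2 C2 fun i => (h1 i (Finset.mem_univ i)).1
  have h5 : ∑ i, (Λ i + 5 * r2) + h ≤ 1 := by
    rw [Finset.sum_add_distrib, Finset.sum_const, Finset.card_univ, Fintype.card_fin, nsmul_eq_mul]
    linarith
  have h6 := hroot b2 _ κ3 (hM.cone S 0 b2 0 b2 _ 1 _ κ3 h4 (by simpa using h5))
  have h7 : ∑ i, ℓ * (D (A i) (C i) (Λ i) - ε) ≤ ∑ i, (∑ x ∈ C2 i, m x - κ2 i) :=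
    Finset.sum_le_sum fun i hi => (h1 i hi).2
  rw [Finset.sum_sub_distrib] at h7
  rw [Finset.card_univ, Fintype.card_fin] at h2
  have h8 : ∑ i, ℓ * (D (A i) (C i) (Λ i) - ε) =
      ℓ * ∑ i, D (A i) (C i) (Λ i) - nP * (ε * ℓ) := by
    rw [← Finset.mul_sum, Finset.sum_sub_distrib, Finset.sum_const, Finset.card_univ,
      Fintype.card_fin, nsmul_eq_mul]
    ring
  rw [h8] at h7
  have h9 : ℓ * ∑ i, D (A i) (C i) (Λ i) ≤ ℓ * (ζ + 2 * nP * ε + 2 * M.k0 * nP / ℓ) := by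
    have e1 : ℓ * (ζ + 2 * nP * ε + 2 * M.k0 * nP / ℓ) =
        ζ * ℓ + 2 * (nP * (ε * ℓ)) + M.k0 * (2 * nP) := by
      field_simp
    rw [e1]
    linarith
  exact le_of_mul_le_mul_left h9 hℓ

end MP4fb

end
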