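import Pool.Agent.Lib.MP_4fbc34_pr.Base

/-!
JOB RobA: robust values.
* `rob_zero`: the empty object (`M.emp`).
* `rob_mono`: take a subfamily, `M.cone`, smaller value.
* `rob_symm`: `M.rev`.
* `rob_cat`: let `F`, `G` be the two families of `N'` disjoint objects.  Take the first `N` members of `F`
  and `U = ⋃ F i` (`i < N`), of mass at most `N B`.  The `G j` are disjoint, so fewer than `N B / ε` of them
  have `m (G j ∩ U) > ε`; hence at least `N` of them (`N + N B / ε <= N'`) have `m (G j ∩ U) <= ε`; choose `N`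
  of them, `j 0 < j 1 < ...` (an injection of `Fin N` into the finset of good indices, which has card at least
  `N`).  The objects `F i ∪ (G (j i) \ U)` are pairwise disjoint; use `M.sub` for `G (j i) \ U` and `M.cat`.
* `rob_del`: let `k` be maximal with `k <= N` and `Rob M S m k a b lam v` (`k = 0` is fine), so `k < N`, and let
  `F` be the family, `U = ⋃ F i`, `U ⊆ S` by `M.supp`, `card U <= k K`.  If an object `(C, κ)` in `S \ U` had
  value at least `v`, then by `M.lip` with the identity (`K = 1`) it gives an object in `S` with the same `C` and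
  smaller cost, and `C` is disjoint from `U` (`M.supp`), so the family can be enlarged by `C`: contradiction.
-/

set_option autoImplicit false

open scoped ENNReal Classical

noncomputable section

namespace MP4fb

variable {d : ℕ} (M : Model d) (hM : M.Ok)

include hM

theorem rob_zero (S : Set (E d)) (m : E d → ℝ) (N : ℕ) (a b : E d) (lam v : ℝ) (hv : v ≤ 0)
    (h : ‖a - b‖ ≤ lam) : Rob M S m N a b lam v := by
  refine ⟨fun _ => ∅, fun _ _ _ => Finset.disjoint_empty_left _, fun _ => ⟨0, hM.emp S a b lam h, ?_⟩⟩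
  rw [Finset.sum_empty, sub_zero]
  exact hv

theorem rob_mono (S : Set (E d)) (m : E d → ℝ) (N N' : ℕ) (a b a' b' : E d) (lam lam' v v' : ℝ)
    (hN : N ≤ N') (hl : lam + ‖a - a'‖ + ‖b - b'‖ ≤ lam') (hv : v' ≤ v)
    (h : Rob M S m N' a b lam v) : Rob M S m N a' b' lam' v' := by
  obtain ⟨F, hF1, hF2⟩ := h
  refine ⟨fun i => F (Fin.castLE hN i), fun i j hij => hF1 _ _ ?_, fun i => ?_⟩
  · intro h
    apply hij
    have h2 := congrArg Fin.val h
    simp only [Fin.val_castLE] at h2
    exact Fin.ext h2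
  · obtain ⟨κ, h1, h2⟩ := hF2 (Fin.castLE hN i)
    exact ⟨κ, hM.cone S a b a' b' lam lam' _ κ h1 hl, hv.trans h2⟩

/-- mono in the environment, with a set removed -/
theorem obj_mono (S S' : Set (E d)) (a b : E d) (lam : ℝ) (C : Finset (E d)) (κ : ℝ)
    (hS : S ⊆ S') (h : M.O S a b lam C κ) : ∃ κ' ≤ κ, M.O S' a b lam C κ' := by
  obtain ⟨κ', h1, h2⟩ := hM.lip S S' a b lam C κ (fun x => x) 1 zero_le_one
    (fun x y => by rw [one_mul]) (fun x hx => hS hx) h
  have h3 : C.image (fun x => x) = C := Finset.image_id' 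
  rw [one_mul, h3] at h2
  exact ⟨κ', h1, h2⟩

theorem rob_symm (S : Set (E d)) (m : E d → ℝ) (N : ℕ) (a b : E d) (lam v : ℝ)
    (h : Rob M S m N a b lam v) : Rob M S m N b a lam v := by
  obtain ⟨F, hF1, hF2⟩ := h
  refine ⟨F, hF1, fun i => ?_⟩
  obtain ⟨κ, h1, h2⟩ := hF2 i
  exact ⟨κ, hM.rev S a b lam _ κ h1, h2⟩

theorem rob_cat (S : Set (E d)) (m : E d → ℝ) (hm : ∀ x, 0 ≤ m x) (N N' : ℕ) (a b c : E d)
    (lam mu v1 v2 B ε : ℝ) (hB0 : 0 ≤ B)
    (hB : ∀ (C : Finset (E d)) (κ : ℝ), M.O S a b lam C κ → ∑ x ∈ C, m x ≤ B)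
    (hε : 0 < ε) (hN : (N : ℝ) + N * B / ε ≤ N')
    (h1 : Rob M S m N' a b lam v1) (h2 : Rob M S m N' b c mu v2) :
    Rob M S m N a c (lam + mu) (v1 + v2 - ε) := by
  obtain ⟨F, hF1, hF2⟩ := h1
  obtain ⟨G, hG1, hG2⟩ := h2
  have hNN : N ≤ N' := by
    have : (N : ℝ) ≤ N' := by
      have h3 : 0 ≤ (N : ℝ) * B / ε := by positivity
      linarith
    exact_mod_cast this
  set F' : Fin N → Finset (E d) := fun i => F (Fin.castLE hNN i) with hF'
  have hF1' : ∀ i j, i ≠ j → Disjoint (F' i) (F' j) := by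
    intro i j hij
    apply hF1
    intro h
    apply hij
    have h2 := congrArg Fin.val h
    simp only [Fin.val_castLE] at h2
    exact Fin.ext h2
  set U : Finset (E d) := Finset.univ.biUnion F' with hU
  have hUm : ∑ x ∈ U, m x ≤ N * B := by
    rw [hU, Finset.sum_biUnion (fun i _ j _ hij => hF1' i j hij)]
    calc ∑ i : Fin N, ∑ x ∈ F' i, m x ≤ ∑ i : Fin N, B := Finset.sum_le_sum (fun i _ => by
          obtain ⟨κ, h1, _⟩ := hF2 (Fin.castLE hNN i)
          exact hB _ κ h1)
      _ = N * B := by rw [Finset.sum_const, Finset.card_univ, Fintype.card_fin, nsmul_eq_mul]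
  set good : Finset (Fin N') := Finset.univ.filter (fun j => ∑ x ∈ G j ∩ U, m x ≤ ε) with hgood
  set bad : Finset (Fin N') := Finset.univ.filter (fun j => ¬ ∑ x ∈ G j ∩ U, m x ≤ ε) with hbad
  have hcard : good.card + bad.card = N' := by
    rw [hgood, hbad, Finset.card_filter_add_card_filter_not, Finset.card_univ, Fintype.card_fin]
  have hb1 : (bad.card : ℝ) * ε ≤ N * B := by
    calc (bad.card : ℝ) * ε = ∑ j ∈ bad, ε := by rw [Finset.sum_const, nsmul_eq_mul]
      _ ≤ ∑ j ∈ bad, ∑ x ∈ G j ∩ U, m x := Finset.sum_le_sum (fun j hj => by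
          have := (Finset.mem_filter.1 hj).2
          push Not at this
          exact this.le)
      _ = ∑ x ∈ bad.biUnion (fun j => G j ∩ U), m x := by
          rw [Finset.sum_biUnion]
          intro i _ j _ hij
          exact (hG1 i j hij).mono Finset.inter_subset_left Finset.inter_subset_left
      _ ≤ ∑ x ∈ U, m x := by
          apply Finset.sum_le_sum_of_subset_of_nonneg
          · intro x hx
            obtain ⟨j, _, hj⟩ := Finset.mem_biUnion.1 hx
            exact (Finset.mem_inter.1 hj).2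
          · intro x _ _
            exact hm x
      _ ≤ N * B := hUm
  have hb2 : (bad.card : ℝ) ≤ N * B / ε := by rwa [le_div_iff₀ hε]
  have hg : N ≤ good.card := by
    have h3 : (good.card : ℝ) + bad.card = N' := by exact_mod_cast hcard
    have h4 : (N : ℝ) ≤ good.card := by linarith
    exact_mod_cast h4
  set e := good.orderEmbOfCardLe hg with he
  have heg : ∀ i, ∑ x ∈ G (e i) ∩ U, m x ≤ ε := fun i =>
    (Finset.mem_filter.1 (good.orderEmbOfCardLe_mem hg i)).2
  refine ⟨fun i => F' i ∪ (G (e i) \ U), ?_, ?_⟩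
  · intro i j hij
    have hFU : ∀ i, F' i ⊆ U := fun i => Finset.subset_biUnion_of_mem F' (Finset.mem_univ i)
    rw [Finset.disjoint_union_left, Finset.disjoint_union_right, Finset.disjoint_union_right]
    refine ⟨⟨hF1' i j hij, ?_⟩, ?_, ?_⟩
    · exact (Finset.disjoint_sdiff.mono_left (hFU i))
    · exact (Finset.sdiff_disjoint.mono_right (hFU j))
    · have hne : e i ≠ e j := fun h => hij (e.injective h)
      exact (hG1 _ _ hne).mono Finset.sdiff_subset Finset.sdiff_subset
  · intro i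
    obtain ⟨κ1, h3, h4⟩ := hF2 (Fin.castLE hNN i)
    obtain ⟨κ2, h5, h6⟩ := hG2 (e i)
    have hsub := hM.sub S b c mu (G (e i)) (G (e i) \ U) κ2 h5 Finset.sdiff_subset
    refine ⟨κ1 + κ2, hM.cat S a b c lam mu _ _ κ1 κ2 h3 hsub, ?_⟩
    have hFU : F' i ⊆ U := Finset.subset_biUnion_of_mem F' (Finset.mem_univ i)
    have hdis : Disjoint (F' i) (G (e i) \ U) := Finset.disjoint_sdiff.mono_left hFU
    have h7 : ∑ x ∈ G (e i) ∩ U, m x + ∑ x ∈ G (e i) \ U, m x = ∑ x ∈ G (e i), m x :=
      Finset.sum_inter_add_sum_sdiff _ _ _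
    have h8 := heg i
    change v1 + v2 - ε ≤ ∑ x ∈ F' i ∪ (G (e i) \ U), m x - (κ1 + κ2)
    rw [Finset.sum_union hdis]
    have h9 : v1 ≤ ∑ x ∈ F' i, m x - κ1 := h4
    linarith

theorem rob_del (S : Set (E d)) (m : E d → ℝ) (N : ℕ) (a b : E d) (lam v K : ℝ) (hK0 : 0 ≤ K)
    (hK : ∀ (C : Finset (E d)) (κ : ℝ), M.O S a b lam C κ → (C.card : ℝ) ≤ K)
    (h : ¬ Rob M S m N a b lam v) :
    ∃ U : Finset (E d), ↑U ⊆ S ∧ (U.card : ℝ) ≤ N * K ∧
      ∀ (C : Finset (E d)) (κ : ℝ), M.O (S \ ↑U) a b lam C κ → ∑ x ∈ C, m x - κ < v := by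
  have hex : ∃ k, k < N ∧ Rob M S m k a b lam v ∧ ¬ Rob M S m (k + 1) a b lam v := by
    by_contra hcon
    push Not at hcon
    have hall : ∀ k, k ≤ N → Rob M S m k a b lam v := by
      intro k
      induction k with
      | zero =>
        intro _
        exact ⟨fun i => i.elim0, fun i => i.elim0, fun i => i.elim0⟩
      | succ k ih =>
        intro hk
        exact hcon k (by omega) (ih (by omega))
    exact h (hall N le_rfl)
  obtain ⟨k, hkN, ⟨F, hF1, hF2⟩, hk⟩ := hex
  set U : Finset (E d) := Finset.univ.biUnion F with hU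
  have hUS : ↑U ⊆ S := by
    intro x hx
    obtain ⟨i, _, hi⟩ := Finset.mem_biUnion.1 (Finset.mem_coe.1 hx)
    obtain ⟨κ, h1, _⟩ := hF2 i
    exact hM.supp S a b lam (F i) κ h1 (Finset.mem_coe.2 hi)
  refine ⟨U, hUS, ?_, ?_⟩
  · have h1 : (U.card : ℝ) ≤ ∑ i : Fin k, ((F i).card : ℝ) := by
      exact_mod_cast Finset.card_biUnion_le
    have h2 : ∑ i : Fin k, ((F i).card : ℝ) ≤ k * K := by
      calc ∑ i : Fin k, ((F i).card : ℝ) ≤ ∑ i : Fin k, K := Finset.sum_le_sum (fun i _ => by
            obtain ⟨κ, h1, _⟩ := hF2 i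
            exact hK _ κ h1)
        _ = k * K := by rw [Finset.sum_const, Finset.card_univ, Fintype.card_fin, nsmul_eq_mul]
    have h3 : (k : ℝ) * K ≤ N * K :=
      mul_le_mul_of_nonneg_right (by exact_mod_cast hkN.le) hK0
    linarith
  · intro C κ hC
    by_contra hcon
    push Not at hcon
    apply hk
    have hCd : ∀ i, Disjoint (F i) C := by
      intro i
      rw [Finset.disjoint_left]
      intro x hx hxC
      have h1 := hM.supp (S \ ↑U) a b lam C κ hC (Finset.mem_coe.2 hxC)
      exact h1.2 (Finset.mem_coe.2 (Finset.mem_biUnion.2 ⟨i, Finset.mem_univ i, hx⟩))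
    obtain ⟨κ', h1, h2⟩ := obj_mono M hM (S \ ↑U) S a b lam C κ Set.sdiff_subset hC
    refine ⟨Fin.snoc (α := fun _ => Finset (E d)) F C, ?_, ?_⟩
    · intro i j
      refine Fin.lastCases ?_ (fun i => ?_) i
      · refine Fin.lastCases ?_ (fun j => ?_) j
        · intro h
          exact absurd rfl h
        · intro _
          rw [Fin.snoc_last, Fin.snoc_castSucc]
          exact (hCd j).symm
      · refine Fin.lastCases ?_ (fun j => ?_) j
        · intro _
          rw [Fin.snoc_last, Fin.snoc_castSucc]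
          exact hCd i
        · intro hij
          rw [Fin.snoc_castSucc, Fin.snoc_castSucc]
          exact hF1 i j (fun h => hij (by rw [h]))
    · intro i
      refine Fin.lastCases ?_ (fun i => ?_) i
      · rw [Fin.snoc_last]
        exact ⟨κ', h2, by linarith⟩
      · rw [Fin.snoc_castSucc]
        exact hF2 i

end MP4fb

end
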