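import Pool.Agent.Lib.MP_4fbc34_pr.RobA
import Pool.Agent.Lib.MP_4fbc34_pr.Blocks

/-!
JOB RootB: the root bound in the magnified environment, from the bounds for macro pieces (`hmac`), the bound
for the extra atoms `Sin` (`hin`) and the bound in the reference environment (`href`).

Let `M.O S 0 b ((1 - β) N) C κ`.  Apply `hM.cutasm` with `Lam = (1 - β) N`, `s`, `R`: macro pieces `P`, with
`nMicro P <= 20 (1 + N / s)` and `P.length <= 200 (1 + N / R) <= Pmax` (`hPmax`).  Then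
`∑_{x ∈ C} m x <= ∑_{p ∈ P} ∑_{q ∈ p.l} ∑_{x ∈ q.C} m x` (`C` is covered, `m >= 0`) and
`∑ κ_q <= κ + k0 nMicro`, so `∑_C m - κ <= ∑_p val p + k0 nMicro` with `val p = ∑_q (∑_{q.C} m - q.κ)`.
Call `p` an in-piece if the first case of `hmac` holds, otherwise an out-piece.
IN-PIECES: `val p <= η0 ℓ (p.lam + b0 * length)` (`hin` for every micro piece which is a true object, costs are
nonnegative, empty pieces contribute `0`).
OUT-PIECES: `val p <= ℓ N (D_p + w) + ℓ length e` with `D_p = D (N⁻¹ p.a) (N⁻¹ p.c) Λ_p`,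
`Λ_p = N⁻¹ (p.lam + 3 c1 s length) + w`; and `Λ_p <= Λmax = 8 R / N + w` (as `p.lam + s length <= 2 R`, `c1 <= 1`),
`Λ_p >= w > 0`, `‖N⁻¹ p.a - N⁻¹ p.c‖ <= N⁻¹ p.lam < Λ_p`.
Let `T = N⁻¹ ∑_{in} p.lam` and `c' = 120 c1 + w Pmax`; since `s nMicro <= 20 (s + N) <= 40 N`,
`∑_{out} Λ_p <= 1 - β - T + c' =: u`.
CASE no out-piece: the value is at most
`ℓ N (η0 (1 - β) + 20 (1 + 1/s) (M.k0/ℓ + η0 b0)) <= ℓ N (ζ β / 4 + ζ β rad / 16)` by `hfin`, fine as `β <= 1/2`, `rad <= 1`.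
CASE there are out-pieces: let `p` be the first one in the list `P = P1 ++ p :: P2`, so all members of `P1` are
in-pieces and by the prefix property of `cutasm` and `hmac`: `rad N - 4 R <= ‖p.a‖ <= ∑_{P1} lam <= T N`, hence
`T >= rad - 4 R / N >= rad / 2` (`hR`).
LINGERING.  Let `p*` be the out-piece with the largest `D_p / Λ_p`, so `D_{p*} / Λ_{p*} >= W / u` where
`W = ∑_{out} D_p` (`u > 0`).  By `hsup` and `hsymm`, for every natural number `k`:
`(1 + 2k) D A C Λ <= D A C ((1 + 2k) Λ)` (go forth and back, induction on `k`; `‖A - C‖ < Λ`).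
Take `k = ⌊β1 / (2 Λ_{p*})⌋` with `β1 = β - c' - c3 >= 0`, so `2 k Λ_{p*} <= β1` and `2 k Λ_{p*} >= β1 - 2 Λmax = β2`,
`β2 = β - c' - c3 - 16 R / N - 2 w >= β / 2` by `hbud`.
REFERENCE.  Apply `href` with `nP = P.length`, `A i = N⁻¹ p_i.a`, `C i = N⁻¹ p_i.c`, `Λ i = N⁻¹ p_i.lam` for in-pieces,
`Λ_p` for out-pieces different from `p*` and `(1 + 2k) Λ_{p*}` for `p*`:
`∑ Λ <= T + u + β1 <= 1 - c3`, `‖A i‖ <= 1` (`‖p.a‖ <= Lam <= N`), `‖A i - C i‖ <= N⁻¹ p.lam` (the displacements sum up to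
`p.c - p.a` and `‖v‖ <= lam` for every micro piece by `hM.valid`).  The assembling property of `P` in the environment
`S0` with `h0` (hub condition from `hhub`, `p.a, p.c ∈ S`) is the hypothesis of `href` with
`h = 4 h0 P.length <= c3 / 2`.  Since `D >= 0`: `W + 2 k D_{p*} <= ζ + err`, so `W (1 + β2 / u) <= ζ + err`, and
`W <= (ζ + err) (1 - β2 / (u + β2)) <= (ζ + err) (1 - β2 (1 + T))` because `u + β2 <= 1 - T` and `1/(1 - T) >= 1 + T`.
TOTAL: the value divided by `ℓ N` is at most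
`ζ (1 - β2 (1 + T)) + err + w Pmax + 20 (1 + 1/s) (e + k0/ℓ + η0 b0) + η0 T`, and `η0 T <= ζ β T / 4`,
`ζ β2 T >= ζ β T / 2`, `T >= rad / 2`, `β2 = β - (c' + c3 + 16 R/N + 2 w)`; so it is at most
`ζ (1 - β) - ζ β rad / 8 + (left side of hfin) <= ζ (1 - β - β rad / 16)`.
-/

set_option autoImplicit false

open scoped Classical

noncomputable section

namespace MP4fb

variable {d : ℕ}

theorem rootb_sum_get {α : Type} (P : List α) (f : α → ℝ) :
    (P.map f).sum = ∑ i : Fin P.length, f (P.get i) := by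
  rw [← Fin.sum_univ_fun_getElem]
  rfl

theorem rootb_first {α : Type} (Q : α → Prop) (P : List α) (h : ∃ p ∈ P, Q p) :
    ∃ (P1 P2 : List α) (p : α), P = P1 ++ p :: P2 ∧ Q p ∧ ∀ x ∈ P1, ¬ Q x := by
  induction P with
  | nil =>
    obtain ⟨p, hp, _⟩ := h
    simp at hp
  | cons a P ih =>
    by_cases ha : Q a
    · exact ⟨[], P, a, rfl, ha, by simp⟩
    · obtain ⟨p, hp, hQ⟩ := h
      have hp' : p ∈ P := by
        rcases List.mem_cons.1 hp with h | h
        · rw [h] at hQ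
          exact absurd hQ ha
        · exact h
      obtain ⟨P1, P2, p', h1, h2, h3⟩ := ih ⟨p, hp', hQ⟩
      refine ⟨a :: P1, P2, p', by rw [h1]; rfl, h2, ?_⟩
      intro x hx
      rcases List.mem_cons.1 hx with h | h
      · rw [h]; exact ha
      · exact h3 x h

theorem rootb_cover {α β : Type} (m : α → ℝ) (hm : ∀ x, 0 ≤ m x) (F : β → Finset α) (L : List β) :
    ∀ C : Finset α, (∀ x ∈ C, ∃ q ∈ L, x ∈ F q) →
      ∑ x ∈ C, m x ≤ (L.map (fun q => ∑ x ∈ F q, m x)).sum := by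
  induction L with
  | nil =>
    intro C h
    have hC : C = ∅ := by
      rw [Finset.eq_empty_iff_forall_notMem]
      intro x hx
      obtain ⟨q, hq, _⟩ := h x hx
      simp at hq
    simp [hC]
  | cons a L ih =>
    intro C h
    rw [List.map_cons, List.sum_cons]
    have h1 : ∑ x ∈ C, m x ≤ ∑ x ∈ F a, m x + ∑ x ∈ C \ F a, m x := by
      rw [← Finset.sum_union Finset.disjoint_sdiff]
      refine Finset.sum_le_sum_of_subset_of_nonneg ?_ (fun x _ _ => hm x)
      intro x hx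
      rw [Finset.mem_union, Finset.mem_sdiff]
      by_cases hxa : x ∈ F a
      · exact Or.inl hxa
      · exact Or.inr ⟨hx, hxa⟩
    have h2 := ih (C \ F a) (by
      intro x hx
      rw [Finset.mem_sdiff] at hx
      obtain ⟨q, hq, hxq⟩ := h x hx.1
      rcases List.mem_cons.1 hq with h | h
      · rw [h] at hxq
        exact absurd hxq hx.2
      · exact ⟨q, h, hxq⟩)
    linarith

theorem rootb_flat {α β : Type} (f : β → List α) (g : α → ℝ) (P : List β) :
    ((P.flatMap f).map g).sum = (P.map (fun p => ((f p).map g).sum)).sum := by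
  induction P with
  | nil => simp
  | cons a P ih =>
    rw [List.flatMap_cons, List.map_append, List.sum_append, ih, List.map_cons, List.sum_cons]

theorem rootb_sum_sub {α : Type} (f g : α → ℝ) (P : List α) :
    (P.map (fun p => f p - g p)).sum = (P.map f).sum - (P.map g).sum := by
  induction P with
  | nil => simp
  | cons a P ih =>
    simp only [List.map_cons, List.sum_cons, ih]
    ring

theorem rootb_sum_affine {α : Type} (f : α → ℝ) (c b : ℝ) (P : List α) :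
    (P.map (fun p => c * (f p + b))).sum = c * ((P.map f).sum + b * P.length) := by
  induction P with
  | nil => simp
  | cons a P ih =>
    simp only [List.map_cons, List.sum_cons, ih, List.length_cons]
    push_cast
    ring

theorem rootb_norm_sum (P : List (Micro d)) (h : ∀ q ∈ P, ‖q.v‖ ≤ q.lam) :
    ‖(P.map Micro.v).sum‖ ≤ (P.map Micro.lam).sum := by
  induction P with
  | nil => simp
  | cons a P ih =>
    rw [List.map_cons, List.sum_cons, List.map_cons, List.sum_cons]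
    have h1 := ih (fun q hq => h q (List.mem_cons_of_mem _ hq))
    have h2 := h a List.mem_cons_self
    have h3 := norm_add_le a.v (P.map Micro.v).sum
    linarith

theorem rootb_linger (D : E d → E d → ℝ → ℝ)
    (hsup : ∀ a b c lam mu, ‖a - b‖ < lam → ‖b - c‖ < mu →
      D a b lam + D b c mu ≤ D a c (lam + mu))
    (hsymm : ∀ a b lam, D a b lam = D b a lam) (a c : E d) (L : ℝ) (h : ‖a - c‖ < L) (k : ℕ) :
    (1 + 2 * (k : ℝ)) * D a c L ≤ D a c ((1 + 2 * (k : ℝ)) * L) := by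
  have hL : 0 < L := lt_of_le_of_lt (norm_nonneg _) h
  induction k with
  | zero => simp
  | succ k ih =>
    have h1 := hsup a c a L L h (by rw [norm_sub_rev]; exact h)
    rw [hsymm c a L] at h1
    have h2 : ‖a - c‖ < (1 + 2 * (k : ℝ)) * L := by
      have : (0 : ℝ) ≤ k := Nat.cast_nonneg k
      nlinarith
    have h3 := hsup a a c (L + L) ((1 + 2 * (k : ℝ)) * L) (by simp; linarith) h2
    have h4 : L + L + (1 + 2 * (k : ℝ)) * L = (1 + 2 * ((k + 1 : ℕ) : ℝ)) * L := by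
      push_cast
      ring
    rw [h4] at h3
    push_cast at h3 ⊢
    linarith

/-- the final numerical inequality for `W` -/
theorem rootb_W (W Z u β2 T r : ℝ) (hu : 0 < u) (hβ2 : 0 ≤ β2) (hT : 0 ≤ T)
    (h1 : W ≤ r * u) (h2 : W + β2 * r ≤ Z) (h3 : u + β2 ≤ 1 - T) (hZ : 0 ≤ Z) :
    W ≤ Z * (1 - β2 * (1 + T)) := by
  have hv : 0 < u + β2 := by linarith
  have h4 : W * (u + β2) ≤ Z * u := by nlinarith
  have h5 : (1 + T) * (u + β2) ≤ 1 := by nlinarith
  have h6 : Z * u ≤ Z * (1 - β2 * (1 + T)) * (u + β2) := by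
    have h7 : u ≤ (1 - β2 * (1 + T)) * (u + β2) := by nlinarith
    have := mul_le_mul_of_nonneg_left h7 hZ
    linarith
  exact le_of_mul_le_mul_right (h4.trans h6) hv

theorem rootb_num_nm (nm N s β : ℝ) (hN : 1 ≤ N) (hs : 0 < s) (hsN : s ≤ N) (hβ : 0 < β)
    (hnm : nm ≤ 20 * (1 + (1 - β) * N / s)) : nm ≤ 20 * N * (1 + 1 / s) ∧ s * nm ≤ 40 * N := by
  have hN0 : 0 < N := by linarith
  have hβN : (1 - β) * N ≤ N := by nlinarith
  constructor
  · refine hnm.trans ?_
    have h1 : (1 - β) * N / s ≤ N * (1 / s) := by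
      rw [mul_one_div]
      exact div_le_div_of_nonneg_right hβN hs.le
    linarith
  · have h1 : s * nm ≤ s * (20 * (1 + (1 - β) * N / s)) := mul_le_mul_of_nonneg_left hnm hs.le
    have h2 : s * (20 * (1 + (1 - β) * N / s)) = 20 * (s + (1 - β) * N) := by
      field_simp
    rw [h2] at h1
    linarith

theorem rootb_num_in (N ℓ β ζ rad X Y k0 nm η0 b0 e Lc v : ℝ) (hN0 : 0 < N) (hℓ : 0 < ℓ)
    (hβ : 0 < β) (hβ' : β ≤ 1 / 2) (hζ : 0 < ζ) (hη : 0 ≤ η0) (hη' : η0 ≤ ζ * β / 4)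
    (hrad1 : rad ≤ 1) (he : 0 ≤ e) (hnm0 : 0 ≤ nm)
    (hX : X = e + k0 / ℓ + η0 * b0) (hnmX : nm * X ≤ N * Y)
    (hY : Y ≤ ζ * β * rad / 16) (hL : Lc ≤ (1 - β) * N)
    (hv : v ≤ η0 * ℓ * Lc + η0 * ℓ * b0 * nm) :
    v + k0 * nm ≤ ζ * (1 - β - β * rad / 16) * ℓ * N := by
  have hℓN := (mul_pos hℓ hN0).le
  have h2 : η0 * ℓ * Lc ≤ η0 * (ℓ * N) := by
    have h1 : (1 - β) * N ≤ N := by nlinarith
    have := mul_le_mul_of_nonneg_left (hL.trans h1) (mul_nonneg hη hℓ.le)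
    linarith
  have h3 : η0 * (ℓ * N) ≤ ζ * β / 4 * (ℓ * N) := mul_le_mul_of_nonneg_right hη' hℓN
  have h4 : k0 * nm + η0 * ℓ * b0 * nm ≤ ℓ * (nm * X) := by
    have h5 : ℓ * (nm * X) = ℓ * e * nm + k0 * nm + η0 * ℓ * b0 * nm := by
      rw [hX]
      field_simp
    rw [h5]
    have : 0 ≤ ℓ * e * nm := by positivity
    linarith
  have h5 : ℓ * (nm * X) ≤ ℓ * (N * Y) := mul_le_mul_of_nonneg_left hnmX hℓ.le
  have h7 : ℓ * (N * Y) ≤ ζ * β * rad / 16 * (ℓ * N) := by
    have := mul_le_mul_of_nonneg_right hY hℓN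
    linarith
  have h9 : ζ * β / 4 + ζ * β * rad / 16 ≤ ζ * (1 - β - β * rad / 16) := by
    have h10 : β * rad ≤ β := by nlinarith
    have h11 : ζ * (β / 4 + β * rad / 16) ≤ ζ * (1 - β - β * rad / 16) :=
      mul_le_mul_of_nonneg_left (by linarith) hζ.le
    linarith
  have h10 := mul_le_mul_of_nonneg_right h9 hℓN
  linarith

theorem rootb_num_out (N ℓ β ζ rad X Y k0 nm η0 b0 e vi vo T W δ err wP : ℝ) (hN0 : 0 < N)
    (hℓ : 0 < ℓ) (hβ : 0 < β) (hζ : 0 < ζ) (hη' : η0 ≤ ζ * β / 4)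
    (herr : 0 ≤ err) (hX : X = e + k0 / ℓ + η0 * b0) (hnmX : nm * X ≤ N * Y)
    (hfin : ζ * δ + err + wP + Y ≤ ζ * β * rad / 16) (hδ : δ ≤ β / 2)
    (hT0 : 0 ≤ T) (hT1 : rad / 2 ≤ T)
    (hW : W ≤ (ζ + err) * (1 - (β - δ) * (1 + T)))
    (hvi : vi ≤ η0 * ℓ * (N * T) + η0 * ℓ * b0 * nm)
    (hvo : vo ≤ ℓ * N * W + ℓ * N * wP + ℓ * e * nm) :
    vo + vi + k0 * nm ≤ ζ * (1 - β - β * rad / 16) * ℓ * N := by
  have hℓN := (mul_pos hℓ hN0).le
  have hβδ : β / 2 ≤ β - δ := by linarith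
  have hW2 : W ≤ ζ * (1 - (β - δ) * (1 + T)) + err := by
    have h1 : 0 ≤ (β - δ) * (1 + T) := mul_nonneg (by linarith) (by linarith)
    have h2 : 0 ≤ err * ((β - δ) * (1 + T)) := mul_nonneg herr h1
    linarith
  have hfinal : W + wP + Y + η0 * T ≤ ζ * (1 - β - β * rad / 16) := by
    have h1 : η0 * T ≤ ζ * β / 4 * T := mul_le_mul_of_nonneg_right hη' hT0
    have h2 : ζ * (β / 2) * T ≤ ζ * (β - δ) * T := by
      refine mul_le_mul_of_nonneg_right ?_ hT0
      exact mul_le_mul_of_nonneg_left hβδ hζ.le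
    have h3 : ζ * β / 4 * (rad / 2) ≤ ζ * β / 4 * T :=
      mul_le_mul_of_nonneg_left hT1 (by positivity)
    linarith
  have h1 := mul_le_mul_of_nonneg_right hfinal hℓN
  have h2 : ℓ * (nm * X) = ℓ * e * nm + k0 * nm + η0 * ℓ * b0 * nm := by
    rw [hX]
    field_simp
  have h3 : ℓ * (nm * X) ≤ ℓ * (N * Y) := mul_le_mul_of_nonneg_left hnmX hℓ.le
  linarith

/-- the numerical part of the proof -/
theorem rootb_core (n : ℕ) (lam len vl : Fin n → ℝ) (A B : Fin n → E d) (O : Finset (Fin n))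
    (nm N s R ℓ β c1 c3 w e ζ η0 b0 err rad Pmax k0 : ℝ) (hN : 1 ≤ N) (hs : 0 < s) (hsN : s ≤ N)
    (hR0 : 0 < R) (hℓ : 0 < ℓ) (hβ : 0 < β) (hβ' : β ≤ 1 / 2) (hc1 : 0 ≤ c1) (hc1' : c1 ≤ 1)
    (hc3 : 0 ≤ c3) (hw : 0 < w) (he : 0 ≤ e) (hζ : 0 < ζ) (hη : 0 ≤ η0) (hη' : η0 ≤ ζ * β / 4)
    (hb0 : 0 ≤ b0) (herr : 0 ≤ err) (hrad : 0 ≤ rad) (hrad1 : rad ≤ 1) (hk0 : 0 ≤ k0)
    (hR : 8 * R ≤ rad * N)
    (D : E d → E d → ℝ → ℝ) (hD0 : ∀ a b lam, 0 ≤ D a b lam)
    (hsup : ∀ a b c lam mu, ‖a - b‖ < lam → ‖b - c‖ < mu →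
      D a b lam + D b c mu ≤ D a c (lam + mu))
    (hsymm : ∀ a b lam, D a b lam = D b a lam)
    (hbud : 120 * c1 + w * Pmax + c3 + 16 * R / N + 2 * w ≤ β / 2)
    (hfin : ζ * (120 * c1 + w * Pmax + c3 + 16 * R / N + 2 * w) + err + w * Pmax +
      20 * (1 + 1 / s) * (e + k0 / ℓ + η0 * b0) ≤ ζ * β * rad / 16)
    (hlam0 : ∀ i, 0 ≤ lam i) (hlen0 : ∀ i, 0 ≤ len i)
    (hval : ∀ i, ‖A i - B i‖ ≤ N⁻¹ * lam i)
    (hsumlam : ∑ i, lam i ≤ (1 - β) * N) (hsumlen : ∑ i, len i = nm)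
    (hnm : nm ≤ 20 * (1 + (1 - β) * N / s)) (hn : (n : ℝ) ≤ Pmax)
    (hin : ∀ i, i ∉ O → vl i ≤ η0 * ℓ * (lam i + b0 * len i))
    (hout : ∀ i ∈ O, vl i ≤ ℓ * N * (D (A i) (B i) (N⁻¹ * (lam i + 3 * c1 * s * len i) + w) + w) +
      ℓ * len i * e ∧ lam i + s * len i ≤ 2 * R)
    (hT : O.Nonempty → rad * N ≤ ∑ i ∈ Oᶜ, lam i + 4 * R)
    (href : ∀ Λ : Fin n → ℝ, (∀ i, ‖A i - B i‖ ≤ Λ i) → ∑ i, Λ i ≤ 1 - c3 →
      ∑ i, D (A i) (B i) (Λ i) ≤ ζ + err) :
    ∑ i, vl i + k0 * nm ≤ ζ * (1 - β - β * rad / 16) * ℓ * N := by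
  have hN0 : 0 < N := by linarith
  have hNi : 0 < N⁻¹ := inv_pos.2 hN0
  have hnm0 : 0 ≤ nm := by
    rw [← hsumlen]
    exact Finset.sum_nonneg fun i _ => hlen0 i
  have hPmax0 : 0 ≤ Pmax := le_trans (Nat.cast_nonneg n) hn
  -- number of micro pieces
  obtain ⟨hnm1, hnm2⟩ := rootb_num_nm nm N s β hN hs hsN hβ hnm
  set X : ℝ := e + k0 / ℓ + η0 * b0 with hX
  have hX0 : 0 ≤ X := by positivity
  have hnmX : nm * X ≤ N * (20 * (1 + 1 / s) * X) := by
    have := mul_le_mul_of_nonneg_right hnm1 hX0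
    linarith
  have hRN : 0 < R / N := div_pos hR0 hN0
  set δ : ℝ := 120 * c1 + w * Pmax + c3 + 16 * R / N + 2 * w with hδ
  have hδ0 : 0 ≤ δ := by
    have : 16 * R / N = 16 * (R / N) := by ring
    rw [hδ, this]
    positivity
  have hwP : 0 ≤ w * Pmax := by positivity
  -- in pieces
  have hinsum : ∑ i ∈ Oᶜ, vl i ≤ η0 * ℓ * (∑ i ∈ Oᶜ, lam i) + η0 * ℓ * b0 * nm := by
    have h1 : ∑ i ∈ Oᶜ, vl i ≤ ∑ i ∈ Oᶜ, η0 * ℓ * (lam i + b0 * len i) :=
      Finset.sum_le_sum fun i hi => hin i (Finset.mem_compl.1 hi)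
    have h2 : ∑ i ∈ Oᶜ, η0 * ℓ * (lam i + b0 * len i) =
        η0 * ℓ * (∑ i ∈ Oᶜ, lam i) + η0 * ℓ * b0 * ∑ i ∈ Oᶜ, len i := by
      rw [Finset.mul_sum, Finset.mul_sum, ← Finset.sum_add_distrib]
      refine Finset.sum_congr rfl fun i _ => ?_
      ring
    have h3 : ∑ i ∈ Oᶜ, len i ≤ nm := by
      rw [← hsumlen]
      exact Finset.sum_le_sum_of_subset_of_nonneg (Finset.subset_univ _) fun i _ _ => hlen0 i
    rw [h2] at h1
    have h4 : η0 * ℓ * b0 * ∑ i ∈ Oᶜ, len i ≤ η0 * ℓ * b0 * nm :=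
      mul_le_mul_of_nonneg_left h3 (by positivity)
    linarith
  have hsplit : ∑ i, vl i = ∑ i ∈ O, vl i + ∑ i ∈ Oᶜ, vl i := (Finset.sum_add_sum_compl O vl).symm
  rcases Finset.eq_empty_or_nonempty O with hO | hO
  · -- no out piece
    have h1 : ∑ i ∈ Oᶜ, lam i ≤ (1 - β) * N := by
      refine le_trans ?_ hsumlam
      exact Finset.sum_le_sum_of_subset_of_nonneg (Finset.subset_univ _) fun i _ _ => hlam0 i
    have h6 : 20 * (1 + 1 / s) * X ≤ ζ * β * rad / 16 := by
      have : 0 ≤ ζ * δ := mul_nonneg hζ.le hδ0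
      linarith
    have h7 : ∑ i, vl i = ∑ i ∈ Oᶜ, vl i := by
      rw [hsplit, hO]
      simp
    rw [h7]
    exact rootb_num_in N ℓ β ζ rad X (20 * (1 + 1 / s) * X) k0 nm η0 b0 e (∑ i ∈ Oᶜ, lam i) _ hN0
      hℓ hβ hβ' hζ hη hη' hrad1 he hnm0 hX hnmX h6 h1 hinsum
  · -- out pieces
    set Lp : Fin n → ℝ := fun i => N⁻¹ * (lam i + 3 * c1 * s * len i) + w with hLp
    set T : ℝ := N⁻¹ * ∑ i ∈ Oᶜ, lam i with hTdef
    have hNT : N * T = ∑ i ∈ Oᶜ, lam i := by
      rw [hTdef, ← mul_assoc, mul_inv_cancel₀ hN0.ne', one_mul]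
    have hT1 : rad / 2 ≤ T := by
      have h1 := hT hO
      rw [← hNT] at h1
      have h2 : rad / 2 * N ≤ T * N := by linarith
      exact le_of_mul_le_mul_right h2 hN0
    have hT0 : 0 ≤ T := by linarith
    have hLpw : ∀ i, w ≤ Lp i := by
      intro i
      have : 0 ≤ N⁻¹ * (lam i + 3 * c1 * s * len i) := by
        have h1 := hlam0 i
        have h2 := hlen0 i
        positivity
      simp only [hLp]
      linarith
    have hLp0 : ∀ i, 0 < Lp i := fun i => lt_of_lt_of_le hw (hLpw i)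
    have hLpmax : ∀ i ∈ O, Lp i ≤ 8 * R / N + w := by
      intro i hi
      have h1 := (hout i hi).2
      have h2 : lam i + 3 * c1 * s * len i ≤ 8 * R := by
        have h3 := hlam0 i
        have h4 : 0 ≤ s * len i := mul_nonneg hs.le (hlen0 i)
        have h5 : c1 * (s * len i) ≤ 1 * (s * len i) := mul_le_mul_of_nonneg_right hc1' h4
        nlinarith
      have h3 : N⁻¹ * (lam i + 3 * c1 * s * len i) ≤ N⁻¹ * (8 * R) :=
        mul_le_mul_of_nonneg_left h2 hNi.le
      have h4 : 8 * R / N = N⁻¹ * (8 * R) := by rw [div_eq_inv_mul]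
      simp only [hLp]
      rw [h4]
      linarith
    have hvalid : ∀ i, ‖A i - B i‖ < Lp i := by
      intro i
      have h1 := hval i
      have h2 : N⁻¹ * lam i ≤ N⁻¹ * (lam i + 3 * c1 * s * len i) := by
        refine mul_le_mul_of_nonneg_left ?_ hNi.le
        have := hlen0 i
        have : 0 ≤ 3 * c1 * s * len i := by positivity
        linarith
      simp only [hLp]
      linarith
    -- sum of the budgets of the out pieces
    set u : ℝ := 1 - β - T + (120 * c1 + w * Pmax) with hu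
    have hsumO : ∑ i ∈ O, Lp i ≤ u := by
      have h1 : ∑ i ∈ O, Lp i = N⁻¹ * ∑ i ∈ O, lam i + N⁻¹ * (3 * c1 * s * ∑ i ∈ O, len i) +
          w * O.card := by
        simp only [hLp]
        rw [Finset.sum_add_distrib, Finset.sum_const, nsmul_eq_mul, ← Finset.mul_sum,
          Finset.sum_add_distrib, ← Finset.mul_sum]
        ring
      have h2 : ∑ i ∈ O, lam i = ∑ i, lam i - ∑ i ∈ Oᶜ, lam i := by
        rw [← Finset.sum_add_sum_compl O lam]
        ring
      have h3 : ∑ i ∈ O, len i ≤ nm := by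
        rw [← hsumlen]
        exact Finset.sum_le_sum_of_subset_of_nonneg (Finset.subset_univ _) fun i _ _ => hlen0 i
      have h4 : (O.card : ℝ) ≤ Pmax := by
        refine le_trans ?_ hn
        have := Finset.card_le_univ O
        rw [Fintype.card_fin] at this
        exact_mod_cast this
      have h5 : w * O.card ≤ w * Pmax := mul_le_mul_of_nonneg_left h4 hw.le
      have h6 : N⁻¹ * (3 * c1 * s * ∑ i ∈ O, len i) ≤ 120 * c1 := by
        have h7 : 3 * c1 * s * ∑ i ∈ O, len i ≤ 3 * c1 * (40 * N) := by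
          have h8 : 3 * c1 * s * ∑ i ∈ O, len i ≤ 3 * c1 * s * nm :=
            mul_le_mul_of_nonneg_left h3 (by positivity)
          have h9 : 3 * c1 * (s * nm) ≤ 3 * c1 * (40 * N) :=
            mul_le_mul_of_nonneg_left hnm2 (by positivity)
          linarith
        have h8 := mul_le_mul_of_nonneg_left h7 hNi.le
        have h9 : N⁻¹ * (3 * c1 * (40 * N)) = 120 * c1 := by
          field_simp
          ring
        linarith
      have h7 : N⁻¹ * ∑ i ∈ O, lam i ≤ 1 - β - T := by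
        rw [h2, mul_sub, ← hTdef]
        have h8 := mul_le_mul_of_nonneg_left hsumlam hNi.le
        have h9 : N⁻¹ * ((1 - β) * N) = 1 - β := by
          field_simp
        linarith
      rw [h1, hu]
      linarith
    have hsumO0 : 0 < ∑ i ∈ O, Lp i := Finset.sum_pos (fun i _ => hLp0 i) hO
    have hu0 : 0 < u := lt_of_lt_of_le hsumO0 hsumO
    -- the maximal ratio
    obtain ⟨j, hjO, hj⟩ := Finset.exists_max_image O (fun i => D (A i) (B i) (Lp i) / Lp i) hO
    set r : ℝ := D (A j) (B j) (Lp j) / Lp j with hr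
    have hr0 : 0 ≤ r := div_nonneg (hD0 _ _ _) (hLp0 j).le
    have hrj : D (A j) (B j) (Lp j) = r * Lp j := by
      rw [hr, div_mul_cancel₀ _ (hLp0 j).ne']
    set W : ℝ := ∑ i ∈ O, D (A i) (B i) (Lp i) with hW
    have hWr : W ≤ r * u := by
      have h1 : W ≤ ∑ i ∈ O, r * Lp i := by
        refine Finset.sum_le_sum fun i hi => ?_
        exact (div_le_iff₀ (hLp0 i)).1 (hj i hi)
      rw [← Finset.mul_sum] at h1
      exact h1.trans (mul_le_mul_of_nonneg_left hsumO hr0)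
    -- lingering
    set β1 : ℝ := β - (120 * c1 + w * Pmax) - c3 with hβ1
    have hδ16 : 16 * R / N = 16 * (R / N) := by ring
    have hδ8 : 8 * R / N = 8 * (R / N) := by ring
    have hβ10 : 0 ≤ β1 := by
      rw [hβ1]
      rw [hδ] at hbud
      rw [hδ16] at hbud
      linarith
    set k : ℕ := ⌊β1 / (2 * Lp j)⌋₊ with hk
    have hLj : 0 < 2 * Lp j := by linarith [hLp0 j]
    have hk1 : 2 * (k : ℝ) * Lp j ≤ β1 := by
      have h1 : (k : ℝ) ≤ β1 / (2 * Lp j) := Nat.floor_le (div_nonneg hβ10 hLj.le)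
      rw [le_div_iff₀ hLj] at h1
      linarith
    have hk2 : β - δ ≤ 2 * (k : ℝ) * Lp j := by
      have h1 : β1 / (2 * Lp j) < (k : ℝ) + 1 := Nat.lt_floor_add_one _
      rw [div_lt_iff₀ hLj] at h1
      have h2 := hLpmax j hjO
      rw [hδ8] at h2
      rw [hδ, hδ16]
      rw [hβ1] at h1
      linarith
    have hling := rootb_linger D hsup hsymm (A j) (B j) (Lp j) (hvalid j) k
    -- the reference
    set Λ : Fin n → ℝ := fun i => (if i ∈ O then Lp i else N⁻¹ * lam i) +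
      (if i = j then 2 * (k : ℝ) * Lp j else 0) with hΛ
    have hkL : 0 ≤ 2 * (k : ℝ) * Lp j := by
      have := hLp0 j
      positivity
    have hΛ1 : ∀ i, ‖A i - B i‖ ≤ Λ i := by
      intro i
      have h1 : 0 ≤ (if i = j then 2 * (k : ℝ) * Lp j else 0) := by
        split_ifs
        · exact hkL
        · exact le_refl _
      have h2 : ‖A i - B i‖ ≤ (if i ∈ O then Lp i else N⁻¹ * lam i) := by
        split_ifs
        · exact (hvalid i).le
        · exact hval i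
      simp only [hΛ]
      linarith
    have hΛ2 : ∑ i, Λ i ≤ 1 - c3 := by
      have h1 : ∑ i, Λ i = ∑ i ∈ O, Lp i + T + 2 * (k : ℝ) * Lp j := by
        simp only [hΛ]
        rw [Finset.sum_add_distrib, Finset.sum_ite_eq' Finset.univ j, if_pos (Finset.mem_univ j)]
        congr 1
        rw [← Finset.sum_add_sum_compl O]
        congr 1
        · exact Finset.sum_congr rfl fun i hi => if_pos hi
        · rw [hTdef, Finset.mul_sum]
          exact Finset.sum_congr rfl fun i hi => if_neg (Finset.mem_compl.1 hi)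
      rw [h1]
      rw [hu] at hsumO
      rw [hβ1] at hk1
      linarith
    have hΛ3 : W + 2 * (k : ℝ) * (r * Lp j) ≤ ∑ i, D (A i) (B i) (Λ i) := by
      have h1 : ∀ i, (if i ∈ O then D (A i) (B i) (Lp i) else 0) +
          (if i = j then 2 * (k : ℝ) * (r * Lp j) else 0) ≤ D (A i) (B i) (Λ i) := by
        intro i
        by_cases hij : i = j
        · subst hij
          have h2 : Λ i = (1 + 2 * (k : ℝ)) * Lp i := by
            simp only [hΛ, if_pos hjO, if_true]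
            ring
          rw [h2, if_pos hjO, if_pos rfl, ← hrj]
          linarith
        · have h2 : Λ i = (if i ∈ O then Lp i else N⁻¹ * lam i) := by
            simp only [hΛ, if_neg hij, add_zero]
          rw [h2, if_neg hij, add_zero]
          split_ifs
          · exact le_refl _
          · exact hD0 _ _ _
      refine le_trans (le_of_eq ?_) (Finset.sum_le_sum fun i _ => h1 i)
      rw [Finset.sum_add_distrib, Finset.sum_ite_eq' Finset.univ j, if_pos (Finset.mem_univ j)]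
      congr 1
      rw [hW, Finset.sum_ite_mem, Finset.univ_inter]
    have hZ := hΛ3.trans (href Λ hΛ1 hΛ2)
    have hWβ : W + (β - δ) * r ≤ ζ + err := by
      have h1 : (β - δ) * r ≤ 2 * (k : ℝ) * Lp j * r := mul_le_mul_of_nonneg_right hk2 hr0
      linarith
    have hβδ : β / 2 ≤ β - δ := by linarith
    have huδ : u + (β - δ) ≤ 1 - T := by
      rw [hu, hδ, hδ16]
      have : 0 < R / N := hRN
      linarith
    have hWfin := rootb_W W (ζ + err) u (β - δ) T r hu0 (by linarith) hT0 hWr hWβ huδ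
      (by linarith)
    -- the out pieces
    have houtsum : ∑ i ∈ O, vl i ≤ ℓ * N * W + ℓ * N * (w * Pmax) + ℓ * e * nm := by
      have h1 : ∑ i ∈ O, vl i ≤ ∑ i ∈ O, (ℓ * N * (D (A i) (B i) (Lp i) + w) + ℓ * len i * e) :=
        Finset.sum_le_sum fun i hi => (hout i hi).1
      have h2 : ∑ i ∈ O, (ℓ * N * (D (A i) (B i) (Lp i) + w) + ℓ * len i * e) =
          ℓ * N * W + ℓ * N * (w * O.card) + ℓ * e * ∑ i ∈ O, len i := by
        rw [hW, Finset.sum_add_distrib, ← Finset.mul_sum, Finset.sum_add_distrib,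
          Finset.sum_const, nsmul_eq_mul, Finset.mul_sum (s := O) (f := len)]
        have h3 : ∑ i ∈ O, ℓ * len i * e = ∑ i ∈ O, ℓ * e * len i :=
          Finset.sum_congr rfl fun i _ => by ring
        rw [h3]
        ring
      have h3 : ∑ i ∈ O, len i ≤ nm := by
        rw [← hsumlen]
        exact Finset.sum_le_sum_of_subset_of_nonneg (Finset.subset_univ _) fun i _ _ => hlen0 i
      have h4 : (O.card : ℝ) ≤ Pmax := by
        refine le_trans ?_ hn
        have := Finset.card_le_univ O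
        rw [Fintype.card_fin] at this
        exact_mod_cast this
      have h5 : ℓ * N * (w * O.card) ≤ ℓ * N * (w * Pmax) := by
        refine mul_le_mul_of_nonneg_left ?_ (by positivity)
        exact mul_le_mul_of_nonneg_left h4 hw.le
      have h6 : ℓ * e * ∑ i ∈ O, len i ≤ ℓ * e * nm := mul_le_mul_of_nonneg_left h3 (by positivity)
      linarith
    -- conclusion
    rw [hsplit]
    rw [← hNT] at hinsum
    exact rootb_num_out N ℓ β ζ rad X (20 * (1 + 1 / s) * X) k0 nm η0 b0 e _ _ T W δ err (w * Pmax)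
      hN0 hℓ hβ hζ hη' herr hX hnmX hfin hbud hT0 hT1 hWfin hinsum houtsum

section

variable (M : Model d) (hM : M.Ok)

include hM

theorem root_bound (S Sin S0 : Set (E d)) (m : E d → ℝ) (hm : ∀ x, 0 ≤ m x)
    (N s R ℓ β c1 c3 w e ζ η0 b0 err h0 rad Pmax : ℝ) (hN : 1 ≤ N) (hs : 0 < s) (hsN : s ≤ N)
    (hsR : 3 * s ≤ R) (hℓ : 0 < ℓ) (hβ : 0 < β) (hβ' : β ≤ 1 / 2) (hc1 : 0 ≤ c1) (hc1' : c1 ≤ 1)
    (hc3 : 0 ≤ c3) (hw : 0 < w) (he : 0 ≤ e) (hζ : 0 < ζ) (hη : 0 ≤ η0) (hη' : η0 ≤ ζ * β / 4)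
    (hb0 : 0 ≤ b0) (hh0 : 0 ≤ h0) (herr : 0 ≤ err) (hrad : 0 ≤ rad) (hrad1 : rad ≤ 1)
    (hR : 8 * R ≤ rad * N)
    (D : E d → E d → ℝ → ℝ) (hD0 : ∀ a b lam, 0 ≤ D a b lam)
    (hsup : ∀ a b c lam mu, ‖a - b‖ < lam → ‖b - c‖ < mu →
      D a b lam + D b c mu ≤ D a c (lam + mu))
    (hsymm : ∀ a b lam, D a b lam = D b a lam)
    (hPmax : 200 * (1 + N / R) ≤ Pmax)
    (hbud : 120 * c1 + w * Pmax + c3 + 16 * R / N + 2 * w ≤ β / 2)
    (hhub0 : 4 * h0 * Pmax ≤ c3 / 2)
    (hhub : M.hub → ∀ y ∈ S, ∃ y' ∈ S0, ‖y' - N⁻¹ • y‖ ≤ h0)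
    (hmac : ∀ p : Macro d, p.Ok M S s R → (∀ q ∈ p.l, ∀ x ∈ q.C, x ∈ Sin) ∨
      ((p.l.map (fun q => ∑ x ∈ q.C, m x - q.κ)).sum ≤
        ℓ * N * (D (N⁻¹ • p.a) (N⁻¹ • p.c) (N⁻¹ * (p.lam + 3 * c1 * s * p.l.length) + w) + w) +
          ℓ * p.l.length * e ∧ p.lam + s * p.l.length ≤ 2 * R ∧ rad * N ≤ ‖p.a‖ + 4 * R))
    (hin : ∀ (a b : E d) (lam : ℝ) (C : Finset (E d)) (κ : ℝ), M.O S a b lam C κ →
      ∑ x ∈ C.filter (fun x => x ∈ Sin), m x ≤ η0 * ℓ * (lam + b0))
    (href : ∀ (nP : ℕ), (nP : ℝ) ≤ Pmax → ∀ (A C : Fin nP → E d) (Λ : Fin nP → ℝ),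
      (∀ i, ‖A i‖ ≤ 1) → (∀ i, ‖A i - C i‖ ≤ Λ i) → ∀ h : ℝ, 0 ≤ h → h ≤ c3 / 2 →
      ∑ i, Λ i ≤ 1 - c3 →
      (∀ (L2 κ2 : Fin nP → ℝ) (C2 : Fin nP → Finset (E d)),
        (∀ i, M.O S0 (A i) (C i) (L2 i) (C2 i) (κ2 i)) →
        ∃ (b2 : E d) (κ3 : ℝ), κ3 ≤ ∑ i, κ2 i + M.k0 * (2 * nP) ∧
          M.O S0 0 b2 (∑ i, L2 i + h) (Finset.univ.biUnion C2) κ3) →
      ∑ i, D (A i) (C i) (Λ i) ≤ ζ + err)
    (hfin : ζ * (120 * c1 + w * Pmax + c3 + 16 * R / N + 2 * w) + err + w * Pmax +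
      20 * (1 + 1 / s) * (e + M.k0 / ℓ + η0 * b0) ≤ ζ * β * rad / 16) :
    Root M S m ((1 - β) * N) (ζ * (1 - β - β * rad / 16) * ℓ * N) := by
  intro b C κ hO
  have hN0 : 0 < N := by linarith
  have hNi : 0 < N⁻¹ := inv_pos.2 hN0
  have hR0 : 0 < R := by linarith
  obtain ⟨P, hP, hPok, hPa, hpre, hcov, hcost, hPlam, hPnm, hPlen, hasm⟩ :=
    hM.cutasm S b ((1 - β) * N) C κ s R hs hsR hO
  have hLamN : (1 - β) * N ≤ N := by nlinarith
  have hPlen' : (P.length : ℝ) ≤ Pmax := by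
    refine hPlen.trans (le_trans ?_ hPmax)
    have : (1 - β) * N / R ≤ N / R := div_le_div_of_nonneg_right hLamN hR0.le
    linarith
  -- the micro pieces are valid
  have hqv : ∀ p ∈ P, ∀ q ∈ p.l, ‖q.v‖ ≤ q.lam := by
    intro p hp q hq
    rcases (hPok p hp).1 q hq with h | h
    · have h1 := hM.valid _ _ _ _ _ _ h.1
      simpa using h1
    · exact h.2.2
  have hplam0 : ∀ p ∈ P, 0 ≤ p.lam := by
    intro p hp
    refine List.sum_nonneg ?_
    intro x hx
    obtain ⟨q, hq, rfl⟩ := List.mem_map.1 hx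
    exact (hPok p hp).2.2.1 q hq
  set In : Macro d → Prop := fun p => ∀ q ∈ p.l, ∀ x ∈ q.C, x ∈ Sin with hIn
  set vl : Macro d → ℝ := fun p => (p.l.map (fun q => ∑ x ∈ q.C, m x - q.κ)).sum with hvl
  set O : Finset (Fin P.length) := Finset.univ.filter (fun i => ¬ In (P.get i)) with hOdef
  have hmem : ∀ i : Fin P.length, P.get i ∈ P := fun i => List.get_mem P i
  have hOmem : ∀ i, i ∈ O ↔ ¬ In (P.get i) := by
    intro i
    rw [hOdef, Finset.mem_filter]
    simp
  have hcore := rootb_core P.length (fun i => (P.get i).lam) (fun i => ((P.get i).l.length : ℝ))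
    (fun i => vl (P.get i)) (fun i => N⁻¹ • (P.get i).a) (fun i => N⁻¹ • (P.get i).c) O
    (nMicro P : ℝ) N s R ℓ β c1 c3 w e ζ η0 b0 err rad Pmax M.k0 hN hs hsN hR0 hℓ hβ hβ' hc1 hc1'
    hc3 hw he hζ hη hη' hb0 herr hrad hrad1 hM.k0_nonneg hR D hD0 hsup hsymm hbud hfin
    (fun i => hplam0 _ (hmem i)) (fun i => Nat.cast_nonneg _)
    (by
      intro i
      have h1 := (hPok _ (hmem i)).2.1
      have h2 := rootb_norm_sum (P.get i).l (hqv _ (hmem i))
      rw [h1] at h2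
      rw [← smul_sub, norm_smul, Real.norm_of_nonneg hNi.le, norm_sub_rev]
      exact mul_le_mul_of_nonneg_left h2 hNi.le)
    (by rw [← rootb_sum_get P Macro.lam]; exact hPlam)
    (by
      rw [← rootb_sum_get P (fun p => (p.l.length : ℝ)), nMicro]
      have : ∀ Q : List (Macro d), (Q.map (fun p => (p.l.length : ℝ))).sum =
          (((Q.map (fun p => p.l.length)).sum : ℕ) : ℝ) := by
        intro Q
        induction Q with
        | nil => simp
        | cons a Q ih =>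
          simp only [List.map_cons, List.sum_cons, ih]
          push_cast
          rfl
      exact this P)
    hPnm hPlen'
    (by
      intro i hi
      have hIni : In (P.get i) := by
        by_contra hcon
        exact hi ((hOmem i).2 hcon)
      have h1 : vl (P.get i) ≤ ((P.get i).l.map (fun q => η0 * ℓ * (q.lam + b0))).sum := by
        refine List.sum_le_sum fun q hq => ?_
        rcases (hPok _ (hmem i)).1 q hq with h | h
        · have h2 := hin _ _ _ _ _ h.1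
          have h3 : q.C.filter (fun x => x ∈ Sin) = q.C := by
            rw [Finset.filter_eq_self]
            exact hIni q hq
          rw [h3] at h2
          have h4 := hM.nonneg _ _ _ _ _ _ h.1
          linarith
        · rw [h.1, h.2.1, Finset.sum_empty]
          have h2 := (hPok _ (hmem i)).2.2.1 q hq
          have : 0 ≤ η0 * ℓ * (q.lam + b0) := by positivity
          linarith
      rw [rootb_sum_affine] at h1
      exact h1)
    (by
      intro i hi
      rcases hmac _ (hPok _ (hmem i)) with h | h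
      · exact absurd h ((hOmem i).1 hi)
      · exact ⟨h.1, h.2.1⟩)
    (by
      intro hne
      obtain ⟨i, hi⟩ := hne
      obtain ⟨P1, P2, p, hPP, hp, hP1⟩ := rootb_first (fun p => ¬ In p) P
        ⟨P.get i, hmem i, (hOmem i).1 hi⟩
      have hpP : p ∈ P := by
        rw [hPP]
        simp
      have h1 := hpre P1 P2 p hPP
      have h2 : rad * N ≤ ‖p.a‖ + 4 * R := by
        rcases hmac p (hPok p hpP) with h | h
        · exact absurd h hp
        · exact h.2.2
      have h3 : ∑ i ∈ Oᶜ, (P.get i).lam = (P.map (fun p => if In p then p.lam else 0)).sum := by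
        rw [rootb_sum_get, ← Finset.sum_add_sum_compl O
          (fun i => if In (P.get i) then (P.get i).lam else 0)]
        have h4 : ∑ i ∈ O, (if In (P.get i) then (P.get i).lam else 0) = 0 :=
          Finset.sum_eq_zero fun i hi => if_neg ((hOmem i).1 hi)
        rw [h4, zero_add]
        refine Finset.sum_congr rfl fun i hi => ?_
        rw [Finset.mem_compl, hOmem, not_not] at hi
        rw [if_pos hi]
      rw [h3, hPP, List.map_append, List.sum_append]
      have h4 : (P1.map Macro.lam).sum = (P1.map (fun p => if In p then p.lam else 0)).sum := by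
        congr 1
        refine List.map_congr_left fun x hx => ?_
        have := hP1 x hx
        rw [not_not] at this
        rw [if_pos this]
      have h5 : 0 ≤ ((p :: P2).map (fun p => if In p then p.lam else 0)).sum := by
        refine List.sum_nonneg ?_
        intro x hx
        obtain ⟨q, hq, rfl⟩ := List.mem_map.1 hx
        have hqP : q ∈ P := by
          rw [hPP]
          exact List.mem_append_right _ hq
        split_ifs
        · exact hplam0 q hqP
        · exact le_refl _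
      rw [h4] at h1
      linarith)
    (by
      intro Λ hΛ1 hΛ2
      refine href P.length hPlen' _ _ Λ ?_ hΛ1 (4 * h0 * P.length) (by positivity) ?_ hΛ2 ?_
      · intro i
        rw [norm_smul, Real.norm_of_nonneg hNi.le]
        have h1 := hPa _ (hmem i)
        have h2 : N⁻¹ * ‖(P.get i).a‖ ≤ N⁻¹ * N :=
          mul_le_mul_of_nonneg_left (h1.trans hLamN) hNi.le
        rw [inv_mul_cancel₀ hN0.ne'] at h2
        exact h2
      · refine le_trans ?_ hhub0
        exact mul_le_mul_of_nonneg_left hPlen' (by positivity)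
      · intro L2 κ2 C2 hC2
        refine hasm S0 N h0 hN0 hh0 ?_ L2 κ2 C2 hC2
        intro hhubM p hp
        exact ⟨fun h => hhub hhubM _ h, fun h => hhub hhubM _ h⟩)
  -- the value
  have h1 : ∑ x ∈ C, m x ≤ (P.map (fun p => (p.l.map (fun q => ∑ x ∈ q.C, m x)).sum)).sum := by
    rw [← rootb_flat Macro.l (fun q => ∑ x ∈ q.C, m x) P]
    refine rootb_cover m hm Micro.C _ C ?_
    intro x hx
    obtain ⟨p, hp, q, hq, hxq⟩ := hcov x hx
    exact ⟨q, List.mem_flatMap.2 ⟨p, hp, hq⟩, hxq⟩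
  have h2 : ∑ i : Fin P.length, vl (P.get i) =
      (P.map (fun p => (p.l.map (fun q => ∑ x ∈ q.C, m x)).sum)).sum -
      (P.map (fun p => (p.l.map Micro.κ).sum)).sum := by
    rw [← rootb_sum_get P vl, ← rootb_sum_sub]
    congr 1
    refine List.map_congr_left fun p _ => ?_
    rw [hvl, ← rootb_sum_sub]
  linarith

end


end MP4fb

end
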