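import Pool.Agent.Lib.MP_4fbc34_pr.MicroB
import Pool.Agent.Lib.MP_4fbc34_pr.MacroB
import Pool.Agent.Lib.MP_4fbc34_pr.RefB
import Pool.Agent.Lib.MP_4fbc34_pr.RootB
import Pool.Agent.Lib.MP_4fbc34_pr.BlocksL
import Pool.Agent.Lib.MP_4fbc34_pr.Hthm

/-!
JOB SlackA: the magnified configuration satisfies the root event with the dead zone.

Let `s = sc κ n'`, `R = κ 2⁻ⁿ N / 16`, `w = 2 δ κ 2⁻ⁿ`, `e = δ s + ε`, `rad = 2⁻ᵐᵈ`.  Introduce `Sin`, `m` and the hypotheses of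
`RootDZ`.
1. `blocks_lattice` gives `tz, ti, τ` and `BlocksOk` for `S = atoms σ ∪ Sin`.
2. `hup` of `micro_bound`: for `z, t, a` and a copy `i`: by `hcopy` the value is at most
   `ℓ (D a (a + s t.1) (s t.2) + ε)`, and `HUpp` bounds `D` by `s (g + δ)`.
3. `macro_bound` for every macro piece (the hypotheses `hval, hnonneg` are `hM.valid, hM.nonneg`; `hball` from `hM.loc` and
   `hM.supp`); with `w = 2 δ κ 2⁻ⁿ` it gives `hmac` of `root_bound`.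
4. `ref_bound` with `S = atoms ω0`, `Gr = Gr2`, `ε := ε2`, gives `href` with `err = 2 Pmax ε2 + 2 k0 Pmax / ℓ`: the
   conditions are `∑ Λ + 5 r2 nP + h <= 1 - c3 + 5 r2 Pmax + c3 / 2 <= 1`, `nP * Bm < Nr * ε2`.
5. hubs: if `M.hub` then `Sin = ∅`; `y ∈ atoms σ` has `N⁻¹ y ∈ cell n' (tz y)` and
   `y - τ ∈ atoms (σ' i) ∩ cell n' (tz y)` (`inner` at the point itself), so by `hflag` there is an atom `y'` of `ω0` in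
   the same cell, and two points of a cell are at distance at most `√d 2⁻ⁿ' <= d 2⁻ⁿ' = h0`.
6. `root_bound` with `h0 = d 2⁻ⁿ'`, `s <= N` (`s <= 1/32`), `3 s <= R` because `3 κ 2⁻ⁿ' / 8 <= κ 2⁻ⁿ / 16` by `hnn`
   (`n + 3 <= n'`); `16 R / N = κ 2⁻ⁿ`.
-/

set_option autoImplicit false

open scoped Classical

noncomputable section

namespace MP4fb

variable {d : ℕ}

private theorem cell_dist (hd : 1 ≤ d) (n : ℕ) (z : Fin d → ℤ) (x y : E d) (hx : x ∈ cell n z)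
    (hy : y ∈ cell n z) : ‖x - y‖ ≤ d * 2⁻¹ ^ n := by
  have h0 : (0 : ℝ) ≤ 2⁻¹ ^ n := by positivity
  have h1 : ∀ i, ‖(x - y) i‖ ^ 2 ≤ (2⁻¹ ^ n : ℝ) ^ 2 := by
    intro i
    have h2 := hx i
    have h3 := hy i
    rw [Real.norm_eq_abs, sq_abs, ← sq_abs]
    apply pow_le_pow_left₀ (abs_nonneg _)
    rw [PiLp.sub_apply, abs_le]
    constructor <;> nlinarith [h2.1, h2.2, h3.1, h3.2]
  rw [EuclideanSpace.norm_eq]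
  have hd' : (1 : ℝ) ≤ d := by exact_mod_cast hd
  apply Real.sqrt_le_iff.2
  refine ⟨by positivity, ?_⟩
  refine (Finset.sum_le_sum fun i _ => h1 i).trans ?_
  rw [Finset.sum_const, Finset.card_univ, Fintype.card_fin, nsmul_eq_mul, mul_pow]
  have h4 : (d : ℝ) ≤ (d : ℝ) ^ 2 := by nlinarith
  exact mul_le_mul_of_nonneg_right h4 (by positivity)

theorem magn_root (hd : 1 ≤ d) (M : Model d) (hM : M.Ok) (Λ : Lat d) (εu mmax : ℝ)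
    (hΛ : Λ.Ok εu mmax)
    (κ δ β c1 c3 rm ε ε2 r2 ℓ ζ η0 b0 Bm B0 Pmax : ℝ) (hκ : 0 < κ) (hκ1 : κ ≤ 1 / 4) (hδ : 0 < δ)
    (hβ : 0 < β) (hβ' : β ≤ 1 / 2) (hc1 : 0 < c1) (hc1' : c1 ≤ 1) (hc3 : 0 ≤ c3) (hε : 0 < ε)
    (hε2 : 0 < ε2) (hr2 : 0 < r2) (hr2' : r2 ≤ 1) (hℓ : 0 < ℓ) (hζ : 0 < ζ) (hη : 0 ≤ η0)
    (hη' : η0 ≤ ζ * β / 4) (hb0 : 0 ≤ b0)
    (net : Finset (E d × ℝ)) (hnet : NetOk net rm c1)
    (D : E d → E d → ℝ → ℝ) (hD : Nice D B0) (n n' md j N : ℕ) (hN : 1 ≤ N) (hmd : md ≤ n)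
    (hnn : n + 3 ≤ n') (hn' : n' ≤ j) (g : (Fin d → ℤ) → E d × ℝ → ℝ) (hg : ∀ z t, 0 ≤ g z t)
    (Bad BadT : Finset (Fin d → ℤ)) (hlow : HLow D net κ δ c1 n g Bad)
    (hupp : HUpp D net rm κ δ n n' g Bad BadT)
    (Gr : Finset (E d)) (hGr : ∀ x : E d, ‖x‖ ≤ d + 3 → ∃ a ∈ Gr, ‖x - a‖ ≤ rm * sc κ n')
    (Gr2 : Finset (E d)) (hGr2 : ∀ x : E d, ‖x‖ ≤ 3 → ∃ a ∈ Gr2, ‖x - a‖ ≤ r2)
    (K2 Nr : ℕ) (hK2 : 1 / r2 + 3 ≤ K2)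
    (hPmax : 200 * (1 + 16 * 2 ^ n / κ) ≤ Pmax) (hNr : Pmax * Bm < Nr * ε2) (hBm0 : 0 ≤ Bm)
    (ω0 : Cfg Λ) (hroot : Root M (atoms Λ (2⁻¹ ^ j) ω0) (massL Λ (2⁻¹ ^ j) ω0) 1 (ζ * ℓ))
    (hBm : ∀ (a b : E d) (lam : ℝ) (C : Finset (E d)) (k : ℝ), lam ≤ 6 →
      M.O (atoms Λ (2⁻¹ ^ j) ω0) a b lam C k → ∑ x ∈ C, massL Λ (2⁻¹ ^ j) ω0 x ≤ Bm * ℓ)
    (hrob : ∀ a ∈ Gr2, ∀ c ∈ Gr2, ∀ k : ℕ, k ≤ K2 → ‖a - c‖ < k * r2 →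
      Rob M (atoms Λ (2⁻¹ ^ j) ω0) (massL Λ (2⁻¹ ^ j) ω0) Nr a c (k * r2)
        (ℓ * (D a c (k * r2) - ε2)))
    (σ : Cfg Λ) (σ' : (Fin d → Fin N) → Cfg Λ) (hmag : Magn Λ κ n n' md j N Bad BadT σ σ')
    (hcopy : ∀ i, ∀ t ∈ net, ∀ a ∈ Gr, ∀ (C : Finset (E d)) (k : ℝ),
      M.O (atoms Λ (2⁻¹ ^ j) (σ' i)) a (a + sc κ n' • t.1) (sc κ n' * (t.2 - rm)) C k →
      ∑ x ∈ C, massL Λ (2⁻¹ ^ j) (σ' i) x - k ≤
        ℓ * (D a (a + sc κ n' • t.1) (sc κ n' * t.2) + ε))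
    (hflag : ∀ i, ∀ z ∈ zbox d n', (atoms Λ (2⁻¹ ^ j) (σ' i) ∩ cell n' z).Nonempty →
      (atoms Λ (2⁻¹ ^ j) ω0 ∩ cell n' z).Nonempty)
    (hR : 8 * (κ * 2⁻¹ ^ n * N / 16) ≤ 2⁻¹ ^ md * N)
    (hbud : 120 * c1 + 2 * δ * κ * 2⁻¹ ^ n * Pmax + c3 + κ * 2⁻¹ ^ n +
      2 * (2 * δ * κ * 2⁻¹ ^ n) ≤ β / 2)
    (hbud2 : 5 * r2 * Pmax ≤ c3 / 2) (hhub0 : 4 * (d * 2⁻¹ ^ n') * Pmax ≤ c3 / 2)
    (hfin : ζ * (120 * c1 + 2 * δ * κ * 2⁻¹ ^ n * Pmax + c3 + κ * 2⁻¹ ^ n +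
      2 * (2 * δ * κ * 2⁻¹ ^ n)) + (2 * Pmax * ε2 + 2 * M.k0 * Pmax / ℓ) +
      2 * δ * κ * 2⁻¹ ^ n * Pmax +
      20 * (1 + 1 / sc κ n') * (δ * sc κ n' + ε + M.k0 / ℓ + η0 * b0) ≤
        ζ * β * 2⁻¹ ^ md / 16) :
    σ ∈ RootDZ M Λ j N md β (η0 * ℓ) b0 (ζ * (1 - β - β * 2⁻¹ ^ md / 16) * ℓ * N) := by
  intro Sin m hhubS hSin hm hmS hin
  obtain ⟨tz, ti, τ, hB⟩ := blocks_lattice Λ εu mmax hΛ κ hκ n n' md j N hN hmd (by omega) hn'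
    Bad BadT σ σ' hmag Sin hSin m hmS
  have hmesh : (0 : ℝ) < 2⁻¹ ^ j := by positivity
  have hN' : (1 : ℝ) ≤ N := by exact_mod_cast hN
  have hN0 : (0 : ℝ) < N := by linarith
  have hpn : (0 : ℝ) < 2⁻¹ ^ n := by positivity
  have hpn' : (0 : ℝ) < 2⁻¹ ^ n' := by positivity
  have hs : 0 < sc κ n' := by
    unfold sc
    positivity
  have hle1 : (2⁻¹ : ℝ) ^ n' ≤ 1 := pow_le_one₀ (by norm_num) (by norm_num)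
  have hle2 : (2⁻¹ : ℝ) ^ md ≤ 1 := pow_le_one₀ (by norm_num) (by norm_num)
  have hk0 := hM.k0_nonneg
  have hP0 : 0 ≤ Pmax := by
    refine le_trans ?_ hPmax
    positivity
  have hRN : 16 * (κ * 2⁻¹ ^ n * N / 16) / N = κ * 2⁻¹ ^ n := by
    field_simp
  have hmic := micro_bound M hM (atoms Λ (2⁻¹ ^ j) σ ∪ Sin) Sin m
    (fun i => atoms Λ (2⁻¹ ^ j) (σ' i)) (fun i => massL Λ (2⁻¹ ^ j) (σ' i)) N κ (2⁻¹ ^ md) rm c1 δ ε ℓ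
    n n' Bad BadT tz ti τ hB hκ hκ1 net hnet Gr hGr g
    (fun z hz hzT hpz t ht a ha hball i C k hO => by
      have h1 := hcopy i t ht a ha C k hO
      have h2 := hupp z hz hzT hpz t ht a hball
      refine h1.trans ?_
      apply mul_le_mul_of_nonneg_left _ hℓ.le
      linarith)
  have hball : ∀ (a b : E d) (lam : ℝ) (C : Finset (E d)) (k : ℝ),
      M.O (atoms Λ (2⁻¹ ^ j) σ ∪ Sin) a b lam C k →
      ∀ x ∈ C, x ∈ atoms Λ (2⁻¹ ^ j) σ ∪ Sin ∧ ‖x - a‖ ≤ lam := by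
    intro a b lam C k hO x hx
    have h1 := hM.supp _ _ _ _ _ _ (hM.loc _ _ _ _ _ _ hO) (Finset.mem_coe.2 hx)
    exact ⟨h1.1, mem_closedBall_iff_norm.1 h1.2⟩
  have hmac := macro_bound M (atoms Λ (2⁻¹ ^ j) σ ∪ Sin) Sin m
    (fun i => atoms Λ (2⁻¹ ^ j) (σ' i)) (fun i => massL Λ (2⁻¹ ^ j) (σ' i)) N κ (2⁻¹ ^ md) rm c1 δ ε ℓ
    n n' Bad BadT tz ti τ hB hN' hκ hκ1 hδ hε hℓ hc1' (by omega) net hnet g hg D hD.nonneg hlow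
    (hM.valid _) hball (hM.nonneg _) hmic
  refine root_bound M hM (atoms Λ (2⁻¹ ^ j) σ ∪ Sin) Sin (atoms Λ (2⁻¹ ^ j) ω0) m hm
    N (sc κ n') (κ * 2⁻¹ ^ n * N / 16) ℓ β c1 c3 (2 * δ * κ * 2⁻¹ ^ n) (δ * sc κ n' + ε) ζ η0 b0
    (2 * Pmax * ε2 + 2 * M.k0 * Pmax / ℓ) (d * 2⁻¹ ^ n') (2⁻¹ ^ md) Pmax hN' hs ?_ ?_ hℓ hβ hβ'
    hc1.le hc1' hc3 (by positivity) (by positivity) hζ hη hη' hb0 (by positivity)
    (by positivity) (by positivity) hle2 hR D hD.nonneg hD.sup hD.symm ?_ ?_ hhub0 ?_ hmac hin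
    ?_ ?_
  · unfold sc
    nlinarith
  · have h1 : (2⁻¹ : ℝ) ^ n' ≤ 2⁻¹ ^ n / 8 := by
      have h2 : (2⁻¹ : ℝ) ^ n' ≤ 2⁻¹ ^ (n + 3) :=
        pow_le_pow_of_le_one (by norm_num) (by norm_num) hnn
      refine h2.trans (le_of_eq ?_)
      rw [pow_add]
      ring
    have h3 : κ * 2⁻¹ ^ n ≤ κ * 2⁻¹ ^ n * N := le_mul_of_one_le_right (by positivity) hN'
    have h4 : κ * 2⁻¹ ^ n' ≤ κ * (2⁻¹ ^ n / 8) := mul_le_mul_of_nonneg_left h1 hκ.le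
    have h5 : 0 < κ * 2⁻¹ ^ n := by positivity
    unfold sc
    linarith
  · have h1 : (N : ℝ) / (κ * 2⁻¹ ^ n * N / 16) = 16 * 2 ^ n / κ := by
      rw [inv_pow]
      field_simp
    rw [h1]
    exact hPmax
  · rw [hRN]
    exact hbud
  · intro hh y hy
    rw [hhubS hh, Set.union_empty] at hy
    have hy' : y ∈ (atoms Λ (2⁻¹ ^ j) σ ∪ Sin) \ Sin :=
      ⟨Or.inl hy, by rw [hhubS hh]; exact Set.notMem_empty y⟩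
    have h1 := hB.box y hy'
    have h2 := hB.pos y hy'
    have h3 := hB.src y hy'
    have h4 := hB.inner y hy' (y - τ (tz y) (ti y)) (by
      rw [sub_self, norm_zero]
      positivity)
    obtain ⟨y', hy1, hy2⟩ := hflag (ti y) (tz y) h1 ⟨_, h3, h4⟩
    exact ⟨y', hy1, cell_dist hd n' (tz y) _ _ hy2 h2⟩
  · intro nP hnP A C Lm hA hval h hh hhc hsumL hasm
    have h1 := ref_bound M hM (atoms Λ (2⁻¹ ^ j) ω0) (massL Λ (2⁻¹ ^ j) ω0)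
      (massL_nonneg Λ εu mmax hΛ _ hmesh ω0) ℓ ζ hℓ hroot D hD.cone Gr2 r2 hr2 hr2' hGr2 K2 hK2 ε2 Bm
      hε2 Nr hBm hrob nP (lt_of_le_of_lt (mul_le_mul_of_nonneg_right hnP hBm0) hNr) A C Lm hA hval h
      hh (by
        have h2 : 5 * r2 * nP ≤ 5 * r2 * Pmax := mul_le_mul_of_nonneg_left hnP (by positivity)
        linarith) hasm
    refine h1.trans ?_
    have h2 : 2 * (nP : ℝ) * ε2 ≤ 2 * Pmax * ε2 := by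
      apply mul_le_mul_of_nonneg_right _ hε2.le
      linarith
    have h3 : 2 * M.k0 * nP / ℓ ≤ 2 * M.k0 * Pmax / ℓ := by
      apply div_le_div_of_nonneg_right _ hℓ.le
      exact mul_le_mul_of_nonneg_left hnP (by linarith)
    linarith
  · rw [hRN]
    exact hfin

end MP4fb

end
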