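import Pool.Agent.Lib.MP_4fbc34_pr.PppA

/-!
JOB SmN: the numbers for the small masses.

Write `λ k = (ν (Ico (δ/2^(k+1)) (δ/2^k))).toReal <= (ν (Ici (δ/2^(k+1)))).toReal` (finite by `nu_fin`), and let `i k` be the least
natural number with `(b / 2^(i k))^d * λ k <= 1`; then `2^(i k) <= 1 + 2 b (λ k)^(1/d)` (if `i k >= 1` the number `i k - 1`
fails).  The sum is at most
`δ ∑ 2^(-k) (H + k + 3) + 2 H b ∑ δ 2^(-k) (λ k)^(1/d) <= δ (2 H + 8) + 8 H b J(δ)`, `J(δ) = ∫_{(0, δ)} ν([t, ∞))^(1/d) dt`: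
`t ↦ ν([t,∞))` is decreasing, so on `(δ/2^(k+2), δ/2^(k+1))` the integrand is at least `(λ k)^(1/d)` and
`δ 2^(-k) (λ k)^(1/d) <= 4 ∫_{(δ/2^(k+2), δ/2^(k+1))} ν([t,∞))^(1/d) dt`, disjoint intervals.
`J(δ) → 0` as `δ → 0` (the integral over `(0, ∞)` is finite by `hG`; dominated convergence or
`tendsto_setLIntegral_zero`).  Choose `δ1` with `δ1 (2 H + 8) <= ε / 2` and `8 H J(δ1) <= ε / 2`; `b >= 1`.
-/

set_option autoImplicit false

open MeasureTheory ProbabilityTheory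
open scoped ENNReal Classical

noncomputable section

namespace MP4fb

/-- the choice of the level -/
theorem SmN_level (x : ℝ) : ∃ i : ℕ, x ≤ 2 ^ i ∧ (2 : ℝ) ^ i ≤ 1 + 2 * max x 0 := by
  classical
  have hex : ∃ i : ℕ, x ≤ 2 ^ i := by
    obtain ⟨n, hn⟩ := pow_unbounded_of_one_lt x (one_lt_two)
    exact ⟨n, hn.le⟩
  refine ⟨Nat.find hex, Nat.find_spec hex, ?_⟩
  rcases Nat.eq_zero_or_pos (Nat.find hex) with h0 | hpos
  · rw [h0, pow_zero]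
    have : (0 : ℝ) ≤ max x 0 := le_max_right _ _
    linarith
  · obtain ⟨j, hj⟩ : ∃ j, Nat.find hex = j + 1 := ⟨Nat.find hex - 1, by omega⟩
    have h1 : ¬ x ≤ 2 ^ j := Nat.find_min hex (by omega)
    push Not at h1
    rw [hj, pow_succ]
    have h2 : x ≤ max x 0 := le_max_left _ _
    linarith

/-- the dyadic intervals -/
def SmN_I (δ : ℝ) (k : ℕ) : Set ℝ := Set.Ico (δ / 2 ^ (k + 2)) (δ / 2 ^ (k + 1))

theorem SmN_I_disjoint {δ : ℝ} (hδ : 0 < δ) : Pairwise (Function.onFun Disjoint (SmN_I δ)) := by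
  have key : ∀ k l : ℕ, k < l → Disjoint (SmN_I δ k) (SmN_I δ l) := by
    intro k l hkl
    rw [Set.disjoint_left]
    intro t ht ht'
    have h1 : δ / 2 ^ (l + 1) ≤ δ / 2 ^ (k + 2) :=
      div_le_div_of_nonneg_left hδ.le (by positivity)
        (pow_le_pow_right₀ one_le_two (by omega))
    exact absurd ht'.2 (not_lt.2 (h1.trans ht.1))
  intro k l hkl
  rcases lt_or_gt_of_ne hkl with h | h
  · exact key k l h
  · exact (key l k h).symm

theorem SmN_I_subset {δ : ℝ} (hδ : 0 < δ) (k : ℕ) : SmN_I δ k ⊆ Set.Ioo 0 δ := by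
  intro t ht
  have h1 : 0 < δ / 2 ^ (k + 2) := by positivity
  have h2 : δ / 2 ^ (k + 1) ≤ δ := div_le_self hδ.le (one_le_pow₀ one_le_two)
  exact ⟨lt_of_lt_of_le h1 ht.1, lt_of_lt_of_le ht.2 h2⟩

theorem SmN_vol (δ : ℝ) (k : ℕ) : volume (SmN_I δ k) = ENNReal.ofReal (δ / 2 ^ (k + 2)) := by
  unfold SmN_I
  rw [Real.volume_Ico]
  congr 1
  field_simp
  ring

/-- the sum over the dyadic intervals -/
theorem SmN_sum (f : ℝ → ℝ≥0∞) (hf : ∀ s t : ℝ, s ≤ t → f t ≤ f s) {δ : ℝ} (hδ : 0 < δ) :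
    ∑' k : ℕ, ENNReal.ofReal (δ / 2 ^ k) * f (δ / 2 ^ (k + 1)) ≤
      4 * ∫⁻ t in Set.Ioo 0 δ, f t := by
  have h1 : ∀ k : ℕ, ENNReal.ofReal (δ / 2 ^ k) * f (δ / 2 ^ (k + 1)) ≤
      4 * ∫⁻ t in SmN_I δ k, f t := by
    intro k
    have h2 : f (δ / 2 ^ (k + 1)) * volume (SmN_I δ k) ≤ ∫⁻ t in SmN_I δ k, f t := by
      rw [← setLIntegral_const]
      refine setLIntegral_mono' measurableSet_Ico fun t ht => ?_
      exact hf _ _ ht.2.le
    rw [SmN_vol] at h2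
    have h3 : ENNReal.ofReal (δ / 2 ^ k) = 4 * ENNReal.ofReal (δ / 2 ^ (k + 2)) := by
      have e4 : (4 : ℝ≥0∞) = ENNReal.ofReal 4 := by
        rw [ENNReal.ofReal_ofNat]
      rw [e4, ← ENNReal.ofReal_mul (by norm_num)]
      congr 1
      field_simp
      ring
    calc ENNReal.ofReal (δ / 2 ^ k) * f (δ / 2 ^ (k + 1))
        = 4 * (f (δ / 2 ^ (k + 1)) * ENNReal.ofReal (δ / 2 ^ (k + 2))) := by
          rw [h3]; ring
      _ ≤ 4 * ∫⁻ t in SmN_I δ k, f t := by gcongr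
  calc ∑' k : ℕ, ENNReal.ofReal (δ / 2 ^ k) * f (δ / 2 ^ (k + 1))
      ≤ ∑' k : ℕ, 4 * ∫⁻ t in SmN_I δ k, f t := ENNReal.tsum_le_tsum h1
    _ = 4 * ∑' k : ℕ, ∫⁻ t in SmN_I δ k, f t := ENNReal.tsum_mul_left
    _ = 4 * ∫⁻ t in ⋃ k, SmN_I δ k, f t := by
        have hm : ∀ k, MeasurableSet (SmN_I δ k) := fun k => measurableSet_Ico
        rw [lintegral_iUnion hm (SmN_I_disjoint hδ)]
    _ ≤ 4 * ∫⁻ t in Set.Ioo 0 δ, f t := by
        gcongr
        exact Set.iUnion_subset fun k => SmN_I_subset hδ k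

theorem small_levels (d : ℕ) (hd : 1 ≤ d) (ν : Measure ℝ) (hν : ν (Set.Iic 0) = 0)
    (hG : ∫⁻ t in Set.Ioi (0 : ℝ), (ν (Set.Ici t)) ^ ((d : ℝ)⁻¹) ≠ ∞) (H ε : ℝ) (hH : 0 ≤ H)
    (hε : 0 < ε) :
    ∃ δ1 : ℝ, 0 < δ1 ∧ ∀ δ : ℝ, 0 < δ → δ ≤ δ1 → ∀ b : ℝ, 1 ≤ b → ∃ i : ℕ → ℕ,
      (∀ k, (b / 2 ^ (i k)) ^ d * (ν (Set.Ico (δ / 2 ^ (k + 1)) (δ / 2 ^ k))).toReal ≤ 1) ∧
      Summable (fun k : ℕ => δ / 2 ^ k * (H * 2 ^ (i k) + k + 3)) ∧
      ∑' k : ℕ, δ / 2 ^ k * (H * 2 ^ (i k) + k + 3) ≤ ε * b := by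
  set f : ℝ → ℝ≥0∞ := fun t => (ν (Set.Ici t)) ^ ((d : ℝ)⁻¹) with hf
  have hd0 : (0 : ℝ) < (d : ℝ)⁻¹ := by
    have : (0 : ℝ) < d := by exact_mod_cast hd
    positivity
  have hfanti : ∀ s t : ℝ, s ≤ t → f t ≤ f s := by
    intro s t hst
    exact ENNReal.rpow_le_rpow (measure_mono (Set.Ici_subset_Ici.2 hst)) hd0.le
  have hffin : ∀ t : ℝ, 0 < t → f t ≠ ∞ := fun t ht =>
    ENNReal.rpow_ne_top_of_nonneg hd0.le (nu_fin ν hd hG t ht)
  -- the choice of `δ1`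
  set η : ℝ := ε / (16 * (H + 1)) with hη
  have hη0 : 0 < η := by positivity
  have hη1 : 8 * H * η ≤ ε / 2 := by
    rw [hη]
    have h1 : 8 * H * (ε / (16 * (H + 1))) = ε / 2 * (H / (H + 1)) := by
      field_simp
      ring
    rw [h1]
    have h2 : H / (H + 1) ≤ 1 := by
      rw [div_le_one (by linarith)]
      linarith
    have h3 : ε / 2 * (H / (H + 1)) ≤ ε / 2 * 1 := mul_le_mul_of_nonneg_left h2 (by positivity)
    linarith
  obtain ⟨δ', hδ'0, hδ'⟩ := exists_pos_setLIntegral_lt_of_measure_lt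
    (μ := volume.restrict (Set.Ioi (0 : ℝ))) (f := f) hG
    (ε := ENNReal.ofReal η) (by simpa using hη0)
  obtain ⟨δ2, hδ20, hδ2⟩ : ∃ δ2 : ℝ, 0 < δ2 ∧ ENNReal.ofReal δ2 < δ' := by
    rcases eq_or_ne δ' ∞ with h | h
    · exact ⟨1, one_pos, by rw [h]; exact ENNReal.ofReal_lt_top⟩
    · have h1 : 0 < δ'.toReal := ENNReal.toReal_pos hδ'0.ne' h
      refine ⟨δ'.toReal / 2, by positivity, ?_⟩
      rw [ENNReal.ofReal_lt_iff_lt_toReal (by positivity) h]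
      linarith
  have hJ : ∀ δ : ℝ, 0 < δ → δ ≤ δ2 → ∫⁻ t in Set.Ioo 0 δ, f t < ENNReal.ofReal η := by
    intro δ hδ hδδ
    have h1 := hδ' (Set.Ioo 0 δ) (by
      rw [Measure.restrict_apply measurableSet_Ioo]
      refine lt_of_le_of_lt (measure_mono Set.inter_subset_left) ?_
      rw [Real.volume_Ioo, sub_zero]
      exact lt_of_le_of_lt (ENNReal.ofReal_le_ofReal hδδ) hδ2)
    rw [Measure.restrict_restrict measurableSet_Ioo] at h1
    have h2 : Set.Ioo 0 δ ∩ Set.Ioi 0 = Set.Ioo 0 δ :=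
      Set.inter_eq_left.2 fun t ht => ht.1
    rwa [h2] at h1
  refine ⟨min δ2 (ε / (2 * (2 * H + 8))), lt_min hδ20 (by positivity), ?_⟩
  intro δ hδ0 hδ1 b hb
  have hδ2' : δ ≤ δ2 := hδ1.trans (min_le_left _ _)
  have hδ3 : δ * (2 * H + 8) ≤ ε / 2 := by
    have h1 := hδ1.trans (min_le_right _ _)
    rw [le_div_iff₀ (by positivity)] at h1
    linarith
  have hb0 : 0 < b := by linarith
  set r : ℕ → ℝ := fun k => (f (δ / 2 ^ (k + 1))).toReal with hr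
  have hr0 : ∀ k, 0 ≤ r k := fun k => ENNReal.toReal_nonneg
  have hpos : ∀ k : ℕ, 0 < δ / 2 ^ (k + 1) := fun k => by positivity
  choose i hi1 hi2 using fun k => SmN_level (b * r k)
  have hi2' : ∀ k, (2 : ℝ) ^ (i k) ≤ 1 + 2 * (b * r k) := by
    intro k
    have h1 := hi2 k
    rwa [max_eq_left (mul_nonneg hb0.le (hr0 k))] at h1
  -- the sum of `a k = δ / 2 ^ k * r k`
  have hE : ∑' k : ℕ, ENNReal.ofReal (δ / 2 ^ k * r k) ≤ ENNReal.ofReal (4 * η) := by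
    have h1 : ∀ k : ℕ, ENNReal.ofReal (δ / 2 ^ k * r k) =
        ENNReal.ofReal (δ / 2 ^ k) * f (δ / 2 ^ (k + 1)) := by
      intro k
      rw [ENNReal.ofReal_mul (by positivity), hr, ENNReal.ofReal_toReal (hffin _ (hpos k))]
    simp_rw [h1]
    refine (SmN_sum f hfanti hδ0).trans ?_
    rw [ENNReal.ofReal_mul (by norm_num), ENNReal.ofReal_ofNat]
    gcongr
    exact (hJ δ hδ0 hδ2').le
  have hEtop : ∑' k : ℕ, ENNReal.ofReal (δ / 2 ^ k * r k) ≠ ∞ :=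
    ne_top_of_le_ne_top ENNReal.ofReal_ne_top hE
  have ha0 : ∀ k : ℕ, 0 ≤ δ / 2 ^ k * r k := fun k => mul_nonneg (by positivity) (hr0 k)
  have hasum : Summable fun k : ℕ => δ / 2 ^ k * r k := by
    have h1 := ENNReal.summable_toReal hEtop
    refine h1.congr fun k => ?_
    exact ENNReal.toReal_ofReal (ha0 k)
  have hatsum : ∑' k : ℕ, δ / 2 ^ k * r k ≤ 4 * η := by
    have h1 : ∑' k : ℕ, δ / 2 ^ k * r k
        = (∑' k : ℕ, ENNReal.ofReal (δ / 2 ^ k * r k)).toReal := by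
      rw [ENNReal.tsum_toReal_eq (fun k => ENNReal.ofReal_ne_top)]
      exact tsum_congr fun k => (ENNReal.toReal_ofReal (ha0 k)).symm
    rw [h1]
    have h2 := ENNReal.toReal_mono ENNReal.ofReal_ne_top hE
    rwa [ENNReal.toReal_ofReal (by positivity)] at h2
  -- the dominating series
  have hg1 : HasSum (fun k : ℕ => δ * (H + 3) * (1 / 2 : ℝ) ^ k) (δ * (H + 3) * 2) :=
    hasSum_geometric_two.mul_left _
  have hg2 : HasSum (fun k : ℕ => δ * ((k : ℝ) * (1 / 2 : ℝ) ^ k)) (δ * 2) := by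
    have h1 := hasSum_coe_mul_geometric_of_norm_lt_one (𝕜 := ℝ) (r := 1 / 2) (by norm_num)
    have h2 : (1 / 2 : ℝ) / (1 - 1 / 2) ^ 2 = 2 := by norm_num
    rw [h2] at h1
    exact h1.mul_left _
  have hg3 : HasSum (fun k : ℕ => 2 * H * b * (δ / 2 ^ k * r k))
      (2 * H * b * ∑' k : ℕ, δ / 2 ^ k * r k) := hasum.hasSum.mul_left _
  have hg := (hg1.add hg2).add hg3
  have hle : ∀ k : ℕ, δ / 2 ^ k * (H * 2 ^ (i k) + k + 3) ≤
      δ * (H + 3) * (1 / 2 : ℝ) ^ k + δ * ((k : ℝ) * (1 / 2 : ℝ) ^ k) +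
        2 * H * b * (δ / 2 ^ k * r k) := by
    intro k
    have h1 : H * (2 : ℝ) ^ (i k) ≤ H * (1 + 2 * (b * r k)) :=
      mul_le_mul_of_nonneg_left (hi2' k) hH
    have h2 : δ / 2 ^ k * (H * 2 ^ (i k) + k + 3) ≤
        δ / 2 ^ k * (H * (1 + 2 * (b * r k)) + k + 3) :=
      mul_le_mul_of_nonneg_left (by linarith) (by positivity)
    refine h2.trans (le_of_eq ?_)
    have h3 : (1 / 2 : ℝ) ^ k = 1 / 2 ^ k := by
      rw [div_pow, one_pow]
    rw [h3]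
    ring
  have hterm0 : ∀ k : ℕ, 0 ≤ δ / 2 ^ k * (H * 2 ^ (i k) + k + 3) := fun k => by positivity
  have hS : Summable (fun k : ℕ => δ / 2 ^ k * (H * 2 ^ (i k) + k + 3)) :=
    Summable.of_nonneg_of_le hterm0 hle hg.summable
  refine ⟨i, ?_, hS, ?_⟩
  · intro k
    have h1 : (ν (Set.Ico (δ / 2 ^ (k + 1)) (δ / 2 ^ k))).toReal ≤ (r k) ^ d := by
      have h2 : (r k) ^ d = (ν (Set.Ici (δ / 2 ^ (k + 1)))).toReal := by
        rw [hr]
        simp only [hf]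
        rw [← ENNReal.toReal_pow, ← ENNReal.rpow_natCast, ← ENNReal.rpow_mul,
          inv_mul_cancel₀ (by positivity), ENNReal.rpow_one]
      rw [h2]
      exact ENNReal.toReal_mono (nu_fin ν hd hG _ (hpos k))
        (measure_mono fun t ht => ht.1)
    have h3 : (0 : ℝ) < 2 ^ (i k) := by positivity
    calc (b / 2 ^ (i k)) ^ d * (ν (Set.Ico (δ / 2 ^ (k + 1)) (δ / 2 ^ k))).toReal
        ≤ (b / 2 ^ (i k)) ^ d * (r k) ^ d := mul_le_mul_of_nonneg_left h1 (by positivity)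
      _ = (b * r k / 2 ^ (i k)) ^ d := by
          rw [← mul_pow]
          congr 1
          ring
      _ ≤ 1 := by
          apply pow_le_one₀
          · exact div_nonneg (mul_nonneg hb0.le (hr0 k)) h3.le
          · rw [div_le_one h3]
            exact hi1 k
  · have h1 : ∑' k : ℕ, δ / 2 ^ k * (H * 2 ^ (i k) + k + 3) ≤
        δ * (H + 3) * 2 + δ * 2 + 2 * H * b * ∑' k : ℕ, δ / 2 ^ k * r k := by
      rw [← hg.tsum_eq]
      exact hS.tsum_le_tsum hle hg.summable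
    have h2 : 2 * H * b * ∑' k : ℕ, δ / 2 ^ k * r k ≤ 2 * H * b * (4 * η) :=
      mul_le_mul_of_nonneg_left hatsum (by positivity)
    have h3 : 2 * H * b * (4 * η) = (8 * H * η) * b := by ring
    have h4 : (8 * H * η) * b ≤ ε / 2 * b := mul_le_mul_of_nonneg_right hη1 hb0.le
    have h5 : ε / 2 ≤ ε / 2 * b := by nlinarith
    nlinarith

end MP4fb

end
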