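import Mathlib

/-!
MP_4fbc34_pr, the definitions used in the statement: Euclidean space, polygons, Poisson point processes of
marked points, and the functionals `P(ℓ)` and `A^(q)(ℓ)`.
-/

set_option autoImplicit false

open MeasureTheory ProbabilityTheory
open scoped ENNReal Classical

noncomputable section

namespace MP4fb

/-- Euclidean space. -/
abbrev E (d : ℕ) := EuclideanSpace ℝ (Fin d)

variable {d : ℕ}

/-- The length `‖x_0 - x_1‖ + ‖x_1 - x_2‖ + ...` of a polygon. -/
def plen : List (E d) → ℝ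
  | x :: y :: l => ‖x - y‖ + plen (y :: l)
  | _ => 0

/-- The number of points of the configuration `X` in the set `B`. -/
def count (X B : Set (E d × ℝ)) : ℕ∞ := (X ∩ B).encard

/-- The intensity measure `Leb ⊗ ν` on `ℝ^d × ℝ`. -/
def intensity (d : ℕ) (ν : Measure ℝ) : Measure (E d × ℝ) := (volume : Measure (E d)).prod ν

/-- `Ξ` is a Poisson point process on `ℝ^d × (0, ∞)` with intensity `Leb ⊗ ν`: `Ξ ω` is the set of the points
`(z_n, t_n)`, all marks are positive, the number of points in a measurable set of finite intensity `λ` has the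
Poisson law with parameter `λ`, and the numbers of points in disjoint measurable sets are independent. -/
structure IsPoisson {Ω : Type*} [MeasurableSpace Ω] (μ : Measure Ω) (Ξ : Ω → Set (E d × ℝ))
    (ν : Measure ℝ) : Prop where
  pos : ∀ ω, ∀ p ∈ Ξ ω, 0 < p.2
  meas : ∀ B : Set (E d × ℝ), MeasurableSet B → Measurable (fun ω => count (Ξ ω) B)
  law : ∀ B : Set (E d × ℝ), MeasurableSet B → intensity d ν B ≠ ∞ → ∀ n : ℕ,
    μ {ω | count (Ξ ω) B = n} = ENNReal.ofReal (Real.exp (-(intensity d ν B).toReal) *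
      (intensity d ν B).toReal ^ n / n.factorial)
  indep : ∀ (n : ℕ) (B : Fin n → Set (E d × ℝ)), (∀ i, MeasurableSet (B i)) →
    Pairwise (Function.onFun Disjoint B) → iIndepFun (fun i ω => count (Ξ ω) (B i)) μ

/-- The mass of the point `x`: the sum of the marks `t` with `(x, t) ∈ X`. -/
def mass (X : Set (E d × ℝ)) (x : E d) : ℝ≥0∞ := ∑' t : {t : ℝ // (x, t) ∈ X}, ENNReal.ofReal t

/-- The set `S` of the positions of the points. -/
def psupp (X : Set (E d × ℝ)) : Set (E d) := {x | ∃ t, (x, t) ∈ X}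

/-- `P(ℓ)`: the supremum of the mass of the set of vertices over the paths `x_0 = 0, x_1, …, x_r` of length at
most `ℓ`. -/
def Pval (X : Set (E d × ℝ)) (ℓ : ℝ) : ℝ≥0∞ :=
  ⨆ (l : List (E d)) (_ : plen (0 :: l) ≤ ℓ), ∑ x ∈ (0 :: l).toFinset, mass X x

/-- The length of a finite graph with vertices in Euclidean space: the sum of `‖x - y‖` over the edges. -/
def glen (V : Finset (E d)) (G : SimpleGraph V) : ℝ :=
  ∑ e ∈ G.edgeFinset,
    Sym2.lift ⟨fun (x y : V) => ‖(x : E d) - y‖, fun _ _ => norm_sub_rev _ _⟩ e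

/-- `A^(q)(ℓ)`: the supremum over the animals `(V, G)` (finite connected graphs with
`length + dist(0, V) ≤ ℓ`, or the empty animal, of value `0`) of the mass of `V` minus `q` times the number of
vertices which are not in `S` (`∞ * 0 = 0`). -/
def Aval (q : ℝ≥0∞) (X : Set (E d × ℝ)) (ℓ : ℝ) : EReal :=
  max 0 (⨆ (V : Finset (E d)) (G : SimpleGraph V) (_ : G.Connected)
    (_ : glen V G + Metric.infDist 0 (V : Set (E d)) ≤ ℓ),
    (((∑ x ∈ V, mass X x : ℝ≥0∞) : EReal) -
      ((q * ((V.filter (fun x => x ∉ psupp X)).card : ℝ≥0∞) : ℝ≥0∞) : EReal)))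

/-- The functionals of the problem: `P`, or `A^(q)` with `q ∈ [0, ∞]`. -/
inductive GType
  | path
  | animal (q : ℝ≥0∞)

/-- The value `G(ℓ)` of the functional `G` for the configuration `X`. -/
def Gval (G : GType) (X : Set (E d × ℝ)) (ℓ : ℝ) : EReal :=
  match G with
  | .path => (Pval X ℓ : EReal)
  | .animal q => Aval q X ℓ

end MP4fb

end
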