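import Pool.Agent.Lib.MP_4fbc34_pr.LowT

/-!
JOB UppT: upper bound at small scales for most points of a cell.

Write `t = (v, lam)`, `lam0 = (‖v‖ + lam) / 2`, and choose `ρ` small with `lam - ρ > lam0` and
`η = ρ / (lam - lam0)` so small that `C0 lam η` is tiny compared with `ε²`.  Let `h, h'` be densities for `(v, lam)`
and `(v, lam - ρ)` on an open neighbourhood (here: on the cell), `g, g'` constants with `∫_{cell} |h - g|`,
`∫_{cell} |h' - g'| <= τ vol`.  By `budget_lim` on the cell, `(1 - η) ∫ h <= ∫ h'`, hence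
`g - g' <= η C0 lam + 2 τ` (use `∫ h <= C0 lam vol`), and also `g' <= g + 2 τ` (monotonicity in the budget).
For `s` small let `r = ρ s / (4 (√d + 1))`, `Q_s(x) = cube x r`.  For `x` in the cell, away from its boundary, by the
cone property `phi_s(lam)(x) >= average over x' ∈ Q_s(x) of phi_s(lam - ρ)(x')` and, for `m >= 1`, as in LowT,
`>= (1/m) ∑_{i<m} ( average of h' over Q_s(x) + (i s/m) v ) - 2 d C0 lam ‖v‖ s / (m r)`; the last term is
`C / (m ρ)`, at most `ε''` for a fixed large `m`.  Call the main term `(A_s h')(x)`; it is an average of translates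
of `h'` by vectors of length at most `C s`.  So `ψ_s = phi_s(lam) - A_s h' + ε'' >= 0` on the cell without a
boundary layer of width `C s`, and `∫ ψ_s <= ∫_{cell} phi_s(lam) - ∫_{cell} h' + ε'' vol + O(s)
-> ∫_{cell} h - ∫_{cell} h' + ε'' vol <= (η C0 lam + 2 τ + ε'') vol` up to constants (Fubini for the averages; layers
of width `C s` have volume `O(s)` and all functions are bounded).  Moreover
`∫ |A_s h' - g'| <= ∫_{cell} |h' - g'| <= τ vol` over the smaller cell.  If `phi_s(lam)(x) > g + ε` then either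
`|A_s h' - g'|(x) > ε/4` (volume at most `4 τ / ε vol`) or
`ψ_s(x) >= g + ε - g' - ε/4 >= ε/2 - 2 τ >= ε / 4` (volume at most `4 ∫ ψ_s / ε`).  Choose `η, ε'', τ` small compared
with `ε²`, and `s0` small so that the boundary layers are small.
-/

set_option autoImplicit false

open MeasureTheory Filter Topology
open scoped ENNReal

noncomputable section

namespace MP4fb

variable {d : ℕ} {D : E d → E d → ℝ → ℝ} {C0 : ℝ}

/-- Averages over translated cubes. -/
private theorem uppT_avg (hd : 1 ≤ d) (f : E d → ℝ) (hfm : Measurable f) (hf : Integrable f) (r : ℝ)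
    (hr : 0 ≤ r) :
    Integrable (fun x => ∫ y in cube (0 : E d) r, f (y + x)) ∧
      ∫ x, ∫ y in cube (0 : E d) r, f (y + x) = r ^ d * ∫ x, f x := by
  have hvol : volume (cube (0 : E d) r) = ENNReal.ofReal (r ^ d) := vol_cube 0 r hr hd
  have : IsFiniteMeasure ((volume : Measure (E d)).restrict (cube (0 : E d) r)) :=
    ⟨by rw [Measure.restrict_apply_univ, hvol]; exact ENNReal.ofReal_lt_top⟩
  have hI : Integrable (Function.uncurry fun x y : E d => f (y + x))
      ((volume : Measure (E d)).prod ((volume : Measure (E d)).restrict (cube (0 : E d) r))) := by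
    refine (integrable_prod_iff' ?_).2 ⟨Filter.Eventually.of_forall fun y => ?_, ?_⟩
    · exact (hfm.comp (measurable_snd.add measurable_fst)).aestronglyMeasurable
    · exact hf.comp_add_left y
    · have : (fun y : E d => ∫ x, ‖Function.uncurry (fun x y : E d => f (y + x)) (x, y)‖) =
          fun _ => ∫ x, ‖f x‖ := by
        funext y
        simp only [Function.uncurry_apply_pair]
        exact integral_add_left_eq_self (fun x => ‖f x‖) y
      rw [this]
      exact integrable_const _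
  refine ⟨hI.integral_prod_left, ?_⟩
  rw [integral_integral_swap hI]
  have : (fun y : E d => ∫ x, f (y + x)) = fun _ => ∫ x, f x := by
    funext y
    exact integral_add_left_eq_self f y
  rw [this, setIntegral_const, smul_eq_mul, Measure.real, hvol, ENNReal.toReal_ofReal (by positivity)]

/-- Points of a cube are close to its corner. -/
private theorem uppT_norm (x x' : E d) (r : ℝ) (hr : 0 ≤ r) (h : x' ∈ cube x r) :
    ‖x' - x‖ ≤ Real.sqrt d * r := by
  rw [EuclideanSpace.norm_eq]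
  have h1 : ∑ i, ‖(x' - x) i‖ ^ 2 ≤ (Real.sqrt d * r) ^ 2 := by
    have h2 : ∀ i ∈ (Finset.univ : Finset (Fin d)), ‖(x' - x) i‖ ^ 2 ≤ r ^ 2 := by
      intro i _
      have h3 := h i
      have h4 : (x' - x) i = x' i - x i := rfl
      rw [h4, Real.norm_eq_abs, sq_abs]
      nlinarith [h3.1, h3.2]
    calc ∑ i, ‖(x' - x) i‖ ^ 2 ≤ ∑ _i : Fin d, r ^ 2 := Finset.sum_le_sum h2
      _ = (d : ℝ) * r ^ 2 := by simp
      _ = (Real.sqrt d * r) ^ 2 := by rw [mul_pow, Real.sq_sqrt (Nat.cast_nonneg d)]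
  calc Real.sqrt (∑ i, ‖(x' - x) i‖ ^ 2) ≤ Real.sqrt ((Real.sqrt d * r) ^ 2) := Real.sqrt_le_sqrt h1
    _ = Real.sqrt d * r := Real.sqrt_sq (by positivity)

private theorem uppT_int (c : E d) (r : ℝ) (hr : 0 ≤ r) (hd : 1 ≤ d) (f : E d → ℝ) (B : ℝ)
    (hf : Measurable f) (h0 : ∀ x, |f x| ≤ B) : IntegrableOn f (cube c r) := by
  have hvol : volume (cube c r) = ENNReal.ofReal (r ^ d) := vol_cube c r hr hd
  refine IntegrableOn.of_bound ?_ hf.aestronglyMeasurable B
    (Filter.Eventually.of_forall fun x => by simpa using h0 x)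
  rw [hvol]
  exact ENNReal.ofReal_lt_top

/-- Pointwise lower bound. -/
private theorem uppT_point (hd : 1 ≤ d) (hD : Nice D C0) (v : E d) (lam mu : ℝ) (hmu : ‖v‖ < mu)
    (Q : Set (E d)) (h' : E d → ℝ)
    (hh : IsDens D v mu Q h') (g' : ℝ) (m : ℕ) (hm : 1 ≤ m) (s r : ℝ) (hs : 0 < s) (hr : 0 < r)
    (hrs : 2 * (Real.sqrt d * r) ≤ (lam - mu) * s) (x : E d)
    (hx : ∀ i < m, cube (x + ((i : ℝ) * (s / m)) • v) r ⊆ Q) :
    g' - (1 / (m * r ^ d)) * (∑ i ∈ Finset.range m,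
        (∫ y in cube (x + ((i : ℝ) * (s / m)) • v) r, Q.indicator (fun y => |h' y - g'|) y))
      - 2 * d * (C0 * mu) * ‖v‖ * s / (m * r) ≤ phi D v lam s x := by
  obtain ⟨hm', h0, ⟨B, hB⟩, hlim⟩ := hh
  have hmR : (0 : ℝ) < m := by exact_mod_cast hm
  have hmu0 : 0 < mu := lt_of_le_of_lt (norm_nonneg v) hmu
  have hsm : 0 < s / m := div_pos hs hmR
  set c : ℕ → E d := fun i => x + ((i : ℝ) * (s / m)) • v with hc
  -- integral of the rate at scale s / m
  have hvol : ∀ a : E d, (volume : Measure (E d)).real (cube a r) = r ^ d := by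
    intro a
    rw [Measure.real, vol_cube a r hr.le hd, ENNReal.toReal_ofReal (by positivity)]
  have hphim : Measurable (phi D v mu (s / m)) := phi_meas hD v mu (s / m)
  have hphib : ∀ y, |phi D v mu (s / m) y| ≤ C0 * mu := by
    intro y
    rw [abs_of_nonneg (phi_nonneg hD v mu _ hsm y)]
    exact phi_le hD v mu _ hsm hmu0.le y
  have step1 : ∀ i < m, (∫ y in cube (c i) r, h' y) - 2 * d * (C0 * mu) * r ^ (d - 1) * (‖v‖ * (s / m))
      ≤ ∫ y in cube (c i) r, phi D v mu (s / m) y := by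
    intro i hi
    obtain ⟨l, hl1, hl2⟩ := cube_lim hd hD v mu hmu (c i) r hr
    have hl3 := hlim (c i) r hr (hx i hi)
    have hl4 : l = ∫ y in cube (c i) r, h' y := tendsto_nhds_unique hl1 hl3
    have := hl2 (s / m) hsm
    rw [hl4] at this
    linarith
  have step2 : ∀ i < m, g' * r ^ d - (∫ y in cube (c i) r, Q.indicator (fun y => |h' y - g'|) y)
      ≤ ∫ y in cube (c i) r, h' y := by
    intro i hi
    have e1 : ∫ y in cube (c i) r, Q.indicator (fun y => |h' y - g'|) y =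
        ∫ y in cube (c i) r, |h' y - g'| := by
      refine setIntegral_congr_fun (meas_cube _ _) fun y hy => ?_
      exact Set.indicator_of_mem (hx i hi hy) _
    have i1 : IntegrableOn h' (cube (c i) r) :=
      uppT_int _ r hr.le hd h' B hm' (fun y => by rw [abs_of_nonneg (h0 y)]; exact hB y)
    have i2 : IntegrableOn (fun y => |h' y - g'|) (cube (c i) r) := by
      refine uppT_int _ r hr.le hd _ (B + |g'|) ((hm'.sub_const g').abs) fun y => ?_
      rw [abs_abs]
      calc |h' y - g'| ≤ |h' y| + |g'| := abs_sub _ _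
        _ ≤ B + |g'| := by
          rw [abs_of_nonneg (h0 y)]
          linarith [hB y]
    have e2 : g' * r ^ d = ∫ y in cube (c i) r, g' := by
      rw [setIntegral_const, smul_eq_mul, hvol, mul_comm]
    have hfin : volume (cube (c i) r) ≠ ⊤ := by
      rw [vol_cube _ r hr.le hd]
      exact ENNReal.ofReal_ne_top
    have i0 : IntegrableOn (fun _ : E d => g') (cube (c i) r) := integrableOn_const hfin
    rw [e1, e2, ← integral_sub i0 i2]
    refine setIntegral_mono (i0.sub i2) i1 fun y => ?_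
    show g' - |h' y - g'| ≤ h' y
    have := neg_abs_le (h' y - g')
    linarith
  -- splitting
  have hfl : ⌊s / (s / m)⌋₊ = m := by
    have : s / (s / m) = (m : ℝ) := by field_simp
    rw [this, Nat.floor_natCast]
  have step3 : ∀ x' ∈ cube x r, (1 / (m : ℝ)) * ∑ i ∈ Finset.range m,
      phi D v mu (s / m) (x' + ((i : ℝ) * (s / m)) • v) ≤ phi D v lam s x := by
    intro x' hx'
    have h1 := split_floor hD v mu hmu x' s (s / m) hsm (div_le_self hs.le (by exact_mod_cast hm))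
    rw [hfl] at h1
    have h2 : D x' (x' + s • v) (s * mu) ≤ D x (x + s • v) (s * lam) := by
      refine hD.cone _ _ _ _ _ _ ?_
      have h3 : x' + s • v - (x + s • v) = x' - x := by abel
      rw [h3]
      have h4 := uppT_norm x x' r hr.le hx'
      nlinarith
    have h5 : ∀ i : ℕ, phi D v mu (s / m) (x' + ((i : ℝ) * (s / m)) • v) =
        (m / s) * D (x' + ((i : ℝ) * (s / m)) • v) (x' + ((i : ℝ) * (s / m)) • v + (s / m) • v)
          (s / m * mu) := by
      intro i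
      unfold phi
      field_simp
    simp only [h5]
    rw [← Finset.mul_sum]
    unfold phi
    rw [le_div_iff₀ hs]
    have h6 : 1 / (m : ℝ) * (m / s * ∑ i ∈ Finset.range m, D (x' + ((i : ℝ) * (s / m)) • v)
        (x' + ((i : ℝ) * (s / m)) • v + (s / m) • v) (s / m * mu)) * s =
        ∑ i ∈ Finset.range m, D (x' + ((i : ℝ) * (s / m)) • v)
        (x' + ((i : ℝ) * (s / m)) • v + (s / m) • v) (s / m * mu) := by
      field_simp
    rw [h6]
    exact h1.trans h2
  have i3 : ∀ i : ℕ, IntegrableOn (fun x' => phi D v mu (s / m) (x' + ((i : ℝ) * (s / m)) • v))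
      (cube x r) := by
    intro i
    exact uppT_int _ r hr.le hd _ (C0 * mu) (hphim.comp (measurable_id.add_const _))
      (fun y => hphib _)
  have hfinx : volume (cube x r) ≠ ⊤ := by
    rw [vol_cube _ r hr.le hd]
    exact ENNReal.ofReal_ne_top
  have step4 : (1 / (m : ℝ)) * ∑ i ∈ Finset.range m, ∫ y in cube (c i) r, phi D v mu (s / m) y
      ≤ phi D v lam s x * r ^ d := by
    have e1 : ∀ i : ℕ, ∫ y in cube (c i) r, phi D v mu (s / m) y =
        ∫ x' in cube x r, phi D v mu (s / m) (x' + ((i : ℝ) * (s / m)) • v) := by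
      intro i
      rw [cube_translate]
    simp only [e1]
    rw [← integral_finsetSum _ (fun i _ => i3 i), ← integral_const_mul]
    have e2 : phi D v lam s x * r ^ d = ∫ x' in cube x r, phi D v lam s x := by
      rw [setIntegral_const, smul_eq_mul, hvol, mul_comm]
    rw [e2]
    refine setIntegral_mono_on ?_ (integrableOn_const hfinx) (meas_cube _ _) step3
    exact (integrable_finsetSum _ (fun i _ => i3 i)).const_mul _
  -- conclusion
  have step5 : (1 / (m : ℝ)) * ∑ i ∈ Finset.range m,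
      (g' * r ^ d - (∫ y in cube (c i) r, Q.indicator (fun y => |h' y - g'|) y)
        - 2 * d * (C0 * mu) * r ^ (d - 1) * (‖v‖ * (s / m))) ≤ phi D v lam s x * r ^ d := by
    refine le_trans ?_ step4
    refine mul_le_mul_of_nonneg_left (Finset.sum_le_sum fun i hi => ?_) (by positivity)
    have hi' := Finset.mem_range.1 hi
    linarith [step1 i hi', step2 i hi']
  have hrd : r ^ d = r ^ (d - 1) * r := by
    rw [← pow_succ]
    congr 1
    omega
  have hrp : 0 < r ^ d := by positivity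
  have hrp' : 0 < r ^ (d - 1) := by positivity
  rw [Finset.sum_sub_distrib, Finset.sum_sub_distrib, Finset.sum_const, Finset.sum_const,
    Finset.card_range, nsmul_eq_mul, nsmul_eq_mul] at step5
  rw [← div_le_iff₀ hrp] at step5
  refine le_trans (le_of_eq ?_) step5
  generalize (∑ i ∈ Finset.range m, ∫ y in cube (c i) r, Q.indicator (fun y => |h' y - g'|) y) = sf
  rw [hrd]
  field_simp

/-- Markov inequality. -/
private theorem uppT_markov (Q Qm : Set (E d)) (hQm : MeasurableSet Qm)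
    (hsub : Qm ⊆ Q) (hQfin : volume Q ≠ ⊤) (φ F : E d → ℝ) (hφm : Measurable φ)
    (hφ : IntegrableOn φ Q) (hφ0 : ∀ x, 0 ≤ φ x) (hF : Integrable F) (hF0 : ∀ x, 0 ≤ F x)
    (g g' e ε : ℝ) (he : 0 ≤ e) (hpt : ∀ x ∈ Qm, g' - F x - e ≤ φ x) (hgg : g' ≤ g + ε / 2) :
    ε / 2 * (volume : Measure (E d)).real {x | x ∈ Qm ∧ g + ε < φ x} ≤
      (∫ x in Q, φ x) - (g' - e) * (volume : Measure (E d)).real Qm + ∫ x, F x := by
  have hQmfin : volume Qm ≠ ⊤ := ne_top_of_le_ne_top hQfin (measure_mono hsub)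
  set Bad : Set (E d) := {x | x ∈ Qm ∧ g + ε < φ x} with hBad
  have hBm : MeasurableSet Bad := hQm.inter (measurableSet_lt measurable_const hφm)
  have hBs : Bad ⊆ Qm := fun x hx => hx.1
  have hBfin : volume Bad ≠ ⊤ := ne_top_of_le_ne_top hQmfin (measure_mono hBs)
  set ψ : E d → ℝ := fun x => (φ x + F x) - (g' - e) with hψ
  have iφ : IntegrableOn φ Qm := hφ.mono_set hsub
  have iF : IntegrableOn F Qm := hF.integrableOn
  have ic : IntegrableOn (fun _ : E d => g' - e) Qm := integrableOn_const hQmfin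
  have iψ : IntegrableOn ψ Qm := (iφ.add iF).sub ic
  have e1 : ε / 2 * (volume : Measure (E d)).real Bad = ∫ x in Bad, ε / 2 := by
    rw [setIntegral_const, smul_eq_mul, mul_comm]
  have ib : IntegrableOn (fun _ : E d => ε / 2) Bad := integrableOn_const hBfin
  have e2 : ∫ x in Bad, ε / 2 ≤ ∫ x in Bad, ψ x := by
    refine setIntegral_mono_on ib (iψ.mono_set hBs) hBm fun x hx => ?_
    have h1 := hx.2
    have h2 := hF0 x
    show ε / 2 ≤ (φ x + F x) - (g' - e)
    linarith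
  have e3 : ∫ x in Bad, ψ x ≤ ∫ x in Qm, ψ x := by
    refine setIntegral_mono_set iψ ?_ (Filter.Eventually.of_forall hBs)
    filter_upwards [ae_restrict_mem hQm] with x hx
    have h1 := hpt x hx
    show 0 ≤ (φ x + F x) - (g' - e)
    linarith
  have e4 : ∫ x in Qm, ψ x = (∫ x in Qm, φ x) + (∫ x in Qm, F x) -
      (g' - e) * (volume : Measure (E d)).real Qm := by
    have h1 : ∫ x in Qm, ψ x = (∫ x in Qm, (φ x + F x)) - ∫ x in Qm, (g' - e) :=
      integral_sub (iφ.add iF) ic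
    rw [h1, integral_add iφ iF, setIntegral_const, smul_eq_mul, mul_comm (g' - e)]
  have e5 : ∫ x in Qm, φ x ≤ ∫ x in Q, φ x :=
    setIntegral_mono_set hφ (Filter.Eventually.of_forall hφ0) (Filter.Eventually.of_forall hsub)
  have e6 : ∫ x in Qm, F x ≤ ∫ x, F x :=
    setIntegral_le_integral hF (Filter.Eventually.of_forall hF0)
  linarith

/-- The averages of a nonnegative function over translated cubes. -/
private theorem uppT_F (hd : 1 ≤ d) (v : E d) (f : E d → ℝ) (hfm : Measurable f)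
    (hf : Integrable f) (hf0 : ∀ x, 0 ≤ f x) (m : ℕ) (hm : 1 ≤ m) (s r : ℝ) (hr : 0 < r) :
    Integrable (fun x => (1 / (m * r ^ d)) * (∑ i ∈ Finset.range m,
        (∫ y in cube (x + ((i : ℝ) * (s / m)) • v) r, f y))) ∧
      (∀ x, 0 ≤ (1 / (m * r ^ d)) * (∑ i ∈ Finset.range m,
        (∫ y in cube (x + ((i : ℝ) * (s / m)) • v) r, f y))) ∧
      ∫ x, (1 / (m * r ^ d)) * (∑ i ∈ Finset.range m,
        (∫ y in cube (x + ((i : ℝ) * (s / m)) • v) r, f y)) = ∫ x, f x := by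
  have hmR : (0 : ℝ) < m := by exact_mod_cast hm
  obtain ⟨hk1, hk2⟩ := uppT_avg hd f hfm hf r hr.le
  set κ : E d → ℝ := fun x => ∫ y in cube (0 : E d) r, f (y + x) with hκ
  have hcub : ∀ u : E d, ∫ y in cube u r, f y = κ u := by
    intro u
    have := cube_translate (0 : E d) u r f
    rw [zero_add] at this
    exact this.symm
  have hi : ∀ i : ℕ, Integrable (fun x => κ (x + ((i : ℝ) * (s / m)) • v)) := fun i =>
    hk1.comp_add_right _
  simp only [hcub]
  refine ⟨(integrable_finsetSum _ fun i _ => hi i).const_mul _, ?_, ?_⟩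
  · intro x
    refine mul_nonneg (by positivity) (Finset.sum_nonneg fun i _ => ?_)
    exact integral_nonneg fun y => hf0 _
  · rw [integral_const_mul, integral_finsetSum _ fun i _ => hi i]
    have h1 : ∀ i ∈ Finset.range m, ∫ x, κ (x + ((i : ℝ) * (s / m)) • v) = r ^ d * ∫ x, f x := by
      intro i _
      rw [integral_add_right_eq_self κ, hk2]
    rw [Finset.sum_congr rfl h1, Finset.sum_const, Finset.card_range, nsmul_eq_mul]
    field_simp

/-- The smaller cube. -/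
private theorem uppT_cubes (v c0 : E d) (ℓ s T0 t : ℝ) (m : ℕ) (hm : 1 ≤ m) (hs : 0 < s)
    (ht : t = s * (‖v‖ + T0)) (c1 : E d) (hc1 : ∀ i, c1 i = c0 i + t) :
    (∀ x ∈ cube c1 (ℓ - 2 * t), ∀ i < m, cube (x + ((i : ℝ) * (s / m)) • v) (s * T0) ⊆ cube c0 ℓ) := by
  intro x hx i hi y hy j
  have hmR : (0 : ℝ) < m := by exact_mod_cast hm
  have h1 := hx j
  have h2 := hy j
  rw [hc1 j] at h1
  have h3 : (x + ((i : ℝ) * (s / m)) • v) j = x j + ((i : ℝ) * (s / m)) * v j := rfl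
  rw [h3] at h2
  have h4 : |v j| ≤ ‖v‖ := by
    have := PiLp.norm_apply_le v j
    rwa [Real.norm_eq_abs] at this
  have h5 : (i : ℝ) * (s / m) ≤ s := by
    have h6 : (i : ℝ) ≤ m := by exact_mod_cast hi.le
    calc (i : ℝ) * (s / m) ≤ m * (s / m) := mul_le_mul_of_nonneg_right h6 (by positivity)
      _ = s := by field_simp
  have h7 : |(i : ℝ) * (s / m) * v j| ≤ s * ‖v‖ := by
    rw [abs_mul, abs_of_nonneg (by positivity : (0 : ℝ) ≤ (i : ℝ) * (s / m))]
    exact mul_le_mul h5 h4 (abs_nonneg _) hs.le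
  obtain ⟨h8, h9⟩ := abs_le.1 h7
  have h10 : t = s * ‖v‖ + s * T0 := by rw [ht]; ring
  constructor
  · nlinarith [h1.1, h2.1, h1.2, h2.2]
  · nlinarith [h1.1, h2.1, h1.2, h2.2]

theorem upperT (hd : 1 ≤ d) (hD : Nice D C0) (v : E d) (lam : ℝ) (hv : ‖v‖ < lam) (ε : ℝ)
    (hε : 0 < ε) :
    ∃ ρ τ : ℝ, 0 < ρ ∧ 0 < τ ∧ ‖v‖ < lam - ρ ∧
      ∀ (h h' : E d → ℝ) (n : ℕ) (z : Fin d → ℤ) (g g' : ℝ),
      IsDens D v lam (cell n z) h → IsDens D v (lam - ρ) (cell n z) h' → 0 ≤ g → 0 ≤ g' →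
      ∫ x in cell n z, |h x - g| ≤ τ * (2⁻¹ ^ n) ^ d →
      ∫ x in cell n z, |h' x - g'| ≤ τ * (2⁻¹ ^ n) ^ d →
      ∃ s0 : ℝ, 0 < s0 ∧ ∀ s, 0 < s → s < s0 →
        volume {x | x ∈ cell n z ∧ s * (g + ε) < D x (x + s • v) (s * lam)} ≤
          ENNReal.ofReal (ε * (2⁻¹ ^ n) ^ d) := by
  classical
  set B : ℝ := C0 * lam with hB
  have hlam : 0 < lam := lt_of_le_of_lt (norm_nonneg v) hv
  have hB0 : 0 ≤ B := mul_nonneg hD.C0_nonneg hlam.le
  have hB1 : 0 < B + 1 := by linarith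
  have hg0 : 0 < (lam - ‖v‖) / 2 := by linarith
  obtain ⟨G0, hG0⟩ : ∃ G0 : ℝ, G0 = (lam - ‖v‖) / 2 := ⟨_, rfl⟩
  rw [← hG0] at hg0
  obtain ⟨ρ, hρdef⟩ : ∃ ρ : ℝ, ρ = min (G0 / 2) (ε ^ 2 * G0 / (16 * (B + 1))) := ⟨_, rfl⟩
  have hρ : 0 < ρ := by rw [hρdef]; positivity
  have hρ1 : ρ ≤ G0 / 2 := by rw [hρdef]; exact min_le_left _ _
  have hρ2 : ρ ≤ ε ^ 2 * G0 / (16 * (B + 1)) := by rw [hρdef]; exact min_le_right _ _
  have hη : ρ / G0 * B ≤ ε ^ 2 / 16 := by
    have h1 : ρ * (16 * (B + 1)) ≤ ε ^ 2 * G0 := by rwa [le_div_iff₀ (by positivity)] at hρ2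
    rw [div_mul_eq_mul_div, div_le_iff₀ hg0]
    linarith
  obtain ⟨τ, hτdef⟩ : ∃ τ : ℝ, τ = min 1 (min (ε / 4) (ε ^ 2 / 80)) := ⟨_, rfl⟩
  have hτ : 0 < τ := by rw [hτdef]; positivity
  have hτ1 : τ ≤ 1 := by rw [hτdef]; exact min_le_left _ _
  have hτ2 : τ ≤ ε / 4 := by
    rw [hτdef]; exact (min_le_right _ _).trans (min_le_left _ _)
  have hτ3 : τ ≤ ε ^ 2 / 80 := by
    rw [hτdef]; exact (min_le_right _ _).trans (min_le_right _ _)
  obtain ⟨mu, hmudef⟩ : ∃ mu : ℝ, mu = lam - ρ := ⟨_, rfl⟩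
  have hmu : ‖v‖ < mu := by rw [hmudef]; linarith
  refine ⟨ρ, τ, hρ, hτ, by rw [← hmudef]; exact hmu, ?_⟩
  intro h h' n z g g' hh hh' hg hg' hgi hgi'
  rw [← hmudef] at hh'
  obtain ⟨c0, hc0⟩ := cell_eq_cube (d := d) n z
  obtain ⟨ℓ, hℓdef⟩ : ∃ ℓ : ℝ, ℓ = 2⁻¹ ^ n := ⟨_, rfl⟩
  have hℓ : 0 < ℓ := by rw [hℓdef]; positivity
  rw [← hℓdef] at hc0 hgi hgi' ⊢
  rw [hc0] at hh hh' hgi hgi' ⊢
  obtain ⟨V, hVdef⟩ : ∃ V : ℝ, V = ℓ ^ d := ⟨_, rfl⟩
  have hV : 0 < V := by rw [hVdef]; positivity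
  have hvolQ : volume (cube c0 ℓ) = ENNReal.ofReal V := by
    rw [hVdef]; exact vol_cube c0 ℓ hℓ.le hd
  have hQfin : volume (cube c0 ℓ) ≠ ⊤ := by rw [hvolQ]; exact ENNReal.ofReal_ne_top
  have hvolQ' : (volume : Measure (E d)).real (cube c0 ℓ) = V := by
    rw [Measure.real, hvolQ, ENNReal.toReal_ofReal hV.le]
  rw [← hVdef] at hgi hgi' ⊢
  -- integrals
  have hmu0 : 0 < mu := lt_of_le_of_lt (norm_nonneg v) hmu
  have hmul : mu < lam := by rw [hmudef]; linarith
  obtain ⟨hm1, hp1, ⟨Bh, hBh⟩, hlim⟩ := id hh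
  obtain ⟨hm2, hp2, ⟨Bh', hBh'⟩, hlim'⟩ := id hh'
  have hI := hlim c0 ℓ hℓ subset_rfl
  have hI' := hlim' c0 ℓ hℓ subset_rfl
  have iφ : ∀ s, 0 < s → IntegrableOn (phi D v lam s) (cube c0 ℓ) := fun s hs =>
    uppT_int c0 ℓ hℓ.le hd _ B (phi_meas hD v lam s) (fun x => by
      rw [abs_of_nonneg (phi_nonneg hD v lam s hs x)]; exact phi_le hD v lam s hs hlam.le x)
  have iφ' : ∀ s, 0 < s → IntegrableOn (phi D v mu s) (cube c0 ℓ) := fun s hs =>
    uppT_int c0 ℓ hℓ.le hd _ (C0 * mu) (phi_meas hD v mu s) (fun x => by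
      rw [abs_of_nonneg (phi_nonneg hD v mu s hs x)]; exact phi_le hD v mu s hs hmu0.le x)
  have hIB : ∫ x in cube c0 ℓ, h x ≤ B * V := by
    refine le_of_tendsto hI ?_
    filter_upwards [self_mem_nhdsWithin] with s hs
    have e1 : B * V = ∫ x in cube c0 ℓ, B := by
      rw [setIntegral_const, smul_eq_mul, hvolQ', mul_comm]
    rw [e1]
    exact setIntegral_mono (iφ s hs) (integrableOn_const hQfin)
      (fun x => phi_le hD v lam s hs hlam.le x)
  have hII : ∫ x in cube c0 ℓ, h' x ≤ ∫ x in cube c0 ℓ, h x := by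
    refine le_of_tendsto_of_tendsto hI' hI ?_
    filter_upwards [self_mem_nhdsWithin] with s hs
    refine setIntegral_mono (iφ' s hs) (iφ s hs) fun x => ?_
    unfold phi
    refine div_le_div_of_nonneg_right (hD.cone _ _ _ _ _ _ ?_) (le_of_lt hs)
    rw [sub_self, sub_self, norm_zero, add_zero, add_zero]
    exact mul_le_mul_of_nonneg_left hmul.le (le_of_lt hs)
  have hbud := budget_lim hd hD v (lam - G0) mu lam (by rw [hG0]; linarith)
    (by rw [hmudef]; linarith) hmul.le c0 ℓ hℓ _ _ hI' hI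
  have hbud' : (1 - ρ / G0) * ∫ x in cube c0 ℓ, h x ≤ ∫ x in cube c0 ℓ, h' x := by
    have e1 : (lam - mu) / (lam - (lam - G0)) = ρ / G0 := by
      rw [hmudef]
      congr 1 <;> ring
    rw [e1] at hbud
    exact hbud
  have habs : ∀ (k : E d → ℝ) (c Bk : ℝ), Measurable k → (∀ x, 0 ≤ k x) → (∀ x, k x ≤ Bk) →
      ∫ x in cube c0 ℓ, |k x - c| ≤ τ * V → |(∫ x in cube c0 ℓ, k x) - c * V| ≤ τ * V := by
    intro k c Bk hk hk0 hkB hkc
    have i1 : IntegrableOn k (cube c0 ℓ) := uppT_int c0 ℓ hℓ.le hd k Bk hk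
      (fun x => by rw [abs_of_nonneg (hk0 x)]; exact hkB x)
    have i2 : IntegrableOn (fun _ : E d => c) (cube c0 ℓ) := integrableOn_const hQfin
    have e1 : (∫ x in cube c0 ℓ, k x) - c * V = ∫ x in cube c0 ℓ, (k x - c) := by
      rw [integral_sub i1 i2, setIntegral_const, smul_eq_mul, hvolQ', mul_comm c]
    rw [e1]
    exact (abs_integral_le_integral_abs).trans hkc
  have hA := abs_le.1 (habs h g Bh hm1 hp1 hBh hgi)
  have hA' := abs_le.1 (habs h' g' Bh' hm2 hp2 hBh' hgi')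
  have hI0 : 0 ≤ ∫ x in cube c0 ℓ, h x := integral_nonneg fun x => hp1 x
  have hgg : g - g' ≤ ε ^ 2 / 16 + 2 * τ := by
    have h1 : (g - g') * V ≤ (ε ^ 2 / 16 + 2 * τ) * V := by
      have h2 : ρ / G0 * (∫ x in cube c0 ℓ, h x) ≤ ρ / G0 * (B * V) :=
        mul_le_mul_of_nonneg_left hIB (by positivity)
      have h3 : ρ / G0 * (B * V) ≤ ε ^ 2 / 16 * V := by
        rw [← mul_assoc]
        exact mul_le_mul_of_nonneg_right hη hV.le
      linarith [hA.1, hA'.2, hbud', h2, h3]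
    exact le_of_mul_le_mul_right h1 hV
  have hgg' : g' ≤ g + 2 * τ := by
    have h1 : g' * V ≤ (g + 2 * τ) * V := by linarith [hA.2, hA'.1, hII]
    exact le_of_mul_le_mul_right h1 hV
  have hgB : g' ≤ B + 1 := by
    have h1 : g' * V ≤ (B + τ) * V := by linarith [hA'.1, hII, hIB]
    have h2 := le_of_mul_le_mul_right h1 hV
    linarith
  -- parameters
  obtain ⟨T0, hT0def⟩ : ∃ T0 : ℝ, T0 = ρ / (2 * (Real.sqrt d + 1)) := ⟨_, rfl⟩
  have hsq : 0 ≤ Real.sqrt d := Real.sqrt_nonneg _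
  have hT0 : 0 < T0 := by rw [hT0def]; positivity
  have hT0' : 2 * (Real.sqrt d * T0) ≤ ρ := by
    have : T0 * (2 * (Real.sqrt d + 1)) = ρ := by
      rw [hT0def]
      field_simp
    linarith
  obtain ⟨e, hedef⟩ : ∃ e : ℝ, e = ε ^ 2 / 16 := ⟨_, rfl⟩
  have he : 0 < e := by rw [hedef]; positivity
  obtain ⟨m, hm0⟩ := exists_nat_gt (2 * d * (C0 * mu) * ‖v‖ / (T0 * e))
  have hC0 := hD.C0_nonneg
  have hmpos : 0 < (m : ℝ) := lt_of_le_of_lt (by positivity) hm0
  have hm : 1 ≤ m := by exact_mod_cast hmpos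
  have hme : 2 * d * (C0 * mu) * ‖v‖ / (m * T0) ≤ e := by
    rw [div_le_iff₀ (by positivity)]
    rw [div_lt_iff₀ (by positivity)] at hm0
    linarith
  obtain ⟨θ, hθdef⟩ : ∃ θ : ℝ, θ = min 1 (min (ε / 8) (ε ^ 2 / (16 * (B + 1)))) := ⟨_, rfl⟩
  have hθ : 0 < θ := by rw [hθdef]; positivity
  have hθ1 : θ ≤ 1 := by rw [hθdef]; exact min_le_left _ _
  have hθ2 : θ ≤ ε / 8 := by
    rw [hθdef]; exact (min_le_right _ _).trans (min_le_left _ _)
  have hθ3 : θ * (B + 1) ≤ ε ^ 2 / 16 := by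
    have h1 : θ ≤ ε ^ 2 / (16 * (B + 1)) := by
      rw [hθdef]; exact (min_le_right _ _).trans (min_le_right _ _)
    rw [le_div_iff₀ (by positivity)] at h1
    linarith
  -- small scales
  have hev : ∀ᶠ s in 𝓝[>] (0 : ℝ),
      ∫ x in cube c0 ℓ, phi D v lam s x < (∫ x in cube c0 ℓ, h x) + τ * V :=
    hI.eventually_lt_const (by linarith [mul_pos hτ hV])
  obtain ⟨s1, hs1, hs1'⟩ := mem_nhdsGT_iff_exists_Ioo_subset.1 hev
  have hs1p : 0 < s1 := hs1
  have hdR : (1 : ℝ) ≤ d := by exact_mod_cast hd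
  have hvT : 0 < ‖v‖ + T0 := by
    have := norm_nonneg v
    linarith
  refine ⟨min s1 (θ * ℓ / (2 * d * (‖v‖ + T0))), lt_min hs1p (by positivity), ?_⟩
  intro s hs hss
  have hsa : s < s1 := hss.trans_le (min_le_left _ _)
  have hsb : s < θ * ℓ / (2 * d * (‖v‖ + T0)) := hss.trans_le (min_le_right _ _)
  have hφlim : ∫ x in cube c0 ℓ, phi D v lam s x < (∫ x in cube c0 ℓ, h x) + τ * V :=
    hs1' ⟨hs, hsa⟩
  obtain ⟨t, htdef⟩ : ∃ t : ℝ, t = s * (‖v‖ + T0) := ⟨_, rfl⟩
  have ht : 0 < t := by rw [htdef]; positivity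
  have ht2 : 2 * d * t ≤ θ * ℓ := by
    rw [lt_div_iff₀ (by positivity)] at hsb
    rw [htdef]
    linarith
  have ht3 : 2 * t ≤ ℓ := by
    have h1 : t ≤ d * t := le_mul_of_one_le_left ht.le hdR
    have h2 : θ * ℓ ≤ 1 * ℓ := mul_le_mul_of_nonneg_right hθ1 hℓ.le
    linarith
  obtain ⟨c1, hc1⟩ : ∃ c1 : E d, ∀ i, c1 i = c0 i + t :=
    ⟨WithLp.toLp 2 (fun i => c0 i + t), fun i => rfl⟩
  have hcub := uppT_cubes v c0 ℓ s T0 t m hm hs htdef c1 hc1
  have hQm : MeasurableSet (cube c1 (ℓ - 2 * t)) := meas_cube _ _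
  have hsub : cube c1 (ℓ - 2 * t) ⊆ cube c0 ℓ := by
    intro x hx j
    have h1 := hx j
    rw [hc1 j] at h1
    exact ⟨by linarith [h1.1], by linarith [h1.2]⟩
  have hvolm : (volume : Measure (E d)).real (cube c1 (ℓ - 2 * t)) = (ℓ - 2 * t) ^ d := by
    rw [Measure.real, vol_cube _ _ (by linarith) hd, ENNReal.toReal_ofReal]
    exact pow_nonneg (by linarith) _
  obtain ⟨Vm, hVm⟩ : ∃ Vm : ℝ, Vm = (volume : Measure (E d)).real (cube c1 (ℓ - 2 * t)) := ⟨_, rfl⟩
  have hVm1 : (1 - θ) * V ≤ Vm := by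
    rw [hVm, hvolm, hVdef]
    have h1 : ℓ - 2 * t = ℓ * (1 + (-(2 * t / ℓ))) := by
      field_simp
      ring
    have h2 : 2 * t / ℓ ≤ 1 := by rwa [div_le_one hℓ]
    have h3 := one_add_mul_le_pow (a := -(2 * t / ℓ)) (by linarith) d
    have h4 : (d : ℝ) * (2 * t / ℓ) ≤ θ := by
      rw [← mul_div_assoc, div_le_iff₀ hℓ]
      linarith
    rw [h1, mul_pow, mul_comm]
    refine mul_le_mul_of_nonneg_left ?_ (by positivity)
    linarith
  have hVm2 : Vm ≤ V := by
    rw [hVm, ← hvolQ', Measure.real, Measure.real]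
    exact ENNReal.toReal_mono hQfin (measure_mono hsub)
  -- the averages
  obtain ⟨f, hfdef⟩ : ∃ f : E d → ℝ, f = (cube c0 ℓ).indicator (fun y => |h' y - g'|) := ⟨_, rfl⟩
  have hfm0 : Measurable (fun y => |h' y - g'|) := (hm2.sub_const g').abs
  have hfm : Measurable f := by rw [hfdef]; exact hfm0.indicator (meas_cube _ _)
  have hf0 : ∀ x, 0 ≤ f x := by
    intro x
    rw [hfdef]
    exact Set.indicator_nonneg (fun y _ => abs_nonneg _) x
  have hfi : Integrable f := by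
    rw [hfdef, integrable_indicator_iff (meas_cube _ _)]
    refine uppT_int c0 ℓ hℓ.le hd _ (Bh' + |g'|) hfm0 fun y => ?_
    rw [abs_abs]
    calc |h' y - g'| ≤ |h' y| + |g'| := abs_sub _ _
      _ ≤ Bh' + |g'| := by
        rw [abs_of_nonneg (hp2 y)]
        linarith [hBh' y]
  have hfint : ∫ x, f x ≤ τ * V := by
    rw [hfdef, integral_indicator (meas_cube _ _)]
    exact hgi'
  have hr : 0 < s * T0 := by positivity
  obtain ⟨F1, F2, F3⟩ := uppT_F hd v f hfm hfi hf0 m hm s (s * T0) hr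
  have hpt : ∀ x ∈ cube c1 (ℓ - 2 * t), g' - (1 / (m * (s * T0) ^ d)) * (∑ i ∈ Finset.range m,
        (∫ y in cube (x + ((i : ℝ) * (s / m)) • v) (s * T0), f y)) - e ≤ phi D v lam s x := by
    intro x hx
    have h1 := uppT_point hd hD v lam mu hmu (cube c0 ℓ) h' hh' g' m hm s (s * T0) hs hr
      (by
        have : lam - mu = ρ := by rw [hmudef]; ring
        rw [this]
        have h0 := mul_le_mul_of_nonneg_right hT0' hs.le
        linarith) x (hcub x hx)
    rw [← hfdef] at h1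
    have h2 : 2 * d * (C0 * mu) * ‖v‖ * s / (m * (s * T0)) = 2 * d * (C0 * mu) * ‖v‖ / (m * T0) := by
      field_simp
    rw [h2] at h1
    linarith
  have hM := uppT_markov (cube c0 ℓ) (cube c1 (ℓ - 2 * t)) hQm hsub hQfin (phi D v lam s) _
    (phi_meas hD v lam s) (iφ s hs) (fun x => phi_nonneg hD v lam s hs x) F1 F2 g g' e ε he.le hpt
    (by linarith)
  rw [F3, ← hVm] at hM
  obtain ⟨Bd, hBd⟩ : ∃ Bd : Set (E d),
      Bd = {x | x ∈ cube c1 (ℓ - 2 * t) ∧ g + ε < phi D v lam s x} := ⟨_, rfl⟩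
  rw [← hBd] at hM
  have hBdfin : volume Bd ≠ ⊤ := by
    refine ne_top_of_le_ne_top hQfin (measure_mono ?_)
    rw [hBd]
    exact fun x hx => hsub hx.1
  have hfinal : (volume : Measure (E d)).real Bd ≤ (ε - θ) * V := by
    have h1 : ε / 2 * (volume : Measure (E d)).real Bd ≤ ε / 2 * ((ε - θ) * V) := by
      have h2 : (g' - e) * Vm ≥ g' * ((1 - θ) * V) - e * V := by
        have h3 : g' * ((1 - θ) * V) ≤ g' * Vm := mul_le_mul_of_nonneg_left hVm1 hg'
        have h4 : e * Vm ≤ e * V := mul_le_mul_of_nonneg_left hVm2 he.le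
        linarith
      have h5 : g' * θ ≤ ε ^ 2 / 16 := by
        calc g' * θ ≤ (B + 1) * θ := mul_le_mul_of_nonneg_right hgB hθ.le
          _ = θ * (B + 1) := mul_comm _ _
          _ ≤ _ := hθ3
      have h6 : ε / 2 * (volume : Measure (E d)).real Bd ≤
          (g - g' + 3 * τ + e + g' * θ) * V := by
        linarith [hA.2, hM, hφlim, h2, hfint]
      refine h6.trans ?_
      have h7 : g - g' + 3 * τ + e + g' * θ ≤ ε / 2 * (ε - θ) := by
        have h8 : ε * θ ≤ ε * (ε / 8) := mul_le_mul_of_nonneg_left hθ2 hε.le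
        have h9 : 0 ≤ ε ^ 2 := sq_nonneg ε
        have h10 : ε / 2 * (ε - θ) = ε ^ 2 / 2 - ε * θ / 2 := by ring
        have h11 : ε * (ε / 8) = ε ^ 2 / 8 := by ring
        linarith
      calc (g - g' + 3 * τ + e + g' * θ) * V ≤ (ε / 2 * (ε - θ)) * V :=
            mul_le_mul_of_nonneg_right h7 hV.le
        _ = ε / 2 * ((ε - θ) * V) := by ring
    exact le_of_mul_le_mul_left h1 (by positivity)
  have hcover : {x | x ∈ cube c0 ℓ ∧ s * (g + ε) < D x (x + s • v) (s * lam)} ⊆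
      (cube c0 ℓ \ cube c1 (ℓ - 2 * t)) ∪ Bd := by
    rintro x ⟨hx1, hx2⟩
    by_cases hx3 : x ∈ cube c1 (ℓ - 2 * t)
    · right
      rw [hBd]
      refine ⟨hx3, ?_⟩
      unfold phi
      rw [lt_div_iff₀ hs]
      linarith
    · exact Or.inl ⟨hx1, hx3⟩
  have hdiff : volume (cube c0 ℓ \ cube c1 (ℓ - 2 * t)) ≤ ENNReal.ofReal (θ * V) := by
    have hmf : volume (cube c1 (ℓ - 2 * t)) ≠ ⊤ := ne_top_of_le_ne_top hQfin (measure_mono hsub)
    rw [measure_sdiff hsub hQm.nullMeasurableSet hmf, hvolQ, ← ENNReal.ofReal_toReal hmf]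
    have h1 : (volume (cube c1 (ℓ - 2 * t))).toReal = Vm := by rw [hVm]; rfl
    rw [h1, ← ENNReal.ofReal_sub _ (by rw [hVm]; exact measureReal_nonneg)]
    exact ENNReal.ofReal_le_ofReal (by linarith)
  have hBd' : volume Bd ≤ ENNReal.ofReal ((ε - θ) * V) := by
    rw [← ENNReal.ofReal_toReal hBdfin]
    exact ENNReal.ofReal_le_ofReal hfinal
  calc volume {x | x ∈ cube c0 ℓ ∧ s * (g + ε) < D x (x + s • v) (s * lam)}
      ≤ volume ((cube c0 ℓ \ cube c1 (ℓ - 2 * t)) ∪ Bd) := measure_mono hcover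
    _ ≤ volume (cube c0 ℓ \ cube c1 (ℓ - 2 * t)) + volume Bd := measure_union_le _ _
    _ ≤ ENNReal.ofReal (θ * V) + ENNReal.ofReal ((ε - θ) * V) := add_le_add hdiff hBd'
    _ = ENNReal.ofReal (ε * V) := by
      rw [← ENNReal.ofReal_add (by positivity)
        (mul_nonneg (by linarith) hV.le)]
      congr 1
      ring

end MP4fb

end
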